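import Pool.Agent.H.MP_d59dab.Od

/-!
# MP_d59dab: the coordinate functional on the basis, top homogeneous part of `x_E`
-/

set_option autoImplicit false

open Finset Polynomial

noncomputable section

namespace Dyn59

section ring

variable {R : Type*} [CommRing R]

/-- the part of `S` in `[i, ∞)`, shifted to `0` -/
def hi (i : ℕ) (S : Finset ℕ) : Finset ℕ := (S.filter (i ≤ ·)).image (· - i)

theorem mem_hi {i r : ℕ} {S : Finset ℕ} : r ∈ hi i S ↔ i + r ∈ S := by
  unfold hi
  rw [mem_image]
  constructor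
  · rintro ⟨s, hs, rfl⟩
    rw [mem_filter] at hs
    rw [Nat.add_sub_cancel' hs.2]
    exact hs.1
  · intro h
    exact ⟨i + r, mem_filter.2 ⟨h, by omega⟩, by omega⟩

theorem hi_map (i : ℕ) (S : Finset ℕ) :
    (hi i S).map (addLeftEmbedding i) = S.filter (i ≤ ·) := by
  ext s
  rw [mem_map, mem_filter]
  constructor
  · rintro ⟨r, hr, rfl⟩
    rw [mem_hi] at hr
    exact ⟨hr, Nat.le_add_right i r⟩
  · rintro ⟨h1, h2⟩
    refine ⟨s - i, mem_hi.2 (by rwa [Nat.add_sub_cancel' h2]), ?_⟩
    show i + (s - i) = s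
    omega

theorem xS_union {A B : Finset ℕ} (h : Disjoint A B) : xS R (A ∪ B) = xS R A * xS R B :=
  prod_union h

theorem xS_split (i : ℕ) (S : Finset ℕ) :
    xS R S = xS R (S.filter (· < i)) * (sig R)^[i] (xS R (hi i S)) := by
  rw [sigit_xS, hi_map]
  unfold xS
  rw [← prod_filter_mul_prod_filter_not S (· < i)]
  congr 2
  ext s
  rw [mem_filter, mem_filter, not_lt]

/-- a product of letters below `i` as a product of powers -/
theorem xS_eq_prod {i : ℕ} {K : Finset ℕ} (hK : ∀ t ∈ K, t < i) :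
    xS R K = ∏ t ∈ range i, xi R t ^ (if t ∈ K then 1 else 0) := by
  have h : K = (range i).filter (· ∈ K) := by
    ext t
    rw [mem_filter, mem_range]
    exact ⟨fun ht => ⟨hK t ht, ht⟩, fun ht => ht.2⟩
  have h1 : xS R K = ∏ t ∈ (range i).filter (· ∈ K), xi R t := by
    rw [← h]
    rfl
  rw [h1, prod_filter]
  apply prod_congr rfl
  intro t _
  split_ifs
  · rw [pow_one]
  · rw [pow_zero]

theorem odi_mo (i : ℕ) {K : Finset ℕ} (hK : ∀ t ∈ K, t < i) (S : Finset ℕ) (l : ℕ) :
    odi i (xS R K * mo R S l)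
      = if K = range i \ S then xS R (hi i S) * C (X ^ l) else 0 := by
  set a : ℕ → ℕ := fun t => (if t ∈ K then 1 else 0) + (if t ∈ S then 1 else 0) with ha
  have h1 : xS R K * mo R S l = (sig R)^[i] (xS R (hi i S) * C (X ^ l))
      * ∏ t ∈ range i, xi R t ^ a t := by
    unfold mo
    rw [xS_split i S, xS_eq_prod hK,
      xS_eq_prod (i := i) (K := S.filter (· < i)) (fun t ht => (mem_filter.1 ht).2),
      sigit_mul, sigit_C]
    have h2 : ∏ t ∈ range i, xi R t ^ a t
        = (∏ t ∈ range i, xi R t ^ (if t ∈ K then 1 else 0))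
          * ∏ t ∈ range i, xi R t ^ (if t ∈ S.filter (· < i) then 1 else 0) := by
      rw [← prod_mul_distrib]
      apply prod_congr rfl
      intro t ht
      rw [mem_range] at ht
      rw [ha, pow_add]
      congr 2
      simp [mem_filter, ht]
    rw [h2]
    ring
  rw [h1, odi_sig_mul, odi_prod]
  split_ifs with h
  · rw [PT_of_one, mul_one]
    intro t ht
    rw [ha]
    simp only
    rw [h]
    simp only [mem_sdiff, mem_range, ht, true_and]
    by_cases hS : t ∈ S <;> simp [hS]
  · have h3 : ∃ t < i, a t ≠ 1 := by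
      by_contra hcon
      push Not at hcon
      apply h
      ext t
      rw [mem_sdiff, mem_range]
      constructor
      · intro ht
        have h4 := hcon t (hK t ht)
        rw [ha] at h4
        simp only [ht, if_true] at h4
        refine ⟨hK t ht, fun hS => ?_⟩
        simp [hS] at h4
      · rintro ⟨ht, hS⟩
        have h4 := hcon t ht
        rw [ha] at h4
        by_contra hk
        simp [hS, hk] at h4
    classical
    rw [PT_zero_of_even, mul_zero]
    refine ⟨Nat.find h3, (Nat.find_spec h3).1, ?_, ?_⟩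
    · intro s hs
      by_contra hc
      exact Nat.find_min h3 hs ⟨lt_trans hs (Nat.find_spec h3).1, hc⟩
    · have h5 := (Nat.find_spec h3).2
      generalize Nat.find h3 = t at h5 ⊢
      rw [ha] at h5 ⊢
      simp only at h5 ⊢
      split_ifs at h5 ⊢ <;> simp_all

/-! ### the top homogeneous part of `x_E` (weights `x : 1`, `z : 2`) -/

/-- weight at most `N` -/
def WLe (N : ℕ) (f : R[X][X]) : Prop := ∀ a b : ℕ, (f.coeff a).coeff b ≠ 0 → a + 2 * b ≤ N

/-- weight at most `N - 2` and divisible by `z` -/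
def Low (N : ℕ) (f : R[X][X]) : Prop :=
  ∀ a b : ℕ, (f.coeff a).coeff b ≠ 0 → a + 2 * b + 2 ≤ N ∧ 1 ≤ b

theorem exists_coeff_mul {f g : R[X][X]} {a b : ℕ} (h : ((f * g).coeff a).coeff b ≠ 0) :
    ∃ a1 a2 b1 b2, a1 + a2 = a ∧ b1 + b2 = b ∧ (f.coeff a1).coeff b1 ≠ 0 ∧
      (g.coeff a2).coeff b2 ≠ 0 := by
  rw [coeff_mul, finsetSum_coeff] at h
  obtain ⟨⟨a1, a2⟩, ha, h1⟩ := exists_ne_zero_of_sum_ne_zero h
  rw [coeff_mul] at h1
  obtain ⟨⟨b1, b2⟩, hb, h2⟩ := exists_ne_zero_of_sum_ne_zero h1
  rw [HasAntidiagonal.mem_antidiagonal] at ha hb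
  exact ⟨a1, a2, b1, b2, ha, hb, left_ne_zero_of_mul h2, right_ne_zero_of_mul h2⟩

theorem exists_coeff_add {f g : R[X][X]} {a b : ℕ} (h : ((f + g).coeff a).coeff b ≠ 0) :
    (f.coeff a).coeff b ≠ 0 ∨ (g.coeff a).coeff b ≠ 0 := by
  by_contra hc
  push Not at hc
  rw [coeff_add, coeff_add, hc.1, hc.2, add_zero] at h
  exact h rfl

theorem WLe.mul {N M : ℕ} {f g : R[X][X]} (hf : WLe N f) (hg : WLe M g) : WLe (N + M) (f * g) := by
  intro a b h
  obtain ⟨a1, a2, b1, b2, rfl, rfl, h1, h2⟩ := exists_coeff_mul h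
  have := hf a1 b1 h1
  have := hg a2 b2 h2
  omega

theorem WLe.one : WLe 0 (1 : R[X][X]) := by
  intro a b h
  by_cases ha : a = 0
  · by_cases hb : b = 0
    · subst ha hb
      omega
    · exfalso
      apply h
      rw [coeff_one, if_pos ha, coeff_one, if_neg hb]
  · exfalso
    apply h
    rw [coeff_one, if_neg ha, coeff_zero]

theorem WLe.pow {N : ℕ} {f : R[X][X]} (hf : WLe N f) (n : ℕ) : WLe (n * N) (f ^ n) := by
  induction n with
  | zero =>
    rw [pow_zero, zero_mul]
    exact WLe.one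
  | succ n ih =>
    rw [pow_succ, Nat.succ_mul]
    exact ih.mul hf

theorem WLe.X : WLe 1 (Polynomial.X : R[X][X]) := by
  intro a b h
  rw [coeff_X] at h
  split_ifs at h with h1
  · rw [coeff_one] at h
    split_ifs at h with h2
    · omega
    · exact absurd rfl h
  · rw [coeff_zero] at h
    exact absurd rfl h

theorem WLe.add {N : ℕ} {f g : R[X][X]} (hf : WLe N f) (hg : WLe N g) : WLe N (f + g) := by
  intro a b h
  rcases exists_coeff_add h with h | h
  · exact hf a b h
  · exact hg a b h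

theorem WLe.CX : WLe 2 (C Polynomial.X : R[X][X]) := by
  intro a b h
  rw [coeff_C] at h
  split_ifs at h with h1
  · rw [coeff_X] at h
    split_ifs at h with h2
    · omega
    · exact absurd rfl h
  · rw [coeff_zero] at h
    exact absurd rfl h

theorem WLe.mono {N M : ℕ} {f : R[X][X]} (hf : WLe N f) (h : N ≤ M) : WLe M f :=
  fun a b hab => (hf a b hab).trans h

theorem WLe.q : WLe 2 (Polynomial.X ^ 2 + C Polynomial.X : R[X][X]) :=
  (WLe.X.pow 2).add WLe.CX

theorem Low.add {N : ℕ} {f g : R[X][X]} (hf : Low N f) (hg : Low N g) : Low N (f + g) := by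
  intro a b h
  rcases exists_coeff_add h with h | h
  · exact hf a b h
  · exact hg a b h

theorem Low.zero (N : ℕ) : Low N (0 : R[X][X]) := by
  intro a b h
  rw [coeff_zero, coeff_zero] at h
  exact absurd rfl h

theorem Low.mul {N M : ℕ} {f g : R[X][X]} (hf : Low N f) (hg : WLe M g) : Low (N + M) (f * g) := by
  intro a b h
  obtain ⟨a1, a2, b1, b2, rfl, rfl, h1, h2⟩ := exists_coeff_mul h
  have := hf a1 b1 h1
  have := hg a2 b2 h2
  omega

theorem Low.wle {N : ℕ} {f : R[X][X]} (hf : Low N f) : WLe N f := by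
  intro a b h
  have := hf a b h
  omega

/-- `x_r` for `r ≥ 1` -/
theorem xi_top (r : ℕ) : ∃ L : R[X][X], xi R (r + 1) = (X ^ 2 + C X) ^ 2 ^ r + L ∧
    Low (2 ^ (r + 1)) L := by
  induction r with
  | zero =>
    refine ⟨0, ?_, Low.zero _⟩
    rw [xi_succ, xi_zero, sig_X]
    ring
  | succ r ih =>
    obtain ⟨L, h1, h2⟩ := ih
    have hq : WLe (2 ^ (r + 1)) ((X ^ 2 + C X : R[X][X]) ^ 2 ^ r) := by
      have := (WLe.q (R := R)).pow (2 ^ r)
      rwa [← pow_succ] at this
    refine ⟨(L * ((X ^ 2 + C X) ^ 2 ^ r) + L * ((X ^ 2 + C X) ^ 2 ^ r)) + L * L + C X, ?_, ?_⟩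
    · have h3 := xi_sq (R := R) (r + 1)
      have h4 : xi R (r + 1 + 1) = xi R (r + 1) ^ 2 + C X := by
        rw [h3]
        ring
      rw [h4, h1, pow_succ 2 r, pow_mul]
      ring
    · have e : 2 ^ (r + 1 + 1) = 2 ^ (r + 1) + 2 ^ (r + 1) := by ring
      rw [e]
      refine (((h2.mul hq).add (h2.mul hq)).add (h2.mul h2.wle)).add ?_
      intro a b h
      rw [coeff_C] at h
      split_ifs at h with h5
      · rw [coeff_X] at h
        split_ifs at h with h6
        · have : 2 ≤ 2 ^ (r + 1) := by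
            rw [pow_succ]
            have : 0 < 2 ^ r := by positivity
            omega
          omega
        · exact absurd rfl h
      · rw [coeff_zero] at h
        exact absurd rfl h

/-- binary value -/
def bw (E : Finset ℕ) : ℕ := ∑ r ∈ E, 2 ^ r

/-- half of the even part of the binary value -/
def hw (E : Finset ℕ) : ℕ := ∑ r ∈ E.erase 0, 2 ^ (r - 1)

theorem bw_eq (E : Finset ℕ) : bw E = (if 0 ∈ E then 1 else 0) + 2 * hw E := by
  unfold bw hw
  rw [mul_sum]
  have h1 : ∀ r ∈ E.erase 0, 2 * 2 ^ (r - 1) = 2 ^ r := by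
    intro r hr
    have : r ≠ 0 := (mem_erase.1 hr).1
    rw [← pow_succ']
    congr 1
    omega
  rw [sum_congr rfl h1]
  split_ifs with h
  · rw [← add_sum_erase E _ h, pow_zero]
  · rw [erase_eq_of_notMem h, zero_add]

theorem xS_top (E : Finset ℕ) : ∃ L : R[X][X],
    xS R E = X ^ (if 0 ∈ E then 1 else 0) * (X ^ 2 + C X) ^ hw E + L ∧ Low (bw E) L := by
  have key : ∀ F : Finset ℕ, 0 ∉ F → ∃ L : R[X][X],
      xS R F = (X ^ 2 + C X) ^ hw F + L ∧ Low (bw F) L := by
    intro F
    induction F using Finset.induction_on with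
    | empty =>
      intro _
      refine ⟨0, ?_, Low.zero _⟩
      unfold xS hw
      simp
    | insert r s hr ih =>
      intro h0
      rw [mem_insert] at h0
      push Not at h0
      obtain ⟨L, h1, h2⟩ := ih h0.2
      obtain ⟨k, rfl⟩ : ∃ k, r = k + 1 := ⟨r - 1, by omega⟩
      obtain ⟨L', h3, h4⟩ := xi_top (R := R) k
      have hq : WLe (2 ^ (k + 1)) ((X ^ 2 + C X : R[X][X]) ^ 2 ^ k) := by
        have := (WLe.q (R := R)).pow (2 ^ k)
        rwa [← pow_succ] at this
      have hq2 : WLe (bw s) ((X ^ 2 + C X : R[X][X]) ^ hw s) := by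
        have := (WLe.q (R := R)).pow (hw s)
        rw [bw_eq, if_neg h0.2, zero_add, mul_comm]
        exact this
      have e1 : hw (insert (k + 1) s) = 2 ^ k + hw s := by
        unfold hw
        rw [erase_insert_of_ne (by omega), sum_insert]
        · rfl
        · intro h
          exact hr (mem_erase.1 h).2
      have e2 : bw (insert (k + 1) s) = 2 ^ (k + 1) + bw s := by
        unfold bw
        rw [sum_insert hr]
      have e3 : xS R (insert (k + 1) s) = xi R (k + 1) * xS R s := by
        unfold xS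
        rw [prod_insert hr]
      refine ⟨L' * (X ^ 2 + C X) ^ hw s + L * (X ^ 2 + C X) ^ 2 ^ k + L' * L, ?_, ?_⟩
      · rw [e3, e1, h3, h1, pow_add]
        ring
      · rw [e2]
        refine ((h4.mul hq2).add ?_).add (h4.mul h2.wle)
        rw [add_comm (2 ^ (k + 1))]
        exact h2.mul hq
  by_cases h0 : 0 ∈ E
  · obtain ⟨L, h1, h2⟩ := key (E.erase 0) (notMem_erase 0 E)
    refine ⟨L * X, ?_, ?_⟩
    · have h3 : xS R E = xi R 0 * xS R (E.erase 0) := by
        unfold xS
        rw [mul_prod_erase E _ h0]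
      have h4 : hw (E.erase 0) = hw E := by
        unfold hw
        rw [erase_eq_of_notMem (notMem_erase 0 E)]
      rw [h3, h1, xi_zero, if_pos h0, h4]
      ring
    · have h5 : bw E = bw (E.erase 0) + 1 := by
        unfold bw
        rw [← add_sum_erase E _ h0, pow_zero, add_comm]
      rw [h5]
      exact h2.mul WLe.X
  · obtain ⟨L, h1, h2⟩ := key E h0
    refine ⟨L, ?_, h2⟩
    rw [h1, if_neg h0, pow_zero, one_mul]

theorem coeff_q_pow (M a b : ℕ) :
    (((X ^ 2 + C X : R[X][X]) ^ M).coeff a).coeff b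
      = if a + 2 * b = 2 * M then (M.choose b : R) else 0 := by
  rw [add_pow, finsetSum_coeff, finsetSum_coeff]
  have h1 : ∀ j ∈ range (M + 1), (((X ^ 2) ^ j * (C X) ^ (M - j) * ((M.choose j : ℕ) : R[X][X])).coeff
      a).coeff b = if j = M - b ∧ a + 2 * b = 2 * M then (M.choose b : R) else 0 := by
    intro j hj
    rw [mem_range] at hj
    have h2 : ((X ^ 2) ^ j * (C X) ^ (M - j) * ((M.choose j : ℕ) : R[X][X]))
        = C ((M.choose j : R[X]) * X ^ (M - j)) * X ^ (2 * j) := by
      rw [← pow_mul, C_mul, C_pow, map_natCast]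
      ring
    rw [h2, coeff_C_mul, coeff_X_pow]
    have h3 : ((M.choose j : ℕ) : R[X]) = C ((M.choose j : ℕ) : R) := by simp
    split_ifs with h4 h5 h5
    · rw [mul_one, h3, coeff_C_mul, coeff_X_pow, if_pos (by omega), mul_one]
      congr 1
      obtain ⟨h5, h6⟩ := h5
      have : b ≤ M := by omega
      rw [h5, Nat.choose_symm this]
    · rw [mul_one, h3, coeff_C_mul, coeff_X_pow, if_neg (by omega), mul_zero]
    · exfalso
      omega
    · rw [mul_zero, coeff_zero]
  rw [sum_congr rfl h1]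
  split_ifs with h
  · rw [sum_eq_single (M - b)]
    · simp [h]
    · intro j _ hj
      rw [if_neg]
      tauto
    · intro hM
      rw [mem_range] at hM
      omega
  · apply sum_eq_zero
    intro j _
    rw [if_neg]
    tauto

/-- coefficients of `x_E` -/
theorem coeff_xS_top (E : Finset ℕ) {a b : ℕ} (h : a + 2 * b = bw E) :
    ((xS R E).coeff a).coeff b = ((hw E).choose b : R) := by
  obtain ⟨L, h1, h2⟩ := xS_top (R := R) E
  have h3 : (L.coeff a).coeff b = 0 := by
    by_contra hc
    have := h2 a b hc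
    omega
  rw [h1, coeff_add, coeff_add, h3, add_zero]
  have h4 := bw_eq E
  split_ifs at h4 ⊢ with h0
  · rw [pow_one]
    cases a with
    | zero => exfalso; omega
    | succ a =>
      rw [coeff_X_mul, coeff_q_pow, if_pos (by omega)]
  · rw [pow_zero, one_mul, coeff_q_pow, if_pos (by omega)]

/-- the coefficients at weight above `bw E` vanish -/
theorem coeff_xS_le (E : Finset ℕ) : WLe (bw E) (xS R E) := by
  obtain ⟨L, h1, h2⟩ := xS_top (R := R) E
  rw [h1]
  apply WLe.add _ h2.wle
  rw [bw_eq]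
  apply WLe.mul
  · split_ifs
    · rw [pow_one]
      exact WLe.X
    · rw [pow_zero]
      exact WLe.one
  · rw [mul_comm]
    exact WLe.q.pow _

/-- lower weight terms have `a + 2 b + 2 ≤ bw E` and `1 ≤ b` -/
theorem coeff_xS_low (E : Finset ℕ) {a b : ℕ} (h : ((xS R E).coeff a).coeff b ≠ 0)
    (h' : a + 2 * b ≠ bw E) : a + 2 * b + 2 ≤ bw E ∧ 1 ≤ b := by
  obtain ⟨L, h1, h2⟩ := xS_top (R := R) E
  by_cases h3 : (L.coeff a).coeff b = 0
  · exfalso
    rw [h1, coeff_add, coeff_add, h3, add_zero] at h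
    apply h
    have h4 := bw_eq E
    split_ifs at h4 ⊢ with h0
    · rw [pow_one]
      cases a with
      | zero => rw [coeff_X_mul_zero, coeff_zero]
      | succ a => rw [coeff_X_mul, coeff_q_pow, if_neg (by omega)]
    · rw [pow_zero, one_mul, coeff_q_pow, if_neg (by omega)]
  · exact h2 a b h3

/-- the coefficients at `z ^ 0` -/
theorem coeff_xS_zero (E : Finset ℕ) (a : ℕ) :
    ((xS R E).coeff a).coeff 0 = if a = bw E then 1 else 0 := by
  split_ifs with h
  · rw [coeff_xS_top E (by omega), Nat.choose_zero_right, Nat.cast_one]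
  · by_contra hc
    have := coeff_xS_low E hc (by omega)
    omega

end ring

end Dyn59
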