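import Pool.Agent.H.MP_d59dab.AKb

/-!
# MP_d59dab: the functional `AK` on the basis, and the coefficient of `x_i^e`
-/

set_option autoImplicit false

open Finset Polynomial

noncomputable section

namespace Dyn59

section zmod

variable {p : ℕ} [hp : Fact p.Prime]

theorem AK_mo {i e : ℕ} (he : 0 < e) {K : Finset ℕ} (hK : ∀ t ∈ K, t < i)
    (S : Finset ℕ) (l : ℕ) (hb : bw (hi i S) ≤ e) :
    AK i e K (mo (ZMod p) S l)
      = if bw (hi i S) = e - 1 ∧ K = range i \ S ∧ l = #K / 2 - 1 then 1 else 0 := by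
  unfold AK
  rw [odi_mo i hK]
  by_cases h1 : K = range i \ S
  · rw [if_pos h1, mul_comm, coeff_C_mul, coeff_X_pow_mul']
    by_cases h2 : l = #K / 2 - 1
    · rw [if_pos h2.le, h2, Nat.sub_self, coeff_xS_zero]
      by_cases h3 : bw (hi i S) = e - 1
      · rw [if_pos h3.symm, if_pos ⟨h3, h1, rfl⟩]
      · rw [if_neg (fun h => h3 h.symm), if_neg (fun h => h3 h.1)]
    · rw [if_neg (show ¬ (bw (hi i S) = e - 1 ∧ K = range i \ S ∧ l = #K / 2 - 1) from
        fun h => h2 h.2.2)]
      split_ifs with h3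
      · by_contra hc
        have := coeff_xS_le (hi i S) _ _ hc
        omega
      · rfl
  · rw [if_neg h1, coeff_zero, coeff_zero, if_neg (fun h => h1 h.2.1)]

end zmod

section ring

variable {R : Type*} [CommRing R]

theorem sigit_add (i : ℕ) (a b : R[X][X]) :
    (sig R)^[i] (a + b) = (sig R)^[i] a + (sig R)^[i] b := by
  induction i generalizing a b with
  | zero => rfl
  | succ i ih => rw [Function.iterate_succ_apply, Function.iterate_succ_apply,
      Function.iterate_succ_apply, map_add, ih]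

theorem sigit_pow (i : ℕ) (a : R[X][X]) (n : ℕ) :
    (sig R)^[i] (a ^ n) = ((sig R)^[i] a) ^ n := by
  induction n with
  | zero => rw [pow_zero, pow_zero, sigit_one]
  | succ n ih => rw [pow_succ, pow_succ, sigit_mul, ih]

theorem natDegree_sig_le (f : R[X][X]) : (sig R f).natDegree ≤ 2 * f.natDegree := by
  rw [sig_eq, natDegree_expand, natDegree_taylor, mul_comm]

theorem natDegree_sigit_le (i : ℕ) (f : R[X][X]) :
    ((sig R)^[i] f).natDegree ≤ 2 ^ i * f.natDegree := by
  induction i with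
  | zero => simp
  | succ i ih =>
    rw [Function.iterate_succ_apply']
    refine (natDegree_sig_le _).trans ?_
    rw [pow_succ]
    calc 2 * ((sig R)^[i] f).natDegree ≤ 2 * (2 ^ i * f.natDegree) := by omega
      _ = 2 ^ i * 2 * f.natDegree := by ring

theorem natDegree_xi_le (j : ℕ) : (xi R j).natDegree ≤ 2 ^ j := by
  refine (natDegree_sigit_le j (X : R[X][X])).trans ?_
  calc 2 ^ j * (X : R[X][X]).natDegree ≤ 2 ^ j * 1 :=
        Nat.mul_le_mul_left _ natDegree_X_le
    _ = 2 ^ j := mul_one _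

theorem natDegree_xS_le (S : Finset ℕ) : (xS R S).natDegree ≤ bw S := by
  unfold xS bw
  refine (natDegree_prod_le _ _).trans (sum_le_sum fun j _ => natDegree_xi_le j)

theorem natDegree_mo_le (S : Finset ℕ) (l : ℕ) : (mo R S l).natDegree ≤ bw S := by
  unfold mo
  refine (natDegree_mul_C_le _ _).trans (natDegree_xS_le S)

/-- `x_E - x^(bw E)` has smaller degree -/
theorem natDegree_xS_sub (E : Finset ℕ) :
    (xS R E - X ^ bw E).natDegree ≤ bw E - 2 := by
  rw [natDegree_le_iff_coeff_eq_zero]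
  intro a ha
  rw [coeff_sub, coeff_X_pow]
  ext b
  rw [coeff_zero, coeff_sub]
  by_cases hb : b = 0
  · subst hb
    rw [coeff_xS_zero]
    split_ifs <;> simp
  · have h1 : ((xS R E).coeff a).coeff b = 0 := by
      by_contra hc
      have := coeff_xS_le E a b hc
      omega
    rw [h1]
    split_ifs with h2
    · rw [coeff_one, if_neg hb, sub_zero]
    · rw [coeff_zero, sub_zero]

end ring

section zmod

variable {p : ℕ} [hp : Fact p.Prime]

theorem natDegree_Car_lt {f : (ZMod p)[X][X]} {N : ℕ} (hN : 0 < N) (h : f.natDegree < p * N) :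
    (Car p f).natDegree < N := by
  have hp0 := hp.out.pos
  have h1 : (Car p f).natDegree ≤ N - 1 := by
    rw [natDegree_le_iff_coeff_eq_zero]
    intro a ha
    ext b
    have h2 : p * N ≤ p * a := Nat.mul_le_mul_left p (by omega)
    have h3 : p * (a + 1) = p * a + p := by ring
    rw [Car_coeff_coeff hp0, coeff_eq_zero_of_natDegree_lt (show f.natDegree < p * (a + 1) - 1 by
      omega), coeff_zero, coeff_zero]
  omega

theorem natDegree_sigit_mul_lt {i N D : ℕ} {P g : (ZMod p)[X][X]} (hP : P.natDegree ≤ D)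
    (hg : g.natDegree < 2 ^ i) (hD : D + 1 ≤ N) :
    ((sig (ZMod p))^[i] P * g).natDegree < 2 ^ i * N := by
  have h1 := natDegree_sigit_le i P
  have h2 : 2 ^ i * P.natDegree ≤ 2 ^ i * D := Nat.mul_le_mul_left _ hP
  have h3 : 2 ^ i * (D + 1) ≤ 2 ^ i * N := Nat.mul_le_mul_left _ hD
  have h4 : 2 ^ i * (D + 1) = 2 ^ i * D + 2 ^ i := by ring
  have h5 := natDegree_mul_le (p := (sig (ZMod p))^[i] P) (q := g)
  omega

/-- the part of large degree of `Car (x_E g)` -/
theorem Car_top {i e r : ℕ} (he : 0 < e) {E : Finset ℕ} {g : (ZMod p)[X][X]} (hr : r ≤ 1)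
    (hE : bw E = p * e + r) (hg : g.natDegree < 2 ^ i) :
    ∃ h : (ZMod p)[X][X], Car p ((sig (ZMod p))^[i] (xS (ZMod p) E) * g)
      = xi (ZMod p) i ^ e * Car p (xi (ZMod p) i ^ r * g) + h ∧ h.natDegree < 2 ^ i * e := by
  have hp0 := hp.out.pos
  set D : (ZMod p)[X][X] := xS (ZMod p) E - X ^ bw E with hD
  have h1 : (sig (ZMod p))^[i] (xS (ZMod p) E)
      = xi (ZMod p) i ^ bw E + (sig (ZMod p))^[i] D := by
    have h2 : xS (ZMod p) E = X ^ bw E + D := by
      rw [hD]
      ring
    rw [h2, sigit_add, sigit_pow, sigit_X]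
  have h4 : xi (ZMod p) i ^ bw E * g = (xi (ZMod p) i ^ e) ^ p * (xi (ZMod p) i ^ r * g) := by
    rw [hE, pow_add, mul_comm p e, pow_mul]
    ring
  refine ⟨Car p ((sig (ZMod p))^[i] D * g), ?_, ?_⟩
  · rw [h1, add_mul, Car_add hp0, h4, Car_pow_mul]
  · apply natDegree_Car_lt (by positivity)
    have h5 := natDegree_sigit_mul_lt (N := p * e) (natDegree_xS_sub (R := ZMod p) E) hg (by
      have : 0 < p * e := by positivity
      omega)
    calc _ < _ := h5
      _ = p * (2 ^ i * e) := by ring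

/-- `bw E < p e` -/
theorem Car_low {i e : ℕ} (he : 0 < e) {E : Finset ℕ} {g : (ZMod p)[X][X]}
    (hE : bw E < p * e) (hg : g.natDegree < 2 ^ i) :
    (Car p ((sig (ZMod p))^[i] (xS (ZMod p) E) * g)).natDegree < 2 ^ i * e := by
  apply natDegree_Car_lt (by positivity)
  have h1 := natDegree_sigit_mul_lt (N := p * e) (natDegree_xS_le (R := ZMod p) E) hg (by omega)
  calc _ < _ := h1
    _ = p * (2 ^ i * e) := by ring

end zmod

end Dyn59
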