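import Pool.Agent.H.MP_d59dab.Dynat

/-!
# MP_d59dab: dynatomic polynomials in characteristic two
-/

set_option autoImplicit false

open Finset Polynomial

noncomputable section

namespace Dyn59

section two

variable {K : Type*} [Field K] [CharP K 2]

/-- `u = x^2 + x + z` -/
def uu (K : Type*) [Field K] : K[X][X] := X ^ 2 + X + C X

/-- `T_n = sum_{i < n} Y^(2^i)` -/
def TT (K : Type*) [Field K] (n : ℕ) : K[X] := ∑ i ∈ range n, X ^ (2 ^ i)

/-- substitution `Y ↦ u` -/
def subu (K : Type*) [Field K] : K[X] →+* K[X][X] := eval₂RingHom ((C : K[X] →+* K[X][X]).comp C) (uu K)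

omit [CharP K 2] in
theorem subu_eq (p : K[X]) : subu K p = (p.map (C : K →+* K[X])).comp (uu K) := by
  rw [comp, eval₂_map]
  rfl

omit [CharP K 2] in
theorem uu_natDegree : (uu K).natDegree = 2 := by
  unfold uu
  compute_degree!

omit [CharP K 2] in
theorem uu_monic : (uu K).Monic := by
  unfold uu
  monicity!

omit [CharP K 2] in
theorem subu_natDegree (p : K[X]) : (subu K p).natDegree = 2 * p.natDegree := by
  rw [subu_eq, natDegree_comp, uu_natDegree, natDegree_map_eq_of_injective C_injective, mul_comm]

omit [CharP K 2] in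
theorem subu_monic {p : K[X]} (hp : p.Monic) : (subu K p).Monic := by
  rw [subu_eq]
  exact (hp.map _).comp uu_monic (by rw [uu_natDegree]; norm_num)

theorem it_two (n : ℕ) : it K n = X + ∑ i ∈ range n, (uu K) ^ (2 ^ i) := by
  have : CharP K[X][X] 2 := inferInstance
  induction n with
  | zero => simp [it]
  | succ n ih =>
    rw [it, ih, sum_range_succ', add_pow_char, sum_pow_char]
    have h1 : ∀ i ∈ range n, ((uu K) ^ (2 ^ i)) ^ 2 = (uu K) ^ (2 ^ (i + 1)) := by
      intro i _
      rw [← pow_mul, pow_succ]
    rw [sum_congr rfl h1, pow_zero, pow_one]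
    have h3 : (X : K[X][X]) ^ 2 + C X = X + uu K := by
      unfold uu
      have h4 : (X : K[X][X]) + X = 0 := CharTwo.add_self_eq_zero _
      linear_combination (-1 : K[X][X]) * h4
    linear_combination h3

theorem FF_two (n : ℕ) : FF K n = subu K (TT K n) := by
  rw [FF, it_two, TT, map_sum]
  simp [subu]

omit [CharP K 2] in
theorem TT_monic {n : ℕ} (hn : 0 < n) : (TT K n).Monic ∧ (TT K n).natDegree = 2 ^ (n - 1) := by
  obtain ⟨m, rfl⟩ : ∃ m, n = m + 1 := ⟨n - 1, by omega⟩
  have hlt : (∑ i ∈ range m, (X : K[X]) ^ (2 ^ i)).degree < (X ^ (2 ^ m) : K[X]).degree := by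
    rw [degree_X_pow]
    refine (degree_sum_le _ _).trans_lt ?_
    rw [Finset.sup_lt_iff (WithBot.bot_lt_coe _)]
    intro i hi
    rw [mem_range] at hi
    rw [degree_X_pow]
    exact_mod_cast Nat.pow_lt_pow_right (by norm_num) hi
  have hmon : (X ^ (2 ^ m) : K[X]).Monic := monic_X_pow _
  rw [TT, sum_range_succ, add_comm]
  constructor
  · exact hmon.add_of_left hlt
  · rw [natDegree_add_eq_left_of_degree_lt hlt, natDegree_X_pow, Nat.add_sub_cancel]

open Classical in
/-- the analogue of the numerator -/
def numT (K : Type*) [Field K] (n : ℕ) : K[X] :=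
  ∏ d ∈ n.divisors.filter (fun d => ArithmeticFunction.moebius (n / d) = 1), TT K d

open Classical in
/-- the analogue of the denominator -/
def denT (K : Type*) [Field K] (n : ℕ) : K[X] :=
  ∏ d ∈ n.divisors.filter (fun d => ArithmeticFunction.moebius (n / d) = -1), TT K d

theorem num_two (n : ℕ) : num K n = subu K (numT K n) := by
  rw [num, numT, map_prod]
  apply prod_congr
  · ext d; simp
  · exact fun d _ => FF_two d

theorem den_two (n : ℕ) : den K n = subu K (denT K n) := by
  rw [den, denT, map_prod]
  apply prod_congr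
  · ext d; simp
  · exact fun d _ => FF_two d

omit [CharP K 2] in
theorem denT_monic {n : ℕ} (hn : 0 < n) : (denT K n).Monic := by
  apply monic_prod_of_monic
  intro d hd
  rw [mem_filter] at hd
  exact (TT_monic (Nat.pos_of_dvd_of_pos (Nat.dvd_of_mem_divisors hd.1) hn)).1

omit [CharP K 2] in
theorem numT_monic {n : ℕ} (hn : 0 < n) : (numT K n).Monic := by
  apply monic_prod_of_monic
  intro d hd
  rw [mem_filter] at hd
  exact (TT_monic (Nat.pos_of_dvd_of_pos (Nat.dvd_of_mem_divisors hd.1) hn)).1

theorem Phi_two {n : ℕ} (hn : 0 < n) : Phi K n = subu K (numT K n /ₘ denT K n) := by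
  have hd := denT_monic (K := K) hn
  have hdm : (den K n).Monic := den_monic hn
  have h1 := congrArg (subu K) (modByMonic_add_div (numT K n) (denT K n))
  rw [map_add, map_mul, ← num_two, ← den_two] at h1
  by_cases hne : denT K n = 1
  · have h3 : den K n = 1 := by rw [den_two, hne, map_one]
    rw [Phi, h3, hne, divByMonic_one, divByMonic_one, num_two]
  · have hdeg : (subu K (numT K n %ₘ denT K n)).degree < (den K n).degree := by
      by_cases h0 : numT K n %ₘ denT K n = 0
      · rw [h0, map_zero, degree_zero, bot_lt_iff_ne_bot, Ne, degree_eq_bot]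
        exact hdm.ne_zero
      · have h5 : (subu K (numT K n %ₘ denT K n)).natDegree < (den K n).natDegree := by
          rw [subu_natDegree, den_two, subu_natDegree]
          have := natDegree_modByMonic_lt (numT K n) hd hne
          omega
        exact degree_lt_degree h5
    exact (div_modByMonic_unique _ _ hdm ⟨h1, hdeg⟩).1

omit [CharP K 2] in
theorem quot_natDegree {n : ℕ} (hn : 3 ≤ n) : 2 ≤ (numT K n /ₘ denT K n).natDegree := by
  have hn0 : 0 < n := by omega
  have h1 : 2 ^ (n - 1) ≤ (numT K n).natDegree := by
    rw [numT, natDegree_prod_of_monic]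
    · refine le_trans (le_of_eq (TT_monic (K := K) hn0).2.symm)
        (single_le_sum (f := fun d => (TT K d).natDegree) (fun _ _ => Nat.zero_le _) ?_)
      rw [mem_filter, Nat.mem_divisors, Nat.div_self hn0]
      exact ⟨⟨dvd_rfl, hn0.ne'⟩, by simp⟩
    · intro d hd
      rw [mem_filter] at hd
      exact (TT_monic (Nat.pos_of_dvd_of_pos (Nat.dvd_of_mem_divisors hd.1) hn0)).1
  have h3 : (denT K n).natDegree + 1 ≤ 2 ^ (n / 2) := by
    rw [denT, natDegree_prod_of_monic]
    · have hsub : (n.divisors.filter (fun d => ArithmeticFunction.moebius (n / d) = -1))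
          ⊆ Ico 1 (n / 2 + 1) := by
        intro d hd
        rw [mem_filter, Nat.mem_divisors] at hd
        obtain ⟨⟨⟨e, he⟩, -⟩, hμ⟩ := hd
        have hd0 : 0 < d := by
          rcases Nat.eq_zero_or_pos d with h | h
          · rw [h, zero_mul] at he; omega
          · exact h
        have he2 : e ≠ 1 := by
          intro h
          rw [h, mul_one] at he
          rw [he, Nat.div_self hd0] at hμ
          simp at hμ
        have he0 : e ≠ 0 := by
          intro h
          rw [h, mul_zero] at he
          omega
        rw [mem_Ico]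
        refine ⟨hd0, ?_⟩
        have h4 : d * 2 ≤ n := by
          rw [he]
          exact Nat.mul_le_mul_left d (by omega)
        omega
      have h5 : ∑ d ∈ n.divisors.filter (fun d => ArithmeticFunction.moebius (n / d) = -1),
          (TT K d).natDegree ≤ ∑ d ∈ Ico 1 (n / 2 + 1), 2 ^ (d - 1) := by
        refine (sum_le_sum (fun d hd => ?_)).trans
          (sum_le_sum_of_subset_of_nonneg hsub (fun _ _ _ => Nat.zero_le _))
        have hd' := mem_Ico.1 (hsub hd)
        exact le_of_eq (TT_monic (by omega)).2
      have h6 : ∀ m : ℕ, ∑ d ∈ Ico 1 (m + 1), 2 ^ (d - 1) + 1 = 2 ^ m := by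
        intro m
        induction m with
        | zero => simp
        | succ m ih =>
          rw [sum_Ico_succ_top (by omega), pow_succ]
          have : m + 1 - 1 = m := by omega
          rw [this]
          omega
      have := h6 (n / 2)
      omega
    · intro d hd
      rw [mem_filter] at hd
      exact (TT_monic (Nat.pos_of_dvd_of_pos (Nat.dvd_of_mem_divisors hd.1) hn0)).1
  rw [natDegree_divByMonic _ (denT_monic hn0)]
  have h7 : 2 ^ (n / 2) + 1 ≤ 2 ^ (n - 1) := by
    have h8 : n / 2 + 1 ≤ n - 1 ∨ n = 3 := by omega
    rcases h8 with h8 | h8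
    · have h9 : 2 ^ (n / 2 + 1) ≤ 2 ^ (n - 1) := Nat.pow_le_pow_right (by norm_num) h8
      rw [pow_succ] at h9
      have : 1 ≤ 2 ^ (n / 2) := Nat.one_le_two_pow
      omega
    · rw [h8]; norm_num
  omega

/-- reducibility for `n ≥ 3` -/
theorem not_irreducible_two [IsAlgClosed K] {n : ℕ} (hn : 3 ≤ n) : ¬ Irreducible (Phi K n) := by
  rw [Phi_two (by omega)]
  set Q := numT K n /ₘ denT K n with hQ
  have hdeg := quot_natDegree (K := K) hn
  rw [← hQ] at hdeg
  obtain ⟨c, hc⟩ := IsAlgClosed.exists_root Q (fun h => by
    have h3 : Q.natDegree = 0 := natDegree_eq_of_degree_eq_some h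
    rw [h3] at hdeg
    norm_num at hdeg)
  rw [← dvd_iff_isRoot] at hc
  obtain ⟨Q', hQ'⟩ := hc
  intro hirr
  rw [hQ', map_mul] at hirr
  have hQne : Q ≠ 0 := by
    intro h
    rw [h] at hdeg
    simp at hdeg
  have hQ'ne : Q' ≠ 0 := by
    intro h
    rw [h, mul_zero] at hQ'
    exact hQne hQ'
  have hd : Q.natDegree = 1 + Q'.natDegree := by
    rw [hQ', natDegree_mul (X_sub_C_ne_zero c) hQ'ne, natDegree_X_sub_C]
  rcases hirr.isUnit_or_isUnit rfl with h | h
  · have := natDegree_eq_zero_of_isUnit h
    rw [subu_natDegree, natDegree_X_sub_C] at this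
    omega
  · have := natDegree_eq_zero_of_isUnit h
    rw [subu_natDegree] at this
    omega

omit [CharP K 2] in
/-- `x^2 + x + z + a` is irreducible -/
theorem irreducible_quad (a : K) : Irreducible (X ^ 2 + X + C (X + C a) : K[X][X]) := by
  have hm : (X ^ 2 + X + C (X + C a) : K[X][X]).Monic := by monicity!
  have hd : (X ^ 2 + X + C (X + C a) : K[X][X]).natDegree = 2 := by compute_degree!
  rw [hm.irreducible_iff_natDegree]
  constructor
  · intro h
    rw [h] at hd
    simp at hd
  · intro f g hf hg hfg
    by_contra hcon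
    push Not at hcon
    have hdfg : f.natDegree + g.natDegree = 2 := by rw [← hf.natDegree_mul hg, hfg, hd]
    have hf1 : f.natDegree = 1 := by omega
    have hg1 : g.natDegree = 1 := by omega
    have ef := hf.eq_X_add_C hf1
    have eg := hg.eq_X_add_C hg1
    set p := f.coeff 0
    set q := g.coeff 0
    rw [ef, eg] at hfg
    have h1 := congrArg (fun P : K[X][X] => P.coeff 1) hfg
    have h0 := congrArg (fun P : K[X][X] => P.coeff 0) hfg
    have e1 : ((X + C p) * (X + C q) : K[X][X]) = X ^ 2 + C (p + q) * X + C (p * q) := by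
      rw [C_add, C_mul]; ring
    rw [e1] at h1 h0
    simp only [coeff_add, coeff_X_pow, coeff_C_mul, coeff_X_one, coeff_C_succ, coeff_X_zero,
      coeff_C_zero, mul_one, mul_zero, add_zero] at h1 h0
    norm_num at h1 h0
    have hq : q = 1 - p := by linear_combination h1
    rw [hq] at h0
    have hdeg := congrArg natDegree h0
    rw [natDegree_X_add_C] at hdeg
    by_cases hp : p.natDegree = 0
    · obtain ⟨b, hb⟩ := natDegree_eq_zero.1 hp
      rw [← hb] at hdeg
      have : (C b * (1 - C b) : K[X]) = C (b * (1 - b)) := by simp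
      rw [this, natDegree_C] at hdeg
      omega
    · have hp0 : p ≠ 0 := by
        intro h
        rw [h] at hp
        simp at hp
      have h3 : (1 - p).natDegree = p.natDegree := by
        rw [natDegree_sub_eq_right_of_natDegree_lt]
        rw [natDegree_one]
        omega
      have h4 : (1 - p) ≠ 0 := by
        intro h
        rw [h] at h3
        simp at h3
        omega
      rw [natDegree_mul hp0 h4, h3] at hdeg
      omega

theorem irreducible_two {n : ℕ} (hn : 0 < n) (hn2 : n ≤ 2) : Irreducible (Phi K n) := by
  have hcases : n = 1 ∨ n = 2 := by omega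
  rcases hcases with rfl | rfl
  · have hnum : numT K 1 = X := by
      simp [numT, filter_singleton, TT]
    have hden : denT K 1 = 1 := by
      rw [denT]
      simp [filter_singleton]
    rw [Phi_two hn, hnum, hden, divByMonic_one]
    have := irreducible_quad (0 : K)
    simpa [subu, uu] using this
  · have hdiv : (2 : ℕ).divisors = {1, 2} := by decide
    have hμ2 : ArithmeticFunction.moebius 2 = -1 := by
      exact ArithmeticFunction.moebius_apply_prime Nat.prime_two
    have hnum : numT K 2 = X + X ^ 2 := by
      have : (2 : ℕ).divisors.filter (fun d => ArithmeticFunction.moebius (2 / d) = 1) = {2} := by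
        rw [hdiv]
        ext d
        simp only [mem_filter, mem_insert, mem_singleton]
        constructor
        · rintro ⟨rfl | rfl, h⟩
          · rw [Nat.div_one, hμ2] at h
            norm_num at h
          · rfl
        · rintro rfl
          simp
      rw [numT]
      convert_to ∏ d ∈ ({2} : Finset ℕ), TT K d = _
      · apply prod_congr _ (fun _ _ => rfl)
        rw [← this]
      · simp [TT, sum_range_succ]
    have hden : denT K 2 = X := by
      have : (2 : ℕ).divisors.filter (fun d => ArithmeticFunction.moebius (2 / d) = -1) = {1} := by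
        rw [hdiv]
        ext d
        simp only [mem_filter, mem_insert, mem_singleton]
        constructor
        · rintro ⟨rfl | rfl, h⟩
          · rfl
          · simp at h
        · rintro rfl
          rw [Nat.div_one, hμ2]
          simp
      rw [denT]
      convert_to ∏ d ∈ ({1} : Finset ℕ), TT K d = _
      · apply prod_congr _ (fun _ _ => rfl)
        rw [← this]
      · simp [TT]
    have hq : (X + X ^ 2 : K[X]) /ₘ X = 1 + X := by
      have h1 : (X + X ^ 2 : K[X]) = X * (1 + X) := by ring
      rw [h1]
      exact mul_divByMonic_cancel_left _ monic_X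
    rw [Phi_two hn, hnum, hden, hq]
    have := irreducible_quad (1 : K)
    have h3 : subu K (1 + X) = X ^ 2 + X + C (X + C 1) := by
      simp [subu, uu]
      ring
    rw [h3]
    exact this

/-- characteristic two: irreducible exactly for `n ≤ 2` -/
theorem irreducible_two_iff [IsAlgClosed K] {n : ℕ} (hn : 0 < n) :
    Irreducible (Phi K n) ↔ n ≤ 2 := by
  constructor
  · intro h
    by_contra hcon
    exact not_irreducible_two (by omega) h
  · exact irreducible_two hn

end two

end Dyn59
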