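import Pool.Agent.H.MP_d59dab.BaseChange
import Pool.Agent.H.MP_d59dab.Two

/-!
# MP_d59dab: assembly of the final theorem from the statement (*E) over the prime fields
-/

set_option autoImplicit false

open Finset Polynomial

namespace MP_d59dab_nt

/-- The iterate `f_z^k(x)` of `f_z(x) = x^2 + z`, as an element of `ℤ[z][x]`: the outer variable
`X` is `x`, the inner variable `C X` is `z`. -/
noncomputable def iterate : ℕ → ℤ[X][X]
  | 0 => X
  | (k + 1) => (iterate k) ^ 2 + C X

/-- `Φ` is the `n`-th dynatomic polynomial `∏_{d ∣ n} (f_z^d(x) - x)^{μ(n/d)}`; the factors with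
exponent `-1` are moved to the left hand side. -/
def IsDynatomic (n : ℕ) (Φ : ℤ[X][X]) : Prop :=
  Φ * ∏ d ∈ n.divisors.filter (fun d => ArithmeticFunction.moebius (n / d) = -1),
      (iterate d - X)
    = ∏ d ∈ n.divisors.filter (fun d => ArithmeticFunction.moebius (n / d) = 1), (iterate d - X)

/-- reduction modulo `p`, over an algebraic closure of `𝔽_p` -/
noncomputable def reduce (p : ℕ) [Fact p.Prime] (Φ : ℤ[X][X]) :
    (AlgebraicClosure (ZMod p))[X][X] :=
  Φ.map (mapRingHom (Int.castRingHom (AlgebraicClosure (ZMod p))))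

theorem iterate_eq (k : ℕ) : iterate k = Dyn59.it ℤ k := by
  induction k with
  | zero => rfl
  | succ k ih => rw [iterate, Dyn59.it, ih]

theorem isDynatomic_iff (n : ℕ) (Φ : ℤ[X][X]) :
    IsDynatomic n Φ ↔ Φ * Dyn59.den ℤ n = Dyn59.num ℤ n := by
  unfold IsDynatomic Dyn59.den Dyn59.num Dyn59.FF
  simp only [iterate_eq]

theorem isDynatomic_iff_eq {n : ℕ} (hn : 0 < n) (Φ : ℤ[X][X]) :
    IsDynatomic n Φ ↔ Φ = Dyn59.Phi ℤ n := by
  rw [isDynatomic_iff]
  constructor
  · intro h
    have h2 := Dyn59.den_mul_Phi hn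
    rw [mul_comm] at h2
    exact mul_right_cancel₀ (Dyn59.den_monic hn).ne_zero (h.trans h2.symm)
  · rintro rfl
    rw [mul_comm]
    exact Dyn59.den_mul_Phi hn

/-- the final theorem, from (*E) over the prime fields -/
theorem main_of_starE
    (hS : ∀ (p : ℕ) [Fact p.Prime], p ≠ 2 → Dyn59.StarE (ZMod p)) (n : ℕ) (hn : 0 < n) :
    ∃ Φ : ℤ[X][X], IsDynatomic n Φ ∧ (∀ Ψ : ℤ[X][X], IsDynatomic n Ψ → Ψ = Φ) ∧ Φ.Monic ∧
      ∀ (p : ℕ) [Fact p.Prime], Irreducible (reduce p Φ) ↔ (p ≠ 2 ∨ n ≤ 2) := by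
  refine ⟨Dyn59.Phi ℤ n, (isDynatomic_iff_eq hn _).2 rfl, fun Ψ h => (isDynatomic_iff_eq hn _).1 h,
    ?_, ?_⟩
  · have hinj : Function.Injective (mapRingHom (Int.castRingHom ℚ)) :=
      map_injective _ Int.cast_injective
    refine monic_of_injective hinj ?_
    rw [Dyn59.Phi_map _ hn]
    exact Dyn59.Phi_monic (by norm_num) hn
  · intro p hp
    by_cases h2 : p = 2
    · subst h2
      have hchar : CharP (AlgebraicClosure (ZMod 2)) 2 := inferInstance
      unfold reduce
      rw [Dyn59.Phi_map _ hn, Dyn59.irreducible_two_iff hn]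
      tauto
    · refine iff_of_true ?_ (Or.inl h2)
      refine Dyn59.irreducible_of_starE (algebraMap (ZMod p) (AlgebraicClosure (ZMod p))) ?_
        (hS p h2) hn
      intro h
      have hchar : CharP (AlgebraicClosure (ZMod p)) p := inferInstance
      have h3 : ((2 : ℕ) : AlgebraicClosure (ZMod p)) = 0 := by exact_mod_cast h
      rw [CharP.cast_eq_zero_iff (AlgebraicClosure (ZMod p)) p 2] at h3
      exact h2 ((Nat.prime_dvd_prime_iff_eq hp.out Nat.prime_two).1 h3)

end MP_d59dab_nt
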