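import Pool.Agent.H.MP_d59dab.LemL

/-!
# MP_d59dab: the basis `x_S z^l` and the orders
-/

set_option autoImplicit false

open Finset Polynomial

noncomputable section

namespace Dyn59

/-! ### shifts of finite sets -/

/-- `S + 1` -/
def up (S : Finset ℕ) : Finset ℕ := S.map (addRightEmbedding 1)

theorem mem_up {S : Finset ℕ} {n : ℕ} : n ∈ up S ↔ ∃ m ∈ S, n = m + 1 := by
  unfold up
  simp only [mem_map, addRightEmbedding_apply]
  constructor
  · rintro ⟨a, h, rfl⟩; exact ⟨a, h, rfl⟩
  · rintro ⟨a, h, rfl⟩; exact ⟨a, h, rfl⟩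

theorem succ_mem_up {S : Finset ℕ} {n : ℕ} : n + 1 ∈ up S ↔ n ∈ S := by
  rw [mem_up]
  constructor
  · rintro ⟨m, hm, h⟩
    have : n = m := by omega
    rwa [this]
  · intro h
    exact ⟨n, h, rfl⟩

theorem zero_notMem_up (S : Finset ℕ) : 0 ∉ up S := by
  rw [mem_up]
  rintro ⟨m, -, h⟩
  omega

/-- `(S \ 0) - 1` -/
def dn (S : Finset ℕ) : Finset ℕ := (S.erase 0).image (· - 1)

theorem mem_dn {S : Finset ℕ} {n : ℕ} : n ∈ dn S ↔ n + 1 ∈ S := by
  unfold dn
  simp only [mem_image, mem_erase]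
  constructor
  · rintro ⟨a, ⟨h0, h⟩, rfl⟩
    have : a - 1 + 1 = a := by omega
    rwa [this]
  · intro h
    exact ⟨n + 1, ⟨by omega, h⟩, by omega⟩

theorem up_dn {S : Finset ℕ} (h : 0 ∉ S) : up (dn S) = S := by
  ext n
  cases n with
  | zero => exact iff_of_false (zero_notMem_up _) h
  | succ n => rw [succ_mem_up, mem_dn]

theorem insert_up_dn {S : Finset ℕ} (h : 0 ∈ S) : insert 0 (up (dn S)) = S := by
  ext n
  cases n with
  | zero => exact iff_of_true (mem_insert_self _ _) h
  | succ n =>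
    rw [mem_insert, succ_mem_up, mem_dn]
    simp

theorem sum_up (S : Finset ℕ) (f : ℕ → ℤ) : ∑ s ∈ up S, f s = ∑ s ∈ S, f (s + 1) := by
  unfold up
  rw [sum_map]
  rfl

theorem lam_up (v : ℕ) (S : Finset ℕ) (l : ℕ) : lam (v + 1) (up S) l = lam v S l - 1 := by
  have h1 : (up S).filter (· ≤ v + 1) = up (S.filter (· ≤ v)) := by
    ext n
    cases n with
    | zero => simp [zero_notMem_up]
    | succ n => simp [succ_mem_up, mem_filter]
  have h2 : (up S).filter (v + 1 < ·) = up (S.filter (v < ·)) := by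
    ext n
    cases n with
    | zero => simp [zero_notMem_up]
    | succ n => simp [succ_mem_up, mem_filter]
  unfold lam
  rw [h1, h2, sum_up]
  have h3 : #(up (S.filter (· ≤ v))) = #(S.filter (· ≤ v)) := card_map _
  rw [h3]
  have h4 : ∀ s ∈ S.filter (v < ·), (2 : ℤ) ^ (s + 1 - (v + 1)) = 2 ^ (s - v) := by
    intro s _
    congr 1
    omega
  rw [sum_congr rfl h4]
  push_cast
  ring

theorem lam_insert (v : ℕ) {S : Finset ℕ} (h : 0 ∉ S) (l : ℕ) :
    lam v (insert 0 S) l = lam v S l + 1 := by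
  unfold lam
  rw [filter_insert, filter_insert, if_pos (Nat.zero_le v), if_neg (Nat.not_lt_zero v),
    card_insert_of_notMem (by simp [h])]
  push_cast
  ring

theorem lam_add (v : ℕ) (S : Finset ℕ) (l m : ℕ) : lam v S (l + m) = lam v S l + 2 * m := by
  unfold lam
  push_cast
  ring

/-- the number with binary digits `S` -/
def nS (S : Finset ℕ) : ℕ := ∑ s ∈ S, 2 ^ s

theorem lam_zero_eq (S : Finset ℕ) (l : ℕ) : lam 0 S l = nS S + 2 * l + 3 := by
  unfold lam nS
  rw [Nat.cast_sum]
  have h1 : ∑ s ∈ S, (((2 ^ s : ℕ) : ℤ)) = ∑ s ∈ S.filter (· ≤ 0), (((2 ^ s : ℕ) : ℤ))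
      + ∑ s ∈ S.filter (0 < ·), (((2 ^ s : ℕ) : ℤ)) := by
    rw [← sum_filter_add_sum_filter_not S (· ≤ 0)]
    congr 1
    apply sum_congr _ (fun _ _ => rfl)
    ext n
    simp only [mem_filter, not_le]
  have h2 : ∑ s ∈ S.filter (· ≤ 0), (((2 ^ s : ℕ) : ℤ)) = #(S.filter (· ≤ 0)) := by
    rw [card_eq_sum_ones, Nat.cast_sum]
    apply sum_congr rfl
    intro s hs
    rw [mem_filter] at hs
    have : s = 0 := by omega
    rw [this]
    norm_num
  rw [h1, h2]
  push_cast
  simp

theorem nS_up (S : Finset ℕ) : nS (up S) = 2 * nS S := by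
  unfold nS up
  rw [sum_map, mul_sum]
  apply sum_congr rfl
  intro s _
  rw [addRightEmbedding_apply, pow_succ, mul_comm]

theorem nS_insert {S : Finset ℕ} (h : 0 ∉ S) : nS (insert 0 S) = nS S + 1 := by
  unfold nS
  rw [sum_insert h, pow_zero, add_comm]

section ring

variable (R : Type*) [CommRing R]

theorem xS_up (S : Finset ℕ) : xS R (up S) = sig R (xS R S) := by
  unfold xS up
  rw [prod_map, map_prod]
  apply prod_congr rfl
  intro s _
  rw [addRightEmbedding_apply, xi_succ]

theorem xS_insert {S : Finset ℕ} (h : 0 ∉ S) : xS R (insert 0 S) = X * xS R S := by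
  unfold xS
  rw [prod_insert h, xi_zero]

theorem mo_up (S : Finset ℕ) (l : ℕ) : mo R (up S) l = sig R (mo R S l) := by
  unfold mo
  rw [xS_up, map_mul, sig_C]

theorem mo_insert_up (S : Finset ℕ) (l : ℕ) :
    mo R (insert 0 (up S)) l = X * sig R (mo R S l) := by
  rw [← mo_up]
  unfold mo
  rw [xS_insert R (zero_notMem_up S), mul_assoc]

theorem mo_add (S : Finset ℕ) (l m : ℕ) : mo R S (l + m) = C (X ^ m) * mo R S l := by
  unfold mo
  rw [pow_add, C_mul]
  ring

theorem mo_empty (l : ℕ) : mo R ∅ l = C (X ^ l) := by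
  unfold mo xS
  rw [prod_empty, one_mul]

variable {R}

/-! ### spans of basis elements -/

/-- span of some of the `x_S z^l` -/
def SP (R : Type*) [CommRing R] (P : Finset ℕ → ℕ → Prop) : Submodule R R[X][X] :=
  Submodule.span R {f | ∃ S l, f = mo R S l ∧ P S l}

theorem FQ_eq (Q : ℤ) : FQ R Q = SP R (fun S l => 0 ∉ S ∧ ∀ v, (2 : ℤ) ^ v * lam v S l ≤ Q) :=
  rfl

theorem SP.induction {P : Finset ℕ → ℕ → Prop} {Pr : R[X][X] → Prop} (h0 : Pr 0)
    (hadd : ∀ f g, Pr f → Pr g → Pr (f + g)) (hsmul : ∀ (c : R) f, Pr f → Pr (c • f))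
    (hmo : ∀ S l, P S l → Pr (mo R S l)) {f : R[X][X]} (hf : f ∈ SP R P) : Pr f := by
  refine Submodule.span_induction (p := fun f _ => Pr f) ?_ h0 ?_ ?_ hf
  · rintro f ⟨S, l, rfl, h⟩
    exact hmo S l h
  · intro f g _ _ hf hg
    exact hadd f g hf hg
  · intro c f _ hf
    exact hsmul c f hf

theorem mo_mem_SP {P : Finset ℕ → ℕ → Prop} {S : Finset ℕ} {l : ℕ} (h : P S l) :
    mo R S l ∈ SP R P :=
  Submodule.subset_span ⟨S, l, rfl, h⟩

theorem SP.map {P P' : Finset ℕ → ℕ → Prop} (φ : R[X][X] →ₗ[R] R[X][X])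
    (h : ∀ S l, P S l → φ (mo R S l) ∈ SP R P') {f : R[X][X]} (hf : f ∈ SP R P) :
    φ f ∈ SP R P' := by
  refine SP.induction (Pr := fun f => φ f ∈ SP R P') ?_ ?_ ?_ h hf
  · rw [map_zero]; exact zero_mem _
  · intro f g hf hg
    rw [map_add]; exact add_mem hf hg
  · intro c f hf
    rw [map_smul]; exact Submodule.smul_mem _ _ hf

/-- `sig` as a linear map -/
def sigL (R : Type*) [CommRing R] : R[X][X] →ₗ[R] R[X][X] where
  toFun := sig R
  map_add' := map_add (sig R)
  map_smul' := sig_smul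

/-- `x sig` as a linear map -/
def XsigL (R : Type*) [CommRing R] : R[X][X] →ₗ[R] R[X][X] where
  toFun g := X * sig R g
  map_add' f g := by rw [map_add, mul_add]
  map_smul' c f := by rw [sig_smul, mul_smul_comm, RingHom.id_apply]

theorem SP_sig {P P' : Finset ℕ → ℕ → Prop} (h : ∀ S l, P S l → P' (up S) l) {f : R[X][X]}
    (hf : f ∈ SP R P) : sig R f ∈ SP R P' := by
  refine SP.map (sigL R) ?_ hf
  intro S l hS
  change sig R (mo R S l) ∈ _
  rw [← mo_up]
  exact mo_mem_SP (h S l hS)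

theorem SP_Xsig {P P' : Finset ℕ → ℕ → Prop} (h : ∀ S l, P S l → P' (insert 0 (up S)) l)
    {f : R[X][X]} (hf : f ∈ SP R P) : X * sig R f ∈ SP R P' := by
  refine SP.map (XsigL R) ?_ hf
  intro S l hS
  change X * sig R (mo R S l) ∈ _
  rw [← mo_insert_up]
  exact mo_mem_SP (h S l hS)

theorem SP.mono {P P' : Finset ℕ → ℕ → Prop} (h : ∀ S l, P S l → P' S l) {f : R[X][X]}
    (hf : f ∈ SP R P) : f ∈ SP R P' := by
  refine SP.map LinearMap.id ?_ hf
  intro S l hS
  exact mo_mem_SP (h S l hS)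

theorem SP.C_pow_mul {P P' : Finset ℕ → ℕ → Prop} {m : ℕ} (h : ∀ S l, P S l → P' S (l + m))
    {f : R[X][X]} (hf : f ∈ SP R P) : C (X ^ m) * f ∈ SP R P' := by
  refine SP.map (LinearMap.mulLeft R (C (X ^ m))) ?_ hf
  intro S l hS
  rw [LinearMap.mulLeft_apply, ← mo_add]
  exact mo_mem_SP (h S l hS)

/-! ### level 0 -/

theorem LL0_one : LL 0 (1 : R[X][X]) 3 := by
  intro a b hab
  have h1 : a = 0 := by
    by_contra h
    rw [coeff_one, if_neg h] at hab
    simp at hab
  have h2 : b = 0 := by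
    by_contra h
    rw [h1, coeff_one, if_pos rfl, coeff_one, if_neg h] at hab
    exact hab rfl
  rw [h1, h2]
  norm_num

theorem LL0_mul {f g : R[X][X]} {m n : ℤ} (hf : LL 0 f (m + 3)) (hg : LL 0 g (n + 3)) :
    LL 0 (f * g) (m + n + 3) := by
  intro a b hab
  rw [coeff_mul, finsetSum_coeff] at hab
  obtain ⟨⟨i, j⟩, hij, h1⟩ := exists_ne_zero_of_sum_ne_zero hab
  rw [coeff_mul] at h1
  obtain ⟨⟨k, l⟩, hkl, h2⟩ := exists_ne_zero_of_sum_ne_zero h1
  rw [HasAntidiagonal.mem_antidiagonal] at hij hkl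
  dsimp only at hij hkl h2
  have h3 := hf i k (left_ne_zero_of_mul h2)
  have h4 := hg j l (right_ne_zero_of_mul h2)
  have h5 : (i : ℤ) + j = a := by exact_mod_cast hij
  have h6 : (k : ℤ) + l = b := by exact_mod_cast hkl
  linarith

theorem LL0_X : LL 0 (X : R[X][X]) 4 := by
  have := (LL0_one (R := R)).X_mul
  rwa [mul_one] at this

theorem LL0_C_X : LL 0 (C X : R[X][X]) 5 := by
  have := (LL0_one (R := R)).C_mul
  rwa [mul_one] at this

theorem LL0_sq {f : R[X][X]} {m : ℤ} (hf : LL 0 f (m + 3)) : LL 0 (f ^ 2) (2 * m + 3) := by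
  rw [sq]
  have := LL0_mul hf hf
  rwa [← two_mul] at this

theorem LL0_xi (j : ℕ) : LL 0 (xi R j) (2 ^ j + 3) := by
  induction j with
  | zero => rw [xi_zero]; exact LL0_X
  | succ j ih =>
    have h1 : xi R (j + 1) = xi R j ^ 2 + C X := by rw [xi_sq]; ring
    rw [h1]
    have h2 := LL0_sq ih
    have h3 : (2 : ℤ) * 2 ^ j = 2 ^ (j + 1) := by rw [pow_succ]; ring
    rw [h3] at h2
    refine h2.add (LL0_C_X.mono ?_)
    have : (1 : ℤ) ≤ 2 ^ j := one_le_pow₀ (by norm_num)
    linarith

theorem LL0_xS (S : Finset ℕ) : LL 0 (xS R S) (nS S + 3) := by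
  induction S using Finset.induction_on with
  | empty =>
    unfold xS nS
    rw [prod_empty, sum_empty]
    exact LL0_one
  | insert a S ha ih =>
    unfold xS nS
    rw [prod_insert ha, sum_insert ha]
    have := LL0_mul (LL0_xi (R := R) a) ih
    refine LL.mono this ?_
    unfold nS
    push_cast
    linarith

theorem LL0_C_pow {f : R[X][X]} {q : ℤ} (hf : LL 0 f q) (l : ℕ) :
    LL 0 (C (X ^ l) * f) (q + 2 * l) := by
  induction l with
  | zero => simpa using hf
  | succ l ih =>
    rw [pow_succ', C_mul, mul_assoc]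
    refine ih.C_mul.mono ?_
    push_cast
    linarith

theorem LL_mo (v : ℕ) (S : Finset ℕ) (l : ℕ) : LL v (mo R S l) (lam v S l) := by
  induction v generalizing S with
  | zero =>
    unfold mo
    rw [lam_zero_eq, mul_comm]
    refine (LL0_C_pow (LL0_xS S) l).mono ?_
    linarith
  | succ v ih =>
    by_cases h : 0 ∈ S
    · rw [← insert_up_dn h, mo_insert_up, lam_insert _ (zero_notMem_up _), lam_up]
      exact ⟨0, mo R (dn S) l, by simp, LL.zero _ _, (ih (dn S)).mono (by linarith)⟩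
    · rw [← up_dn h, mo_up, lam_up]
      exact ⟨mo R (dn S) l, 0, by simp, (ih (dn S)).mono (by linarith), LL.zero _ _⟩

theorem X_pow_mem_SP (n : ℕ) : (X ^ n : R[X][X]) ∈ SP R (fun S l => nS S + 2 * l ≤ n) := by
  induction n using Nat.strong_induction_on with
  | _ n ih =>
    have hu : ∀ m, (∀ k, k ≤ m → (X ^ k : R[X][X]) ∈ SP R (fun S l => nS S + 2 * l ≤ k)) →
        ((X - C X) ^ m : R[X][X]) ∈ SP R (fun S l => nS S + l ≤ m) := by
      intro m hm
      rw [sub_eq_add_neg, add_pow]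
      apply sum_mem
      intro k hk
      rw [mem_range] at hk
      have h1 : ((X : R[X][X]) ^ k * (-(C X : R[X][X])) ^ (m - k) * (m.choose k : R[X][X]))
          = ((-1 : R) ^ (m - k) * (m.choose k : R)) • (C (X ^ (m - k)) * X ^ k : R[X][X]) := by
        rw [Algebra.smul_def, neg_pow (C X : R[X][X])]
        simp only [map_mul, map_pow, map_neg, map_one, map_natCast]
        ring
      rw [h1]
      apply Submodule.smul_mem
      refine SP.C_pow_mul (P := fun S l => nS S + 2 * l ≤ k) ?_ (hm k (by omega))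
      intro S l hS
      omega
    rcases Nat.even_or_odd' n with ⟨m, rfl | rfl⟩
    · rcases Nat.eq_zero_or_pos m with rfl | hm
      · have : (X ^ (2 * 0) : R[X][X]) = mo R ∅ 0 := by simp [mo_empty]
        rw [this]
        apply mo_mem_SP
        simp [nS]
      · have h1 : (X ^ (2 * m) : R[X][X]) = sig R ((X - C X) ^ m) := by
          rw [map_pow, map_sub, sig_X, sig_C, add_sub_cancel_right, ← pow_mul]
        rw [h1]
        refine SP_sig (P := fun S l => nS S + l ≤ m) ?_ (hu m (fun k hk => ih k (by omega)))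
        intro S l hS
        rw [nS_up]
        omega
    · have h1 : (X ^ (2 * m + 1) : R[X][X]) = X * sig R ((X - C X) ^ m) := by
        rw [map_pow, map_sub, sig_X, sig_C, add_sub_cancel_right, ← pow_mul, pow_succ']
      rw [h1]
      refine SP_Xsig (P := fun S l => nS S + l ≤ m) ?_ (hu m (fun k hk => ih k (by omega)))
      intro S l hS
      rw [nS_insert (zero_notMem_up S), nS_up]
      omega

/-- the orders in terms of the basis -/
theorem LL_iff (v : ℕ) (f : R[X][X]) (q : ℤ) :
    LL v f q ↔ f ∈ SP R (fun S l => lam v S l ≤ q) := by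
  constructor
  · intro h
    induction v generalizing f q with
    | zero =>
      rw [f.as_sum_range_C_mul_X_pow]
      apply sum_mem
      intro a _
      have h1 : (C (f.coeff a) * X ^ a : R[X][X])
          = ∑ b ∈ range ((f.coeff a).natDegree + 1), ((f.coeff a).coeff b) • (C (X ^ b) * X ^ a) := by
        conv_lhs => rw [(f.coeff a).as_sum_range_C_mul_X_pow]
        rw [map_sum, sum_mul]
        apply sum_congr rfl
        intro b _
        rw [Algebra.smul_def, C_mul, mul_assoc]
        rfl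
      rw [h1]
      apply sum_mem
      intro b _
      by_cases h2 : (f.coeff a).coeff b = 0
      · rw [h2, zero_smul]
        exact zero_mem _
      · apply Submodule.smul_mem
        refine SP.C_pow_mul (P := fun S l => nS S + 2 * l ≤ a) ?_ (X_pow_mem_SP a)
        intro S l hS
        have h3 := h a b h2
        rw [lam_zero_eq]
        have h4 : (nS S : ℤ) + 2 * l ≤ a := by exact_mod_cast hS
        push_cast
        linarith
    | succ v ih =>
      obtain ⟨g0, g1, rfl, h0, h1⟩ := h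
      apply add_mem
      · refine SP_sig (P := fun S l => lam v S l ≤ q + 1) ?_ (ih _ _ h0)
        intro S l hS
        rw [lam_up]
        linarith
      · refine SP_Xsig (P := fun S l => lam v S l ≤ q) ?_ (ih _ _ h1)
        intro S l hS
        rw [lam_insert _ (zero_notMem_up S), lam_up]
        linarith
  · intro h
    refine SP.induction (Pr := fun f => LL v f q) (LL.zero _ _) (fun f g => LL.add)
      (fun c f => LL.smul c) ?_ h
    intro S l hS
    exact (LL_mo v S l).mono hS

end ring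

end Dyn59
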