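import Mathlib

/-!
# MP_d59dab: Laurent series, the operator t d/dt, the leaves x_v
-/

set_option autoImplicit false

open Finset

noncomputable section

namespace Dyn59

variable {K : Type*} [Field K]

/-- the operator `t d/dt` on Laurent series -/
def theta (f : LaurentSeries K) : LaurentSeries K where
  coeff n := (n : K) * f.coeff n
  isPWO_support' := f.isPWO_support.mono (fun n hn => by
    rw [Function.mem_support] at hn
    rw [HahnSeries.mem_support]
    exact right_ne_zero_of_mul hn)

theorem theta_coeff (f : LaurentSeries K) (n : ℤ) : (theta f).coeff n = (n : K) * f.coeff n := rfl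

theorem theta_support (f : LaurentSeries K) : (theta f).support ⊆ f.support := fun n hn => by
  rw [HahnSeries.mem_support, theta_coeff] at hn
  rw [HahnSeries.mem_support]
  exact right_ne_zero_of_mul hn

theorem theta_add (f g : LaurentSeries K) : theta (f + g) = theta f + theta g := by
  ext n
  simp only [theta_coeff, HahnSeries.coeff_add, mul_add]

theorem theta_zero : theta (0 : LaurentSeries K) = 0 := by
  ext n
  simp [theta_coeff]

theorem theta_mul (f g : LaurentSeries K) : theta (f * g) = theta f * g + f * theta g := by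
  ext n
  rw [theta_coeff, HahnSeries.coeff_add, HahnSeries.coeff_mul,
    HahnSeries.coeff_mul_left' f.isPWO_support (theta_support f),
    HahnSeries.coeff_mul_right' g.isPWO_support (theta_support g), mul_sum, ← sum_add_distrib]
  apply sum_congr rfl
  intro ij hij
  rw [theta_coeff, theta_coeff]
  have h : ij.1 + ij.2 = n := by
    exact (Finset.mem_antidiagonal.1 hij).2.2
  rw [← h]
  push_cast
  ring

theorem theta_C (a : K) : theta (HahnSeries.C a : LaurentSeries K) = 0 := by
  ext n
  rw [theta_coeff, HahnSeries.coeff_zero, HahnSeries.C_apply]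
  by_cases h : n = 0
  · rw [h]; simp
  · rw [HahnSeries.coeff_single_of_ne h, mul_zero]

theorem theta_sum {ι : Type*} (s : Finset ι) (f : ι → LaurentSeries K) :
    theta (∑ i ∈ s, f i) = ∑ i ∈ s, theta (f i) := by
  classical
  induction s using Finset.induction_on with
  | empty => simp [theta_zero]
  | insert a s ha ih => rw [sum_insert ha, sum_insert ha, theta_add, ih]

theorem theta_one : theta (1 : LaurentSeries K) = 0 := by
  have := theta_C (K := K) 1
  rwa [map_one] at this

theorem theta_pow (f : LaurentSeries K) (n : ℕ) :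
    theta (f ^ n) = (n : LaurentSeries K) * f ^ (n - 1) * theta f := by
  induction n with
  | zero => simp [theta_one]
  | succ n ih =>
    rw [pow_succ, theta_mul, ih]
    cases n with
    | zero => simp
    | succ m =>
      simp only [Nat.add_sub_cancel]
      push_cast
      ring

/-- the series `z = -t^(-2)` -/
def zz (K : Type*) [Field K] : LaurentSeries K := - HahnSeries.single (-2 : ℤ) (1 : K)

theorem theta_zz : theta (zz K) = -2 * zz K := by
  have h2 : (-2 : LaurentSeries K) * zz K = -(zz K + zz K) := by ring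
  rw [h2]
  ext n
  rw [theta_coeff, zz, HahnSeries.coeff_neg, HahnSeries.coeff_neg, HahnSeries.coeff_add,
    HahnSeries.coeff_neg]
  by_cases h : n = -2
  · rw [h]
    simp only [HahnSeries.coeff_single_same]
    push_cast
    ring
  · rw [HahnSeries.coeff_single_of_ne h]; simp

/-- the substitution `t ↦ -t` as a function -/
def tauFun (f : LaurentSeries K) : LaurentSeries K where
  coeff n := (-1 : K) ^ n * f.coeff n
  isPWO_support' := f.isPWO_support.mono (fun n hn => by
    rw [Function.mem_support] at hn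
    rw [HahnSeries.mem_support]
    exact right_ne_zero_of_mul hn)

theorem tauFun_coeff (f : LaurentSeries K) (n : ℤ) :
    (tauFun f).coeff n = (-1 : K) ^ n * f.coeff n := rfl

theorem tauFun_support (f : LaurentSeries K) : (tauFun f).support ⊆ f.support := fun n hn => by
  rw [HahnSeries.mem_support, tauFun_coeff] at hn
  rw [HahnSeries.mem_support]
  exact right_ne_zero_of_mul hn

theorem tauFun_mul (f g : LaurentSeries K) : tauFun (f * g) = tauFun f * tauFun g := by
  have hne : (-1 : K) ≠ 0 := neg_ne_zero.2 one_ne_zero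
  ext n
  rw [tauFun_coeff, HahnSeries.coeff_mul,
    HahnSeries.coeff_mul_left' f.isPWO_support (tauFun_support f), mul_sum]
  symm
  apply sum_subset_zero_on_sdiff
  · intro ij hij
    rw [Finset.mem_antidiagonal] at hij ⊢
    exact ⟨hij.1, tauFun_support g hij.2.1, hij.2.2⟩
  · intro ij hij
    rw [mem_sdiff, Finset.mem_antidiagonal, Finset.mem_antidiagonal] at hij
    obtain ⟨h3, h4⟩ := hij
    have h5 : g.coeff ij.2 = 0 := by
      by_contra hcon
      apply h4
      refine ⟨h3.1, ?_, h3.2.2⟩
      rw [HahnSeries.mem_support, tauFun_coeff]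
      exact mul_ne_zero (zpow_ne_zero _ hne) hcon
    rw [h5, mul_zero, mul_zero]
  · intro ij hij
    have h : ij.1 + ij.2 = n := (Finset.mem_antidiagonal.1 hij).2.2
    rw [← h, zpow_add₀ hne, tauFun_coeff, tauFun_coeff]
    ring

/-- the substitution `t ↦ -t` -/
def tau (K : Type*) [Field K] : LaurentSeries K →+* LaurentSeries K where
  toFun := tauFun
  map_zero' := by ext n; rw [tauFun_coeff]; simp
  map_one' := by
    ext n
    rw [tauFun_coeff]
    simp only [HahnSeries.coeff_one]
    split_ifs with h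
    · rw [h]; simp
    · simp
  map_add' f g := by
    ext n
    simp only [tauFun_coeff, HahnSeries.coeff_add, mul_add]
  map_mul' := tauFun_mul

theorem tau_coeff (f : LaurentSeries K) (n : ℤ) :
    (tau K f).coeff n = (-1 : K) ^ n * f.coeff n := rfl

theorem tau_zz : tau K (zz K) = zz K := by
  ext n
  rw [tau_coeff, zz, HahnSeries.coeff_neg]
  by_cases h : n = -2
  · rw [h]
    have : (-1 : K) ^ (-2 : ℤ) = 1 := by
      rw [zpow_neg]
      norm_num
    rw [this, one_mul]
  · rw [HahnSeries.coeff_single_of_ne h]; simp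

theorem tau_C (a : K) : tau K (HahnSeries.C a) = HahnSeries.C a := by
  ext n
  rw [tau_coeff, HahnSeries.C_apply]
  by_cases h : n = 0
  · rw [h]; simp
  · rw [HahnSeries.coeff_single_of_ne h, mul_zero]

/-- shift of a word -/
def sh (v : ℕ → ℤˣ) : ℕ → ℤˣ := fun i => v (i + 1)

/-- coefficients of the leaf: `y_v = ∑ cf k v t^k`, `y_v^2 = 1 + t y_(sh v)`, `y_v = v 0 + ...`. -/
def cf (K : Type*) [Field K] : ℕ → (ℕ → ℤˣ) → K
  | 0, v => ((v 0 : ℤ) : K)
  | (k + 1), v => (2 * ((v 0 : ℤ) : K))⁻¹ *
      (cf K k (sh v) - ∑ i : Fin k, cf K (i.1 + 1) v * cf K (k - i.1) v)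
termination_by k => k
decreasing_by all_goals (try have := i.2); omega

theorem cf_zero (v : ℕ → ℤˣ) : cf K 0 v = ((v 0 : ℤ) : K) := by rw [cf]

theorem cf_succ (k : ℕ) (v : ℕ → ℤˣ) : cf K (k + 1) v = (2 * ((v 0 : ℤ) : K))⁻¹ *
      (cf K k (sh v) - ∑ i ∈ range k, cf K (i + 1) v * cf K (k - i) v) := by
  rw [cf, ← Fin.sum_univ_eq_sum_range (fun i => cf K (i + 1) v * cf K (k - i) v)]

theorem sgn_sq (u : ℤˣ) : ((u : ℤ) : K) * ((u : ℤ) : K) = 1 := by
  rw [← Int.cast_mul, ← Units.val_mul, Int.units_mul_self, Units.val_one, Int.cast_one]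

theorem sgn_ne_zero (u : ℤˣ) : ((u : ℤ) : K) ≠ 0 := left_ne_zero_of_mul_eq_one (sgn_sq u)

/-- the power series `y_v` -/
def yy (K : Type*) [Field K] (v : ℕ → ℤˣ) : PowerSeries K := PowerSeries.mk (fun k => cf K k v)

theorem yy_coeff (v : ℕ → ℤˣ) (k : ℕ) : PowerSeries.coeff k (yy K v) = cf K k v := by
  rw [yy, PowerSeries.coeff_mk]

theorem yy_sq (h2 : (2 : K) ≠ 0) (v : ℕ → ℤˣ) :
    yy K v ^ 2 = 1 + PowerSeries.X * yy K (sh v) := by
  ext k
  rw [pow_two, PowerSeries.coeff_mul, map_add]
  cases k with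
  | zero =>
    simp only [Nat.antidiagonal_zero, sum_singleton, yy_coeff, cf_zero, sgn_sq,
      PowerSeries.coeff_one, if_true, PowerSeries.coeff_zero_X_mul, add_zero]
  | succ k =>
    rw [PowerSeries.coeff_succ_X_mul, PowerSeries.coeff_one, if_neg (Nat.succ_ne_zero k), zero_add,
      yy_coeff]
    simp only [yy_coeff]
    rw [Nat.sum_antidiagonal_eq_sum_range_succ (fun i j => cf K i v * cf K j v), sum_range_succ,
      sum_range_succ']
    simp only [Nat.sub_self, Nat.sub_zero, cf_zero]
    have h3 : ∀ i ∈ range k, cf K (i + 1) v * cf K (k + 1 - (i + 1)) v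
        = cf K (i + 1) v * cf K (k - i) v := by
      intro i _
      rw [Nat.add_sub_add_right]
    rw [sum_congr rfl h3]
    have hne : (2 * ((v 0 : ℤ) : K)) ≠ 0 := mul_ne_zero h2 (sgn_ne_zero _)
    have h4 : (2 * ((v 0 : ℤ) : K)) * cf K (k + 1) v
        = cf K k (sh v) - ∑ i ∈ range k, cf K (i + 1) v * cf K (k - i) v := by
      rw [cf_succ, ← mul_assoc, mul_inv_cancel₀ hne, one_mul]
    linear_combination h4

/-- the leaf `x_v = t^(-1) y_v` -/
def xx (K : Type*) [Field K] (v : ℕ → ℤˣ) : LaurentSeries K :=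
  HahnSeries.single (-1 : ℤ) (1 : K) * HahnSeries.ofPowerSeries ℤ K (yy K v)

theorem xx_sq (h2 : (2 : K) ≠ 0) (v : ℕ → ℤˣ) : xx K v ^ 2 + zz K = xx K (sh v) := by
  have h1 : (HahnSeries.single (-1 : ℤ) (1 : K)) ^ 2 = HahnSeries.single (-2 : ℤ) (1 : K) := by
    rw [pow_two, HahnSeries.single_mul_single]
    norm_num
  have h3 : (HahnSeries.single (-2 : ℤ) (1 : K)) * HahnSeries.ofPowerSeries ℤ K PowerSeries.X
      = HahnSeries.single (-1 : ℤ) (1 : K) := by
    rw [HahnSeries.ofPowerSeries_X, HahnSeries.single_mul_single]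
    norm_num
  rw [xx, mul_pow, ← map_pow (HahnSeries.ofPowerSeries ℤ K), yy_sq h2, map_add,
    map_one (HahnSeries.ofPowerSeries ℤ K), map_mul,
    h1, xx, zz, mul_add, mul_one, ← mul_assoc, h3]
  ring

theorem xx_coeff (v : ℕ → ℤˣ) (k : ℕ) : (xx K v).coeff ((k : ℤ) - 1) = cf K k v := by
  have h : ((k : ℤ) - 1) = (k : ℤ) + (-1) := by ring
  rw [xx, h, HahnSeries.coeff_single_mul_add, one_mul]
  have := HahnSeries.ofPowerSeries_apply_coeff (Γ := ℤ) (yy K v) k
  rw [this, yy_coeff]

theorem xx_coeff_neg (v : ℕ → ℤˣ) {n : ℤ} (hn : n < -1) : (xx K v).coeff n = 0 := by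
  have h : n = (n + 1) + (-1) := by ring
  rw [xx, h, HahnSeries.coeff_single_mul_add, one_mul]
  rw [HahnSeries.ofPowerSeries_apply]
  apply HahnSeries.embDomain_of_notMem_range
  rintro ⟨k, hk⟩
  simp at hk
  omega

/-- negation of a word changes the sign of `t` -/
theorem cf_neg (k : ℕ) : ∀ v : ℕ → ℤˣ, cf K k (-v) = (-1) ^ (k + 1) * cf K k v := by
  induction k using Nat.strong_induction_on with
  | _ k ih =>
    intro v
    cases k with
    | zero => simp [cf_zero]
    | succ k =>
      rw [cf_succ, cf_succ]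
      have h1 : sh (-v) = - sh v := rfl
      rw [h1, ih k (by omega)]
      have h3 : ∀ i ∈ range k, cf K (i + 1) (-v) * cf K (k - i) (-v)
          = (-1) ^ (k + 1) * (cf K (i + 1) v * cf K (k - i) v) := by
        intro i hi
        rw [mem_range] at hi
        rw [ih (i + 1) (by omega), ih (k - i) (by omega)]
        have h5 : (-1 : K) ^ (i + 1 + 1) * (-1) ^ (k - i + 1) = (-1) ^ (k + 1) := by
          rw [← pow_add]
          have h6 : i + 1 + 1 + (k - i + 1) = (k + 1) + 2 := by omega
          rw [h6, pow_add]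
          norm_num
        linear_combination (cf K (i + 1) v * cf K (k - i) v) * h5
      rw [sum_congr rfl h3, ← mul_sum]
      simp only [Pi.neg_apply, Units.val_neg, Int.cast_neg, mul_neg, inv_neg]
      rw [pow_succ (-1 : K) (k + 1)]
      ring

theorem tau_xx (v : ℕ → ℤˣ) : tau K (xx K v) = xx K (-v) := by
  ext n
  rw [tau_coeff]
  by_cases h : n < -1
  · rw [xx_coeff_neg _ h, xx_coeff_neg _ h, mul_zero]
  · obtain ⟨k, hk⟩ := Int.eq_ofNat_of_zero_le (show 0 ≤ n + 1 by omega)
    have h1 : n = (k : ℤ) - 1 := by omega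
    rw [h1, xx_coeff, xx_coeff, cf_neg]
    congr 1
    rw [zpow_sub₀ (neg_ne_zero.2 one_ne_zero), zpow_natCast, zpow_one, pow_succ]
    field_simp

theorem xx_injective (h2 : (2 : K) ≠ 0) : Function.Injective (xx K) := by
  have h0 : ∀ v w : ℕ → ℤˣ, xx K v = xx K w → v 0 = w 0 := by
    intro v w h
    have h1 := congrArg (fun f : LaurentSeries K => f.coeff (((0 : ℕ) : ℤ) - 1)) h
    simp only [xx_coeff, cf_zero] at h1
    rcases Int.units_eq_one_or (v 0) with hv | hv <;> rcases Int.units_eq_one_or (w 0) with hw | hw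
    · rw [hv, hw]
    · exfalso
      rw [hv, hw] at h1
      apply h2
      simp only [Units.val_one, Int.cast_one, Units.val_neg, Int.cast_neg] at h1
      linear_combination h1
    · exfalso
      rw [hv, hw] at h1
      apply h2
      simp only [Units.val_one, Int.cast_one, Units.val_neg, Int.cast_neg] at h1
      linear_combination -h1
    · rw [hv, hw]
  intro v w h
  have hk : ∀ k, xx K (sh^[k] v) = xx K (sh^[k] w) := by
    intro k
    induction k with
    | zero => exact h
    | succ k ih =>
      rw [Function.iterate_succ_apply', Function.iterate_succ_apply', ← xx_sq h2, ← xx_sq h2, ih]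
  have hs : ∀ (k : ℕ) (u : ℕ → ℤˣ), (sh^[k] u) 0 = u k := by
    intro k
    induction k with
    | zero => intro u; rfl
    | succ k ih =>
      intro u
      rw [Function.iterate_succ_apply, ih]
      rfl
  funext k
  have := h0 _ _ (hk k)
  rwa [hs, hs] at this

end Dyn59
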