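import Pool.Agent.H.MP_d59dab.Main

/-!
# MP_d59dab: base change of the statement (*E), and the case of characteristic two
-/

set_option autoImplicit false

open Finset Polynomial

noncomputable section

namespace Dyn59

section basechange

variable {k K : Type*} [Field k] [Field K] (φ : k →+* K)

/-- coefficientwise application of a ring homomorphism -/
def lmap : LaurentSeries k →+* LaurentSeries K where
  toFun f := HahnSeries.map f φ
  map_zero' := by ext n; simp
  map_one' := by
    ext n
    rw [HahnSeries.map_coeff, HahnSeries.coeff_one, HahnSeries.coeff_one]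
    split_ifs <;> simp
  map_add' f g := by ext n; simp
  map_mul' f g := HahnSeries.map_mul (φ : k →ₙ+* K)

theorem lmap_coeff (f : LaurentSeries k) (n : ℤ) : (lmap φ f).coeff n = φ (f.coeff n) := rfl

theorem lmap_theta (f : LaurentSeries k) : lmap φ (theta f) = theta (lmap φ f) := by
  ext n
  rw [lmap_coeff, theta_coeff, theta_coeff, lmap_coeff, map_mul, map_intCast]

theorem lmap_zz : lmap φ (zz k) = zz K := by
  ext n
  rw [lmap_coeff, zz, zz, HahnSeries.coeff_neg, HahnSeries.coeff_neg, map_neg]
  by_cases h : n = -2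
  · rw [h, HahnSeries.coeff_single_same, HahnSeries.coeff_single_same, map_one]
  · rw [HahnSeries.coeff_single_of_ne h, HahnSeries.coeff_single_of_ne h, map_zero]

theorem lmap_C (a : k) : lmap φ (HahnSeries.C a) = HahnSeries.C (φ a) := by
  ext n
  rw [lmap_coeff, HahnSeries.C_apply, HahnSeries.C_apply]
  by_cases h : n = 0
  · rw [h, HahnSeries.coeff_single_same, HahnSeries.coeff_single_same]
  · rw [HahnSeries.coeff_single_of_ne h, HahnSeries.coeff_single_of_ne h, map_zero]

theorem map_cf (j : ℕ) : ∀ v : ℕ → ℤˣ, φ (cf k j v) = cf K j v := by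
  induction j using Nat.strong_induction_on with
  | _ j ih =>
    intro v
    cases j with
    | zero => rw [cf_zero, cf_zero, map_intCast]
    | succ j =>
      rw [cf_succ, cf_succ, map_mul, map_inv₀, map_mul, map_ofNat, map_intCast, map_sub,
        map_sum, ih j (by omega)]
      congr 2
      apply sum_congr rfl
      intro i hi
      rw [mem_range] at hi
      rw [map_mul, ih (i + 1) (by omega), ih (j - i) (by omega)]

theorem lmap_xx (v : ℕ → ℤˣ) : lmap φ (xx k v) = xx K v := by
  ext n
  rw [lmap_coeff]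
  by_cases h : n < -1
  · rw [xx_coeff_neg _ h, xx_coeff_neg _ h, map_zero]
  · obtain ⟨j, hj⟩ := Int.eq_ofNat_of_zero_le (show 0 ≤ n + 1 by omega)
    have h1 : n = (j : ℤ) - 1 := by omega
    rw [h1, xx_coeff, xx_coeff, map_cf]

theorem lmap_zeta : (lmap φ).comp (zeta k) = (zeta K).comp (mapRingHom φ) := by
  apply Polynomial.ringHom_ext
  · intro a
    rw [RingHom.comp_apply, RingHom.comp_apply, zeta_C, lmap_C, coe_mapRingHom, map_C, zeta_C]
  · rw [RingHom.comp_apply, RingHom.comp_apply, zeta_X, lmap_zz, coe_mapRingHom, map_X, zeta_X]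

theorem lmap_ev (P : k[X][X]) (v : ℕ → ℤˣ) :
    lmap φ (ev P v) = ev (P.map (mapRingHom φ)) v := by
  rw [ev, hom_eval₂, lmap_xx, lmap_zeta, ev, eval₂_map]

theorem map_resid (A B : k[X][X]) (v : ℕ → ℤˣ) :
    φ (resid A B v) = resid (A.map (mapRingHom φ)) (B.map (mapRingHom φ)) v := by
  rw [resid, resid, ← lmap_coeff, map_add, map_mul, map_mul, lmap_ev, lmap_ev, lmap_theta,
    lmap_xx, lmap_zz]

theorem map_sg (u : ℤˣ) : φ (sg k u) = sg K u := by
  simp [sg]

theorem starE_baseChange (φ : k →+* K) (h : StarE k) : StarE K := by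
  intro J h0 hJ h4
  obtain ⟨A, B, c, N, hres⟩ := h J h0 hJ h4
  refine ⟨A.map (mapRingHom φ), B.map (mapRingHom φ), fun e => φ (c e), N, fun v => ?_⟩
  rw [← map_resid, hres v, map_sub, map_sum, map_sg]
  congr 1
  apply sum_congr rfl
  intro e _
  rw [map_mul, map_sg]

/-- `StarE` over the prime field gives geometric irreducibility. -/
theorem irreducible_of_starE (φ : k →+* K) (h2 : (2 : K) ≠ 0) (h : StarE k) {n : ℕ} (hn : 0 < n) :
    Irreducible ((Phi ℤ n).map (mapRingHom (Int.castRingHom K))) := by
  rw [Phi_map _ hn]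
  exact irreducible_Phi h2 (starE_baseChange φ h) hn

end basechange

end Dyn59
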