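import Pool.Agent.H.MP_d59dab.Defs

/-!
# MP_d59dab: exact forms and the Cartier operator
-/

set_option autoImplicit false

open Finset Polynomial

noncomputable section

namespace Dyn59

section ring

variable {R : Type*} [CommRing R]

theorem Dz_mul (f g : R[X][X]) : Dz (f * g) = Dz f * g + f * Dz g := by
  ext1 n
  rw [Dz_coeff, coeff_add, coeff_mul, coeff_mul, coeff_mul, derivative_sum, ← sum_add_distrib]
  apply sum_congr rfl
  intro ij _
  rw [derivative_mul, Dz_coeff, Dz_coeff]

theorem Dz_zero : Dz (0 : R[X][X]) = 0 := by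
  ext1 a
  rw [Dz_coeff, coeff_zero, derivative_zero]

theorem Dz_C (h : R[X]) : Dz (C h : R[X][X]) = C (derivative h) := by
  ext1 a
  rw [Dz_coeff, coeff_C, coeff_C]
  split_ifs <;> simp

theorem Dz_X_pow (n : ℕ) : Dz ((X : R[X][X]) ^ n) = 0 := by
  ext1 a
  rw [Dz_coeff, coeff_X_pow, coeff_zero]
  split_ifs <;> simp

theorem Dz_X : Dz (X : R[X][X]) = 0 := by
  have := Dz_X_pow (R := R) 1
  rwa [pow_one] at this

theorem Dz_smul (c : R) (f : R[X][X]) : Dz (c • f) = c • Dz f := by
  ext1 a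
  rw [coeff_smul, Dz_coeff, Dz_coeff, coeff_smul, derivative_smul]

theorem Dz_neg (f : R[X][X]) : Dz (-f) = - Dz f := by
  ext1 a
  rw [coeff_neg, Dz_coeff, Dz_coeff, coeff_neg, derivative_neg]

theorem Dz_sub (f g : R[X][X]) : Dz (f - g) = Dz f - Dz g := by
  rw [sub_eq_add_neg, Dz_add, Dz_neg, sub_eq_add_neg]

theorem Dz_natCast_mul (n : ℕ) (f : R[X][X]) : Dz ((n : R[X][X]) * f) = n * Dz f := by
  rw [Dz_mul]
  have : ((n : R[X][X])) = C (n : R[X]) := by simp
  rw [this, Dz_C]
  simp

/-- the exact forms as a submodule -/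
def exSub (R : Type*) [CommRing R] : Submodule R R[X][X] where
  carrier := {f | IsEx f}
  add_mem' := by
    rintro f g ⟨A, B, rfl⟩ ⟨A', B', rfl⟩
    exact ⟨A + A', B + B', by rw [Dz_add, derivative_add]; ring⟩
  zero_mem' := ⟨0, 0, by rw [Dz_zero, derivative_zero, sub_zero]⟩
  smul_mem' := by
    rintro c f ⟨A, B, rfl⟩
    exact ⟨c • A, c • B, by rw [Dz_smul, derivative_smul, smul_sub]⟩

theorem mem_exSub {f : R[X][X]} : f ∈ exSub R ↔ IsEx f := Iff.rfl

/-! ### derivatives and the map `sig` -/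

theorem derivative_sig (f : R[X][X]) :
    derivative (sig R f) = 2 * X * sig R (derivative f) := by
  induction f using Polynomial.induction_on' with
  | add f g hf hg => rw [map_add, derivative_add, hf, hg, derivative_add, map_add, mul_add]
  | monomial n a =>
    rw [← C_mul_X_pow_eq_monomial, map_mul, map_pow, sig_C, sig_X, derivative_C_mul,
      derivative_pow, derivative_C_mul_X_pow, map_mul, map_pow, sig_X, sig_C]
    have h0 : derivative (X ^ 2 + C X : R[X][X]) = 2 * X := by
      rw [derivative_add, derivative_X_pow, derivative_C, add_zero]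
      have h2 : (C (2 : R[X]) : R[X][X]) = 2 := map_ofNat C 2
      simp [h2]
    rw [h0]
    simp only [map_mul, map_natCast]
    ring

theorem Dz_pow (f : R[X][X]) (n : ℕ) : Dz (f ^ n) = n * f ^ (n - 1) * Dz f := by
  induction n with
  | zero =>
    have h1 : (1 : R[X][X]) = C 1 := by simp
    rw [pow_zero, h1, Dz_C]
    simp
  | succ n ih =>
    rw [pow_succ, Dz_mul, ih]
    cases n with
    | zero => simp
    | succ m =>
      simp only [Nat.add_sub_cancel]
      push_cast
      ring

theorem Dz_sig (f : R[X][X]) : Dz (sig R f) = sig R (derivative f) + sig R (Dz f) := by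
  induction f using Polynomial.induction_on' with
  | add f g hf hg => rw [map_add, Dz_add, hf, hg, derivative_add, map_add, Dz_add, map_add]; ring
  | monomial n a =>
    rw [← C_mul_X_pow_eq_monomial]
    have h1 : sig R (C a * X ^ n) = C a * (X ^ 2 + C X) ^ n := by
      rw [map_mul, map_pow, sig_C, sig_X]
    have h2 : Dz (X ^ 2 + C X : R[X][X]) = 1 := by
      rw [Dz_add, Dz_X_pow, Dz_C, derivative_X, zero_add, map_one]
    have h3 : Dz (C a * X ^ n) = C (derivative a) * X ^ n := by
      rw [Dz_mul, Dz_C, Dz_X_pow, mul_zero, add_zero]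
    have h4 : sig R (C (a * (n : R[X])) * X ^ (n - 1))
        = C a * (n : R[X][X]) * (X ^ 2 + C X) ^ (n - 1) := by
      rw [map_mul, map_pow, sig_C, sig_X, C_mul, map_natCast]
    have h5 : sig R (C (derivative a) * X ^ n) = C (derivative a) * (X ^ 2 + C X) ^ n := by
      rw [map_mul, map_pow, sig_C, sig_X]
    rw [h1, h3, Dz_mul, Dz_pow, h2, Dz_C, derivative_C_mul_X_pow, h4, h5]
    ring

/-- pull back of exact forms -/
theorem IsEx.sig2 {f : R[X][X]} (h : IsEx f) : IsEx (2 * (X * sig R f)) := by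
  obtain ⟨A, B, rfl⟩ := h
  refine ⟨2 * X * sig R A, sig R A + sig R B, ?_⟩
  rw [derivative_add, derivative_sig, derivative_sig, Dz_mul, Dz_mul, Dz_X, Dz_sig, map_sub]
  have h2 : Dz (2 : R[X][X]) = 0 := by
    have : (2 : R[X][X]) = C 2 := (map_ofNat C 2).symm
    rw [this, Dz_C]
    have h3 : (derivative (2 : R[X])) = 0 := by
      have : (2 : R[X]) = C 2 := (map_ofNat C 2).symm
      rw [this, derivative_C]
    rw [h3, map_zero]
  rw [h2]
  ring

/-- every polynomial is `sig g0 + x sig g1` -/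
theorem exists_decomp (f : R[X][X]) : ∃ g0 g1 : R[X][X], f = sig R g0 + X * sig R g1 := by
  induction f using Polynomial.induction_on' with
  | add f g hf hg =>
    obtain ⟨a, b, rfl⟩ := hf
    obtain ⟨c, d, rfl⟩ := hg
    exact ⟨a + c, b + d, by rw [map_add, map_add]; ring⟩
  | monomial n a =>
    induction n with
    | zero => exact ⟨C a, 0, by rw [sig_C, map_zero, mul_zero, add_zero]; rfl⟩
    | succ n ih =>
      obtain ⟨g0, g1, h⟩ := ih
      refine ⟨(X - C X) * g1, g0, ?_⟩
      have h1 : (monomial (n + 1) a : R[X][X]) = X * monomial n a := by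
        rw [← C_mul_X_pow_eq_monomial, ← C_mul_X_pow_eq_monomial, pow_succ]
        ring
      rw [h1, h, map_mul, map_sub, sig_X, sig_C]
      ring

/-! ### the Cartier operator on monomials -/

theorem Car_zero {p : ℕ} (hp : 0 < p) : Car p (0 : R[X][X]) = 0 := by
  ext a b
  rw [Car_coeff_coeff hp]
  simp

/-- the Cartier operator as a linear map -/
def CarL (R : Type*) [CommRing R] {p : ℕ} (hp : 0 < p) : R[X][X] →ₗ[R] R[X][X] where
  toFun := Car p
  map_add' := Car_add hp
  map_smul' := Car_smul hp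

theorem Car_neg {p : ℕ} (hp : 0 < p) (f : R[X][X]) : Car p (-f) = - Car p f :=
  (CarL R hp).map_neg f

theorem Car_sub {p : ℕ} (hp : 0 < p) (f g : R[X][X]) : Car p (f - g) = Car p f - Car p g :=
  (CarL R hp).map_sub f g

theorem Car_sum {p : ℕ} (hp : 0 < p) {ι : Type*} (s : Finset ι) (f : ι → R[X][X]) :
    Car p (∑ i ∈ s, f i) = ∑ i ∈ s, Car p (f i) :=
  map_sum (CarL R hp) f s

theorem Car_mul_pow {p : ℕ} (hp : 0 < p) (a b : ℕ) (f : R[X][X]) :
    Car p (C (X ^ (p * b)) * X ^ (p * a) * f) = C (X ^ b) * X ^ a * Car p f := by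
  ext n m
  rw [Car_coeff_coeff hp, mul_assoc, mul_assoc, coeff_C_mul, coeff_C_mul, coeff_X_pow_mul',
    coeff_X_pow_mul']
  have e1 : (p * a ≤ p * (n + 1) - 1) ↔ a ≤ n := by
    constructor
    · intro h
      have h1 : 0 < p * (n + 1) := by positivity
      have h2 : p * a < p * (n + 1) := by omega
      have := Nat.lt_of_mul_lt_mul_left h2
      omega
    · intro h
      have h1 : p * a ≤ p * n := Nat.mul_le_mul_left p h
      have h2 : p * (n + 1) = p * n + p := by ring
      omega
  have e2 : (p * b ≤ p * (m + 1) - 1) ↔ b ≤ m := by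
    constructor
    · intro h
      have h1 : 0 < p * (m + 1) := by positivity
      have h2 : p * b < p * (m + 1) := by omega
      have := Nat.lt_of_mul_lt_mul_left h2
      omega
    · intro h
      have h1 : p * b ≤ p * m := Nat.mul_le_mul_left p h
      have h2 : p * (m + 1) = p * m + p := by ring
      omega
  rw [coeff_X_pow_mul', coeff_X_pow_mul']
  simp only [e1, e2]
  split_ifs with h1 h2 h2
  · rw [Car_coeff_coeff hp]
    have h3 : p * (n + 1) - 1 - p * a = p * (n - a + 1) - 1 := by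
      obtain ⟨k, rfl⟩ := Nat.exists_eq_add_of_le h2
      have : p * (a + k + 1) = p * a + p * (k + 1) := by ring
      rw [this, Nat.add_sub_cancel_left]
      omega
    have h4 : p * (m + 1) - 1 - p * b = p * (m - b + 1) - 1 := by
      obtain ⟨k, rfl⟩ := Nat.exists_eq_add_of_le h1
      have : p * (b + k + 1) = p * b + p * (k + 1) := by ring
      rw [this, Nat.add_sub_cancel_left]
      omega
    rw [h3, h4]
  · simp
  · rfl

end ring

section field

variable {p : ℕ} [hp : Fact p.Prime]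

theorem IsEx.Car_eq_zero {f : (ZMod p)[X][X]} (h : IsEx f) : Car p f = 0 := by
  obtain ⟨A, B, rfl⟩ := h
  have hp0 : 0 < p := hp.out.pos
  ext a b
  rw [Car_coeff_coeff hp0, coeff_sub, coeff_sub, coeff_derivative, Dz_coeff, coeff_derivative,
    coeff_zero, coeff_zero]
  have h1 : p * (a + 1) - 1 + 1 = p * (a + 1) := by
    have : 0 < p * (a + 1) := by positivity
    omega
  have h2 : p * (b + 1) - 1 + 1 = p * (b + 1) := by
    have : 0 < p * (b + 1) := by positivity
    omega
  have h3 : (((p * (a + 1) - 1 : ℕ) : (ZMod p)[X]) + 1) = 0 := by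
    have : (((p * (a + 1) - 1 : ℕ) : (ZMod p)[X]) + 1) = ((p * (a + 1) - 1 + 1 : ℕ) : (ZMod p)[X]) := by
      push_cast; ring
    rw [this, h1, Nat.cast_mul, CharP.cast_eq_zero, zero_mul]
  have h4 : (((p * (b + 1) - 1 : ℕ) : (ZMod p)) + 1) = 0 := by
    have : (((p * (b + 1) - 1 : ℕ) : (ZMod p)) + 1) = ((p * (b + 1) - 1 + 1 : ℕ) : (ZMod p)) := by
      push_cast; ring
    rw [this, h2, Nat.cast_mul, CharP.cast_eq_zero, zero_mul]
  rw [h3, h4, mul_zero, mul_zero, coeff_zero, sub_zero]

theorem Car_pow_mul (g f : (ZMod p)[X][X]) : Car p (g ^ p * f) = g * Car p f := by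
  have hp0 : 0 < p := hp.out.pos
  induction g using Polynomial.induction_on' with
  | add g h hg hh => rw [add_pow_char, add_mul, Car_add hp0, hg, hh, add_mul]
  | monomial a h =>
    induction h using Polynomial.induction_on' with
    | add g h hg hh => rw [map_add, add_pow_char, add_mul, Car_add hp0, hg, hh, add_mul]
    | monomial b c =>
      have e1 : (monomial a (monomial b c) : (ZMod p)[X][X]) = c • (C (X ^ b) * X ^ a) := by
        rw [← C_mul_X_pow_eq_monomial, ← smul_X_eq_monomial, ← smul_C, smul_mul_assoc]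
      have e2 : (c • (C (X ^ b) * X ^ a) : (ZMod p)[X][X]) ^ p
          = c • (C (X ^ (p * b)) * X ^ (p * a)) := by
        rw [_root_.smul_pow, ZMod.pow_card, mul_pow, ← map_pow, ← pow_mul, ← pow_mul, mul_comm b p,
          mul_comm a p]
      rw [e1, e2, smul_mul_assoc, Car_smul hp0, Car_mul_pow hp0, smul_mul_assoc]

theorem Car_mono (a b : ℕ) : Car p (C (X ^ b) * X ^ a : (ZMod p)[X][X]) =
    if p ∣ a + 1 ∧ p ∣ b + 1 then C (X ^ ((b + 1) / p - 1)) * X ^ ((a + 1) / p - 1) else 0 := by
  have hp0 : 0 < p := hp.out.pos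
  ext n m
  rw [Car_coeff_coeff hp0, coeff_C_mul, coeff_X_pow]
  have key : ∀ a n : ℕ, (p * (n + 1) - 1 = a) ↔ (p ∣ a + 1 ∧ n = (a + 1) / p - 1) := by
    intro a n
    have h1 : 0 < p * (n + 1) := by positivity
    constructor
    · rintro rfl
      have h2 : p * (n + 1) - 1 + 1 = p * (n + 1) := by omega
      rw [h2]
      refine ⟨dvd_mul_right _ _, ?_⟩
      rw [Nat.mul_div_cancel_left _ hp0]
      omega
    · rintro ⟨⟨k, hk⟩, hn⟩
      rw [hk, Nat.mul_div_cancel_left _ hp0] at hn
      have hk0 : 0 < k := by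
        rcases Nat.eq_zero_or_pos k with h | h
        · rw [h] at hk; simp at hk
        · exact h
      have : n + 1 = k := by omega
      rw [this, ← hk]
      omega
  by_cases h1 : p ∣ a + 1
  · by_cases h2 : p ∣ b + 1
    · rw [if_pos (c := p ∣ a + 1 ∧ p ∣ b + 1) ⟨h1, h2⟩, coeff_C_mul, coeff_X_pow]
      by_cases h3 : n = (a + 1) / p - 1
      · rw [if_pos ((key a n).2 ⟨h1, h3⟩), if_pos h3, mul_one, mul_one, coeff_X_pow, coeff_X_pow]
        by_cases h4 : m = (b + 1) / p - 1
        · rw [if_pos h4, if_pos ((key b m).2 ⟨h2, h4⟩)]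
        · rw [if_neg h4, if_neg (fun h => h4 ((key b m).1 h).2)]
      · rw [if_neg (fun h => h3 ((key a n).1 h).2), if_neg h3]
        simp
    · rw [if_neg (c := p ∣ a + 1 ∧ p ∣ b + 1) (fun h => h2 h.2)]
      split_ifs
      · rw [mul_one, coeff_X_pow, if_neg]
        · simp
        · rw [key]
          exact fun h => h2 h.1
      · simp
  · rw [if_neg (c := p ∣ a + 1 ∧ p ∣ b + 1) (fun h => h1 h.1), if_neg (fun h => h1 ((key a n).1 h).1)]
    simp

theorem isEx_smul {f : (ZMod p)[X][X]} (c : ZMod p) (h : IsEx f) : IsEx (c • f) :=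
  (exSub (ZMod p)).smul_mem c h

theorem IsEx.sig1 (h2 : p ≠ 2) {f : (ZMod p)[X][X]} (h : IsEx f) : IsEx (X * sig (ZMod p) f) := by
  have h3 : (2 : ZMod p) ≠ 0 := by
    intro h0
    have h1 : ((2 : ℕ) : ZMod p) = 0 := by exact_mod_cast h0
    rw [ZMod.natCast_eq_zero_iff] at h1
    exact h2 ((Nat.prime_dvd_prime_iff_eq hp.out Nat.prime_two).1 h1)
  have h4 := isEx_smul (2 : ZMod p)⁻¹ h.sig2
  have h5 : (2 : ZMod p)⁻¹ • (2 * (X * sig (ZMod p) f)) = X * sig (ZMod p) f := by
    have h6 : (2 * (X * sig (ZMod p) f)) = (2 : ZMod p) • (X * sig (ZMod p) f) := by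
      rw [Algebra.smul_def, map_ofNat]
    rw [h6, smul_smul, inv_mul_cancel₀ h3, one_smul]
  rwa [h5] at h4

theorem isEx_mono {a b : ℕ} (h : ¬ (p ∣ a + 1 ∧ p ∣ b + 1)) :
    IsEx (C (X ^ b) * X ^ a : (ZMod p)[X][X]) := by
  have hc : ∀ n : ℕ, ¬ p ∣ n + 1 → ((n : ZMod p) + 1) ≠ 0 := by
    intro n hn h0
    apply hn
    have : ((n + 1 : ℕ) : ZMod p) = 0 := by exact_mod_cast h0
    rwa [ZMod.natCast_eq_zero_iff] at this
  by_cases h1 : p ∣ a + 1
  · have h2 : ¬ p ∣ b + 1 := fun h2 => h ⟨h1, h2⟩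
    refine ⟨-(((b : ZMod p) + 1)⁻¹ • (C (X ^ (b + 1)) * X ^ a)), 0, ?_⟩
    have h3 : (C (derivative (X ^ (b + 1))) : (ZMod p)[X][X]) * X ^ a
        = (((b : ZMod p) + 1)) • (C (X ^ b) * X ^ a) := by
      rw [Algebra.smul_def, derivative_X_pow, Nat.add_sub_cancel]
      simp
      ring
    rw [derivative_zero, Dz_neg, Dz_smul, Dz_mul, Dz_C, Dz_X_pow, mul_zero,
      add_zero, zero_sub, neg_neg, h3, smul_smul, inv_mul_cancel₀ (hc b h2), one_smul]
  · refine ⟨0, ((a : ZMod p) + 1)⁻¹ • (C (X ^ b) * X ^ (a + 1)), ?_⟩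
    have h3 : (C (X ^ b) : (ZMod p)[X][X]) * derivative (X ^ (a + 1))
        = (((a : ZMod p) + 1)) • (C (X ^ b) * X ^ a) := by
      rw [Algebra.smul_def, derivative_X_pow, Nat.add_sub_cancel]
      simp
      ring
    rw [Dz_zero, sub_zero, derivative_smul, derivative_C_mul, h3, smul_smul,
      inv_mul_cancel₀ (hc a h1), one_smul]

/-- induction principle: an additive statement which is compatible with `p`-th powers has to be
checked for `x^a z^b`, `a, b < p` -/
theorem car_induction {Pr : (ZMod p)[X][X] → Prop} (hadd : ∀ f g, Pr f → Pr g → Pr (f + g))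
    (hsmul : ∀ (c : ZMod p) f, Pr f → Pr (c • f)) (hpow : ∀ g f, Pr f → Pr (g ^ p * f))
    (hmono : ∀ a b, a < p → b < p → Pr (C (X ^ b) * X ^ a)) (f : (ZMod p)[X][X]) : Pr f := by
  have hp0 : 0 < p := hp.out.pos
  induction f using Polynomial.induction_on' with
  | add g h hg hh => exact hadd _ _ hg hh
  | monomial a h =>
    induction h using Polynomial.induction_on' with
    | add g h hg hh => rw [map_add]; exact hadd _ _ hg hh
    | monomial b c =>
      have e1 : (monomial a (monomial b c) : (ZMod p)[X][X]) = c • (C (X ^ b) * X ^ a) := by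
        rw [← C_mul_X_pow_eq_monomial, ← smul_X_eq_monomial, ← smul_C, smul_mul_assoc]
      rw [e1]
      apply hsmul
      have e2 : (C (X ^ b) * X ^ a : (ZMod p)[X][X])
          = (C (X ^ (b / p)) * X ^ (a / p)) ^ p * (C (X ^ (b % p)) * X ^ (a % p)) := by
        rw [mul_pow, ← map_pow, ← pow_mul, ← pow_mul]
        have h1 : (C (X ^ b) : (ZMod p)[X][X]) = C (X ^ (b / p * p)) * C (X ^ (b % p)) := by
          rw [← map_mul, ← pow_add, mul_comm, Nat.div_add_mod]
        have h2 : (X ^ a : (ZMod p)[X][X]) = X ^ (a / p * p) * X ^ (a % p) := by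
          rw [← pow_add, mul_comm, Nat.div_add_mod]
        rw [h1, h2]
        ring
      rw [e2]
      exact hpow _ _ (hmono _ _ (Nat.mod_lt _ hp0) (Nat.mod_lt _ hp0))

/-- naturality of the Cartier operator -/
theorem Car_X_sig (h2 : p ≠ 2) (g : (ZMod p)[X][X]) :
    Car p (X * sig (ZMod p) g) = X * sig (ZMod p) (Car p g) := by
  have hp0 : 0 < p := hp.out.pos
  refine car_induction (Pr := fun g => Car p (X * sig (ZMod p) g) = X * sig (ZMod p) (Car p g))
    ?_ ?_ ?_ ?_ g
  · intro f g hf hg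
    rw [map_add, mul_add, Car_add hp0, hf, hg, Car_add hp0, map_add, mul_add]
  · intro c f hf
    have h1 : sig (ZMod p) (c • f) = c • sig (ZMod p) f := by
      rw [Algebra.smul_def, Algebra.smul_def, map_mul]
      congr 1
      exact sig_C _
    have h3 : sig (ZMod p) (c • Car p f) = c • sig (ZMod p) (Car p f) := by
      rw [Algebra.smul_def, Algebra.smul_def, map_mul]
      congr 1
      exact sig_C _
    rw [h1, mul_smul_comm, Car_smul hp0, hf, Car_smul hp0, h3, mul_smul_comm]
  · intro g f hf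
    rw [map_mul, map_pow]
    have h1 : X * (sig (ZMod p) g ^ p * sig (ZMod p) f)
        = sig (ZMod p) g ^ p * (X * sig (ZMod p) f) := by ring
    rw [h1, Car_pow_mul, hf, Car_pow_mul, map_mul]
    ring
  · intro a b ha hb
    by_cases h : p ∣ a + 1 ∧ p ∣ b + 1
    · have ha1 : a = p - 1 := by
        have := Nat.le_of_dvd (by omega) h.1
        omega
      have hb1 : b = p - 1 := by
        have := Nat.le_of_dvd (by omega) h.2
        omega
      rw [ha1, hb1]
      have e1 : Car p (C (X ^ (p - 1)) * X ^ (p - 1) : (ZMod p)[X][X]) = 1 := by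
        rw [Car_mono, Nat.sub_add_cancel hp0, if_pos ⟨dvd_rfl, dvd_rfl⟩, Nat.div_self hp0]
        simp
      rw [e1, map_one, mul_one, map_mul, sig_C, map_pow (sig (ZMod p)), sig_X, add_pow, mul_sum,
        mul_sum, Car_sum hp0]
      have e2 : ∀ j ∈ range (p - 1 + 1), Car p (X * (C (X ^ (p - 1)) *
          ((X ^ 2) ^ j * (C X) ^ (p - 1 - j) * ((p - 1).choose j : (ZMod p)[X][X]))))
          = if j = p - 1 then X else 0 := by
        intro j hj
        rw [mem_range] at hj
        have e3 : (X * (C (X ^ (p - 1)) * ((X ^ 2) ^ j * (C X) ^ (p - 1 - j) *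
            ((p - 1).choose j : (ZMod p)[X][X]))))
            = ((p - 1).choose j : ZMod p) • (C (X ^ (p - 1 + (p - 1 - j))) * X ^ (2 * j + 1)) := by
          rw [Algebra.smul_def, pow_add, C_mul, ← pow_mul, ← map_pow]
          have : (algebraMap (ZMod p) (ZMod p)[X][X]) ((p - 1).choose j : ZMod p)
              = ((p - 1).choose j : (ZMod p)[X][X]) := by simp
          rw [this]
          ring
        rw [e3, Car_smul hp0, Car_mono]
        by_cases hj1 : j = p - 1
        · rw [if_pos hj1, hj1, Nat.sub_self, add_zero, Nat.sub_add_cancel hp0, Nat.choose_self,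
            Nat.div_self hp0]
          have h3 : 2 * (p - 1) + 1 + 1 = 2 * p := by omega
          rw [h3, if_pos ⟨dvd_mul_left _ _, dvd_rfl⟩, Nat.mul_div_cancel _ hp0]
          simp
        · rw [if_neg hj1, if_neg, smul_zero]
          rintro ⟨-, h4⟩
          have h5 : p - 1 + (p - 1 - j) + 1 = 2 * p - (j + 1) := by omega
          rw [h5] at h4
          have h6 : p ∣ j + 1 := by
            have h7 : j + 1 = 2 * p - (2 * p - (j + 1)) := by omega
            rw [h7]
            exact Nat.dvd_sub (dvd_mul_left _ _) h4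
          have := Nat.le_of_dvd (by omega) h6
          omega
      rw [sum_congr rfl e2, sum_ite_eq' (range (p - 1 + 1)) (p - 1), if_pos (by simp)]
    · have h3 := isEx_mono (p := p) h
      rw [(h3.sig1 h2).Car_eq_zero, h3.Car_eq_zero, map_zero, mul_zero]

theorem sig_sub_pow (n : ℕ) : sig (ZMod p) ((X - C X) ^ n) = X ^ (2 * n) := by
  rw [map_pow, map_sub, sig_X, sig_C, add_sub_cancel_right, ← pow_mul]

theorem Car_sig (h2 : p ≠ 2) (g : (ZMod p)[X][X]) :
    Car p (sig (ZMod p) g) = sig (ZMod p) (Car p ((X - C X) ^ ((p - 1) / 2) * g)) := by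
  have hodd : 2 * ((p - 1) / 2) = p - 1 := by
    have h3 := hp.out.eq_two_or_odd'
    rcases h3 with h3 | h3
    · exact absurd h3 h2
    · obtain ⟨k, hk⟩ := h3
      omega
  have h3 := Car_X_sig h2 ((X - C X) ^ ((p - 1) / 2) * g)
  rw [map_mul, sig_sub_pow, hodd] at h3
  have hp0 : 0 < p := hp.out.pos
  have h4 : X * (X ^ (p - 1) * sig (ZMod p) g) = X ^ p * sig (ZMod p) g := by
    rw [← mul_assoc, ← pow_succ', Nat.sub_add_cancel hp0]
  rw [h4, Car_pow_mul] at h3
  exact mul_left_cancel₀ X_ne_zero h3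

end field

end Dyn59
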