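import Pool.Agent.H.MP_d59dab.Bas

/-!
# MP_d59dab: coordinates in the basis `x_S z^l`, the filtration, `Car` preserves it
-/

set_option autoImplicit false

open Finset Polynomial

noncomputable section

namespace Dyn59

section ring

variable (R : Type*) [CommRing R] [IsDomain R]

theorem xi_monic (j : ℕ) : (xi R j).Monic ∧ (xi R j).natDegree = 2 ^ j := by
  induction j with
  | zero => rw [xi_zero]; exact ⟨monic_X, by simp⟩
  | succ j ih =>
    obtain ⟨h1, h2⟩ := ih
    have h3 : xi R (j + 1) = xi R j ^ 2 + C X := by rw [xi_sq]; ring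
    have h4 : (xi R j ^ 2).natDegree = 2 ^ (j + 1) := by
      rw [h1.natDegree_pow, h2, pow_succ]
      ring
    rw [h3]
    constructor
    · apply (h1.pow 2).add_of_left
      apply lt_of_le_of_lt degree_C_le
      rw [degree_eq_natDegree (h1.pow 2).ne_zero, h4]
      exact_mod_cast Nat.two_pow_pos (j + 1)
    · rw [natDegree_add_C, h4]

theorem xS_monic (S : Finset ℕ) : (xS R S).Monic :=
  monic_prod_of_monic _ _ (fun j _ => (xi_monic R j).1)

theorem xS_natDegree (S : Finset ℕ) : (xS R S).natDegree = nS S := by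
  unfold xS
  rw [natDegree_prod_of_monic _ _ (fun j _ => (xi_monic R j).1)]
  exact sum_congr rfl (fun j _ => (xi_monic R j).2)

theorem bits_nS (S : Finset ℕ) : (nS S).bitIndices.toFinset = S :=
  Finset.toFinset_bitIndices_sum_two_pow S

theorem nS_bits (n : ℕ) : nS n.bitIndices.toFinset = n :=
  Finset.sum_toFinset_bitIndices_two_pow n

/-- the sequence of the `x_S` -/
def xSeq : Polynomial.Sequence R[X] where
  elems' n := xS R n.bitIndices.toFinset
  degree_eq' n := by
    rw [degree_eq_natDegree (xS_monic R _).ne_zero, xS_natDegree, nS_bits]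

theorem xSeq_apply (n : ℕ) : xSeq R n = xS R n.bitIndices.toFinset := rfl

/-- the basis of the `x_S` -/
def bas : Module.Basis ℕ R[X] R[X][X] :=
  (xSeq R).basis (fun i => by rw [xSeq_apply, (xS_monic R _).leadingCoeff]; exact isUnit_one)

theorem bas_apply (n : ℕ) : bas R n = xS R n.bitIndices.toFinset := by
  unfold bas
  rw [Sequence.basis_eq_self, xSeq_apply]

variable {R}

/-- coordinates -/
def co (S : Finset ℕ) (l : ℕ) (f : R[X][X]) : R := ((bas R).repr f (nS S)).coeff l

theorem co_add (S : Finset ℕ) (l : ℕ) (f g : R[X][X]) : co S l (f + g) = co S l f + co S l g := by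
  unfold co
  rw [map_add, Finsupp.add_apply, coeff_add]

theorem co_smul (S : Finset ℕ) (l : ℕ) (c : R) (f : R[X][X]) : co S l (c • f) = c * co S l f := by
  unfold co
  have : c • f = (C c : R[X]) • f := by
    rw [Algebra.smul_def, smul_eq_C_mul]
    rfl
  rw [this, map_smul, Finsupp.smul_apply, smul_eq_mul, coeff_C_mul]

theorem co_zero (S : Finset ℕ) (l : ℕ) : co S l (0 : R[X][X]) = 0 := by
  unfold co
  rw [map_zero, Finsupp.zero_apply, coeff_zero]

theorem co_mo (S S' : Finset ℕ) (l l' : ℕ) :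
    co S l (mo R S' l') = if S = S' ∧ l = l' then 1 else 0 := by
  unfold co
  have h1 : mo R S' l' = (X ^ l' : R[X]) • bas R (nS S') := by
    rw [bas_apply, bits_nS, smul_eq_C_mul]
    unfold mo
    ring
  rw [h1, map_smul, Module.Basis.repr_self, Finsupp.smul_apply, Finsupp.single_apply]
  by_cases h2 : S = S'
  · rw [if_pos (by rw [h2]), smul_eq_mul, mul_one, coeff_X_pow]
    simp [h2]
  · rw [if_neg, if_neg (fun h => h2 h.1), smul_zero, coeff_zero]
    intro h
    apply h2
    rw [← bits_nS S, ← bits_nS S', h]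

theorem mem_SP_iff {P : Finset ℕ → ℕ → Prop} {f : R[X][X]} :
    f ∈ SP R P ↔ ∀ S l, co S l f ≠ 0 → P S l := by
  constructor
  · intro hf
    refine SP.induction (Pr := fun f => ∀ S l, co S l f ≠ 0 → P S l) ?_ ?_ ?_ ?_ hf
    · intro S l h
      rw [co_zero] at h
      exact absurd rfl h
    · intro f g hf hg S l h
      by_cases h1 : co S l f = 0
      · rw [co_add, h1, zero_add] at h
        exact hg S l h
      · exact hf S l h1
    · intro c f hf S l h
      rw [co_smul] at h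
      exact hf S l (right_ne_zero_of_mul h)
    · intro S l h S' l' h'
      rw [co_mo] at h'
      by_cases h1 : S' = S ∧ l' = l
      · rw [h1.1, h1.2]
        exact h
      · rw [if_neg h1] at h'
        exact absurd rfl h'
  · intro h
    rw [← (bas R).linearCombination_repr f, Finsupp.linearCombination_apply, Finsupp.sum]
    apply sum_mem
    intro n _
    rw [((bas R).repr f n).as_sum_range_C_mul_X_pow, sum_smul]
    apply sum_mem
    intro l _
    have h1 : (C (((bas R).repr f n).coeff l) * X ^ l : R[X]) • bas R n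
        = (((bas R).repr f n).coeff l) • mo R n.bitIndices.toFinset l := by
      rw [bas_apply, smul_eq_C_mul, Algebra.smul_def, C_mul]
      unfold mo
      have : (algebraMap R R[X][X]) (((bas R).repr f n).coeff l)
        = C (C (((bas R).repr f n).coeff l)) := rfl
      rw [this]
      ring
    rw [h1]
    by_cases h2 : ((bas R).repr f n).coeff l = 0
    · rw [h2, zero_smul]
      exact zero_mem _
    · apply Submodule.smul_mem
      apply mo_mem_SP
      apply h
      unfold co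
      rwa [nS_bits]

theorem mem_SP_true (f : R[X][X]) : f ∈ SP R (fun _ _ => True) := by
  rw [mem_SP_iff]
  exact fun _ _ _ => trivial

theorem even_iff (f : R[X][X]) : (∃ g, f = sig R g) ↔ f ∈ SP R (fun S _ => 0 ∉ S) := by
  constructor
  · rintro ⟨g, rfl⟩
    exact SP_sig (fun S l _ => zero_notMem_up S) (mem_SP_true g)
  · intro hf
    refine SP.induction (Pr := fun f => ∃ g, f = sig R g) ⟨0, by rw [map_zero]⟩ ?_ ?_ ?_ hf
    · rintro f g ⟨f', rfl⟩ ⟨g', rfl⟩
      exact ⟨f' + g', by rw [map_add]⟩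
    · rintro c f ⟨f', rfl⟩
      exact ⟨c • f', by rw [sig_smul]⟩
    · intro S l hS
      exact ⟨mo R (dn S) l, by rw [← mo_up, up_dn hS]⟩

theorem FQ_iff (f : R[X][X]) (Q : ℤ) :
    f ∈ FQ R Q ↔ (∃ g, f = sig R g) ∧ ∀ v, LL v f (Q / 2 ^ v) := by
  have key : ∀ (v : ℕ) (S : Finset ℕ) (l : ℕ),
      (2 : ℤ) ^ v * lam v S l ≤ Q ↔ lam v S l ≤ Q / 2 ^ v := by
    intro v S l
    rw [Int.le_ediv_iff_mul_le (by positivity), mul_comm]
  rw [FQ_eq]
  constructor
  · intro hf
    refine ⟨(even_iff f).2 (SP.mono (fun S l h => h.1) hf), fun v => ?_⟩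
    rw [LL_iff]
    exact SP.mono (fun S l h => (key v S l).1 (h.2 v)) hf
  · rintro ⟨h1, h2⟩
    rw [even_iff, mem_SP_iff] at h1
    rw [mem_SP_iff]
    intro S l h
    refine ⟨h1 S l h, fun v => ?_⟩
    have h3 := h2 v
    rw [LL_iff, mem_SP_iff] at h3
    exact (key v S l).2 (h3 S l h)

omit [IsDomain R] in
theorem FQ_mono {Q Q' : ℤ} (h : Q ≤ Q') {f : R[X][X]} (hf : f ∈ FQ R Q) : f ∈ FQ R Q' :=
  SP.mono (fun _ _ h1 => ⟨h1.1, fun v => (h1.2 v).trans h⟩) hf

end ring

section field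

variable {p : ℕ} [hp : Fact p.Prime]

theorem red_smul (c : ℤ_[p]) (f : ℤ_[p][X][X]) : red p (c • f) = (PadicInt.toZMod c) • red p f := by
  ext a b
  rw [red_coeff, coeff_smul, coeff_smul, coeff_smul, coeff_smul, red_coeff, smul_eq_mul,
    smul_eq_mul, map_mul]

theorem red_xi (j : ℕ) : red p (xi ℤ_[p] j) = xi (ZMod p) j := by
  induction j with
  | zero => rw [xi_zero, xi_zero, red_X]
  | succ j ih => rw [xi_succ, xi_succ, red_sig, ih]

theorem red_mo (S : Finset ℕ) (l : ℕ) : red p (mo ℤ_[p] S l) = mo (ZMod p) S l := by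
  unfold mo xS
  rw [map_mul, map_prod, map_pow, map_pow, map_pow, red_C_X]
  congr 1
  exact prod_congr rfl (fun j _ => red_xi j)

theorem SP_lift {P : Finset ℕ → ℕ → Prop} {f : (ZMod p)[X][X]} (hf : f ∈ SP (ZMod p) P) :
    ∃ g ∈ SP ℤ_[p] P, red p g = f := by
  refine SP.induction (Pr := fun f => ∃ g ∈ SP ℤ_[p] P, red p g = f) ?_ ?_ ?_ ?_ hf
  · exact ⟨0, zero_mem _, map_zero _⟩
  · rintro f g ⟨f', hf', rfl⟩ ⟨g', hg', rfl⟩
    exact ⟨f' + g', add_mem hf' hg', map_add _ _ _⟩
  · rintro c f ⟨f', hf', rfl⟩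
    refine ⟨((c.val : ℕ) : ℤ_[p]) • f', Submodule.smul_mem _ _ hf', ?_⟩
    rw [red_smul, map_natCast, ZMod.natCast_zmod_val]
  · intro S l h
    exact ⟨mo ℤ_[p] S l, mo_mem_SP h, red_mo S l⟩

theorem SP_red {P : Finset ℕ → ℕ → Prop} {f : ℤ_[p][X][X]} (hf : f ∈ SP ℤ_[p] P) :
    red p f ∈ SP (ZMod p) P := by
  refine SP.induction (Pr := fun f => red p f ∈ SP (ZMod p) P) ?_ ?_ ?_ ?_ hf
  · rw [map_zero]; exact zero_mem _
  · intro f g hf hg; rw [map_add]; exact add_mem hf hg
  · intro c f hf; rw [red_smul]; exact Submodule.smul_mem _ _ hf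
  · intro S l h; rw [red_mo]; exact mo_mem_SP h

theorem Car_LL (h2 : p ≠ 2) {v : ℕ} {f : (ZMod p)[X][X]} {q : ℤ} (hf : LL v f q) :
    LL v (Car p f) (q / p) := by
  rw [LL_iff] at hf
  obtain ⟨g, hg, rfl⟩ := SP_lift hf
  rw [← LL_iff] at hg
  have := lemL h2 v 0 q g 0 0 g (by rw [derivative_zero, Dz_zero]; simp) hg
  simpa using this

theorem Car_even (h2 : p ≠ 2) {f : (ZMod p)[X][X]} (hf : ∃ g, f = sig (ZMod p) g) :
    ∃ g, Car p f = sig (ZMod p) g := by
  obtain ⟨g, rfl⟩ := hf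
  exact ⟨_, Car_sig h2 g⟩

theorem Car_FQ (h2 : p ≠ 2) {f : (ZMod p)[X][X]} {Q : ℤ} (hf : f ∈ FQ (ZMod p) Q) :
    Car p f ∈ FQ (ZMod p) (Q / p) := by
  rw [FQ_iff] at hf ⊢
  refine ⟨Car_even h2 hf.1, fun v => ?_⟩
  have := Car_LL h2 (hf.2 v)
  rwa [Int.ediv_ediv_of_nonneg (by positivity), mul_comm,
    ← Int.ediv_ediv_of_nonneg (by positivity)] at this

theorem Car_iter_FQ (h2 : p ≠ 2) (k : ℕ) {f : (ZMod p)[X][X]} {Q : ℤ} (hf : f ∈ FQ (ZMod p) Q) :
    (Car p)^[k] f ∈ FQ (ZMod p) (Q / (p : ℤ) ^ k) := by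
  induction k with
  | zero => simpa using hf
  | succ k ih =>
    rw [Function.iterate_succ_apply', pow_succ, ← Int.ediv_ediv_of_nonneg (by positivity)]
    exact Car_FQ h2 ih

end field

end Dyn59
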