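import Mathlib

/-!
# MP_d59dab: definitions for the Cartier part (polynomials in x (outer variable) and z (inner))

`R[X][X]`: the outer variable is `x`, the inner variable is `z`, so `z = C X`.
* `sig R g (x,z) = g (x^2+z, z)`, `xi R j = x_j` (`x_0 = x`, `x_(j+1) = x_j^2 + z`),
* `xS R S = ∏_(j ∈ S) x_j`, `mo R S l = x_S z^l`,
* `Dz` derivative in `z`, `IsEx f`: `f dx dz` is an exact 2-form (`f = B_x - A_z`),
* `Car p` the Cartier operator `x^a z^b ↦ x^((a+1)/p-1) z^((b+1)/p-1)`,
* `lam v S l` the order of `x_S z^l dx dz` at level `v`,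
* `LL v f q`: the order of `f dx dz` at level `v` is at most `q`,
* `FQ R Q`: the order filtration (span of the `x_S z^l`, `0 ∉ S`, `2^v lam v S l ≤ Q` for all `v`).
-/

set_option autoImplicit false

open Finset Polynomial

noncomputable section

namespace Dyn59

section ring

variable (R : Type*) [CommRing R]

/-- `g (x, z) ↦ g (x ^ 2 + z, z)` -/
def sig : R[X][X] →+* R[X][X] := eval₂RingHom C (X ^ 2 + C X)

/-- the iterates `x_j` -/
def xi (j : ℕ) : R[X][X] := (sig R)^[j] X

/-- products of iterates -/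
def xS (S : Finset ℕ) : R[X][X] := ∏ j ∈ S, xi R j

/-- the basis elements `x_S z^l` -/
def mo (S : Finset ℕ) (l : ℕ) : R[X][X] := xS R S * C (X ^ l)

variable {R}

/-- derivative with respect to `z` -/
def Dz (f : R[X][X]) : R[X][X] :=
  ∑ a ∈ range (f.natDegree + 1), monomial a (derivative (f.coeff a))

/-- `f dx dz` is exact: `f = B_x - A_z` -/
def IsEx (f : R[X][X]) : Prop := ∃ A B : R[X][X], f = derivative B - Dz A

/-- the Cartier operator in one variable -/
def car1 (p : ℕ) (g : R[X]) : R[X] := divX (contract p (X * g))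

/-- the Cartier operator -/
def Car (p : ℕ) (f : R[X][X]) : R[X][X] :=
  ∑ a ∈ range (f.natDegree + 1), monomial a (car1 p (f.coeff (p * (a + 1) - 1)))

/-- the order of `x_S z^l dx dz` at level `v` -/
def lam (v : ℕ) (S : Finset ℕ) (l : ℕ) : ℤ :=
  (#(S.filter (· ≤ v)) : ℤ) + ∑ s ∈ S.filter (v < ·), (2 : ℤ) ^ (s - v) + 2 * l + 3 - v

/-- order at most `q` at level `v` -/
def LL : ℕ → R[X][X] → ℤ → Prop
  | 0, f, q => ∀ a b : ℕ, (f.coeff a).coeff b ≠ 0 → ((a : ℤ) + 1) + 2 * ((b : ℤ) + 1) ≤ q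
  | (v + 1), f, q => ∃ g0 g1 : R[X][X], f = sig R g0 + X * sig R g1 ∧ LL v g0 (q + 1) ∧ LL v g1 q

variable (R)

/-- the order filtration (even part) -/
def FQ (Q : ℤ) : Submodule R R[X][X] :=
  Submodule.span R {f | ∃ S l, f = mo R S l ∧ 0 ∉ S ∧ ∀ v, (2 : ℤ) ^ v * lam v S l ≤ Q}

variable {R}

/-! ### first lemmas -/

theorem sig_X : sig R X = X ^ 2 + C X := by
  unfold sig
  rw [coe_eval₂RingHom, eval₂_X]

theorem sig_C (h : R[X]) : sig R (C h) = C h := by
  unfold sig
  rw [coe_eval₂RingHom, eval₂_C]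

theorem xi_zero : xi R 0 = X := rfl

theorem xi_succ (j : ℕ) : xi R (j + 1) = sig R (xi R j) := by
  unfold xi
  rw [Function.iterate_succ_apply']

theorem xi_sq (j : ℕ) : xi R j ^ 2 = xi R (j + 1) - C X := by
  induction j with
  | zero => rw [xi_succ, xi_zero, sig_X, add_sub_cancel_right]
  | succ j ih => rw [xi_succ j, ← map_pow, ih, map_sub, sig_C, ← xi_succ]

theorem Dz_coeff (f : R[X][X]) (a : ℕ) : (Dz f).coeff a = derivative (f.coeff a) := by
  unfold Dz
  rw [finsetSum_coeff]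
  simp only [coeff_monomial]
  rw [sum_ite_eq' (range (f.natDegree + 1)) a]
  split_ifs with h
  · rfl
  · rw [mem_range, not_lt] at h
    rw [coeff_eq_zero_of_natDegree_lt (by omega), derivative_zero]

theorem Dz_add (f g : R[X][X]) : Dz (f + g) = Dz f + Dz g := by
  ext1 a
  rw [coeff_add, Dz_coeff, Dz_coeff, Dz_coeff, coeff_add, derivative_add]

theorem car1_coeff {p : ℕ} (hp : 0 < p) (g : R[X]) (b : ℕ) :
    (car1 p g).coeff b = g.coeff (p * (b + 1) - 1) := by
  unfold car1
  rw [coeff_divX, coeff_contract hp.ne']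
  have h : (b + 1) * p = (p * (b + 1) - 1) + 1 := by
    have : 0 < p * (b + 1) := by positivity
    rw [mul_comm]
    omega
  rw [h, coeff_X_mul]

theorem Car_coeff {p : ℕ} (hp : 0 < p) (f : R[X][X]) (a : ℕ) :
    (Car p f).coeff a = car1 p (f.coeff (p * (a + 1) - 1)) := by
  unfold Car
  rw [finsetSum_coeff]
  simp only [coeff_monomial]
  rw [sum_ite_eq' (range (f.natDegree + 1)) a]
  split_ifs with h
  · rfl
  · rw [mem_range, not_lt] at h
    have h1 : a + 1 ≤ p * (a + 1) := Nat.le_mul_of_pos_left _ hp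
    rw [coeff_eq_zero_of_natDegree_lt (by omega)]
    ext b
    rw [car1_coeff hp, coeff_zero, coeff_zero]

theorem Car_coeff_coeff {p : ℕ} (hp : 0 < p) (f : R[X][X]) (a b : ℕ) :
    ((Car p f).coeff a).coeff b = (f.coeff (p * (a + 1) - 1)).coeff (p * (b + 1) - 1) := by
  rw [Car_coeff hp, car1_coeff hp]

theorem Car_add {p : ℕ} (hp : 0 < p) (f g : R[X][X]) : Car p (f + g) = Car p f + Car p g := by
  ext a b
  rw [Car_coeff_coeff hp, coeff_add, coeff_add, coeff_add, coeff_add, Car_coeff_coeff hp,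
    Car_coeff_coeff hp]

theorem Car_smul {p : ℕ} (hp : 0 < p) (c : R) (f : R[X][X]) : Car p (c • f) = c • Car p f := by
  ext a b
  rw [Car_coeff_coeff hp, coeff_smul, coeff_smul, coeff_smul, coeff_smul, Car_coeff_coeff hp]

end ring

end Dyn59
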