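import Pool.Agent.H.MP_d59dab.Base

/-!
# MP_d59dab: periodic words, dynatomic polynomials and their factorization over Laurent series
-/

set_option autoImplicit false

open Finset Polynomial

noncomputable section

namespace Dyn59

/-! ## words -/

theorem sh_iter (k : ℕ) : ∀ (i : ℕ) (v : ℕ → ℤˣ), (sh^[k] v) i = v (i + k) := by
  induction k with
  | zero => intro i v; rfl
  | succ k ih =>
    intro i v
    rw [Function.iterate_succ_apply, ih]
    unfold sh
    congr 1

open Classical in
/-- `n`-periodic words (`n > 0`) -/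
def W (n : ℕ) : Finset (ℕ → ℤˣ) :=
  (univ : Finset (Fin n → ℤˣ)).image
    (fun f i => if h : 0 < n then f ⟨i % n, Nat.mod_lt i h⟩ else 1)

theorem mem_W {n : ℕ} (hn : 0 < n) {w : ℕ → ℤˣ} : w ∈ W n ↔ ∀ i, w (i + n) = w i := by
  classical
  rw [W, mem_image]
  constructor
  · rintro ⟨f, -, rfl⟩ i
    simp only [hn, dif_pos, Nat.add_mod_right]
  · intro h
    refine ⟨fun i => w i.1, mem_univ _, ?_⟩
    funext i
    simp only [hn, dif_pos]
    have h1 : ∀ k j, w (j + n * k) = w j := by
      intro k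
      induction k with
      | zero => intro j; rfl
      | succ k ih =>
        intro j
        rw [Nat.mul_succ, ← add_assoc, h, ih]
    conv_rhs => rw [← Nat.mod_add_div i n]
    rw [h1]

theorem card_W {n : ℕ} (hn : 0 < n) : #(W n) = 2 ^ n := by
  classical
  rw [W, card_image_of_injective, card_univ, Fintype.card_fun, Fintype.card_fin]
  · simp
  · intro f g hfg
    funext i
    have := congrFun hfg i.1
    simp only [hn, dif_pos] at this
    have h1 : (⟨i.1 % n, Nat.mod_lt i.1 hn⟩ : Fin n) = i := Fin.ext (Nat.mod_eq_of_lt i.2)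
    rwa [h1] at this

theorem isPeriodicPt_iff {n : ℕ} {w : ℕ → ℤˣ} :
    Function.IsPeriodicPt sh n w ↔ ∀ i, w (i + n) = w i := by
  constructor
  · intro h i
    have := congrFun h i
    rwa [sh_iter] at this
  · intro h
    funext i
    rw [sh_iter]
    exact h i

theorem mem_W_iff {n : ℕ} (hn : 0 < n) {w : ℕ → ℤˣ} :
    w ∈ W n ↔ Function.minimalPeriod sh w ∣ n := by
  rw [mem_W hn, ← isPeriodicPt_iff, Function.isPeriodicPt_iff_minimalPeriod_dvd]

/-- words of exact period `n` -/
def Wx (n : ℕ) : Finset (ℕ → ℤˣ) := (W n).filter (fun w => Function.minimalPeriod sh w = n)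

theorem mem_Wx {n : ℕ} (hn : 0 < n) {w : ℕ → ℤˣ} :
    w ∈ Wx n ↔ Function.minimalPeriod sh w = n := by
  rw [Wx, mem_filter, mem_W_iff hn]
  exact ⟨fun h => h.2, fun h => ⟨h ▸ dvd_rfl, h⟩⟩

theorem prod_W {M : Type*} [CommMonoid M] {n : ℕ} (hn : 0 < n) (g : (ℕ → ℤˣ) → M) :
    ∏ w ∈ W n, g w = ∏ d ∈ n.divisors, ∏ w ∈ Wx d, g w := by
  rw [← prod_fiberwise_of_maps_to (s := W n) (t := n.divisors)
    (g := fun w => Function.minimalPeriod sh w)
    (fun w hw => Nat.mem_divisors.2 ⟨(mem_W_iff hn).1 hw, hn.ne'⟩)]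
  apply prod_congr rfl
  intro d hd
  have hdn := Nat.dvd_of_mem_divisors hd
  have hd0 : 0 < d := Nat.pos_of_dvd_of_pos hdn hn
  apply prod_congr _ (fun _ _ => rfl)
  ext w
  rw [mem_filter, mem_W_iff hn, mem_Wx hd0]
  exact ⟨fun h => h.2, fun h => ⟨h ▸ hdn, h⟩⟩

/-! ## polynomials -/

section poly

variable (R : Type*) [CommRing R]

/-- the iterate `f_z^k (x)` as an element of `R[z][x]` -/
def it : ℕ → R[X][X]
  | 0 => X
  | (k + 1) => (it k) ^ 2 + C X

/-- `f_z^n (x) - x` -/
def FF (n : ℕ) : R[X][X] := it R n - X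

/-- product of the factors `f_z^d(x) - x` with `μ(n/d) = 1` -/
def num (n : ℕ) : R[X][X] :=
  ∏ d ∈ n.divisors.filter (fun d => ArithmeticFunction.moebius (n / d) = 1), FF R d

/-- product of the factors `f_z^d(x) - x` with `μ(n/d) = -1` -/
def den (n : ℕ) : R[X][X] :=
  ∏ d ∈ n.divisors.filter (fun d => ArithmeticFunction.moebius (n / d) = -1), FF R d

/-- the `n`-th dynatomic polynomial -/
def Phi (n : ℕ) : R[X][X] := num R n /ₘ den R n

variable {R} {S : Type*} [CommRing S]

theorem it_map (φ : R →+* S) (k : ℕ) : (it R k).map (mapRingHom φ) = it S k := by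
  induction k with
  | zero => simp [it]
  | succ k ih => simp [it, ih]

theorem FF_map (φ : R →+* S) (k : ℕ) : (FF R k).map (mapRingHom φ) = FF S k := by
  simp [FF, it_map]

theorem it_monic [Nontrivial R] (k : ℕ) : (it R k).Monic ∧ (it R k).natDegree = 2 ^ k := by
  induction k with
  | zero => exact ⟨monic_X, by simp [it]⟩
  | succ k ih =>
    have h1 : ((it R k) ^ 2).Monic := ih.1.pow 2
    have h2 : ((it R k) ^ 2).natDegree = 2 ^ (k + 1) := by
      rw [ih.1.natDegree_pow, ih.2, pow_succ]
      exact mul_comm _ _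
    have h3 : (C X : R[X][X]).degree < ((it R k) ^ 2).degree := by
      rw [degree_eq_natDegree h1.ne_zero, h2]
      refine degree_C_le.trans_lt ?_
      exact_mod_cast pow_pos (by norm_num : 0 < 2) (k + 1)
    constructor
    · exact h1.add_of_left h3
    · rw [it, natDegree_add_eq_left_of_degree_lt h3, h2]

theorem FF_monic [Nontrivial R] {n : ℕ} (hn : 0 < n) :
    (FF R n).Monic ∧ (FF R n).natDegree = 2 ^ n := by
  obtain ⟨h1, h2⟩ := it_monic (R := R) n
  have h3 : (X : R[X][X]).degree < (it R n).degree := by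
    rw [degree_eq_natDegree h1.ne_zero, h2, degree_X]
    exact_mod_cast Nat.one_lt_two_pow hn.ne'
  constructor
  · exact h1.sub_of_left h3
  · rw [FF, natDegree_sub_eq_left_of_natDegree_lt, h2]
    rw [h2, natDegree_X]
    exact Nat.one_lt_two_pow hn.ne'

theorem den_monic [Nontrivial R] {n : ℕ} (hn : 0 < n) : (den R n).Monic := by
  apply monic_prod_of_monic
  intro d hd
  rw [mem_filter] at hd
  exact (FF_monic (Nat.pos_of_dvd_of_pos (Nat.dvd_of_mem_divisors hd.1) hn)).1

theorem num_monic [Nontrivial R] {n : ℕ} (hn : 0 < n) : (num R n).Monic := by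
  apply monic_prod_of_monic
  intro d hd
  rw [mem_filter] at hd
  exact (FF_monic (Nat.pos_of_dvd_of_pos (Nat.dvd_of_mem_divisors hd.1) hn)).1

theorem num_map (φ : R →+* S) (n : ℕ) : (num R n).map (mapRingHom φ) = num S n := by
  rw [num, Polynomial.map_prod, num]
  exact prod_congr rfl (fun d _ => FF_map φ d)

theorem den_map (φ : R →+* S) (n : ℕ) : (den R n).map (mapRingHom φ) = den S n := by
  rw [den, Polynomial.map_prod, den]
  exact prod_congr rfl (fun d _ => FF_map φ d)

theorem Phi_map [Nontrivial R] (φ : R →+* S) {n : ℕ} (hn : 0 < n) :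
    (Phi R n).map (mapRingHom φ) = Phi S n := by
  rw [Phi, map_divByMonic _ (den_monic hn), num_map, den_map, Phi]

end poly

/-! ## factorization over Laurent series -/

section field

variable (K : Type*) [Field K]

/-- `z ↦ -t^(-2)` -/
def zeta : K[X] →+* LaurentSeries K := eval₂RingHom (HahnSeries.C) (zz K)

variable {K}

theorem zeta_X : zeta K X = zz K := by simp [zeta]

theorem zeta_C (a : K) : zeta K (C a) = HahnSeries.C a := by simp [zeta]

theorem zz_pow (k : ℕ) : zz K ^ k = HahnSeries.single (-2 * (k : ℤ)) ((-1 : K) ^ k) := by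
  induction k with
  | zero => simp
  | succ k ih =>
    rw [pow_succ, ih, zz, mul_neg, HahnSeries.single_mul_single, mul_one, ← HahnSeries.single_neg]
    congr 1
    · push_cast; ring
    · rw [pow_succ]; ring

theorem zeta_coeff (p : K[X]) (k : ℕ) :
    (zeta K p).coeff (-2 * (k : ℤ)) = (-1) ^ k * p.coeff k := by
  induction p using Polynomial.induction_on' with
  | add p q hp hq => rw [map_add, HahnSeries.coeff_add, hp, hq, coeff_add]; ring
  | monomial i a =>
    rw [← C_mul_X_pow_eq_monomial, map_mul, map_pow, zeta_X, zeta_C, zz_pow, HahnSeries.C_apply,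
      HahnSeries.single_mul_single, zero_add, coeff_C_mul_X_pow]
    by_cases h : k = i
    · rw [h, HahnSeries.coeff_single_same, if_pos rfl]
      ring
    · rw [HahnSeries.coeff_single_of_ne (by omega), if_neg h, mul_zero]

theorem zeta_injective : Function.Injective (zeta K) := by
  intro p q h
  ext k
  have h1 := congrArg (fun f : LaurentSeries K => f.coeff (-2 * (k : ℤ))) h
  simp only [zeta_coeff] at h1
  exact mul_left_cancel₀ (pow_ne_zero _ (neg_ne_zero.2 one_ne_zero)) h1

theorem zeta_mul_zz_coeff (p : K[X]) : (zeta K p * zz K).coeff 0 = 0 := by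
  rw [← zeta_X, ← map_mul]
  have := zeta_coeff (p * X) 0
  simpa using this

theorem tau_zeta (p : K[X]) : tau K (zeta K p) = zeta K p := by
  induction p using Polynomial.induction_on' with
  | add p q hp hq => rw [map_add, map_add, hp, hq]
  | monomial i a =>
    rw [← C_mul_X_pow_eq_monomial, map_mul, map_pow, zeta_X, zeta_C, map_mul, map_pow, tau_zz,
      tau_C]

theorem it_eval (h2 : (2 : K) ≠ 0) (k : ℕ) (v : ℕ → ℤˣ) :
    (it K k).eval₂ (zeta K) (xx K v) = xx K (sh^[k] v) := by
  induction k with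
  | zero => simp [it]
  | succ k ih =>
    rw [it, eval₂_add, eval₂_pow, ih, eval₂_C, zeta_X, xx_sq h2, Function.iterate_succ_apply']

theorem FF_root (h2 : (2 : K) ≠ 0) {n : ℕ} (hn : 0 < n) {v : ℕ → ℤˣ} (hv : v ∈ W n) :
    (FF K n).eval₂ (zeta K) (xx K v) = 0 := by
  rw [FF, eval₂_sub, it_eval h2, eval₂_X]
  have : sh^[n] v = v := isPeriodicPt_iff.2 ((mem_W hn).1 hv)
  rw [this, sub_self]

theorem FF_factor (h2 : (2 : K) ≠ 0) {n : ℕ} (hn : 0 < n) :
    (FF K n).map (zeta K) = ∏ w ∈ W n, (X - C (xx K w)) := by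
  obtain ⟨h1, h3⟩ := FF_monic (R := K) hn
  have hm : ((FF K n).map (zeta K)).Monic := h1.map _
  have hd : ((FF K n).map (zeta K)).natDegree = 2 ^ n := by rw [h1.natDegree_map, h3]
  have hdvd : (∏ w ∈ W n, (X - C (xx K w))) ∣ (FF K n).map (zeta K) := by
    apply Finset.prod_dvd_of_coprime
    · intro a _ b _ hab
      exact isCoprime_X_sub_C_of_isUnit_sub
        (sub_ne_zero.2 (fun h => hab (xx_injective h2 h))).isUnit
    · intro w hw
      rw [dvd_iff_isRoot, IsRoot, eval_map]
      exact FF_root h2 hn hw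
  have hpm : (∏ w ∈ W n, (X - C (xx K w))).Monic := monic_prod_of_monic _ _
    (fun w _ => monic_X_sub_C _)
  refine eq_of_monic_of_dvd_of_natDegree_le hpm hm hdvd ?_
  rw [hd, natDegree_prod_of_monic _ _ (fun w _ => monic_X_sub_C _)]
  simp [card_W hn]

/-- product over the words of exact period `n` -/
def Psi (K : Type*) [Field K] (n : ℕ) : (LaurentSeries K)[X] := ∏ w ∈ Wx n, (X - C (xx K w))

theorem FF_eq_prod_Psi (h2 : (2 : K) ≠ 0) {n : ℕ} (hn : 0 < n) :
    (FF K n).map (zeta K) = ∏ d ∈ n.divisors, Psi K d := by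
  rw [FF_factor h2 hn, prod_W hn]
  rfl

theorem Psi_monic (n : ℕ) : (Psi K n).Monic := monic_prod_of_monic _ _
    (fun _ _ => monic_X_sub_C _)

theorem num_eq (h2 : (2 : K) ≠ 0) {n : ℕ} (hn : 0 < n) :
    (num K n).map (zeta K) = (den K n).map (zeta K) * Psi K n := by
  classical
  let Q := FractionRing (LaurentSeries K)[X]
  let α : (LaurentSeries K)[X] →+* Q := algebraMap _ _
  have hα : Function.Injective α := IsFractionRing.injective _ _
  have hne : ∀ p : (LaurentSeries K)[X], p.Monic → α p ≠ 0 := fun p hp =>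
    (map_ne_zero_iff α hα).2 hp.ne_zero
  have hF : ∀ m : ℕ, 0 < m → ((FF K m).map (zeta K)).Monic := fun m hm => (FF_monic hm).1.map _
  have h1 := (ArithmeticFunction.prod_eq_iff_prod_pow_moebius_eq_of_nonzero
    (f := fun d => α (Psi K d)) (g := fun m => α ((FF K m).map (zeta K)))
    (fun m _ => hne _ (Psi_monic m)) (fun m hm => hne _ (hF m hm))).1
    (fun m hm => by rw [FF_eq_prod_Psi h2 hm, map_prod]) n hn
  rw [← Nat.map_div_left_divisors, prod_map] at h1
  simp only [Function.Embedding.coeFn_mk] at h1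
  apply hα
  rw [map_mul, ← h1]
  have e1 : (num K n).map (zeta K)
      = ∏ d ∈ n.divisors.filter (fun d => ArithmeticFunction.moebius (n / d) = 1),
        (FF K d).map (zeta K) := Polynomial.map_prod _ _ _
  have e2 : (den K n).map (zeta K)
      = ∏ d ∈ n.divisors.filter (fun d => ArithmeticFunction.moebius (n / d) = -1),
        (FF K d).map (zeta K) := Polynomial.map_prod _ _ _
  rw [e1, e2, map_prod, map_prod, prod_filter, prod_filter, ← prod_mul_distrib]
  apply prod_congr rfl
  intro d hd
  have hd0 : 0 < d := Nat.pos_of_dvd_of_pos (Nat.dvd_of_mem_divisors hd) hn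
  have hne' := hne _ (hF d hd0)
  rcases ArithmeticFunction.moebius_eq_or (n / d) with h | h | h
  · rw [h]; simp
  · rw [h]; simp
  · rw [h]; simp [hne']

theorem Phi_factor (h2 : (2 : K) ≠ 0) {n : ℕ} (hn : 0 < n) :
    (Phi K n).map (zeta K) = Psi K n := by
  have hdm := den_monic (R := K) hn
  rw [Phi, map_divByMonic _ hdm, num_eq h2 hn]
  exact mul_divByMonic_cancel_left _ (hdm.map _)

/-- the division defining the dynatomic polynomial is exact, over the integers. -/
theorem den_mul_Phi {n : ℕ} (hn : 0 < n) : den ℤ n * Phi ℤ n = num ℤ n := by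
  have hdm := den_monic (R := ℤ) hn
  have hdmQ := den_monic (R := ℚ) hn
  have h0 : num ℤ n %ₘ den ℤ n = 0 := by
    have hinj : Function.Injective (mapRingHom (Int.castRingHom ℚ)) :=
      map_injective _ Int.cast_injective
    apply map_injective _ hinj
    apply map_injective _ (zeta_injective (K := ℚ))
    rw [map_modByMonic _ hdm, num_map, den_map, map_modByMonic _ hdmQ, num_eq (by norm_num) hn,
      Polynomial.map_zero, Polynomial.map_zero]
    rw [modByMonic_eq_zero_iff_dvd (hdmQ.map _)]
    exact dvd_mul_right _ _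
  have h1 := modByMonic_add_div (num ℤ n) (den ℤ n)
  rw [h0, zero_add] at h1
  exact h1

end field

end Dyn59
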