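import Pool.Agent.H.MP_d59dab.Zc

/-!
# MP_d59dab: the top coefficients of the odd parts of `prod x_t^(p [t in K] + [t in I])`
-/

set_option autoImplicit false

open Finset Polynomial

noncomputable section

namespace Dyn59

/-- multiplication of the top coefficients by a constant -/
def St.mul {R : Type*} [Mul R] (c : R) (v : St R) : St R :=
  ⟨c * v.c00, c * v.c01, c * v.c02, c * v.c11, c * v.c12, c * v.c22⟩

/-- `t` is an even step -/
def Evs (K I : Finset ℕ) (t : ℕ) : Prop := ¬ (t ∈ K ↔ t ∉ I)

instance (K I : Finset ℕ) (t : ℕ) : Decidable (Evs K I t) := by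
  unfold Evs; infer_instance

/-- normalised top coefficients -/
def vst (R : Type*) [Field R] (K I : Finset ℕ) : ℕ → St R
  | 0 => ⟨1, 0, 0, 0, 0, 0⟩
  | (t + 1) =>
    if t ∈ K then
      if t ∈ I then ⟨0, (vst R K I t).c11, (vst R K I t).c12, 0, -(1 / 2) * (vst R K I t).c11, 0⟩
      else ⟨(vst R K I t).c00, (vst R K I t).c01, (vst R K I t).c02 - (vst R K I t).c22,
        1 / 2 * (vst R K I t).c00, 1 / 2 * (vst R K I t).c01, 3 / 8 * (vst R K I t).c00⟩
    else
      if t ∈ I then ⟨(vst R K I t).c00, (vst R K I t).c01,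
        (vst R K I t).c02 - (vst R K I t).c22, 0, 0, 0⟩
      else ⟨0, (vst R K I t).c11, (vst R K I t).c12, 0, 0, 0⟩

/-- the sign -/
def sgn (R : Type*) [Field R] (m : ℕ) (K I : Finset ℕ) (t : ℕ) : R :=
  ∏ u ∈ range t, if u ∈ K then (if u ∈ I then (-1) ^ (m + 1) else (-1) ^ m) else 1

/-- the exponents -/
def ex (p : ℕ) (K I : Finset ℕ) (t : ℕ) : ℕ :=
  p * (if t ∈ K then 1 else 0) + (if t ∈ I then 1 else 0)

section

variable {p : ℕ} [hp : Fact p.Prime]

theorem cast_half (h2 : p ≠ 2) : (((p - 1) / 2 : ℕ) : ZMod p) = -(1 / 2) := by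
  have h : Odd p := hp.out.odd_of_ne_two h2
  obtain ⟨m, hm⟩ := h
  have h3 : (2 : ZMod p) ≠ 0 := by
    intro h
    have : ((2 : ℕ) : ZMod p) = 0 := by exact_mod_cast h
    rw [ZMod.natCast_eq_zero_iff] at this
    have := Nat.le_of_dvd (by norm_num) this
    have := hp.out.two_le
    omega
  have h4 : (p - 1) / 2 = m := by omega
  have h5 : ((2 * m + 1 : ℕ) : ZMod p) = 0 := by rw [← hm]; simp
  rw [h4]
  push_cast at h5
  field_simp
  linear_combination h5

theorem two_ne (h2 : p ≠ 2) : (2 : ZMod p) ≠ 0 := by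
  intro h
  have : ((2 : ℕ) : ZMod p) = 0 := by exact_mod_cast h
  rw [ZMod.natCast_eq_zero_iff] at this
  have := Nat.le_of_dvd (by norm_num) this
  have := hp.out.two_le
  omega

theorem cast_half_succ (h2 : p ≠ 2) : ((((p - 1) / 2 + 1 : ℕ)) : ZMod p) = 1 / 2 := by
  have := two_ne h2
  push_cast [cast_half h2]
  field_simp
  ring

theorem choose_two_cast {R : Type*} [Field R] (h2 : (2 : R) ≠ 0) (m : ℕ) :
    ((m.choose 2 : ℕ) : R) = m * (m - 1) / 2 := by
  induction m with
  | zero => simp
  | succ m ih =>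
    rw [Nat.choose_succ_succ, Nat.choose_one_right]
    push_cast [ih]
    field_simp
    ring

theorem cast_choose_half (h2 : p ≠ 2) :
    ((((p - 1) / 2).choose 2 : ℕ) : ZMod p) = 3 / 8 := by
  have h := two_ne h2
  have h8 : (8 : ZMod p) ≠ 0 := by
    have : (8 : ZMod p) = 2 ^ 3 := by norm_num
    rw [this]
    exact pow_ne_zero _ h
  rw [choose_two_cast h, cast_half h2]
  field_simp
  norm_num

theorem top_PT (h2 : p ≠ 2) (K I : Finset ℕ) (t : ℕ) :
    Top (∑ u ∈ range t, ((ex p K I u : ℤ) - 1)) (PT (ex p K I) t)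
      ((vst (ZMod p) K I t).mul (sgn (ZMod p) ((p - 1) / 2) K I t)) := by
  induction t with
  | zero =>
    have := Top.one (R := ZMod p)
    have e : PT (R := ZMod p) (ex p K I) 0 = 1 := rfl
    rw [e]
    simpa [St.mul, sgn, vst] using this
  | succ t ih =>
    have e1 : PT (R := ZMod p) (ex p K I) (t + 1)
        = od (PT (ex p K I) t * X ^ ex p K I t) := rfl
    have hodd : p = 2 * ((p - 1) / 2) + 1 := by
      obtain ⟨m, hm⟩ := hp.out.odd_of_ne_two h2
      omega
    rw [e1, sum_range_succ]
    by_cases h1 : t ∈ K <;> by_cases h3 : t ∈ I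
    · have e2 : ex p K I t = 2 * ((p - 1) / 2 + 1) := by
        unfold ex
        rw [if_pos h1, if_pos h3]
        omega
      rw [e2, od_mul_X_pow_even]
      convert ih.od.u_pow_mul ((p - 1) / 2 + 1) using 1
      · push_cast
        ring
      · unfold sgn St.mul
        rw [prod_range_succ, if_pos h1, if_pos h3]
        simp only [vst, if_pos h1, if_pos h3, cast_half_succ h2]
        ext <;> simp only <;> ring
    · have e2 : ex p K I t = 2 * ((p - 1) / 2) + 1 := by
        unfold ex
        rw [if_pos h1, if_neg h3]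
        omega
      rw [e2, od_mul_X_pow_odd]
      convert ih.evp.u_pow_mul ((p - 1) / 2) using 1
      · push_cast
        ring
      · unfold sgn St.mul
        rw [prod_range_succ, if_pos h1, if_neg h3]
        simp only [vst, if_pos h1, if_neg h3, cast_half h2, cast_choose_half h2]
        ext <;> simp only <;> ring
    · have e2 : ex p K I t = 2 * 0 + 1 := by
        unfold ex
        rw [if_neg h1, if_pos h3, mul_zero, mul_zero]
      rw [e2, od_mul_X_pow_odd]
      convert ih.evp.u_pow_mul 0 using 1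
      · push_cast
        ring
      · unfold sgn St.mul
        rw [prod_range_succ, if_neg h1]
        simp only [vst, if_neg h1, if_pos h3]
        ext <;> simp <;> ring
    · have e2 : ex p K I t = 2 * 0 := by
        unfold ex
        rw [if_neg h1, if_neg h3, mul_zero, mul_zero, add_zero]
      rw [e2, od_mul_X_pow_even]
      convert ih.od.u_pow_mul 0 using 1
      · push_cast
        ring
      · unfold sgn St.mul
        rw [prod_range_succ, if_neg h1]
        simp only [vst, if_neg h1, if_neg h3]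
        ext <;> simp

end

section closed

variable {R : Type*} [Field R]

theorem vst_c00 (K I : Finset ℕ) (t : ℕ) :
    (vst R K I t).c00 = if ∀ u < t, (u ∈ K ↔ u ∉ I) then 1 else 0 := by
  induction t with
  | zero => simp [vst]
  | succ t ih =>
    have h : (∀ u < t + 1, (u ∈ K ↔ u ∉ I)) ↔ (∀ u < t, (u ∈ K ↔ u ∉ I)) ∧ (t ∈ K ↔ t ∉ I) :=
      ⟨fun h => ⟨fun u hu => h u (by omega), h t (by omega)⟩, fun h u hu => by
        rcases Nat.lt_succ_iff_lt_or_eq.1 hu with h1 | h1
        · exact h.1 u h1
        · subst h1; exact h.2⟩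
    simp only [h]
    by_cases h1 : t ∈ K <;> by_cases h3 : t ∈ I <;> simp [vst, h1, h3, ih]

theorem vst_c11 (K I : Finset ℕ) (t : ℕ) :
    (vst R K I t).c11 = if 0 < t ∧ t - 1 ∈ K ∧ ∀ u < t, (u ∈ K ↔ u ∉ I) then 1 / 2 else 0 := by
  rcases t with _ | t
  · simp [vst]
  · have h : (∀ u < t + 1, (u ∈ K ↔ u ∉ I)) ↔ (∀ u < t, (u ∈ K ↔ u ∉ I)) ∧ (t ∈ K ↔ t ∉ I) :=
      ⟨fun h => ⟨fun u hu => h u (by omega), h t (by omega)⟩, fun h u hu => by
        rcases Nat.lt_succ_iff_lt_or_eq.1 hu with h1 | h1
        · exact h.1 u h1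
        · subst h1; exact h.2⟩
    simp only [h]
    by_cases h1 : t ∈ K <;> by_cases h3 : t ∈ I <;> simp [vst, h1, h3, vst_c00]

theorem vst_c01 (K I : Finset ℕ) (t : ℕ) :
    (vst R K I t).c01 = ∑ b ∈ range t, if b + 1 < t ∧ b ∉ I ∧
      ∀ u < t, ((u ∈ K ↔ u ∉ I) ↔ u ≠ b + 1) then 1 / 2 else 0 := by
  induction t with
  | zero => simp [vst]
  | succ t ih =>
    by_cases hodd : (t ∈ K ↔ t ∉ I)
    · have e1 : (vst R K I (t + 1)).c01 = (vst R K I t).c01 := by
        by_cases h1 : t ∈ K <;> by_cases h3 : t ∈ I <;> simp_all [vst]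
      rw [e1, ih, sum_range_succ, if_neg (by omega), add_zero]
      apply sum_congr rfl
      intro b hb
      rw [mem_range] at hb
      congr 1
      apply propext
      constructor
      · rintro ⟨h1, h2, h3⟩
        refine ⟨by omega, h2, fun u hu => ?_⟩
        rcases Nat.lt_succ_iff_lt_or_eq.1 hu with h4 | h4
        · exact h3 u h4
        · subst h4
          exact ⟨fun _ => by omega, fun _ => hodd⟩
      · rintro ⟨h1, h2, h3⟩
        refine ⟨?_, h2, fun u hu => h3 u (by omega)⟩
        by_contra hc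
        have h4 : t = b + 1 := by omega
        exact ((h3 t (by omega)).1 hodd) h4
    · have e1 : (vst R K I (t + 1)).c01 = (vst R K I t).c11 := by
        by_cases h1 : t ∈ K <;> by_cases h3 : t ∈ I <;> simp_all [vst]
      rw [e1, vst_c11]
      rcases t with _ | t
      · simp
      · have hz : ∀ P : Prop, ¬ (t + 1 + 1 < t + 1 + 1 ∧ P) := fun P h => lt_irrefl _ h.1
        rw [sum_range_succ _ (t + 1), if_neg (hz _), add_zero, sum_range_succ, sum_eq_zero,
          zero_add]
        · congr 1
          apply propext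
          rw [Nat.add_sub_cancel]
          constructor
          · rintro ⟨h1, h2, h3⟩
            refine ⟨by omega, (h3 t (by omega)).1 h2, fun u hu => ?_⟩
            rcases Nat.lt_succ_iff_lt_or_eq.1 hu with h4 | h4
            · exact ⟨fun _ => by omega, fun _ => h3 u h4⟩
            · subst h4
              exact ⟨fun h => absurd h hodd, fun h => absurd rfl h⟩
          · rintro ⟨h1, h2, h3⟩
            have h4 : ∀ u < t + 1, (u ∈ K ↔ u ∉ I) := fun u hu =>
              (h3 u (by omega)).2 (by omega)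
            exact ⟨by omega, (h4 t (by omega)).2 h2, h4⟩
        · intro b hb
          rw [mem_range] at hb
          rw [if_neg]
          rintro ⟨h1, h2, h3⟩
          exact hodd ((h3 (t + 1) (by omega)).2 (by omega))

end closed

end Dyn59
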