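import Pool.Agent.H.MP_d59dab.AKb
import Pool.Agent.H.MP_d59dab.Vst

/-!
# MP_d59dab: the coordinates `AK` of `Car (x_E x_I z^l)`
-/

set_option autoImplicit false

open Finset Polynomial

noncomputable section

namespace Dyn59

section ring

variable {R : Type*} [CommRing R]

theorem coeff_mul_zc (A P : R[X][X]) (l n B : ℕ) :
    ((A * (C (X ^ l) * P)).coeff n).coeff B = ∑ x ∈ range (n + 1), ∑ y ∈ range (B + 1),
      (A.coeff (n - x)).coeff y * zc P x ((B : ℤ) - l - y) := by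
  rw [mul_comm A, coeff_mul, Finset.Nat.sum_antidiagonal_eq_sum_range_succ_mk, finsetSum_coeff]
  apply sum_congr rfl
  intro x hx
  rw [mul_comm, coeff_mul, Finset.Nat.sum_antidiagonal_eq_sum_range_succ_mk]
  apply sum_congr rfl
  intro y hy
  rw [mem_range] at hy
  simp only
  rw [← zc_nat (C (X ^ l) * P), zc_X_pow_mul]
  congr 2
  omega

theorem sum2_eq (n B : ℕ) (F : ℕ → ℕ → R) (T : Finset (ℕ × ℕ))
    (hT : ∀ q ∈ T, q.1 ≤ n ∧ q.2 ≤ B)
    (h0 : ∀ x y, x ≤ n → y ≤ B → (x, y) ∉ T → F x y = 0) :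
    ∑ x ∈ range (n + 1), ∑ y ∈ range (B + 1), F x y = ∑ q ∈ T, F q.1 q.2 := by
  rw [← sum_product' (range (n + 1)) (range (B + 1)) F]
  symm
  apply sum_subset
  · intro q hq
    have := hT q hq
    rw [mem_product, mem_range, mem_range]
    omega
  · intro q hq hq'
    rw [mem_product, mem_range, mem_range] at hq
    exact h0 q.1 q.2 (by omega) (by omega) hq'

end ring

section car

variable {p : ℕ} [hp : Fact p.Prime] {i e l : ℕ} {E K I : Finset ℕ}

theorem sum_ex (hK : ∀ t ∈ K, t < i) (hI : ∀ t ∈ I, t < i) :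
    ∑ u ∈ range i, ((ex p K I u : ℤ) - 1) = p * #K + #I - i := by
  have h1 : (range i).filter (· ∈ K) = K := by
    ext t; rw [mem_filter, mem_range]; exact ⟨fun h => h.2, fun h => ⟨hK t h, h⟩⟩
  have h2 : (range i).filter (· ∈ I) = I := by
    ext t; rw [mem_filter, mem_range]; exact ⟨fun h => h.2, fun h => ⟨hI t h, h⟩⟩
  rw [sum_sub_distrib]
  unfold ex
  push_cast
  rw [sum_add_distrib, ← mul_sum, sum_boole, sum_boole, h1, h2]
  simp

theorem hi_union_lt (hE : ∀ q ∈ E, i ≤ q) : E.filter (i ≤ ·) = E :=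
  filter_true_of_mem hE

/-- the coordinate as a double sum -/
theorem AK_val (h2 : p ≠ 2) (he : 0 < e) (hK : ∀ t ∈ K, t < i) (hK2 : 2 ≤ #K)
    (hE : ∀ q ∈ E, i ≤ q) (hI : ∀ t ∈ I, t < i) :
    AK i e K (Car p (mo (ZMod p) (E ∪ I) l)) = ∑ x ∈ range (p * e - 1 + 1),
      ∑ y ∈ range (p * (#K / 2) - 1 + 1), ((xS (ZMod p) (hi i E)).coeff (p * e - 1 - x)).coeff y
        * zc (PT (R := ZMod p) (ex p K I) i) x (((p * (#K / 2) - 1 : ℕ) : ℤ) - l - y) := by
  rw [AK_Car h2 he hK2, ← coeff_mul_zc]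
  have hdis : Disjoint E I := by
    rw [disjoint_left]
    intro a h1 h3
    have := hE a h1
    have := hI a h3
    omega
  have e1 : xS (ZMod p) K ^ p * mo (ZMod p) (E ∪ I) l
      = (sig (ZMod p))^[i] (xS (ZMod p) (hi i E) * C (X ^ l))
        * ∏ t ∈ range i, xi (ZMod p) t ^ ex p K I t := by
    have e2 : ∏ t ∈ range i, xi (ZMod p) t ^ ex p K I t = xS (ZMod p) K ^ p * xS (ZMod p) I := by
      rw [xS_eq_prod hK, xS_eq_prod hI, ← prod_pow, ← prod_mul_distrib]
      apply prod_congr rfl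
      intro t _
      unfold ex
      rw [← pow_mul, ← pow_add, mul_comm p]
    rw [e2, sigit_mul, sigit_xS, hi_map, hi_union_lt hE, sigit_C]
    unfold mo
    rw [xS_union hdis]
    ring
  rw [e1, odi_sig_mul, odi_prod, mul_assoc]

theorem prod_ge (h2 : p ≠ 2) {k : ℕ} (hk : 0 < k) : 3 ≤ p * k := by
  have := hp.out.two_le
  have h3 : 3 ≤ p := by omega
  calc 3 = 3 * 1 := rfl
    _ ≤ p * k := Nat.mul_le_mul h3 hk

/-- the nonvanishing terms -/
theorem term_bound (h2 : p ≠ 2) (hK : ∀ t ∈ K, t < i) (hKe : Even #K) (hI : ∀ t ∈ I, t < i)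
    {x : ℕ} {B : ℤ} (h : zc (PT (R := ZMod p) (ex p K I) i) x B ≠ 0) :
    2 * (x : ℤ) + 2 * B ≤ 2 * (p * (#K / 2) : ℕ) + #I - i := by
  by_contra hc
  apply h
  apply (top_PT h2 K I i).bd
  rw [sum_ex hK hI]
  obtain ⟨k, hk⟩ := hKe
  have e1 : #K / 2 = k := by omega
  rw [e1] at hc
  rw [hk]
  push_cast at hc ⊢
  linarith

theorem AKv_m1 (h2 : p ≠ 2) (he : Odd e) (hK : ∀ t ∈ K, t < i) (hK2 : 2 ≤ #K) (hKe : Even #K)
    (hE : ∀ q ∈ E, i ≤ q) (hI : ∀ t ∈ I, t < i) (hR : bw (hi i E) + 1 = p * e)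
    (hw : #I + 2 * l ≤ i) :
    AK i e K (Car p (mo (ZMod p) (E ∪ I) l))
      = zc (PT (R := ZMod p) (ex p K I) i) 0 ((p * (#K / 2) : ℕ) - 1 - l)
        + (Dyn59.hw (hi i E) : ZMod p)
          * zc (PT (R := ZMod p) (ex p K I) i) 2 ((p * (#K / 2) : ℕ) - 2 - l) := by
  have hpe := prod_ge h2 he.pos
  have hpk := prod_ge h2 (show 0 < #K / 2 by omega)
  rw [AK_val h2 he.pos hK hK2 hE hI, sum2_eq _ _ _ {(0, 0), (2, 1)}]
  · rw [sum_insert (by simp), sum_singleton]
    simp only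
    rw [coeff_xS_top _ (by omega), coeff_xS_top _ (by omega), Nat.choose_zero_right,
      Nat.choose_one_right, Nat.cast_one, one_mul]
    congr 1
    · congr 1
      push_cast [Nat.cast_sub (show 1 ≤ p * (#K / 2) by omega)]
      ring
    · congr 2
      push_cast [Nat.cast_sub (show 1 ≤ p * (#K / 2) by omega)]
      ring
  · intro q hq
    rw [mem_insert, mem_singleton] at hq
    rcases hq with rfl | rfl <;> simp only <;> omega
  · intro x y hx hy hq
    by_contra hc
    have hA := left_ne_zero_of_mul hc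
    have hZ := term_bound h2 hK hKe hI (right_ne_zero_of_mul hc)
    have h1 := coeff_xS_le _ _ _ hA
    rw [mem_insert, mem_singleton, Prod.mk.injEq, Prod.mk.injEq] at hq
    rcases Nat.eq_zero_or_pos y with rfl | hy0
    · rw [coeff_xS_zero] at hA
      have h3 : p * e - 1 - x = bw (hi i E) := by
        by_contra h4
        rw [if_neg h4] at hA
        exact hA rfl
      omega
    · omega

theorem AKv_0 (h2 : p ≠ 2) (he : Odd e) (hK : ∀ t ∈ K, t < i) (hK2 : 2 ≤ #K) (hKe : Even #K)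
    (hE : ∀ q ∈ E, i ≤ q) (hI : ∀ t ∈ I, t < i) (hR : bw (hi i E) = p * e)
    (hw : #I + 2 * l + 1 ≤ i) :
    AK i e K (Car p (mo (ZMod p) (E ∪ I) l))
      = (Dyn59.hw (hi i E) : ZMod p)
          * zc (PT (R := ZMod p) (ex p K I) i) 1 ((p * (#K / 2) : ℕ) - 2 - l) := by
  have hpe := prod_ge h2 he.pos
  have hpk := prod_ge h2 (show 0 < #K / 2 by omega)
  rw [AK_val h2 he.pos hK hK2 hE hI, sum2_eq _ _ _ {(1, 1)}]
  · rw [sum_singleton]
    simp only
    rw [coeff_xS_top _ (by omega), Nat.choose_one_right]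
    congr 2
    push_cast [Nat.cast_sub (show 1 ≤ p * (#K / 2) by omega)]
    ring
  · intro q hq
    rw [mem_singleton] at hq
    subst hq
    simp only
    omega
  · intro x y hx hy hq
    by_contra hc
    have hA := left_ne_zero_of_mul hc
    have hZ := term_bound h2 hK hKe hI (right_ne_zero_of_mul hc)
    have h1 := coeff_xS_le _ _ _ hA
    rw [mem_singleton, Prod.mk.injEq] at hq
    rcases Nat.eq_zero_or_pos y with rfl | hy0
    · rw [coeff_xS_zero] at hA
      have h3 : p * e - 1 - x = bw (hi i E) := by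
        by_contra h4
        rw [if_neg h4] at hA
        exact hA rfl
      omega
    · omega

theorem AKv_1 (h2 : p ≠ 2) (he : Odd e) (hK : ∀ t ∈ K, t < i) (hK2 : 2 ≤ #K) (hKe : Even #K)
    (hE : ∀ q ∈ E, i ≤ q) (hI : ∀ t ∈ I, t < i) (hR : bw (hi i E) = p * e + 1)
    (hw : #I + 2 * l + 1 ≤ i) :
    AK i e K (Car p (mo (ZMod p) (E ∪ I) l))
      = (Dyn59.hw (hi i E) : ZMod p)
          * zc (PT (R := ZMod p) (ex p K I) i) 0 ((p * (#K / 2) : ℕ) - 2 - l)
        + ((Dyn59.hw (hi i E)).choose 2 : ZMod p)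
          * zc (PT (R := ZMod p) (ex p K I) i) 2 ((p * (#K / 2) : ℕ) - 3 - l) := by
  have hpe := prod_ge h2 he.pos
  have hpk := prod_ge h2 (show 0 < #K / 2 by omega)
  rw [AK_val h2 he.pos hK hK2 hE hI, sum2_eq _ _ _ {(0, 1), (2, 2)}]
  · rw [sum_insert (by simp), sum_singleton]
    simp only
    rw [coeff_xS_top _ (by omega), coeff_xS_top _ (by omega), Nat.choose_one_right]
    congr 3 <;> push_cast [Nat.cast_sub (show 1 ≤ p * (#K / 2) by omega)] <;> ring
  · intro q hq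
    rw [mem_insert, mem_singleton] at hq
    rcases hq with rfl | rfl <;> simp only <;> omega
  · intro x y hx hy hq
    by_contra hc
    have hA := left_ne_zero_of_mul hc
    have hZ := term_bound h2 hK hKe hI (right_ne_zero_of_mul hc)
    have h1 := coeff_xS_le _ _ _ hA
    rw [mem_insert, mem_singleton, Prod.mk.injEq, Prod.mk.injEq] at hq
    rcases Nat.eq_zero_or_pos y with rfl | hy0
    · rw [coeff_xS_zero] at hA
      have h3 : p * e - 1 - x = bw (hi i E) := by
        by_contra h4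
        rw [if_neg h4] at hA
        exact hA rfl
      omega
    · by_cases h5 : p * e - 1 - x + 2 * y = bw (hi i E)
      · omega
      · have h6 := (coeff_xS_low _ hA h5).1
        omega

theorem AKv_m3 (h2 : p ≠ 2) (he : Odd e) (hK : ∀ t ∈ K, t < i) (hK2 : 2 ≤ #K) (hKe : Even #K)
    (hE : ∀ q ∈ E, i ≤ q) (hI : ∀ t ∈ I, t < i) (hR : bw (hi i E) + 3 ≤ p * e)
    (hw : #I + 2 * l ≤ i) :
    AK i e K (Car p (mo (ZMod p) (E ∪ I) l)) = 0 := by
  have hpe := prod_ge h2 he.pos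
  have hpk := prod_ge h2 (show 0 < #K / 2 by omega)
  rw [AK_val h2 he.pos hK hK2 hE hI, sum2_eq _ _ _ ∅]
  · rw [sum_empty]
  · intro q hq
    simp at hq
  · intro x y hx hy hq
    by_contra hc
    have hA := left_ne_zero_of_mul hc
    have hZ := term_bound h2 hK hKe hI (right_ne_zero_of_mul hc)
    have h1 := coeff_xS_le _ _ _ hA
    omega

end car

end Dyn59
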