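import Mathlib

/-!
# MP_d59dab: the final combinatorial step

A set `C` of `n`-periodic sign words, symmetric under `w ↦ -w`, whose even characters sums
`∑_{w ∈ C} w^J` (`0 ∈ J`) are in every window `[0, N]` given by a combination of the trivial
solutions `[J trivial mod d]`, is a union of exact period classes.
-/

set_option autoImplicit false

open Finset

namespace Dyn59

/-- `J` is trivial modulo `d`: the character of `J` is trivial on `d`-periodic words. -/
def Triv (d : ℕ) (J : Finset ℕ) : Prop :=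
  ∀ w : ℕ → ℤˣ, (∀ i, w (i + d) = w i) → ∏ j ∈ J, w j = 1

theorem periodic_mul {w : ℕ → ℤˣ} {e : ℕ} (hw : ∀ i, w (i + e) = w i) (k i : ℕ) :
    w (i + e * k) = w i := by
  induction k with
  | zero => simp
  | succ k ih => rw [Nat.mul_succ, ← add_assoc, hw, ih]

theorem periodic_mod {w : ℕ → ℤˣ} {e : ℕ} (hw : ∀ i, w (i + e) = w i) (i : ℕ) :
    w (i % e) = w i := by
  conv_rhs => rw [← Nat.mod_add_div i e]
  rw [periodic_mul hw]

theorem Triv.dvd {d e : ℕ} {J : Finset ℕ} (h : Triv d J) (he : e ∣ d) : Triv e J := by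
  intro w hw
  apply h w
  obtain ⟨k, rfl⟩ := he
  intro i
  exact periodic_mul hw k i

/-- the word equal to `-1` exactly on the class of `x` modulo `Q` -/
def ind (Q x : ℕ) : ℕ → ℤˣ := fun i => if i ≡ x [MOD Q] then -1 else 1

theorem ind_periodic (Q x i : ℕ) : ind Q x (i + Q) = ind Q x i := by
  unfold ind
  have : (i + Q ≡ x [MOD Q]) ↔ (i ≡ x [MOD Q]) := by
    simp [Nat.ModEq]
  simp only [this]

theorem ind_self (Q x : ℕ) : ind Q x x = -1 := by
  simp [ind, Nat.ModEq.refl]

theorem ind_of_not {Q x i : ℕ} (h : ¬ i ≡ x [MOD Q]) : ind Q x i = 1 := by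
  simp [ind, h]

theorem triv_insert_unique {Q : ℕ} {J : Finset ℕ} {j j' : ℕ} (hj : j ∉ J) (hj' : j' ∉ J)
    (h : Triv Q (insert j J)) (h' : Triv Q (insert j' J)) : j' ≡ j [MOD Q] := by
  by_contra hne
  have h1 := h (ind Q j) (ind_periodic Q j)
  have h2 := h' (ind Q j) (ind_periodic Q j)
  rw [prod_insert hj, ind_self] at h1
  rw [prod_insert hj', ind_of_not hne, one_mul] at h2
  rw [h2] at h1
  exact absurd h1 (by decide)

theorem not_triv_large {Q : ℕ} {J : Finset ℕ} {j : ℕ} (hQ : ∀ x ∈ J, x < Q) (h2 : 2 ≤ #J)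
    (hj : j ∉ J) : ¬ Triv Q (insert j J) := by
  intro h
  obtain ⟨x, hx, hxj⟩ : ∃ x ∈ J, ¬ j ≡ x [MOD Q] := by
    by_contra hcon
    push Not at hcon
    obtain ⟨a, ha, b, hb, hab⟩ := one_lt_card.1 h2
    apply hab
    have h3 : a ≡ b [MOD Q] := (hcon a ha).symm.trans (hcon b hb)
    rw [Nat.ModEq, Nat.mod_eq_of_lt (hQ a ha), Nat.mod_eq_of_lt (hQ b hb)] at h3
    exact h3
  have h1 := h (ind Q x) (ind_periodic Q x)
  rw [prod_insert hj, ind_of_not hxj, one_mul, ← mul_prod_erase J _ hx, ind_self] at h1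
  have h3 : ∏ y ∈ J.erase x, ind Q x y = 1 := by
    apply prod_eq_one
    intro y hy
    rw [mem_erase] at hy
    apply ind_of_not
    intro h4
    apply hy.1
    rw [Nat.ModEq, Nat.mod_eq_of_lt (hQ y hy.2), Nat.mod_eq_of_lt (hQ x hx)] at h4
    exact h4
  rw [h3] at h1
  exact absurd h1 (by decide)

/-- the generic lift -/
theorem moving {n : ℕ} (hn : n ≠ 0) {J : Finset ℕ} (h2 : 2 ≤ #J) :
    ∃ L, (∀ x ∈ J, x < n * L) ∧ ∀ d, Triv d (insert (n * L) J) → d ∣ n := by
  classical
  set B : ℕ := J.sup id + 1 with hB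
  have hJB : ∀ x ∈ J, x < B := fun x hx => Nat.lt_succ_of_le (le_sup (f := id) hx)
  have hnot : ∀ L, B ≤ L → n * L ∉ J := by
    intro L hL hmem
    have h1 := hJB _ hmem
    have h3 : L ≤ n * L := Nat.le_mul_of_pos_left L (Nat.pos_of_ne_zero hn)
    omega
  have hgood : ∀ q : ℕ, q.Prime → ∃ c : ℕ, ∀ L, B ≤ L → L ≡ c [MOD q] →
      ¬ Triv (q ^ (n.factorization q + 1)) (insert (n * L) J) := by
    intro q hq
    by_contra hcon
    push Not at hcon
    obtain ⟨L0, hL0, hc0, ht0⟩ := hcon 0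
    obtain ⟨L1, hL1, hc1, ht1⟩ := hcon 1
    have h3 := triv_insert_unique (hnot _ hL0) (hnot _ hL1) ht0 ht1
    have h4 : L1 ≡ L0 [MOD q] := by
      have hn' : n = q ^ n.factorization q * (n / q ^ n.factorization q) :=
        (Nat.ordProj_mul_ordCompl_eq_self n q).symm
      have hcop : Nat.Coprime q (n / q ^ n.factorization q) := Nat.coprime_ordCompl hq hn
      have h5 : q ^ n.factorization q * ((n / q ^ n.factorization q) * L1)
          ≡ q ^ n.factorization q * ((n / q ^ n.factorization q) * L0)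
            [MOD q ^ n.factorization q * q] := by
        rw [← mul_assoc, ← mul_assoc, ← hn', ← pow_succ]
        exact h3
      have h6 := Nat.ModEq.mul_left_cancel' (pow_ne_zero _ hq.ne_zero) h5
      exact Nat.ModEq.cancel_left_of_coprime hcop h6
    have h7 : 1 ≡ 0 [MOD q] := (hc1.symm.trans h4).trans hc0
    have h8 : q ∣ 1 := (Nat.modEq_zero_iff_dvd).1 h7
    exact hq.one_lt.ne' (Nat.dvd_one.1 h8)
  choose! c hc using hgood
  set P : Finset ℕ := (range (B + 1)).filter Nat.Prime with hP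
  have hPp : ∀ q ∈ P, q.Prime := fun q hq => (mem_filter.1 hq).2
  obtain ⟨L0, hL0⟩ := Nat.chineseRemainderOfFinset c (fun q => q) P
    (fun q hq => (hPp q hq).ne_zero)
    (fun a ha b hb hab => (Nat.coprime_primes (hPp a ha) (hPp b hb)).2 hab)
  set L : ℕ := L0 + B * ∏ q ∈ P, q with hL
  have hprod : 1 ≤ ∏ q ∈ P, q := Nat.one_le_iff_ne_zero.2
    (prod_ne_zero_iff.2 (fun q hq => (hPp q hq).ne_zero))
  have hLB : B ≤ L := by
    rw [hL]
    nlinarith [Nat.zero_le L0, Nat.zero_le B]
  refine ⟨L, ?_, ?_⟩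
  · intro x hx
    have h1 := hJB x hx
    have h3 : L ≤ n * L := Nat.le_mul_of_pos_left L (Nat.pos_of_ne_zero hn)
    omega
  · intro d hd
    rw [Nat.dvd_iff_prime_pow_dvd_dvd]
    intro q k hq hqk
    by_contra hcon
    have hk : n.factorization q + 1 ≤ k := by
      by_contra hlt
      apply hcon
      rw [hq.pow_dvd_iff_le_factorization hn]
      omega
    have h1 : Triv (q ^ (n.factorization q + 1)) (insert (n * L) J) :=
      hd.dvd ((pow_dvd_pow q hk).trans hqk)
    by_cases hqP : q ∈ P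
    · refine hc q hq L hLB ?_ h1
      have h3 : B * ∏ q ∈ P, q ≡ 0 [MOD q] :=
        (Nat.modEq_zero_iff_dvd).2 ((dvd_prod_of_mem (fun q => q) hqP).mul_left B)
      have h4 := (hL0 q hqP).add h3
      rw [add_zero] at h4
      exact h4
    · have hqB : B < q := by
        by_contra hlt
        exact hqP (mem_filter.2 ⟨mem_range.2 (by omega), hq⟩)
      have hQ : ∀ x ∈ J, x < q ^ (n.factorization q + 1) := by
        intro x hx
        have h3 := hJB x hx
        have h4 : q ≤ q ^ (n.factorization q + 1) := Nat.le_self_pow (by omega) q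
        omega
      exact not_triv_large hQ h2 (hnot L hLB) h1

section words

variable {n : ℕ} [NeZero n]

theorem exists_lift (J : Finset (ZMod n)) (hJ : Even #J) :
    ∃ J' : Finset ℕ, 0 ∈ J' ∧ Even #J' ∧
      (∀ w : ZMod n → ℤˣ, ∏ j ∈ J', w (j : ZMod n) = ∏ j ∈ J, w j) ∧
      ∀ d, Triv d J' → d ∣ n := by
  classical
  have hn : n ≠ 0 := NeZero.ne n
  have hinj : Set.InjOn (fun x : ZMod n => x.val + n) J := by
    intro a _ b _ hab
    exact ZMod.val_injective n (by simpa using hab)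
  set J1 : Finset ℕ := J.image (fun x : ZMod n => x.val + n) with hJ1
  have hJ1b : ∀ x ∈ J1, n ≤ x ∧ x < 2 * n := by
    intro x hx
    rw [hJ1, mem_image] at hx
    obtain ⟨y, -, rfl⟩ := hx
    have := ZMod.val_lt y
    omega
  have hc1 : #J1 = #J := card_image_of_injOn hinj
  have h3 : 3 * n ∉ J1 := fun h => by have := hJ1b _ h; omega
  have h2 : 2 * n ∉ insert (3 * n) J1 := by
    rw [mem_insert, not_or]
    exact ⟨by omega, fun h => by have := hJ1b _ h; omega⟩
  have h0 : 0 ∉ insert (2 * n) (insert (3 * n) J1) := by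
    rw [mem_insert, mem_insert, not_or, not_or]
    exact ⟨by omega, by omega, fun h => by have := hJ1b _ h; omega⟩
  set J0 : Finset ℕ := insert 0 (insert (2 * n) (insert (3 * n) J1)) with hJ0
  have hcard0 : #J0 = #J + 3 := by
    rw [hJ0, card_insert_of_notMem h0, card_insert_of_notMem h2, card_insert_of_notMem h3, hc1]
  obtain ⟨L, hL, hd⟩ := moving hn (J := J0) (by omega)
  have hLn : n * L ∉ J0 := fun h => lt_irrefl _ (hL _ h)
  refine ⟨insert (n * L) J0, ?_, ?_, ?_, hd⟩
  · exact mem_insert_of_mem (mem_insert_self _ _)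
  · rw [card_insert_of_notMem hLn, hcard0]
    have : #J + 3 + 1 = #J + 4 := by ring
    rw [this]
    exact hJ.add (by decide)
  · intro w
    rw [prod_insert hLn, hJ0, prod_insert h0, prod_insert h2, prod_insert h3, hJ1,
      prod_image hinj]
    have e1 : ((n * L : ℕ) : ZMod n) = 0 := by simp
    have e2 : ((2 * n : ℕ) : ZMod n) = 0 := by simp
    have e3 : ((3 * n : ℕ) : ZMod n) = 0 := by simp
    rw [e1, e2, e3, Nat.cast_zero]
    have e4 : ∀ x : ZMod n, ((x.val + n : ℕ) : ZMod n) = x := by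
      intro x
      simp
    simp only [e4]
    rw [← mul_assoc, ← mul_assoc, ← mul_assoc, mul_assoc (w 0) (w 0) (w 0),
      Int.units_mul_self, mul_one, Int.units_mul_self, one_mul]

/-- the sign as an element of the field -/
def sg (F : Type*) [Field F] : ℤˣ →* F :=
  ((Int.castRingHom F : ℤ →+* F) : ℤ →* F).comp (Units.coeHom ℤ)

variable {F : Type*} [Field F]

theorem sg_neg_one : sg F (-1) = -1 := by simp [sg]

theorem sg_neg (u : ℤˣ) : sg F (-u) = - sg F u := by simp [sg]

theorem sg_cases (u : ℤˣ) (hu : u ≠ 1) : sg F u = -1 := by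
  rcases Int.units_eq_one_or u with h | h
  · exact absurd h hu
  · rw [h, sg_neg_one]

/-- Fourier inversion on the group of sign words. -/
theorem fourier_inj (h2 : (2 : F) ≠ 0) (g : (ZMod n → ℤˣ) → F)
    (hg : ∀ J : Finset (ZMod n), ∑ w, g w * sg F (∏ j ∈ J, w j) = 0) (w' : ZMod n → ℤˣ) :
    g w' = 0 := by
  classical
  have h1 : ∑ J : Finset (ZMod n), sg F (∏ j ∈ J, w' j) * ∑ w, g w * sg F (∏ j ∈ J, w j) = 0 :=
    sum_eq_zero (fun J _ => by rw [hg J, mul_zero])
  have h3 : ∑ J : Finset (ZMod n), sg F (∏ j ∈ J, w' j) * ∑ w, g w * sg F (∏ j ∈ J, w j)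
      = ∑ w, g w * ∏ j, (1 + sg F (w' j * w j)) := by
    simp only [mul_sum]
    rw [sum_comm]
    apply sum_congr rfl
    intro w _
    rw [prod_one_add, powerset_univ, mul_sum]
    apply sum_congr rfl
    intro J _
    rw [map_prod, map_prod]
    simp only [map_mul, prod_mul_distrib]
    ring
  rw [h3, sum_eq_single w'] at h1
  · have h4 : ∏ j : ZMod n, (1 + sg F (w' j * w' j)) ≠ 0 := by
      rw [prod_ne_zero_iff]
      intro j _
      rw [Int.units_mul_self, map_one, one_add_one_eq_two]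
      exact h2
    exact (mul_eq_zero.1 h1).resolve_right h4
  · intro w _ hw
    obtain ⟨j, hj⟩ := Function.ne_iff.1 hw
    have h5 : w' j * w j ≠ 1 := by
      intro h6
      apply hj
      have h7 := congrArg (fun u => w' j * u) h6
      simp only [← mul_assoc, Int.units_mul_self, one_mul, mul_one] at h7
      exact h7
    rw [prod_eq_zero (mem_univ j) (by rw [sg_cases _ h5]; ring), mul_zero]
  · intro h
    exact absurd (mem_univ _) h

theorem sum_odd (h2 : (2 : F) ≠ 0) (S : Finset (ZMod n → ℤˣ)) (hS : ∀ w ∈ S, -w ∈ S)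
    (J : Finset (ZMod n)) (hJ : ¬ Even #J) : ∑ w ∈ S, sg F (∏ j ∈ J, w j) = 0 := by
  have h1 : ∑ w ∈ S, sg F (∏ j ∈ J, w j) = ∑ w ∈ S, - sg F (∏ j ∈ J, w j) := by
    refine sum_bij' (fun w _ => -w) (fun w _ => -w) hS hS (fun _ _ => neg_neg _)
      (fun _ _ => neg_neg _) ?_
    intro w _
    have h3 : ∏ j ∈ J, (-w) j = - ∏ j ∈ J, w j := by
      have h4 : ∏ j ∈ J, (-w) j = ∏ j ∈ J, ((-1 : ℤˣ) * w j) :=
        prod_congr rfl (fun j _ => by simp)
      rw [h4, prod_mul_distrib, prod_const, (Nat.not_even_iff_odd.1 hJ).neg_one_pow, neg_one_mul]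
    rw [h3, sg_neg, neg_neg]
  rw [sum_neg_distrib] at h1
  have h5 : (2 : F) * ∑ w ∈ S, sg F (∏ j ∈ J, w j) = 0 := by
    rw [two_mul]
    nth_rewrite 1 [h1]
    ring
  exact (mul_eq_zero.1 h5).resolve_left h2

open Classical in
/-- the words of period `d` -/
noncomputable def per (n : ℕ) [NeZero n] (d : ℕ) : Finset (ZMod n → ℤˣ) :=
  univ.filter (fun w => ∀ i, w (i + (d : ZMod n)) = w i)

theorem mem_per {d : ℕ} {w : ZMod n → ℤˣ} : w ∈ per n d ↔ ∀ i, w (i + (d : ZMod n)) = w i := by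
  simp [per]

theorem card_per_ne_zero (h2 : (2 : F) ≠ 0) (d : ℕ) : ((#(per n d) : ℕ) : F) ≠ 0 := by
  classical
  let H : Subgroup (ZMod n → ℤˣ) :=
    { carrier := {w | ∀ i, w (i + (d : ZMod n)) = w i}
      mul_mem' := fun {a b} ha hb i => by
        simp only [Set.mem_setOf_eq] at ha hb
        simp only [Pi.mul_apply, ha i, hb i]
      one_mem' := fun i => rfl
      inv_mem' := fun {a} ha i => by
        simp only [Set.mem_setOf_eq] at ha
        simp only [Pi.inv_apply, ha i] }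
  have h1 : Nat.card H ∣ Nat.card (ZMod n → ℤˣ) := H.card_subgroup_dvd_card
  have h3 : Nat.card (ZMod n → ℤˣ) = 2 ^ n := by
    rw [Nat.card_eq_fintype_card, Fintype.card_fun, ZMod.card]
    simp
  have h4 : Nat.card H = #(per n d) := by
    rw [Nat.card_eq_fintype_card, Fintype.card_subtype]
    apply congrArg
    ext w
    rw [mem_per, mem_filter]
    simp [H]
  rw [h3, h4] at h1
  obtain ⟨k, hk⟩ := h1
  intro h0
  have h5 : ((2 ^ n : ℕ) : F) = 0 := by
    rw [hk, Nat.cast_mul, h0, zero_mul]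
  rw [Nat.cast_pow, Nat.cast_ofNat] at h5
  exact h2 (pow_eq_zero_iff (NeZero.ne n) |>.1 h5)

open Classical in
theorem sum_per (h2 : (2 : F) ≠ 0) {d : ℕ} (hd : d ∣ n) (J : Finset (ZMod n)) (J' : Finset ℕ)
    (hJ : ∀ w : ZMod n → ℤˣ, ∏ j ∈ J', w (j : ZMod n) = ∏ j ∈ J, w j) :
    ∑ w ∈ per n d, sg F (∏ j ∈ J, w j) = if Triv d J' then ((#(per n d) : ℕ) : F) else 0 := by
  split_ifs with h
  · have h1 : ∀ w ∈ per n d, sg F (∏ j ∈ J, w j) = 1 := by
      intro w hw
      rw [mem_per] at hw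
      rw [← hJ w, h (fun j => w (j : ZMod n)) (fun i => by
        simp only [Nat.cast_add]
        exact hw _), map_one]
    rw [sum_congr rfl h1]
    simp
  · unfold Triv at h
    push Not at h
    obtain ⟨v, hv, hv1⟩ := h
    have hvn : ∀ i, v (i + n) = v i := by
      obtain ⟨k, hk⟩ := hd
      intro i
      conv_lhs => rw [hk]
      exact periodic_mul hv k i
    set u : ZMod n → ℤˣ := fun x => v x.val with hu
    have hu1 : ∏ j ∈ J, u j = ∏ j ∈ J', v j := by
      rw [← hJ u]
      apply prod_congr rfl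
      intro j _
      simp only [hu, ZMod.val_natCast]
      exact periodic_mod hvn j
    have huper : ∀ i, u (i + (d : ZMod n)) = u i := by
      intro i
      simp only [hu, ZMod.val_add, ZMod.val_natCast, Nat.add_mod_mod]
      rw [periodic_mod hvn, hv]
    have hsu : sg F (∏ j ∈ J, u j) = -1 := sg_cases _ (by rw [hu1]; exact hv1)
    have h1 : ∑ w ∈ per n d, sg F (∏ j ∈ J, w j) = ∑ w ∈ per n d, - sg F (∏ j ∈ J, w j) := by
      have hmem : ∀ w ∈ per n d, u * w ∈ per n d := by
        intro w hw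
        rw [mem_per] at hw ⊢
        intro i
        simp only [Pi.mul_apply, huper i, hw i]
      have huu : ∀ w : ZMod n → ℤˣ, u * (u * w) = w := by
        intro w
        ext i
        simp only [Pi.mul_apply, ← mul_assoc, Int.units_mul_self, one_mul]
      refine sum_bij' (fun w _ => u * w) (fun w _ => u * w) hmem hmem (fun w _ => huu w)
        (fun w _ => huu w) ?_
      intro w _
      simp only [Pi.mul_apply, prod_mul_distrib, map_mul, hsu]
      ring
    rw [sum_neg_distrib] at h1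
    have h5 : (2 : F) * ∑ w ∈ per n d, sg F (∏ j ∈ J, w j) = 0 := by
      rw [two_mul]
      nth_rewrite 1 [h1]
      ring
    exact (mul_eq_zero.1 h5).resolve_left h2

open Classical in
/-- **Final step**: `C` is a union of exact period classes. -/
theorem final_step (h2 : (2 : F) ≠ 0) (C : Finset (ZMod n → ℤˣ)) (hC : ∀ w ∈ C, -w ∈ C)
    (H : ∀ N : ℕ, ∃ β : ℕ → F, ∀ J : Finset ℕ, (∀ j ∈ J, j ≤ N) → 0 ∈ J → Even #J →
      ∑ w ∈ C, sg F (∏ j ∈ J, w (j : ZMod n)) = ∑ d ∈ Icc 1 N, if Triv d J then β d else 0)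
    (w w' : ZMod n → ℤˣ)
    (hp : ∀ d, d ∣ n → ((∀ i, w (i + (d : ZMod n)) = w i) ↔ ∀ i, w' (i + (d : ZMod n)) = w' i)) :
    w ∈ C ↔ w' ∈ C := by
  have hlift : ∀ J : Finset (ZMod n), ∃ J' : Finset ℕ, Even #J → 0 ∈ J' ∧ Even #J' ∧
      (∀ w : ZMod n → ℤˣ, ∏ j ∈ J', w (j : ZMod n) = ∏ j ∈ J, w j) ∧
      ∀ d, Triv d J' → d ∣ n := by
    intro J
    by_cases hJ : Even #J
    · obtain ⟨J', h⟩ := exists_lift J hJ
      exact ⟨J', fun _ => h⟩
    · exact ⟨∅, fun h => absurd h hJ⟩
  choose lf hlf using hlift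
  set N : ℕ := max n (univ.sup (fun J : Finset (ZMod n) => (lf J).sup id)) with hN
  obtain ⟨β, hβ⟩ := H N
  set g : (ZMod n → ℤˣ) → F := fun w => (if w ∈ C then 1 else 0)
    - ∑ d ∈ n.divisors, β d / ((#(per n d) : ℕ) : F) * (if w ∈ per n d then 1 else 0) with hg
  have hgJ : ∀ J : Finset (ZMod n), ∑ w, g w * sg F (∏ j ∈ J, w j) = 0 := by
    intro J
    have h1 : ∑ w, g w * sg F (∏ j ∈ J, w j) = ∑ w ∈ C, sg F (∏ j ∈ J, w j)
        - ∑ d ∈ n.divisors, β d / ((#(per n d) : ℕ) : F) * ∑ w ∈ per n d, sg F (∏ j ∈ J, w j) := by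
      simp only [hg, sub_mul, sum_sub_distrib, sum_mul]
      congr 1
      · simp only [ite_mul, one_mul, zero_mul]
        rw [← sum_filter]
        simp
      · rw [sum_comm]
        apply sum_congr rfl
        intro d _
        rw [mul_sum]
        simp only [mul_assoc, ite_mul, one_mul, zero_mul, mul_ite, mul_zero]
        rw [← sum_filter]
        simp
    rw [h1]
    by_cases hJ : Even #J
    · obtain ⟨h0, hev, hw, hd⟩ := hlf J hJ
      have hle : ∀ j ∈ lf J, j ≤ N := by
        intro j hj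
        have h3 : j ≤ (lf J).sup id := le_sup (f := id) hj
        have h4 : (lf J).sup id ≤ univ.sup (fun J : Finset (ZMod n) => (lf J).sup id) :=
          le_sup (f := fun J : Finset (ZMod n) => (lf J).sup id) (mem_univ J)
        exact h3.trans (h4.trans (le_max_right _ _))
      have h5 := hβ (lf J) hle h0 hev
      simp only [hw] at h5
      rw [h5]
      have h6 : ∑ d ∈ Icc 1 N, (if Triv d (lf J) then β d else 0)
          = ∑ d ∈ n.divisors, if Triv d (lf J) then β d else 0 := by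
        rw [← sum_filter, ← sum_filter]
        apply sum_congr _ (fun _ _ => rfl)
        ext d
        simp only [mem_filter, mem_Icc, Nat.mem_divisors]
        constructor
        · rintro ⟨-, ht⟩
          exact ⟨⟨hd d ht, NeZero.ne n⟩, ht⟩
        · rintro ⟨⟨h7, -⟩, ht⟩
          have h8 : 0 < d := Nat.pos_of_dvd_of_pos h7 (NeZero.pos n)
          have h9 : d ≤ n := Nat.le_of_dvd (NeZero.pos n) h7
          exact ⟨⟨h8, h9.trans (le_max_left _ _)⟩, ht⟩
      rw [h6, ← sum_sub_distrib]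
      apply sum_eq_zero
      intro d hdd
      rw [sum_per h2 (Nat.dvd_of_mem_divisors hdd) J (lf J) hw]
      split_ifs
      · rw [div_mul_cancel₀ _ (card_per_ne_zero h2 d), sub_self]
      · ring
    · rw [sum_odd h2 C hC J hJ, zero_sub, neg_eq_zero]
      apply sum_eq_zero
      intro d _
      rw [sum_odd h2 (per n d) _ J hJ, mul_zero]
      intro w hw
      rw [mem_per] at hw ⊢
      intro i
      simp only [Pi.neg_apply, hw i]
  have hfin := fourier_inj h2 g hgJ
  have hw0 := hfin w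
  have hw1 := hfin w'
  have hsame : ∑ d ∈ n.divisors, β d / ((#(per n d) : ℕ) : F) * (if w ∈ per n d then 1 else 0)
      = ∑ d ∈ n.divisors, β d / ((#(per n d) : ℕ) : F) * (if w' ∈ per n d then 1 else 0) := by
    apply sum_congr rfl
    intro d hd
    have h3 : (w ∈ per n d) ↔ (w' ∈ per n d) := by
      rw [mem_per, mem_per]
      exact hp d (Nat.dvd_of_mem_divisors hd)
    simp only [h3]
  simp only [hg] at hw0 hw1
  rw [hsame] at hw0
  have h4 : (if w ∈ C then (1 : F) else 0) = if w' ∈ C then 1 else 0 := by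
    rw [sub_eq_zero] at hw0 hw1
    rw [hw0, hw1]
  by_cases ha : w ∈ C <;> by_cases hb : w' ∈ C <;> simp [ha, hb] at h4 ⊢

end words

end Dyn59
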