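import Pool.Agent.H.MP_d59dab.Dynat

/-!
# MP_d59dab: the basic relation: the residues of a polynomial 1-form over the leaves of a factor
add up to zero
-/

set_option autoImplicit false

open Finset Polynomial

noncomputable section

namespace Dyn59

variable {K : Type*} [Field K]

/-- value of a polynomial in `x, z` on a leaf -/
def ev (P : K[X][X]) (v : ℕ → ℤˣ) : LaurentSeries K := P.eval₂ (zeta K) (xx K v)

/-- residue on the leaf `v` of the form `A dx + B dz` (up to normalisation of `B`):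
the coefficient of `t^0` of `A(x_v,z) (t d/dt x_v) + B(x_v,z) z`. -/
def resid (A B : K[X][X]) (v : ℕ → ℤˣ) : K := (ev A v * theta (xx K v) + ev B v * zz K).coeff 0

/-- derivative with respect to the inner variable `z` -/
def dz (P : K[X][X]) : K[X][X] := P.sum (fun j p => C (derivative p) * X ^ j)

theorem dz_add (P Q : K[X][X]) : dz (P + Q) = dz P + dz Q := by
  unfold dz
  rw [Polynomial.sum_add_index]
  · intro i; simp
  · intro i p q
    rw [derivative_add, C_add, add_mul]

theorem dz_monomial (j : ℕ) (p : K[X]) : dz (monomial j p) = C (derivative p) * X ^ j := by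
  unfold dz
  rw [Polynomial.sum_monomial_index]
  simp

theorem theta_zeta (p : K[X]) : theta (zeta K p) = zeta K (derivative p) * theta (zz K) := by
  induction p using Polynomial.induction_on' with
  | add p q hp hq => rw [map_add, theta_add, hp, hq, derivative_add, map_add]; ring
  | monomial i a =>
    rw [← C_mul_X_pow_eq_monomial, map_mul, map_pow, zeta_X, zeta_C, theta_mul, theta_C,
      theta_pow, derivative_C_mul_X_pow, map_mul, map_pow, zeta_X, zeta_C]
    simp only [map_mul, map_natCast]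
    ring

theorem theta_ev (P : K[X][X]) (v : ℕ → ℤˣ) :
    theta (ev P v) = ev (derivative P) v * theta (xx K v) + ev (dz P) v * theta (zz K) := by
  unfold ev
  induction P using Polynomial.induction_on' with
  | add p q hp hq =>
    rw [eval₂_add, theta_add, hp, hq, derivative_add, eval₂_add, dz_add, eval₂_add]
    ring
  | monomial i a =>
    rw [dz_monomial, ← C_mul_X_pow_eq_monomial, eval₂_mul, eval₂_C, eval₂_X_pow, theta_mul,
      theta_zeta, theta_pow, derivative_C_mul_X_pow, eval₂_mul, eval₂_C, eval₂_X_pow, eval₂_mul,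
      eval₂_C, eval₂_X_pow, map_mul, map_natCast]
    ring

section factor

variable {P : K[X][X]} {A : Finset (ℕ → ℤˣ)}

theorem map_eq_nodal (hA : P.map (zeta K) = ∏ w ∈ A, (X - C (xx K w))) :
    P.map (zeta K) = Lagrange.nodal A (xx K) := hA

open Classical in
theorem ev_derivative (hA : P.map (zeta K) = ∏ w ∈ A, (X - C (xx K w))) {w : ℕ → ℤˣ} (hw : w ∈ A) :
    ev (derivative P) w = ∏ w' ∈ A.erase w, (xx K w - xx K w') := by
  rw [ev, ← eval_map, ← derivative_map, map_eq_nodal hA,
    Lagrange.eval_nodal_derivative_eval_node_eq hw, Lagrange.eval_nodal]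

theorem ev_eq_zero_iff (h2 : (2 : K) ≠ 0) (hA : P.map (zeta K) = ∏ w ∈ A, (X - C (xx K w)))
    (w : ℕ → ℤˣ) : ev P w = 0 ↔ w ∈ A := by
  rw [ev, ← eval_map, hA, eval_prod, prod_eq_zero_iff]
  constructor
  · rintro ⟨w', hw', h⟩
    rw [eval_sub, eval_X, eval_C, sub_eq_zero] at h
    rwa [xx_injective h2 h]
  · intro hw
    exact ⟨w, hw, by simp⟩

theorem ev_derivative_ne_zero (h2 : (2 : K) ≠ 0)
    (hA : P.map (zeta K) = ∏ w ∈ A, (X - C (xx K w))) {w : ℕ → ℤˣ} (hw : w ∈ A) :
    ev (derivative P) w ≠ 0 := by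
  classical
  rw [ev_derivative hA hw, prod_ne_zero_iff]
  intro w' hw'
  rw [sub_ne_zero]
  exact fun h => (ne_of_mem_erase hw') (xx_injective h2 h).symm

theorem sum_div (h2 : (2 : K) ≠ 0) (hP : P.Monic)
    (hA : P.map (zeta K) = ∏ w ∈ A, (X - C (xx K w))) (G : K[X][X]) :
    ∃ g : K[X], ∑ w ∈ A, ev G w / ev (derivative P) w = zeta K g := by
  classical
  refine ⟨(G %ₘ P).coeff (#A - 1), ?_⟩
  have hdeg : P.natDegree = #A := by
    rw [← hP.natDegree_map (zeta K), hA, natDegree_prod_of_monic _ _ (fun w _ => monic_X_sub_C _)]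
    simp
  have h1 : ((G %ₘ P).map (zeta K)).degree < #A := by
    refine (degree_map_le).trans_lt ?_
    rw [← hdeg, ← degree_eq_natDegree hP.ne_zero]
    exact degree_modByMonic_lt G hP
  have h3 := Lagrange.coeff_eq_sum (s := A) (v := xx K) (fun a _ b _ h => xx_injective h2 h) h1
  rw [coeff_map] at h3
  rw [h3]
  apply sum_congr rfl
  intro w hw
  rw [ev_derivative hA hw]
  congr 1
  have h4 := congrArg (fun Q => ev Q w) (modByMonic_add_div G P)
  simp only [ev, eval₂_add, eval₂_mul] at h4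
  have h5 : eval₂ (zeta K) (xx K w) P = 0 := (ev_eq_zero_iff h2 hA w).2 hw
  rw [h5, zero_mul, add_zero] at h4
  rw [eval_map, h4, ev]

theorem sum_ev (h2 : (2 : K) ≠ 0) (hP : P.Monic)
    (hA : P.map (zeta K) = ∏ w ∈ A, (X - C (xx K w))) (G : K[X][X]) :
    ∃ g : K[X], ∑ w ∈ A, ev G w = zeta K g := by
  obtain ⟨g, hg⟩ := sum_div h2 hP hA (G * derivative P)
  refine ⟨g, ?_⟩
  rw [← hg]
  apply sum_congr rfl
  intro w hw
  have h3 : ev (G * derivative P) w = ev G w * ev (derivative P) w := by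
    simp only [ev, eval₂_mul]
  rw [h3, mul_div_cancel_right₀ _ (ev_derivative_ne_zero h2 hA hw)]

theorem sum_ev_theta (h2 : (2 : K) ≠ 0) (hP : P.Monic)
    (hA : P.map (zeta K) = ∏ w ∈ A, (X - C (xx K w))) (G : K[X][X]) :
    ∃ g : K[X], ∑ w ∈ A, ev G w * theta (xx K w) = zeta K g * zz K := by
  obtain ⟨g, hg⟩ := sum_div h2 hP hA (G * dz P)
  refine ⟨2 * g, ?_⟩
  have h5 : zeta K (2 * g) * zz K = (2 * zz K) * zeta K g := by
    rw [map_mul, map_ofNat]
    ring
  rw [h5, ← hg, mul_sum]
  apply sum_congr rfl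
  intro w hw
  have h3 : ev (G * dz P) w = ev G w * ev (dz P) w := by
    simp only [ev, eval₂_mul]
  have hne := ev_derivative_ne_zero h2 hA hw
  have h4 := theta_ev P w
  rw [(ev_eq_zero_iff h2 hA w).2 hw, theta_zero, theta_zz] at h4
  rw [h3, mul_div_assoc', eq_div_iff hne]
  linear_combination (- ev G w) * h4

/-- **Basic relation.** -/
theorem basic_relation (h2 : (2 : K) ≠ 0) (hP : P.Monic)
    (hA : P.map (zeta K) = ∏ w ∈ A, (X - C (xx K w))) (F G : K[X][X]) :
    ∑ w ∈ A, resid F G w = 0 := by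
  obtain ⟨f, hf⟩ := sum_ev_theta h2 hP hA F
  obtain ⟨g, hg⟩ := sum_ev h2 hP hA G
  have h1 : ∑ w ∈ A, resid F G w
      = (∑ w ∈ A, (ev F w * theta (xx K w) + ev G w * zz K)).coeff 0 := by
    rw [HahnSeries.coeff_sum]
    rfl
  rw [h1, sum_add_distrib, hf, ← sum_mul, hg, ← add_mul, ← map_add, zeta_mul_zz_coeff]

/-- the root set of a factor is symmetric -/
theorem neg_mem (h2 : (2 : K) ≠ 0) (hA : P.map (zeta K) = ∏ w ∈ A, (X - C (xx K w)))
    {w : ℕ → ℤˣ} (hw : w ∈ A) : -w ∈ A := by
  rw [← ev_eq_zero_iff h2 hA] at hw ⊢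
  have h1 := congrArg (tau K) hw
  rw [map_zero, ev, hom_eval₂, tau_xx] at h1
  have h3 : (tau K).comp (zeta K) = zeta K := RingHom.ext (fun p => tau_zeta p)
  rw [h3] at h1
  exact h1

end factor

end Dyn59
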