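import Pool.Agent.H.MP_d59dab.LemL
import Pool.Agent.H.MP_d59dab.Rel

/-!
# MP_d59dab: Laurent series over commutative rings, residues along families
-/

set_option autoImplicit false

open Finset Polynomial

noncomputable section

namespace Dyn59

section gen

variable {R S : Type*} [CommRing R] [CommRing S]

/-- `t d/dt` -/
def thG (f : LaurentSeries R) : LaurentSeries R where
  coeff n := (n : R) * f.coeff n
  isPWO_support' := f.isPWO_support.mono (fun n hn => by
    rw [Function.mem_support] at hn
    rw [HahnSeries.mem_support]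
    exact right_ne_zero_of_mul hn)

theorem thG_coeff (f : LaurentSeries R) (n : ℤ) : (thG f).coeff n = (n : R) * f.coeff n := rfl

theorem thG_support (f : LaurentSeries R) : (thG f).support ⊆ f.support := fun n hn => by
  rw [HahnSeries.mem_support, thG_coeff] at hn
  rw [HahnSeries.mem_support]
  exact right_ne_zero_of_mul hn

theorem thG_add (f g : LaurentSeries R) : thG (f + g) = thG f + thG g := by
  ext n
  simp only [thG_coeff, HahnSeries.coeff_add, mul_add]

theorem thG_mul (f g : LaurentSeries R) : thG (f * g) = thG f * g + f * thG g := by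
  ext n
  rw [thG_coeff, HahnSeries.coeff_add, HahnSeries.coeff_mul,
    HahnSeries.coeff_mul_left' f.isPWO_support (thG_support f),
    HahnSeries.coeff_mul_right' g.isPWO_support (thG_support g), mul_sum, ← sum_add_distrib]
  apply sum_congr rfl
  intro ij hij
  rw [thG_coeff, thG_coeff]
  have h : ij.1 + ij.2 = n := by
    exact (Finset.mem_antidiagonal.1 hij).2.2
  rw [← h]
  push_cast
  ring

theorem thG_C (a : R) : thG (HahnSeries.C a : LaurentSeries R) = 0 := by
  ext n
  rw [thG_coeff, HahnSeries.coeff_zero, HahnSeries.C_apply]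
  by_cases h : n = 0
  · rw [h]; simp
  · rw [HahnSeries.coeff_single_of_ne h, mul_zero]

theorem thG_coeff_zero (f : LaurentSeries R) : (thG f).coeff 0 = 0 := by
  rw [thG_coeff]
  simp

/-- the series `z = -t^(-2)` -/
def zG (R : Type*) [CommRing R] : LaurentSeries R := - HahnSeries.single (-2 : ℤ) (1 : R)

theorem thG_zG : thG (zG R) = -2 * zG R := by
  have h2 : (-2 : LaurentSeries R) * zG R = -(zG R + zG R) := by ring
  rw [h2]
  ext n
  rw [thG_coeff, zG, HahnSeries.coeff_neg, HahnSeries.coeff_neg, HahnSeries.coeff_add,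
    HahnSeries.coeff_neg]
  by_cases h : n = -2
  · rw [h]
    simp only [HahnSeries.coeff_single_same]
    push_cast
    ring
  · rw [HahnSeries.coeff_single_of_ne h]; simp

/-- coefficientwise application of a ring homomorphism -/
def lmG (φ : R →+* S) : LaurentSeries R →+* LaurentSeries S where
  toFun f := HahnSeries.map f φ
  map_zero' := by ext n; simp
  map_one' := by
    ext n
    rw [HahnSeries.map_coeff, HahnSeries.coeff_one, HahnSeries.coeff_one]
    split_ifs <;> simp
  map_add' f g := by ext n; simp
  map_mul' f g := HahnSeries.map_mul (φ : R →ₙ+* S)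

theorem lmG_coeff (φ : R →+* S) (f : LaurentSeries R) (n : ℤ) :
    (lmG φ f).coeff n = φ (f.coeff n) := rfl

theorem lmG_thG (φ : R →+* S) (f : LaurentSeries R) : lmG φ (thG f) = thG (lmG φ f) := by
  ext n
  rw [lmG_coeff, thG_coeff, thG_coeff, lmG_coeff, map_mul, map_intCast]

theorem lmG_single (φ : R →+* S) (n : ℤ) (a : R) :
    lmG φ (HahnSeries.single n a) = HahnSeries.single n (φ a) := by
  ext m
  rw [lmG_coeff]
  by_cases h : m = n
  · rw [h, HahnSeries.coeff_single_same, HahnSeries.coeff_single_same]
  · rw [HahnSeries.coeff_single_of_ne h, HahnSeries.coeff_single_of_ne h, map_zero]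

theorem lmG_C (φ : R →+* S) (a : R) : lmG φ (HahnSeries.C a) = HahnSeries.C (φ a) := by
  rw [HahnSeries.C_apply, lmG_single, HahnSeries.C_apply]

theorem lmG_zG (φ : R →+* S) : lmG φ (zG R) = zG S := by
  unfold zG
  rw [map_neg, lmG_single, map_one]

/-- `d/ds` coefficientwise -/
def dsG (f : LaurentSeries R[X]) : LaurentSeries R[X] where
  coeff n := derivative (f.coeff n)
  isPWO_support' := f.isPWO_support.mono (fun n hn => by
    rw [Function.mem_support] at hn
    rw [HahnSeries.mem_support]
    intro h
    apply hn
    rw [h, derivative_zero])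

theorem dsG_coeff (f : LaurentSeries R[X]) (n : ℤ) :
    (dsG f).coeff n = derivative (f.coeff n) := rfl

theorem dsG_support (f : LaurentSeries R[X]) : (dsG f).support ⊆ f.support := fun n hn => by
  rw [HahnSeries.mem_support, dsG_coeff] at hn
  rw [HahnSeries.mem_support]
  intro h
  apply hn
  rw [h, derivative_zero]

theorem dsG_add (f g : LaurentSeries R[X]) : dsG (f + g) = dsG f + dsG g := by
  ext1
  funext n
  rw [dsG_coeff, HahnSeries.coeff_add, HahnSeries.coeff_add, dsG_coeff, dsG_coeff, derivative_add]

theorem dsG_mul (f g : LaurentSeries R[X]) : dsG (f * g) = dsG f * g + f * dsG g := by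
  ext1
  funext n
  rw [dsG_coeff, HahnSeries.coeff_add, HahnSeries.coeff_mul,
    HahnSeries.coeff_mul_left' f.isPWO_support (dsG_support f),
    HahnSeries.coeff_mul_right' g.isPWO_support (dsG_support g), derivative_sum,
    ← sum_add_distrib]
  apply sum_congr rfl
  intro ij _
  rw [dsG_coeff, dsG_coeff, derivative_mul]

theorem dsG_thG (f : LaurentSeries R[X]) : dsG (thG f) = thG (dsG f) := by
  ext1
  funext n
  rw [dsG_coeff, thG_coeff, thG_coeff, dsG_coeff]
  have : ((n : ℤ) : R[X]) = C ((n : ℤ) : R) := by simp
  rw [this, derivative_C_mul]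

theorem dsG_C_C (a : R) : dsG (HahnSeries.C (C a) : LaurentSeries R[X]) = 0 := by
  ext1
  funext n
  rw [dsG_coeff, HahnSeries.C_apply]
  by_cases h : n = 0
  · rw [h, HahnSeries.coeff_single_same, derivative_C]; rfl
  · rw [HahnSeries.coeff_single_of_ne h, derivative_zero]; rfl

theorem dsG_zG : dsG (zG R[X]) = 0 := by
  ext1
  funext n
  rw [dsG_coeff, zG, HahnSeries.coeff_neg]
  by_cases h : n = -2
  · rw [h, HahnSeries.coeff_single_same, derivative_neg, derivative_one, neg_zero]; rfl
  · rw [HahnSeries.coeff_single_of_ne h, neg_zero, derivative_zero]; rfl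

theorem dsG_lmG (f : LaurentSeries R) : dsG (lmG (C : R →+* R[X]) f) = 0 := by
  ext1
  funext n
  rw [dsG_coeff, lmG_coeff, derivative_C]
  rfl

/-- value of polynomials in `z` -/
def zeG (R : Type*) [CommRing R] : R[X] →+* LaurentSeries R :=
  eval₂RingHom HahnSeries.C (zG R)

theorem zeG_X : zeG R X = zG R := by simp [zeG]

theorem zeG_C (a : R) : zeG R (C a) = HahnSeries.C a := by simp [zeG]

/-- value of polynomials in `x, z` at a series `x` -/
def evG (x : LaurentSeries R) : R[X][X] →+* LaurentSeries R := eval₂RingHom (zeG R) x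

theorem evG_X (x : LaurentSeries R) : evG x X = x := by simp [evG]

theorem evG_C (x : LaurentSeries R) (f : R[X]) : evG x (C f) = zeG R f := by simp [evG]

/-- the residue -/
def resG (A B : R[X][X]) (x : LaurentSeries R) : R :=
  (evG x A * thG x + evG x B * zG R).coeff 0

/-- coefficientwise map on polynomials in `x, z` -/
def pm (φ : R →+* S) : R[X][X] →+* S[X][X] := mapRingHom (mapRingHom φ)

theorem pm_X (φ : R →+* S) : pm φ X = X := by
  unfold pm
  rw [coe_mapRingHom, map_X]

theorem pm_C (φ : R →+* S) (f : R[X]) : pm φ (C f) = C (mapRingHom φ f) := by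
  unfold pm
  rw [coe_mapRingHom, map_C]

theorem lmG_evG (φ : R →+* S) (x : LaurentSeries R) (P : R[X][X]) :
    lmG φ (evG x P) = evG (lmG φ x) (pm φ P) := by
  have h : (lmG φ).comp (evG x) = (evG (lmG φ x)).comp (pm φ) := by
    apply Polynomial.ringHom_ext
    · intro f
      rw [RingHom.comp_apply, RingHom.comp_apply, evG_C, pm_C, evG_C]
      have h2 : (lmG φ).comp (zeG R) = (zeG S).comp (mapRingHom φ) := by
        apply Polynomial.ringHom_ext
        · intro a
          rw [RingHom.comp_apply, RingHom.comp_apply, zeG_C, lmG_C, coe_mapRingHom, map_C, zeG_C]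
        · rw [RingHom.comp_apply, RingHom.comp_apply, zeG_X, lmG_zG, coe_mapRingHom, map_X, zeG_X]
      exact congrArg (fun ψ => ψ f) h2
    · rw [RingHom.comp_apply, RingHom.comp_apply, evG_X, pm_X, evG_X]
  exact congrArg (fun ψ => ψ P) h

theorem resG_map (φ : R →+* S) (A B : R[X][X]) (x : LaurentSeries R) :
    φ (resG A B x) = resG (pm φ A) (pm φ B) (lmG φ x) := by
  unfold resG
  rw [← lmG_coeff, map_add, map_mul, map_mul, lmG_evG, lmG_evG, lmG_thG, lmG_zG]

theorem resid_eq {K : Type*} [Field K] (A B : K[X][X]) (v : ℕ → ℤˣ) :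
    resid A B v = resG A B (xx K v) := rfl

theorem thG_zeG (f : R[X]) : thG (zeG R f) = zeG R (derivative f) * thG (zG R) := by
  induction f using Polynomial.induction_on' with
  | add f g hf hg => rw [map_add, thG_add, hf, hg, derivative_add, map_add, add_mul]
  | monomial n a =>
    induction n with
    | zero =>
      rw [monomial_zero_left, zeG_C, thG_C, derivative_C, map_zero, zero_mul]
    | succ n ih =>
      have h1 : (monomial (n + 1) a : R[X]) = X * monomial n a := by
        rw [← C_mul_X_pow_eq_monomial, ← C_mul_X_pow_eq_monomial, pow_succ]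
        ring
      rw [h1, map_mul, thG_mul, ih, zeG_X, derivative_mul, derivative_X, map_add, map_mul, map_mul,
        zeG_X, map_one]
      ring

theorem thG_evG (x : LaurentSeries R) (P : R[X][X]) :
    thG (evG x P) = evG x (derivative P) * thG x + evG x (Dz P) * thG (zG R) := by
  induction P using Polynomial.induction_on' with
  | add f g hf hg =>
    rw [map_add, thG_add, hf, hg, derivative_add, map_add, Dz_add, map_add]
    ring
  | monomial n a =>
    induction n with
    | zero =>
      rw [monomial_zero_left, evG_C, thG_zeG, derivative_C, map_zero, Dz_C, evG_C]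
      ring
    | succ n ih =>
      have h1 : (monomial (n + 1) a : R[X][X]) = X * monomial n a := by
        rw [← C_mul_X_pow_eq_monomial, ← C_mul_X_pow_eq_monomial, pow_succ]
        ring
      rw [h1, map_mul, thG_mul, ih, evG_X, derivative_mul, derivative_X, map_add, map_mul, map_mul,
        evG_X, map_one, Dz_mul, Dz_X, map_add, map_mul, map_mul, evG_X, map_zero]
      ring

theorem dsG_zeG (f : R[X]) : dsG (zeG R[X] (mapRingHom (C : R →+* R[X]) f)) = 0 := by
  have h : zeG R[X] (mapRingHom (C : R →+* R[X]) f) = lmG C (zeG R f) := by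
    have h2 : (lmG (C : R →+* R[X])).comp (zeG R) = (zeG R[X]).comp (mapRingHom C) := by
      apply Polynomial.ringHom_ext
      · intro a
        rw [RingHom.comp_apply, RingHom.comp_apply, zeG_C, lmG_C, coe_mapRingHom, map_C, zeG_C]
      · rw [RingHom.comp_apply, RingHom.comp_apply, zeG_X, lmG_zG, coe_mapRingHom, map_X, zeG_X]
    exact (congrArg (fun ψ => ψ f) h2).symm
  rw [h, dsG_lmG]

theorem dsG_evG (x : LaurentSeries R[X]) (P : R[X][X]) :
    dsG (evG x (pm C P)) = evG x (pm C (derivative P)) * dsG x := by
  induction P using Polynomial.induction_on' with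
  | add f g hf hg =>
    rw [map_add, map_add, dsG_add, hf, hg, derivative_add, map_add, map_add]
    ring
  | monomial n a =>
    induction n with
    | zero =>
      rw [monomial_zero_left, pm_C, evG_C, dsG_zeG, derivative_C, map_zero, map_zero, zero_mul]
    | succ n ih =>
      have h1 : (monomial (n + 1) a : R[X][X]) = X * monomial n a := by
        rw [← C_mul_X_pow_eq_monomial, ← C_mul_X_pow_eq_monomial, pow_succ]
        ring
      rw [h1, map_mul, map_mul, dsG_mul, ih, pm_X, evG_X, derivative_mul, derivative_X, map_add,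
        map_add, map_mul, map_mul, map_mul, map_mul, pm_X, evG_X, map_one, map_one]
      ring

/-- **derivative of the residue along a family** -/
theorem derivative_resG (A B : R[X][X]) (x : LaurentSeries R[X]) :
    derivative (resG (pm C A) (pm C (-2 * B)) x)
      = (evG x (pm C (derivative B - Dz A)) * dsG x * (-2 * zG R[X])).coeff 0 := by
  unfold resG
  have h1 : ∀ f : LaurentSeries R[X], derivative (f.coeff 0) = (dsG f).coeff 0 := fun f => rfl
  rw [h1]
  have h2 : dsG (evG x (pm C A) * thG x + evG x (pm C (-2 * B)) * zG R[X])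
      = evG x (pm C (derivative B - Dz A)) * dsG x * (-2 * zG R[X])
        + thG (evG x (pm C A) * dsG x) := by
    have h3 : derivative (-2 * B) = -2 * derivative B := by
      have : (-2 * B : R[X][X]) = (-(2 * B)) := by ring
      rw [this, derivative_neg, derivative_two_mul]
      ring
    have h4 : Dz (pm C A : R[X][X][X]) = pm C (Dz A) := by
      ext1 a
      rw [Dz_coeff]
      unfold pm
      rw [coe_mapRingHom, coeff_map, coeff_map, Dz_coeff, coe_mapRingHom, derivative_map]
    have h5 : derivative (pm C A : R[X][X][X]) = pm C (derivative A) := by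
      unfold pm
      rw [coe_mapRingHom, derivative_map]
    rw [dsG_add, dsG_mul, dsG_mul, dsG_evG, dsG_evG, dsG_zG, dsG_thG, thG_mul, thG_evG, thG_zG,
      h3, h4, h5, map_sub, map_sub, map_mul, map_mul]
    have h6 : evG x (pm (C : R →+* R[X]) (-2)) = -2 := by
      rw [map_neg, map_neg, map_ofNat, map_ofNat]
    rw [h6]
    ring
  rw [h2, HahnSeries.coeff_add, thG_coeff_zero, add_zero]

end gen

end Dyn59
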