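import Pool.Agent.H.MP_d59dab.FlipA

/-!
# MP_d59dab: leaves over commutative rings
-/

set_option autoImplicit false

open Finset Polynomial

noncomputable section

namespace Dyn59

section gen

variable {R S : Type*} [CommRing R] [CommRing S]

/-- coefficients of the square root of `1 + t g` with constant term `e` (`2 h = 1`, `e^2 = 1`) -/
def sqc (h e : R) (g : ℕ → R) : ℕ → R
  | 0 => e
  | (k + 1) => h * e * (g k - ∑ i : Fin k, sqc h e g (i.1 + 1) * sqc h e g (k - i.1))
termination_by k => k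
decreasing_by all_goals (try have := i.2); omega

theorem sqc_zero (h e : R) (g : ℕ → R) : sqc h e g 0 = e := by rw [sqc]

theorem sqc_succ (h e : R) (g : ℕ → R) (k : ℕ) : sqc h e g (k + 1) =
    h * e * (g k - ∑ i ∈ range k, sqc h e g (i + 1) * sqc h e g (k - i)) := by
  rw [sqc, ← Fin.sum_univ_eq_sum_range (fun i => sqc h e g (i + 1) * sqc h e g (k - i))]

/-- existence of square roots -/
theorem exists_sq {h e : R} (h2 : 2 * h = 1) (he : e * e = 1) (g : PowerSeries R) :
    ∃ y : PowerSeries R, y ^ 2 = 1 + PowerSeries.X * g ∧ PowerSeries.constantCoeff y = e := by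
  refine ⟨PowerSeries.mk (sqc h e (fun k => PowerSeries.coeff k g)), ?_, ?_⟩
  · ext k
    rw [pow_two, PowerSeries.coeff_mul, map_add]
    cases k with
    | zero =>
      simp only [Nat.antidiagonal_zero, sum_singleton, PowerSeries.coeff_mk, sqc_zero, he,
        PowerSeries.coeff_one, if_true, PowerSeries.coeff_zero_X_mul, add_zero]
    | succ k =>
      rw [PowerSeries.coeff_succ_X_mul, PowerSeries.coeff_one, if_neg (Nat.succ_ne_zero k),
        zero_add]
      simp only [PowerSeries.coeff_mk]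
      set c := sqc h e (fun k => PowerSeries.coeff k g) with hc
      rw [Nat.sum_antidiagonal_eq_sum_range_succ (fun i j => c i * c j), sum_range_succ,
        sum_range_succ']
      simp only [Nat.sub_self, Nat.sub_zero]
      have h0 : c 0 = e := by rw [hc, sqc_zero]
      rw [h0]
      have h3 : ∀ i ∈ range k, c (i + 1) * c (k + 1 - (i + 1)) = c (i + 1) * c (k - i) := by
        intro i _
        rw [Nat.add_sub_add_right]
      rw [sum_congr rfl h3]
      have h4 : c (k + 1) = h * e * (PowerSeries.coeff k g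
          - ∑ i ∈ range k, c (i + 1) * c (k - i)) := by rw [hc, sqc_succ]
      linear_combination (2 * e) * h4 + (PowerSeries.coeff k g
          - ∑ i ∈ range k, c (i + 1) * c (k - i)) * (e * e * h2 + he)
  · rw [← PowerSeries.coeff_zero_eq_constantCoeff_apply, PowerSeries.coeff_mk, sqc_zero]

theorem sq_unique {h e : R} (h2 : 2 * h = 1) (he : e * e = 1) {y y' : PowerSeries R}
    (hy : y ^ 2 = y' ^ 2) (h0 : PowerSeries.constantCoeff y = e)
    (h0' : PowerSeries.constantCoeff y' = e) : y = y' := by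
  have h1 : IsUnit (y + y') := by
    rw [PowerSeries.isUnit_iff_constantCoeff, map_add, h0, h0']
    refine IsUnit.of_mul_eq_one (h * e) ?_
    linear_combination (e * e) * h2 + he
  have h3 : (y - y') * (y + y') = 0 := by linear_combination hy
  exact sub_eq_zero.1 ((h1.mul_left_eq_zero).1 h3)

/-- a leaf of depth `w` with signs `e` -/
def Leaf (e : ℕ → R) (w : ℕ) (Y : ℕ → PowerSeries R) : Prop :=
  ∀ j < w, Y j ^ 2 = 1 + PowerSeries.X * Y (j + 1) ∧ PowerSeries.constantCoeff (Y j) = e j

theorem exists_leaf {h : R} (h2 : 2 * h = 1) (w : ℕ) : ∀ (e : ℕ → R), (∀ j, e j * e j = 1) →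
    ∀ u : PowerSeries R, ∃ Y, Leaf e w Y ∧ Y w = u := by
  induction w with
  | zero => exact fun e _ u => ⟨fun _ => u, fun j hj => absurd hj (Nat.not_lt_zero j), rfl⟩
  | succ w ih =>
    intro e he u
    obtain ⟨Y, hY, hYu⟩ := ih (fun j => e (j + 1)) (fun j => he _) u
    obtain ⟨y, hy1, hy2⟩ := exists_sq h2 (he 0) (Y 0)
    refine ⟨fun j => Nat.casesOn j y Y, ?_, hYu⟩
    intro j hj
    cases j with
    | zero => exact ⟨hy1, hy2⟩
    | succ j => exact hY j (by omega)

theorem Leaf.unique {h : R} (h2 : 2 * h = 1) {e : ℕ → R} (he : ∀ j, e j * e j = 1) {w : ℕ}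
    {Y Y' : ℕ → PowerSeries R} (hY : Leaf e w Y) (hY' : Leaf e w Y') (hw : Y w = Y' w) :
    Y 0 = Y' 0 := by
  have h1 : ∀ k ≤ w, Y (w - k) = Y' (w - k) := by
    intro k
    induction k with
    | zero => intro _; rwa [Nat.sub_zero]
    | succ k ih =>
      intro hk
      have h3 := ih (by omega)
      have h4 : w - (k + 1) + 1 = w - k := by omega
      have h5 := hY (w - (k + 1)) (by omega)
      have h6 := hY' (w - (k + 1)) (by omega)
      rw [h4] at h5 h6
      refine sq_unique h2 (he _) ?_ h5.2 h6.2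
      rw [h5.1, h6.1, h3]
  have := h1 w le_rfl
  rwa [Nat.sub_self] at this

theorem Leaf.map (φ : R →+* S) {e : ℕ → R} {w : ℕ} {Y : ℕ → PowerSeries R} (hY : Leaf e w Y) :
    Leaf (fun j => φ (e j)) w (fun j => PowerSeries.map φ (Y j)) := by
  intro j hj
  obtain ⟨h1, h2⟩ := hY j hj
  constructor
  · rw [← map_pow, h1, map_add, map_one, map_mul, PowerSeries.map_X]
  · rw [← PowerSeries.coeff_zero_eq_constantCoeff_apply, PowerSeries.coeff_map,
      PowerSeries.coeff_zero_eq_constantCoeff_apply, h2]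

/-! ### the leaves of words over a ring with `2 h = 1` -/

/-- coefficients of the leaf -/
def cfG (h : R) : ℕ → (ℕ → ℤˣ) → R
  | 0, v => ((v 0 : ℤ) : R)
  | (k + 1), v => h * ((v 0 : ℤ) : R) *
      (cfG h k (sh v) - ∑ i : Fin k, cfG h (i.1 + 1) v * cfG h (k - i.1) v)
termination_by k => k
decreasing_by all_goals (try have := i.2); omega

theorem cfG_zero (h : R) (v : ℕ → ℤˣ) : cfG h 0 v = ((v 0 : ℤ) : R) := by rw [cfG]

theorem cfG_succ (h : R) (k : ℕ) (v : ℕ → ℤˣ) : cfG h (k + 1) v = h * ((v 0 : ℤ) : R) *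
      (cfG h k (sh v) - ∑ i ∈ range k, cfG h (i + 1) v * cfG h (k - i) v) := by
  rw [cfG, ← Fin.sum_univ_eq_sum_range (fun i => cfG h (i + 1) v * cfG h (k - i) v)]

theorem sgnG_sq (u : ℤˣ) : ((u : ℤ) : R) * ((u : ℤ) : R) = 1 := by
  rw [← Int.cast_mul, ← Units.val_mul, Int.units_mul_self, Units.val_one, Int.cast_one]

/-- the power series `y_v` -/
def yG (h : R) (v : ℕ → ℤˣ) : PowerSeries R := PowerSeries.mk (fun k => cfG h k v)

theorem yG_coeff (h : R) (v : ℕ → ℤˣ) (k : ℕ) : PowerSeries.coeff k (yG h v) = cfG h k v := by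
  rw [yG, PowerSeries.coeff_mk]

theorem yG_const (h : R) (v : ℕ → ℤˣ) : PowerSeries.constantCoeff (yG h v) = ((v 0 : ℤ) : R) := by
  rw [← PowerSeries.coeff_zero_eq_constantCoeff_apply, yG_coeff, cfG_zero]

theorem yG_sq {h : R} (h2 : 2 * h = 1) (v : ℕ → ℤˣ) :
    yG h v ^ 2 = 1 + PowerSeries.X * yG h (sh v) := by
  ext k
  rw [pow_two, PowerSeries.coeff_mul, map_add]
  cases k with
  | zero =>
    simp only [Nat.antidiagonal_zero, sum_singleton, yG_coeff, cfG_zero, sgnG_sq,
      PowerSeries.coeff_one, if_true, PowerSeries.coeff_zero_X_mul, add_zero]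
  | succ k =>
    rw [PowerSeries.coeff_succ_X_mul, PowerSeries.coeff_one, if_neg (Nat.succ_ne_zero k), zero_add,
      yG_coeff]
    simp only [yG_coeff]
    rw [Nat.sum_antidiagonal_eq_sum_range_succ (fun i j => cfG h i v * cfG h j v), sum_range_succ,
      sum_range_succ']
    simp only [Nat.sub_self, Nat.sub_zero, cfG_zero]
    have h3 : ∀ i ∈ range k, cfG h (i + 1) v * cfG h (k + 1 - (i + 1)) v
        = cfG h (i + 1) v * cfG h (k - i) v := by
      intro i _
      rw [Nat.add_sub_add_right]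
    rw [sum_congr rfl h3]
    have h4 := cfG_succ h k v
    have he := sgnG_sq (R := R) (v 0)
    linear_combination (2 * ((v 0 : ℤ) : R)) * h4 + (cfG h k (sh v)
      - ∑ i ∈ range k, cfG h (i + 1) v * cfG h (k - i) v)
        * (((v 0 : ℤ) : R) * ((v 0 : ℤ) : R) * h2 + he)

theorem map_cfG (φ : R →+* S) (h : R) (j : ℕ) : ∀ v : ℕ → ℤˣ,
    φ (cfG h j v) = cfG (φ h) j v := by
  induction j using Nat.strong_induction_on with
  | _ j ih =>
    intro v
    cases j with
    | zero => rw [cfG_zero, cfG_zero, map_intCast]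
    | succ j =>
      rw [cfG_succ, cfG_succ, map_mul, map_mul, map_intCast, map_sub, map_sum, ih j (by omega)]
      congr 2
      apply sum_congr rfl
      intro i hi
      rw [mem_range] at hi
      rw [map_mul, ih (i + 1) (by omega), ih (j - i) (by omega)]

theorem cfG_field {K : Type*} [Field K] {h : K} (h2 : 2 * h = 1) (j : ℕ) : ∀ v : ℕ → ℤˣ,
    cfG h j v = cf K j v := by
  have hh : h = (2 : K)⁻¹ := by
    have h20 : (2 : K) ≠ 0 := left_ne_zero_of_mul_eq_one h2
    field_simp
    linear_combination h2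
  subst hh
  induction j using Nat.strong_induction_on with
  | _ j ih =>
    intro v
    cases j with
    | zero => rw [cfG_zero, cf_zero]
    | succ j =>
      rw [cfG_succ, cf_succ, ih j (by omega), mul_inv]
      have h3 : (((v 0 : ℤ) : K))⁻¹ = ((v 0 : ℤ) : K) := by
        rw [inv_eq_iff_eq_inv]
        exact eq_inv_of_mul_eq_one_left (sgn_sq _)
      rw [h3]
      congr 2
      apply sum_congr rfl
      intro i hi
      rw [mem_range] at hi
      rw [ih (i + 1) (by omega), ih (j - i) (by omega)]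

theorem leaf_yG {h : R} (h2 : 2 * h = 1) (v : ℕ → ℤˣ) (w : ℕ) :
    Leaf (fun j => ((v j : ℤ) : R)) w (fun j => yG h (sh^[j] v)) := by
  intro j _
  constructor
  · change yG h (sh^[j] v) ^ 2 = 1 + PowerSeries.X * yG h (sh^[j + 1] v)
    rw [yG_sq h2, Function.iterate_succ_apply']
  · rw [yG_const]
    congr 2
    have hs : ∀ (k : ℕ) (u : ℕ → ℤˣ), (sh^[k] u) 0 = u k := by
      intro k
      induction k with
      | zero => intro u; rfl
      | succ k ih =>
        intro u
        rw [Function.iterate_succ_apply, ih]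
        rfl
    exact hs j v

/-! ### shifted power series -/

/-- `t^n f` -/
def tm (f : PowerSeries R) (n : ℤ) : LaurentSeries R :=
  HahnSeries.single n (1 : R) * HahnSeries.ofPowerSeries ℤ R f

theorem tm_mul (f g : PowerSeries R) (m n : ℤ) : tm f m * tm g n = tm (f * g) (m + n) := by
  unfold tm
  rw [map_mul]
  have h : HahnSeries.single (m + n) (1 : R)
      = HahnSeries.single m (1 : R) * HahnSeries.single n (1 : R) := by
    rw [HahnSeries.single_mul_single, one_mul]
  rw [h]
  ring

theorem tm_add (f g : PowerSeries R) (n : ℤ) : tm f n + tm g n = tm (f + g) n := by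
  unfold tm
  rw [map_add, mul_add]

theorem tm_one : tm (1 : PowerSeries R) 0 = 1 := by
  unfold tm
  rw [map_one (HahnSeries.ofPowerSeries ℤ R), mul_one, HahnSeries.single_zero_one]

theorem tm_X (f : PowerSeries R) (n : ℤ) : tm (PowerSeries.X * f) n = tm f (n + 1) := by
  have h1 : tm (PowerSeries.X : PowerSeries R) 0 = tm 1 1 := by
    unfold tm
    rw [HahnSeries.ofPowerSeries_X, map_one (HahnSeries.ofPowerSeries ℤ R), mul_one,
      HahnSeries.single_mul_single]
    norm_num
  have h3 : tm (PowerSeries.X * f) n = tm (PowerSeries.X : PowerSeries R) 0 * tm f n := by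
    rw [tm_mul, zero_add]
  rw [h3, h1, tm_mul, one_mul, add_comm]

theorem tm_coeff_nat (f : PowerSeries R) (n : ℕ) : (tm f (-(n : ℤ))).coeff 0
    = PowerSeries.coeff n f := by
  unfold tm
  have h : (0 : ℤ) = (n : ℤ) + (-(n : ℤ)) := by ring
  rw [h, HahnSeries.coeff_single_mul_add, one_mul]
  exact HahnSeries.ofPowerSeries_apply_coeff (Γ := ℤ) f n

theorem tm_coeff_pos (f : PowerSeries R) {n : ℤ} (hn : 0 < n) : (tm f n).coeff 0 = 0 := by
  unfold tm
  have h : (0 : ℤ) = (-n) + n := by ring
  rw [h, HahnSeries.coeff_single_mul_add, one_mul, HahnSeries.ofPowerSeries_apply]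
  apply HahnSeries.embDomain_of_notMem_range
  rintro ⟨k, hk⟩
  simp at hk
  omega

theorem zG_eq : zG R = tm (-1) (-2) := by
  unfold zG tm
  rw [map_neg, map_one (HahnSeries.ofPowerSeries ℤ R)]
  ring

theorem tm_pow (f : PowerSeries R) (n : ℤ) (k : ℕ) : tm f n ^ k = tm (f ^ k) (n * k) := by
  induction k with
  | zero => rw [pow_zero, pow_zero, Nat.cast_zero, mul_zero, tm_one]
  | succ k ih =>
    rw [pow_succ, ih, tm_mul, pow_succ]
    congr 1
    push_cast
    ring

theorem ofPS_coeff_neg (g : PowerSeries R) {m : ℤ} (hm : m < 0) :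
    (HahnSeries.ofPowerSeries ℤ R g).coeff m = 0 := by
  rw [HahnSeries.ofPowerSeries_apply]
  apply HahnSeries.embDomain_of_notMem_range
  rintro ⟨k, hk⟩
  simp at hk
  omega

theorem lmG_tm (φ : R →+* S) (f : PowerSeries R) (n : ℤ) :
    lmG φ (tm f n) = tm (PowerSeries.map φ f) n := by
  unfold tm
  rw [map_mul, lmG_single, map_one]
  congr 1
  ext m
  rw [lmG_coeff]
  rcases lt_or_ge m 0 with hm | hm
  · rw [ofPS_coeff_neg _ hm, ofPS_coeff_neg _ hm, map_zero]
  · obtain ⟨k, rfl⟩ := Int.eq_ofNat_of_zero_le hm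
    have h1 := HahnSeries.ofPowerSeries_apply_coeff (Γ := ℤ) f k
    have h3 := HahnSeries.ofPowerSeries_apply_coeff (Γ := ℤ) (PowerSeries.map φ f) k
    rw [PowerSeries.coeff_map] at h3
    exact (congrArg φ h1).trans h3.symm

end gen

end Dyn59
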