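import Pool.Agent.H.MP_d59dab.Final
import Pool.Agent.H.MP_d59dab.Rel

/-!
# MP_d59dab: the residue functions of polynomial 1-forms decide irreducibility

`StarE K`: every character `[J]`, `0 ∈ J`, `#J ≥ 4` even, of the space of sign words is, up to a
combination of the characters `[{0,e}]`, the residue function of a polynomial 1-form.
Main result: `StarE K` implies that all dynatomic polynomials are irreducible over `K`.
-/

set_option autoImplicit false

open Finset Polynomial

noncomputable section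

namespace Dyn59

variable {K : Type*} [Field K]

/-- The statement (*E). -/
def StarE (K : Type*) [Field K] : Prop :=
  ∀ J : Finset ℕ, 0 ∈ J → Even #J → 4 ≤ #J → ∃ (A B : K[X][X]) (c : ℕ → K) (N : ℕ),
    ∀ v : ℕ → ℤˣ, resid A B v = sg K (∏ j ∈ J, v j) - ∑ e ∈ Icc 1 N, c e * sg K (v 0 * v e)

theorem starE_ext (h : StarE K) (J : Finset ℕ) (h0 : 0 ∈ J) (hJ : Even #J) :
    ∃ (A B : K[X][X]) (c : ℕ → K) (N : ℕ),
    ∀ v : ℕ → ℤˣ, resid A B v = sg K (∏ j ∈ J, v j) - ∑ e ∈ Icc 1 N, c e * sg K (v 0 * v e) := by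
  by_cases h4 : 4 ≤ #J
  · exact h J h0 hJ h4
  · have h1 : 1 ≤ #J := card_pos.2 ⟨0, h0⟩
    have h2 : #J = 2 := by
      obtain ⟨k, hk⟩ := hJ
      omega
    have h3 : #(J.erase 0) = 1 := by rw [card_erase_of_mem h0, h2]
    obtain ⟨e, he⟩ := card_eq_one.1 h3
    have hJe : J = insert 0 {e} := by rw [← he, insert_erase h0]
    have he0 : 0 ∉ ({e} : Finset ℕ) := by rw [← he]; exact notMem_erase 0 J
    have he1 : e ≠ 0 := fun h => he0 (by rw [h]; exact mem_singleton_self 0)
    refine ⟨0, 0, fun i => if i = e then 1 else 0, e, fun v => ?_⟩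
    rw [hJe, prod_insert he0, prod_singleton, sum_eq_single e]
    · simp [resid, ev]
    · intro b _ hb
      simp only [if_neg hb, zero_mul]
    · intro hne
      exact absurd (mem_Icc.2 ⟨by omega, le_rfl⟩) hne

theorem triv_pair {d e : ℕ} (he : e ≠ 0) : Triv d {0, e} ↔ d ∣ e := by
  have hne : (0 : ℕ) ∉ ({e} : Finset ℕ) := by
    rw [mem_singleton]; exact fun h => he h.symm
  constructor
  · intro h
    by_contra hcon
    have h1 := h (ind d 0) (ind_periodic d 0)
    rw [prod_insert hne, prod_singleton, ind_self, ind_of_not] at h1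
    · exact absurd h1 (by decide)
    · intro h3
      exact hcon ((Nat.modEq_zero_iff_dvd).1 h3)
  · rintro ⟨k, rfl⟩ w hw
    have := periodic_mul hw k 0
    rw [zero_add] at this
    rw [prod_insert hne, prod_singleton, this, Int.units_mul_self]

open Classical in
/-- character sums over the periodic words -/
theorem sum_W (h2 : (2 : K) ≠ 0) {d : ℕ} (hd : 0 < d) (J : Finset ℕ) :
    ∑ w ∈ W d, sg K (∏ j ∈ J, w j) = if Triv d J then (2 : K) ^ d else 0 := by
  split_ifs with h
  · have h1 : ∀ w ∈ W d, sg K (∏ j ∈ J, w j) = 1 := fun w hw => by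
      rw [h w ((mem_W hd).1 hw), map_one]
    rw [sum_congr rfl h1]
    simp [card_W hd]
  · unfold Triv at h
    push Not at h
    obtain ⟨u, hu, hu1⟩ := h
    have hsu : sg K (∏ j ∈ J, u j) = -1 := sg_cases _ hu1
    have h1 : ∑ w ∈ W d, sg K (∏ j ∈ J, w j) = ∑ w ∈ W d, - sg K (∏ j ∈ J, w j) := by
      have hmem : ∀ w ∈ W d, u * w ∈ W d := by
        intro w hw
        rw [mem_W hd] at hw ⊢
        intro i
        simp only [Pi.mul_apply, hu i, hw i]
      have huu : ∀ w : ℕ → ℤˣ, u * (u * w) = w := by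
        intro w
        funext i
        simp only [Pi.mul_apply, ← mul_assoc, Int.units_mul_self, one_mul]
      refine sum_bij' (fun w _ => u * w) (fun w _ => u * w) hmem hmem (fun w _ => huu w)
        (fun w _ => huu w) ?_
      intro w _
      simp only [Pi.mul_apply, prod_mul_distrib, map_mul, hsu]
      ring
    rw [sum_neg_distrib] at h1
    have h5 : (2 : K) * ∑ w ∈ W d, sg K (∏ j ∈ J, w j) = 0 := by
      rw [two_mul]
      nth_rewrite 1 [h1]
      ring
    exact (mul_eq_zero.1 h5).resolve_left h2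

/-- `J` containing `0` and another element is not trivial modulo large `d` -/
theorem not_triv_of_lt {d N : ℕ} {J : Finset ℕ} (h0 : 0 ∈ J) (hJN : ∀ j ∈ J, j ≤ N)
    (hd : N < d) : ¬ Triv d J := by
  intro h
  have h1 := h (ind d 0) (ind_periodic d 0)
  rw [← mul_prod_erase J _ h0, ind_self] at h1
  have h3 : ∏ y ∈ J.erase 0, ind d 0 y = 1 := by
    apply prod_eq_one
    intro y hy
    rw [mem_erase] at hy
    apply ind_of_not
    intro h4
    apply hy.1
    rw [Nat.modEq_zero_iff_dvd] at h4
    exact Nat.eq_zero_of_dvd_of_lt h4 (lt_of_le_of_lt (hJN y hy.2) hd)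
  rw [h3] at h1
  exact absurd h1 (by decide)

section main

variable {n : ℕ} [NeZero n]

/-- the word defined by a function on `ZMod n` -/
def wd (u : ZMod n → ℤˣ) : ℕ → ℤˣ := fun i => u (i : ZMod n)

theorem wd_mem (u : ZMod n → ℤˣ) : wd u ∈ W n := by
  rw [mem_W (NeZero.pos n)]
  intro i
  simp [wd]

theorem wd_surj {w : ℕ → ℤˣ} (hw : w ∈ W n) : ∃ u : ZMod n → ℤˣ, wd u = w := by
  rw [mem_W (NeZero.pos n)] at hw
  refine ⟨fun x => w x.val, ?_⟩
  funext i
  simp only [wd, ZMod.val_natCast]
  exact periodic_mod hw i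

theorem wd_inj : Function.Injective (wd : (ZMod n → ℤˣ) → (ℕ → ℤˣ)) := by
  intro u u' h
  funext x
  have := congrFun h x.val
  simpa [wd] using this

open Classical in
/-- the root set of a factor is a union of exact period classes -/
theorem union_classes (h2 : (2 : K) ≠ 0) (hS : StarE K) {P : K[X][X]} (hP : P.Monic)
    {A : Finset (ℕ → ℤˣ)} (hA : P.map (zeta K) = ∏ w ∈ A, (X - C (xx K w))) (hAW : A ⊆ W n)
    (w w' : ℕ → ℤˣ) (hw : w ∈ Wx n) (hw' : w' ∈ Wx n) : w ∈ A ↔ w' ∈ A := by
  have hn : 0 < n := NeZero.pos n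
  let Cs : Finset (ZMod n → ℤˣ) := univ.filter (fun u => wd u ∈ A)
  have hCs : ∀ u, u ∈ Cs ↔ wd u ∈ A := fun u => by simp [Cs]
  have hneg : ∀ u ∈ Cs, -u ∈ Cs := by
    intro u hu
    rw [hCs] at hu ⊢
    exact neg_mem h2 hA hu
  have hsumC : ∀ J : Finset ℕ, ∑ u ∈ Cs, sg K (∏ j ∈ J, u (j : ZMod n))
      = ∑ w ∈ A, sg K (∏ j ∈ J, w j) := by
    intro J
    refine sum_bij (fun u _ => wd u) (fun u hu => (hCs u).1 hu) (fun u _ u' _ h => wd_inj h) ?_
      (fun u _ => rfl)
    intro w hw
    obtain ⟨u, rfl⟩ := wd_surj (hAW hw)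
    exact ⟨u, (hCs u).2 hw, rfl⟩
  -- pair sums
  let φ : ℕ → K := fun e => ∑ w ∈ A, sg K (w 0 * w e)
  let β : ℕ → K := fun d => ∑ x ∈ d.divisorsAntidiagonal,
    ((ArithmeticFunction.moebius x.1 : ℤ) : K) * φ x.2
  have hβ : ∀ m > 0, ∑ i ∈ m.divisors, β i = φ m :=
    (ArithmeticFunction.sum_eq_iff_sum_mul_moebius_eq (f := β) (g := φ)).2 (fun m _ => rfl)
  have hH : ∀ N : ℕ, ∃ β : ℕ → K, ∀ J : Finset ℕ, (∀ j ∈ J, j ≤ N) → 0 ∈ J → Even #J →
      ∑ u ∈ Cs, sg K (∏ j ∈ J, u (j : ZMod n)) = ∑ d ∈ Icc 1 N, if Triv d J then β d else 0 := by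
    intro N0
    refine ⟨β, fun J hJN h0 hJ => ?_⟩
    rw [hsumC]
    obtain ⟨F, G, c, N, hres⟩ := starE_ext hS J h0 hJ
    -- relation for A
    have hrel : ∀ (Q : K[X][X]) (B : Finset (ℕ → ℤˣ)), Q.Monic →
        Q.map (zeta K) = ∏ w ∈ B, (X - C (xx K w)) →
        ∑ w ∈ B, sg K (∏ j ∈ J, w j) = ∑ e ∈ Icc 1 N, c e * ∑ w ∈ B, sg K (w 0 * w e) := by
      intro Q B hQ hB
      have h3 := basic_relation h2 hQ hB F G
      simp only [hres] at h3
      rw [sum_sub_distrib, sub_eq_zero, sum_comm] at h3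
      rw [h3]
      apply sum_congr rfl
      intro e _
      rw [mul_sum]
    have hrA := hrel P A hP hA
    have hrW : ∀ d, 0 < d → (if Triv d J then (1 : K) else 0)
        = ∑ e ∈ Icc 1 N, c e * (if d ∣ e then 1 else 0) := by
      intro d hd
      have h3 := hrel (FF K d) (W d) (FF_monic hd).1 (FF_factor h2 hd)
      rw [sum_W h2 hd] at h3
      have h4 : ∀ e ∈ Icc 1 N, c e * ∑ w ∈ W d, sg K (w 0 * w e)
          = (2 : K) ^ d * (c e * (if d ∣ e then 1 else 0)) := by
        intro e he
        rw [mem_Icc] at he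
        have h5 : ∑ w ∈ W d, sg K (w 0 * w e) = ∑ w ∈ W d, sg K (∏ j ∈ ({0, e} : Finset ℕ), w j) := by
          apply sum_congr rfl
          intro w _
          rw [prod_pair (by omega)]
        rw [h5, sum_W h2 hd]
        simp only [triv_pair (show e ≠ 0 by omega)]
        split_ifs <;> ring
      rw [sum_congr rfl h4, ← mul_sum] at h3
      have h6 : (2 : K) ^ d ≠ 0 := pow_ne_zero _ h2
      apply mul_left_cancel₀ h6
      rw [← h3]
      split_ifs <;> ring
    rw [hrA]
    -- expand the pair sums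
    have h7 : ∀ e ∈ Icc 1 N, c e * ∑ w ∈ A, sg K (w 0 * w e)
        = ∑ d ∈ Icc 1 (max N N0), c e * ((if d ∣ e then 1 else 0) * β d) := by
      intro e he
      rw [mem_Icc] at he
      have h8 : ∑ w ∈ A, sg K (w 0 * w e) = φ e := rfl
      rw [h8, ← hβ e (by omega), ← mul_sum]
      congr 1
      have h9 : e.divisors = (Icc 1 (max N N0)).filter (fun d => d ∣ e) := by
        ext d
        rw [Nat.mem_divisors, mem_filter, mem_Icc]
        constructor
        · rintro ⟨h10, h11⟩
          exact ⟨⟨Nat.pos_of_dvd_of_pos h10 (by omega),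
            (Nat.le_of_dvd (by omega) h10).trans (he.2.trans (le_max_left _ _))⟩, h10⟩
        · rintro ⟨-, h10⟩
          exact ⟨h10, by omega⟩
      rw [h9, sum_filter]
      apply sum_congr rfl
      intro d _
      split_ifs <;> ring
    rw [sum_congr rfl h7, sum_comm]
    have h12 : ∀ d ∈ Icc 1 (max N N0), ∑ e ∈ Icc 1 N, c e * ((if d ∣ e then 1 else 0) * β d)
        = if Triv d J then β d else 0 := by
      intro d hd
      rw [mem_Icc] at hd
      have h13 := hrW d (by omega)
      have h14 : ∑ e ∈ Icc 1 N, c e * ((if d ∣ e then 1 else 0) * β d)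
          = (∑ e ∈ Icc 1 N, c e * (if d ∣ e then 1 else 0)) * β d := by
        rw [sum_mul]
        apply sum_congr rfl
        intro e _
        ring
      rw [h14, ← h13]
      split_ifs <;> ring
    rw [sum_congr rfl h12]
    symm
    apply sum_subset (Icc_subset_Icc_right (le_max_right _ _))
    intro d hd hd'
    rw [mem_Icc] at hd hd'
    rw [if_neg (not_triv_of_lt h0 hJN (by omega))]
  obtain ⟨u, rfl⟩ := wd_surj (n := n) (filter_subset _ _ hw)
  obtain ⟨u', rfl⟩ := wd_surj (n := n) (filter_subset _ _ hw')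
  have key := final_step h2 Cs hneg hH u u' ?_
  · rw [hCs, hCs] at key
    exact key
  · have hper : ∀ (x : ZMod n → ℤˣ), wd x ∈ Wx n → ∀ d, d ∣ n →
        ((∀ i, x (i + (d : ZMod n)) = x i) ↔ n ∣ d) := by
      intro x hx d hdn
      rw [mem_Wx hn] at hx
      have h15 : (∀ i, x (i + (d : ZMod n)) = x i) ↔ ∀ i : ℕ, wd x (i + d) = wd x i := by
        constructor
        · intro h i
          simp only [wd, Nat.cast_add]
          exact h _
        · intro h i
          have := h i.val
          simpa [wd] using this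
      rw [h15, ← isPeriodicPt_iff, Function.isPeriodicPt_iff_minimalPeriod_dvd, hx]
    intro d hd
    rw [hper u hw d hd, hper u' hw' d hd]

end main

theorem Wx_nonempty {n : ℕ} (hn : 0 < n) : (Wx n).Nonempty := by
  refine ⟨ind n 0, ?_⟩
  rw [mem_Wx hn]
  apply Nat.dvd_antisymm
  · rw [← Function.isPeriodicPt_iff_minimalPeriod_dvd, isPeriodicPt_iff]
    exact ind_periodic n 0
  · have h1 : Function.IsPeriodicPt sh (Function.minimalPeriod sh (ind n 0)) (ind n 0) :=
      Function.isPeriodicPt_minimalPeriod _ _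
    rw [isPeriodicPt_iff] at h1
    have h2 := h1 0
    rw [zero_add, ind_self] at h2
    by_contra hcon
    rw [ind_of_not] at h2
    · exact absurd h2 (by decide)
    · intro h3
      exact hcon ((Nat.modEq_zero_iff_dvd).1 h3)

theorem Phi_monic (h2 : (2 : K) ≠ 0) {n : ℕ} (hn : 0 < n) : (Phi K n).Monic := by
  have h1 : ((Phi K n).map (zeta K)).Monic := by
    rw [Phi_factor h2 hn]
    exact Psi_monic n
  exact monic_of_injective zeta_injective h1

open Classical in
/-- a monic factor of the dynatomic polynomial corresponds to a set of words -/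
theorem exists_root_set (h2 : (2 : K) ≠ 0) {n : ℕ} {P : K[X][X]} (hP : P.Monic)
    (hdvd : P.map (zeta K) ∣ Psi K n) :
    ∃ A ⊆ Wx n, P.map (zeta K) = ∏ w ∈ A, (X - C (xx K w)) := by
  have hPm : (P.map (zeta K)).Monic := hP.map _
  have hsplit : (Psi K n).Splits := by
    unfold Psi
    exact Splits.prod (fun w _ => Splits.X_sub_C _)
  have hs : (P.map (zeta K)).Splits := hsplit.of_dvd (Psi_monic n).ne_zero hdvd
  refine ⟨(Wx n).filter (fun w => (P.map (zeta K)).IsRoot (xx K w)), filter_subset _ _, ?_⟩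
  have hroots : (P.map (zeta K)).roots ≤ (Psi K n).roots :=
    roots.le_of_dvd (Psi_monic n).ne_zero hdvd
  have hPsi : (Psi K n).roots = (Wx n).val.map (xx K) := by
    unfold Psi
    rw [roots_prod _ _ (Psi_monic n).ne_zero]
    simp only [roots_X_sub_C]
    rw [Multiset.bind_singleton]
  have hnodup : (P.map (zeta K)).roots.Nodup := by
    apply Multiset.nodup_of_le hroots
    rw [hPsi]
    exact (Multiset.nodup_map_iff_of_injective (xx_injective h2)).2 (Wx n).nodup
  have hval : (P.map (zeta K)).roots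
      = ((Wx n).filter (fun w => (P.map (zeta K)).IsRoot (xx K w))).val.map (xx K) := by
    apply (Multiset.Nodup.ext hnodup ((Multiset.nodup_map_iff_of_injective
      (xx_injective h2)).2 (Finset.nodup _))).2
    intro a
    rw [mem_roots hPm.ne_zero, Multiset.mem_map]
    constructor
    · intro ha
      have h3 : a ∈ (Psi K n).roots := Multiset.mem_of_le hroots ((mem_roots hPm.ne_zero).2 ha)
      rw [hPsi, Multiset.mem_map] at h3
      obtain ⟨w, hw, rfl⟩ := h3
      exact ⟨w, mem_filter.2 ⟨hw, ha⟩, rfl⟩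
    · rintro ⟨w, hw, rfl⟩
      exact (mem_filter.1 hw).2
  have h4 := hs.eq_prod_roots_of_monic hPm
  have h5 : ((P.map (zeta K)).roots.map (fun x => X - C x)).prod
      = ((((Wx n).filter (fun w => (P.map (zeta K)).IsRoot (xx K w))).val.map (xx K)).map
        (fun x => X - C x)).prod := by
    rw [hval]
  rw [Multiset.map_map] at h5
  exact h4.trans h5

/-- **Main theorem of the reduction.** -/
theorem irreducible_Phi (h2 : (2 : K) ≠ 0) (hS : StarE K) {n : ℕ} (hn : 0 < n) :
    Irreducible (Phi K n) := by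
  have : NeZero n := ⟨hn.ne'⟩
  have hm := Phi_monic h2 hn
  have hfac := Phi_factor h2 hn
  rw [hm.irreducible_iff_natDegree]
  constructor
  · intro h1
    rw [h1, Polynomial.map_one] at hfac
    obtain ⟨w, hw⟩ := Wx_nonempty hn
    have h3 : (Psi K n).eval (xx K w) = 0 := by
      rw [Psi, eval_prod]
      exact prod_eq_zero hw (by simp)
    rw [← hfac, eval_one] at h3
    exact one_ne_zero h3
  · intro f g hf hg hfg
    have hdvd : f.map (zeta K) ∣ Psi K n := by
      rw [← hfac, ← hfg, Polynomial.map_mul]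
      exact dvd_mul_right _ _
    obtain ⟨A, hAW, hA⟩ := exists_root_set h2 hf hdvd
    have hall := union_classes (n := n) h2 hS hf hA (hAW.trans (filter_subset _ _))
    have hdegf : f.natDegree = #A := by
      rw [← hf.natDegree_map (zeta K), hA, natDegree_prod_of_monic _ _
        (fun w _ => monic_X_sub_C _)]
      simp
    have hdeg : f.natDegree + g.natDegree = #(Wx n) := by
      rw [← hf.natDegree_mul hg, hfg, ← hm.natDegree_map (zeta K), hfac, Psi,
        natDegree_prod_of_monic _ _ (fun w _ => monic_X_sub_C _)]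
      simp
    rcases A.eq_empty_or_nonempty with h | ⟨w, hw⟩
    · left
      rw [hdegf, h, card_empty]
    · right
      have hA' : A = Wx n := by
        apply Subset.antisymm hAW
        intro w' hw'
        exact (hall w w' (hAW hw) hw').1 hw
      rw [hdegf, hA'] at hdeg
      omega

end Dyn59
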