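import Pool.Agent.H.MP_d59dab.FlipDefs
import Pool.Agent.H.MP_d59dab.Main

/-!
# MP_d59dab: `StarE` from the one-step reductions `RedJ`
-/

set_option autoImplicit false

open Finset Polynomial

noncomputable section

namespace Dyn59

namespace FlipC

variable {K : Type*} [Field K]

/-! ### residues: linearity and symmetry -/

theorem ev_add (P Q : K[X][X]) (v : ℕ → ℤˣ) : ev (P + Q) v = ev P v + ev Q v := by
  unfold ev
  rw [eval₂_add]

theorem ev_CC (a : K) (P : K[X][X]) (v : ℕ → ℤˣ) :
    ev (C (C a) * P) v = HahnSeries.C a * ev P v := by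
  unfold ev
  rw [eval₂_mul, eval₂_C, zeta_C]

theorem resid_add (A B A' B' : K[X][X]) (v : ℕ → ℤˣ) :
    resid (A + A') (B + B') v = resid A B v + resid A' B' v := by
  unfold resid
  rw [ev_add, ev_add, ← HahnSeries.coeff_add]
  congr 1
  ring

theorem resid_CC (a : K) (A B : K[X][X]) (v : ℕ → ℤˣ) :
    resid (C (C a) * A) (C (C a) * B) v = a * resid A B v := by
  unfold resid
  rw [ev_CC, ev_CC]
  have h : HahnSeries.C a * ev A v * theta (xx K v) + HahnSeries.C a * ev B v * zz K
      = a • (ev A v * theta (xx K v) + ev B v * zz K) := by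
    rw [← HahnSeries.C_mul_eq_smul]
    ring
  rw [h, HahnSeries.coeff_smul, smul_eq_mul]

theorem tau_theta (f : LaurentSeries K) : tau K (theta f) = theta (tau K f) := by
  ext n
  rw [tau_coeff, theta_coeff, theta_coeff, tau_coeff]
  ring

theorem tau_ev (P : K[X][X]) (v : ℕ → ℤˣ) : tau K (ev P v) = ev P (-v) := by
  unfold ev
  induction P using Polynomial.induction_on' with
  | add p q hp hq => rw [eval₂_add, map_add, hp, hq, eval₂_add]
  | monomial i a =>
    rw [eval₂_monomial, eval₂_monomial, map_mul, map_pow, tau_zeta, tau_xx]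

theorem resid_neg (A B : K[X][X]) (v : ℕ → ℤˣ) : resid A B (-v) = resid A B v := by
  unfold resid
  rw [← tau_ev, ← tau_ev, ← tau_xx, ← tau_theta]
  have h : tau K (ev A v) * tau K (theta (xx K v)) + tau K (ev B v) * zz K
      = tau K (ev A v * theta (xx K v) + ev B v * zz K) := by
    rw [map_add, map_mul, map_mul, tau_zz]
  rw [h, tau_coeff, zpow_zero, one_mul]

/-! ### the space of good functions -/

/-- functions which are residue functions up to the characters of the pairs `{0, e}` -/
def Good (K : Type*) [Field K] : Submodule K ((ℕ → ℤˣ) → K) where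
  carrier := {g | ∃ (A B : K[X][X]) (c : ℕ →₀ K),
    ∀ v, g v = resid A B v + c.sum (fun e a => a * sg K (v 0 * v (e + 1)))}
  zero_mem' := by
    refine ⟨0, 0, 0, fun v => ?_⟩
    simp [resid, ev]
  add_mem' := by
    rintro g g' ⟨A, B, c, h⟩ ⟨A', B', c', h'⟩
    refine ⟨A + A', B + B', c + c', fun v => ?_⟩
    rw [Pi.add_apply, h, h', resid_add, Finsupp.sum_add_index']
    · ring
    · intro e
      rw [zero_mul]
    · intro e a b
      rw [add_mul]
  smul_mem' := by
    rintro a g ⟨A, B, c, h⟩
    refine ⟨C (C a) * A, C (C a) * B, a • c, fun v => ?_⟩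
    rw [Pi.smul_apply, h, resid_CC, Finsupp.sum_smul_index']
    · rw [smul_eq_mul, mul_add, Finsupp.mul_sum]
      congr 1
      apply Finsupp.sum_congr
      intro e _
      rw [smul_eq_mul]
      ring
    · intro e
      rw [zero_mul]

theorem mem_Good {g : (ℕ → ℤˣ) → K} : g ∈ Good K ↔ ∃ (A B : K[X][X]) (c : ℕ →₀ K),
    ∀ v, g v = resid A B v + c.sum (fun e a => a * sg K (v 0 * v (e + 1))) := Iff.rfl

/-- the character of `J` -/
def chi (K : Type*) [Field K] (J : Finset ℕ) : (ℕ → ℤˣ) → K := fun v => sg K (∏ j ∈ J, v j)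

theorem resid_mem (A B : K[X][X]) : (fun v => resid A B v) ∈ Good K := by
  refine ⟨A, B, 0, fun v => ?_⟩
  rw [Finsupp.sum_zero_index, add_zero]

theorem pair_mem (e : ℕ) : chi K {0, e + 1} ∈ Good K := by
  refine ⟨0, 0, Finsupp.single e 1, fun v => ?_⟩
  have h0 : (0 : ℕ) ∉ ({e + 1} : Finset ℕ) := by
    rw [mem_singleton]
    omega
  have h1 : resid (0 : K[X][X]) 0 v = 0 := by
    simp [resid, ev]
  rw [h1, zero_add, Finsupp.sum_single_index, one_mul]
  · unfold chi
    rw [prod_insert h0, prod_singleton]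
  · rw [zero_mul]

/-! ### Fourier expansion -/

/-- a function which depends only on `v j`, `j < w`, is a combination of characters -/
theorem mem_span_chi (h2 : (2 : K) ≠ 0) (w : ℕ) : ∀ D : (ℕ → ℤˣ) → K,
    (∀ v v' : ℕ → ℤˣ, (∀ j < w, v j = v' j) → D v = D v') →
    D ∈ Submodule.span K {g | ∃ J : Finset ℕ, J ⊆ range w ∧ g = chi K J} := by
  induction w with
  | zero =>
    intro D hD
    have h : D = D 1 • chi K ∅ := by
      funext v
      rw [Pi.smul_apply, chi, prod_empty, map_one, smul_eq_mul, mul_one]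
      exact hD v 1 (fun j hj => absurd hj (Nat.not_lt_zero j))
    rw [h]
    apply Submodule.smul_mem
    apply Submodule.subset_span
    exact ⟨∅, empty_subset _, rfl⟩
  | succ w ih =>
    intro D hD
    set Dp : (ℕ → ℤˣ) → K := fun v => D (Function.update v w 1) with hDp
    set Dm : (ℕ → ℤˣ) → K := fun v => D (Function.update v w (-1)) with hDm
    have hup : ∀ (u : ℤˣ) (v v' : ℕ → ℤˣ), (∀ j < w, v j = v' j) →
        D (Function.update v w u) = D (Function.update v' w u) := by
      intro u v v' hv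
      apply hD
      intro j hj
      by_cases hjw : j = w
      · rw [hjw, Function.update_self, Function.update_self]
      · rw [Function.update_of_ne hjw, Function.update_of_ne hjw]
        exact hv j (by omega)
    have h1 := ih (Dp + Dm) (fun v v' hv => by
      rw [Pi.add_apply, Pi.add_apply, hDp, hDm]
      simp only
      rw [hup 1 v v' hv, hup (-1) v v' hv])
    have h3 := ih (Dp - Dm) (fun v v' hv => by
      rw [Pi.sub_apply, Pi.sub_apply, hDp, hDm]
      simp only
      rw [hup 1 v v' hv, hup (-1) v v' hv])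
    have hchi : ∀ v, chi K {w} v = sg K (v w) := by
      intro v
      rw [chi, prod_singleton]
    have hkey : D = (2 : K)⁻¹ • ((Dp + Dm) + chi K {w} * (Dp - Dm)) := by
      funext v
      rw [Pi.smul_apply, Pi.add_apply, Pi.add_apply, Pi.mul_apply, Pi.sub_apply, hchi, smul_eq_mul,
        eq_inv_mul_iff_mul_eq₀ h2]
      rcases Int.units_eq_one_or (v w) with h | h
      · have h4 : Dp v = D v := by
          rw [hDp]
          simp only
          rw [← h, Function.update_eq_self]
        rw [h, map_one, h4]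
        ring
      · have h4 : Dm v = D v := by
          rw [hDm]
          simp only
          rw [← h, Function.update_eq_self]
        rw [h, sg_neg_one, h4]
        ring
    rw [hkey]
    apply Submodule.smul_mem
    apply Submodule.add_mem
    · refine Submodule.span_mono ?_ h1
      rintro g ⟨J, hJ, rfl⟩
      exact ⟨J, hJ.trans (range_mono (Nat.le_succ w)), rfl⟩
    · refine Submodule.span_induction (p := fun g _ => chi K {w} * g ∈
        Submodule.span K {g | ∃ J : Finset ℕ, J ⊆ range (w + 1) ∧ g = chi K J}) ?_ ?_ ?_ ?_ h3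
      · rintro g ⟨J, hJ, rfl⟩
        apply Submodule.subset_span
        have hw : w ∉ J := fun h => by
          have := hJ h
          rw [mem_range] at this
          exact lt_irrefl w this
        refine ⟨insert w J, ?_, ?_⟩
        · rw [range_add_one]
          exact insert_subset_insert w hJ
        · funext v
          rw [Pi.mul_apply, hchi, chi, chi, prod_insert hw, map_mul]
      · rw [mul_zero]
        exact Submodule.zero_mem _
      · intro x y _ _ hx hy
        rw [mul_add]
        exact Submodule.add_mem _ hx hy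
      · intro a x _ hx
        rw [mul_smul_comm]
        exact Submodule.smul_mem _ a hx

/-- flip of the first sign -/
def fl (v : ℕ → ℤˣ) : ℕ → ℤˣ := Function.update v 0 (- v 0)

theorem fl_zero (v : ℕ → ℤˣ) : fl v 0 = - v 0 := by
  unfold fl
  rw [Function.update_self]

theorem fl_succ (v : ℕ → ℤˣ) (j : ℕ) : fl v (j + 1) = v (j + 1) := by
  unfold fl
  rw [Function.update_of_ne (by omega)]

theorem chi_neg (J : Finset ℕ) (v : ℕ → ℤˣ) : chi K J (-v) = (-1) ^ #J * chi K J v := by
  unfold chi
  have h : ∏ j ∈ J, (-v) j = (-1) ^ #J * ∏ j ∈ J, v j := by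
    have h1 : ∀ j, (-v) j = (-1) * v j := by
      intro j
      rw [Pi.neg_apply, neg_one_mul]
    simp only [h1]
    rw [prod_mul_distrib, prod_const]
  rw [h, map_mul, map_pow, sg_neg_one]

theorem chi_fl_mem {J : Finset ℕ} (h0 : 0 ∈ J) (v : ℕ → ℤˣ) : chi K J (fl v) = - chi K J v := by
  unfold chi
  rw [← mul_prod_erase J (fl v) h0, ← mul_prod_erase J v h0, fl_zero, neg_mul, sg_neg]
  congr 3
  apply prod_congr rfl
  intro j hj
  obtain ⟨i, rfl⟩ := Nat.exists_eq_succ_of_ne_zero (ne_of_mem_erase hj)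
  exact fl_succ v i

theorem chi_fl_notMem {J : Finset ℕ} (h0 : 0 ∉ J) (v : ℕ → ℤˣ) : chi K J (fl v) = chi K J v := by
  unfold chi
  congr 1
  apply prod_congr rfl
  intro j hj
  have hj0 : j ≠ 0 := fun h => h0 (h ▸ hj)
  obtain ⟨i, rfl⟩ := Nat.exists_eq_succ_of_ne_zero hj0
  exact fl_succ v i

/-- `4` times the projection onto the functions odd in `v 0` and even under `v ↦ -v` -/
def pr (D : (ℕ → ℤˣ) → K) : (ℕ → ℤˣ) → K :=
  fun v => D v - D (fl v) + D (-v) - D (-(fl v))

theorem pr_chi (V : Submodule K ((ℕ → ℤˣ) → K)) (J : Finset ℕ)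
    (h : 0 ∈ J → Even #J → chi K J ∈ V) : pr (chi K J) ∈ V := by
  by_cases h0 : 0 ∈ J
  · rcases Nat.even_or_odd #J with hJ | hJ
    · have h1 : pr (chi K J) = (4 : K) • chi K J := by
        funext v
        rw [pr, chi_neg, chi_neg, chi_fl_mem h0, hJ.neg_one_pow, Pi.smul_apply, smul_eq_mul]
        ring
      rw [h1]
      exact V.smul_mem _ (h h0 hJ)
    · have h1 : pr (chi K J) = 0 := by
        funext v
        rw [pr, chi_neg, chi_neg, chi_fl_mem h0, hJ.neg_one_pow, Pi.zero_apply]
        ring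
      rw [h1]
      exact V.zero_mem
  · have h1 : pr (chi K J) = 0 := by
      funext v
      rw [pr, chi_neg, chi_neg, chi_fl_notMem h0, Pi.zero_apply]
      ring
    rw [h1]
    exact V.zero_mem

theorem pr_mem (V : Submodule K ((ℕ → ℤˣ) → K)) (w : ℕ)
    (h : ∀ J : Finset ℕ, J ⊆ range w → 0 ∈ J → Even #J → chi K J ∈ V) (D : (ℕ → ℤˣ) → K)
    (hD : D ∈ Submodule.span K {g | ∃ J : Finset ℕ, J ⊆ range w ∧ g = chi K J}) :
    pr D ∈ V := by
  refine Submodule.span_induction (p := fun g _ => pr g ∈ V) ?_ ?_ ?_ ?_ hD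
  · rintro g ⟨J, hJ, rfl⟩
    exact pr_chi V J (h J hJ)
  · have h1 : pr (0 : (ℕ → ℤˣ) → K) = 0 := by
      funext v
      simp [pr]
    rw [h1]
    exact V.zero_mem
  · intro x y _ _ hx hy
    have h1 : pr (x + y) = pr x + pr y := by
      funext v
      simp only [pr, Pi.add_apply]
      ring
    rw [h1]
    exact V.add_mem hx hy
  · intro a x _ hx
    have h1 : pr (a • x) = a • pr x := by
      funext v
      simp only [pr, Pi.smul_apply, smul_eq_mul]
      ring
    rw [h1]
    exact V.smul_mem a hx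

/-! ### the induction -/

theorem chi_mem (h2 : (2 : K) ≠ 0)
    (h : ∀ (w : ℕ) (J : Finset ℕ), 0 ∈ J → w ∈ J → (∀ j ∈ J, j ≤ w) → Even #J → 4 ≤ #J →
      RedJ K w J) (w : ℕ) :
    ∀ J : Finset ℕ, J ⊆ range w → 0 ∈ J → Even #J → chi K J ∈ Good K := by
  induction w with
  | zero =>
    intro J hJ h0
    have := hJ h0
    rw [mem_range] at this
    exact absurd this (Nat.not_lt_zero 0)
  | succ w ih =>
    intro J hJ h0 hev
    by_cases hw : w ∈ J
    swap
    · apply ih J _ h0 hev
      intro j hj
      have h1 := hJ hj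
      rw [mem_range] at h1 ⊢
      rcases Nat.lt_succ_iff_lt_or_eq.1 h1 with h3 | h3
      · exact h3
      · exact absurd (h3 ▸ hj) hw
    by_cases h4 : 4 ≤ #J
    swap
    · have h1 : 1 ≤ #J := card_pos.2 ⟨0, h0⟩
      have h3 : #J = 2 := by
        obtain ⟨k, hk⟩ := hev
        omega
      have h5 : #(J.erase 0) = 1 := by rw [card_erase_of_mem h0, h3]
      obtain ⟨e, he⟩ := card_eq_one.1 h5
      have hJe : J = insert 0 {e} := by rw [← he, insert_erase h0]
      have he0 : 0 ∉ ({e} : Finset ℕ) := by rw [← he]; exact notMem_erase 0 J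
      have he1 : e ≠ 0 := fun h => he0 (by rw [h]; exact mem_singleton_self 0)
      obtain ⟨i, rfl⟩ := Nat.exists_eq_succ_of_ne_zero he1
      rw [hJe]
      exact pair_mem i
    obtain ⟨A, B, c, hc, hdep, hodd⟩ := h w J h0 hw
      (fun j hj => Nat.lt_succ_iff.1 (mem_range.1 (hJ hj))) hev h4
    set D : (ℕ → ℤˣ) → K := fun v => resid A B v - c * sg K (∏ j ∈ J, v j) with hDdef
    have hDchi : ∀ v, D v = resid A B v - c * chi K J v := fun v => rfl
    have hDfl : ∀ v, D (fl v) = - D v := by
      intro v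
      rw [hDchi, hDchi, chi_fl_mem h0, hodd v (fl v) (fl_zero v) (fl_succ v)]
      ring
    have hDneg : ∀ v, D (-v) = D v := by
      intro v
      rw [hDchi, hDchi, chi_neg, hev.neg_one_pow, resid_neg, one_mul]
    have hspan := mem_span_chi h2 w D hdep
    have hpr := pr_mem (Good K) w ih D hspan
    have h44 : (4 : K) ≠ 0 := by
      have : (4 : K) = 2 * 2 := by norm_num
      rw [this]
      exact mul_ne_zero h2 h2
    have hprD : pr D = (4 : K) • D := by
      funext v
      rw [pr, hDneg, hDneg, hDfl, Pi.smul_apply, smul_eq_mul]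
      ring
    rw [hprD] at hpr
    have hD : D ∈ Good K := by
      have := (Good K).smul_mem (4 : K)⁻¹ hpr
      rwa [smul_smul, inv_mul_cancel₀ h44, one_smul] at this
    have hfin : chi K J = c⁻¹ • ((fun v => resid A B v) - D) := by
      funext v
      rw [Pi.smul_apply, Pi.sub_apply, hDchi, smul_eq_mul, sub_sub_cancel, inv_mul_cancel_left₀ hc]
    rw [hfin]
    exact (Good K).smul_mem _ ((Good K).sub_mem (resid_mem A B) hD)

end FlipC

open FlipC in
/-- `StarE` follows from the one-step reductions. -/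
theorem starE_of_red {K : Type*} [Field K] (h2 : (2 : K) ≠ 0)
    (h : ∀ (w : ℕ) (J : Finset ℕ), 0 ∈ J → w ∈ J → (∀ j ∈ J, j ≤ w) → Even #J → 4 ≤ #J →
      RedJ K w J) : StarE K := by
  intro J h0 hJ _
  obtain ⟨A, B, c, hc⟩ := chi_mem h2 h (J.sup id + 1) J (fun j hj => by
    rw [mem_range]
    exact Nat.lt_succ_of_le (le_sup (f := id) hj)) h0 hJ
  obtain ⟨N, hN⟩ := exists_nat_subset_range c.support
  refine ⟨A, B, fun e => c (e - 1), N, fun v => ?_⟩
  have h1 := hc v
  rw [chi] at h1
  rw [h1]
  have h3 : ∑ e ∈ Icc 1 N, c (e - 1) * sg K (v 0 * v e)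
      = c.sum (fun e a => a * sg K (v 0 * v (e + 1))) := by
    have h6 : c.sum (fun e a => a * sg K (v 0 * v (e + 1)))
        = ∑ e ∈ range N, c e * sg K (v 0 * v (e + 1)) :=
      Finsupp.sum_of_support_subset c hN (fun e a => a * sg K (v 0 * v (e + 1)))
        (fun e _ => zero_mul _)
    rw [h6]
    have h5 : Icc 1 N = Ico (0 + 1) (N + 1) := by
      ext x
      simp only [mem_Icc, mem_Ico]
      omega
    rw [h5, ← sum_Ico_add' (fun e => c (e - 1) * sg K (v 0 * v e)) 0 N 1, range_eq_Ico]
    apply sum_congr rfl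
    intro e _
    rw [Nat.add_sub_cancel]
  rw [h3]
  ring

end Dyn59
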