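import Pool.Agent.H.MP_d59dab.FlipB

/-!
# MP_d59dab: the derivative of the residue along the segment between two terminals
-/

set_option autoImplicit false

open Finset Polynomial

noncomputable section

namespace Dyn59

section gen

variable {R : Type*} [CommRing R]

/-- a family of leaves interpolating the terminals `u'` (at `s = 0`) and `u` (at `s = 1`) -/
structure Fam (h : R) (e : ℕ → R) (w : ℕ) (u u' : PowerSeries R)
    (Y : ℕ → PowerSeries R[X]) : Prop where
  h2 : 2 * h = 1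
  he : ∀ j, e j * e j = 1
  leaf : Leaf (fun j => (C (e j) : R[X])) w Y
  term : Y w = PowerSeries.map C u' + PowerSeries.C (X : R[X]) *
    (PowerSeries.map C u - PowerSeries.map C u')

theorem exists_fam {h : R} (h2 : 2 * h = 1) {e : ℕ → R} (he : ∀ j, e j * e j = 1) (w : ℕ)
    (u u' : PowerSeries R) : ∃ Y, Fam h e w u u' Y := by
  have h3 : (2 : R[X]) * C h = 1 := by
    have : (2 : R[X]) = C 2 := (map_ofNat C 2).symm
    rw [this, ← C_mul, h2, C_1]
  obtain ⟨Y, hY, hu⟩ := exists_leaf h3 w (fun j => (C (e j) : R[X]))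
    (fun j => by rw [← C_mul, he, C_1]) (PowerSeries.map C u' + PowerSeries.C (X : R[X]) *
    (PowerSeries.map C u - PowerSeries.map C u'))
  exact ⟨Y, h2, he, hY, hu⟩

theorem tm_C_mul (a : R) (f : PowerSeries R) (n : ℤ) :
    tm (PowerSeries.C a * f) n = HahnSeries.C a * tm f n := by
  unfold tm
  rw [map_mul, HahnSeries.ofPowerSeries_C]
  ring

theorem tm_prod (S : Finset ℕ) (Y : ℕ → PowerSeries R) :
    ∏ j ∈ S, tm (Y j) (-1) = tm (∏ j ∈ S, Y j) (-(#S : ℤ)) := by
  induction S using Finset.induction_on with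
  | empty => rw [prod_empty, prod_empty, card_empty, Nat.cast_zero, neg_zero, tm_one]
  | insert a S ha ih =>
    rw [prod_insert ha, ih, tm_mul, prod_insert ha, card_insert_of_notMem ha]
    congr 1
    push_cast
    ring

theorem pm_C_xi (j : ℕ) : pm (C : R →+* R[X]) (xi R j) = xi R[X] j := by
  induction j with
  | zero => rw [xi_zero, xi_zero, pm_X]
  | succ j ih =>
    have h3 : xi R (j + 1) = xi R j ^ 2 + C X := by rw [xi_sq]; ring
    have h4 : xi R[X] (j + 1) = xi R[X] j ^ 2 + C X := by rw [xi_sq]; ring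
    rw [h3, h4, map_add, map_pow, ih, pm_C, coe_mapRingHom, map_X]

theorem pm_C_mo (S : Finset ℕ) (l : ℕ) : pm (C : R →+* R[X]) (mo R S l) = mo R[X] S l := by
  unfold mo xS
  rw [map_mul, map_prod, pm_C, coe_mapRingHom, Polynomial.map_pow, map_X]
  congr 1
  exact prod_congr rfl (fun j _ => pm_C_xi j)

section fam

variable {h : R} {e : ℕ → R} {w : ℕ} {u u' : PowerSeries R} {Y : ℕ → PowerSeries R[X]}
  (F : Fam h e w u u' Y)

/-- the difference of the terminals -/
def dl (u u' : PowerSeries R) : PowerSeries R[X] := PowerSeries.map C u - PowerSeries.map C u'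

include F

theorem Fam.sq_add {j : ℕ} (hj : j < w) :
    tm (Y j) (-1) ^ 2 + zG R[X] = tm (Y (j + 1)) (-1) := by
  rw [tm_pow, (F.leaf j hj).1, zG_eq]
  have h1 : ((-1 : ℤ) * ((2 : ℕ) : ℤ)) = -2 := by norm_num
  rw [h1, tm_add]
  have h3 : (1 + PowerSeries.X * Y (j + 1) + -1 : PowerSeries R[X]) = PowerSeries.X * Y (j + 1) := by
    ring
  rw [h3, tm_X]
  norm_num

theorem Fam.evG_xi {j : ℕ} (hj : j ≤ w) : evG (tm (Y 0) (-1)) (xi R[X] j) = tm (Y j) (-1) := by
  induction j with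
  | zero => rw [xi_zero, evG_X]
  | succ j ih =>
    have h1 : xi R[X] (j + 1) = xi R[X] j ^ 2 + C X := by rw [xi_sq]; ring
    rw [h1, map_add, map_pow, ih (by omega), evG_C, zeG_X, F.sq_add (by omega)]

theorem Fam.dsG_step {j : ℕ} (hj : j < w) :
    dsG (tm (Y (j + 1)) (-1)) = 2 * tm (Y j) (-1) * dsG (tm (Y j) (-1)) := by
  rw [← F.sq_add hj, dsG_add, dsG_zG, pow_two, dsG_mul]
  ring

theorem Fam.dsG_iter {k : ℕ} (hk : k ≤ w) :
    dsG (tm (Y k) (-1)) = (2 ^ k * ∏ j ∈ range k, tm (Y j) (-1)) * dsG (tm (Y 0) (-1)) := by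
  induction k with
  | zero => simp
  | succ k ih =>
    rw [F.dsG_step (by omega), ih (by omega), prod_range_succ, pow_succ]
    ring

theorem Fam.dsG_term : dsG (tm (Y w) (-1)) = tm (dl u u') (-1) := by
  rw [F.term, ← tm_add, tm_C_mul, ← lmG_tm, dsG_add, dsG_lmG, dsG_mul, ← dl]
  have h1 : dsG (HahnSeries.C (X : R[X])) = 1 := by
    ext1
    funext n
    rw [dsG_coeff, HahnSeries.C_apply, HahnSeries.coeff_one]
    by_cases h : n = 0
    · rw [h, HahnSeries.coeff_single_same, derivative_X, if_pos rfl]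
    · rw [HahnSeries.coeff_single_of_ne h, derivative_zero, if_neg h]
  have h2 : dsG (tm (dl u u') (-1)) = 0 := by
    unfold dl
    rw [← map_sub, ← lmG_tm, dsG_lmG]
  rw [h1, h2]
  ring

theorem Fam.const {j : ℕ} (hj : j < w) : PowerSeries.constantCoeff (Y j) = C (e j) :=
  (F.leaf j hj).2

/-- the inverse of `2^w ∏ Y_j` -/
theorem Fam.exists_inv : ∃ V : PowerSeries R[X], (2 ^ w * ∏ j ∈ range w, Y j) * V = 1 ∧
    PowerSeries.constantCoeff V = C (h ^ w * ∏ j ∈ range w, e j) := by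
  have h0 : PowerSeries.constantCoeff (2 ^ w * ∏ j ∈ range w, Y j)
      = C (2 ^ w * ∏ j ∈ range w, e j) := by
    rw [map_mul, map_pow, map_ofNat, map_prod, map_mul, map_pow, map_ofNat, map_prod]
    congr 1
    apply prod_congr rfl
    intro j hj
    exact F.const (mem_range.1 hj)
  have h1 : (2 ^ w * ∏ j ∈ range w, e j) * (h ^ w * ∏ j ∈ range w, e j) = 1 := by
    have h3 : (∏ j ∈ range w, e j) * (∏ j ∈ range w, e j) = 1 := by
      rw [← prod_mul_distrib]
      exact prod_eq_one (fun j _ => F.he j)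
    have h4 : (2 : R) ^ w * h ^ w = 1 := by rw [← mul_pow, F.h2, one_pow]
    linear_combination (∏ j ∈ range w, e j) * (∏ j ∈ range w, e j) * h4 + h3
  have h5 : IsUnit (2 ^ w * ∏ j ∈ range w, Y j) := by
    rw [PowerSeries.isUnit_iff_constantCoeff, h0]
    refine IsUnit.of_mul_eq_one (C (h ^ w * ∏ j ∈ range w, e j)) ?_
    rw [← C_mul, h1, C_1]
  obtain ⟨V, hV⟩ := h5.exists_right_inv
  refine ⟨V, hV, ?_⟩
  have h6 := congrArg PowerSeries.constantCoeff hV
  rw [map_mul, h0, map_one] at h6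
  have h7 : (C (h ^ w * ∏ j ∈ range w, e j) : R[X]) * C (2 ^ w * ∏ j ∈ range w, e j) = 1 := by
    rw [← C_mul, mul_comm, h1, C_1]
  calc PowerSeries.constantCoeff V
      = (C (h ^ w * ∏ j ∈ range w, e j) * C (2 ^ w * ∏ j ∈ range w, e j))
          * PowerSeries.constantCoeff V := by rw [h7, one_mul]
    _ = C (h ^ w * ∏ j ∈ range w, e j) * (C (2 ^ w * ∏ j ∈ range w, e j)
          * PowerSeries.constantCoeff V) := by ring
    _ = _ := by rw [h6, mul_one]

theorem Fam.dsG_x {V : PowerSeries R[X]} (hV : (2 ^ w * ∏ j ∈ range w, Y j) * V = 1) :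
    dsG (tm (Y 0) (-1)) = tm (V * dl u u') ((w : ℤ) - 1) := by
  have h1 := F.dsG_iter le_rfl
  rw [F.dsG_term, tm_prod, card_range] at h1
  have h3 : (2 : LaurentSeries R[X]) ^ w * tm (∏ j ∈ range w, Y j) (-(w : ℤ))
      = tm (2 ^ w * ∏ j ∈ range w, Y j) (-(w : ℤ)) := by
    have h4 : (2 : LaurentSeries R[X]) ^ w = tm (2 ^ w) 0 := by
      have h5 : (2 : LaurentSeries R[X]) = tm 2 0 := by
        have h6 : (2 : LaurentSeries R[X]) = 1 + 1 := by norm_num
        have h7 : (2 : PowerSeries R[X]) = 1 + 1 := by norm_num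
        rw [h6, h7, ← tm_add, tm_one]
      rw [h5, tm_pow, zero_mul]
    rw [h4, tm_mul, zero_add]
  rw [h3] at h1
  have h4 := congrArg (fun f => tm V (w : ℤ) * f) h1
  rw [← mul_assoc, tm_mul, tm_mul, mul_comm V (2 ^ w * _), hV, add_neg_cancel, tm_one,
    one_mul] at h4
  rw [← h4]
  rfl

theorem Fam.evG_mo {S : Finset ℕ} (hS : ∀ j ∈ S, j ≤ w) (l : ℕ) :
    evG (tm (Y 0) (-1)) (mo R[X] S l)
      = tm ((-1) ^ l * ∏ j ∈ S, Y j) (-(#S : ℤ) - 2 * l) := by
  unfold mo xS
  rw [map_mul, map_prod, evG_C, map_pow, zeG_X, prod_congr rfl (fun j hj => F.evG_xi (hS j hj)),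
    tm_prod, zG_eq, tm_pow, tm_mul]
  congr 1
  ring

end fam

/-- the function `GG` -/
def GG (x : LaurentSeries R[X]) (f : R[X][X]) : R[X] :=
  (evG x (pm C f) * dsG x * (-2 * zG R[X])).coeff 0

theorem GG_add (x : LaurentSeries R[X]) (f g : R[X][X]) : GG x (f + g) = GG x f + GG x g := by
  unfold GG
  rw [map_add, map_add, add_mul, add_mul, HahnSeries.coeff_add]

theorem GG_zero (x : LaurentSeries R[X]) : GG x (0 : R[X][X]) = 0 := by
  unfold GG
  rw [map_zero, map_zero, zero_mul, zero_mul, HahnSeries.coeff_zero]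

theorem GG_smul (x : LaurentSeries R[X]) (c : R) (f : R[X][X]) :
    GG x (c • f) = C c * GG x f := by
  unfold GG
  have h1 : pm (C : R →+* R[X]) (c • f) = C (C (C c)) * pm C f := by
    rw [Algebra.smul_def, map_mul]
    congr 1
    have : (algebraMap R R[X][X]) c = C (C c) := rfl
    rw [this, pm_C, coe_mapRingHom, map_C]
  rw [h1, map_mul, evG_C, zeG_C, mul_assoc, mul_assoc, HahnSeries.C_mul_eq_smul,
    HahnSeries.coeff_smul, smul_eq_mul, mul_assoc]

end gen

end Dyn59
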