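import Pool.Agent.H.MP_d59dab.Final
import Pool.Agent.H.MP_d59dab.Rel

/-!
# MP_d59dab: the one-step reduction `RedJ`
-/

set_option autoImplicit false

open Finset Polynomial

noncomputable section

namespace Dyn59

/-- There is a polynomial 1-form whose residue is, up to a unit, the character of `J`, modulo
functions of the signs `v j`, `j < w`; moreover it is odd in `v 0`. -/
def RedJ (K : Type*) [Field K] (w : ℕ) (J : Finset ℕ) : Prop :=
  ∃ (A B : K[X][X]) (c : K), c ≠ 0 ∧
    (∀ v v' : ℕ → ℤˣ, (∀ j < w, v j = v' j) →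
      resid A B v - c * sg K (∏ j ∈ J, v j) = resid A B v' - c * sg K (∏ j ∈ J, v' j)) ∧
    (∀ v v' : ℕ → ℤˣ, v' 0 = - v 0 → (∀ j, v' (j + 1) = v (j + 1)) →
      resid A B v' = - resid A B v)

end Dyn59
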