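import Pool.Agent.H.MP_d59dab.FlipD

/-!
# MP_d59dab: the values of `GG` on the basis
-/

set_option autoImplicit false
set_option maxHeartbeats 400000

open Finset Polynomial

noncomputable section

namespace Dyn59

theorem lam_of_le {w : ℕ} {S : Finset ℕ} (hS : ∀ j ∈ S, j ≤ w) (l : ℕ) :
    lam w S l = #S + 2 * l + 3 - w := by
  unfold lam
  rw [filter_true_of_mem hS, filter_false_of_mem (fun j hj => not_lt.2 (hS j hj)), sum_empty]
  ring

section gen

variable {R : Type*} [CommRing R]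

/-! ### first two coefficients -/

/-- constant term `a`, the `t`-coefficient is of degree at most one in `s`, with leading
coefficient `a b` -/
def LDG (f : PowerSeries R[X]) (a b : R) : Prop :=
  PowerSeries.coeff 0 f = C a ∧ (PowerSeries.coeff 1 f).natDegree ≤ 1 ∧
    (PowerSeries.coeff 1 f).coeff 1 = a * b

theorem coeff_one_mul' (f g : PowerSeries R[X]) : PowerSeries.coeff 1 (f * g)
    = PowerSeries.coeff 0 f * PowerSeries.coeff 1 g
      + PowerSeries.coeff 1 f * PowerSeries.coeff 0 g := by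
  rw [PowerSeries.coeff_mul]
  have : antidiagonal 1 = {(0, 1), (1, 0)} := rfl
  rw [this, sum_pair (by decide)]

theorem coeff_zero_mul' (f g : PowerSeries R[X]) : PowerSeries.coeff 0 (f * g)
    = PowerSeries.coeff 0 f * PowerSeries.coeff 0 g := by
  rw [PowerSeries.coeff_mul]
  have : antidiagonal 0 = {(0, 0)} := rfl
  rw [this, sum_singleton]

theorem LDG.mul {f g : PowerSeries R[X]} {a b c d : R} (hf : LDG f a b) (hg : LDG g c d) :
    LDG (f * g) (a * c) (b + d) := by
  obtain ⟨h1, h2, h3⟩ := hf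
  obtain ⟨h4, h5, h6⟩ := hg
  refine ⟨?_, ?_, ?_⟩
  · rw [coeff_zero_mul', h1, h4, C_mul]
  · rw [coeff_one_mul', h1, h4]
    refine natDegree_add_le_of_degree_le ?_ ?_
    · exact (natDegree_C_mul_le _ _).trans h5
    · exact (natDegree_mul_C_le _ _).trans h2
  · rw [coeff_one_mul', h1, h4, coeff_add, coeff_C_mul, coeff_mul_C, h3, h6]
    ring

theorem LDG.const (c : R) : LDG (PowerSeries.C (C c)) c 0 := by
  refine ⟨?_, ?_, ?_⟩
  · rw [PowerSeries.coeff_zero_eq_constantCoeff_apply, PowerSeries.constantCoeff_C]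
  · rw [PowerSeries.coeff_C, if_neg (by norm_num), natDegree_zero]
    exact Nat.zero_le 1
  · rw [PowerSeries.coeff_C, if_neg (by norm_num), coeff_zero, mul_zero]

theorem LDG.one : LDG (1 : PowerSeries R[X]) 1 0 := by
  have := LDG.const (1 : R)
  rwa [C_1, map_one] at this

theorem LDG.prod {S : Finset ℕ} {Y : ℕ → PowerSeries R[X]} {a b : ℕ → R}
    (h : ∀ j ∈ S, LDG (Y j) (a j) (b j)) :
    LDG (∏ j ∈ S, Y j) (∏ j ∈ S, a j) (∑ j ∈ S, b j) := by
  induction S using Finset.induction_on with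
  | empty => rw [prod_empty, prod_empty, sum_empty]; exact LDG.one
  | insert i S hi ih =>
    rw [prod_insert hi, prod_insert hi, sum_insert hi]
    exact (h i (mem_insert_self _ _)).mul (ih (fun j hj => h j (mem_insert_of_mem hj)))

theorem LDG.inv {f g : PowerSeries R[X]} {a b a' : R} (hf : LDG f a b) (hfg : f * g = 1)
    (ha : a * a' = 1) (hg : PowerSeries.coeff 0 g = C a') : LDG g a' (-b) := by
  obtain ⟨h1, h2, h3⟩ := hf
  have h4 := congrArg (PowerSeries.coeff 1) hfg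
  rw [coeff_one_mul', PowerSeries.coeff_one, if_neg (by norm_num), h1, hg] at h4
  have ha' : (C a : R[X]) * C a' = 1 := by rw [← C_mul, ha, C_1]
  have h5 : PowerSeries.coeff 1 g = C (-(a' * a')) * PowerSeries.coeff 1 f := by
    rw [C_neg, C_mul]
    linear_combination (C a') * h4 - (PowerSeries.coeff 1 g) * ha'
  refine ⟨hg, ?_, ?_⟩
  · rw [h5]
    exact (natDegree_C_mul_le _ _).trans h2
  · rw [h5, coeff_C_mul, h3]
    linear_combination (-(a' * b)) * ha

section fam

variable {h : R} {e : ℕ → R} {w : ℕ} {u u' : PowerSeries R} {Y : ℕ → PowerSeries R[X]}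
  (F : Fam h e w u u' Y)

theorem LDG_dl : LDG (dl u u') (PowerSeries.coeff 0 u - PowerSeries.coeff 0 u') 0 := by
  unfold dl
  refine ⟨?_, ?_, ?_⟩
  · rw [map_sub, PowerSeries.coeff_map, PowerSeries.coeff_map, ← C_sub]
  · rw [map_sub, PowerSeries.coeff_map, PowerSeries.coeff_map, ← C_sub, natDegree_C]
    exact Nat.zero_le 1
  · rw [map_sub, PowerSeries.coeff_map, PowerSeries.coeff_map, ← C_sub, coeff_C,
      if_neg (by norm_num), mul_zero]

include F

theorem Fam.term_coeff (n : ℕ) : PowerSeries.coeff n (Y w)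
    = C (PowerSeries.coeff n u') + X * C (PowerSeries.coeff n u - PowerSeries.coeff n u') := by
  rw [F.term, map_add, PowerSeries.coeff_C_mul, map_sub, PowerSeries.coeff_map,
    PowerSeries.coeff_map, C_sub]

theorem Fam.term_natDegree (n : ℕ) : (PowerSeries.coeff n (Y w)).natDegree ≤ 1 := by
  rw [F.term_coeff]
  refine natDegree_add_le_of_degree_le ?_ ?_
  · rw [natDegree_C]
    exact Nat.zero_le 1
  · refine natDegree_mul_le.trans ?_
    rw [natDegree_C]
    exact (natDegree_X_le)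

theorem Fam.term_coeff_coeff (n : ℕ) : (PowerSeries.coeff n (Y w)).coeff 1
    = PowerSeries.coeff n u - PowerSeries.coeff n u' := by
  rw [F.term_coeff, coeff_add, coeff_C, if_neg (by norm_num), zero_add, coeff_X_mul, coeff_C_zero]

theorem Fam.coeff_one {j : ℕ} (hj : j < w) : PowerSeries.coeff 1 (Y j)
    = C (h * e j) * PowerSeries.coeff 0 (Y (j + 1)) := by
  have h1 := congrArg (PowerSeries.coeff 1) (F.leaf j hj).1
  rw [pow_two, coeff_one_mul', map_add, PowerSeries.coeff_one, if_neg (by norm_num), zero_add,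
    PowerSeries.coeff_succ_X_mul] at h1
  have h0 : PowerSeries.coeff 0 (Y j) = C (e j) := by
    rw [PowerSeries.coeff_zero_eq_constantCoeff_apply]
    exact F.const hj
  rw [h0] at h1
  have h2 : (2 : R[X]) * C h = 1 := by
    have : (2 : R[X]) = C 2 := (map_ofNat C 2).symm
    rw [this, ← C_mul, F.h2, C_1]
  have h3 : (C (e j) : R[X]) * C (e j) = 1 := by rw [← C_mul, F.he, C_1]
  rw [C_mul]
  linear_combination (C h * C (e j)) * h1 - (PowerSeries.coeff 1 (Y j)) * h2
    - (2 * C h * PowerSeries.coeff 1 (Y j)) * (h3)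

theorem Fam.LDG_Y {j : ℕ} (hj : j < w) : LDG (Y j) (e j)
    (if j + 1 = w then h * (PowerSeries.coeff 0 u - PowerSeries.coeff 0 u') else 0) := by
  have h0 : ∀ j < w, PowerSeries.coeff 0 (Y j) = C (e j) := by
    intro j hj
    rw [PowerSeries.coeff_zero_eq_constantCoeff_apply]
    exact F.const hj
  refine ⟨h0 j hj, ?_, ?_⟩
  · rw [F.coeff_one hj]
    refine (natDegree_C_mul_le _ _).trans ?_
    rcases Nat.lt_or_ge (j + 1) w with h1 | h1
    · rw [h0 _ h1, natDegree_C]
      exact Nat.zero_le 1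
    · have : j + 1 = w := by omega
      rw [this]
      exact F.term_natDegree 0
  · rw [F.coeff_one hj, coeff_C_mul]
    by_cases h1 : j + 1 = w
    · rw [if_pos h1, h1, F.term_coeff_coeff]
      ring
    · rw [if_neg h1, h0 _ (by omega), coeff_C, if_neg (by norm_num), mul_zero, mul_zero]

/-- the constant `κ` -/
def kap (h : R) (e : ℕ → R) (w : ℕ) (S : Finset ℕ) (l : ℕ) : R :=
  2 * (-1) ^ l * h ^ w * (∏ j ∈ S.erase w, e j) * ∏ j ∈ range w, e j

omit F in
theorem m2zG : (-2 : LaurentSeries R[X]) * zG R[X] = tm 2 (-2) := by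
  have h6 : (2 : PowerSeries R[X]) = 1 + 1 := by norm_num
  have h7 : (tm (-1) (-2) : LaurentSeries R[X]) = - tm 1 (-2) := by
    unfold tm
    rw [map_neg]
    ring
  rw [zG_eq, h6, ← tm_add, h7]
  ring

theorem Fam.GG_mo_eq {S : Finset ℕ} (hS : ∀ j ∈ S, j ≤ w) (l : ℕ) {V : PowerSeries R[X]}
    (hV : (2 ^ w * ∏ j ∈ range w, Y j) * V = 1) :
    GG (tm (Y 0) (-1)) (mo R S l)
      = (tm (PowerSeries.C (C (2 * (-1) ^ l)) * (∏ j ∈ S, Y j) * (V * dl u u'))
        (-lam w S l)).coeff 0 := by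
  unfold GG
  rw [pm_C_mo, F.evG_mo hS, F.dsG_x hV, m2zG, tm_mul, tm_mul, lam_of_le hS]
  have h8 : (PowerSeries.C (C (2 * (-1) ^ l) : R[X])) = 2 * (-1) ^ l := by
    rw [C_mul, C_pow, C_neg, C_1, map_mul, map_pow, map_neg, map_one, map_ofNat, map_ofNat]
  rw [h8]
  have e1 : -(#S : ℤ) - 2 * l + ((w : ℤ) - 1) + -2 = -(#S + 2 * l + 3 - w) := by ring
  have e2 : (-1) ^ l * (∏ j ∈ S, Y j) * (V * dl u u') * 2
      = 2 * (-1) ^ l * (∏ j ∈ S, Y j) * (V * dl u u') := by ring
  rw [e1, e2]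

theorem Fam.exists_V : ∃ V : PowerSeries R[X], (2 ^ w * ∏ j ∈ range w, Y j) * V = 1 ∧
    LDG V (h ^ w * ∏ j ∈ range w, e j)
      (-(if 0 < w then h * (PowerSeries.coeff 0 u - PowerSeries.coeff 0 u') else 0)) := by
  obtain ⟨V, hV1, hV2⟩ := F.exists_inv
  refine ⟨V, hV1, ?_⟩
  have h1 := (LDG.const ((2 : R) ^ w)).mul (LDG.prod (fun j hj => F.LDG_Y (mem_range.1 hj)))
  rw [map_pow, map_pow, map_ofNat, map_ofNat, zero_add] at h1
  have h3 : ∑ j ∈ range w, (if j + 1 = w then
      h * (PowerSeries.coeff 0 u - PowerSeries.coeff 0 u') else 0)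
      = if 0 < w then h * (PowerSeries.coeff 0 u - PowerSeries.coeff 0 u') else 0 := by
    by_cases hw : 0 < w
    · rw [if_pos hw, sum_eq_single (w - 1)]
      · rw [if_pos (by omega)]
      · intro j _ hj
        rw [if_neg (by omega)]
      · intro h4
        exact absurd (mem_range.2 (by omega)) h4
    · rw [if_neg hw]
      apply sum_eq_zero
      intro j hj
      rw [mem_range] at hj
      omega
  rw [h3] at h1
  refine h1.inv hV1 ?_ ?_
  · have h4 : (∏ j ∈ range w, e j) * (∏ j ∈ range w, e j) = 1 := by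
      rw [← prod_mul_distrib]
      exact prod_eq_one (fun j _ => F.he j)
    have h5 : (2 : R) ^ w * h ^ w = 1 := by rw [← mul_pow, F.h2, one_pow]
    linear_combination (∏ j ∈ range w, e j) * (∏ j ∈ range w, e j) * h5 + h4
  · rw [PowerSeries.coeff_zero_eq_constantCoeff_apply, hV2]

theorem Fam.GG_neg {S : Finset ℕ} (hS : ∀ j ∈ S, j ≤ w) {l : ℕ} (hl : lam w S l < 0) :
    GG (tm (Y 0) (-1)) (mo R S l) = 0 := by
  obtain ⟨V, hV, -⟩ := F.exists_V
  rw [F.GG_mo_eq hS l hV, tm_coeff_pos _ (by linarith)]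

theorem Fam.GG_nat {S : Finset ℕ} (hS : ∀ j ∈ S, j ≤ w) {l : ℕ} {n : ℕ} (hl : lam w S l = n)
    {V : PowerSeries R[X]} (hV : (2 ^ w * ∏ j ∈ range w, Y j) * V = 1) :
    GG (tm (Y 0) (-1)) (mo R S l) = PowerSeries.coeff n
      (PowerSeries.C (C (2 * (-1) ^ l)) * (∏ j ∈ S, Y j) * (V * dl u u')) := by
  rw [F.GG_mo_eq hS l hV, hl, tm_coeff_nat]

/-- the product of all factors different from `Y w` -/
theorem Fam.LDG_main {S : Finset ℕ} (hS : ∀ j ∈ S, j ≤ w) (l : ℕ) (hw : 0 < w)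
    {V : PowerSeries R[X]}
    (hV : LDG V (h ^ w * ∏ j ∈ range w, e j)
      (-(if 0 < w then h * (PowerSeries.coeff 0 u - PowerSeries.coeff 0 u') else 0))) :
    LDG (PowerSeries.C (C (2 * (-1) ^ l)) * (∏ j ∈ S.erase w, Y j) * (V * dl u u'))
      (kap h e w S l * (PowerSeries.coeff 0 u - PowerSeries.coeff 0 u'))
      (if w - 1 ∈ S then 0 else -(h * (PowerSeries.coeff 0 u - PowerSeries.coeff 0 u'))) := by
  have h1 : ∀ j ∈ S.erase w, j < w := by
    intro j hj
    rw [mem_erase] at hj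
    have := hS j hj.2
    omega
  have h3 := ((LDG.const (2 * (-1) ^ l : R)).mul (LDG.prod (fun j hj => F.LDG_Y (h1 j hj)))).mul
    (hV.mul (LDG_dl (u := u) (u' := u')))
  rw [if_pos hw] at h3
  have h4 : ∑ j ∈ S.erase w, (if j + 1 = w then
      h * (PowerSeries.coeff 0 u - PowerSeries.coeff 0 u') else 0)
      = if w - 1 ∈ S then h * (PowerSeries.coeff 0 u - PowerSeries.coeff 0 u') else 0 := by
    by_cases h5 : w - 1 ∈ S
    · rw [if_pos h5, sum_eq_single (w - 1)]
      · rw [if_pos (by omega)]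
      · intro j _ hj
        rw [if_neg (by omega)]
      · intro h6
        exact absurd (mem_erase.2 ⟨by omega, h5⟩) h6
    · rw [if_neg h5]
      apply sum_eq_zero
      intro j hj
      rw [mem_erase] at hj
      rw [if_neg]
      intro h6
      apply h5
      have : w - 1 = j := by omega
      rw [this]
      exact hj.2
  rw [h4] at h3
  convert h3 using 1
  · unfold kap
    ring
  · by_cases h5 : w - 1 ∈ S
    · rw [if_pos h5, if_pos h5]; ring
    · rw [if_neg h5, if_neg h5]; ring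

omit F in
theorem prod_eraseG {S : Finset ℕ} (hwS : w ∈ S) (l : ℕ) (V : PowerSeries R[X]) :
    PowerSeries.C (C (2 * (-1) ^ l)) * (∏ j ∈ S, Y j) * (V * dl u u')
      = (PowerSeries.C (C (2 * (-1) ^ l)) * (∏ j ∈ S.erase w, Y j) * (V * dl u u')) * Y w := by
  rw [← mul_prod_erase S Y hwS]
  ring

omit F in
theorem prod_eraseG' {S : Finset ℕ} (hwS : w ∉ S) (l : ℕ) (V : PowerSeries R[X]) :
    PowerSeries.C (C (2 * (-1) ^ l)) * (∏ j ∈ S, Y j) * (V * dl u u')
      = (PowerSeries.C (C (2 * (-1) ^ l)) * (∏ j ∈ S.erase w, Y j) * (V * dl u u')) := by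
  rw [erase_eq_of_notMem hwS]

theorem Fam.GG_zero_notMem (hw : 0 < w) {S : Finset ℕ} (hS : ∀ j ∈ S, j ≤ w) {l : ℕ}
    (hl : lam w S l = 0) (hwS : w ∉ S) : GG (tm (Y 0) (-1)) (mo R S l)
      = C (kap h e w S l * (PowerSeries.coeff 0 u - PowerSeries.coeff 0 u')) := by
  obtain ⟨V, hV, hV2⟩ := F.exists_V
  rw [F.GG_nat hS (n := 0) (by rw [hl]; rfl) hV, prod_eraseG' hwS, (F.LDG_main hS l hw hV2).1]

theorem Fam.GG_zero_mem (hw : 0 < w) {S : Finset ℕ} (hS : ∀ j ∈ S, j ≤ w) {l : ℕ}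
    (hl : lam w S l = 0) (hwS : w ∈ S) : GG (tm (Y 0) (-1)) (mo R S l)
      = C (kap h e w S l) * ((C (PowerSeries.coeff 0 u')
        + X * C (PowerSeries.coeff 0 u - PowerSeries.coeff 0 u'))
        * C (PowerSeries.coeff 0 u - PowerSeries.coeff 0 u')) := by
  obtain ⟨V, hV, hV2⟩ := F.exists_V
  rw [F.GG_nat hS (n := 0) (by rw [hl]; rfl) hV, prod_eraseG hwS, coeff_zero_mul',
    (F.LDG_main hS l hw hV2).1, F.term_coeff, C_mul]
  ring

theorem Fam.GG_one_notMem (hw : 0 < w) {S : Finset ℕ} (hS : ∀ j ∈ S, j ≤ w) {l : ℕ}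
    (hl : lam w S l = 1) (hwS : w ∉ S) : (GG (tm (Y 0) (-1)) (mo R S l)).natDegree ≤ 1 := by
  obtain ⟨V, hV, hV2⟩ := F.exists_V
  rw [F.GG_nat hS (n := 1) (by rw [hl]; rfl) hV, prod_eraseG' hwS]
  exact (F.LDG_main hS l hw hV2).2.1

theorem Fam.GG_one_mem (hw : 0 < w) {S : Finset ℕ} (hS : ∀ j ∈ S, j ≤ w) {l : ℕ}
    (hl : lam w S l = 1) (hwS : w ∈ S) : (GG (tm (Y 0) (-1)) (mo R S l)).natDegree ≤ 2 ∧
      (GG (tm (Y 0) (-1)) (mo R S l)).coeff 2
        = kap h e w S l * (PowerSeries.coeff 0 u - PowerSeries.coeff 0 u')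
          * (if w - 1 ∈ S then 0 else -(h * (PowerSeries.coeff 0 u - PowerSeries.coeff 0 u')))
          * (PowerSeries.coeff 0 u - PowerSeries.coeff 0 u') := by
  obtain ⟨V, hV, hV2⟩ := F.exists_V
  obtain ⟨h1, h3, h4⟩ := F.LDG_main hS l hw hV2
  rw [F.GG_nat hS (n := 1) (by rw [hl]; rfl) hV, prod_eraseG hwS, coeff_one_mul', h1]
  constructor
  · refine natDegree_add_le_of_degree_le ?_ ?_
    · refine (natDegree_C_mul_le _ _).trans ?_
      have := F.term_natDegree 1
      omega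
    · refine natDegree_mul_le.trans ?_
      have := F.term_natDegree 0
      omega
  · rw [coeff_add, coeff_C_mul]
    have h5 : (PowerSeries.coeff 1 (Y w)).coeff 2 = 0 := by
      apply coeff_eq_zero_of_natDegree_lt
      have := F.term_natDegree 1
      omega
    rw [h5, mul_zero, zero_add, coeff_mul]
    have h6 : antidiagonal 2 = {(0, 2), (1, 1), (2, 0)} := rfl
    rw [h6, sum_insert (by decide), sum_pair (by decide)]
    have h7 : (PowerSeries.coeff 0 (Y w)).coeff 2 = 0 := by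
      apply coeff_eq_zero_of_natDegree_lt
      have := F.term_natDegree 0
      omega
    have h8 : (PowerSeries.coeff 1 (PowerSeries.C (C (2 * (-1) ^ l)) * (∏ j ∈ S.erase w, Y j)
        * (V * dl u u'))).coeff 2 = 0 := by
      apply coeff_eq_zero_of_natDegree_lt
      omega
    rw [h7, h8, h4, F.term_coeff_coeff]
    ring

end fam

end gen

end Dyn59
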