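import Pool.Agent.H.MP_d59dab.Lead

/-!
# MP_d59dab: `Car` maps `FQ (p n)` onto `FQ n`
-/

set_option autoImplicit false

open Finset Polynomial

noncomputable section

namespace Dyn59

/-! ### the critical level -/

/-- the coefficient `a_v` -/
def aa (v : ℕ) (S : Finset ℕ) (l : ℕ) : ℤ := (#(S.filter (· ≤ v)) : ℤ) + 2 * l + 3 - v

theorem filter_le_succ_of_notMem {S : Finset ℕ} {v : ℕ} (h : v + 1 ∉ S) :
    S.filter (· ≤ v + 1) = S.filter (· ≤ v) := by
  ext n
  simp only [mem_filter]
  refine and_congr_right (fun hn => ?_)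
  constructor
  · intro h1
    have : n ≠ v + 1 := fun h2 => h (h2 ▸ hn)
    omega
  · intro h1
    omega

theorem filter_le_succ_of_mem {S : Finset ℕ} {v : ℕ} (h : v + 1 ∈ S) :
    S.filter (· ≤ v + 1) = insert (v + 1) (S.filter (· ≤ v)) := by
  ext n
  simp only [mem_filter, mem_insert]
  constructor
  · rintro ⟨h0, h1⟩
    by_cases h2 : n = v + 1
    · exact Or.inl h2
    · exact Or.inr ⟨h0, by omega⟩
  · rintro (h1 | ⟨h0, h1⟩)
    · rw [h1]; exact ⟨h, le_refl _⟩
    · exact ⟨h0, by omega⟩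

theorem filter_lt_of_notMem {S : Finset ℕ} {v : ℕ} (h : v + 1 ∉ S) :
    S.filter (v < ·) = S.filter (v + 1 < ·) := by
  ext n
  simp only [mem_filter]
  refine and_congr_right (fun hn => ?_)
  constructor
  · intro h1
    have : n ≠ v + 1 := fun h2 => h (h2 ▸ hn)
    omega
  · intro h1
    omega

theorem filter_lt_of_mem {S : Finset ℕ} {v : ℕ} (h : v + 1 ∈ S) :
    S.filter (v < ·) = insert (v + 1) (S.filter (v + 1 < ·)) := by
  ext n
  simp only [mem_filter, mem_insert]
  constructor
  · rintro ⟨h0, h1⟩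
    by_cases h2 : n = v + 1
    · exact Or.inl h2
    · exact Or.inr ⟨h0, by omega⟩
  · rintro (h1 | ⟨h0, h1⟩)
    · rw [h1]; exact ⟨h, by omega⟩
    · exact ⟨h0, by omega⟩

theorem Lam_eq (v : ℕ) (S : Finset ℕ) (l : ℕ) :
    (2 : ℤ) ^ v * lam v S l = 2 ^ v * aa v S l + ∑ s ∈ S.filter (v < ·), (2 : ℤ) ^ s := by
  have h : ∑ s ∈ S.filter (v < ·), (2 : ℤ) ^ s
      = 2 ^ v * ∑ s ∈ S.filter (v < ·), (2 : ℤ) ^ (s - v) := by
    rw [mul_sum]
    apply sum_congr rfl
    intro s hs
    rw [mem_filter] at hs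
    rw [← pow_add]
    congr 1
    omega
  rw [h]
  unfold lam aa
  ring

theorem Lam_succ (v : ℕ) (S : Finset ℕ) (l : ℕ) :
    (2 : ℤ) ^ (v + 1) * lam (v + 1) S l = 2 ^ v * lam v S l + 2 ^ v * (aa v S l - 2) := by
  rw [Lam_eq, Lam_eq]
  unfold aa
  by_cases h : v + 1 ∈ S
  · rw [filter_le_succ_of_mem h, filter_lt_of_mem h, sum_insert (by simp),
      card_insert_of_notMem (by simp), pow_succ]
    push_cast
    ring
  · rw [filter_le_succ_of_notMem h, filter_lt_of_notMem h, pow_succ]
    push_cast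
    ring

theorem aa_succ_le (v : ℕ) (S : Finset ℕ) (l : ℕ) : aa (v + 1) S l ≤ aa v S l := by
  unfold aa
  by_cases h : v + 1 ∈ S
  · rw [filter_le_succ_of_mem h, card_insert_of_notMem (by simp)]
    push_cast
    linarith
  · rw [filter_le_succ_of_notMem h]
    push_cast
    linarith

/-- `i` is the critical level of `x_S z^l` -/
def Crit (S : Finset ℕ) (l i : ℕ) : Prop :=
  i ∉ S ∧ #(S.filter (· < i)) + 2 * l + 2 = i ∧ ∀ v < i, v ≤ #(S.filter (· ≤ v)) + 2 * l + 1

theorem exists_crit (S : Finset ℕ) (l : ℕ) : ∃ i, Crit S l i := by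
  classical
  have hex : ∃ i, #(S.filter (· ≤ i)) + 2 * l + 2 ≤ i :=
    ⟨#S + 2 * l + 2, by have := card_filter_le S (· ≤ #S + 2 * l + 2); omega⟩
  have h1 := Nat.find_spec hex
  have h2 : ∀ v < Nat.find hex, ¬ (#(S.filter (· ≤ v)) + 2 * l + 2 ≤ v) :=
    fun v hv => Nat.find_min hex hv
  generalize Nat.find hex = i at h1 h2
  cases i with
  | zero => omega
  | succ j =>
    have h3 := h2 j (by omega)
    have h4 : (S.filter (· < j + 1)) = S.filter (· ≤ j) := by
      ext n
      simp only [mem_filter]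
      exact and_congr_right (fun _ => Nat.lt_succ_iff)
    refine ⟨j + 1, ?_, ?_, ?_⟩
    · intro h5
      rw [filter_le_succ_of_mem h5, card_insert_of_notMem (by simp)] at h1
      omega
    · rw [h4]
      have h6 : #(S.filter (· ≤ j)) ≤ #(S.filter (· ≤ j + 1)) := by
        apply card_le_card
        intro n hn
        rw [mem_filter] at hn ⊢
        exact ⟨hn.1, by omega⟩
      omega
    · intro v hv
      have := h2 v hv
      omega

theorem Crit.aa_eq {S : Finset ℕ} {l i : ℕ} (h : Crit S l i) : aa i S l = 1 := by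
  unfold aa
  have h1 : S.filter (· ≤ i) = S.filter (· < i) := by
    ext n
    simp only [mem_filter]
    refine and_congr_right (fun hn => ?_)
    constructor
    · intro h1
      have : n ≠ i := fun h2 => h.1 (h2 ▸ hn)
      omega
    · intro h1
      omega
  rw [h1]
  have := h.2.1
  have h2 : ((#(S.filter (· < i)) : ℤ)) + 2 * l + 2 = i := by exact_mod_cast this
  linarith

theorem Crit.le {S : Finset ℕ} {l i : ℕ} (h : Crit S l i) (v : ℕ) :
    (2 : ℤ) ^ v * lam v S l ≤ 2 ^ i * lam i S l := by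
  rcases le_total v i with hv | hv
  · obtain ⟨k, hk⟩ := Nat.exists_eq_add_of_le hv
    clear hv
    induction k generalizing v with
    | zero => rw [hk]; simp
    | succ k ih =>
      have h1 := ih (v + 1) (by omega)
      refine le_trans ?_ h1
      rw [Lam_succ]
      have h2 : 2 ≤ aa v S l := by
        unfold aa
        have h3 := h.2.2 v (by omega)
        have h4 : (v : ℤ) ≤ #(S.filter (· ≤ v)) + 2 * l + 1 := by exact_mod_cast h3
        linarith
      have h5 : 0 ≤ (2 : ℤ) ^ v * (aa v S l - 2) := by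
        apply mul_nonneg (by positivity)
        linarith
      linarith
  · obtain ⟨k, rfl⟩ := Nat.exists_eq_add_of_le hv
    clear hv
    have h0 : ∀ k, aa (i + k) S l ≤ 1 := by
      intro k
      induction k with
      | zero => rw [add_zero, h.aa_eq]
      | succ k ih => exact (aa_succ_le _ _ _).trans ih
    induction k with
    | zero => simp
    | succ k ih =>
      refine le_trans ?_ ih
      have h1 := Lam_succ (i + k) S l
      rw [← add_assoc, h1]
      have h5 : (2 : ℤ) ^ (i + k) * (aa (i + k) S l - 2) ≤ 0 := by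
        apply mul_nonpos_of_nonneg_of_nonpos (by positivity)
        have := h0 k
        linarith
      linarith

/-! ### joining sets at level `i` -/

/-- `A` below level `i` and `T` shifted above level `i` -/
def Jn (i : ℕ) (A T : Finset ℕ) : Finset ℕ := A ∪ T.map (addRightEmbedding (i + 1))

theorem mem_Jn {i : ℕ} {A T : Finset ℕ} {n : ℕ} :
    n ∈ Jn i A T ↔ n ∈ A ∨ ∃ t ∈ T, n = t + (i + 1) := by
  unfold Jn
  rw [mem_union, mem_map]
  simp only [addRightEmbedding_apply]
  constructor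
  · rintro (h | ⟨t, h, rfl⟩)
    · exact Or.inl h
    · exact Or.inr ⟨t, h, rfl⟩
  · rintro (h | ⟨t, h, rfl⟩)
    · exact Or.inl h
    · exact Or.inr ⟨t, h, rfl⟩

theorem Jn_filter_lt {i : ℕ} {A T : Finset ℕ} (hA : ∀ a ∈ A, a < i) :
    (Jn i A T).filter (· < i) = A := by
  ext n
  rw [mem_filter, mem_Jn]
  constructor
  · rintro ⟨h | ⟨t, h, rfl⟩, h1⟩
    · exact h
    · omega
  · intro h
    exact ⟨Or.inl h, hA n h⟩

theorem Jn_filter_le {i : ℕ} {A T : Finset ℕ} {v : ℕ} (hv : v < i) :
    (Jn i A T).filter (· ≤ v) = A.filter (· ≤ v) := by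
  ext n
  rw [mem_filter, mem_filter, mem_Jn]
  constructor
  · rintro ⟨h | ⟨t, h, rfl⟩, h1⟩
    · exact ⟨h, h1⟩
    · omega
  · rintro ⟨h, h1⟩
    exact ⟨Or.inl h, h1⟩

theorem notMem_Jn {i : ℕ} {A T : Finset ℕ} (hA : ∀ a ∈ A, a < i) : i ∉ Jn i A T := by
  rw [mem_Jn]
  rintro (h | ⟨t, -, h1⟩)
  · exact absurd (hA i h) (lt_irrefl i)
  · omega

theorem Jn_filter_gt {i : ℕ} {A T : Finset ℕ} (hA : ∀ a ∈ A, a < i) :
    (Jn i A T).filter (i < ·) = T.map (addRightEmbedding (i + 1)) := by
  ext n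
  rw [mem_filter, mem_Jn, mem_map]
  simp only [addRightEmbedding_apply]
  constructor
  · rintro ⟨h | ⟨t, h, rfl⟩, h1⟩
    · have := hA n h
      omega
    · exact ⟨t, h, rfl⟩
  · rintro ⟨t, h, rfl⟩
    exact ⟨Or.inr ⟨t, h, rfl⟩, by omega⟩

theorem Jn_crit {i l : ℕ} {A T T' : Finset ℕ} (hA : ∀ a ∈ A, a < i) (h : Crit (Jn i A T) l i) :
    Crit (Jn i A T') l i := by
  refine ⟨notMem_Jn hA, ?_, ?_⟩
  · rw [Jn_filter_lt hA]
    have := h.2.1
    rwa [Jn_filter_lt hA] at this
  · intro v hv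
    rw [Jn_filter_le hv]
    have := h.2.2 v hv
    rwa [Jn_filter_le hv] at this

theorem Jn_lam {i l : ℕ} {A T : Finset ℕ} (hA : ∀ a ∈ A, a < i) (h : Crit (Jn i A T) l i) :
    lam i (Jn i A T) l = 2 * nS T + 1 := by
  have h1 := Lam_eq i (Jn i A T) l
  rw [h.aa_eq, Jn_filter_gt hA, sum_map] at h1
  simp only [addRightEmbedding_apply] at h1
  have h2 : ∑ x ∈ T, (2 : ℤ) ^ (x + (i + 1)) = 2 ^ i * (2 * nS T) := by
    unfold nS
    rw [Nat.cast_sum, mul_sum, mul_sum]
    apply sum_congr rfl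
    intro t _
    push_cast
    ring
  rw [h2, ← mul_add] at h1
  have h3 := mul_left_cancel₀ (by positivity : (2 : ℤ) ^ i ≠ 0) h1
  rw [h3]
  ring

theorem exists_Jn {S : Finset ℕ} {i : ℕ} (h : i ∉ S) :
    ∃ T, S = Jn i (S.filter (· < i)) T := by
  refine ⟨(S.filter (i < ·)).image (fun s => s - (i + 1)), ?_⟩
  ext n
  rw [mem_Jn, mem_filter]
  constructor
  · intro hn
    rcases lt_trichotomy n i with h1 | h1 | h1
    · exact Or.inl ⟨hn, h1⟩
    · rw [h1] at hn
      exact absurd hn h
    · refine Or.inr ⟨n - (i + 1), ?_, by omega⟩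
      rw [mem_image]
      exact ⟨n, mem_filter.2 ⟨hn, h1⟩, rfl⟩
  · rintro (h1 | ⟨t, ht, rfl⟩)
    · exact h1.1
    · rw [mem_image] at ht
      obtain ⟨s, hs, rfl⟩ := ht
      rw [mem_filter] at hs
      have : s - (i + 1) + (i + 1) = s := by omega
      rw [this]
      exact hs.1

section ring

variable (R : Type*) [CommRing R]

theorem xi_add (i j : ℕ) : xi R (j + i) = (sig R)^[i] (xi R j) := by
  unfold xi
  rw [add_comm, Function.iterate_add_apply]

theorem sig_iter_mul (i : ℕ) (f g : R[X][X]) :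
    (sig R)^[i] (f * g) = (sig R)^[i] f * (sig R)^[i] g := by
  induction i with
  | zero => rfl
  | succ i ih => rw [Function.iterate_succ_apply', ih, map_mul, Function.iterate_succ_apply',
      Function.iterate_succ_apply']

theorem sig_iter_C (i : ℕ) (f : R[X]) : (sig R)^[i] (C f) = C f := by
  induction i with
  | zero => rfl
  | succ i ih => rw [Function.iterate_succ_apply', ih, sig_C]

theorem sig_iter_sub (i : ℕ) (f g : R[X][X]) :
    (sig R)^[i] (f - g) = (sig R)^[i] f - (sig R)^[i] g := by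
  induction i with
  | zero => rfl
  | succ i ih => rw [Function.iterate_succ_apply', ih, map_sub, Function.iterate_succ_apply',
      Function.iterate_succ_apply']

theorem sig_iter_prod (i : ℕ) (T : Finset ℕ) (f : ℕ → R[X][X]) :
    (sig R)^[i] (∏ t ∈ T, f t) = ∏ t ∈ T, (sig R)^[i] (f t) := by
  induction i with
  | zero => rfl
  | succ i ih =>
    rw [Function.iterate_succ_apply', ih, map_prod]
    simp only [Function.iterate_succ_apply']

theorem xS_Jn {i : ℕ} {A T : Finset ℕ} (hA : ∀ a ∈ A, a < i) :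
    xS R (Jn i A T) = xS R A * (sig R)^[i] (xS R (up T)) := by
  unfold xS Jn
  rw [prod_union]
  · congr 1
    rw [sig_iter_prod, prod_map]
    unfold up
    rw [prod_map]
    apply prod_congr rfl
    intro t _
    rw [addRightEmbedding_apply, addRightEmbedding_apply, ← xi_add]
    congr 1
    ring
  · rw [disjoint_left]
    intro a ha hb
    rw [mem_map] at hb
    obtain ⟨t, -, h⟩ := hb
    rw [addRightEmbedding_apply] at h
    have := hA a ha
    omega

theorem mo_Jn {i l : ℕ} {A T : Finset ℕ} (hA : ∀ a ∈ A, a < i) :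
    mo R (Jn i A T) l = xS R A * (sig R)^[i] (mo R (up T) l) := by
  unfold mo
  rw [xS_Jn R hA, sig_iter_mul, sig_iter_C, mul_assoc]

end ring

section field

variable {p : ℕ} [hp : Fact p.Prime]

/-- the computation at level 0 -/
theorem Car_level0 (h2 : p ≠ 2) {T T' : Finset ℕ} (h : 2 * nS T' + 1 = p * (2 * nS T + 1))
    (l : ℕ) : LL 0 (Car p (C (X ^ (p * (l + 1) - 1)) * xS (ZMod p) (up T'))
      - mo (ZMod p) (up T) l) (2 * nS T + 2 + 2 * l) := by
  have hp0 : 0 < p := hp.out.pos
  set m := (p - 1) / 2 with hm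
  have hm2 : 2 * m + 1 = p := half_odd h2
  have hn : nS T' = p * nS T + m := by
    have h3 : p * (2 * nS T + 1) = 2 * (p * nS T) + p := by ring
    omega
  have h4 := xS_lead (R := ZMod p) T'
  have h5 := xS_lead (R := ZMod p) T
  set d' := xS (ZMod p) (up T') - (X ^ 2 + C X) ^ nS T' with hd'
  set d := xS (ZMod p) (up T) - (X ^ 2 + C X) ^ nS T with hd
  have e1 : xS (ZMod p) (up T') = (X ^ 2 + C X) ^ nS T' + d' := by rw [hd']; ring
  have e2 : xS (ZMod p) (up T) = (X ^ 2 + C X) ^ nS T + d := by rw [hd]; ring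
  have e3 : (C (X ^ (p * (l + 1) - 1)) : (ZMod p)[X][X])
      = (C (X ^ l)) ^ p * C (X ^ (p - 1)) := by
    rw [← C_pow, ← C_mul, ← pow_mul, ← pow_add]
    congr 2
    have : p * (l + 1) = l * p + p := by ring
    omega
  have e4 : Car p (C (X ^ (p - 1)) * (X ^ 2 + C X) ^ nS T' : (ZMod p)[X][X])
      = (X ^ 2 + C X) ^ nS T := by
    have e5 : (C (X ^ (p - 1)) * (X ^ 2 + C X) ^ nS T' : (ZMod p)[X][X])
        = ((X ^ 2 + C X) ^ nS T) ^ p * (C (X ^ (p - 1)) * (X ^ 2 + C X) ^ m) := by
      rw [hn, pow_add, ← pow_mul, mul_comm p]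
      ring
    rw [e5, Car_pow_mul]
    have e6 : Car p (C (X ^ (p - 1)) * (X ^ 2 + C X) ^ m : (ZMod p)[X][X]) = 1 := by
      rw [add_pow, mul_sum, Car_sum hp0]
      have e7 : ∀ j ∈ range (m + 1), Car p (C (X ^ (p - 1)) *
          ((X ^ 2) ^ j * (C X) ^ (m - j) * (m.choose j : (ZMod p)[X][X])))
          = if j = m then 1 else 0 := by
        intro j hj
        rw [mem_range] at hj
        have e8 : (C (X ^ (p - 1)) *
            ((X ^ 2) ^ j * (C X) ^ (m - j) * (m.choose j : (ZMod p)[X][X])))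
            = (m.choose j : ZMod p) • (C (X ^ (p - 1 + (m - j))) * X ^ (2 * j)) := by
          rw [Algebra.smul_def, pow_add, C_mul, ← pow_mul, ← map_pow]
          have : (algebraMap (ZMod p) (ZMod p)[X][X]) (m.choose j : ZMod p)
              = (m.choose j : (ZMod p)[X][X]) := by simp
          rw [this]
          ring
        rw [e8, Car_smul hp0, Car_mono]
        by_cases hj1 : j = m
        · rw [if_pos hj1, hj1, Nat.sub_self, add_zero, hm2, Nat.sub_add_cancel hp0,
            if_pos ⟨dvd_rfl, dvd_rfl⟩, Nat.div_self hp0, Nat.choose_self]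
          simp
        · rw [if_neg hj1, if_neg, smul_zero]
          rintro ⟨h6, -⟩
          have := Nat.le_of_dvd (by omega) h6
          omega
      rw [sum_congr rfl e7, sum_ite_eq' (range (m + 1)) m, if_pos (by simp)]
    rw [e6, mul_one]
  have e9 : Car p (C (X ^ (p * (l + 1) - 1)) * xS (ZMod p) (up T')) - mo (ZMod p) (up T) l
      = C (X ^ l) * (Car p (C (X ^ (p - 1)) * d') - d) := by
    unfold mo
    rw [e3, e1, e2, mul_assoc, Car_pow_mul, mul_add, Car_add hp0, e4]
    ring
  rw [e9]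
  refine LL0_C_pow (q := 2 * nS T + 2) (LL.sub ?_ h5) l
  have h6 := LL0_C_pow h4 (p - 1)
  have h7 := Car_LL h2 h6
  convert h7 using 1
  have hnz : (2 : ℤ) * nS T' = p * (2 * nS T + 1) - 1 := by
    have : (2 : ℤ) * nS T' + 1 = p * (2 * nS T + 1) := by exact_mod_cast h
    linarith
  have hpz : (((p - 1 : ℕ)) : ℤ) = p - 1 := by
    push_cast [Nat.cast_sub hp0]
    ring
  rw [hnz, hpz]
  symm
  have h8 : (p : ℤ) * (2 * nS T + 1) - 1 + 2 + 2 * ((p : ℤ) - 1)
      = (p - 1) + p * (2 * nS T + 2) := by ring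
  have hpp : (0 : ℤ) < p := by exact_mod_cast hp0
  rw [h8, Int.add_mul_ediv_left _ _ hpp.ne', Int.ediv_eq_zero_of_lt (by linarith) (by linarith),
    zero_add]

/-- `Car (x_A sig^i (x_T' z^l)) = x_A sig^i (x_T z^l) +` lower order -/
theorem Car_mo_lead (h2 : p ≠ 2) {i l : ℕ} {A T T' : Finset ℕ} (hA : ∀ a ∈ A, a < i)
    (hc : #A + 2 * l + 2 = i) (h : 2 * nS T' + 1 = p * (2 * nS T + 1)) :
    LL i (Car p (mo (ZMod p) (Jn i A T') l) - mo (ZMod p) (Jn i A T) l) (2 * nS T) := by
  have hp0 : 0 < p := hp.out.pos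
  have hpp : (0 : ℤ) < p := by exact_mod_cast hp0
  set m := (p - 1) / 2 with hm
  have hm2 : 2 * m + 1 = p := half_odd h2
  have h0 : LL 0 (mo (ZMod p) (up T') l) (2 * nS T' + 2 * l + 3) := by
    have := LL_mo (R := ZMod p) 0 (up T') l
    rwa [lam_zero_eq, nS_up, Nat.cast_mul, Nat.cast_ofNat] at this
  have h1 := Car_lead h2 i A (mo (ZMod p) (up T') l) _ hA h0
  have h3 : i - #A = 2 * l + 2 := by omega
  have h4 : ((i : ℤ) - #A) = 2 * l + 2 := by
    have : (#A : ℤ) + 2 * l + 2 = i := by exact_mod_cast hc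
    linarith
  have h5 : (-(C X : (ZMod p)[X][X])) ^ (m * (2 * l + 2)) * mo (ZMod p) (up T') l
      = C (X ^ (p * (l + 1) - 1)) * xS (ZMod p) (up T') := by
    unfold mo
    have h6 : m * (2 * l + 2) = 2 * (m * (l + 1)) := by ring
    have h7 : p * (l + 1) - 1 = m * (2 * l + 2) + l := by
      rw [← hm2]
      have : (2 * m + 1) * (l + 1) = m * (2 * l + 2) + l + 1 := by ring
      omega
    have h8 : (-(C X : (ZMod p)[X][X])) ^ 2 = (C X) ^ 2 := by ring
    rw [h7, h6, pow_add, C_mul, pow_mul, h8, ← pow_mul, C_pow (n := 2 * (m * (l + 1)))]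
    ring
  rw [h3, h4, h5] at h1
  have h8 : (2 * (nS T' : ℤ) + 2 * l + 3 - (2 * l + 2) - 1) / p = 2 * nS T := by
    have hnz : (2 : ℤ) * nS T' = p * (2 * nS T + 1) - 1 := by
      have : (2 : ℤ) * nS T' + 1 = p * (2 * nS T + 1) := by exact_mod_cast h
      linarith
    have : 2 * (nS T' : ℤ) + 2 * l + 3 - (2 * l + 2) - 1 = (p - 1) + p * (2 * nS T) := by
      linarith
    rw [this, Int.add_mul_ediv_left _ _ hpp.ne', Int.ediv_eq_zero_of_lt (by linarith)
      (by linarith), zero_add]
  rw [h8] at h1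
  have h9 := LL_xS_iter (R := ZMod p) i A _ _ hA (Car_level0 h2 h l)
  rw [h4, sig_iter_sub, mul_sub] at h9
  have h10 : (2 : ℤ) * nS T + 2 + 2 * l - (2 * l + 2) = 2 * nS T := by ring
  rw [h10] at h9
  rw [mo_Jn _ hA, mo_Jn _ hA]
  have h11 := h1.add h9
  convert h11 using 1
  ring

/-- `Car` maps `FQ (p n)` onto `FQ n` -/
theorem Car_onto (h2 : p ≠ 2) (n : ℕ) : ∀ f ∈ FQ (ZMod p) n,
    ∃ g ∈ FQ (ZMod p) ((p : ℤ) * n), Car p g = f := by
  have hp0 : 0 < p := hp.out.pos
  have hpp : (0 : ℤ) < p := by exact_mod_cast hp0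
  induction n with
  | zero =>
    intro f hf
    have h0 : f = 0 := by
      refine SP.induction (Pr := fun f => f = 0) rfl ?_ ?_ ?_ hf
      · rintro f g rfl rfl
        exact add_zero 0
      · rintro c f rfl
        exact smul_zero c
      · rintro S l ⟨h1, h3⟩
        obtain ⟨i, hi⟩ := exists_crit S l
        obtain ⟨T, hT⟩ := exists_Jn hi.1
        have hA : ∀ a ∈ S.filter (· < i), a < i := fun a ha => (mem_filter.1 ha).2
        have h4 := h3 i
        have hi' : Crit (Jn i (S.filter (· < i)) T) l i := by rwa [← hT]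
        have h5 := Jn_lam hA hi'
        rw [← hT] at h5
        rw [h5] at h4
        exfalso
        have : (0 : ℤ) < 2 ^ i * (2 * nS T + 1) := by positivity
        simp only [Nat.cast_zero] at h4
        linarith
    exact ⟨0, zero_mem _, by rw [h0, Car_zero hp0]⟩
  | succ n ih =>
    intro f hf
    refine SP.induction (Pr := fun f => ∃ g ∈ FQ (ZMod p) ((p : ℤ) * ((n + 1 : ℕ) : ℤ)),
      Car p g = f) ?_ ?_ ?_ ?_ hf
    · exact ⟨0, zero_mem _, Car_zero hp0⟩
    · rintro f g ⟨f', hf', rfl⟩ ⟨g', hg', rfl⟩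
      exact ⟨f' + g', add_mem hf' hg', Car_add hp0 _ _⟩
    · rintro c f ⟨f', hf', rfl⟩
      exact ⟨c • f', Submodule.smul_mem _ _ hf', Car_smul hp0 _ _⟩
    · rintro S l ⟨h0, h1⟩
      obtain ⟨i, hi⟩ := exists_crit S l
      obtain ⟨T, hT⟩ := exists_Jn hi.1
      have hA : ∀ a ∈ S.filter (· < i), a < i := fun a ha => (mem_filter.1 ha).2
      have hi' : Crit (Jn i (S.filter (· < i)) T) l i := by rwa [← hT]
      have h5 := Jn_lam hA hi'
      have hlift : ∀ f ∈ FQ (ZMod p) n, ∃ g ∈ FQ (ZMod p) ((p : ℤ) * ((n + 1 : ℕ) : ℤ)),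
          Car p g = f := by
        intro f hf
        obtain ⟨g, hg, hgf⟩ := ih f hf
        refine ⟨g, FQ_mono ?_ hg, hgf⟩
        push_cast
        have : (0 : ℤ) ≤ p := hpp.le
        linarith
      by_cases h6 : (2 : ℤ) ^ i * lam i S l ≤ n
      · apply hlift
        exact mo_mem_SP ⟨h0, fun v => (hi.le v).trans h6⟩
      · have h7 : (2 : ℤ) ^ i * lam i S l = n + 1 := by
          have := h1 i
          push_cast at this
          linarith
        have h5' := h5
        rw [← hT] at h5'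
        -- the set `T'`
        have hpo : 2 * ((p - 1) / 2) + 1 = p := half_odd h2
        set T' := (p * nS T + (p - 1) / 2).bitIndices.toFinset with hT'
        have hnT' : 2 * nS T' + 1 = p * (2 * nS T + 1) := by
          rw [hT', nS_bits]
          have : p * (2 * nS T + 1) = 2 * (p * nS T) + p := by ring
          omega
        set A := S.filter (· < i) with hAdef
        have hi'' : Crit (Jn i A T') l i := Jn_crit hA hi'
        have h8 := Jn_lam hA hi''
        have h8' : lam i (Jn i A T') l = p * (2 * nS T + 1) := by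
          rw [h8]
          exact_mod_cast hnT'
        have h9 : mo (ZMod p) (Jn i A T') l ∈ FQ (ZMod p) ((p : ℤ) * ((n + 1 : ℕ) : ℤ)) := by
          refine mo_mem_SP ⟨?_, fun v => (hi''.le v).trans ?_⟩
          · rw [mem_Jn]
            rintro (h10 | ⟨t, -, h10⟩)
            · exact h0 (mem_filter.1 h10).1
            · omega
          · rw [h8']
            rw [h5'] at h7
            push_cast
            rw [← h7]
            apply le_of_eq
            ring
        have h11 := Car_mo_lead h2 hA (by have := hi.2.1; rwa [← hAdef] at this) hnT'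
          (l := l)
        rw [← hT] at h11
        have h12 : mo (ZMod p) S l ∈ FQ (ZMod p) ((n + 1 : ℕ) : ℤ) := mo_mem_SP ⟨h0, h1⟩
        have h13 := Car_FQ h2 h9
        rw [Int.mul_ediv_cancel_left _ hpp.ne'] at h13
        have h14 := sub_mem h13 h12
        have h15 : Car p (mo (ZMod p) (Jn i A T') l) - mo (ZMod p) S l ∈ FQ (ZMod p) n := by
          rw [FQ_eq, mem_SP_iff] at h14 ⊢
          rw [LL_iff, mem_SP_iff] at h11
          intro S' l' h16
          obtain ⟨h17, h18⟩ := h14 S' l' h16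
          have h19 := h11 S' l' h16
          refine ⟨h17, ?_⟩
          obtain ⟨j, hj⟩ := exists_crit S' l'
          suffices h20 : (2 : ℤ) ^ j * lam j S' l' ≤ n from fun v => (hj.le v).trans h20
          by_contra h21
          have h22 : (2 : ℤ) ^ j * lam j S' l' = n + 1 := by
            have := h18 j
            push_cast at this
            linarith
          obtain ⟨T2, hT2⟩ := exists_Jn hj.1
          have hA2 : ∀ a ∈ S'.filter (· < j), a < j := fun a ha => (mem_filter.1 ha).2
          have hj' : Crit (Jn j (S'.filter (· < j)) T2) l' j := by rwa [← hT2]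
          have h23 := Jn_lam hA2 hj'
          rw [← hT2] at h23
          rw [h23] at h22
          rw [h5'] at h7
          have h24 : 2 ^ j * (2 * nS T2 + 1) = 2 ^ i * (2 * nS T + 1) := by
            have : (2 : ℤ) ^ j * (2 * nS T2 + 1) = 2 ^ i * (2 * nS T + 1) := by
              rw [h22, h7]
            exact_mod_cast this
          have h25 : ∀ a b c d : ℕ, a < b → 2 ^ a * (2 * c + 1) = 2 ^ b * (2 * d + 1) → False := by
            intro a b c d hab he
            obtain ⟨k, rfl⟩ := Nat.exists_eq_add_of_lt hab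
            have h26 : 2 ^ (a + k + 1) * (2 * d + 1) = 2 ^ a * (2 * (2 ^ k * (2 * d + 1))) := by
              ring
            rw [h26] at he
            have := Nat.eq_of_mul_eq_mul_left (Nat.two_pow_pos a) he
            omega
          rcases lt_trichotomy j i with h27 | h27 | h27
          · exact h25 _ _ _ _ h27 h24
          · rw [h27] at h24 h23
            have h28 := Nat.eq_of_mul_eq_mul_left (Nat.two_pow_pos i) h24
            rw [h23] at h19
            have h29 : nS T2 = nS T := by omega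
            rw [h29] at h19
            linarith
          · exact h25 _ _ _ _ h27 h24.symm
        obtain ⟨g, hg, hgf⟩ := hlift _ h15
        refine ⟨mo (ZMod p) (Jn i A T') l - g, sub_mem h9 hg, ?_⟩
        rw [Car_sub hp0, hgf]
        ring

theorem Car_iter_onto (h2 : p ≠ 2) (k : ℕ) : ∀ (Q : ℤ), 0 ≤ Q → ∀ f ∈ FQ (ZMod p) (Q / (p : ℤ) ^ k),
    ∃ g ∈ FQ (ZMod p) Q, (Car p)^[k] g = f := by
  have hp0 : 0 < p := hp.out.pos
  have hpp : (0 : ℤ) < p := by exact_mod_cast hp0
  induction k with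
  | zero =>
    intro Q _ f hf
    exact ⟨f, by simpa using hf, rfl⟩
  | succ k ih =>
    intro Q hQ f hf
    have h1 : 0 ≤ Q / (p : ℤ) ^ (k + 1) := Int.ediv_nonneg hQ (by positivity)
    obtain ⟨n, hn⟩ := Int.eq_ofNat_of_zero_le h1
    rw [hn] at hf
    obtain ⟨g, hg, hgf⟩ := Car_onto h2 n f hf
    have h3 : g ∈ FQ (ZMod p) (Q / (p : ℤ) ^ k) := by
      refine FQ_mono ?_ hg
      have h5 : (n : ℤ) = Q / (p : ℤ) ^ k / p := by
        rw [← hn, pow_succ, Int.ediv_ediv_of_nonneg (by positivity)]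
      rw [h5, mul_comm]
      exact Int.ediv_mul_le _ hpp.ne'
    obtain ⟨g', hg', hgf'⟩ := ih Q hQ g h3
    exact ⟨g', hg', by rw [Function.iterate_succ_apply', hgf', hgf]⟩

end field

end Dyn59
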