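import Pool.Agent.H.MP_d59dab.FlipE
import Pool.Agent.H.MP_d59dab.Onto

/-!
# MP_d59dab: shapes of the elements of the filtration, values of residues modulo `p`
-/

set_option autoImplicit false
set_option maxHeartbeats 400000

open Finset Polynomial

noncomputable section

namespace Dyn59

/-! ### combinatorics of the orders -/

theorem Crit.two_pow_lt {S : Finset ℕ} {l i n : ℕ} (h : Crit S l i) (hi : i < n)
    (hS : ∀ j ∈ S, j < n) : (2 : ℤ) ^ i * lam i S l < 2 ^ n := by
  obtain ⟨T, hT⟩ := exists_Jn h.1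
  have hA : ∀ a ∈ S.filter (· < i), a < i := fun a ha => (mem_filter.1 ha).2
  have hi' : Crit (Jn i (S.filter (· < i)) T) l i := by rwa [← hT]
  have h5 := Jn_lam hA hi'
  rw [← hT] at h5
  rw [h5]
  have h6 : nS T < 2 ^ (n - i - 1) := by
    apply Nat.geomSum_lt (le_refl 2)
    intro t ht
    have h7 : t + (i + 1) ∈ S := by
      rw [hT, mem_Jn]
      exact Or.inr ⟨t, ht, rfl⟩
    have := hS _ h7
    omega
  have h7 : 2 ^ i * (2 * nS T + 1) < 2 ^ n := by
    have h8 : 2 * nS T + 1 < 2 * 2 ^ (n - i - 1) := by omega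
    have h9 : 2 ^ n = 2 ^ i * (2 * 2 ^ (n - i - 1)) := by
      rw [← pow_succ', ← pow_add]
      congr 1
      omega
    rw [h9]
    exact Nat.mul_lt_mul_of_pos_left h8 (Nat.two_pow_pos i)
  exact_mod_cast h7

theorem Lam_lt {S : Finset ℕ} {l n w : ℕ} (hS : ∀ j ∈ S, j < n) (hw : aa w S l ≤ 0)
    (hwn : w ≤ n) (v : ℕ) : (2 : ℤ) ^ v * lam v S l < 2 ^ n := by
  obtain ⟨i, hi⟩ := exists_crit S l
  refine lt_of_le_of_lt (hi.le v) (hi.two_pow_lt ?_ hS)
  by_contra hcon
  have h1 : ∀ k, aa (w + k) S l ≤ aa w S l := by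
    intro k
    induction k with
    | zero => exact le_rfl
    | succ k ih => exact (aa_succ_le _ _ _).trans ih
  have h2 := h1 (i - w)
  have h3 : w + (i - w) = i := by omega
  rw [h3, hi.aa_eq] at h2
  linarith

theorem FQ_shape {w : ℕ} {Q : ℤ} (hQ : Q < 2 ^ (w + 1)) {S : Finset ℕ} {l : ℕ}
    (h : ∀ v, (2 : ℤ) ^ v * lam v S l ≤ Q) : (∀ j ∈ S, j ≤ w) ∧ lam w S l ≤ 1 := by
  constructor
  · intro s hs
    by_contra hcon
    have h1 : w + 1 ≤ s := by omega
    have hps : (2 : ℤ) ^ (w + 1) ≤ 2 ^ s := pow_le_pow_right₀ (by norm_num) h1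
    obtain ⟨i, hi⟩ := exists_crit S l
    obtain ⟨T, hT⟩ := exists_Jn hi.1
    have hA : ∀ a ∈ S.filter (· < i), a < i := fun a ha => (mem_filter.1 ha).2
    have hi' : Crit (Jn i (S.filter (· < i)) T) l i := by rwa [← hT]
    have h5 := Jn_lam hA hi'
    rw [← hT] at h5
    have h6 := h i
    rw [h5] at h6
    rcases lt_trichotomy s i with h7 | h7 | h7
    · have h8 : (2 : ℤ) ^ s ≤ 2 ^ i := pow_le_pow_right₀ (by norm_num) h7.le
      have h9 : (2 : ℤ) ^ i ≤ 2 ^ i * (2 * nS T + 1) := by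
        have h10 : (0 : ℤ) ≤ 2 ^ i * (2 * nS T) := by positivity
        linarith
      linarith
    · rw [h7] at hs
      exact hi.1 hs
    · have h8 : ∃ t ∈ T, s = t + (i + 1) := by
        have h9 := hs
        rw [hT, mem_Jn, mem_filter] at h9
        rcases h9 with h9 | h9
        · omega
        · exact h9
      obtain ⟨t, ht, hst⟩ := h8
      have h9 : 2 ^ t ≤ nS T := single_le_sum (f := fun s => 2 ^ s) (fun _ _ => Nat.zero_le _) ht
      have h10 : (2 : ℤ) ^ s ≤ 2 ^ i * (2 * nS T + 1) := by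
        have h11 : 2 ^ s ≤ 2 ^ i * (2 * nS T + 1) := by
          rw [hst, pow_add, pow_succ]
          have h12 : 2 ^ i * (2 * 2 ^ t) ≤ 2 ^ i * (2 * nS T + 1) :=
            Nat.mul_le_mul_left _ (by omega)
          calc 2 ^ t * (2 ^ i * 2) = 2 ^ i * (2 * 2 ^ t) := by ring
            _ ≤ _ := h12
        exact_mod_cast h11
      linarith
  · have h1 := h w
    by_contra hcon
    have h2 : 2 ≤ lam w S l := by omega
    have h3 : (2 : ℤ) ^ w * 2 ≤ 2 ^ w * lam w S l := mul_le_mul_of_nonneg_left h2 (by positivity)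
    rw [pow_succ] at hQ
    linarith

theorem FQ_shape3 {m : ℕ} {Q : ℤ} (hQ : Q < 3 * 2 ^ m) {S : Finset ℕ} {l : ℕ}
    (hS : ∀ j ∈ S, j ≤ m + 1) (h : ∀ v, (2 : ℤ) ^ v * lam v S l ≤ Q)
    (hl : lam (m + 1) S l = 1) : m + 1 ∉ S := by
  intro hmS
  have h1 := Lam_eq m S l
  have h2 : S.filter (m < ·) = {m + 1} := by
    ext j
    rw [mem_filter, mem_singleton]
    constructor
    · rintro ⟨h3, h4⟩
      have := hS j h3
      omega
    · rintro rfl
      exact ⟨hmS, by omega⟩
  rw [h2, sum_singleton, pow_succ] at h1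
  have h3 := Lam_succ m S l
  rw [hl, h1, pow_succ] at h3
  have hpos : (0 : ℤ) < 2 ^ m := by positivity
  have h4 : aa m S l = 1 := by
    have h5 : (2 : ℤ) ^ m * (2 * aa m S l) = 2 ^ m * 2 := by linarith
    have := mul_left_cancel₀ hpos.ne' h5
    omega
  have h5 := h m
  rw [h1, h4] at h5
  linarith

/-! ### the leaves over a ring with 1/2 -/

section gen

variable {R : Type*} [CommRing R]

/-- sign of a word as an element of the ring -/
def sgR (R : Type*) [CommRing R] (v : ℕ → ℤˣ) : ℕ → R := fun j => ((v j : ℤ) : R)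

theorem sgR_sq (v : ℕ → ℤˣ) (j : ℕ) : sgR R v j * sgR R v j = 1 := sgnG_sq (v j)

/-- residue on the leaf `v` -/
def Rz (h : R) (A B : R[X][X]) (v : ℕ → ℤˣ) : R := resG A B (tm (yG h v) (-1))

theorem eval_eval_C (r : R) (A : R[X][X]) : pm (evalRingHom r) (pm (C : R →+* R[X]) A) = A := by
  have h : (pm (evalRingHom r)).comp (pm (C : R →+* R[X])) = RingHom.id _ := by
    apply Polynomial.ringHom_ext
    · intro f
      rw [RingHom.comp_apply, pm_C, pm_C, RingHom.id_apply]
      congr 1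
      rw [coe_mapRingHom, coe_mapRingHom, Polynomial.map_map]
      have : (evalRingHom r).comp (C : R →+* R[X]) = RingHom.id R := by
        ext a
        simp
      rw [this, Polynomial.map_id]
    · rw [RingHom.comp_apply, pm_X, pm_X, RingHom.id_apply]
  exact congrArg (fun φ => φ A) h

theorem sh_iter_zero (k : ℕ) : ∀ u : ℕ → ℤˣ, (sh^[k] u) 0 = u k := by
  induction k with
  | zero => intro u; rfl
  | succ k ih =>
    intro u
    rw [Function.iterate_succ_apply, ih]
    rfl

theorem u_const (h : R) (v : ℕ → ℤˣ) (w : ℕ) :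
    PowerSeries.coeff 0 (yG h (sh^[w] v)) = sgR R v w := by
  rw [PowerSeries.coeff_zero_eq_constantCoeff_apply, yG_const, sh_iter_zero]
  rfl

/-- the residues of the two words are the values at `1` and `0` -/
theorem Fam.eval_one {h : R} {w : ℕ} {v v' : ℕ → ℤˣ} {Y : ℕ → PowerSeries R[X]}
    (F : Fam h (sgR R v) w (yG h (sh^[w] v)) (yG h (sh^[w] v')) Y) (A B : R[X][X]) :
    (resG (pm C A) (pm C B) (tm (Y 0) (-1))).eval 1 = Rz h A B v := by
  have h1 := resG_map (evalRingHom (1 : R)) (pm C A) (pm C B) (tm (Y 0) (-1))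
  rw [coe_evalRingHom] at h1
  rw [h1, eval_eval_C, eval_eval_C, lmG_tm]
  unfold Rz
  congr 2
  refine Leaf.unique F.h2 F.he (Y := fun j => PowerSeries.map (evalRingHom 1) (Y j))
    (Y' := fun j => yG h (sh^[j] v)) (w := w) ?_ (leaf_yG F.h2 v w) ?_
  · have h3 := F.leaf.map (evalRingHom (1 : R))
    intro j hj
    have h4 := h3 j hj
    simp only [coe_evalRingHom, eval_C] at h4
    exact h4
  · rw [F.term]
    ext n
    rw [PowerSeries.coeff_map, map_add, PowerSeries.coeff_C_mul, map_sub, PowerSeries.coeff_map,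
      PowerSeries.coeff_map, coe_evalRingHom]
    simp

theorem Fam.eval_zero {h : R} {w : ℕ} {v v' : ℕ → ℤˣ} (hv : ∀ j < w, v j = v' j)
    {Y : ℕ → PowerSeries R[X]}
    (F : Fam h (sgR R v) w (yG h (sh^[w] v)) (yG h (sh^[w] v')) Y) (A B : R[X][X]) :
    (resG (pm C A) (pm C B) (tm (Y 0) (-1))).eval 0 = Rz h A B v' := by
  have h1 := resG_map (evalRingHom (0 : R)) (pm C A) (pm C B) (tm (Y 0) (-1))
  rw [coe_evalRingHom] at h1
  rw [h1, eval_eval_C, eval_eval_C, lmG_tm]
  unfold Rz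
  congr 2
  refine Leaf.unique F.h2 F.he (Y := fun j => PowerSeries.map (evalRingHom 0) (Y j))
    (Y' := fun j => yG h (sh^[j] v')) (w := w) ?_ ?_ ?_
  · have h3 := F.leaf.map (evalRingHom (0 : R))
    intro j hj
    have h4 := h3 j hj
    simp only [coe_evalRingHom, eval_C] at h4
    exact h4
  · have h3 := leaf_yG F.h2 v' w
    intro j hj
    have h4 := h3 j hj
    simp only at h4 ⊢
    unfold sgR
    rw [hv j hj]
    exact h4
  · rw [F.term]
    ext n
    rw [PowerSeries.coeff_map, map_add, PowerSeries.coeff_C_mul, map_sub, PowerSeries.coeff_map,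
      PowerSeries.coeff_map, coe_evalRingHom]
    simp

theorem prod_sgR (v : ℕ → ℤˣ) (J : Finset ℕ) :
    ∏ j ∈ J, sgR R v j = (((∏ j ∈ J, v j : ℤˣ) : ℤ) : R) := by
  unfold sgR
  push_cast
  rfl

/-- the constant `κ` in terms of characters -/
theorem kap_mul {h : R} {w : ℕ} {v v' : ℕ → ℤˣ} (hv : ∀ j < w, v j = v' j) {S : Finset ℕ}
    (hS : ∀ j ∈ S, j ≤ w) (l : ℕ) :
    kap h (sgR R v) w S l * (sgR R v w - sgR R v' w)
      = 2 * (-1) ^ l * h ^ w * (∏ j ∈ insert w (range w \ S), sgR R v j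
        - ∏ j ∈ insert w (range w \ S), sgR R v' j) := by
  have hw : w ∉ range w \ S := fun h => by
    rw [mem_sdiff, mem_range] at h
    omega
  rw [prod_insert hw, prod_insert hw]
  have h1 : ∏ j ∈ range w \ S, sgR R v' j = ∏ j ∈ range w \ S, sgR R v j := by
    apply prod_congr rfl
    intro j hj
    rw [mem_sdiff, mem_range] at hj
    unfold sgR
    rw [hv j hj.1]
  rw [h1]
  have h2 : (∏ j ∈ S.erase w, sgR R v j) * (∏ j ∈ range w, sgR R v j)
      = ∏ j ∈ range w \ S, sgR R v j := by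
    have h3 : S.erase w ⊆ range w := by
      intro j hj
      rw [mem_erase] at hj
      have := hS j hj.2
      rw [mem_range]
      omega
    have h4 : range w \ S = range w \ S.erase w := by
      ext j
      rw [mem_sdiff, mem_sdiff, mem_erase, mem_range]
      constructor
      · rintro ⟨h5, h6⟩
        exact ⟨h5, fun h7 => h6 h7.2⟩
      · rintro ⟨h5, h6⟩
        exact ⟨h5, fun h7 => h6 ⟨by omega, h7⟩⟩
    rw [h4, ← prod_sdiff h3]
    have h5 : (∏ j ∈ S.erase w, sgR R v j) * (∏ j ∈ S.erase w, sgR R v j) = 1 := by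
      rw [← prod_mul_distrib]
      exact prod_eq_one (fun j _ => sgR_sq v j)
    linear_combination (∏ j ∈ range w \ S.erase w, sgR R v j) * h5
  unfold kap
  linear_combination (2 * (-1) ^ l * h ^ w * (sgR R v w - sgR R v' w)) * h2

end gen

end Dyn59
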