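import Pool.Agent.H.MP_d59dab.Onto

/-!
# MP_d59dab: Lemma SW (exact lifts over the `p`-adic integers)
-/

set_option autoImplicit false

open Finset Polynomial

noncomputable section

namespace Dyn59

section ring

variable {R : Type*} [CommRing R]

theorem exact_coeff (A B : R[X][X]) (a b : ℕ) : ((derivative B - Dz A).coeff a).coeff b
    = (B.coeff (a + 1)).coeff b * ((a : R) + 1) - (A.coeff a).coeff (b + 1) * ((b : R) + 1) := by
  rw [coeff_sub, coeff_sub, coeff_derivative, Dz_coeff, coeff_derivative]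
  congr 1
  have e3 : ((a : R[X]) + 1) = C ((a : R) + 1) := by simp
  rw [e3, coeff_mul_C]

theorem isEx_iff {f : R[X][X]} : IsEx f ↔ ∀ a b : ℕ, ∃ c d : R,
    (f.coeff a).coeff b = ((a : R) + 1) * c - ((b : R) + 1) * d := by
  constructor
  · rintro ⟨A, B, rfl⟩ a b
    refine ⟨(B.coeff (a + 1)).coeff b, (A.coeff a).coeff (b + 1), ?_⟩
    rw [exact_coeff]
    ring
  · intro h
    rw [← mem_exSub, f.as_sum_range_C_mul_X_pow]
    apply sum_mem
    intro a _
    have h1 : (C (f.coeff a) * X ^ a : R[X][X])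
        = ∑ b ∈ range ((f.coeff a).natDegree + 1), ((f.coeff a).coeff b) • (C (X ^ b) * X ^ a) := by
      conv_lhs => rw [(f.coeff a).as_sum_range_C_mul_X_pow]
      rw [map_sum, sum_mul]
      apply sum_congr rfl
      intro b _
      rw [Algebra.smul_def, C_mul, mul_assoc]
      rfl
    rw [h1]
    apply sum_mem
    intro b _
    obtain ⟨c, d, hcd⟩ := h a b
    rw [mem_exSub]
    refine ⟨d • (C (X ^ (b + 1)) * X ^ a), c • (C (X ^ b) * X ^ (a + 1)), ?_⟩
    have h2 : Dz (C (X ^ (b + 1)) * X ^ a : R[X][X]) = ((b : R) + 1) • (C (X ^ b) * X ^ a) := by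
      rw [Dz_mul, Dz_C, Dz_X_pow, mul_zero, add_zero, derivative_X_pow, Nat.add_sub_cancel,
        Algebra.smul_def]
      simp
      ring
    have h3 : derivative (C (X ^ b) * X ^ (a + 1) : R[X][X])
        = ((a : R) + 1) • (C (X ^ b) * X ^ a) := by
      rw [derivative_C_mul, derivative_X_pow, Nat.add_sub_cancel, Algebra.smul_def]
      simp
      ring
    rw [derivative_smul, Dz_smul, h2, h3, smul_smul, smul_smul, ← sub_smul, hcd]
    congr 1
    ring

end ring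

section field

variable {p : ℕ} [hp : Fact p.Prime]

theorem exists_pow_eq (k : ℕ) {n : ℕ} (hn : 0 < n) (h : ¬ p ^ (k + 1) ∣ n) :
    ∃ c : ℤ_[p], (p : ℤ_[p]) ^ k = (n : ℤ_[p]) * c := by
  obtain ⟨j, u, hu, rfl⟩ := Nat.exists_eq_pow_mul_and_not_dvd hn.ne' p hp.out.ne_one
  have hj : j ≤ k := by
    by_contra hjk
    apply h
    exact Dvd.dvd.mul_right (pow_dvd_pow p (by omega)) u
  have hunit : IsUnit ((u : ℕ) : ℤ_[p]) := by
    rw [PadicInt.isUnit_iff, PadicInt.norm_natCast_eq_one_iff]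
    exact (Nat.Prime.coprime_iff_not_dvd hp.out).2 hu
  obtain ⟨w, hw⟩ := hunit
  refine ⟨(p : ℤ_[p]) ^ (k - j) * (w⁻¹ : ℤ_[p]ˣ), ?_⟩
  push_cast
  rw [← hw]
  have h1 : (p : ℤ_[p]) ^ k = (p : ℤ_[p]) ^ j * (p : ℤ_[p]) ^ (k - j) := by
    rw [← pow_add]
    congr 1
    omega
  have h2 : (w : ℤ_[p]) * (w⁻¹ : ℤ_[p]ˣ) = 1 := Units.mul_inv w
  rw [h1]
  linear_combination (-(p : ℤ_[p]) ^ j * (p : ℤ_[p]) ^ (k - j)) * h2

/-- if `Car^(k+1)` kills `f` modulo `p` then `p^k f` is exact modulo `p^(k+1)` -/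
theorem exact_mod (k : ℕ) (f : ℤ_[p][X][X]) (hf : (Car p)^[k + 1] (red p f) = 0) :
    ∃ A B N : ℤ_[p][X][X], (p : ℤ_[p][X][X]) ^ k * f
      = derivative B - Dz A + (p : ℤ_[p][X][X]) ^ (k + 1) * N := by
  have hp0 : 0 < p := hp.out.pos
  have key : ∀ a b : ℕ, ∃ n : ℤ_[p], ∃ c d : ℤ_[p],
      (p : ℤ_[p]) ^ k * (f.coeff a).coeff b - (p : ℤ_[p]) ^ (k + 1) * n
        = ((a : ℤ_[p]) + 1) * c - ((b : ℤ_[p]) + 1) * d ∧
      ((f.coeff a).coeff b = 0 → n = 0) := by
    intro a b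
    by_cases h0 : (f.coeff a).coeff b = 0
    · exact ⟨0, 0, 0, by rw [h0]; ring, fun _ => rfl⟩
    by_cases ha : p ^ (k + 1) ∣ a + 1
    · by_cases hb : p ^ (k + 1) ∣ b + 1
      · obtain ⟨a', ha'⟩ := ha
        obtain ⟨b', hb'⟩ := hb
        have ha0 : 0 < a' := Nat.pos_of_ne_zero (fun h => by rw [h] at ha'; simp at ha')
        have hb0 : 0 < b' := Nat.pos_of_ne_zero (fun h => by rw [h] at hb'; simp at hb')
        have h1 := congrArg (fun g => (g.coeff (a' - 1)).coeff (b' - 1)) hf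
        simp only [coeff_zero] at h1
        rw [Car_iter_coeff, red_coeff, Nat.sub_add_cancel ha0, Nat.sub_add_cancel hb0, ← ha',
          ← hb', Nat.add_sub_cancel, Nat.add_sub_cancel, toZMod_eq_zero_iff_dvd] at h1
        obtain ⟨n, hn⟩ := h1
        exact ⟨n, 0, 0, by rw [hn]; ring, fun h => absurd h h0⟩
      · obtain ⟨c, hc⟩ := exists_pow_eq k (Nat.succ_pos b) hb
        refine ⟨0, 0, -(c * (f.coeff a).coeff b), ?_, fun _ => rfl⟩
        rw [hc]
        push_cast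
        ring
    · obtain ⟨c, hc⟩ := exists_pow_eq k (Nat.succ_pos a) ha
      refine ⟨0, c * (f.coeff a).coeff b, 0, ?_, fun _ => rfl⟩
      rw [hc]
      push_cast
      ring
  choose n c d hn hn0 using key
  -- the polynomial `N`
  set N : ℤ_[p][X][X] := ∑ a ∈ range (f.natDegree + 1), monomial a
    (∑ b ∈ range ((f.coeff a).natDegree + 1), monomial b (n a b)) with hN
  have hNc : ∀ a b, (N.coeff a).coeff b = n a b := by
    intro a b
    rw [hN, finsetSum_coeff]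
    simp only [coeff_monomial]
    rw [sum_ite_eq' (range (f.natDegree + 1)) a]
    by_cases h1 : a ∈ range (f.natDegree + 1)
    · rw [if_pos h1, finsetSum_coeff]
      simp only [coeff_monomial]
      rw [sum_ite_eq' (range ((f.coeff a).natDegree + 1)) b]
      by_cases h3 : b ∈ range ((f.coeff a).natDegree + 1)
      · rw [if_pos h3]
      · rw [if_neg h3, hn0]
        rw [mem_range, not_lt] at h3
        exact coeff_eq_zero_of_natDegree_lt (by omega)
    · rw [mem_range, not_lt] at h1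
      have h3 : f.coeff a = 0 := coeff_eq_zero_of_natDegree_lt (by omega)
      rw [if_neg (by rw [mem_range, not_lt]; exact h1), hn0 a b (by rw [h3, coeff_zero]),
        coeff_zero]
  have hex : IsEx ((p : ℤ_[p][X][X]) ^ k * f - (p : ℤ_[p][X][X]) ^ (k + 1) * N) := by
    rw [isEx_iff]
    intro a b
    refine ⟨c a b, d a b, ?_⟩
    have e2 : ∀ k, (p : ℤ_[p][X][X]) ^ k = C (C ((p : ℤ_[p]) ^ k)) := by intro k; simp
    rw [e2, e2, coeff_sub, coeff_sub, coeff_C_mul, coeff_C_mul, coeff_C_mul, coeff_C_mul, hNc, hn]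
  obtain ⟨A, B, hAB⟩ := hex
  exact ⟨A, B, N, by rw [← hAB]; ring⟩

/-- an even form which is exact modulo `p^k` is so with an even remainder -/
theorem even_remainder {c f' A B N : ℤ_[p][X][X]} (hc : sig ℤ_[p] c = c)
    (h : sig ℤ_[p] f' = derivative B - Dz A + c * N) :
    ∃ A' B' N', sig ℤ_[p] f' = derivative B' - Dz A' + c * sig ℤ_[p] N' := by
  obtain ⟨A0, A1, rfl⟩ := exists_decomp A
  obtain ⟨B0, B1, rfl⟩ := exists_decomp B
  obtain ⟨N0, N1, rfl⟩ := exists_decomp N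
  rw [exact_decomp hc] at h
  have h1 : sig ℤ_[p] f' + X * sig ℤ_[p] 0 = sig ℤ_[p]
      (B1 + 2 * (X - C X) * derivative B1 - derivative A0 - Dz A0 + c * N0)
      + X * sig ℤ_[p] (derivative (2 * B0 - A1) - Dz A1 + c * N1) := by
    rw [← h, map_zero, mul_zero, add_zero]
  obtain ⟨h2, -⟩ := decomp_unique h1
  refine ⟨sig ℤ_[p] A0, X * sig ℤ_[p] B1, N0, ?_⟩
  have h3 := exact_decomp (A0 := A0) (A1 := 0) (B0 := 0) (B1 := B1) (N0 := N0) (N1 := 0) hc
  simp only [map_zero, mul_zero, add_zero, zero_add, sub_zero, Dz_zero] at h3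
  rw [h3, h2]

theorem Car_iter_even (h2 : p ≠ 2) (k : ℕ) {f : (ZMod p)[X][X]}
    (hf : ∃ g, f = sig (ZMod p) g) : ∃ g, (Car p)^[k] f = sig (ZMod p) g := by
  induction k with
  | zero => exact hf
  | succ k ih => rw [Function.iterate_succ_apply']; exact Car_even h2 ih

theorem Car_iter_sub (k : ℕ) (f g : (ZMod p)[X][X]) :
    (Car p)^[k] (f - g) = (Car p)^[k] f - (Car p)^[k] g := by
  have hp0 : 0 < p := hp.out.pos
  induction k with
  | zero => rfl
  | succ k ih => rw [Function.iterate_succ_apply', ih, Car_sub hp0, Function.iterate_succ_apply',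
      Function.iterate_succ_apply']

/-- **Lemma SW** -/
theorem SW (h2 : p ≠ 2) {Q : ℤ} (hQ : 0 ≤ Q) {M : ℤ_[p][X][X]} (hM : M ∈ FQ ℤ_[p] Q)
    (h0 : Car p (red p M) = 0) :
    ∃ M' ∈ FQ ℤ_[p] Q, IsEx (M - (p : ℤ_[p][X][X]) * M') := by
  have hp0 : 0 < p := hp.out.pos
  have hstep : ∀ k : ℕ, ∃ M' ∈ FQ ℤ_[p] Q, ∃ A B N : ℤ_[p][X][X],
      M - (p : ℤ_[p][X][X]) * M' = derivative B - Dz A + (p : ℤ_[p][X][X]) ^ (k + 1) * N := by
    intro k
    induction k with
    | zero =>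
      obtain ⟨A, B, N, h⟩ := exact_mod 0 M (by simpa using h0)
      refine ⟨0, zero_mem _, A, B, N, ?_⟩
      rw [mul_zero, sub_zero, ← h, pow_zero, one_mul]
    | succ k ih =>
      obtain ⟨M', hM', A, B, N, h⟩ := ih
      have hf : M - (p : ℤ_[p][X][X]) * M' ∈ FQ ℤ_[p] Q := by
        apply sub_mem hM
        have : (p : ℤ_[p][X][X]) * M' = (p : ℤ_[p]) • M' := by
          rw [Algebra.smul_def, map_natCast]
        rw [this]
        exact Submodule.smul_mem _ _ hM'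
      have hf' := (FQ_iff _ _).1 hf
      obtain ⟨⟨f', hf1⟩, hf2⟩ := hf'
      have hc : sig ℤ_[p] ((p : ℤ_[p][X][X]) ^ (k + 1)) = (p : ℤ_[p][X][X]) ^ (k + 1) := by
        rw [map_pow, map_natCast]
      obtain ⟨A', B', N', h3⟩ := even_remainder hc (hf1 ▸ h)
      rw [← hf1] at h3
      have h4 : (Car p)^[k + 2] (red p (sig ℤ_[p] N')) ∈ FQ (ZMod p) (Q / (p : ℤ) ^ (k + 2)) := by
        rw [FQ_iff]
        constructor
        · apply Car_iter_even h2
          exact ⟨red p N', red_sig N'⟩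
        · intro v
          have h5 := lemL h2 v (k + 1) _ _ A' B' (sig ℤ_[p] N') h3 (hf2 v)
          rwa [Int.ediv_ediv_of_nonneg (by positivity), mul_comm,
            ← Int.ediv_ediv_of_nonneg (by positivity)] at h5
      obtain ⟨g, hg, hgf⟩ := Car_iter_onto h2 (k + 2) Q hQ _ h4
      obtain ⟨G, hG, rfl⟩ := SP_lift hg
      have h6 : (Car p)^[k + 1 + 1] (red p (sig ℤ_[p] N' - G)) = 0 := by
        rw [map_sub, Car_iter_sub, ← hgf, sub_self]
      obtain ⟨A2, B2, N2, h7⟩ := exact_mod (k + 1) _ h6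
      refine ⟨M' + (p : ℤ_[p]) ^ k • G, add_mem hM' (Submodule.smul_mem _ _ hG), A' + A2, B' + B2,
        N2, ?_⟩
      have h8 : (p : ℤ_[p][X][X]) * (M' + (p : ℤ_[p]) ^ k • G)
          = (p : ℤ_[p][X][X]) * M' + (p : ℤ_[p][X][X]) ^ (k + 1) * G := by
        rw [Algebra.smul_def, map_pow, map_natCast, pow_succ]
        ring
      rw [h8, ← sub_sub, h3, Dz_add, derivative_add, pow_succ (p : ℤ_[p][X][X]) (k + 1)]
      rw [pow_succ (p : ℤ_[p][X][X]) (k + 1)] at h7
      linear_combination h7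
  obtain ⟨M', hM', A, B, N, h⟩ := hstep Q.toNat
  refine ⟨M', hM', ?_⟩
  have hf : M - (p : ℤ_[p][X][X]) * M' ∈ FQ ℤ_[p] Q := by
    apply sub_mem hM
    have : (p : ℤ_[p][X][X]) * M' = (p : ℤ_[p]) • M' := by
      rw [Algebra.smul_def, map_natCast]
    rw [this]
    exact Submodule.smul_mem _ _ hM'
  have hf0 := ((FQ_iff _ _).1 hf).2 0
  rw [pow_zero, Int.ediv_one] at hf0
  rw [isEx_iff]
  intro a b
  by_cases h1 : ((M - (p : ℤ_[p][X][X]) * M').coeff a).coeff b = 0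
  · exact ⟨0, 0, by rw [h1]; ring⟩
  · have h3 := hf0 a b h1
    have h4 : a + 1 ≤ Q.toNat := by omega
    have h5 : ¬ p ^ (Q.toNat + 1 + 1) ∣ a + 1 := by
      intro h6
      have h7 := Nat.le_of_dvd (Nat.succ_pos a) h6
      have h8 : Q.toNat + 1 + 1 < p ^ (Q.toNat + 1 + 1) := Nat.lt_pow_self hp.out.one_lt
      omega
    obtain ⟨c, hc⟩ := exists_pow_eq (Q.toNat + 1) (Nat.succ_pos a) h5
    have e2 : (p : ℤ_[p][X][X]) ^ (Q.toNat + 1) = C (C ((p : ℤ_[p]) ^ (Q.toNat + 1))) := by simp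
    refine ⟨(B.coeff (a + 1)).coeff b + c * (N.coeff a).coeff b, (A.coeff a).coeff (b + 1), ?_⟩
    rw [h, coeff_add, coeff_add, exact_coeff, e2, coeff_C_mul, coeff_C_mul, hc]
    push_cast
    ring

end field

end Dyn59
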