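import Pool.Agent.H.MP_d59dab.FlipF
import Pool.Agent.H.MP_d59dab.SW

/-!
# MP_d59dab: the one-step reduction from the window statement
-/

set_option autoImplicit false
set_option maxHeartbeats 400000

open Finset Polynomial

noncomputable section

namespace Dyn59

/-- the sets of exponents allowed in the window `w` -/
def PTw (w : ℕ) (A : Finset ℕ) (k : ℕ) : Prop := A ⊆ Ico 1 (w + 1) ∧ #(A.erase w) + 2 * k + 4 ≤ w

/-- the subsets of `[0, w]` containing `0, w - 1, w`, of even cardinality at least four -/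
def Jw (w : ℕ) : Finset (Finset ℕ) := by
  classical
  exact ((range (w + 1)).powerset).filter
    (fun J => 0 ∈ J ∧ w - 1 ∈ J ∧ w ∈ J ∧ Even #J ∧ 4 ≤ #J)

theorem mem_Jw {w : ℕ} {J : Finset ℕ} : J ∈ Jw w ↔ J ⊆ range (w + 1) ∧ 0 ∈ J ∧ w - 1 ∈ J ∧ w ∈ J ∧
    Even #J ∧ 4 ≤ #J := by
  unfold Jw
  rw [mem_filter, mem_powerset]

section gen

variable {R : Type*} [CommRing R]

theorem PTw.le {w : ℕ} {A : Finset ℕ} {k : ℕ} (h : PTw w A k) : ∀ j ∈ A, j ≤ w := by
  intro j hj
  have := mem_Ico.1 (h.1 hj)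
  omega

theorem PTw.lam_le {w : ℕ} {A : Finset ℕ} {k : ℕ} (h : PTw w A k) :
    lam w A k ≤ 0 ∧ (w ∉ A → lam w A k < 0) := by
  rw [lam_of_le h.le]
  have h2 := h.2
  constructor
  · by_cases hw : w ∈ A
    · have h3 := card_erase_add_one hw
      omega
    · rw [erase_eq_of_notMem hw] at h2
      omega
  · intro hw
    rw [erase_eq_of_notMem hw] at h2
    omega

section fam

variable {h : R} {e : ℕ → R} {w : ℕ} {u u' : PowerSeries R} {Y : ℕ → PowerSeries R[X]}
  (F : Fam h e w u u' Y)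

include F

theorem Fam.GG_T (hw : 0 < w) {T : R[X][X]} (hT : T ∈ SP R (PTw w)) :
    ∃ τ : R, GG (tm (Y 0) (-1)) T = C τ * ((C (PowerSeries.coeff 0 u')
        + X * C (PowerSeries.coeff 0 u - PowerSeries.coeff 0 u'))
        * C (PowerSeries.coeff 0 u - PowerSeries.coeff 0 u')) := by
  refine SP.induction (Pr := fun T => ∃ τ : R, GG (tm (Y 0) (-1)) T = C τ *
    ((C (PowerSeries.coeff 0 u') + X * C (PowerSeries.coeff 0 u - PowerSeries.coeff 0 u'))
        * C (PowerSeries.coeff 0 u - PowerSeries.coeff 0 u'))) ?_ ?_ ?_ ?_ hT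
  · exact ⟨0, by rw [GG_zero, C_0, zero_mul]⟩
  · rintro f g ⟨a, ha⟩ ⟨b, hb⟩
    exact ⟨a + b, by rw [GG_add, ha, hb, C_add (a := a) (b := b)]; ring⟩
  · rintro c f ⟨a, ha⟩
    exact ⟨c * a, by rw [GG_smul, ha, C_mul, mul_assoc]⟩
  · intro A k hA
    obtain ⟨h1, h2⟩ := hA.lam_le
    by_cases hwA : w ∈ A
    · rcases lt_or_eq_of_le h1 with h3 | h3
      · exact ⟨0, by rw [F.GG_neg hA.le h3, C_0, zero_mul]⟩
      · exact ⟨_, F.GG_zero_mem hw hA.le h3 hwA⟩
    · exact ⟨0, by rw [F.GG_neg hA.le (h2 hwA), C_0, zero_mul]⟩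

theorem Fam.GG_mo_degree (hw : 0 < w) {S : Finset ℕ} {l : ℕ} (hS : ∀ j ∈ S, j ≤ w)
    (hl : lam w S l ≤ 1) : (GG (tm (Y 0) (-1)) (mo R S l)).natDegree ≤ 2 := by
  rcases lt_or_eq_of_le hl with h1 | h1
  · have h2 : lam w S l ≤ 0 := by omega
    rcases lt_or_eq_of_le h2 with h3 | h3
    · rw [F.GG_neg hS h3, natDegree_zero]
      exact Nat.zero_le 2
    · by_cases hwS : w ∈ S
      · rw [F.GG_zero_mem hw hS h3 hwS]
        refine (natDegree_C_mul_le _ _).trans ?_
        refine (natDegree_mul_C_le _ _).trans ?_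
        refine natDegree_add_le_of_degree_le ?_ ?_
        · rw [natDegree_C]; exact Nat.zero_le 2
        · refine (natDegree_mul_C_le _ _).trans ?_
          exact natDegree_X_le.trans (by norm_num)
      · rw [F.GG_zero_notMem hw hS h3 hwS, natDegree_C]
        exact Nat.zero_le 2
  · by_cases hwS : w ∈ S
    · exact (F.GG_one_mem hw hS h1 hwS).1
    · exact (F.GG_one_notMem hw hS h1 hwS).trans (by norm_num)

theorem Fam.GG_degree (hw : 0 < w) {Q : ℤ} (hQ : Q < 2 ^ (w + 1)) {M : R[X][X]}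
    (hM : M ∈ FQ R Q) : (GG (tm (Y 0) (-1)) M).natDegree ≤ 2 := by
  refine SP.induction (Pr := fun M => (GG (tm (Y 0) (-1)) M).natDegree ≤ 2) ?_ ?_ ?_ ?_ hM
  · rw [GG_zero, natDegree_zero]
    exact Nat.zero_le 2
  · intro f g hf hg
    rw [GG_add]
    exact natDegree_add_le_of_degree_le hf hg
  · intro c f hf
    rw [GG_smul]
    exact (natDegree_C_mul_le _ _).trans hf
  · rintro S l ⟨-, h1⟩
    obtain ⟨hS, hl⟩ := FQ_shape hQ h1
    exact F.GG_mo_degree hw hS hl

/-- the coefficient of `s^2` on a basis element -/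
theorem Fam.GG_mo_two (hw : 0 < w) {S : Finset ℕ} {l : ℕ} (hS : ∀ j ∈ S, j ≤ w)
    (hl : lam w S l ≤ 1) : (GG (tm (Y 0) (-1)) (mo R S l)).coeff 2
      = if lam w S l = 1 ∧ w ∈ S ∧ w - 1 ∉ S then
        kap h e w S l * (PowerSeries.coeff 0 u - PowerSeries.coeff 0 u')
          * (-(h * (PowerSeries.coeff 0 u - PowerSeries.coeff 0 u')))
          * (PowerSeries.coeff 0 u - PowerSeries.coeff 0 u') else 0 := by
  rcases lt_or_eq_of_le hl with h1 | h1
  · rw [if_neg (fun h2 => h1.ne h2.1)]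
    have h2 : lam w S l ≤ 0 := by omega
    rcases lt_or_eq_of_le h2 with h3 | h3
    · rw [F.GG_neg hS h3, coeff_zero]
    · apply coeff_eq_zero_of_natDegree_lt
      by_cases hwS : w ∈ S
      · rw [F.GG_zero_mem hw hS h3 hwS]
        refine lt_of_le_of_lt ?_ (by norm_num : 1 < 2)
        refine (natDegree_C_mul_le _ _).trans ?_
        refine (natDegree_mul_C_le _ _).trans ?_
        refine natDegree_add_le_of_degree_le ?_ ?_
        · rw [natDegree_C]; exact Nat.zero_le 1
        · exact (natDegree_mul_C_le _ _).trans natDegree_X_le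
      · rw [F.GG_zero_notMem hw hS h3 hwS, natDegree_C]
        norm_num
  · by_cases hwS : w ∈ S
    · rw [(F.GG_one_mem hw hS h1 hwS).2]
      by_cases h2 : w - 1 ∈ S
      · rw [if_pos h2, if_neg (fun h3 => h3.2.2 h2)]
        ring
      · rw [if_neg h2, if_pos ⟨h1, hwS, h2⟩]
    · rw [if_neg (fun h3 => hwS h3.2.1)]
      apply coeff_eq_zero_of_natDegree_lt
      have := F.GG_one_notMem hw hS h1 hwS
      omega

theorem Fam.GG_two_zero {m : ℕ} (hwm : w = m + 1) {Q : ℤ} (hQ : Q < 3 * 2 ^ m) {M : R[X][X]}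
    (hM : M ∈ FQ R Q) : (GG (tm (Y 0) (-1)) M).coeff 2 = 0 := by
  have hQ' : Q < 2 ^ (w + 1) := by
    rw [hwm, pow_succ, pow_succ]
    have : (0 : ℤ) < 2 ^ m := by positivity
    linarith
  refine SP.induction (Pr := fun M => (GG (tm (Y 0) (-1)) M).coeff 2 = 0) ?_ ?_ ?_ ?_ hM
  · rw [GG_zero, coeff_zero]
  · intro f g hf hg
    rw [GG_add, coeff_add, hf, hg, add_zero]
  · intro c f hf
    rw [GG_smul, coeff_C_mul, hf, mul_zero]
  · rintro S l ⟨-, h1⟩
    obtain ⟨hS, hl⟩ := FQ_shape hQ' h1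
    rw [F.GG_mo_two (by omega) hS hl, if_neg]
    rintro ⟨h3, h4, -⟩
    rw [hwm] at h3 h4 hS
    exact FQ_shape3 hQ hS h1 h3 h4

end fam

theorem GG_two {h : R} {w : ℕ} (hw : 0 < w) {Q : ℤ} (hQ : Q < 2 ^ (w + 1)) {M : R[X][X]}
    (hM : M ∈ FQ R Q) : ∃ c : Finset ℕ → R, ∀ v v' : ℕ → ℤˣ, (∀ j < w, v j = v' j) →
      ∀ Y : ℕ → PowerSeries R[X], Fam h (sgR R v) w (yG h (sh^[w] v)) (yG h (sh^[w] v')) Y →
        (GG (tm (Y 0) (-1)) M).coeff 2
          = ∑ J ∈ Jw w, c J * (∏ j ∈ J, sgR R v j - ∏ j ∈ J, sgR R v' j) := by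
  refine SP.induction (Pr := fun M => ∃ c : Finset ℕ → R, ∀ v v' : ℕ → ℤˣ,
      (∀ j < w, v j = v' j) →
      ∀ Y : ℕ → PowerSeries R[X], Fam h (sgR R v) w (yG h (sh^[w] v)) (yG h (sh^[w] v')) Y →
        (GG (tm (Y 0) (-1)) M).coeff 2
          = ∑ J ∈ Jw w, c J * (∏ j ∈ J, sgR R v j - ∏ j ∈ J, sgR R v' j)) ?_ ?_ ?_ ?_ hM
  · refine ⟨0, fun v v' _ Y _ => ?_⟩
    rw [GG_zero, coeff_zero]
    simp
  · rintro f g ⟨c, hc⟩ ⟨d, hd⟩
    refine ⟨c + d, fun v v' hv Y F => ?_⟩
    rw [GG_add, coeff_add, hc v v' hv Y F, hd v v' hv Y F, ← sum_add_distrib]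
    apply sum_congr rfl
    intro J _
    rw [Pi.add_apply]
    ring
  · rintro a f ⟨c, hc⟩
    refine ⟨fun J => a * c J, fun v v' hv Y F => ?_⟩
    rw [GG_smul, coeff_C_mul, hc v v' hv Y F, mul_sum]
    apply sum_congr rfl
    intro J _
    ring
  · rintro S l ⟨h0, h1⟩
    obtain ⟨hS, hl⟩ := FQ_shape hQ h1
    by_cases hcase : lam w S l = 1 ∧ w ∈ S ∧ w - 1 ∉ S
    · obtain ⟨h3, h4, h5⟩ := hcase
      have hJ : insert w (range w \ S) ∈ Jw w := by
        have hw' : w ∉ range w \ S := fun h => by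
          rw [mem_sdiff, mem_range] at h
          omega
        have hcard : #(range w \ S) + #S = w + 1 := by
          have h6 : S.erase w ⊆ range w := by
            intro j hj
            rw [mem_erase] at hj
            have := hS j hj.2
            rw [mem_range]
            omega
          have h7 : range w \ S = range w \ S.erase w := by
            ext j
            rw [mem_sdiff, mem_sdiff, mem_erase, mem_range]
            constructor
            · rintro ⟨h5, h6⟩
              exact ⟨h5, fun h7 => h6 h7.2⟩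
            · rintro ⟨h5, h6⟩
              exact ⟨h5, fun h7 => h6 ⟨by omega, h7⟩⟩
          have h8 := card_sdiff_add_card_eq_card h6
          rw [← h7, card_range] at h8
          have h9 := card_erase_add_one h4
          omega
        rw [lam_of_le hS] at h3
        have hc2 : #(insert w (range w \ S)) = 2 * l + 4 := by
          rw [card_insert_of_notMem hw']
          omega
        rw [mem_Jw]
        refine ⟨?_, ?_, ?_, mem_insert_self _ _, ?_, ?_⟩
        · intro j hj
          rw [mem_insert, mem_sdiff, mem_range] at hj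
          rw [mem_range]
          omega
        · rw [mem_insert, mem_sdiff, mem_range]
          exact Or.inr ⟨hw, h0⟩
        · rw [mem_insert, mem_sdiff, mem_range]
          exact Or.inr ⟨by omega, h5⟩
        · rw [hc2]
          exact ⟨l + 2, by ring⟩
        · rw [hc2]
          omega
      classical
      refine ⟨fun J => if J = insert w (range w \ S) then
        -(4 * h) * (2 * (-1) ^ l * h ^ w) else 0, fun v v' hv Y F => ?_⟩
      rw [F.GG_mo_two hw hS hl, if_pos ⟨h3, h4, h5⟩, u_const, u_const]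
      simp only [ite_mul, zero_mul]
      rw [sum_ite_eq' (Jw w) (insert w (range w \ S)), if_pos hJ]
      have h6 := kap_mul (h := h) hv hS l
      have h7 := sgR_sq (R := R) v w
      have h8 := sgR_sq (R := R) v' w
      have h9 : (sgR R v w - sgR R v' w) * (sgR R v w - sgR R v' w) * (sgR R v w - sgR R v' w)
          = 4 * (sgR R v w - sgR R v' w) := by
        linear_combination (sgR R v w - 3 * sgR R v' w) * h7 + (3 * sgR R v w - sgR R v' w) * h8
      linear_combination (-(4 * h)) * h6 - (kap h (sgR R v) w S l * h) * h9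
    · refine ⟨0, fun v v' hv Y F => ?_⟩
      rw [F.GG_mo_two hw hS hl, if_neg hcase]
      simp

end gen

section padic

variable {p : ℕ} [hp : Fact p.Prime]

theorem exists_inv_nat {n : ℕ} (hn : 0 < n) (h : ¬ p ∣ n) : ∃ h : ℤ_[p], (n : ℤ_[p]) * h = 1 := by
  obtain ⟨c, hc⟩ := exists_pow_eq (p := p) 0 hn (by simpa using h)
  exact ⟨c, by rw [← hc, pow_zero]⟩

theorem not_dvd_of_prime {q : ℕ} (hq : q.Prime) (h : p ≠ q) : ¬ p ∣ q :=
  fun h1 => h ((Nat.prime_dvd_prime_iff_eq hp.out hq).1 h1)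

theorem Rz_red {h : ℤ_[p]} (hh : 2 * h = 1) (A B : ℤ_[p][X][X]) (v : ℕ → ℤˣ) :
    PadicInt.toZMod (Rz h A B v) = resid (red p A) (red p B) v := by
  unfold Rz
  rw [resG_map, resid_eq, lmG_tm]
  have h1 : PowerSeries.map (PadicInt.toZMod (p := p)) (yG h v) = yy (ZMod p) v := by
    ext k
    rw [PowerSeries.coeff_map, yG_coeff, map_cfG, yy_coeff, cfG_field]
    have := congrArg (PadicInt.toZMod (p := p)) hh
    rwa [map_mul, map_ofNat, map_one] at this
  rw [h1]
  rfl

theorem eval_sub_eval (h2 : p ≠ 2) {F G : ℤ_[p][X]} {a τ b b' h : ℤ_[p]} (hh : 2 * h = 1)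
    (hb : b * b = 1) (hb' : b' * b' = 1)
    (hF : derivative F = C a - C τ * ((C b' + X * C (b - b')) * C (b - b')) - C (p : ℤ_[p]) * G)
    (hG : G.natDegree ≤ 2) :
    ∃ r, F.eval 1 - F.eval 0 = a - (if p = 3 then G.coeff 2 else 0) + p * r := by
  have hp0 : (p : ℤ_[p]) ≠ 0 := by exact_mod_cast hp.out.ne_zero
  set F1 : ℤ_[p][X] := C a * X - C τ * ((C b' * X + C h * X ^ 2 * C (b - b')) * C (b - b'))
    with hF1
  set H := F - F1 with hH
  have hdF1 : derivative F1 = C a - C τ * ((C b' + X * C (b - b')) * C (b - b')) := by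
    rw [hF1]
    have h3 : derivative (C h * X ^ 2 : ℤ_[p][X]) = X := by
      rw [derivative_C_mul, derivative_X_pow]
      have : (C h : ℤ_[p][X]) * (C ((2 : ℕ) : ℤ_[p]) * X ^ (2 - 1)) = C (2 * h) * X := by
        rw [C_mul]
        simp
        ring
      rw [this, hh, C_1, one_mul]
    rw [derivative_sub, derivative_C_mul, derivative_X, derivative_C_mul, derivative_mul,
      derivative_C, derivative_add, derivative_C_mul, derivative_X, derivative_mul, h3,
      derivative_C]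
    ring
  have hdH : derivative H = - (C (p : ℤ_[p]) * G) := by
    rw [hH, derivative_sub, hdF1, hF]
    ring
  have hc : ∀ n, H.coeff (n + 1) * ((n : ℤ_[p]) + 1) = -(p * G.coeff n) := by
    intro n
    rw [← coeff_derivative, hdH, coeff_neg, coeff_C_mul]
  have hdeg : H.natDegree < 4 := by
    rw [Nat.lt_succ_iff, natDegree_le_iff_coeff_eq_zero]
    intro n hn
    obtain ⟨m, rfl⟩ : ∃ m, n = m + 1 := ⟨n - 1, by omega⟩
    have h3 := hc m
    rw [coeff_eq_zero_of_natDegree_lt (p := G) (by omega), mul_zero, neg_zero] at h3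
    have h4 : ((m : ℤ_[p]) + 1) ≠ 0 := by
      have : ((m + 1 : ℕ) : ℤ_[p]) ≠ 0 := by exact_mod_cast Nat.succ_ne_zero m
      push_cast at this
      exact this
    exact (mul_eq_zero.1 h3).resolve_right h4
  have he : H.eval 1 - H.eval 0 = H.coeff 1 + H.coeff 2 + H.coeff 3 := by
    rw [eval_eq_sum_range' hdeg, eval_eq_sum_range' hdeg]
    simp [sum_range_succ]
    ring
  have h1 := hc 0
  have h3 := hc 1
  have h4 := hc 2
  simp only [zero_add, Nat.cast_zero, Nat.cast_one, Nat.cast_ofNat, mul_one] at h1 h3 h4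
  have hF1e : F1.eval 1 - F1.eval 0 = a := by
    rw [hF1]
    simp only [eval_sub, eval_mul, eval_C, eval_X, eval_add, eval_pow]
    linear_combination (-(τ * h)) * hb + τ * h * hb' + (-(τ * b' * (b - b'))) * (1 - 1) *
      hh + (τ * b' * (b - b')) * hh
  have hFe : F.eval 1 - F.eval 0 = a + (H.eval 1 - H.eval 0) := by
    have e1 : ∀ x, H.eval x = F.eval x - F1.eval x := fun x => by
      rw [hH]
      exact eval_sub F F1 x
    rw [e1, e1]
    linear_combination hF1e
  rw [hFe, he]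
  have h5 : H.coeff 2 = -(p * (h * G.coeff 1)) := by
    linear_combination h * h3 - (H.coeff 2) * hh
  by_cases hp3 : p = 3
  · rw [if_pos hp3]
    have h6 : H.coeff 3 = - G.coeff 2 := by
      have h7 : (p : ℤ_[p]) * H.coeff 3 = p * (- G.coeff 2) := by
        have h8 : (p : ℤ_[p]) = 2 + 1 := by
          have h9 : (p : ℤ_[p]) = ((3 : ℕ) : ℤ_[p]) := congrArg Nat.cast hp3
          rw [h9]
          norm_num
        linear_combination (H.coeff 3) * h8 + h4
      exact mul_left_cancel₀ hp0 h7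
    exact ⟨-(G.coeff 0) - h * G.coeff 1, by linear_combination h1 + h5 + h6⟩
  · rw [if_neg hp3]
    obtain ⟨t, ht⟩ := exists_inv_nat (p := p) (n := 3) (by norm_num)
      (not_dvd_of_prime Nat.prime_three hp3)
    have ht' : (2 + 1 : ℤ_[p]) * t = 1 := by
      have h8 : (2 + 1 : ℤ_[p]) = ((3 : ℕ) : ℤ_[p]) := by norm_num
      rw [h8, ht]
    have h6 : H.coeff 3 = -(p * (t * G.coeff 2)) := by
      linear_combination t * h4 - (H.coeff 3) * ht'
    exact ⟨-(G.coeff 0) - h * G.coeff 1 - t * G.coeff 2, by linear_combination h1 + h5 + h6⟩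

end padic

end Dyn59
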