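import Pool.Agent.H.MP_d59dab.Final
import Pool.Agent.H.MP_d59dab.FlipG

/-!
# MP_d59dab: `RedJ` from the window statement
-/

set_option autoImplicit false
set_option maxHeartbeats 400000

open Finset Polynomial

noncomputable section

namespace Dyn59

/-! ### parity of residues -/

section parity

variable {R : Type*} [CommRing R]

theorem evG_sig (x : LaurentSeries R) (f : R[X][X]) :
    evG x (sig R f) = evG (x ^ 2 + zG R) f := by
  have h : (evG x).comp (sig R) = evG (x ^ 2 + zG R) := by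
    apply Polynomial.ringHom_ext
    · intro a
      rw [RingHom.comp_apply, sig_C, evG_C, evG_C]
    · rw [RingHom.comp_apply, sig_X, map_add, map_pow, evG_X, evG_C, zeG_X, evG_X]
  exact congrArg (fun φ => φ f) h

theorem thG_neg (x : LaurentSeries R) : thG (-x) = - thG x := by
  ext n
  rw [thG_coeff, HahnSeries.coeff_neg, HahnSeries.coeff_neg, thG_coeff]
  ring

theorem resG_odd (A0 B1 : R[X][X]) (x : LaurentSeries R) :
    resG (sig R A0) (-2 * (X * sig R B1)) (-x) = - resG (sig R A0) (-2 * (X * sig R B1)) x := by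
  unfold resG
  rw [← HahnSeries.coeff_neg, map_mul, map_mul, map_mul, map_mul, evG_X, evG_X, evG_sig, evG_sig,
    evG_sig, evG_sig, thG_neg, neg_sq]
  congr 1
  have h1 : ∀ y : LaurentSeries R, evG y (-2 : R[X][X]) = -2 := fun y => by
    rw [map_neg, map_ofNat]
  rw [h1, h1]
  ring

theorem cf_flip {K : Type*} [Field K] {v v' : ℕ → ℤˣ} (h0 : v' 0 = - v 0)
    (h : ∀ j, v' (j + 1) = v (j + 1)) (k : ℕ) : cf K k v' = - cf K k v := by
  have hsh : sh v' = sh v := funext h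
  induction k using Nat.strong_induction_on with
  | _ k ih =>
    cases k with
    | zero => rw [cf_zero, cf_zero, h0]; push_cast; ring
    | succ k =>
      rw [cf_succ, cf_succ, hsh, h0]
      have h3 : ∀ i ∈ range k, cf K (i + 1) v' * cf K (k - i) v'
          = cf K (i + 1) v * cf K (k - i) v := by
        intro i hi
        rw [mem_range] at hi
        rw [ih (i + 1) (by omega), ih (k - i) (by omega)]
        ring
      rw [sum_congr rfl h3]
      have h4 : (2 * (((-v 0 : ℤˣ) : ℤ) : K))⁻¹ = -(2 * ((v 0 : ℤ) : K))⁻¹ := by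
        rw [← inv_neg]
        congr 1
        push_cast
        ring
      rw [h4]
      ring

theorem xx_flip {K : Type*} [Field K] {v v' : ℕ → ℤˣ} (h0 : v' 0 = - v 0)
    (h : ∀ j, v' (j + 1) = v (j + 1)) : xx K v' = - xx K v := by
  ext n
  rw [HahnSeries.coeff_neg]
  by_cases hn : n < -1
  · rw [xx_coeff_neg _ hn, xx_coeff_neg _ hn, neg_zero]
  · obtain ⟨j, hj⟩ := Int.eq_ofNat_of_zero_le (show 0 ≤ n + 1 by omega)
    have h1 : n = (j : ℤ) - 1 := by omega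
    rw [h1, xx_coeff, xx_coeff, cf_flip h0 h]

theorem resid_odd {K : Type*} [Field K] (A0 B1 : K[X][X]) {v v' : ℕ → ℤˣ} (h0 : v' 0 = - v 0)
    (h : ∀ j, v' (j + 1) = v (j + 1)) :
    resid (sig K A0) (-2 * (X * sig K B1)) v' = - resid (sig K A0) (-2 * (X * sig K B1)) v := by
  rw [resid_eq, resid_eq, xx_flip h0 h, resG_odd]

end parity

section padic

variable {p : ℕ} [hp : Fact p.Prime]

/-- an even exact form has an even-odd primitive -/
theorem even_primitive {f' : ℤ_[p][X][X]} (h : IsEx (sig ℤ_[p] f')) :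
    ∃ A0 B1, sig ℤ_[p] f' = derivative (X * sig ℤ_[p] B1) - Dz (sig ℤ_[p] A0) := by
  obtain ⟨A, B, hAB⟩ := h
  obtain ⟨A0, A1, rfl⟩ := exists_decomp A
  obtain ⟨B0, B1, rfl⟩ := exists_decomp B
  have h1 := exact_decomp (A0 := A0) (A1 := A1) (B0 := B0) (B1 := B1) (N0 := 0) (N1 := 0)
    (c := (0 : ℤ_[p][X][X])) (map_zero _)
  rw [zero_mul, add_zero, ← hAB] at h1
  have h2 : sig ℤ_[p] f' + X * sig ℤ_[p] 0 = sig ℤ_[p]
      (B1 + 2 * (X - C X) * derivative B1 - derivative A0 - Dz A0 + 0 * 0)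
      + X * sig ℤ_[p] (derivative (2 * B0 - A1) - Dz A1 + 0 * 0) := by
    rw [← h1, map_zero, mul_zero, add_zero]
  obtain ⟨h3, -⟩ := decomp_unique h2
  refine ⟨A0, B1, ?_⟩
  have h4 := exact_decomp (A0 := A0) (A1 := 0) (B0 := 0) (B1 := B1) (N0 := 0) (N1 := 0)
    (c := (0 : ℤ_[p][X][X])) (map_zero _)
  simp only [map_zero, mul_zero, add_zero, zero_add, sub_zero, Dz_zero] at h4
  rw [h4, h3]
  simp

theorem sg_prod {K : Type*} [Field K] (J : Finset ℕ) (v : ℕ → ℤˣ) :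
    sg K (∏ j ∈ J, v j) = (((∏ j ∈ J, v j : ℤˣ) : ℤ) : K) := by simp [sg]

theorem toZMod_prod (J : Finset ℕ) (v : ℕ → ℤˣ) :
    PadicInt.toZMod (∏ j ∈ J, sgR ℤ_[p] v j) = sg (ZMod p) (∏ j ∈ J, v j) := by
  rw [prod_sgR, map_intCast, sg_prod]

theorem GG_sub {R : Type*} [CommRing R] (x : LaurentSeries R[X]) (f g : R[X][X]) :
    GG x (f - g) = GG x f - GG x g := by
  have h1 : f - g = f + (-1 : R) • g := by
    rw [neg_one_smul]
    ring
  rw [h1, GG_add, GG_smul, C_neg, C_1]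
  ring

/-- **core of the flip argument** -/
theorem flip_core (h2 : p ≠ 2) {w l : ℕ} {I : Finset ℕ} (hw : 0 < w) (hI : I ⊆ Ico 1 w)
    (hIl : #I + 2 * l + 3 = w) {Q : ℤ} (hQ0 : 0 ≤ Q) (hQ : Q < 2 ^ (w + 1))
    (hIQ : ∀ v, (2 : ℤ) ^ v * lam v I l ≤ Q) {T : (ZMod p)[X][X]}
    (hT1 : T ∈ SP (ZMod p) (PTw w)) (hT2 : T ∈ FQ (ZMod p) Q)
    (hC : Car p (mo (ZMod p) I l - T) = 0) :
    ∃ (A B : (ZMod p)[X][X]) (c : ZMod p) (cc : Finset ℕ → ZMod p), c ≠ 0 ∧
      (∀ v v' : ℕ → ℤˣ, (∀ j < w, v j = v' j) → resid A B v - resid A B v'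
        = c * (sg (ZMod p) (∏ j ∈ insert w (range w \ I), v j)
            - sg (ZMod p) (∏ j ∈ insert w (range w \ I), v' j))
          + ∑ J ∈ Jw w, cc J * (sg (ZMod p) (∏ j ∈ J, v j) - sg (ZMod p) (∏ j ∈ J, v' j))) ∧
      ((p ≠ 3 ∨ ∃ m, w = m + 1 ∧ Q < 3 * 2 ^ m) → ∀ J, cc J = 0) ∧
      (∀ v v' : ℕ → ℤˣ, v' 0 = - v 0 → (∀ j, v' (j + 1) = v (j + 1)) →
        resid A B v' = - resid A B v) := by
  have hIw : ∀ j ∈ I, j ≤ w := fun j hj => by
    have := mem_Ico.1 (hI hj)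
    omega
  have h0I : 0 ∉ I := fun h => by
    have := mem_Ico.1 (hI h)
    omega
  have hwI : w ∉ I := fun h => by
    have := mem_Ico.1 (hI h)
    omega
  -- lift of `T`
  have hT3 : T ∈ SP (ZMod p) (fun A k => PTw w A k ∧ (0 ∉ A ∧ ∀ v, (2 : ℤ) ^ v * lam v A k ≤ Q)) := by
    rw [mem_SP_iff]
    intro A k h
    exact ⟨mem_SP_iff.1 hT1 A k h, mem_SP_iff.1 hT2 A k h⟩
  obtain ⟨T', hT', rfl⟩ := SP_lift hT3
  have hT4 : T' ∈ SP ℤ_[p] (PTw w) := SP.mono (fun _ _ h => h.1) hT'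
  have hT5 : T' ∈ FQ ℤ_[p] Q := SP.mono (fun _ _ h => h.2) hT'
  have hM : mo ℤ_[p] I l - T' ∈ FQ ℤ_[p] Q := sub_mem (mo_mem_SP ⟨h0I, hIQ⟩) hT5
  have hCM : Car p (red p (mo ℤ_[p] I l - T')) = 0 := by rw [map_sub, red_mo]; exact hC
  obtain ⟨M', hM', hex⟩ := SW h2 hQ0 hM hCM
  have hpM : (p : ℤ_[p][X][X]) * M' = (p : ℤ_[p]) • M' := by rw [Algebra.smul_def, map_natCast]
  have hMM : mo ℤ_[p] I l - T' - (p : ℤ_[p][X][X]) * M' ∈ FQ ℤ_[p] Q := by
    apply sub_mem hM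
    rw [hpM]
    exact Submodule.smul_mem _ _ hM'
  obtain ⟨⟨f', hf'⟩, -⟩ := (FQ_iff _ _).1 hMM
  rw [hf'] at hex
  obtain ⟨A0, B1, hAB⟩ := even_primitive hex
  obtain ⟨h, hh⟩ := exists_inv_nat (p := p) (n := 2) (by norm_num)
    (not_dvd_of_prime Nat.prime_two h2)
  have hh2 : (2 : ℤ_[p]) * h = 1 := by
    rw [← hh]
    norm_num
  obtain ⟨c3, hc3⟩ := GG_two (R := ℤ_[p]) (h := h) hw hQ hM'
  classical
  refine ⟨red p (sig ℤ_[p] A0), red p (-2 * (X * sig ℤ_[p] B1)),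
    PadicInt.toZMod (2 * (-1) ^ l * h ^ w),
    fun J => if p ≠ 3 ∨ (∃ m, w = m + 1 ∧ Q < 3 * 2 ^ m) then 0 else - PadicInt.toZMod (c3 J),
    ?_, ?_, ?_, ?_⟩
  · have h3 : PadicInt.toZMod (2 : ℤ_[p]) * PadicInt.toZMod h = 1 := by
      rw [← map_mul, hh2, map_one]
    rw [map_mul, map_mul, map_pow, map_pow, map_neg, map_one]
    refine mul_ne_zero (mul_ne_zero (left_ne_zero_of_mul_eq_one h3) ?_)
      (pow_ne_zero _ (right_ne_zero_of_mul_eq_one h3))
    exact pow_ne_zero _ (neg_ne_zero.2 one_ne_zero)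
  · intro v v' hv
    obtain ⟨Y, F⟩ := exists_fam hh2 (sgR_sq (R := ℤ_[p]) v) w (yG h (sh^[w] v)) (yG h (sh^[w] v'))
    have hd := derivative_resG (sig ℤ_[p] A0) (X * sig ℤ_[p] B1) (tm (Y 0) (-1))
    rw [← hAB, ← hf'] at hd
    change _ = GG (tm (Y 0) (-1)) _ at hd
    rw [GG_sub, GG_sub, hpM, GG_smul] at hd
    obtain ⟨τ, hτ⟩ := F.GG_T hw hT4
    have hlam : lam w I l = 0 := by
      rw [lam_of_le hIw]
      omega
    rw [F.GG_zero_notMem hw hIw hlam hwI, hτ] at hd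
    have hc0 : ∀ v : ℕ → ℤˣ, PowerSeries.coeff 0 (yG h (sh^[w] v)) = sgR ℤ_[p] v w :=
      fun v => u_const h v w
    rw [hc0, hc0] at hd
    obtain ⟨r, hr⟩ := eval_sub_eval h2 hh2 (sgR_sq (R := ℤ_[p]) v w) (sgR_sq (R := ℤ_[p]) v' w) hd
      (F.GG_degree hw hQ hM')
    rw [F.eval_one, F.eval_zero hv, kap_mul hv hIw] at hr
    have h3 := congrArg (PadicInt.toZMod (p := p)) hr
    rw [map_sub, Rz_red hh2, Rz_red hh2] at h3
    have h4 : PadicInt.toZMod ((p : ℤ_[p]) * r) = 0 := by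
      rw [map_mul, map_natCast, CharP.cast_eq_zero, zero_mul]
    rw [h3, map_add, h4, add_zero, map_sub, map_mul, map_sub, toZMod_prod, toZMod_prod,
      sub_eq_add_neg (PadicInt.toZMod (2 * (-1) ^ l * h ^ w) * _)]
    congr 1
    by_cases hp3 : p = 3
    · rw [if_pos hp3]
      by_cases hm : ∃ m, w = m + 1 ∧ Q < 3 * 2 ^ m
      · obtain ⟨m, hwm, hQm⟩ := hm
        rw [F.GG_two_zero hwm hQm hM', map_zero, neg_zero]
        symm
        apply sum_eq_zero
        intro J _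
        beta_reduce
        rw [if_pos (Or.inr ⟨m, hwm, hQm⟩), zero_mul]
      · rw [hc3 v v' hv Y F, map_sum, ← sum_neg_distrib]
        apply sum_congr rfl
        intro J _
        beta_reduce
        rw [if_neg (fun h => h.elim (fun h => h hp3) hm), map_mul, map_sub, toZMod_prod,
          toZMod_prod]
        ring
    · rw [if_neg hp3, map_zero, neg_zero]
      symm
      apply sum_eq_zero
      intro J _
      beta_reduce
      rw [if_pos (Or.inl hp3), zero_mul]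
  · intro hcond J
    exact if_pos hcond
  · intro v v' h0 h1
    have h3 : red p (-2 * (X * sig ℤ_[p] B1)) = -2 * (X * sig (ZMod p) (red p B1)) := by
      rw [map_mul, map_neg, map_ofNat, map_mul, red_X, red_sig]
    rw [red_sig, h3]
    exact resid_odd _ _ h0 h1

end padic

end Dyn59
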