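import Pool.Agent.H.MP_d59dab.FlipC
import Pool.Agent.H.MP_d59dab.FlipH

/-!
# MP_d59dab: the final form of the one-step reductions
-/

set_option autoImplicit false
set_option maxHeartbeats 400000

open Finset Polynomial

noncomputable section

namespace Dyn59

variable {p : ℕ} [hp : Fact p.Prime]

theorem insert_range_sdiff {w : ℕ} {I : Finset ℕ} (hI : I ⊆ Ico 1 w) :
    insert w (range w \ I) = range (w + 1) \ I := by
  ext j
  rw [mem_insert, mem_sdiff, mem_sdiff, mem_range, mem_range]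
  constructor
  · rintro (h | h)
    · refine ⟨by omega, fun h1 => ?_⟩
      have := mem_Ico.1 (hI h1)
      omega
    · exact ⟨by omega, h.2⟩
  · rintro ⟨h1, h2⟩
    by_cases h3 : j = w
    · exact Or.inl h3
    · exact Or.inr ⟨by omega, h2⟩

theorem aa_eq_lam {w : ℕ} {S : Finset ℕ} (hS : ∀ j ∈ S, j ≤ w) (l : ℕ) : aa w S l = lam w S l := by
  rw [lam_of_le hS]
  unfold aa
  rw [filter_true_of_mem hS]

theorem PTw_FQ {w : ℕ} {T : (ZMod p)[X][X]} (hT : T ∈ SP (ZMod p) (PTw w)) :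
    T ∈ FQ (ZMod p) (2 ^ (w + 1) - 1) := by
  refine SP.mono ?_ hT
  intro A k hA
  refine ⟨fun h => ?_, fun v => ?_⟩
  · have := mem_Ico.1 (hA.1 h)
    omega
  · have h1 := Lam_lt (S := A) (l := k) (n := w + 1) (w := w)
      (fun j hj => Nat.lt_succ_of_le (hA.le j hj)) (by rw [aa_eq_lam hA.le]; exact hA.lam_le.1)
      (Nat.le_succ w) v
    omega

theorem I_order {w l : ℕ} {I : Finset ℕ} (hI : I ⊆ Ico 1 w) (hIl : #I + 2 * l + 3 = w) (v : ℕ) :
    (2 : ℤ) ^ v * lam v I l ≤ 2 ^ w - 1 := by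
  have hIw : ∀ j ∈ I, j ≤ w := fun j hj => by
    have := mem_Ico.1 (hI hj)
    omega
  have h1 := Lam_lt (S := I) (l := l) (n := w) (w := w)
    (fun j hj => (mem_Ico.1 (hI hj)).2) (by rw [aa_eq_lam hIw, lam_of_le hIw]; omega) le_rfl v
  omega

/-- the general reduction with an error term -/
theorem red_general (h2 : p ≠ 2) {w l : ℕ} {I : Finset ℕ} (hI : I ⊆ Ico 1 w)
    (hIl : #I + 2 * l + 3 = w) {T : (ZMod p)[X][X]} (hT : T ∈ SP (ZMod p) (PTw w))
    (hC : Car p (mo (ZMod p) I l - T) = 0) :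
    ∃ (A B : (ZMod p)[X][X]) (c : ZMod p) (cc : Finset ℕ → ZMod p), c ≠ 0 ∧
      (∀ v v' : ℕ → ℤˣ, (∀ j < w, v j = v' j) → resid A B v - resid A B v'
        = c * (sg (ZMod p) (∏ j ∈ range (w + 1) \ I, v j)
            - sg (ZMod p) (∏ j ∈ range (w + 1) \ I, v' j))
          + ∑ J ∈ Jw w, cc J * (sg (ZMod p) (∏ j ∈ J, v j) - sg (ZMod p) (∏ j ∈ J, v' j))) ∧
      (p ≠ 3 → ∀ J, cc J = 0) ∧
      (∀ v v' : ℕ → ℤˣ, v' 0 = - v 0 → (∀ j, v' (j + 1) = v (j + 1)) →
        resid A B v' = - resid A B v) := by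
  have hpw : (1 : ℤ) ≤ 2 ^ w := one_le_pow₀ (by norm_num)
  have hpw2 : (2 : ℤ) ^ (w + 1) = 2 * 2 ^ w := by rw [pow_succ]; ring
  obtain ⟨A, B, c, cc, h1, h3, h4, h5⟩ := flip_core h2 (by omega) hI hIl
    (Q := 2 ^ (w + 1) - 1) (by rw [hpw2]; linarith) (by linarith)
    (fun v => (I_order hI hIl v).trans (by rw [hpw2]; linarith)) hT (PTw_FQ hT) hC
  rw [insert_range_sdiff hI] at h3
  exact ⟨A, B, c, cc, h1, h3, fun hp3 => h4 (Or.inl hp3), h5⟩

/-- the one-step reduction; for `p = 3` the window function has to be of small order -/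
theorem redJ_of_T (h2 : p ≠ 2) {w l : ℕ} {I : Finset ℕ} (hI : I ⊆ Ico 1 w)
    (hIl : #I + 2 * l + 3 = w) {T : (ZMod p)[X][X]} (hT : T ∈ SP (ZMod p) (PTw w))
    (hC : Car p (mo (ZMod p) I l - T) = 0)
    (hp3 : p = 3 → T ∈ FQ (ZMod p) (3 * 2 ^ (w - 1) - 1)) :
    RedJ (ZMod p) w (range (w + 1) \ I) := by
  by_cases h3 : p = 3
  · have hw : w - 1 + 1 = w := by omega
    have hpw : (1 : ℤ) ≤ 2 ^ (w - 1) := one_le_pow₀ (by norm_num)
    have hpw1 : (2 : ℤ) ^ w = 2 * 2 ^ (w - 1) := by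
      conv_lhs => rw [← hw, pow_succ]
      ring
    have hpw2 : (2 : ℤ) ^ (w + 1) = 4 * 2 ^ (w - 1) := by rw [pow_succ, hpw1]; ring
    obtain ⟨A, B, c, cc, h4, h5, h6, h7⟩ := flip_core h2 (by omega) hI hIl
      (Q := 3 * 2 ^ (w - 1) - 1) (by linarith) (by rw [hpw2]; linarith)
      (fun v => (I_order hI hIl v).trans (by rw [hpw1]; linarith)) hT (hp3 h3) hC
    refine ⟨A, B, c, h4, fun v v' hv => ?_, h7⟩
    have h8 := h5 v v' hv
    rw [insert_range_sdiff hI, sum_eq_zero, add_zero] at h8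
    · linear_combination h8
    · intro J _
      rw [h6 (Or.inr ⟨w - 1, hw.symm, by linarith⟩) J, zero_mul]
  · obtain ⟨A, B, c, cc, h4, h5, h6, h7⟩ := red_general h2 hI hIl hT hC
    refine ⟨A, B, c, h4, fun v v' hv => ?_, h7⟩
    have h8 := h5 v v' hv
    rw [sum_eq_zero, add_zero] at h8
    · linear_combination h8
    · intro J _
      rw [h6 h3 J, zero_mul]

/-- linear combinations of reductions -/
theorem combine {K : Type*} [Field K] {w : ℕ} (s : Finset (Finset ℕ)) (d : Finset ℕ → K)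
    (h : ∀ J ∈ s, RedJ K w J) : ∃ A B : K[X][X],
      (∀ v v' : ℕ → ℤˣ, (∀ j < w, v j = v' j) → resid A B v - resid A B v'
        = ∑ J ∈ s, d J * (sg K (∏ j ∈ J, v j) - sg K (∏ j ∈ J, v' j))) ∧
      (∀ v v' : ℕ → ℤˣ, v' 0 = - v 0 → (∀ j, v' (j + 1) = v (j + 1)) →
        resid A B v' = - resid A B v) := by
  classical
  induction s using Finset.induction_on with
  | empty =>
    refine ⟨0, 0, fun v v' _ => ?_, fun v v' _ _ => ?_⟩
    · simp [resid, ev]
    · simp [resid, ev]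
  | insert J s hJ ih =>
    obtain ⟨A, B, h1, h2⟩ := ih (fun J' hJ' => h J' (mem_insert_of_mem hJ'))
    obtain ⟨A', B', c, hc, h3, h4⟩ := h J (mem_insert_self _ _)
    refine ⟨A + C (C (d J * c⁻¹)) * A', B + C (C (d J * c⁻¹)) * B', fun v v' hv => ?_,
      fun v v' h0 h5 => ?_⟩
    · rw [FlipC.resid_add, FlipC.resid_add, FlipC.resid_CC, FlipC.resid_CC, sum_insert hJ,
        ← h1 v v' hv]
      have h5 := h3 v v' hv
      have h6 : resid A' B' v - resid A' B' v' = c * (sg K (∏ j ∈ J, v j) - sg K (∏ j ∈ J, v' j)) := by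
        linear_combination h5
      have h7 : d J * c⁻¹ * (resid A' B' v - resid A' B' v')
          = d J * (sg K (∏ j ∈ J, v j) - sg K (∏ j ∈ J, v' j)) := by
        rw [h6]
        field_simp
      linear_combination h7
    · rw [FlipC.resid_add, FlipC.resid_add, FlipC.resid_CC, FlipC.resid_CC, h2 v v' h0 h5,
        h4 v v' h0 h5]
      ring

/-- the reduction for `p = 3` without a bound of the order, from the sets containing `w - 1` -/
theorem redJ_three (h2 : p ≠ 2) {w l : ℕ} {I : Finset ℕ} (hI : I ⊆ Ico 1 w)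
    (hIl : #I + 2 * l + 3 = w) (hJ : ∀ J ∈ Jw w, RedJ (ZMod p) w J)
    {T : (ZMod p)[X][X]} (hT : T ∈ SP (ZMod p) (PTw w))
    (hC : Car p (mo (ZMod p) I l - T) = 0) :
    RedJ (ZMod p) w (range (w + 1) \ I) := by
  obtain ⟨A, B, c, cc, h4, h5, -, h7⟩ := red_general h2 hI hIl hT hC
  obtain ⟨A', B', h8, h9⟩ := combine (Jw w) cc hJ
  refine ⟨A + C (C (-1)) * A', B + C (C (-1)) * B', c, h4, fun v v' hv => ?_,
    fun v v' h0 h1 => ?_⟩
  · rw [FlipC.resid_add, FlipC.resid_add, FlipC.resid_CC, FlipC.resid_CC]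
    have h10 := h5 v v' hv
    have h11 := h8 v v' hv
    linear_combination h10 - h11
  · rw [FlipC.resid_add, FlipC.resid_add, FlipC.resid_CC, FlipC.resid_CC, h7 v v' h0 h1,
      h9 v v' h0 h1]
    ring

end Dyn59
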