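import Pool.Agent.H.MP_d59dab.Ldg

/-!
# MP_d59dab: analysis of the leading exponent
-/

set_option autoImplicit false

open Finset Polynomial

noncomputable section

namespace Dyn59

variable {p : ℕ} [hp : Fact p.Prime]
variable {T i e : ℕ} {D A : Finset ℕ} {θ : ZMod p} {b : Prop} {ν : Finset ℕ → ZMod p}
  {N : (ZMod p)[X][X] →ₗ[ZMod p] ZMod p}

theorem neg_one_pow_ne (l : ℕ) : ((-1 : ZMod p)) ^ l ≠ 0 :=
  pow_ne_zero _ (neg_ne_zero.2 one_ne_zero)

theorem two_le_card_of_even {K : Finset ℕ} (h0 : 0 ∈ K) (hev : Even #K) : 2 ≤ #K := by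
  have h1 : 1 ≤ #K := card_pos.2 ⟨0, h0⟩
  obtain ⟨k, hk⟩ := hev
  omega

/-- the own tests -/
theorem LD.own (h2 : p ≠ 2) (h : LD p i e D N) (hA : ∀ q ∈ A, i < q)
    (hAs : ∑ q ∈ A, 2 ^ q + 2 ^ i = 2 ^ i * (p * e)) {K : Finset ℕ} (hK : K ⊆ range i)
    (h0 : 0 ∈ K) (hev : Even #K) :
    N (Car p (mo (ZMod p) (A ∪ (range i \ K)) (#K / 2 - 1)))
      = (-1) ^ (#K / 2 - 1) * eta i D N K := by
  have h3 := two_le_card_of_even h0 hev
  have hc := card_compl hK
  obtain ⟨k, hk⟩ := hev
  rw [loc_m1a h2 h hA (compl_sub h0) hAs (by omega), compl_compl hK]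

theorem disj_own (hA : ∀ q ∈ A, i < q) (K : Finset ℕ) : Disjoint A (range i \ K) := by
  rw [disjoint_left]
  intro a ha hb
  have := hA a ha
  rw [mem_sdiff, mem_range] at hb
  omega

/-- case (1): own tests of weight at most `T - 5` -/
theorem eta_zero_of_small (h2 : p ≠ 2) (h : LD p i e D N) (hS : USys T θ b ν N)
    (hA : ∀ q ∈ A, i < q) (hAT : ∀ q ∈ A, q < T)
    (hAs : ∑ q ∈ A, 2 ^ q + 2 ^ i = 2 ^ i * (p * e)) (hT : #A + i + 3 ≤ T)
    {K : Finset ℕ} (hK : K ⊆ range i) (h0 : 0 ∈ K) (hev : Even #K) : eta i D N K = 0 := by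
  have h3 := two_le_card_of_even h0 hev
  have hc := card_compl hK
  have hcard : #(A ∪ (range i \ K)) = #A + #(range i \ K) :=
    card_union_of_disjoint (disj_own hA K)
  have hev' := hev
  obtain ⟨k, hk⟩ := hev'
  have hsub : A ∪ (range i \ K) ⊆ Ico 1 T := by
    intro a ha
    rw [mem_union] at ha
    rw [mem_Ico]
    rcases ha with ha | ha
    · have := hA a ha
      have := hAT a ha
      omega
    · have := mem_Ico.1 (compl_sub (T := i) h0 ha)
      omega
  have h4 := hS (A ∪ (range i \ K)) (#K / 2 - 1) hsub (by omega) (fun _ => Or.inr (by omega))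
  rw [h.own h2 hA hAs hK h0 hev] at h4
  unfold VT at h4
  rw [if_neg (by omega), if_neg (by omega), add_zero] at h4
  exact (mul_eq_zero.1 h4).resolve_left (neg_one_pow_ne _)

/-- lower order tests in terms of the complement -/
theorem LD.low_compl (h2 : p ≠ 2) (h : LD p i e D N) {K U : Finset ℕ} (hK : K ⊆ range T)
    (h0 : 0 ∈ K) (hU : U ⊆ K) {l : ℕ} (hl : 2 * l + 2 + #U ≤ #K)
    (hP : 2 ^ T + 1 ≤ 2 ^ i * (p * e) + ∑ u ∈ U, 2 ^ u) :
    N (Car p (mo (ZMod p) (range T \ K) l)) = 0 := by
  apply h.low h2 (by rw [mem_sdiff]; exact fun h => h.2 h0)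
  have hc := card_compl hK
  refine (ol_of_compl (T := T) (U := U) sdiff_subset (by rw [compl_compl hK]; exact hU)
    (by omega)).mono ?_
  have h3 : ((2 ^ T + 1 : ℕ) : ℤ) ≤ ((2 ^ i * (p * e) + ∑ u ∈ U, 2 ^ u : ℕ) : ℤ) := by
    exact_mod_cast hP
  push_cast at h3
  linarith

theorem sum_two_pow_pair {m : ℕ} (hm : m ≠ 0) :
    ∑ u ∈ ({m, 0} : Finset ℕ), 2 ^ u = 2 ^ m + 1 := by
  rw [Finset.sum_pair hm, pow_zero]

/-- the digits: few, all, or all but one -/
theorem digits_cases {A : Finset ℕ} (hA : ∀ q ∈ A, i < q) (hAT : ∀ q ∈ A, q < T) (hiT : i < T) :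
    #A + i + 3 ≤ T ∨ A = Ioo i T ∨ ∃ q, i < q ∧ q < T ∧ A = (Ioo i T).erase q := by
  have hsub : A ⊆ Ioo i T := fun a ha => mem_Ioo.2 ⟨hA a ha, hAT a ha⟩
  have hc : #(Ioo i T) = T - i - 1 := Nat.card_Ioo i T
  by_cases h1 : A = Ioo i T
  · exact Or.inr (Or.inl h1)
  · have h2 : ∃ q ∈ Ioo i T, q ∉ A := by
      by_contra hcon
      push Not at hcon
      exact h1 (Subset.antisymm hsub hcon)
    obtain ⟨q, hq, hqA⟩ := h2
    have hsub2 : A ⊆ (Ioo i T).erase q := fun a ha =>
      mem_erase.2 ⟨fun h => hqA (h ▸ ha), hsub ha⟩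
    have hc2 : #((Ioo i T).erase q) = T - i - 2 := by
      rw [card_erase_of_mem hq, hc]; omega
    by_cases h3 : A = (Ioo i T).erase q
    · have := mem_Ioo.1 hq
      exact Or.inr (Or.inr ⟨q, this.1, this.2, h3⟩)
    · left
      have h4 : #A < #((Ioo i T).erase q) := card_lt_card (hsub2.ssubset_of_ne h3)
      omega

/-! ### case (2): one digit is missing -/

section missing

variable {q : ℕ}

theorem card_own (hq : i < q) {K : Finset ℕ} (hK : K ⊆ range i) : #(insert q (insert i K)) = #K + 2 := by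
  rw [card_insert_of_notMem, card_insert_of_notMem]
  · intro h
    have := mem_range.1 (hK h)
    omega
  · intro h
    rw [mem_insert] at h
    rcases h with h | h
    · omega
    · have := mem_range.1 (hK h)
      omega

theorem compl_own (hq : i < q) (hqT : q < T) {K : Finset ℕ} (hK : K ⊆ range i) :
    range T \ (insert q (insert i K)) = (Ioo i T).erase q ∪ (range i \ K) := by
  ext a
  simp only [mem_sdiff, mem_range, mem_insert, mem_union, mem_erase, mem_Ioo, not_or]
  constructor
  · rintro ⟨h1, h3, h4, h5⟩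
    rcases Nat.lt_or_ge a i with h6 | h6
    · exact Or.inr ⟨h6, h5⟩
    · exact Or.inl ⟨h3, by omega, h1⟩
  · rintro (⟨h1, h3, h4⟩ | ⟨h1, h3⟩)
    · refine ⟨h4, h1, by omega, fun h => ?_⟩
      have := mem_range.1 (hK h)
      omega
    · exact ⟨by omega, by omega, by omega, h3⟩

theorem sub_own (hq : i < q) (hqT : q < T) {K : Finset ℕ} (hK : K ⊆ range i) :
    insert q (insert i K) ⊆ range T := by
  intro a ha
  rw [mem_insert, mem_insert] at ha
  rw [mem_range]
  rcases ha with ha | ha | ha
  · omega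
  · omega
  · have := mem_range.1 (hK ha)
    omega

/-- the own relation: `η_K = 1/2 ν_(K + i + q)` -/
theorem eta_own (h2 : p ≠ 2) (h : LD p i e D N) (hS : USys T θ b ν N) (hq : i < q) (hqT : q < T)
    (hb : b → q ≠ T - 1) (hAs : ∑ a ∈ (Ioo i T).erase q, 2 ^ a + 2 ^ i = 2 ^ i * (p * e))
    {K : Finset ℕ} (hK : K ⊆ range i) (h0 : 0 ∈ K) (hev : Even #K) :
    eta i D N K = 1 / 2 * ν (insert q (insert i K)) := by
  have h3 := two_le_card_of_even h0 hev
  have hA : ∀ a ∈ (Ioo i T).erase q, i < a := fun a ha => (mem_Ioo.1 (mem_of_mem_erase ha)).1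
  have h4 := h.own h2 hA hAs hK h0 hev
  have hco := compl_own hq hqT hK
  have hsub := sub_own hq hqT hK
  have hcar := card_own hq hK
  have hc := card_compl hsub
  have h00 : 0 ∈ insert q (insert i K) := by
    rw [mem_insert, mem_insert]; exact Or.inr (Or.inr h0)
  have hev' := hev
  obtain ⟨k, hk⟩ := hev'
  have h5 := hS (range T \ (insert q (insert i K))) (#K / 2 - 1) (compl_sub h00) (by omega)
    (fun hb' => Or.inl (by
      rw [mem_sdiff, mem_range, mem_insert, mem_insert]
      refine ⟨by omega, ?_⟩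
      have := hb hb'
      rintro (h | h | h)
      · omega
      · omega
      · have := mem_range.1 (hK h)
        omega))
  unfold VT at h5
  rw [if_pos (by omega), compl_compl hsub, hco, h4, ← mul_add] at h5
  have h6 := (mul_eq_zero.1 h5).resolve_left (neg_one_pow_ne _)
  linear_combination h6

omit hp in
theorem pe_eq (hq : i < q) (hqT : q < T)
    (hAs : ∑ a ∈ (Ioo i T).erase q, 2 ^ a + 2 ^ i = 2 ^ i * (p * e)) :
    2 ^ i * (p * e) + 2 ^ i + 2 ^ q = 2 ^ T := by
  have h1 : ∑ a ∈ (Ioo i T).erase q, 2 ^ a + 2 ^ q = ∑ a ∈ Ioo i T, 2 ^ a :=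
    sum_erase_add _ _ (mem_Ioo.2 ⟨hq, hqT⟩)
  have h3 : ∑ a ∈ Ioo i T, 2 ^ a + 2 ^ (i + 1) = 2 ^ T := by
    have h4 := sum_Ico_pow (i := i + 1) (T := T) (by omega)
    have h5 : Ico (i + 1) T = Ioo i T := by
      ext a; simp only [mem_Ico, mem_Ioo]; omega
    rwa [h5] at h4
  rw [pow_succ] at h3
  omega

/-- `V_4` tests above the missing digit -/
theorem nu_zero_above (h2 : p ≠ 2) (h : LD p i e D N) (hS : USys T θ b ν N) (hq : i < q)
    (hqT : q < T) (hAs : ∑ a ∈ (Ioo i T).erase q, 2 ^ a + 2 ^ i = 2 ^ i * (p * e))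
    {K : Finset ℕ} (hK : K ⊆ range T) (h0 : 0 ∈ K) (hev : Even #K) (h4 : 4 ≤ #K)
    (hb : b → T - 1 ∉ K) (hm : ∃ m ∈ K, q < m) : ν K = 0 := by
  obtain ⟨m, hmK, hm⟩ := hm
  have hP := pe_eq hq hqT hAs
  obtain ⟨k, hk⟩ := hev
  refine hS.v4 h2 hK h0 (l := k - 2) (by omega) hb ?_
  apply h.low_compl h2 hK h0 (U := {m, 0})
  · intro a ha
    rw [mem_insert, mem_singleton] at ha
    rcases ha with rfl | rfl
    · exact hmK
    · exact h0
  · rw [card_pair (by omega)]; omega
  · rw [sum_two_pow_pair (by omega)]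
    have h5 : 2 ^ (q + 1) ≤ 2 ^ m := Nat.pow_le_pow_right (by norm_num) hm
    have h6 : 2 ^ i ≤ 2 ^ q := Nat.pow_le_pow_right (by norm_num) hq.le
    rw [pow_succ] at h5
    omega

theorem symmDiff_mem {K : Finset ℕ} {c : ℕ} (h0 : 0 ∈ K) : 0 ∈ symmDiff K {c + 1} := by
  rw [mem_symmDiff, mem_singleton]
  exact Or.inl ⟨h0, by omega⟩

theorem symmDiff_sub {K : Finset ℕ} {c : ℕ} (hK : K ⊆ range T) (hc : c + 1 < T) :
    symmDiff K {c + 1} ⊆ range T := by
  intro a ha
  rw [mem_symmDiff, mem_singleton] at ha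
  rcases ha with ha | ha
  · exact hK ha.1
  · rw [ha.1, mem_range]; exact hc

theorem card_symmDiff_singleton (K : Finset ℕ) (c : ℕ) :
    (c ∈ K ∧ #(symmDiff K {c}) + 1 = #K) ∨ (c ∉ K ∧ #(symmDiff K {c}) = #K + 1) := by
  by_cases hc : c ∈ K
  · left
    refine ⟨hc, ?_⟩
    have : symmDiff K {c} = K.erase c := by
      ext a
      rw [mem_symmDiff, mem_singleton, mem_erase]
      constructor
      · rintro (h | h)
        · exact ⟨h.2, h.1⟩
        · exact absurd hc (h.1 ▸ h.2)
      · rintro ⟨h, h'⟩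
        exact Or.inl ⟨h', h⟩
    rw [this, card_erase_add_one hc]
  · right
    refine ⟨hc, ?_⟩
    have : symmDiff K {c} = insert c K := by
      ext a
      rw [mem_symmDiff, mem_singleton, mem_insert]
      constructor
      · rintro (h | h)
        · exact Or.inr h.1
        · exact Or.inl h.1
      · rintro (h | h)
        · exact Or.inr ⟨h, h ▸ hc⟩
        · exact Or.inl ⟨h, fun h' => hc (h' ▸ h)⟩
    rw [this, card_insert_of_notMem hc]

theorem symmDiff_insert_self {K : Finset ℕ} {c : ℕ} (hc : c ∉ K) : symmDiff (insert c K) {c} = K := by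
  ext a
  rw [mem_symmDiff, mem_singleton, mem_insert]
  constructor
  · rintro (⟨h | h, h'⟩ | ⟨h, h'⟩)
    · exact absurd h h'
    · exact h
    · exact absurd (Or.inl h) h'
  · intro h
    have : a ≠ c := fun h' => hc (h' ▸ h)
    exact Or.inl ⟨Or.inr h, this⟩

/-- case (2a): everything vanishes -/
theorem eta_zero_2a (h2 : p ≠ 2) (h : LD p i e D N) (hS : USys T θ b ν N) (hθ : b → θ = 0)
    (hq : i < q) (hqT : q + 1 < T) (hb : b → q + 2 < T)
    (hAs : ∑ a ∈ (Ioo i T).erase q, 2 ^ a + 2 ^ i = 2 ^ i * (p * e))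
    {K : Finset ℕ} (hK : K ⊆ range i) (h0 : 0 ∈ K) (hev : Even #K) : eta i D N K = 0 := by
  rw [eta_own h2 h hS hq (by omega) (fun hb' => by have := hb hb'; omega) hAs hK h0 hev]
  have hP := pe_eq hq (by omega) hAs
  set K1 := insert q (insert i K) with hK1
  have hK1c : #K1 = #K + 2 := card_own hq hK
  have hK1s : K1 ⊆ range T := sub_own hq (by omega) hK
  have hlt : ∀ a ∈ K1, a ≤ q := by
    intro a ha
    rw [hK1, mem_insert, mem_insert] at ha
    rcases ha with ha | ha | ha
    · omega
    · omega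
    · have := mem_range.1 (hK ha)
      omega
  have hq1 : q + 1 ∉ K1 := fun h => by have := hlt _ h; omega
  set K2 := insert (q + 1) K1 with hK2
  have hK2c : #K2 = #K + 3 := by rw [hK2, card_insert_of_notMem hq1, hK1c]
  have hK2s : K2 ⊆ range T := by
    intro a ha
    rw [hK2, mem_insert] at ha
    rcases ha with ha | ha
    · rw [mem_range]; omega
    · exact hK1s ha
  have h01 : 0 ∈ K1 := by rw [hK1, mem_insert, mem_insert]; exact Or.inr (Or.inr h0)
  have h02 : 0 ∈ K2 := by rw [hK2, mem_insert]; exact Or.inr h01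
  have hqK2 : q ∈ K2 := by rw [hK2, mem_insert, hK1, mem_insert]; exact Or.inr (Or.inl rfl)
  have hle2 : ∀ a ∈ K2, a ≤ q + 1 := by
    intro a ha
    rw [hK2, mem_insert] at ha
    rcases ha with ha | ha
    · omega
    · have := hlt a ha; omega
  have h3 := two_le_card_of_even h0 hev
  have hev' := hev
  obtain ⟨k, hk⟩ := hev'
  have hN : N (Car p (mo (ZMod p) (range T \ K2) k)) = 0 := by
    apply h.low_compl h2 hK2s h02 (U := {q + 1})
    · intro a ha
      rw [mem_singleton] at ha
      rw [ha, hK2]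
      exact mem_insert_self _ _
    · rw [card_singleton]; omega
    · rw [sum_singleton]
      have h6 : 2 ^ (i + 1) ≤ 2 ^ q := Nat.pow_le_pow_right (by norm_num) hq
      have h7 : 1 ≤ 2 ^ i := Nat.one_le_two_pow
      rw [pow_succ] at h6
      rw [pow_succ]
      omega
  have h5 := hS.v3_single h2 hK2s h02 (l := k) (by omega)
    (fun hb' h => by have := hb hb'; have := hle2 _ h; omega) hN (a := q) hqK2
    (by rw [hK2]; exact mem_insert_self _ _) ?_
  · rw [hK2, symmDiff_insert_self hq1] at h5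
    rw [h5, mul_zero]
  · intro c hc hcT hcq hcr
    have hq1c : q + 1 ∈ symmDiff K2 {c + 1} := by
      rw [mem_symmDiff, mem_singleton]
      exact Or.inl ⟨by rw [hK2]; exact mem_insert_self _ _, by omega⟩
    have hcase := card_symmDiff_singleton K2 (c + 1)
    apply nu_zero_above h2 h hS hq (by omega) hAs (symmDiff_sub hK2s hcT) (symmDiff_mem h02)
    · rcases hcase with h6 | h6
      · exact ⟨k + 1, by omega⟩
      · exact ⟨k + 2, by omega⟩
    · rcases hcase with h6 | h6 <;> omega
    · intro hb' h6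
      rw [mem_symmDiff, mem_singleton] at h6
      have := hb hb'
      rcases h6 with h6 | h6
      · have := hle2 _ h6.1
        omega
      · apply hcr
        refine ⟨by omega, ?_, hθ hb'⟩
        rw [← h6.1]
        exact h6.2
    · exact ⟨q + 1, hq1c, by omega⟩

end missing

/-! ### case (3): all digits are present -/

section full

omit hp in
theorem pe_eq' (hiT : i < T) (hAs : ∑ a ∈ Ioo i T, 2 ^ a + 2 ^ i = 2 ^ i * (p * e)) :
    2 ^ i * (p * e) + 2 ^ i = 2 ^ T := by
  have h4 := sum_Ico_pow (i := i + 1) (T := T) (by omega)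
  have h5 : Ico (i + 1) T = Ioo i T := by
    ext a; simp only [mem_Ico, mem_Ioo]; omega
  rw [h5, pow_succ] at h4
  omega

theorem nu_zero_full4 (h2 : p ≠ 2) (h : LD p i e D N) (hS : USys T θ b ν N) (hi : 2 ≤ i)
    (hiT : i < T) (hAs : ∑ a ∈ Ioo i T, 2 ^ a + 2 ^ i = 2 ^ i * (p * e))
    {K : Finset ℕ} (hK : K ⊆ range T) (h0 : 0 ∈ K) (hev : Even #K) (h4 : 4 ≤ #K)
    (hb : b → T - 1 ∉ K) (hm : ∃ m ∈ K, i ≤ m) : ν K = 0 := by
  obtain ⟨m, hmK, hm⟩ := hm
  have hP := pe_eq' hiT hAs
  obtain ⟨k, hk⟩ := hev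
  refine hS.v4 h2 hK h0 (l := k - 2) (by omega) hb ?_
  apply h.low_compl h2 hK h0 (U := {m, 0})
  · intro a ha
    rw [mem_insert, mem_singleton] at ha
    rcases ha with rfl | rfl
    · exact hmK
    · exact h0
  · rw [card_pair (by omega)]; omega
  · rw [sum_two_pow_pair (by omega)]
    have h6 : 2 ^ i ≤ 2 ^ m := Nat.pow_le_pow_right (by norm_num) hm
    omega

/-- in case (3) `ν_K = 0` as soon as `max K ≥ i` -/
theorem nu_zero_full (h2 : p ≠ 2) (h : LD p i e D N) (hS : USys T θ b ν N) (hθ : b → θ = 0)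
    (hi : 2 ≤ i) (hiT : i + 1 < T) (hb2 : b → i + 2 < T)
    (hAs : ∑ a ∈ Ioo i T, 2 ^ a + 2 ^ i = 2 ^ i * (p * e))
    {K : Finset ℕ} (hK : K ⊆ range T) (h0 : 0 ∈ K) (hev : Even #K)
    (hb : b → T - 1 ∉ K) (hm : ∃ m ∈ K, i ≤ m) : ν K = 0 := by
  have hP := pe_eq' (by omega) hAs
  have hK2 := two_le_card_of_even h0 hev
  by_cases h4 : 4 ≤ #K
  · exact nu_zero_full4 h2 h hS hi (by omega) hAs hK h0 hev h4 hb hm
  · have hc2 : #K = 2 := by
      obtain ⟨k, hk⟩ := hev
      omega
    obtain ⟨m, hmK, hm⟩ := hm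
    have hKe : K = {0, m} := by
      have h5 : #(K.erase 0) = 1 := by rw [card_erase_of_mem h0, hc2]
      obtain ⟨x, hx⟩ := card_eq_one.1 h5
      have h6 : m ∈ K.erase 0 := mem_erase.2 ⟨by omega, hmK⟩
      rw [hx, mem_singleton] at h6
      rw [← insert_erase h0, hx, h6]
    have hmT := mem_range.1 (hK hmK)
    rw [hKe]
    rcases eq_or_lt_of_le hm with hmi | hmi
    · -- `{0, i}`: the relation `{0, i, i+1}`
      subst hmi
      have hK3s : ({i + 1, 0, i} : Finset ℕ) ⊆ range T := by
        intro a ha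
        simp only [mem_insert, mem_singleton] at ha
        rw [mem_range]; omega
      have h03 : 0 ∈ ({i + 1, 0, i} : Finset ℕ) := by simp
      have hc3 : #({i + 1, 0, i} : Finset ℕ) = 3 := by
        rw [card_insert_of_notMem, card_pair (by omega)]
        simp only [mem_insert, mem_singleton]; omega
      have hN : N (Car p (mo (ZMod p) (range T \ {i + 1, 0, i}) 0)) = 0 := by
        apply h.low_compl h2 hK3s h03 (U := {i + 1})
        · intro a ha
          rw [mem_singleton] at ha
          rw [ha]; simp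
        · rw [card_singleton, hc3]
        · rw [sum_singleton, pow_succ]
          have : 1 ≤ 2 ^ i := Nat.one_le_two_pow
          omega
      have h5 := hS.v3_single h2 hK3s h03 (l := 0) (by rw [hc3]) ?_ hN (a := i) (by simp)
        (by simp) ?_
      · rw [symmDiff_insert_self (by simp only [mem_insert, mem_singleton]; omega)] at h5
        exact h5
      · intro hb' h6
        have := hb2 hb'
        simp only [mem_insert, mem_singleton] at h6
        omega
      · intro c hc hcT hci hcr
        have hcase := card_symmDiff_singleton {i + 1, 0, i} (c + 1)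
        rw [hc3] at hcase
        simp only [mem_insert, mem_singleton] at hc
        have hc1 : c + 1 ∉ ({i + 1, 0, i} : Finset ℕ) := by
          simp only [mem_insert, mem_singleton]
          omega
        have h6 : #(symmDiff {i + 1, 0, i} {c + 1}) = 4 := by
          rcases hcase with h6 | h6
          · exact absurd h6.1 hc1
          · omega
        apply nu_zero_full4 h2 h hS hi (by omega) hAs (symmDiff_sub hK3s hcT) (symmDiff_mem h03)
          (by rw [h6]; decide) (by omega)
        · intro hb' h7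
          have h8 := hb2 hb'
          rw [mem_symmDiff, mem_singleton] at h7
          rcases h7 with h7 | h7
          · have h9 := h7.1
            simp only [mem_insert, mem_singleton] at h9
            omega
          · apply hcr
            exact ⟨by omega, hc1, hθ hb'⟩
        · refine ⟨i, ?_, le_rfl⟩
          rw [mem_symmDiff, mem_singleton]
          exact Or.inl ⟨by simp, by omega⟩
    · -- `{0, m}`, `m > i`: the relation `{0, 1, m}`
      have hK3s : ({1, 0, m} : Finset ℕ) ⊆ range T := by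
        intro a ha
        simp only [mem_insert, mem_singleton] at ha
        rw [mem_range]; omega
      have h03 : 0 ∈ ({1, 0, m} : Finset ℕ) := by simp
      have hc3 : #({1, 0, m} : Finset ℕ) = 3 := by
        rw [card_insert_of_notMem, card_pair (by omega)]
        simp only [mem_insert, mem_singleton]; omega
      have hN : N (Car p (mo (ZMod p) (range T \ {1, 0, m}) 0)) = 0 := by
        apply h.low_compl h2 hK3s h03 (U := {m})
        · intro a ha
          rw [mem_singleton] at ha
          rw [ha]; simp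
        · rw [card_singleton, hc3]
        · rw [sum_singleton]
          have h6 : 2 ^ (i + 1) ≤ 2 ^ m := Nat.pow_le_pow_right (by norm_num) hmi
          have : 1 ≤ 2 ^ i := Nat.one_le_two_pow
          rw [pow_succ] at h6
          omega
      have hbm : b → m ≠ T - 1 := fun hb' h6 => hb hb' (h6 ▸ hmK)
      have h5 := hS.v3_single h2 hK3s h03 (l := 0) (by rw [hc3]) ?_ hN (a := 0) (by simp)
        (by simp) ?_
      · have h6 : symmDiff ({1, 0, m} : Finset ℕ) {0 + 1} = {0, m} := by
          rw [zero_add]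
          exact symmDiff_insert_self (by simp only [mem_insert, mem_singleton]; omega)
        rw [h6] at h5
        exact h5
      · intro hb' h6
        have := hbm hb'
        have := hb2 hb'
        simp only [mem_insert, mem_singleton] at h6
        omega
      · intro c hc hcT hci hcr
        have hcase := card_symmDiff_singleton {1, 0, m} (c + 1)
        rw [hc3] at hcase
        simp only [mem_insert, mem_singleton] at hc
        have hc1 : c + 1 ∉ ({1, 0, m} : Finset ℕ) := by
          simp only [mem_insert, mem_singleton]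
          omega
        have h6 : #(symmDiff {1, 0, m} {c + 1}) = 4 := by
          rcases hcase with h6 | h6
          · exact absurd h6.1 hc1
          · omega
        apply nu_zero_full4 h2 h hS hi (by omega) hAs (symmDiff_sub hK3s hcT) (symmDiff_mem h03)
          (by rw [h6]; decide) (by omega)
        · intro hb' h7
          have h8 := hb2 hb'
          have h9 := hbm hb'
          rw [mem_symmDiff, mem_singleton] at h7
          rcases h7 with h7 | h7
          · have h9 := h7.1
            simp only [mem_insert, mem_singleton] at h9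
            omega
          · apply hcr
            exact ⟨by omega, hc1, hθ hb'⟩
        · refine ⟨m, ?_, hmi.le⟩
          rw [mem_symmDiff, mem_singleton]
          exact Or.inl ⟨by simp, by omega⟩

end full

end Dyn59
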