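import Pool.Agent.H.MP_d59dab.IndA

/-!
# MP_d59dab: the induction, `p ≥ 5`
-/

set_option autoImplicit false

open Finset Polynomial

noncomputable section

namespace Dyn59

variable {p : ℕ} [hp : Fact p.Prime]
variable {T i e : ℕ} {D A : Finset ℕ} {θ : ZMod p} {b : Prop} {ν : Finset ℕ → ZMod p}
  {N : (ZMod p)[X][X] →ₗ[ZMod p] ZMod p}

/-! ### small Cartier images -/

theorem FQ_eq_zero' {Q : ℤ} (hQ : Q < 4) {f : (ZMod p)[X][X]} (hf : f ∈ FQ (ZMod p) Q) : f = 0 := by
  rw [FQ_eq] at hf
  refine SP.induction (Pr := fun f => f = 0) rfl ?_ ?_ ?_ hf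
  · rintro f g rfl rfl; rw [add_zero]
  · rintro c f rfl; rw [smul_zero]
  · rintro S l ⟨-, h⟩
    have h1 := h 1
    have h3 : (2 : ℤ) ≤ lam 1 S l := by
      unfold lam
      have h4 : (0 : ℤ) ≤ ∑ s ∈ S.filter (1 < ·), (2 : ℤ) ^ (s - 1) :=
        sum_nonneg (fun _ _ => by positivity)
      have h5 : (0 : ℤ) ≤ #(S.filter (· ≤ 1)) := by positivity
      push_cast
      linarith
    linarith

theorem Car_mo_zero (h2 : p ≠ 2) {T : ℕ} {K : Finset ℕ} {l : ℕ} (hK : K ⊆ range T) (h0 : 0 ∈ K)
    (hl : 2 * l + 2 ≤ #K) (hT : 2 ^ T < 4 * p) : Car p (mo (ZMod p) (range T \ K) l) = 0 := by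
  have hc := card_compl hK
  have h1 : mo (ZMod p) (range T \ K) l ∈ FQ (ZMod p) (2 ^ T) := by
    refine Submodule.subset_span ⟨_, l, rfl, by rw [mem_sdiff]; exact fun h => h.2 h0, ?_⟩
    have := ol_of_compl (T := T) (S := range T \ K) (U := ∅) (l := l) sdiff_subset (empty_subset _)
      (by rw [card_empty]; omega)
    rwa [sum_empty, sub_zero] at this
  apply FQ_eq_zero' _ (Car_FQ h2 h1)
  have hp0 : (0 : ℤ) < p := by exact_mod_cast hp.out.pos
  rw [Int.ediv_lt_iff_lt_mul hp0]
  exact_mod_cast hT

theorem Car_one (hp3 : 3 ≤ p) : Car p (mo (ZMod p) ∅ 0) = 0 := by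
  have h1 := Car_mo_zero (p := p) (T := 2) (K := {0, 1}) (l := 0) (by omega) (by decide) (by decide)
    (by decide) (by omega)
  have h3 : range 2 \ {0, 1} = ∅ := by decide
  rwa [h3] at h1

theorem Car_two (hp3 : 3 ≤ p) : Car p (mo (ZMod p) {2} 0) = 0 := by
  have h1 := Car_mo_zero (p := p) (T := 3) (K := {0, 1}) (l := 0) (by omega) (by decide) (by decide)
    (by decide) (by omega)
  have h3 : range 3 \ {0, 1} = {2} := by decide
  rwa [h3] at h1

/-! ### case (2b) -/

theorem jsys_2b (h2 : p ≠ 2) (h : LD p i e D N) (hS : USys T θ b ν N) {q : ℕ} (hq : i + 3 ≤ q)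
    (hqT : q < T) (hAs : ∑ a ∈ (Ioo i T).erase q, 2 ^ a + 2 ^ i = 2 ^ i * (p * e)) :
    JSys i 0 (eta i D N) (Nn i D N) := by
  have hi := h.hi
  have hP := pe_eq (by omega) hqT hAs
  have hE1 : ∑ a ∈ Ico q T, 2 ^ a + 2 ^ q = 2 ^ T := sum_Ico_pow hqT.le
  have hE2 : ∑ a ∈ Ico i T, 2 ^ a + 2 ^ i = 2 ^ T := sum_Ico_pow (by omega)
  have hE3 : ∑ a ∈ (Ico i T).erase q, 2 ^ a + 2 ^ q = ∑ a ∈ Ico i T, 2 ^ a :=
    sum_erase_add _ _ (mem_Ico.2 ⟨by omega, hqT⟩)
  have hnull : ∀ I l, I ⊆ Ico 1 i → #I + 2 * l + 2 ≤ i →
      N (Car p (mo (ZMod p) (Ico q T ∪ I) l)) = 0 := by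
    intro I l hI hw
    have hdis : Disjoint (Ico q T) I := by
      rw [disjoint_left]
      intro a ha hb'
      have := mem_Ico.1 ha
      have := mem_Ico.1 (hI hb')
      omega
    have hcard : #(Ico q T ∪ I) = (T - q) + #I := by
      rw [card_union_of_disjoint hdis, Nat.card_Ico]
    have h3 := hS (Ico q T ∪ I) l ?_ (by omega) (fun _ => Or.inl ?_)
    · unfold VT at h3
      rw [if_neg (by omega), if_neg (by omega), add_zero] at h3
      exact h3
    · intro a ha
      rw [mem_union] at ha
      rw [mem_Ico]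
      rcases ha with ha | ha
      · have := mem_Ico.1 ha
        omega
      · have := mem_Ico.1 (hI ha)
        omega
    · rw [mem_union, mem_Ico]
      left; omega
  refine jsys_of_tests h2 (E := Ico q T) (E' := (Ico i T).erase q) h ?_ ?_ ?_ ?_ ?_ ?_ ?_ ?_
  · intro a ha
    have := mem_Ico.1 ha
    omega
  · rw [mul_add, mul_one]; omega
  · intro a ha
    exact (mem_Ico.1 (mem_of_mem_erase ha)).1
  · omega
  · exact fun I l hI hw => hnull I l hI (by omega)
  · intro hi2
    rw [zero_mul, add_zero]
    exact hnull _ 0 (Ico_subset_Ico_left (by norm_num)) (by rw [Nat.card_Ico]; omega)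
  · intro hi4
    rw [zero_mul, add_zero]
    refine hnull _ 0 ?_ ?_
    · intro a ha
      rw [mem_insert, mem_Ico] at ha
      rw [mem_Ico]
      omega
    · rw [card_insert_of_notMem (by rw [mem_Ico]; omega), Nat.card_Ico]
      omega
  · intro I l hI hw
    have hdis : Disjoint ((Ico i T).erase q) I := by
      rw [disjoint_left]
      intro a ha hb'
      have := mem_Ico.1 (mem_of_mem_erase ha)
      have := mem_Ico.1 (hI hb')
      omega
    have hcard : #((Ico i T).erase q ∪ I) = (T - i - 1) + #I := by
      rw [card_union_of_disjoint hdis, card_erase_of_mem (mem_Ico.2 ⟨by omega, hqT⟩), Nat.card_Ico]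
    have h3 := hS ((Ico i T).erase q ∪ I) l ?_ (by omega) (fun _ => Or.inr (by omega))
    · unfold VT at h3
      rw [if_neg (by omega), if_neg (by omega), add_zero] at h3
      exact h3
    · intro a ha
      rw [mem_union] at ha
      rw [mem_Ico]
      rcases ha with ha | ha
      · have := mem_Ico.1 (mem_of_mem_erase ha)
        omega
      · have := mem_Ico.1 (hI ha)
        omega

theorem pair_of_range_two {K : Finset ℕ} (hK : K ⊆ range 2) (h0 : 0 ∈ K) (hev : Even #K) :
    K = {0, 1} := by
  have h1 : #K ≤ 2 := by simpa using card_le_card hK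
  have h2 := two_le_card_of_even h0 hev
  have h3 : range 2 = {0, 1} := by decide
  rw [← h3]
  exact eq_of_subset_of_card_le hK (by rw [card_range]; exact h2)

theorem pair_of_range_three {K : Finset ℕ} (hK : K ⊆ range 3) (h0 : 0 ∈ K) (hev : Even #K) :
    K = {0, 1} ∨ K = {0, 2} := by
  revert h0 hev
  rw [← mem_powerset] at hK
  revert K
  decide

/-- level 2, `p ≥ 7` -/
theorem eta_two (hp5 : 5 < p) {α : ZMod p} (hα : 64 * α ≠ 15) {N' : (ZMod p)[X][X] →ₗ[ZMod p] ZMod p}
    {η : Finset ℕ → ZMod p} (h : JSys 2 α η N') : η {0, 1} = 0 := by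
  have h1 := h.a le_rfl
  have h3 : Ico 2 (2 + 1) = {2} := by decide
  rw [h3, Car_two (by omega), map_zero, zero_add, v01, if_pos rfl] at h1
  have h64 : (64 : ZMod p) ≠ 0 := by
    have : (64 : ZMod p) = 2 ^ 6 := by norm_num
    rw [this]
    exact pow_ne_zero _ (two_ne_zero' (by omega))
  have h4 : (64 * α - 15) * η {0, 1} = 0 := by
    have h5 : -(15 / 64) * η {0, 1} * 64 = -15 * η {0, 1} := by
      field_simp
    linear_combination 64 * h1 - h5
  exact (mul_eq_zero.1 h4).resolve_left (sub_ne_zero.2 hα)

/-! ### case (3) for `J(j; α)` -/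

theorem eta_rel3 (h2 : p ≠ 2) (h : LD p i e D N) (hS : USys T θ b ν N) (hθ : b → θ = 0)
    (hi : 2 ≤ i) (hiT : i + 1 < T) (hb2 : b → i + 2 < T)
    (hAs : ∑ a ∈ Ioo i T, 2 ^ a + 2 ^ i = 2 ^ i * (p * e))
    {K : Finset ℕ} (hK : K ⊆ range i) (h0 : 0 ∈ K) (hev : Even #K) :
    eta i D N K = -(1 / 4) * (if i - 1 ∈ K then ν K else 0) := by
  have h3 := two_le_card_of_even h0 hev
  have hA : ∀ a ∈ Ioo i T, i < a := fun a ha => (mem_Ioo.1 ha).1
  have h4 := h.own h2 hA hAs hK h0 hev
  have hiK : i ∉ K := fun h => by have := mem_range.1 (hK h); omega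
  have hco : range T \ insert i K = Ioo i T ∪ (range i \ K) := by
    ext a
    simp only [mem_sdiff, mem_range, mem_insert, mem_union, mem_Ioo, not_or]
    constructor
    · rintro ⟨h1, h3, h4⟩
      rcases Nat.lt_or_ge a i with h6 | h6
      · exact Or.inr ⟨h6, h4⟩
      · exact Or.inl ⟨by omega, h1⟩
    · rintro (⟨h1, h3⟩ | ⟨h1, h3⟩)
      · refine ⟨h3, by omega, fun h => ?_⟩
        have := mem_range.1 (hK h)
        omega
      · exact ⟨by omega, by omega, h3⟩
  have hsub : insert i K ⊆ range T := by
    intro a ha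
    rw [mem_insert] at ha
    rw [mem_range]
    rcases ha with ha | ha
    · omega
    · have := mem_range.1 (hK ha)
      omega
  have hcar : #(insert i K) = #K + 1 := card_insert_of_notMem hiK
  have hc := card_compl hsub
  have h00 : 0 ∈ insert i K := mem_insert_of_mem h0
  have hev' := hev
  obtain ⟨k, hk⟩ := hev'
  have h5 := hS (range T \ insert i K) (#K / 2 - 1) (compl_sub h00) (by omega)
    (fun hb' => Or.inl (by
      rw [mem_sdiff, mem_range, mem_insert]
      refine ⟨by omega, ?_⟩
      rintro (h | h)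
      · omega
      · have := mem_range.1 (hK h)
        omega))
  unfold VT at h5
  rw [if_neg (by omega), if_pos (by omega), compl_compl hsub, hco, h4, ← mul_add] at h5
  have h6 := (mul_eq_zero.1 h5).resolve_left (neg_one_pow_ne _)
  have h7 : ∑ c ∈ (insert i K).filter (· + 1 < T),
      (if c + 2 = T ∧ c + 1 ∈ Ioo i T ∪ (range i \ K) then θ else 1)
        * ν (symmDiff (insert i K) {c + 1}) = if i - 1 ∈ K then ν K else 0 := by
    have key : ∀ c ∈ (insert i K).filter (· + 1 < T), c ≠ i - 1 →
        (if c + 2 = T ∧ c + 1 ∈ Ioo i T ∪ (range i \ K) then θ else 1)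
          * ν (symmDiff (insert i K) {c + 1}) = 0 := by
      intro c hc hci
      rw [mem_filter, mem_insert] at hc
      have hc2 : c ≤ i := by
        rcases hc.1 with h | h
        · omega
        · have := mem_range.1 (hK h)
          omega
      have h8 : ν (symmDiff (insert i K) {c + 1}) = 0 := by
        have hcase := card_symmDiff_singleton (insert i K) (c + 1)
        apply nu_zero_full h2 h hS hθ hi hiT hb2 hAs (symmDiff_sub hsub hc.2)
          (symmDiff_mem h00)
        · rcases hcase with h6 | h6
          · exact ⟨k, by omega⟩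
          · exact ⟨k + 1, by omega⟩
        · intro hb' h6
          have := hb2 hb'
          rw [mem_symmDiff, mem_singleton] at h6
          rcases h6 with h6 | h6
          · have h9 := h6.1
            rw [mem_insert] at h9
            rcases h9 with h9 | h9
            · omega
            · have := mem_range.1 (hK h9)
              omega
          · omega
        · refine ⟨i, ?_, le_rfl⟩
          rw [mem_symmDiff, mem_singleton]
          exact Or.inl ⟨mem_insert_self _ _, by omega⟩
      rw [h8, mul_zero]
    by_cases h8 : i - 1 ∈ K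
    · rw [if_pos h8, sum_eq_single (i - 1) key]
      · rw [if_neg (by omega), one_mul]
        have h9 : i - 1 + 1 = i := by omega
        rw [h9, symmDiff_insert_self hiK]
      · intro h9
        exact absurd (mem_filter.2 ⟨mem_insert_of_mem h8, by omega⟩) h9
    · rw [if_neg h8]
      apply sum_eq_zero
      intro c hc
      refine key c hc ?_
      rintro rfl
      rw [mem_filter, mem_insert] at hc
      rcases hc.1 with h9 | h9
      · omega
      · exact h8 h9
  rw [h7] at h6
  linear_combination h6

theorem usys3 (h2 : p ≠ 2) (h : LD p i e D N) (hS : USys T θ b ν N) (hθ : b → θ = 0)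
    (hi : 2 ≤ i) (hiT : i + 1 < T) (hb2 : b → i + 2 < T)
    (hAs : ∑ a ∈ Ioo i T, 2 ^ a + 2 ^ i = 2 ^ i * (p * e)) : USys i 1 False ν (Nn i D N) := by
  intro I l hI hw _
  have hE : ∑ a ∈ Ico i T, 2 ^ a = 2 ^ i * (p * e) := by
    have := pe_eq' (by omega) hAs
    have h3 := sum_Ico_pow (i := i) (T := T) (by omega)
    omega
  have hdis : Disjoint (Ico i T) I := by
    rw [disjoint_left]
    intro a ha hb'
    have := mem_Ico.1 ha
    have := mem_Ico.1 (hI hb')
    omega
  have hcard : #(Ico i T ∪ I) = (T - i) + #I := by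
    rw [card_union_of_disjoint hdis, Nat.card_Ico]
  have h3 := hS (Ico i T ∪ I) l ?_ (by omega) (fun _ => Or.inl ?_)
  · rw [loc_0a h2 h (fun a ha => (mem_Ico.1 ha).1) hI hE hw] at h3
    refine Eq.trans ?_ h3
    congr 1
    have hco : range T \ (Ico i T ∪ I) = range i \ I := by
      ext a
      simp only [mem_sdiff, mem_range, mem_union, mem_Ico, not_or, not_and]
      constructor
      · rintro ⟨h1, h4, h5⟩
        refine ⟨?_, h5⟩
        by_contra h6
        exact h4 (by omega) h1
      · rintro ⟨h1, h4⟩
        exact ⟨by omega, by omega, h4⟩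
    unfold VT
    by_cases h4 : #I + 2 * l + 4 = i
    · rw [if_pos h4, if_pos (show #(Ico i T ∪ I) + 2 * l + 4 = T by omega), hco]
    · rw [if_neg h4, if_neg (show ¬ #(Ico i T ∪ I) + 2 * l + 4 = T by omega)]
      by_cases h5 : #I + 2 * l + 3 = i
      · rw [if_pos h5, if_pos (show #(Ico i T ∪ I) + 2 * l + 3 = T by omega), hco]
        congr 2
        have hsub : range i \ I ⊆ range T := fun a ha => by
          have := mem_range.1 (mem_sdiff.1 ha).1
          rw [mem_range]; omega
        have h00 : 0 ∈ range i \ I := by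
          rw [mem_sdiff, mem_range]
          refine ⟨by omega, fun h => ?_⟩
          have := mem_Ico.1 (hI h)
          omega
        have hcI : #(range i \ I) = 2 * l + 3 := by
          have : #(range i \ I) + #I = i := by
            rw [card_sdiff_add_card_eq_card, card_range]
            intro a ha
            have := mem_Ico.1 (hI ha)
            rw [mem_range]; omega
          omega
        have e1 : ∀ c ∈ (range i \ I).filter (· + 1 < i),
            (if c + 2 = i ∧ c + 1 ∈ I then 1 else 1) * ν (symmDiff (range i \ I) {c + 1})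
            = (if c + 2 = T ∧ c + 1 ∈ Ico i T ∪ I then θ else 1)
              * ν (symmDiff (range i \ I) {c + 1}) := by
          intro c hc
          have := (mem_filter.1 hc).2
          rw [ite_self, if_neg (by omega)]
        rw [sum_congr rfl e1]
        apply sum_subset
        · intro c hc
          rw [mem_filter] at hc ⊢
          exact ⟨hc.1, by omega⟩
        · intro c hc hc'
          have hci : c = i - 1 := by
            rw [mem_filter] at hc hc'
            have := mem_range.1 (mem_sdiff.1 hc.1).1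
            by_contra hcon
            exact hc' ⟨hc.1, by omega⟩
          rw [mem_filter] at hc
          have hcase := card_symmDiff_singleton (range i \ I) (c + 1)
          have h8 : ν (symmDiff (range i \ I) {c + 1}) = 0 := by
            apply nu_zero_full h2 h hS hθ hi hiT hb2 hAs (symmDiff_sub hsub hc.2)
              (symmDiff_mem h00)
            · rcases hcase with h6 | h6
              · exact ⟨l + 1, by omega⟩
              · exact ⟨l + 2, by omega⟩
            · intro hb' h6
              have := hb2 hb'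
              rw [mem_symmDiff, mem_singleton] at h6
              rcases h6 with h6 | h6
              · have := mem_range.1 (mem_sdiff.1 h6.1).1
                omega
              · omega
            · refine ⟨i, ?_, le_rfl⟩
              rw [mem_symmDiff, mem_singleton]
              right
              refine ⟨by omega, fun h => ?_⟩
              have := mem_range.1 (mem_sdiff.1 h).1
              omega
          rw [h8, mul_zero]
      · rw [if_neg h5, if_neg (show ¬ #(Ico i T ∪ I) + 2 * l + 3 = T by omega)]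
  · intro a ha
    rw [mem_union] at ha
    rw [mem_Ico]
    rcases ha with ha | ha
    · have := mem_Ico.1 ha
      omega
    · have := mem_Ico.1 (hI ha)
      omega
  · rw [mem_union, mem_Ico]
    left; omega

end Dyn59
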