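import Pool.Agent.H.MP_d59dab.IndB

/-!
# MP_d59dab: the induction, `p ≥ 5` (continued)
-/

set_option autoImplicit false

open Finset Polynomial

noncomputable section

namespace Dyn59

variable {p : ℕ} [hp : Fact p.Prime]
variable {T i e j : ℕ} {D A : Finset ℕ} {θ α : ZMod p} {b : Prop} {ν : Finset ℕ → ZMod p}
  {N : (ZMod p)[X][X] →ₗ[ZMod p] ZMod p}

theorem eight_ne_zero' (h2 : p ≠ 2) : (8 : ZMod p) ≠ 0 := by
  have h : (8 : ZMod p) = 2 ^ 3 := by norm_num
  rw [h]
  exact pow_ne_zero _ (two_ne_zero' h2)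

/-! ### case (3), levels 2 and 3 -/

theorem nu_zero_3_two (hp3 : 3 ≤ p) (h : LD p 2 e D N) (hJ : JSys j α ν N) (hj : 4 ≤ j)
    (hAs : ∑ a ∈ Ioo 2 (j + 1), 2 ^ a + 2 ^ 2 = 2 ^ 2 * (p * e))
    {K : Finset ℕ} (hK : K ⊆ range j) (h0 : 0 ∈ K) (hev : Even #K) : ν K = 0 := by
  have h2 : p ≠ 2 := by omega
  have big : ∀ K : Finset ℕ, K ⊆ range j → 0 ∈ K → Even #K → (∃ m ∈ K, 2 ≤ m) → ν K = 0 := by
    intro K hK h0 hev hm
    refine nu_zero_full h2 h hJ.u (fun _ => rfl) le_rfl (by omega) (fun _ => by omega) hAs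
      (hK.trans (range_mono (by omega))) h0 hev (fun _ h => ?_) hm
    have := mem_range.1 (hK h)
    omega
  have h01 : ν {0, 1} = 0 := by
    have h1 := hJ.b hj
    have e1 : insert 1 (Ico 3 (j + 1)) = Ioo 2 (j + 1) ∪ {1} := by
      ext a
      simp only [mem_insert, mem_Ico, mem_union, mem_Ioo, mem_singleton]
      omega
    have e2 : range 2 \ {1} = {0} := by decide
    have e3 : sh1 2 (eta 2 D N) {0} = eta 2 D N {0, 1} := by
      unfold sh1
      have h3 : ({0} : Finset ℕ).filter (· + 1 < 2) = {0} := by decide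
      rw [h3, sum_singleton]
      congr 1
    rw [e1, loc_m1b h2 h (fun a ha => (mem_Ioo.1 ha).1) (by decide) hAs (by decide), e2, e3,
      eta_rel3 h2 h hJ.u (fun _ => rfl) le_rfl (by omega) (fun _ => by omega) hAs (by decide) (by decide) (by decide),
      if_pos (by decide), v02, big {0, 2} (by
        intro a ha
        simp only [mem_insert, mem_singleton] at ha
        rw [mem_range]; omega) (by decide) (by decide) ⟨2, by decide, le_rfl⟩,
      big {0, 1, 2, 3} (by
        intro a ha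
        simp only [mem_insert, mem_singleton] at ha
        rw [mem_range]; omega) (by decide) (by decide) ⟨2, by decide, le_rfl⟩] at h1
    have h3 : (if 5 ≤ j then 1 / 8 * ν {0, 2, 3, 4} else 0) = 0 := by
      split_ifs with h5
      · rw [big {0, 2, 3, 4} (by
          intro a ha
          simp only [mem_insert, mem_singleton] at ha
          rw [mem_range]; omega) (by decide) (by decide) ⟨2, by decide, le_rfl⟩, mul_zero]
      · rfl
    rw [h3] at h1
    have h4 := four_ne_zero' h2
    have h8 := eight_ne_zero' h2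
    have h22 := two_ne_zero' h2
    have h5 : (1 / 4 : ZMod p) * ν {0, 1} = 0 := by
      have e4 : (1 / 8 : ZMod p) + 1 / 8 = 1 / 4 := by field_simp; norm_num
      have e5 : -(1 / 2 : ZMod p) * (-(1 / 4)) = 1 / 8 := by field_simp; norm_num
      linear_combination h1 - (e4) * ν {0, 1} - e5 * ν {0, 1}
    exact (mul_eq_zero.1 h5).resolve_left (one_div_ne_zero h4)
  by_cases hm : ∃ m ∈ K, 2 ≤ m
  · exact big K hK h0 hev hm
  · push Not at hm
    have : K = {0, 1} := pair_of_range_two (fun a ha => mem_range.2 (hm a ha)) h0 hev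
    rw [this]
    exact h01

theorem nu_zero_3_three (hp3 : 3 ≤ p) (hα : 8 * α ≠ 3) (h : LD p 3 e D N) (hJ : JSys j α ν N)
    (hj : 5 ≤ j) (hAs : ∑ a ∈ Ioo 3 (j + 1), 2 ^ a + 2 ^ 3 = 2 ^ 3 * (p * e))
    {K : Finset ℕ} (hK : K ⊆ range j) (h0 : 0 ∈ K) (hev : Even #K) : ν K = 0 := by
  have h2 : p ≠ 2 := by omega
  have big : ∀ K : Finset ℕ, K ⊆ range j → 0 ∈ K → Even #K → (∃ m ∈ K, 3 ≤ m) → ν K = 0 := by
    intro K hK h0 hev hm
    refine nu_zero_full h2 h hJ.u (fun _ => rfl) (by norm_num) (by omega) (fun _ => by omega) hAs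
      (hK.trans (range_mono (by omega))) h0 hev (fun _ h => ?_) hm
    have := mem_range.1 (hK h)
    omega
  have h12 : ν {0, 2} + ν {0, 1} = 0 := by
    have h1 := usys3 h2 h hJ.u (fun _ => rfl) (by norm_num) (by omega) (fun _ => by omega) hAs ∅ 0 (empty_subset _)
      (by decide) (fun h => h.elim)
    rw [Car_one hp3, map_zero, zero_add] at h1
    unfold VT at h1
    rw [if_neg (by decide), if_pos (by decide), pow_zero, one_mul] at h1
    have h3 := (mul_eq_zero.1 h1).resolve_left (one_div_ne_zero (four_ne_zero' h2))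
    have h4 : (range 3 \ ∅).filter (· + 1 < 3) = {0, 1} := by decide
    rw [h4, sum_pair (by norm_num), if_neg (by decide), if_neg (by decide), one_mul, one_mul] at h3
    exact h3
  have h01 : ν {0, 1} = 0 := by
    have h1 := hJ.a (by omega)
    have e1 : Ico 2 (j + 1) = Ico 3 (j + 1) ∪ {2} := by
      ext a
      simp only [mem_Ico, mem_union, mem_singleton]
      omega
    have hE : ∑ a ∈ Ico 3 (j + 1), 2 ^ a = 2 ^ 3 * (p * e) := by
      have := pe_eq' (by omega) hAs
      have h3 := sum_Ico_pow (i := 3) (T := j + 1) (by omega)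
      omega
    rw [e1, loc_0b h2 h (fun a ha => (mem_Ico.1 ha).1) (by decide) hE (by decide), Car_two hp3,
      map_zero, if_pos (by decide), mul_zero, add_zero, zero_add, v01, if_neg (by omega),
      if_pos (by omega),
      big {0, 1, 2, 3} (by
        intro a ha
        simp only [mem_insert, mem_singleton] at ha
        rw [mem_range]; omega) (by decide) (by decide) ⟨3, by decide, le_rfl⟩] at h1
    have h8 := eight_ne_zero' h2
    have h4 : (8 * α - 3) * ν {0, 1} = 0 := by
      have h5 : (8 : ZMod p) * (3 / 8) = 3 := by field_simp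
      linear_combination 8 * h1 + ν {0, 1} * h5
    exact (mul_eq_zero.1 h4).resolve_left (sub_ne_zero.2 hα)
  by_cases hm : ∃ m ∈ K, 3 ≤ m
  · exact big K hK h0 hev hm
  · push Not at hm
    rcases pair_of_range_three (fun a ha => mem_range.2 (hm a ha)) h0 hev with h3 | h3
    · rw [h3]
      exact h01
    · rw [h3]
      rw [h01, add_zero] at h12
      exact h12

/-! ### case 0 -/

/-- all tests are null -/
def Null (T : ℕ) (N : (ZMod p)[X][X] →ₗ[ZMod p] ZMod p) : Prop :=
  ∀ K l, K ⊆ range T → 0 ∈ K → 2 * l + 2 ≤ #K → N (Car p (mo (ZMod p) (range T \ K) l)) = 0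

theorem null_of_zero (h2 : p ≠ 2) (hN : ∀ f ∈ FQ (ZMod p) (2 ^ T / p), N f = 0) : Null T N := by
  intro K l hK h0 hl
  apply hN
  apply Car_FQ h2
  have hc := card_compl hK
  refine Submodule.subset_span ⟨_, l, rfl, by rw [mem_sdiff]; exact fun h => h.2 h0, ?_⟩
  have := ol_of_compl (T := T) (S := range T \ K) (U := ∅) (l := l) sdiff_subset (empty_subset _)
    (by rw [card_empty]; omega)
  rwa [sum_empty, sub_zero] at this

theorem null_four (h2 : p ≠ 2) (hZ : Null T N) (hS : USys T θ b ν N) {K : Finset ℕ}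
    (hK : K ⊆ range T) (h0 : 0 ∈ K) (hev : Even #K) (h4 : 4 ≤ #K) (hb : b → T - 1 ∉ K) :
    ν K = 0 := by
  obtain ⟨k, hk⟩ := hev
  exact hS.v4 h2 hK h0 (l := k - 2) (by omega) hb (hZ K _ hK h0 (by omega))

/-- general form of the `V_3` relations for three-element sets -/
theorem null_three (h2 : p ≠ 2) (hZ : Null T N) (hS : USys T θ b ν N) (hθ : b → θ = 0)
    {K : Finset ℕ} (hK : K ⊆ range T) (h0 : 0 ∈ K) (h3 : #K = 3) (hb : b → T - 1 ∉ K)
    {a : ℕ} (ha : a ∈ K) (ha1 : a + 1 ∈ K)
    (hz : ∀ c ∈ K, c ≠ a → c + 1 ∈ K → ν (symmDiff K {c + 1}) = 0) :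
    ν (symmDiff K {a + 1}) = 0 := by
  refine hS.v3_single h2 hK h0 (l := 0) (by omega) hb (hZ K _ hK h0 (by omega)) ha ha1 ?_
  intro c hc hcT hca hcr
  by_cases hc1 : c + 1 ∈ K
  · exact hz c hc hca hc1
  · have hcase := card_symmDiff_singleton K (c + 1)
    have h6 : #(symmDiff K {c + 1}) = 4 := by
      rcases hcase with h6 | h6
      · exact absurd h6.1 hc1
      · omega
    apply null_four h2 hZ hS (symmDiff_sub hK hcT) (symmDiff_mem h0) (by rw [h6]; decide) (by omega)
    intro hb' h7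
    rw [mem_symmDiff, mem_singleton] at h7
    rcases h7 with h7 | h7
    · exact hb hb' h7.1
    · exact hcr ⟨by omega, hc1, hθ hb'⟩

theorem null_pair (h2 : p ≠ 2) (hZ : Null T N) (hS : USys T θ b ν N) (hθ : b → θ = 0)
    {m : ℕ} (hm : 3 ≤ m) (hmT : m < T) (hb : b → m ≠ T - 1) : ν {0, m} = 0 := by
  have hK : ({1, 0, m} : Finset ℕ) ⊆ range T := by
    intro a ha
    simp only [mem_insert, mem_singleton] at ha
    rw [mem_range]; omega
  have hc3 : #({1, 0, m} : Finset ℕ) = 3 := by
    rw [card_insert_of_notMem, card_pair (by omega)]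
    simp only [mem_insert, mem_singleton]; omega
  have h5 := null_three h2 hZ hS hθ hK (by simp) hc3 (by
    intro hb' h
    have := hb hb'
    simp only [mem_insert, mem_singleton] at h
    omega) (a := 0) (by simp) (by simp) (by
    intro c hc hca hc1
    simp only [mem_insert, mem_singleton] at hc hc1
    omega)
  have h6 : symmDiff ({1, 0, m} : Finset ℕ) {0 + 1} = {0, m} := by
    rw [zero_add]
    exact symmDiff_insert_self (by simp only [mem_insert, mem_singleton]; omega)
  rwa [h6] at h5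

theorem null_02 (h2 : p ≠ 2) (hZ : Null T N) (hS : USys T θ b ν N) (hθ : b → θ = 0)
    (hT : 3 < T) (hb : b → 4 < T) : ν {0, 2} = 0 := by
  have hK : ({3, 0, 2} : Finset ℕ) ⊆ range T := by
    intro a ha
    simp only [mem_insert, mem_singleton] at ha
    rw [mem_range]; omega
  have h5 := null_three h2 hZ hS hθ hK (by simp) (by decide) (by
    intro hb' h
    have := hb hb'
    simp only [mem_insert, mem_singleton] at h
    omega) (a := 2) (by simp) (by simp) (by
    intro c hc hca hc1
    simp only [mem_insert, mem_singleton] at hc hc1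
    omega)
  have h6 : symmDiff ({3, 0, 2} : Finset ℕ) {2 + 1} = {0, 2} := by decide
  rwa [h6] at h5

theorem null_01 (h2 : p ≠ 2) (hZ : Null T N) (hS : USys T θ b ν N) (hθ : b → θ = 0)
    (hT : 3 < T) (hb : b → 4 < T) : ν {0, 1} = 0 := by
  have hK : ({2, 0, 1} : Finset ℕ) ⊆ range T := by
    intro a ha
    simp only [mem_insert, mem_singleton] at ha
    rw [mem_range]; omega
  have h5 := null_three h2 hZ hS hθ hK (by simp) (by decide) (by
    intro hb' h
    have := hb hb'
    simp only [mem_insert, mem_singleton] at h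
    omega) (a := 1) (by simp) (by simp) (by
    intro c hc hca hc1
    simp only [mem_insert, mem_singleton] at hc hc1
    have hc0 : c = 0 := by omega
    subst hc0
    have h6 : symmDiff ({2, 0, 1} : Finset ℕ) {0 + 1} = {0, 2} := by decide
    rw [h6]
    exact null_02 h2 hZ hS hθ hT hb)
  have h6 : symmDiff ({2, 0, 1} : Finset ℕ) {1 + 1} = {0, 1} := by decide
  rwa [h6] at h5

theorem pair_form {K : Finset ℕ} (h0 : 0 ∈ K) (hev : Even #K) (h4 : ¬ 4 ≤ #K) :
    ∃ m, m ≠ 0 ∧ K = {0, m} := by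
  have h2 := two_le_card_of_even h0 hev
  have hc2 : #K = 2 := by
    obtain ⟨k, hk⟩ := hev
    omega
  have h5 : #(K.erase 0) = 1 := by rw [card_erase_of_mem h0, hc2]
  obtain ⟨x, hx⟩ := card_eq_one.1 h5
  have h6 : x ∈ K.erase 0 := by rw [hx]; exact mem_singleton_self x
  exact ⟨x, (mem_erase.1 h6).1, by rw [← insert_erase h0, hx]⟩

/-- case 0 of the statement `W_T` -/
theorem case0_W (h2 : p ≠ 2) (hZ : Null T N) (hS : USys T θ b ν N) (hb : ¬ b) (hT : 4 ≤ T)
    {K : Finset ℕ} (hK : K ⊆ range T) (h0 : 0 ∈ K) (hev : Even #K) (hKT : T - 1 ∈ K) :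
    ν K = 0 := by
  by_cases h4 : 4 ≤ #K
  · exact null_four h2 hZ hS hK h0 hev h4 (fun h => absurd h hb)
  · obtain ⟨m, hm0, rfl⟩ := pair_form h0 hev h4
    have hm : m = T - 1 := by
      rw [mem_insert, mem_singleton] at hKT
      omega
    exact null_pair h2 hZ hS (fun h => absurd h hb) (by omega) (by omega) (fun h => absurd h hb)

/-- case 0 of the statement `J_j`, `j ≥ 4` -/
theorem case0_J (h2 : p ≠ 2) (hj : 4 ≤ j) (hZ : Null (j + 1) N) (hS : USys (j + 1) 0 True ν N)
    {K : Finset ℕ} (hK : K ⊆ range j) (h0 : 0 ∈ K) (hev : Even #K) : ν K = 0 := by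
  have hjK : ∀ m ∈ K, m < j := fun m hm => mem_range.1 (hK hm)
  by_cases h4 : 4 ≤ #K
  · exact null_four h2 hZ hS (hK.trans (range_mono (by omega))) h0 hev h4
      (fun _ h => by have := hjK _ h; omega)
  · obtain ⟨m, hm0, rfl⟩ := pair_form h0 hev h4
    have hmj := hjK m (by simp)
    rcases Nat.lt_or_ge m 3 with hm | hm
    · have : m = 1 ∨ m = 2 := by omega
      rcases this with rfl | rfl
      · exact null_01 h2 hZ hS (fun _ => rfl) (by omega) (fun _ => by omega)
      · exact null_02 h2 hZ hS (fun _ => rfl) (by omega) (fun _ => by omega)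
    · exact null_pair h2 hZ hS (fun _ => rfl) hm (by omega) (fun _ => by omega)

/-- case 0 of the statement `J_3` -/
theorem case0_J3 (h2 : p ≠ 2) (hα : 8 * α ≠ 3) (hZ : Null 4 N) (hJ : JSys 3 α ν N)
    {K : Finset ℕ} (hK : K ⊆ range 3) (h0 : 0 ∈ K) (hev : Even #K) : ν K = 0 := by
  have h12 : ν {0, 2} + ν {0, 1} = 0 := by
    have h1 := hJ.u.v3 h2 (K := {0, 1, 2}) (by decide) (by decide) (l := 0) (by decide)
      (fun _ => by decide) (hZ _ _ (by decide) (by decide) (by decide))
    have h4 : ({0, 1, 2} : Finset ℕ).filter (· + 1 < 3 + 1) = {0, 1, 2} := by decide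
    rw [h4, sum_insert (by decide), sum_pair (by norm_num), if_neg (by decide), if_neg (by decide),
      if_pos (by decide), one_mul, one_mul, zero_mul, add_zero] at h1
    exact h1
  have h01 : ν {0, 1} = 0 := by
    have h1 := hJ.a (by omega)
    have e1 : Ico 2 (3 + 1) = range 4 \ {0, 1} := by decide
    rw [e1, hZ {0, 1} 0 (by decide) (by decide) (by decide), zero_add, v01, if_neg (by omega),
      if_neg (by omega), add_zero] at h1
    have h8 := eight_ne_zero' h2
    have h4 : (8 * α - 3) * ν {0, 1} = 0 := by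
      have h5 : (8 : ZMod p) * (3 / 8) = 3 := by field_simp
      linear_combination 8 * h1 + ν {0, 1} * h5
    exact (mul_eq_zero.1 h4).resolve_left (sub_ne_zero.2 hα)
  rcases pair_of_range_three hK h0 hev with h3 | h3
  · rw [h3]
    exact h01
  · rw [h3]
    rw [h01, add_zero] at h12
    exact h12

end Dyn59
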