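import Pool.Agent.H.MP_d59dab.IndA

/-!
# MP_d59dab: the sporadic cases `(p, k) = (11, 4)` and `(5, 3)`
-/

set_option autoImplicit false

open Finset Polynomial

noncomputable section

namespace Dyn59

variable {p : ℕ} [hp : Fact p.Prime]
variable {T i e j : ℕ} {D A : Finset ℕ} {θ α : ZMod p} {b : Prop} {ν : Finset ℕ → ZMod p}
  {N : (ZMod p)[X][X] →ₗ[ZMod p] ZMod p}

theorem compl_01 {i : ℕ} : Ico 2 i = range i \ {0, 1} := by
  ext a
  simp only [mem_sdiff, mem_range, mem_Ico, mem_insert, mem_singleton]
  omega

theorem compl_02 {i : ℕ} (hi : 3 ≤ i) : insert 1 (Ico 3 i) = range i \ {0, 2} := by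
  ext a
  simp only [mem_sdiff, mem_range, mem_Ico, mem_insert, mem_singleton]
  omega

theorem sub_01 {i : ℕ} (hi : 2 ≤ i) : ({0, 1} : Finset ℕ) ⊆ range i := by
  intro a ha
  simp only [mem_insert, mem_singleton] at ha
  rw [mem_range]; omega

theorem sub_02 {i : ℕ} (hi : 3 ≤ i) : ({0, 2} : Finset ℕ) ⊆ range i := by
  intro a ha
  simp only [mem_insert, mem_singleton] at ha
  rw [mem_range]; omega

/-! ### `(p, k) = (11, 4)` -/

section eleven

theorem four_11 (hp11 : p = 11) (h : LD p i 1 D N) (hS : USys (i + 4) 0 True ν N)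
    {K : Finset ℕ} (hK : K ⊆ range (i + 4)) (h0 : 0 ∈ K) (hev : Even #K) (h4 : 4 ≤ #K)
    (hb : i + 3 ∉ K) (h1 : i + 1 ∈ K) (h2' : i + 2 ∈ K) : ν K = 0 := by
  have h2 : p ≠ 2 := by omega
  obtain ⟨k, hk⟩ := hev
  refine hS.v4 h2 hK h0 (l := k - 2) (by omega) (fun _ => by simpa using hb) ?_
  apply h.low_compl h2 hK h0 (U := {i + 2, i + 1})
  · intro a ha
    rw [mem_insert, mem_singleton] at ha
    rcases ha with rfl | rfl
    · exact h2'
    · exact h1
  · rw [card_pair (by omega)]; omega
  · rw [sum_pair (by omega), hp11]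
    have : 1 ≤ 2 ^ i := Nat.one_le_two_pow
    rw [pow_add, pow_add, pow_add]
    omega

theorem rel_11 (hp11 : p = 11) (h : LD p i 1 D N) (hS : USys (i + 4) 0 True ν N)
    {K : Finset ℕ} (hK : K ⊆ range i) (h0 : 0 ∈ K) (hev : Even #K) :
    ν (insert (i + 2) (insert i K)) + ν (insert (i + 1) (insert i K)) = 0 := by
  have h2 : p ≠ 2 := by omega
  have hi := h.hi
  have hle : ∀ a ∈ K, a < i := fun a ha => mem_range.1 (hK ha)
  have hk2 := two_le_card_of_even h0 hev
  obtain ⟨k, hk⟩ := hev
  have hc1 : #(insert i K) = #K + 1 := card_insert_of_notMem (fun h => by have := hle _ h; omega)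
  have hn1 : i + 1 ∉ insert i K := by
    rw [mem_insert]
    rintro (h | h)
    · omega
    · have := hle _ h; omega
  have hn2 : i + 2 ∉ insert i K := by
    rw [mem_insert]
    rintro (h | h)
    · omega
    · have := hle _ h; omega
  have hn2' : i + 2 ∉ insert (i + 1) (insert i K) := by
    rw [mem_insert]
    rintro (h | h)
    · omega
    · exact hn2 h
  have hn1' : i + 1 ∉ insert (i + 2) (insert i K) := by
    rw [mem_insert]
    rintro (h | h)
    · omega
    · exact hn1 h
  set K3 := insert (i + 2) (insert (i + 1) (insert i K)) with hK3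
  have hK3' : K3 = insert (i + 1) (insert (i + 2) (insert i K)) := by
    rw [hK3, insert_comm]
  have hc3 : #K3 = #K + 3 := by
    rw [hK3, card_insert_of_notMem hn2', card_insert_of_notMem hn1, hc1]
  have hle3 : ∀ a ∈ K3, a ≤ i + 2 := by
    intro a ha
    rw [hK3, mem_insert, mem_insert, mem_insert] at ha
    rcases ha with ha | ha | ha | ha
    · omega
    · omega
    · omega
    · have := hle _ ha; omega
  have hs3 : K3 ⊆ range (i + 4) := fun a ha => by
    have := hle3 a ha
    rw [mem_range]; omega
  have h03 : 0 ∈ K3 := by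
    rw [hK3]
    simp only [mem_insert]
    exact Or.inr (Or.inr (Or.inr h0))
  have hco : range (i + 4) \ K3 = {i + 3} ∪ (range i \ K) := by
    ext a
    simp only [hK3, mem_sdiff, mem_range, mem_insert, mem_union, mem_singleton, not_or]
    constructor
    · rintro ⟨h1, h3, h4, h5, h6⟩
      rcases Nat.lt_or_ge a i with h7 | h7
      · exact Or.inr ⟨h7, h6⟩
      · left; omega
    · rintro (h1 | ⟨h1, h3⟩)
      · refine ⟨by omega, by omega, by omega, by omega, fun h => ?_⟩
        have := hle _ h; omega
      · exact ⟨by omega, by omega, by omega, by omega, h3⟩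
  have hcK := card_compl hK
  have hN : N (Car p (mo (ZMod p) (range (i + 4) \ K3) k)) = 0 := by
    have hO : OL (range (i + 4) \ K3) k (2 ^ (i + 4)) := by
      have hc := card_compl hs3
      have := ol_of_compl (T := i + 4) (S := range (i + 4) \ K3) (U := ∅) (l := k) sdiff_subset
        (empty_subset _) (by rw [card_empty]; omega)
      rwa [sum_empty, sub_zero] at this
    rw [hco] at hO ⊢
    apply loc_m3 h2 h (fun q hq => by rw [mem_singleton] at hq; omega) (compl_sub h0)
    · rw [sum_singleton, hp11, pow_add]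
      ring
    · omega
    · apply hO.mono
      rw [hp11, pow_add]
      have : (1 : ℤ) ≤ 2 ^ i := one_le_pow₀ (by norm_num)
      push_cast
      linarith
  have h5 := hS.v3 h2 hs3 h03 (l := k) (by omega) (fun _ h => by
    have := hle3 _ h
    omega) hN
  rw [sum_eq_add i (i + 1) (by omega)] at h5
  · rw [if_neg (by omega), one_mul, if_neg (by omega), one_mul] at h5
    have e1 : symmDiff K3 {i + 1} = insert (i + 2) (insert i K) := by
      rw [hK3', symmDiff_insert_self hn1']
    have e2 : symmDiff K3 {i + 1 + 1} = insert (i + 1) (insert i K) := by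
      rw [hK3, symmDiff_insert_self hn2']
    rw [e1, e2] at h5
    exact h5
  · intro c hc hcc
    rw [mem_filter] at hc
    have hc2 := hle3 c hc.1
    by_cases hcr : c = i + 2
    · rw [if_pos]
      · rw [zero_mul]
      · refine ⟨by omega, fun h => ?_⟩
        have := hle3 _ h
        omega
    · have hcase := card_symmDiff_singleton K3 (c + 1)
      rw [four_11 hp11 h hS (symmDiff_sub hs3 hc.2) (symmDiff_mem h03), mul_zero]
      · rcases hcase with h6 | h6
        · exact ⟨k + 1, by omega⟩
        · exact ⟨k + 2, by omega⟩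
      · rcases hcase with h6 | h6 <;> omega
      · rw [mem_symmDiff, mem_singleton]
        rintro (h | h)
        · have := hle3 _ h.1; omega
        · omega
      · rw [mem_symmDiff, mem_singleton]
        left
        refine ⟨?_, by omega⟩
        rw [hK3]; simp
      · rw [mem_symmDiff, mem_singleton]
        left
        refine ⟨?_, by omega⟩
        rw [hK3]; simp
  · intro h6
    exfalso
    apply h6
    rw [mem_filter]
    refine ⟨?_, by omega⟩
    rw [hK3]; simp
  · intro h6
    exfalso
    apply h6
    rw [mem_filter]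
    refine ⟨?_, by omega⟩
    rw [hK3]; simp

theorem jsys_11 (hp11 : p = 11) (h : LD p i 1 D N) (hS : USys (i + 4) 0 True ν N)
    (hAs : ∑ a ∈ (Ioo i (i + 4)).erase (i + 2), 2 ^ a + 2 ^ i = 2 ^ i * (p * 1)) :
    JSys i 1 (eta i D N) (Nn i D N) := by
  have h2 : p ≠ 2 := by omega
  have hi := h.hi
  have key : ∀ K : Finset ℕ, K ⊆ range i → 0 ∈ K → #K = 2 →
      N (Car p (mo (ZMod p) (Ico (i + 2) (i + 4) ∪ (range i \ K)) 0)) + 1 * eta i D N K = 0 := by
    intro K hK h0 hc
    have hev : Even #K := by rw [hc]; decide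
    have hle : ∀ a ∈ K, a < i := fun a ha => mem_range.1 (hK ha)
    have hco : range (i + 4) \ (insert (i + 1) (insert i K)) = Ico (i + 2) (i + 4) ∪ (range i \ K) := by
      ext a
      simp only [mem_sdiff, mem_range, mem_insert, mem_union, mem_Ico, not_or]
      constructor
      · rintro ⟨h1, h3, h4, h5⟩
        rcases Nat.lt_or_ge a i with h7 | h7
        · exact Or.inr ⟨h7, h5⟩
        · left; omega
      · rintro (h1 | ⟨h1, h3⟩)
        · refine ⟨by omega, by omega, by omega, fun h => ?_⟩
          have := hle _ h; omega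
        · exact ⟨by omega, by omega, by omega, h3⟩
    have hcar := card_own (q := i + 1) (by omega) hK
    have hsub := sub_own (T := i + 4) (q := i + 1) (by omega) (by omega) hK
    have hcc := card_compl hsub
    have h00 : 0 ∈ insert (i + 1) (insert i K) := by
      rw [mem_insert, mem_insert]; exact Or.inr (Or.inr h0)
    have h5 := hS (range (i + 4) \ (insert (i + 1) (insert i K))) 0 (compl_sub h00) (by omega)
      (fun _ => Or.inl (by
        rw [mem_sdiff, mem_range, mem_insert, mem_insert]
        refine ⟨by omega, ?_⟩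
        rintro (h | h | h)
        · omega
        · omega
        · have := hle _ h
          omega))
    unfold VT at h5
    rw [if_pos (by omega), compl_compl hsub, hco, pow_zero, one_mul] at h5
    have h6 := eta_own h2 h hS (q := i + 2) (by omega) (by omega) (fun _ => by omega) hAs hK h0 hev
    have h7 := rel_11 hp11 h hS hK h0 hev
    rw [h6]
    linear_combination h5 + 1 / 2 * h7
  refine jsys_of_tests h2 (E := Ico (i + 2) (i + 4)) (E' := (Ico i (i + 4)).erase (i + 2)) h
    ?_ ?_ ?_ ?_ ?_ ?_ ?_ ?_
  · intro a ha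
    have := mem_Ico.1 ha
    omega
  · have := sum_Ico_pow (i := i + 2) (T := i + 4) (by omega)
    rw [hp11]
    rw [pow_add, pow_add] at this
    omega
  · intro a ha
    exact (mem_Ico.1 (mem_of_mem_erase ha)).1
  · have h3 := sum_Ico_pow (i := i) (T := i + 4) (by omega)
    have h4 : ∑ a ∈ (Ico i (i + 4)).erase (i + 2), 2 ^ a + 2 ^ (i + 2) = ∑ a ∈ Ico i (i + 4), 2 ^ a :=
      sum_erase_add _ _ (mem_Ico.2 ⟨by omega, by omega⟩)
    rw [hp11]
    rw [pow_add] at h3 h4
    omega
  · intro I l hI hw
    have hdis : Disjoint (Ico (i + 2) (i + 4)) I := by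
      rw [disjoint_left]
      intro a ha hb'
      have := mem_Ico.1 ha
      have := mem_Ico.1 (hI hb')
      omega
    have hcard : #(Ico (i + 2) (i + 4) ∪ I) = 2 + #I := by
      rw [card_union_of_disjoint hdis, Nat.card_Ico]
      omega
    have h3 := hS (Ico (i + 2) (i + 4) ∪ I) l ?_ (by omega) (fun _ => Or.inl ?_)
    · unfold VT at h3
      rw [if_neg (by omega), if_neg (by omega), add_zero] at h3
      exact h3
    · intro a ha
      rw [mem_union] at ha
      rw [mem_Ico]
      rcases ha with ha | ha
      · have := mem_Ico.1 ha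
        omega
      · have := mem_Ico.1 (hI ha)
        omega
    · rw [mem_union, mem_Ico]
      left; omega
  · intro hi2
    rw [compl_01]
    exact key {0, 1} (sub_01 hi2) (by decide) (by decide)
  · intro hi4
    rw [compl_02 (by omega)]
    exact key {0, 2} (sub_02 (by omega)) (by decide) (by decide)
  · intro I l hI hw
    have hdis : Disjoint ((Ico i (i + 4)).erase (i + 2)) I := by
      rw [disjoint_left]
      intro a ha hb'
      have := mem_Ico.1 (mem_of_mem_erase ha)
      have := mem_Ico.1 (hI hb')
      omega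
    have hcard : #((Ico i (i + 4)).erase (i + 2) ∪ I) = 3 + #I := by
      rw [card_union_of_disjoint hdis, card_erase_of_mem (mem_Ico.2 ⟨by omega, by omega⟩),
        Nat.card_Ico]
      omega
    have h3 := hS ((Ico i (i + 4)).erase (i + 2) ∪ I) l ?_ (by omega) (fun _ => Or.inr (by omega))
    · unfold VT at h3
      rw [if_neg (by omega), if_neg (by omega), add_zero] at h3
      exact h3
    · intro a ha
      rw [mem_union] at ha
      rw [mem_Ico]
      rcases ha with ha | ha
      · have := mem_Ico.1 (mem_of_mem_erase ha)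
        omega
      · have := mem_Ico.1 (hI ha)
        omega

end eleven

/-! ### `(p, k) = (5, 3)` -/

section five

theorem sum_split_top {K : Finset ℕ} (hi : 1 ≤ i) (hK : K ⊆ range i) (f : ℕ → ZMod p) :
    ∑ c ∈ K, f c = ∑ c ∈ K.filter (· + 1 < i), f c + (if i - 1 ∈ K then f (i - 1) else 0) := by
  rw [← sum_filter_add_sum_filter_not K (· + 1 < i)]
  congr 1
  by_cases h : i - 1 ∈ K
  · rw [if_pos h]
    have : K.filter (fun x => ¬ x + 1 < i) = {i - 1} := by
      ext a
      rw [mem_filter, mem_singleton]
      constructor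
      · rintro ⟨h1, h2⟩
        have := mem_range.1 (hK h1)
        omega
      · rintro rfl
        exact ⟨h, by omega⟩
    rw [this, sum_singleton]
  · rw [if_neg h]
    apply sum_eq_zero
    intro c hc
    rw [mem_filter] at hc
    exfalso
    apply h
    have := mem_range.1 (hK hc.1)
    have : i - 1 = c := by omega
    rw [this]
    exact hc.1

theorem symmDiff_new {K : Finset ℕ} {c : ℕ} (hc : c ∉ K) : symmDiff K {c} = insert c K := by
  ext a
  rw [mem_symmDiff, mem_singleton, mem_insert]
  constructor
  · rintro (h | h)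
    · exact Or.inr h.1
    · exact Or.inl h.1
  · rintro (h | h)
    · exact Or.inr ⟨h, h ▸ hc⟩
    · exact Or.inl ⟨h, fun h' => hc (h' ▸ h)⟩

theorem symmDiff_insert_of_ne {K : Finset ℕ} {a c : ℕ} (h : a ≠ c) :
    symmDiff (insert a K) {c} = insert a (symmDiff K {c}) := by
  ext x
  simp only [mem_symmDiff, mem_singleton, mem_insert]
  constructor
  · rintro (⟨h1 | h1, h2⟩ | ⟨h1, h2⟩)
    · exact Or.inl h1
    · exact Or.inr (Or.inl ⟨h1, h2⟩)
    · exact Or.inr (Or.inr ⟨h1, fun h3 => h2 (Or.inr h3)⟩)
  · rintro (h1 | ⟨h1, h2⟩ | ⟨h1, h2⟩)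
    · exact Or.inl ⟨Or.inl h1, by rw [h1]; exact h⟩
    · exact Or.inl ⟨Or.inr h1, h2⟩
    · exact Or.inr ⟨h1, fun h3 => h3.elim (fun h4 => h (h4.symm.trans h1)) h2⟩

theorem own_5 (hp5 : p = 5) (h : LD p i 1 D N) (hS : USys (i + 3) 0 True ν N) {K : Finset ℕ}
    (hK : K ⊆ range i) (h0 : 0 ∈ K) (hev : Even #K) :
    ν (insert (i + 1) (insert i K)) = 2 * eta i D N K := by
  have h2 : p ≠ 2 := by omega
  have hAs : ∑ a ∈ (Ioo i (i + 3)).erase (i + 1), 2 ^ a + 2 ^ i = 2 ^ i * (p * 1) := by
    have : (Ioo i (i + 3)).erase (i + 1) = {i + 2} := by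
      ext a; simp only [mem_erase, mem_Ioo, mem_singleton]; omega
    rw [this, sum_singleton, hp5, pow_add]
    ring
  rw [eta_own h2 h hS (q := i + 1) (by omega) (by omega) (fun _ => by omega) hAs hK h0 hev]
  field_simp [two_ne_zero' h2]

theorem rel_5 (hp5 : p = 5) (h : LD p i 1 D N) (hS : USys (i + 3) 0 True ν N) {K : Finset ℕ}
    (hK : K ⊆ range i) (h0 : 0 ∈ K) {l : ℕ} (hl : #K = 2 * l + 1) :
    ν (insert i K) = -(if i - 1 ∈ K then ν (insert (i + 1) K) else 0) := by
  have h2 : p ≠ 2 := by omega
  have hi := h.hi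
  have hle : ∀ a ∈ K, a < i := fun a ha => mem_range.1 (hK ha)
  have hiK : i ∉ K := fun h => by have := hle _ h; omega
  have hi1 : i + 1 ∉ insert i K := by
    rw [mem_insert]
    rintro (h | h)
    · omega
    · have := hle _ h; omega
  set K3 := insert (i + 1) (insert i K) with hK3
  have hc3 : #K3 = 2 * l + 3 := by
    rw [hK3, card_insert_of_notMem hi1, card_insert_of_notMem hiK]; omega
  have hle3 : ∀ a ∈ K3, a ≤ i + 1 := by
    intro a ha
    rw [hK3, mem_insert, mem_insert] at ha
    rcases ha with ha | ha | ha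
    · omega
    · omega
    · have := hle _ ha; omega
  have hs3 : K3 ⊆ range (i + 3) := fun a ha => by
    have := hle3 a ha
    rw [mem_range]; omega
  have h03 : 0 ∈ K3 := by
    rw [hK3]
    simp only [mem_insert]
    exact Or.inr (Or.inr h0)
  have hco : range (i + 3) \ K3 = {i + 2} ∪ (range i \ K) := by
    ext a
    simp only [hK3, mem_sdiff, mem_range, mem_insert, mem_union, mem_singleton, not_or]
    constructor
    · rintro ⟨h1, h3, h4, h5⟩
      rcases Nat.lt_or_ge a i with h7 | h7
      · exact Or.inr ⟨h7, h5⟩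
      · left; omega
    · rintro (h1 | ⟨h1, h3⟩)
      · refine ⟨by omega, by omega, by omega, fun h => ?_⟩
        have := hle _ h; omega
      · exact ⟨by omega, by omega, by omega, h3⟩
  have hcK := card_compl hK
  have hc := card_compl hs3
  have h5 := hS (range (i + 3) \ K3) l (compl_sub h03) (by omega)
    (fun _ => Or.inl (by rw [hco, mem_union, mem_singleton]; left; omega))
  unfold VT at h5
  rw [if_neg (by omega), if_pos (by omega), compl_compl hs3, hco,
    loc_m1b h2 h (fun q hq => by rw [mem_singleton] at hq; omega) (compl_sub h0)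
      (by rw [sum_singleton, hp5, pow_add]; ring) (by omega), compl_compl hK, ← mul_add] at h5
  have h6 := (mul_eq_zero.1 h5).resolve_left (neg_one_pow_ne _)
  have hfil : K3.filter (· + 1 < i + 3) = K3 := by
    apply filter_true_of_mem
    intro a ha
    have := hle3 a ha
    omega
  rw [hfil, hK3, sum_insert hi1, sum_insert hiK, if_pos (by
      refine ⟨by omega, ?_⟩
      rw [mem_union, mem_singleton]; left; omega), if_neg (by omega), zero_mul, zero_add,
    one_mul, symmDiff_insert_self hi1] at h6
  have h7 : ∑ x ∈ K, (if x + 2 = i + 3 ∧ x + 1 ∈ {i + 2} ∪ range i \ K then 0 else 1) *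
        ν (symmDiff (insert (i + 1) (insert i K)) {x + 1})
      = 2 * sh1 i (eta i D N) K + (if i - 1 ∈ K then ν (insert (i + 1) K) else 0) := by
    have h8 : ∀ x ∈ K, (if x + 2 = i + 3 ∧ x + 1 ∈ {i + 2} ∪ range i \ K then 0 else 1) *
        ν (symmDiff (insert (i + 1) (insert i K)) {x + 1})
        = ν (symmDiff (insert (i + 1) (insert i K)) {x + 1}) := by
      intro x hx
      have := hle x hx
      rw [if_neg (by omega), one_mul]
    rw [sum_congr rfl h8, sum_split_top hi hK]
    congr 1
    · unfold sh1
      rw [mul_sum]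
      apply sum_congr rfl
      intro c hc
      rw [mem_filter] at hc
      have := hle c hc.1
      rw [symmDiff_insert_of_ne (by omega), symmDiff_insert_of_ne (by omega)]
      have hcase := card_symmDiff_singleton K (c + 1)
      apply own_5 hp5 h hS (symmDiff_sub hK hc.2) (symmDiff_mem h0)
      rcases hcase with h6 | h6
      · exact ⟨l, by omega⟩
      · exact ⟨l + 1, by omega⟩
    · split_ifs with h9
      · have h10 : i - 1 + 1 = i := by omega
        rw [h10, symmDiff_insert_of_ne (by omega), symmDiff_insert_self hiK]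
      · rfl
  rw [h7] at h6
  have h4 := four_ne_zero' h2
  have h22 := two_ne_zero' h2
  have e1 : (1 / 4 : ZMod p) * 2 = 1 / 2 := by field_simp; norm_num
  have h9 : (1 / 4 : ZMod p) * (ν (insert i K) + (if i - 1 ∈ K then ν (insert (i + 1) K) else 0))
      = 0 := by
    linear_combination h6 - sh1 i (eta i D N) K * e1
  have h10 := (mul_eq_zero.1 h9).resolve_left (one_div_ne_zero h4)
  linear_combination h10

/-- the functional of the system at level `i + 1` -/
def nut (i : ℕ) (ν η : Finset ℕ → ZMod p) (K : Finset ℕ) : ZMod p :=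
  if i ∈ K then ν (insert (i + 1) (K.erase i)) else η K

theorem usys_5 (hp5 : p = 5) (h : LD p i 1 D N) (hS : USys (i + 3) 0 True ν N) (hi2 : 2 ≤ i) :
    USys (i + 1) 2 False (nut i ν (eta i D N)) (Nn i D N) := by
  have h2 : p ≠ 2 := by omega
  intro S l hSs hw _
  by_cases hiS : i ∈ S
  · have hI : S.erase i ⊆ Ico 1 i := by
      intro a ha
      rw [mem_erase] at ha
      have := mem_Ico.1 (hSs ha.2)
      rw [mem_Ico]
      omega
    have hc : #(S.erase i) + 1 = #S := card_erase_add_one hiS
    have hins : insert i (S.erase i) = S := insert_erase hiS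
    set I := S.erase i with hIdef
    have h0I : 0 ∉ I := fun h => by have := mem_Ico.1 (hI h); omega
    have hIr : I ⊆ range i := fun a ha => by
      have := mem_Ico.1 (hI ha)
      rw [mem_range]; omega
    have hcomp : range (i + 1) \ S = range i \ I := by
      ext a
      simp only [hIdef, mem_sdiff, mem_range, mem_erase, not_and]
      constructor
      · rintro ⟨h3, h4⟩
        have : a ≠ i := fun h => h4 (h ▸ hiS)
        exact ⟨by omega, fun _ => h4⟩
      · rintro ⟨h3, h4⟩
        exact ⟨by omega, h4 (by omega)⟩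
    have hiK : i ∉ range i \ I := fun h => by
      have := mem_range.1 (mem_sdiff.1 h).1
      omega
    have hK0 : 0 ∈ range i \ I := by rw [mem_sdiff, mem_range]; exact ⟨by omega, h0I⟩
    have hKc : #(range i \ I) + #I = i := by
      rw [card_sdiff_add_card_eq_card hIr, card_range]
    have hdis : Disjoint (Ico (i + 1) (i + 3)) I := by
      rw [disjoint_left]
      intro a ha hb'
      have := mem_Ico.1 ha
      have := mem_Ico.1 (hI hb')
      omega
    have hcard : #(Ico (i + 1) (i + 3) ∪ I) = 2 + #I := by
      rw [card_union_of_disjoint hdis, Nat.card_Ico]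
      omega
    have hco : range (i + 3) \ (Ico (i + 1) (i + 3) ∪ I) = insert i (range i \ I) := by
      ext a
      simp only [mem_sdiff, mem_range, mem_union, mem_Ico, not_or, mem_insert]
      constructor
      · rintro ⟨h1, h3, h4⟩
        rcases Nat.lt_or_ge a i with h7 | h7
        · exact Or.inr ⟨h7, h4⟩
        · left; omega
      · rintro (h1 | ⟨h1, h3⟩)
        · refine ⟨by omega, by omega, fun h => ?_⟩
          have := mem_Ico.1 (hI h); omega
        · exact ⟨by omega, by omega, h3⟩
    have h3 := hS (Ico (i + 1) (i + 3) ∪ I) l (by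
      intro a ha
      rw [mem_union] at ha
      rw [mem_Ico]
      rcases ha with ha | ha
      · have := mem_Ico.1 ha
        omega
      · have := mem_Ico.1 (hI ha)
        omega) (by omega) (fun _ => Or.inl (by
      rw [mem_union, mem_Ico]
      left; omega))
    have hE : ∀ q ∈ Ico (i + 1) (i + 3), i < q := fun q hq => by
      have := mem_Ico.1 hq; omega
    have hR : ∑ q ∈ Ico (i + 1) (i + 3), 2 ^ q = 2 ^ i * (p * 1 + 1) := by
      have := sum_Ico_pow (i := i + 1) (T := i + 3) (by omega)
      rw [hp5]
      rw [pow_add, pow_add] at this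
      omega
    unfold VT at h3 ⊢
    rw [hco] at h3
    rw [hcomp]
    rcases Nat.lt_trichotomy (#I + 2 * l + 4) i with hw1 | hw1 | hw1
    · rw [if_neg (by omega), if_neg (by omega), add_zero, loc_1a h2 h hE hI hR (by omega), hins] at h3
      rw [if_neg (by omega), if_neg (by omega), add_zero]
      exact h3
    · rw [if_neg (by omega), if_neg (by omega), add_zero, loc_1b h2 h hE hI hR hw1, hins] at h3
      rw [if_pos (by omega), nut, if_neg hiK]
      exact h3
    · rw [if_pos (by omega), loc_1c h2 h hE hI hR (by omega), hins] at h3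
      rw [if_neg (by omega), if_pos (by omega)]
      refine Eq.trans ?_ h3
      rw [add_assoc, ← mul_add]
      congr 2
      have hfil : (range i \ I).filter (· + 1 < i + 1) = range i \ I := by
        apply filter_true_of_mem
        intro a ha
        have := mem_range.1 (mem_sdiff.1 ha).1
        omega
      rw [hfil, sum_split_top (by omega) sdiff_subset,
        rel_5 hp5 h hS sdiff_subset hK0 (l := l + 1) (by omega)]
      have e1 : ∑ c ∈ (range i \ I).filter (· + 1 < i),
          (if c + 2 = i + 1 ∧ c + 1 ∈ S then 2 else 1)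
            * nut i ν (eta i D N) (symmDiff (range i \ I) {c + 1})
          = sh1 i (eta i D N) (range i \ I) := by
        unfold sh1
        apply sum_congr rfl
        intro c hc
        rw [mem_filter] at hc
        rw [if_neg (by omega), one_mul, nut, if_neg]
        rw [mem_symmDiff, mem_singleton]
        rintro (h | h)
        · exact hiK h.1
        · omega
      rw [e1]
      by_cases h9 : i - 1 ∈ range i \ I
      · rw [if_pos h9, if_pos h9, if_pos (by
          refine ⟨by omega, ?_⟩
          have : i - 1 + 1 = i := by omega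
          rw [this]; exact hiS)]
        have h10 : i - 1 + 1 = i := by omega
        have h11 : symmDiff (range i \ I) {i} = insert i (range i \ I) := by
          ext a
          rw [mem_symmDiff, mem_singleton, mem_insert]
          constructor
          · rintro (h | h)
            · exact Or.inr h.1
            · exact Or.inl h.1
          · rintro (h | h)
            · exact Or.inr ⟨h, h ▸ hiK⟩
            · exact Or.inl ⟨h, fun h' => hiK (h' ▸ h)⟩
        rw [h10, h11, nut, if_pos (mem_insert_self _ _), erase_insert hiK]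
        have h4 := four_ne_zero' h2
        have h22 := two_ne_zero' h2
        have e2 : (1 / 4 : ZMod p) * 2 = 1 / 2 := by field_simp; norm_num
        linear_combination (ν (insert (i + 1) (range i \ I))) * e2
      · rw [if_neg h9, if_neg h9]
        ring
  · have hI : S ⊆ Ico 1 i := by
      intro a ha
      have h3 := mem_Ico.1 (hSs ha)
      have : a ≠ i := fun h => hiS (h ▸ ha)
      rw [mem_Ico]
      omega
    have h0I : 0 ∉ S := fun h => by have := mem_Ico.1 (hI h); omega
    have hIr : S ⊆ range i := fun a ha => by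
      have := mem_Ico.1 (hI ha)
      rw [mem_range]; omega
    have hcomp : range (i + 1) \ S = insert i (range i \ S) := by
      ext a
      simp only [mem_sdiff, mem_range, mem_insert]
      constructor
      · rintro ⟨h3, h4⟩
        rcases Nat.lt_or_ge a i with h5 | h5
        · exact Or.inr ⟨h5, h4⟩
        · left; omega
      · rintro (h3 | h3)
        · exact ⟨by omega, fun h4 => hiS (h3 ▸ h4)⟩
        · exact ⟨by omega, h3.2⟩
    have hiK : i ∉ range i \ S := fun h => by
      have := mem_range.1 (mem_sdiff.1 h).1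
      omega
    have hi1K : i + 1 ∉ range i \ S := fun h => by
      have := mem_range.1 (mem_sdiff.1 h).1
      omega
    have hK0 : 0 ∈ range i \ S := by rw [mem_sdiff, mem_range]; exact ⟨by omega, h0I⟩
    have hKc : #(range i \ S) + #S = i := by
      rw [card_sdiff_add_card_eq_card hIr, card_range]
    have hdis : Disjoint ({i, i + 2} : Finset ℕ) S := by
      rw [disjoint_left]
      intro a ha hb'
      rw [mem_insert, mem_singleton] at ha
      have := mem_Ico.1 (hI hb')
      omega
    have hcard : #({i, i + 2} ∪ S) = 2 + #S := by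
      rw [card_union_of_disjoint hdis, card_pair (by omega)]
    have hco : range (i + 3) \ ({i, i + 2} ∪ S) = insert (i + 1) (range i \ S) := by
      ext a
      simp only [mem_sdiff, mem_range, mem_union, mem_singleton, not_or, mem_insert]
      constructor
      · rintro ⟨h1, ⟨h3, h5⟩, h4⟩
        rcases Nat.lt_or_ge a i with h7 | h7
        · exact Or.inr ⟨h7, h4⟩
        · left; omega
      · rintro (h1 | ⟨h1, h3⟩)
        · refine ⟨by omega, ⟨by omega, by omega⟩, fun h => ?_⟩
          have := mem_Ico.1 (hI h); omega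
        · exact ⟨by omega, ⟨by omega, by omega⟩, h3⟩
    have h3 := hS ({i, i + 2} ∪ S) l (by
      intro a ha
      rw [mem_union, mem_insert, mem_singleton] at ha
      rw [mem_Ico]
      rcases ha with ha | ha
      · omega
      · have := mem_Ico.1 (hI ha)
        omega) (by omega) (fun _ => Or.inl (by
      rw [mem_union, mem_insert, mem_singleton]
      left; right; omega))
    have hE : ∀ q ∈ ({i, i + 2} : Finset ℕ), i ≤ q := fun q hq => by
      rw [mem_insert, mem_singleton] at hq; omega
    have hR : ∑ q ∈ ({i, i + 2} : Finset ℕ), 2 ^ q = 2 ^ i * (p * 1) := by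
      rw [sum_pair (by omega), hp5, pow_add]
      ring
    unfold VT at h3 ⊢
    rw [hco] at h3
    rw [hcomp]
    rcases Nat.lt_trichotomy (#S + 2 * l + 3) i with hw1 | hw1 | hw1
    · rw [if_neg (by omega), if_neg (by omega), add_zero, loc_0a h2 h hE hI hR (by omega)] at h3
      rw [if_neg (by omega), if_neg (by omega), add_zero]
      exact h3
    · rw [if_pos (by omega), loc_0a h2 h hE hI hR (by omega)] at h3
      rw [if_pos (by omega), nut, if_pos (mem_insert_self _ _), erase_insert hiK]
      exact h3
    · rw [if_neg (by omega), if_pos (by omega), loc_0b h2 h hE hI hR (by omega)] at h3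
      rw [if_neg (by omega), if_pos (by omega)]
      refine Eq.trans ?_ h3
      rw [add_assoc, ← mul_add]
      congr 2
      have hfil : (insert (i + 1) (range i \ S)).filter (· + 1 < i + 3) = insert (i + 1) (range i \ S) := by
        apply filter_true_of_mem
        intro a ha
        rw [mem_insert] at ha
        rcases ha with ha | ha
        · omega
        · have := mem_range.1 (mem_sdiff.1 ha).1
          omega
      have hfil2 : (insert i (range i \ S)).filter (· + 1 < i + 1) = range i \ S := by
        ext a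
        rw [mem_filter, mem_insert]
        constructor
        · rintro ⟨h | h, h'⟩
          · omega
          · exact h
        · intro h
          have := mem_range.1 (mem_sdiff.1 h).1
          exact ⟨Or.inr h, by omega⟩
      have e0 : (if i + 1 + 2 = i + 3 ∧ i + 1 + 1 ∈ ({i, i + 2} ∪ S : Finset ℕ) then (0 : ZMod p)
          else 1) = 0 := by
        apply if_pos
        refine ⟨by omega, ?_⟩
        rw [mem_union, mem_insert, mem_singleton]
        left; right; omega
      rw [hfil, hfil2, sum_insert hi1K, e0, zero_mul, zero_add,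
        sum_split_top (by omega) sdiff_subset, sum_split_top (by omega) sdiff_subset]
      have e1 : ∑ c ∈ (range i \ S).filter (· + 1 < i),
          (if c + 2 = i + 1 ∧ c + 1 ∈ S then 2 else 1)
            * nut i ν (eta i D N) (symmDiff (insert i (range i \ S)) {c + 1})
          = ∑ c ∈ (range i \ S).filter (· + 1 < i),
            (if c + 2 = i + 3 ∧ c + 1 ∈ {i, i + 2} ∪ S then 0 else 1)
              * ν (symmDiff (insert (i + 1) (range i \ S)) {c + 1}) := by
        apply sum_congr rfl
        intro c hc
        rw [mem_filter] at hc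
        rw [if_neg (by omega), one_mul, if_neg (by omega), one_mul,
          symmDiff_insert_of_ne (by omega), symmDiff_insert_of_ne (by omega), nut,
          if_pos (mem_insert_self _ _), erase_insert]
        rw [mem_symmDiff, mem_singleton]
        rintro (h | h)
        · exact hiK h.1
        · omega
      rw [e1]
      have h10 : i - 1 + 1 = i := by omega
      have hiff : i - 1 ∈ range i \ S ↔ i - 1 ∉ S := by
        rw [mem_sdiff, mem_range]
        exact ⟨fun h => h.2, fun h => ⟨by omega, h⟩⟩
      by_cases h9 : i - 1 ∈ S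
      · rw [if_pos h9, if_neg (fun h => hiff.1 h h9), if_neg (fun h => hiff.1 h h9)]
        ring
      · rw [if_neg h9, if_pos (hiff.2 h9), if_pos (hiff.2 h9), h10, if_neg (fun h => hiS h.2),
          one_mul, if_neg (by omega), one_mul, symmDiff_insert_self hiK,
          symmDiff_insert_of_ne (by omega)]
        have h11 : symmDiff (range i \ S) {i} = insert i (range i \ S) := by
          ext a
          rw [mem_symmDiff, mem_singleton, mem_insert]
          constructor
          · rintro (h | h)
            · exact Or.inr h.1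
            · exact Or.inl h.1
          · rintro (h | h)
            · exact Or.inr ⟨h, h ▸ hiK⟩
            · exact Or.inl ⟨h, fun h' => hiK (h' ▸ h)⟩
        rw [h11, own_5 hp5 h hS sdiff_subset hK0 (by
          refine ⟨l + 1, ?_⟩
          omega), nut, if_neg hiK]
        have h4 := four_ne_zero' h2
        have h22 := two_ne_zero' h2
        have e2 : (1 / 4 : ZMod p) * 2 = 1 / 2 := by field_simp; norm_num
        have e3 : (1 / 2 : ZMod p) - 1 / 4 = 1 / 4 := by field_simp; norm_num
        linear_combination (-(eta i D N (range i \ S))) * e2 - (eta i D N (range i \ S)) * e3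

/-- if the `ν_(K + i)` vanish, `(η, N')` solves `J(i; 1/2)` -/
theorem jsys_5 (hp5 : p = 5) (h : LD p i 1 D N) (hS : USys (i + 3) 0 True ν N) (hi3 : 3 ≤ i)
    (hlam : ∀ K : Finset ℕ, K ⊆ range i → 0 ∈ K → Odd #K → ν (insert i K) = 0) :
    JSys i (1 / 2) (eta i D N) (Nn i D N) := by
  have h2 : p ≠ 2 := by omega
  have hco : ∀ K : Finset ℕ, K ⊆ range i →
      range (i + 3) \ insert i K = Ico (i + 1) (i + 3) ∪ (range i \ K) := by
    intro K hK
    have hle : ∀ a ∈ K, a < i := fun a ha => mem_range.1 (hK ha)
    ext a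
    simp only [mem_sdiff, mem_range, mem_insert, mem_union, mem_Ico, not_or]
    constructor
    · rintro ⟨h1, h3, h4⟩
      rcases Nat.lt_or_ge a i with h7 | h7
      · exact Or.inr ⟨h7, h4⟩
      · left; omega
    · rintro (h1 | ⟨h1, h3⟩)
      · refine ⟨by omega, by omega, fun h => ?_⟩
        have := hle _ h; omega
      · exact ⟨by omega, by omega, h3⟩
  have hsubi : ∀ K : Finset ℕ, K ⊆ range i → insert i K ⊆ range (i + 3) := by
    intro K hK a ha
    rw [mem_insert] at ha
    rw [mem_range]
    rcases ha with ha | ha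
    · omega
    · have := mem_range.1 (hK ha)
      omega
  have htop : ∀ K : Finset ℕ, K ⊆ range i → i + 3 - 1 ∈ range (i + 3) \ insert i K := by
    intro K hK
    rw [mem_sdiff, mem_range, mem_insert]
    refine ⟨by omega, ?_⟩
    rintro (h | h)
    · omega
    · have := mem_range.1 (hK h)
      omega
  have key : ∀ K : Finset ℕ, K ⊆ range i → 0 ∈ K → #K = 2 → i - 1 ∉ K →
      N (Car p (mo (ZMod p) (Ico (i + 1) (i + 3) ∪ (range i \ K)) 0)) + 1 / 2 * eta i D N K = 0 := by
    intro K hK h0 hc hiK1
    have hev : Even #K := by rw [hc]; decide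
    have hiK : i ∉ K := fun h => by have := mem_range.1 (hK h); omega
    have hcar : #(insert i K) = 3 := by rw [card_insert_of_notMem hiK, hc]
    have hcc := card_compl (hsubi K hK)
    have h00 : 0 ∈ insert i K := mem_insert_of_mem h0
    have h5 := hS (range (i + 3) \ insert i K) 0 (compl_sub h00) (by omega)
      (fun _ => Or.inl (htop K hK))
    unfold VT at h5
    rw [if_neg (by omega), if_pos (by omega), compl_compl (hsubi K hK), hco K hK, pow_zero,
      one_mul] at h5
    have hsum : ∑ c ∈ (insert i K).filter (· + 1 < i + 3),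
        (if c + 2 = i + 3 ∧ c + 1 ∈ Ico (i + 1) (i + 3) ∪ (range i \ K) then 0 else 1)
          * ν (symmDiff (insert i K) {c + 1}) = 2 * eta i D N K := by
      rw [sum_eq_single i]
      · rw [if_neg (by omega), one_mul, ← own_5 hp5 h hS hK h0 hev]
        congr 1
        have hi1 : i + 1 ∉ insert i K := by
          rw [mem_insert]
          rintro (h | h)
          · omega
          · have := mem_range.1 (hK h); omega
        exact symmDiff_new hi1
      · intro c hc hci
        rw [mem_filter, mem_insert] at hc
        have hcK : c ∈ K := hc.1.resolve_left hci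
        have hci1 : c + 1 < i := by
          have := mem_range.1 (hK hcK)
          have : c ≠ i - 1 := fun h => hiK1 (h ▸ hcK)
          omega
        rw [symmDiff_insert_of_ne (by omega), hlam _ (symmDiff_sub hK hci1) (symmDiff_mem h0),
          mul_zero]
        rcases card_symmDiff_singleton K (c + 1) with h6 | h6
        · exact ⟨0, by omega⟩
        · exact ⟨1, by omega⟩
      · intro h6
        exact absurd (mem_filter.2 ⟨mem_insert_self _ _, by omega⟩) h6
    rw [hsum] at h5
    have h4 := four_ne_zero' h2
    have h22 := two_ne_zero' h2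
    have e2 : (1 / 4 : ZMod p) * 2 = 1 / 2 := by field_simp; norm_num
    linear_combination h5 - (eta i D N K) * e2
  refine jsys_of_tests h2 (E := Ico (i + 1) (i + 3)) (E' := {i, i + 2}) h ?_ ?_ ?_ ?_ ?_ ?_ ?_ ?_
  · intro a ha
    have := mem_Ico.1 ha
    omega
  · have := sum_Ico_pow (i := i + 1) (T := i + 3) (by omega)
    rw [hp5]
    rw [pow_add, pow_add] at this
    omega
  · intro q hq
    rw [mem_insert, mem_singleton] at hq; omega
  · rw [sum_pair (by omega), hp5, pow_add]
    ring
  · intro I l hI hw
    have hIr : I ⊆ range i := fun a ha => by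
      have := mem_Ico.1 (hI ha)
      rw [mem_range]; omega
    have hKc : #(range i \ I) + #I = i := by
      rw [card_sdiff_add_card_eq_card hIr, card_range]
    have hK0 : 0 ∈ range i \ I := by
      rw [mem_sdiff, mem_range]
      exact ⟨by omega, fun h => by have := mem_Ico.1 (hI h); omega⟩
    have h1 := hco (range i \ I) sdiff_subset
    have e3 : range i \ (range i \ I) = I := by
      rw [sdiff_sdiff_right_self, inf_eq_inter, inter_eq_right.2 hIr]
    rw [e3] at h1
    have hiK : i ∉ range i \ I := fun h => by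
      have := mem_range.1 (mem_sdiff.1 h).1
      omega
    have hcar : #(insert i (range i \ I)) = #(range i \ I) + 1 := card_insert_of_notMem hiK
    have hcc := card_compl (hsubi (range i \ I) sdiff_subset)
    have h00 : 0 ∈ insert i (range i \ I) := mem_insert_of_mem hK0
    have h5 := hS (range (i + 3) \ insert i (range i \ I)) l (compl_sub h00) (by omega)
      (fun _ => Or.inl (htop _ sdiff_subset))
    unfold VT at h5
    rw [compl_compl (hsubi _ sdiff_subset), h1] at h5
    rw [h1] at hcc
    by_cases hw3 : #I + 2 * l + 3 = i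
    · rw [if_pos (by omega), hlam _ sdiff_subset hK0 ⟨l + 1, by omega⟩, mul_zero, mul_zero,
        add_zero] at h5
      exact h5
    · rw [if_neg (by omega), if_neg (by omega), add_zero] at h5
      exact h5
  · intro _
    rw [compl_01]
    refine key {0, 1} (sub_01 (by omega)) (by decide) (by decide) ?_
    simp only [mem_insert, mem_singleton]
    omega
  · intro hi4
    rw [compl_02 (by omega)]
    refine key {0, 2} (sub_02 (by omega)) (by decide) (by decide) ?_
    simp only [mem_insert, mem_singleton]
    omega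
  · intro I l hI hw
    have hdis : Disjoint ({i, i + 2} : Finset ℕ) I := by
      rw [disjoint_left]
      intro a ha hb'
      rw [mem_insert, mem_singleton] at ha
      have := mem_Ico.1 (hI hb')
      omega
    have hcard : #({i, i + 2} ∪ I) = 2 + #I := by
      rw [card_union_of_disjoint hdis, card_pair (by omega)]
    have h3 := hS ({i, i + 2} ∪ I) l (by
      intro a ha
      rw [mem_union, mem_insert, mem_singleton] at ha
      rw [mem_Ico]
      rcases ha with ha | ha
      · omega
      · have := mem_Ico.1 (hI ha)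
        omega) (by omega) (fun _ => Or.inl (by
      rw [mem_union, mem_insert, mem_singleton]
      left; right; omega))
    unfold VT at h3
    rw [if_neg (by omega), if_neg (by omega), add_zero] at h3
    exact h3

/-! ### `J(4; α)`, `p = 5` -/

/-- expansion modulo `X ^ 6` of an even polynomial -/
def Tr (f : (ZMod 5)[X][X]) (u0 u1 u2 : (ZMod 5)[X]) : Prop :=
  ∃ r, f = C u0 + C u1 * X ^ 2 + C u2 * X ^ 4 + X ^ 6 * r

theorem Tr.mul {f g : (ZMod 5)[X][X]} {u0 u1 u2 v0 v1 v2 : (ZMod 5)[X]} (hf : Tr f u0 u1 u2)
    (hg : Tr g v0 v1 v2) : Tr (f * g) (u0 * v0) (u0 * v1 + u1 * v0) (u0 * v2 + u1 * v1 + u2 * v0) := by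
  obtain ⟨r, rfl⟩ := hf
  obtain ⟨s, rfl⟩ := hg
  refine ⟨C (u1 * v2 + u2 * v1) + C (u2 * v2) * X ^ 2 + s * (C u0 + C u1 * X ^ 2 + C u2 * X ^ 4)
    + r * (C v0 + C v1 * X ^ 2 + C v2 * X ^ 4) + X ^ 6 * r * s, ?_⟩
  simp only [C_add, C_mul]
  ring

theorem Tr.add_C {f : (ZMod 5)[X][X]} {u0 u1 u2 : (ZMod 5)[X]} (hf : Tr f u0 u1 u2)
    (w : (ZMod 5)[X]) : Tr (f + C w) (u0 + w) u1 u2 := by
  obtain ⟨r, rfl⟩ := hf
  refine ⟨r, ?_⟩
  simp only [C_add]
  ring

theorem Tr.coeff {f : (ZMod 5)[X][X]} {u0 u1 u2 : (ZMod 5)[X]} (hf : Tr f u0 u1 u2) :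
    f.coeff 4 = u2 := by
  obtain ⟨r, rfl⟩ := hf
  simp [coeff_X_pow, coeff_X_pow_mul']

theorem Tr.succ {j : ℕ} {u0 u1 u2 : (ZMod 5)[X]} (h : Tr (xi (ZMod 5) j) u0 u1 u2) :
    Tr (xi (ZMod 5) (j + 1)) (u0 ^ 2 + X) (2 * u0 * u1) (2 * u0 * u2 + u1 ^ 2) := by
  have h1 := (h.mul h).add_C X
  have h2 : xi (ZMod 5) j * xi (ZMod 5) j + C X = xi (ZMod 5) (j + 1) := by
    rw [← sq, xi_sq]; ring
  rw [h2] at h1
  convert h1 using 1 <;> ring

theorem Tr_one : Tr (xi (ZMod 5) 1) X 1 0 := by
  refine ⟨0, ?_⟩
  rw [xi_succ, xi_zero, sig_X]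
  simp
  ring

theorem mo_234_coeff : ((mo (ZMod 5) {2, 3, 4} 0).coeff 4).coeff 4 = 2 := by
  have h2 := Tr_one.succ
  have h3 := h2.succ
  have h4 := h3.succ
  have h5 := (h2.mul h3).mul h4
  have h6 : mo (ZMod 5) {2, 3, 4} 0 = xi (ZMod 5) 2 * xi (ZMod 5) 3 * xi (ZMod 5) 4 := by
    unfold mo xS
    rw [prod_insert (by decide), prod_insert (by decide), prod_singleton]
    simp
    ring
  rw [h6, h5.coeff]
  ring_nf
  simp [coeff_X_pow, coeff_mul_ofNat]
  rfl

theorem Car_234 {N : (ZMod 5)[X][X] →ₗ[ZMod 5] ZMod 5} :
    haveI : Fact (Nat.Prime 5) := ⟨by norm_num⟩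
    N (Car 5 (mo (ZMod 5) {2, 3, 4} 0)) = 2 * N (mo (ZMod 5) ∅ 0) := by
  have : Fact (Nat.Prime 5) := ⟨by norm_num⟩
  have h1 : Car 5 (mo (ZMod 5) {2, 3, 4} 0) ∈ FQ (ZMod 5) 6 := by
    have h3 : mo (ZMod 5) {2, 3, 4} 0 ∈ FQ (ZMod 5) (2 ^ 5) := by
      refine Submodule.subset_span ⟨_, 0, rfl, by decide, ?_⟩
      have := ol_of_compl (T := 5) (S := {2, 3, 4}) (U := ∅) (l := 0) (by decide) (empty_subset _)
        (by decide)
      rwa [sum_empty, sub_zero] at this
    exact FQ_mono (by norm_num) (Car_FQ (by norm_num) h3)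
  have h2 : ∃ c : ZMod 5, Car 5 (mo (ZMod 5) {2, 3, 4} 0) = c • mo (ZMod 5) ∅ 0 := by
    generalize Car 5 (mo (ZMod 5) {2, 3, 4} 0) = f at h1
    rw [FQ_eq] at h1
    refine SP.induction (Pr := fun f => ∃ c : ZMod 5, f = c • mo (ZMod 5) ∅ 0)
      ⟨0, by rw [zero_smul]⟩ ?_ ?_ ?_ h1
    · rintro f g ⟨c, rfl⟩ ⟨d, rfl⟩
      exact ⟨c + d, by rw [add_smul]⟩
    · rintro c f ⟨d, rfl⟩
      exact ⟨c * d, by rw [mul_smul]⟩
    · rintro S l ⟨h0, h⟩
      have e0 := h 0
      rw [lam_zero_eq, pow_zero, one_mul] at e0
      have e1 : nS S + 2 * l ≤ 3 := by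
        have : ((nS S + 2 * l : ℕ) : ℤ) ≤ 3 := by push_cast; linarith
        exact_mod_cast this
      have hlt : ∀ a ∈ S, a = 1 := by
        intro a ha
        have h3 : 2 ^ a ≤ nS S := single_le_sum (f := fun s => 2 ^ s) (fun _ _ => Nat.zero_le _) ha
        have h4 : a ≠ 0 := fun h => h0 (h ▸ ha)
        by_contra hcon
        have : 2 ≤ a := by omega
        have := Nat.pow_le_pow_right (show 0 < 2 by norm_num) this
        omega
      by_cases hS1 : 1 ∈ S
      · exfalso
        have hSe : S = {1} := by
          ext a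
          rw [mem_singleton]
          exact ⟨hlt a, fun h => h ▸ hS1⟩
        have e2 := h 2
        rw [hSe] at e2
        unfold lam at e2
        have h5 : ({1} : Finset ℕ).filter (· ≤ 2) = {1} := by decide
        have h6 : ({1} : Finset ℕ).filter (2 < ·) = ∅ := by decide
        rw [h5, h6, sum_empty, card_singleton] at e2
        push_cast at e2
        have : (0 : ℤ) ≤ l := by positivity
        linarith
      · have hSe : S = ∅ := by
          rw [eq_empty_iff_forall_notMem]
          intro a ha
          exact hS1 (hlt a ha ▸ ha)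
        have e2 := h 1
        rw [hSe] at e2
        unfold lam at e2
        simp only [filter_empty, card_empty, sum_empty] at e2
        push_cast at e2
        have hl : l = 0 := by
          have : (l : ℤ) ≤ 0 := by linarith
          have := (Int.natCast_nonneg l)
          omega
        exact ⟨1, by rw [hSe, hl, one_smul]⟩
  obtain ⟨c, hc⟩ := h2
  have h3 : c = 2 := by
    have h4 : ((Car 5 (mo (ZMod 5) {2, 3, 4} 0)).coeff 0).coeff 0
        = ((c • mo (ZMod 5) ∅ 0).coeff 0).coeff 0 := by rw [hc]
    rw [Car_coeff_coeff (by norm_num), mo_empty, pow_zero, map_one, coeff_smul, coeff_one_zero,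
      coeff_smul, coeff_one_zero] at h4
    have h5 := mo_234_coeff
    have e4 : 5 * (0 + 1) - 1 = 4 := by norm_num
    rw [e4, h5] at h4
    rw [h4]; simp
  rw [hc, h3, map_smul, smul_eq_mul]

end five

end Dyn59
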