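import Pool.Agent.H.MP_d59dab.IndC
import Pool.Agent.H.MP_d59dab.IndD

/-!
# MP_d59dab: the final induction, `p ≥ 5`
-/

set_option autoImplicit false

open Finset Polynomial

noncomputable section

namespace Dyn59

section num

theorem fact_5 : Fact (Nat.Prime 5) := ⟨by norm_num⟩

theorem fact_11 : Fact (Nat.Prime 11) := ⟨by norm_num⟩

attribute [local instance] fact_5 fact_11

theorem num5a : (19 : ZMod 5) / 128 ≠ 0 := div_ne_zero (by decide) (by decide)
theorem num5b : -(15 / 64 : ZMod 5) = 0 := by
  rw [show (15 : ZMod 5) = 0 by decide, zero_div, neg_zero]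
theorem num5c : ¬ (1 : ZMod 5) / 4 = 0 := div_ne_zero (by decide) (by decide)
theorem num5d : -(3 / 8 : ZMod 5) * (-2) = 2 := by
  rw [show (3 / 8 : ZMod 5) = 1 by rw [div_eq_iff (by decide)]; decide]
  decide
theorem num5e : (1 / 8 : ZMod 5) * 2 = 4 := by
  rw [show (1 / 8 : ZMod 5) = 2 by rw [div_eq_iff (by decide)]; decide]
  decide
theorem num5f : ¬ (2 : ZMod 5) = 0 := by decide
theorem num5g : (8 : ZMod 5) * (1 / 2) ≠ 3 := by
  rw [show (1 / 2 : ZMod 5) = 3 by rw [div_eq_iff (by decide)]; decide]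
  decide
theorem num5h : (1 / 2 : ZMod 5) ≠ 4 := by
  rw [show (1 / 2 : ZMod 5) = 3 by rw [div_eq_iff (by decide)]; decide]
  decide
theorem num11a : (8 : ZMod 11) * 1 ≠ 3 := by decide
theorem num11b : (64 : ZMod 11) * 1 ≠ 15 := by decide

end num

section defs

variable (p : ℕ) [hp : Fact p.Prime]

/-- `W_T`: the solutions of `G_θ(T)` vanish on the `K` which contain `T - 1` -/
def WS (T : ℕ) : Prop := ∀ (θ : ZMod p) (ν : Finset ℕ → ZMod p)
  (N : (ZMod p)[X][X] →ₗ[ZMod p] ZMod p), USys T θ False ν N →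
  ∀ K : Finset ℕ, K ⊆ range T → T - 1 ∈ K → 0 ∈ K → Even #K → ν K = 0

/-- `J_j`: `J(j; α)` has only the zero solution -/
def JS (j : ℕ) : Prop := ∀ (α : ZMod p) (ν : Finset ℕ → ZMod p)
  (N : (ZMod p)[X][X] →ₗ[ZMod p] ZMod p), 8 * α ≠ 3 → (p = 5 → j = 4 → α ≠ 4) → JSys j α ν N →
  ∀ K : Finset ℕ, K ⊆ range j → 0 ∈ K → Even #K → ν K = 0

end defs

variable {p : ℕ} [hp : Fact p.Prime]
variable {T i e j : ℕ} {D A : Finset ℕ} {θ α : ZMod p} {b : Prop} {ν : Finset ℕ → ZMod p}
  {N : (ZMod p)[X][X] →ₗ[ZMod p] ZMod p}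

theorem three_ne_zero' (hp5 : 5 ≤ p) : (3 : ZMod p) ≠ 0 := by
  have h : ((3 : ℕ) : ZMod p) ≠ 0 := by
    intro h
    rw [ZMod.natCast_eq_zero_iff] at h
    have := Nat.le_of_dvd (by norm_num) h
    omega
  exact_mod_cast h

theorem prime_not_dvd_pow (h2 : p ≠ 2) (T : ℕ) : ¬ p ∣ 2 ^ T := by
  intro h
  have := hp.out.dvd_of_dvd_pow h
  exact h2 ((Nat.prime_dvd_prime_iff_eq hp.out Nat.prime_two).1 this)

/-- level 2 -/
theorem eta_two_b (hp5 : 5 ≤ p) (h : LD p 2 e D N) (hS : USys T θ b ν N) {q : ℕ} (hq : 2 + 3 ≤ q)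
    (hqT : q < T) (hq' : q = T - 1 ∨ q = T - 2)
    (hAs : ∑ a ∈ (Ioo 2 T).erase q, 2 ^ a + 2 ^ 2 = 2 ^ 2 * (p * e)) : eta 2 D N {0, 1} = 0 := by
  have h2 : p ≠ 2 := by omega
  rcases eq_or_lt_of_le hp5 with hp5' | hp5'
  · -- `p = 5`
    have hP := pe_eq (by omega) hqT hAs
    rw [← hp5'] at hP
    have hq6 : 6 ≤ q := by
      by_contra hcon
      have hq5 : q = 5 := by omega
      subst hq5
      rcases hq' with h | h
      · have : T = 6 := by omega
        subst this
        norm_num at hP
        omega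
      · have : T = 7 := by omega
        subst this
        norm_num at hP
        omega
    have hE1 : ∑ a ∈ Ico q T, 2 ^ a + 2 ^ q = 2 ^ T := sum_Ico_pow hqT.le
    have hcard : #(insert 1 (Ico q T)) = (T - q) + 1 := by
      rw [card_insert_of_notMem (by rw [mem_Ico]; omega), Nat.card_Ico]
    have h3 := hS (insert 1 (Ico q T)) 0 (by
      intro a ha
      rw [mem_insert, mem_Ico] at ha
      rw [mem_Ico]
      omega) (by omega) (fun _ => Or.inl (by
      rw [mem_insert, mem_Ico]
      right; omega))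
    unfold VT at h3
    rw [if_neg (by omega), if_neg (by omega), add_zero, loc_1f hp5 h (fun a ha => by
      have := mem_Ico.1 ha
      omega) (by rw [mul_add, ← hp5']; omega)] at h3
    have h19 : (19 : ZMod p) / 128 ≠ 0 := by
      subst hp5'
      exact num5a
    exact (mul_eq_zero.1 h3).resolve_left h19
  · apply eta_two hp5' (α := 0) _ (jsys_2b h2 h hS (by omega) hqT hAs)
    rw [mul_zero]
    have h15 : ((15 : ℕ) : ZMod p) ≠ 0 := by
      intro h
      rw [ZMod.natCast_eq_zero_iff] at h
      have h3 : (15 : ℕ) = 3 * 5 := by norm_num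
      rw [h3] at h
      rcases (Nat.Prime.dvd_mul hp.out).1 h with h4 | h4
      · have := Nat.le_of_dvd (by norm_num) h4; omega
      · have := Nat.le_of_dvd (by norm_num) h4; omega
    exact fun h => h15 (by exact_mod_cast h.symm)

/-- the analysis of the leading exponent -/
theorem analysis (hp5 : 5 ≤ p) (hS : USys T θ b ν N) (hθ : b → θ = 0)
    (hJ : ∀ i, 3 ≤ i → i + 1 < T → JS p i) :
    Null T N ∨
    (∃ i e D, LD p i e D N ∧ 2 ≤ i ∧ i + 2 < T ∧
      ∑ a ∈ Ioo i T, 2 ^ a + 2 ^ i = 2 ^ i * (p * e) ∧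
      ∃ K ⊆ range i, 0 ∈ K ∧ Even #K ∧ eta i D N K ≠ 0) ∨
    (∃ i D, LD p i 1 D N ∧ 2 ≤ i ∧ b ∧ p = 5 ∧ T = i + 3 ∧
      ∃ K ⊆ range i, 0 ∈ K ∧ Even #K ∧ eta i D N K ≠ 0) ∨
    (∃ i D, LD p i 1 D N ∧ 2 ≤ i ∧ b ∧ p = 11 ∧ T = i + 4 ∧
      ∑ a ∈ (Ioo i (i + 4)).erase (i + 2), 2 ^ a + 2 ^ i = 2 ^ i * (p * 1) ∧
      ∃ K ⊆ range i, 0 ∈ K ∧ Even #K ∧ eta i D N K ≠ 0) := by
  have h2 : p ≠ 2 := by omega
  have hp0 : (0 : ℤ) < p := by exact_mod_cast hp.out.pos
  by_cases hN : ∀ f ∈ FQ (ZMod p) (2 ^ T / p), N f = 0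
  · exact Or.inl (null_of_zero h2 hN)
  · right
    push Not at hN
    obtain ⟨i, e, D, hLD, hle, hi2, K0, hK0, h00, hev0, heta⟩ := lead hN
    -- `P = 2^i p e < 2^T`
    have hP1 : 2 ^ i * (p * e) ≤ 2 ^ T := by
      rw [Int.le_ediv_iff_mul_le hp0] at hle
      have : ((2 ^ i * (p * e) : ℕ) : ℤ) ≤ ((2 ^ T : ℕ) : ℤ) := by
        push_cast
        linarith
      exact_mod_cast this
    have hP2 : 2 ^ i * (p * e) ≠ 2 ^ T := by
      intro h
      apply prime_not_dvd_pow h2 T
      rw [← h]
      exact ⟨2 ^ i * e, by ring⟩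
    have hP : 2 ^ i * (p * e) < 2 ^ T := lt_of_le_of_ne hP1 hP2
    have hodd : Odd (p * e) := by
      rcases hp.out.eq_two_or_odd' with h | h
      · exact absurd h h2
      · exact h.mul hLD.he
    have he1 : 1 ≤ e := hLD.he.pos
    have hpe5 : 5 ≤ p * e := le_trans hp5 (Nat.le_mul_of_pos_right p he1)
    have hiT : i < T := by
      by_contra hcon
      push Not at hcon
      have h3 := Nat.pow_le_pow_right (show 0 < 2 by norm_num) hcon
      have h4 : 2 ^ i * 1 ≤ 2 ^ i * (p * e) := Nat.mul_le_mul_left _ (by omega)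
      omega
    obtain ⟨A, hA, hAs⟩ := exists_digits i hodd
    have hposi : 1 ≤ 2 ^ i := Nat.one_le_two_pow
    have hAT : ∀ a ∈ A, a < T := lt_of_sum_lt (by omega)
    rcases digits_cases hA hAT hiT with h3 | h3 | ⟨q, hq, hqT, h3⟩
    · exact absurd (eta_zero_of_small h2 hLD hS hA hAT hAs h3 hK0 h00 hev0) heta
    · left
      rw [h3] at hAs
      have hP' := pe_eq' hiT hAs
      refine ⟨i, e, D, hLD, hi2, ?_, hAs, K0, hK0, h00, hev0, heta⟩
      by_contra hcon
      have h4 : 2 ^ T ≤ 2 ^ (i + 2) := Nat.pow_le_pow_right (by norm_num) (by omega)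
      have h5 : 2 ^ i * 5 ≤ 2 ^ i * (p * e) := Nat.mul_le_mul_left _ hpe5
      rw [pow_add] at h4
      omega
    · rw [h3] at hAs
      have hPe := pe_eq hq hqT hAs
      by_cases h4 : q + 1 < T ∧ (b → q + 2 < T)
      · exact absurd (eta_zero_2a h2 hLD hS hθ hq h4.1 h4.2 hAs hK0 h00 hev0) heta
      · have hq' : q = T - 1 ∨ (b ∧ q = T - 2) := by
          by_cases h5 : q + 1 < T
          · right
            have h6 : ¬ (b → q + 2 < T) := fun h => h4 ⟨h5, h⟩
            push Not at h6
            exact ⟨h6.1, by omega⟩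
          · left; omega
        have h5 : 2 ^ i * 5 ≤ 2 ^ i * (p * e) := Nat.mul_le_mul_left _ hpe5
        by_cases hq3 : i + 3 ≤ q
        · exfalso
          apply heta
          by_cases hi3 : 3 ≤ i
          · refine hJ i hi3 (by omega) 0 _ _ ?_ ?_ (jsys_2b h2 hLD hS hq3 hqT hAs) K0 hK0 h00 hev0
            · rw [mul_zero]
              exact (three_ne_zero' hp5).symm
            · intro _ _
              exact (four_ne_zero' h2).symm
          · have hi : i = 2 := by omega
            subst hi
            rw [pair_of_range_two hK0 h00 hev0]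
            exact eta_two_b hp5 hLD hS hq3 hqT (hq'.imp_right And.right) hAs
        · -- small exponents
          right
          rcases hq' with hq1 | ⟨hb, hq1⟩
          · exfalso
            have h6 : 2 ^ T = 2 ^ q * 2 := by
              rw [← pow_succ]
              congr 1
              omega
            have h7 : 2 ^ q ≤ 2 ^ (i + 2) := Nat.pow_le_pow_right (by norm_num) (by omega)
            rw [pow_add] at h7
            omega
          · have h6 : 2 ^ T = 2 ^ q * 4 := by
              have : (4 : ℕ) = 2 ^ 2 := by norm_num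
              rw [this, ← pow_add]
              congr 1
              omega
            have h7 : q = i + 1 ∨ q = i + 2 := by omega
            rcases h7 with h7 | h7
            · left
              have hpe : p * e = 5 := by
                rw [h7, pow_add] at hPe h6
                have : 2 ^ i * (p * e) = 2 ^ i * 5 := by omega
                exact Nat.eq_of_mul_eq_mul_left (by positivity) this
              have hp5' : p = 5 := by
                have h8 : p ∣ 5 := ⟨e, hpe.symm⟩
                exact (Nat.prime_dvd_prime_iff_eq hp.out (by norm_num)).1 h8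
              have he : e = 1 := by
                rw [hp5'] at hpe
                omega
              rw [he] at hLD
              exact ⟨i, D, hLD, hi2, hb, hp5', by omega, K0, hK0, h00, hev0, heta⟩
            · right
              have hpe : p * e = 11 := by
                rw [h7, pow_add] at hPe h6
                have : 2 ^ i * (p * e) = 2 ^ i * 11 := by omega
                exact Nat.eq_of_mul_eq_mul_left (by positivity) this
              have hp11 : p = 11 := by
                have h8 : p ∣ 11 := ⟨e, hpe.symm⟩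
                exact (Nat.prime_dvd_prime_iff_eq hp.out (by norm_num)).1 h8
              have he : e = 1 := by
                rw [hp11] at hpe
                omega
              have hT : T = i + 4 := by omega
              rw [he] at hLD hAs
              rw [hT, h7] at hAs
              exact ⟨i, D, hLD, hi2, hb, hp11, hT, hAs, K0, hK0, h00, hev0, heta⟩

/-- `J(4; α)`, `p = 5` -/
theorem eta_zero_4 (hp5 : p = 5) (hα : α ≠ 4) (h : LD p 2 1 D N) (hJ : JSys 4 α ν N) :
    eta 2 D N {0, 1} = 0 := by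
  subst hp5
  have hS := hJ.u
  have hD : D = ∅ := by
    rw [eq_empty_iff_forall_notMem]
    intro d hd
    have h1 := h.hDs
    have h3 : 2 ^ d ≤ ∑ d ∈ D, 2 ^ d := single_le_sum (fun _ _ => Nat.zero_le _) hd
    have : 1 ≤ 2 ^ d := Nat.one_le_two_pow
    omega
  have hη : eta 2 D N {0, 1} = N (mo (ZMod 5) ∅ 0) := by
    unfold eta
    rw [hD]
    have h1 : (∅ ∪ range 2 \ {0, 1} : Finset ℕ) = ∅ := by decide
    have h3 : #({0, 1} : Finset ℕ) / 2 - 1 = 0 := by decide
    rw [h1, h3, pow_zero, one_mul]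
  -- the own relation
  have h1 := own_5 rfl h hS (K := {0, 1}) (by decide) (by decide) (by decide)
  have e1 : insert (2 + 1) (insert 2 ({0, 1} : Finset ℕ)) = {0, 1, 2, 3} := by decide
  rw [e1] at h1
  -- `ν_02 = 0`
  have h3 := rel_5 rfl h hS (K := {0}) (by decide) (by decide) (l := 0) (by decide)
  have e2 : insert 2 ({0} : Finset ℕ) = {0, 2} := by decide
  rw [e2, if_neg (by decide), neg_zero] at h3
  -- `x_3 x_4`
  have h4 := hS {3, 4} 0 (by decide) (by decide) (fun _ => by decide)
  have e3 : ({3, 4} : Finset ℕ) = {3, 4} ∪ Ico 2 2 := by decide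
  have h5 := loc_1d (by norm_num) h le_rfl (E := {3, 4}) (by decide) (by decide)
  rw [← e3] at h5
  have e4 : insert 2 (Ico 2 2) = {2} := by decide
  rw [e4, Car_two (by norm_num), map_zero, zero_add, v01, if_pos rfl] at h5
  have e5 : -(15 / 64 : ZMod 5) = 0 := num5b
  rw [e5, zero_mul] at h5
  unfold VT at h4
  rw [h5, if_neg (by decide), if_pos (by decide), pow_zero, one_mul, zero_add] at h4
  have e6 : (range (4 + 1) \ {3, 4}).filter (· + 1 < 4 + 1) = {0, 1, 2} := by decide
  have e7 : range (4 + 1) \ {3, 4} = {0, 1, 2} := by decide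
  rw [e6, e7, sum_insert (by decide), sum_insert (by decide), sum_singleton, if_neg (by decide),
    if_neg (by decide), if_neg (by decide)] at h4
  have e8 : symmDiff ({0, 1, 2} : Finset ℕ) {0 + 1} = {0, 2} := by decide
  have e9 : symmDiff ({0, 1, 2} : Finset ℕ) {1 + 1} = {0, 1} := by decide
  have e10 : symmDiff ({0, 1, 2} : Finset ℕ) {2 + 1} = {0, 1, 2, 3} := by decide
  rw [e8, e9, e10, h3, h1] at h4
  -- field a
  have h6 := hJ.a (by norm_num)
  have e11 : Ico 2 (4 + 1) = {2, 3, 4} := by decide
  rw [e11, Car_234, ← hη, v01, if_neg (by decide), if_pos (by decide), h1] at h6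
  have h7 : ν {0, 1} = -2 * eta 2 D N {0, 1} := by
    have h8 := (mul_eq_zero.1 h4).resolve_left num5c
    linear_combination h8
  rw [h7] at h6
  have e12 : -(3 / 8 : ZMod 5) * (-2) = 2 := num5d
  have e13 : (1 / 8 : ZMod 5) * 2 = 4 := num5e
  have h8 : (4 - α) * (2 * eta 2 D N {0, 1}) = 0 := by
    linear_combination h6 - (eta 2 D N {0, 1}) * e12 - (eta 2 D N {0, 1}) * e13
  have h9 := (mul_eq_zero.1 h8).resolve_left (sub_ne_zero.2 hα.symm)
  exact (mul_eq_zero.1 h9).resolve_left num5f

/-- MAIN INDUCTION -/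
theorem main_ind (hp5 : 5 ≤ p) (T : ℕ) :
    (4 ≤ T → WS p T) ∧ (∀ j, j + 1 = T → 3 ≤ j → JS p j) := by
  have h2 : p ≠ 2 := by omega
  induction T using Nat.strong_induction_on with
  | _ T ih =>
    have hJ : ∀ i, 3 ≤ i → i + 1 < T → JS p i := fun i hi hiT => (ih (i + 1) hiT).2 i rfl hi
    refine ⟨?_, ?_⟩
    · intro hT θ ν N hS K hK hKT h0 hev
      rcases analysis hp5 hS (fun h => h.elim) hJ with hZ | ⟨i, e, D, hLD, hi2, hiT, hAs, _⟩ |
        ⟨i, D, _, _, hb, _⟩ | ⟨i, D, _, _, hb, _⟩
      · exact case0_W h2 hZ hS (fun h => h) hT hK h0 hev hKT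
      · exact nu_zero_full h2 hLD hS (fun h => h.elim) hi2 (by omega) (fun h => h.elim) hAs hK h0 hev
          (fun h => h.elim) ⟨T - 1, hKT, by omega⟩
      · exact hb.elim
      · exact hb.elim
    · intro j hjT hj α ν N hα hα4 hJS K hK h0 hev
      subst hjT
      rcases analysis hp5 hJS.u (fun _ => rfl) hJ with hZ | ⟨i, e, D, hLD, hi2, hiT, hAs, h3⟩ |
        ⟨i, D, hLD, hi2, _, hp5', hT, K0, hK0, h00, hev0, heta⟩ |
        ⟨i, D, hLD, hi2, _, hp11, hT, hAs, K0, hK0, h00, hev0, heta⟩
      · rcases eq_or_lt_of_le hj with hj3 | hj3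
        · subst hj3
          exact case0_J3 h2 hα hZ hJS hK h0 hev
        · exact case0_J h2 hj3 hZ hJS.u hK h0 hev
      · rcases Nat.lt_or_ge i 4 with hi4 | hi4
        · have : i = 2 ∨ i = 3 := by omega
          rcases this with rfl | rfl
          · exact nu_zero_3_two (by omega) hLD hJS (by omega) hAs hK h0 hev
          · exact nu_zero_3_three (by omega) hα hLD hJS (by omega) hAs hK h0 hev
        · exfalso
          obtain ⟨K0, hK0, h00, hev0, heta⟩ := h3
          apply heta
          rw [eta_rel3 h2 hLD hJS.u (fun _ => rfl) hi2 (by omega) (fun _ => hiT) hAs hK0 h00 hev0]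
          split_ifs with h4
          · have h5 := usys3 h2 hLD hJS.u (fun _ => rfl) hi2 (by omega) (fun _ => hiT) hAs
            rw [(ih i (by omega)).1 hi4 _ _ _ h5 K0 hK0 h4 h00 hev0, mul_zero]
          · rw [mul_zero]
      · -- `p = 5`
        exfalso
        apply heta
        have hji : j = i + 2 := by omega
        subst hji
        by_cases hi3 : 3 ≤ i
        · have hW : ∀ K : Finset ℕ, K ⊆ range i → 0 ∈ K → Odd #K → ν (insert (i + 1) K) = 0 := by
            intro K hK h0 hodd
            have h5 := usys_5 hp5' hLD hJS.u hi2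
            have hiK : i ∉ K := fun h => by have := mem_range.1 (hK h); omega
            have h6 := (ih (i + 1) (by omega)).1 (by omega) _ _ _ h5 (insert i K) (by
              intro a ha
              rw [mem_insert] at ha
              rw [mem_range]
              rcases ha with ha | ha
              · omega
              · have := mem_range.1 (hK ha)
                omega) (by simp) (mem_insert_of_mem h0) (by
              rw [card_insert_of_notMem hiK]
              exact hodd.add_one)
            rw [nut, if_pos (mem_insert_self _ _), erase_insert hiK] at h6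
            exact h6
          have hlam : ∀ K : Finset ℕ, K ⊆ range i → 0 ∈ K → Odd #K → ν (insert i K) = 0 := by
            intro K hK h0 hodd
            obtain ⟨l, hl⟩ := hodd
            rw [rel_5 hp5' hLD hJS.u hK h0 hl]
            split_ifs with h7
            · rw [hW K hK h0 ⟨l, hl⟩, neg_zero]
            · rw [neg_zero]
          have h5 := jsys_5 hp5' hLD hJS.u hi3 hlam
          refine hJ i hi3 (by omega) _ _ _ ?_ ?_ h5 K0 hK0 h00 hev0
          · subst hp5'
            exact num5g
          · intro _ _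
            subst hp5'
            exact num5h
        · have hi : i = 2 := by omega
          subst hi
          rw [pair_of_range_two hK0 h00 hev0]
          exact eta_zero_4 hp5' (hα4 hp5' rfl) hLD hJS
      · -- `p = 11`
        exfalso
        apply heta
        have hji : j = i + 3 := by omega
        subst hji
        have h5 := jsys_11 hp11 hLD hJS.u hAs
        by_cases hi3 : 3 ≤ i
        · refine hJ i hi3 (by omega) _ _ _ ?_ ?_ h5 K0 hK0 h00 hev0
          · subst hp11
            exact num11a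
          · intro h _
            omega
        · have hi : i = 2 := by omega
          subst hi
          rw [pair_of_range_two hK0 h00 hev0]
          refine eta_two (by omega) ?_ h5
          subst hp11
          exact num11b

/-- `J(j; α)` has only the zero solution, `p ≥ 5` -/
theorem JS_main (hp5 : 5 ≤ p) (hj : 3 ≤ j) (hα : 8 * α ≠ 3) (hα4 : p = 5 → j = 4 → α ≠ 4)
    (h : JSys j α ν N) {K : Finset ℕ} (hK : K ⊆ range j) (h0 : 0 ∈ K) (hev : Even #K) : ν K = 0 :=
  (main_ind hp5 (j + 1)).2 j rfl hj α ν N hα hα4 h K hK h0 hev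

end Dyn59
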