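import Pool.Agent.H.MP_d59dab.Defs

/-!
# MP_d59dab: data of the local formula

`LD i e D N`: `e` odd, `D ⊂ (i, ∞)` = binary digits of `2^i (e - 1)`, `N` a functional which vanishes
on `F_(2^i e - 1)`.  `eta`: values of `N` on the own elements `x_D Z_K` of `gr_(2^i e)`.
`Nn f = N (x_D x_i f)`.
-/

set_option autoImplicit false

open Finset Polynomial

noncomputable section

namespace Dyn59

/-- data at a level -/
structure LD (p : ℕ) [Fact p.Prime] (i e : ℕ) (D : Finset ℕ)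
    (N : (ZMod p)[X][X] →ₗ[ZMod p] ZMod p) : Prop where
  hi : 1 ≤ i
  he : Odd e
  hD : ∀ d ∈ D, i < d
  hDs : ∑ d ∈ D, 2 ^ d + 2 ^ i = 2 ^ i * e
  hN : ∀ f ∈ FQ (ZMod p) (2 ^ i * e - 1), N f = 0

variable {p : ℕ} [hp : Fact p.Prime]

/-- value on the own elements -/
def eta (i : ℕ) (D : Finset ℕ) (N : (ZMod p)[X][X] →ₗ[ZMod p] ZMod p) (K : Finset ℕ) : ZMod p :=
  (-1) ^ (#K / 2 - 1) * N (mo (ZMod p) (D ∪ (range i \ K)) (#K / 2 - 1))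

/-- `f ↦ N (x_D x_i f)` -/
def Nn (i : ℕ) (D : Finset ℕ) (N : (ZMod p)[X][X] →ₗ[ZMod p] ZMod p) :
    (ZMod p)[X][X] →ₗ[ZMod p] ZMod p :=
  N.comp (LinearMap.mulLeft (ZMod p) (xS (ZMod p) D * xi (ZMod p) i))

/-- `∑_(b ∈ K, b + 1 < i) η (K △ {b+1})` -/
def sh1 (i : ℕ) (η : Finset ℕ → ZMod p) (K : Finset ℕ) : ZMod p :=
  ∑ b ∈ K.filter (· + 1 < i), η (symmDiff K {b + 1})

/-- the value `V_2` at `K' = {0,1}`, level `i ≥ 2` -/
def v01 (i : ℕ) (η : Finset ℕ → ZMod p) : ZMod p :=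
  if i = 2 then -(15 / 64) * η {0, 1} else -(3 / 8) * η {0, 1} +
    (if 4 ≤ i then 1 / 8 * η {0, 1, 2, 3} else 0)

/-- the value `V_2` at `K' = {0,2}`, level `i ≥ 4` -/
def v02 (i : ℕ) (η : Finset ℕ → ZMod p) : ZMod p :=
  -(3 / 8) * η {0, 2} + 1 / 8 * η {0, 1} - 1 / 8 * η {0, 1, 2, 3} +
    (if 5 ≤ i then 1 / 8 * η {0, 2, 3, 4} else 0)

end Dyn59
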