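import Pool.Agent.H.MP_d59dab.LDef

/-!
# MP_d59dab: the linear systems, leading exponents
-/

set_option autoImplicit false

open Finset Polynomial

noncomputable section

namespace Dyn59

variable {p : ℕ} [hp : Fact p.Prime]

/-- the values `V_4`, `V_3` at the top level `T`, crossing coefficient `θ` -/
def VT (T : ℕ) (θ : ZMod p) (ν : Finset ℕ → ZMod p) (S : Finset ℕ) (l : ℕ) : ZMod p :=
  if #S + 2 * l + 4 = T then (-1) ^ l * (-(1 / 2) * ν (range T \ S))
  else if #S + 2 * l + 3 = T then (-1) ^ l * (1 / 4 * ∑ b ∈ (range T \ S).filter (· + 1 < T),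
    (if b + 2 = T ∧ b + 1 ∈ S then θ else 1) * ν (symmDiff (range T \ S) {b + 1}))
  else 0

/-- the linear system at the top level `T`; if `b` holds only the tests which contain `x_(T-1)` or
have weight at most `T - 5` are available -/
def USys (T : ℕ) (θ : ZMod p) (b : Prop) (ν : Finset ℕ → ZMod p)
    (N : (ZMod p)[X][X] →ₗ[ZMod p] ZMod p) : Prop :=
  ∀ S l, S ⊆ Ico 1 T → #S + 2 * l + 3 ≤ T → (b → T - 1 ∈ S ∨ #S + 2 * l + 5 ≤ T) →
    N (Car p (mo (ZMod p) S l)) + VT T θ ν S l = 0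

/-- the system `J(j; α)` -/
structure JSys (j : ℕ) (α : ZMod p) (ν : Finset ℕ → ZMod p)
    (N : (ZMod p)[X][X] →ₗ[ZMod p] ZMod p) : Prop where
  u : USys (j + 1) 0 True ν N
  a : 2 ≤ j → N (Car p (mo (ZMod p) (Ico 2 (j + 1)) 0)) + v01 j ν + α * ν {0, 1} = 0
  b : 4 ≤ j → N (Car p (mo (ZMod p) (insert 1 (Ico 3 (j + 1))) 0)) + v02 j ν + α * ν {0, 2} = 0

end Dyn59
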