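import Pool.Agent.H.MP_d59dab.LocG
import Pool.Agent.H.MP_d59dab.Sys

/-!
# MP_d59dab: leading exponents, digits, first consequences of the systems
-/

set_option autoImplicit false

open Finset Polynomial

noncomputable section

namespace Dyn59

/-! ### binary digits -/

theorem le_of_dvd_sum {A : Finset ℕ} {k : ℕ} (h : 2 ^ k ∣ ∑ s ∈ A, 2 ^ s) : ∀ s ∈ A, k ≤ s := by
  obtain ⟨c, hc⟩ := h
  intro s hs
  rw [← Finset.toFinset_bitIndices_sum_two_pow A, hc, Nat.bitIndices_two_pow_mul] at hs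
  simp only [List.mem_toFinset, List.mem_map] at hs
  obtain ⟨a, -, rfl⟩ := hs
  omega

theorem lt_of_sum_lt {A : Finset ℕ} {T : ℕ} (h : ∑ s ∈ A, 2 ^ s < 2 ^ T) : ∀ s ∈ A, s < T := by
  intro s hs
  have h1 : 2 ^ s ≤ ∑ s ∈ A, 2 ^ s := single_le_sum (fun _ _ => Nat.zero_le _) hs
  exact (Nat.pow_lt_pow_iff_right (by norm_num)).1 (lt_of_le_of_lt h1 h)

theorem exists_digits (i : ℕ) {m : ℕ} (hm : Odd m) :
    ∃ A : Finset ℕ, (∀ q ∈ A, i < q) ∧ ∑ q ∈ A, 2 ^ q + 2 ^ i = 2 ^ i * m := by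
  obtain ⟨c, rfl⟩ := hm
  refine ⟨(2 ^ (i + 1) * c).bitIndices.toFinset, ?_, ?_⟩
  · apply le_of_dvd_sum
    rw [Finset.sum_toFinset_bitIndices_two_pow]
    exact dvd_mul_right _ _
  · rw [Finset.sum_toFinset_bitIndices_two_pow]
    ring

theorem finset_eq_of_sum_nat {A B : Finset ℕ} (h : ∑ s ∈ A, 2 ^ s = ∑ s ∈ B, 2 ^ s) : A = B :=
  Finset.geomSum_injective le_rfl h

theorem sum_Ico_pow {i T : ℕ} (h : i ≤ T) : ∑ s ∈ Ico i T, 2 ^ s + 2 ^ i = 2 ^ T := by
  induction T, h using Nat.le_induction with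
  | base => simp
  | succ T hT ih =>
    rw [sum_Ico_succ_top hT, pow_succ]
    omega

section

variable {p : ℕ} [hp : Fact p.Prime]

theorem FQ_eq_zero {Q : ℤ} (hQ : Q < 3) {f : (ZMod p)[X][X]} (hf : f ∈ FQ (ZMod p) Q) : f = 0 := by
  rw [FQ_eq] at hf
  refine SP.induction (Pr := fun f => f = 0) rfl ?_ ?_ ?_ hf
  · rintro f g rfl rfl; rw [add_zero]
  · rintro c f rfl; rw [smul_zero]
  · rintro S l ⟨-, h⟩
    have h1 := h 0
    rw [lam_zero_eq, pow_zero, one_mul] at h1
    have : (0 : ℤ) ≤ nS S + 2 * l := by positivity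
    linarith

theorem exists_mo_of_ne {N : (ZMod p)[X][X] →ₗ[ZMod p] ZMod p} {Q : ℤ}
    (h : ∃ f ∈ FQ (ZMod p) Q, N f ≠ 0) : ∃ S l, 0 ∉ S ∧ OL S l Q ∧ N (mo (ZMod p) S l) ≠ 0 := by
  by_contra hcon
  push Not at hcon
  obtain ⟨f, hf, hN⟩ := h
  apply hN
  rw [FQ_eq] at hf
  refine SP.induction (Pr := fun f => N f = 0) (map_zero _) ?_ ?_ ?_ hf
  · intro f g hf hg; rw [map_add, hf, hg, add_zero]
  · intro c f hf; rw [map_smul, hf, smul_zero]
  · rintro S l ⟨h0, h⟩
    exact hcon S l h0 h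

/-- the leading exponent of a functional -/
theorem lead {N : (ZMod p)[X][X] →ₗ[ZMod p] ZMod p} {M : ℤ}
    (h : ∃ f ∈ FQ (ZMod p) M, N f ≠ 0) : ∃ i e D, LD p i e D N ∧ (2 : ℤ) ^ i * e ≤ M ∧ 2 ≤ i ∧
      ∃ K ⊆ range i, 0 ∈ K ∧ Even #K ∧ eta i D N K ≠ 0 := by
  have hM : 0 ≤ M := by
    by_contra hcon
    obtain ⟨f, hf, hN⟩ := h
    rw [FQ_eq_zero (by linarith) hf, map_zero] at hN
    exact hN rfl
  have hex : ∃ n : ℕ, ∃ f ∈ FQ (ZMod p) (n : ℤ), N f ≠ 0 := ⟨M.toNat, by rwa [Int.toNat_of_nonneg hM]⟩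
  classical
  set n := Nat.find hex with hn
  have hn1 : ∃ f ∈ FQ (ZMod p) (n : ℤ), N f ≠ 0 := Nat.find_spec hex
  have hn2 : (n : ℤ) ≤ M := by
    have h1 : n ≤ M.toNat := Nat.find_min' hex (by rwa [Int.toNat_of_nonneg hM])
    have h2 : ((M.toNat : ℕ) : ℤ) = M := Int.toNat_of_nonneg hM
    have h3 : (n : ℤ) ≤ (M.toNat : ℤ) := by exact_mod_cast h1
    linarith
  have hn0 : 0 < n := by
    rcases Nat.eq_zero_or_pos n with h0 | h0
    · exfalso
      obtain ⟨f, hf, hN⟩ := hn1
      rw [h0] at hf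
      rw [FQ_eq_zero (by norm_num) hf, map_zero] at hN
      exact hN rfl
    · exact h0
  have hn3 : ∀ f ∈ FQ (ZMod p) ((n : ℤ) - 1), N f = 0 := by
    intro f hf
    by_contra hcon
    have h1 := Nat.find_min hex (m := n - 1) (by omega)
    apply h1
    have h2 : ((n - 1 : ℕ) : ℤ) = (n : ℤ) - 1 := by
      rw [Nat.cast_sub hn0, Nat.cast_one]
    exact ⟨f, by rwa [h2], hcon⟩
  obtain ⟨i, e, he, hie⟩ := Nat.exists_eq_two_pow_mul_odd hn0.ne'
  obtain ⟨S, l, h0, hO, hN⟩ := exists_mo_of_ne hn1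
  have hO1 : ¬ OL S l ((n : ℤ) - 1) := fun h => hN (hn3 _ (Submodule.subset_span ⟨S, l, rfl, h0, h⟩))
  have hnZ : (n : ℤ) = 2 ^ i * (e : ℤ) := by rw [hie]; push_cast; ring
  have hpos : (1 : ℤ) ≤ 2 ^ i := one_le_pow₀ (by norm_num)
  -- the upper part of `S`
  have hdvd : (2 : ℕ) ^ i ∣ ∑ s ∈ S.filter (i ≤ ·), 2 ^ s := by
    apply dvd_sum
    intro s hs
    exact pow_dvd_pow 2 (mem_filter.1 hs).2
  obtain ⟨R, hR⟩ := hdvd
  have hRZ : ∑ s ∈ S.filter (i ≤ ·), (2 : ℤ) ^ s = 2 ^ i * (R : ℤ) := by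
    have := congrArg (Nat.cast : ℕ → ℤ) hR
    push_cast at this
    exact this
  have heZ : Odd (e : ℤ) := by exact_mod_cast he
  rcases classify (l := l) heZ hRZ (hO.mono (by rw [hnZ]; linarith)) with h1 | ⟨h1, h2⟩ | ⟨h1, h2⟩
  · exact absurd (by rw [hnZ]; exact h1) hO1
  · exfalso
    obtain ⟨v, hv⟩ := lt_order (l := l) hRZ h2
    have := hO v
    rw [hnZ] at this
    rw [h1] at hv
    linarith
  · have hiS : i ∉ S := by
      intro hi
      have e1 : S.filter (i ≤ ·) = insert i (S.filter (i < ·)) := by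
        ext a; simp only [mem_filter, mem_insert]
        constructor
        · rintro ⟨h, h'⟩
          rcases eq_or_lt_of_le h' with h2 | h2
          · left; exact h2.symm
          · right; exact ⟨h, h2⟩
        · rintro (rfl | ⟨h, h'⟩)
          · exact ⟨hi, le_rfl⟩
          · exact ⟨h, by omega⟩
      rw [e1, sum_insert (by simp)] at hR
      have h3 : (2 : ℕ) ^ (i + 1) ∣ ∑ s ∈ S.filter (i < ·), 2 ^ s := by
        apply dvd_sum
        intro s hs
        exact pow_dvd_pow 2 (mem_filter.1 hs).2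
      obtain ⟨c, hc⟩ := h3
      rw [hc] at hR
      have h4 : R = 2 * c + 1 := by
        have h5 : (2 : ℕ) ^ i * R = 2 ^ i * (2 * c + 1) := by rw [← hR, pow_succ]; ring
        exact Nat.eq_of_mul_eq_mul_left (by positivity) h5
      obtain ⟨m, hm⟩ := he
      omega
    have e2 : S.filter (i ≤ ·) = S.filter (i < ·) := by
      apply filter_congr
      intro a ha
      have : a ≠ i := fun h => hiS (h ▸ ha)
      omega
    have hR' : ∑ s ∈ S.filter (i < ·), 2 ^ s + 2 ^ i = 2 ^ i * e := by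
      rw [← e2, hR]
      have : e = R + 1 := by
        have h3 : (R : ℤ) + 1 = e := by linarith
        exact_mod_cast h3.symm
      rw [this]
      ring
    have hi2 : 2 ≤ i := by omega
    refine ⟨i, e, S.filter (i < ·), ⟨by omega, he, fun d hd => (mem_filter.1 hd).2, hR', ?_⟩,
      by rw [← hnZ]; exact hn2, hi2, range i \ S, sdiff_subset, ?_, ?_, ?_⟩
    · rw [← hnZ]
      exact hn3
    · rw [mem_sdiff, mem_range]
      exact ⟨by omega, h0⟩
    · have h3 : #(range i \ S) + #(S.filter (· < i)) = i := by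
        have h4 : S.filter (· < i) = range i ∩ S := by
          ext a; simp only [mem_filter, mem_inter, mem_range]; exact and_comm
        rw [h4, add_comm, card_inter_add_card_sdiff, card_range]
      exact ⟨l + 1, by omega⟩
    · have h3 : #(range i \ S) + #(S.filter (· < i)) = i := by
        have h4 : S.filter (· < i) = range i ∩ S := by
          ext a; simp only [mem_filter, mem_inter, mem_range]; exact and_comm
        rw [h4, add_comm, card_inter_add_card_sdiff, card_range]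
      have h4 : #(range i \ S) / 2 - 1 = l := by omega
      unfold eta
      rw [h4]
      have h5 : S.filter (i < ·) ∪ (range i \ (range i \ S)) = S := by
        ext a
        simp only [mem_union, mem_filter, mem_sdiff, mem_range, not_and, not_not]
        constructor
        · rintro (h | h)
          · exact h.1
          · exact h.2 h.1
        · intro h
          rcases Nat.lt_trichotomy a i with h6 | h6 | h6
          · exact Or.inr ⟨h6, fun _ => h⟩
          · exact absurd (h6 ▸ h) hiS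
          · exact Or.inl ⟨h, h6⟩
      rw [h5]
      exact mul_ne_zero (pow_ne_zero _ (neg_ne_zero.2 one_ne_zero)) hN

/-! ### consequences of the systems -/

theorem two_ne_zero' (h2 : p ≠ 2) : (2 : ZMod p) ≠ 0 := by
  intro h0
  have h1 : ((2 : ℕ) : ZMod p) = 0 := by exact_mod_cast h0
  rw [ZMod.natCast_eq_zero_iff] at h1
  exact h2 ((Nat.prime_dvd_prime_iff_eq hp.out Nat.prime_two).1 h1)

variable {T : ℕ} {θ : ZMod p} {b : Prop} {ν : Finset ℕ → ZMod p}
  {N : (ZMod p)[X][X] →ₗ[ZMod p] ZMod p}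

theorem compl_compl {T : ℕ} {K : Finset ℕ} (hK : K ⊆ range T) : range T \ (range T \ K) = K := by
  rw [sdiff_sdiff_right_self, inf_eq_inter, inter_eq_right.2 hK]

theorem compl_sub {T : ℕ} {K : Finset ℕ} (h0 : 0 ∈ K) : range T \ K ⊆ Ico 1 T := by
  intro a ha
  rw [mem_sdiff, mem_range] at ha
  rw [mem_Ico]
  have : a ≠ 0 := fun h => ha.2 (h ▸ h0)
  omega

theorem card_compl {T : ℕ} {K : Finset ℕ} (hK : K ⊆ range T) : #(range T \ K) + #K = T := by
  rw [card_sdiff_add_card_eq_card hK, card_range]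

theorem USys.v4 (h2 : p ≠ 2) (h : USys T θ b ν N) {K : Finset ℕ} (hK : K ⊆ range T) (h0 : 0 ∈ K)
    {l : ℕ} (hl : #K = 2 * l + 4) (hb : b → T - 1 ∉ K)
    (hN : N (Car p (mo (ZMod p) (range T \ K) l)) = 0) : ν K = 0 := by
  have hT : 0 < T := by
    have := mem_range.1 (hK h0)
    omega
  have hc := card_compl hK
  have h1 := h (range T \ K) l (compl_sub h0) (by omega) (fun hb' => Or.inl (by
    rw [mem_sdiff, mem_range]; exact ⟨by omega, hb hb'⟩))
  rw [hN, zero_add] at h1
  unfold VT at h1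
  rw [if_pos (by omega), compl_compl hK] at h1
  rcases mul_eq_zero.1 h1 with h3 | h3
  · exact absurd h3 (pow_ne_zero _ (neg_ne_zero.2 one_ne_zero))
  · rcases mul_eq_zero.1 h3 with h4 | h4
    · exfalso
      rw [neg_eq_zero] at h4
      exact one_div_ne_zero (two_ne_zero' h2) h4
    · exact h4

theorem four_ne_zero' (h2 : p ≠ 2) : (4 : ZMod p) ≠ 0 := by
  have h : (4 : ZMod p) = 2 * 2 := by norm_num
  rw [h]
  exact mul_ne_zero (two_ne_zero' h2) (two_ne_zero' h2)

theorem USys.v3 (h2 : p ≠ 2) (h : USys T θ b ν N) {K : Finset ℕ} (hK : K ⊆ range T) (h0 : 0 ∈ K)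
    {l : ℕ} (hl : #K = 2 * l + 3) (hb : b → T - 1 ∉ K)
    (hN : N (Car p (mo (ZMod p) (range T \ K) l)) = 0) :
    ∑ c ∈ K.filter (· + 1 < T), (if c + 2 = T ∧ c + 1 ∉ K then θ else 1) * ν (symmDiff K {c + 1})
      = 0 := by
  have hT : 0 < T := by
    have := mem_range.1 (hK h0)
    omega
  have hc := card_compl hK
  have h1 := h (range T \ K) l (compl_sub h0) (by omega) (fun hb' => Or.inl (by
    rw [mem_sdiff, mem_range]; exact ⟨by omega, hb hb'⟩))
  rw [hN, zero_add] at h1
  unfold VT at h1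
  rw [if_neg (by omega), if_pos (by omega), compl_compl hK] at h1
  rcases mul_eq_zero.1 h1 with h3 | h3
  · exact absurd h3 (pow_ne_zero _ (neg_ne_zero.2 one_ne_zero))
  · rcases mul_eq_zero.1 h3 with h4 | h4
    · exact absurd h4 (one_div_ne_zero (four_ne_zero' h2))
    · rw [← h4]
      apply sum_congr rfl
      intro c hc
      rw [mem_filter] at hc
      congr 2
      rw [mem_sdiff, mem_range, eq_iff_iff]
      constructor
      · rintro ⟨h5, h6⟩
        exact ⟨h5, hc.2, h6⟩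
      · rintro ⟨h5, -, h6⟩
        exact ⟨h5, h6⟩

/-- in a `V_3` relation only one term survives -/
theorem USys.v3_single (h2 : p ≠ 2) (h : USys T θ b ν N) {K : Finset ℕ} (hK : K ⊆ range T)
    (h0 : 0 ∈ K) {l : ℕ} (hl : #K = 2 * l + 3) (hb : b → T - 1 ∉ K)
    (hN : N (Car p (mo (ZMod p) (range T \ K) l)) = 0) {a : ℕ} (ha : a ∈ K) (ha1 : a + 1 ∈ K)
    (hz : ∀ c ∈ K, c + 1 < T → c ≠ a → ¬ (c + 2 = T ∧ c + 1 ∉ K ∧ θ = 0) →
      ν (symmDiff K {c + 1}) = 0) : ν (symmDiff K {a + 1}) = 0 := by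
  have h1 := h.v3 h2 hK h0 hl hb hN
  have haT : a + 1 < T := mem_range.1 (hK ha1)
  rw [sum_eq_single a] at h1
  · rw [if_neg (fun h => h.2 ha1), one_mul] at h1
    exact h1
  · intro c hc hca
    rw [mem_filter] at hc
    by_cases h3 : c + 2 = T ∧ c + 1 ∉ K ∧ θ = 0
    · rw [if_pos ⟨h3.1, h3.2.1⟩, h3.2.2, zero_mul]
    · rw [hz c hc.1 hc.2 hca h3, mul_zero]
  · intro h3
    exact absurd (mem_filter.2 ⟨ha, haT⟩) h3

/-- tests of lower order -/
theorem LD.low (h2 : p ≠ 2) {i e : ℕ} {D : Finset ℕ} (h : LD p i e D N) {S : Finset ℕ} {l : ℕ}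
    (h0 : 0 ∉ S) (hO : OL S l (p * (2 ^ i * e) - 1)) : N (Car p (mo (ZMod p) S l)) = 0 := by
  apply h.hN
  have h1 := Car_FQ h2 (f := mo (ZMod p) S l) (Submodule.subset_span ⟨S, l, rfl, h0, hO⟩)
  have hp0 : (0 : ℤ) < p := by exact_mod_cast hp.out.pos
  have h3 : ((p : ℤ) * (2 ^ i * e) - 1) / p = 2 ^ i * e - 1 := by
    rw [Int.ediv_eq_iff_of_pos hp0]
    constructor <;> nlinarith
  rwa [h3] at h1

/-- the local formula turns tests into a system `J(i; α)` -/
theorem jsys_of_tests (h2 : p ≠ 2) {i e : ℕ} {D E E' : Finset ℕ} {α : ZMod p} (h : LD p i e D N)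
    (hE : ∀ q ∈ E, i < q) (hR : ∑ q ∈ E, 2 ^ q = 2 ^ i * (p * e + 1))
    (hE' : ∀ q ∈ E', i ≤ q) (hR' : ∑ q ∈ E', 2 ^ q = 2 ^ i * (p * e))
    (h1 : ∀ I l, I ⊆ Ico 1 i → #I + 2 * l + 3 ≤ i → N (Car p (mo (ZMod p) (E ∪ I) l)) = 0)
    (ha : 2 ≤ i → N (Car p (mo (ZMod p) (E ∪ Ico 2 i) 0)) + α * eta i D N {0, 1} = 0)
    (hb : 4 ≤ i → N (Car p (mo (ZMod p) (E ∪ insert 1 (Ico 3 i)) 0)) + α * eta i D N {0, 2} = 0)
    (h0 : ∀ I l, I ⊆ Ico 1 i → #I + 2 * l + 4 ≤ i → N (Car p (mo (ZMod p) (E' ∪ I) l)) = 0) :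
    JSys i α (eta i D N) (Nn i D N) := by
  constructor
  · intro S l hS hw hb
    by_cases hiS : i ∈ S
    · have hI : S.erase i ⊆ Ico 1 i := by
        intro a ha
        rw [mem_erase] at ha
        have := mem_Ico.1 (hS ha.2)
        rw [mem_Ico]
        omega
      have hc : #(S.erase i) + 1 = #S := card_erase_add_one hiS
      have hins : insert i (S.erase i) = S := insert_erase hiS
      have hcomp : range (i + 1) \ S = range i \ S.erase i := by
        ext a
        simp only [mem_sdiff, mem_range, mem_erase, not_and]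
        constructor
        · rintro ⟨h3, h4⟩
          have : a ≠ i := fun h => h4 (h ▸ hiS)
          exact ⟨by omega, fun _ => h4⟩
        · rintro ⟨h3, h4⟩
          exact ⟨by omega, h4 (by omega)⟩
      have h3 := h1 (S.erase i) l hI (by omega)
      unfold VT
      rcases Nat.lt_trichotomy (#(S.erase i) + 2 * l + 4) i with hw1 | hw1 | hw1
      · rw [if_neg (by omega), if_neg (by omega), add_zero, ← hins,
          ← loc_1a h2 h hE hI hR (by omega)]
        exact h3
      · rw [loc_1b h2 h hE hI hR hw1, hins] at h3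
        rw [if_pos (by omega), hcomp]
        exact h3
      · rw [loc_1c h2 h hE hI hR (by omega), hins] at h3
        rw [if_neg (by omega), if_pos (by omega), hcomp]
        refine Eq.trans ?_ h3
        congr 3
        unfold sh1
        have e3 : ∀ c ∈ (range i \ S.erase i).filter (· + 1 < i),
            eta i D N (symmDiff (range i \ S.erase i) {c + 1})
            = (if c + 2 = i + 1 ∧ c + 1 ∈ S then 0 else 1) *
              eta i D N (symmDiff (range i \ S.erase i) {c + 1}) := by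
          intro c hc
          have := (mem_filter.1 hc).2
          rw [if_neg (by omega), one_mul]
        rw [sum_congr rfl e3]
        symm
        apply sum_subset
        · intro c hc
          rw [mem_filter] at hc ⊢
          exact ⟨hc.1, by omega⟩
        · intro c hc hc'
          rw [mem_filter] at hc hc'
          have h4 : c + 1 = i := by
            by_contra hcon
            exact hc' ⟨hc.1, by omega⟩
          rw [if_pos ⟨by omega, by rw [h4]; exact hiS⟩, zero_mul]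
    · have hI : S ⊆ Ico 1 i := by
        intro a ha
        have h3 := mem_Ico.1 (hS ha)
        have : a ≠ i := fun h => hiS (h ▸ ha)
        rw [mem_Ico]
        omega
      have hw5 : #S + 2 * l + 5 ≤ i + 1 := by
        rcases hb trivial with h3 | h3
        · exact absurd h3 hiS
        · exact h3
      unfold VT
      rw [if_neg (by omega), if_neg (by omega), add_zero, ← loc_0a h2 h hE' hI hR' (by omega)]
      exact h0 S l hI (by omega)
  · intro hi
    have h3 := ha hi
    rw [loc_1d h2 h hi hE hR] at h3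
    have e2 : insert i (Ico 2 i) = Ico 2 (i + 1) := by
      ext a
      simp only [mem_insert, mem_Ico]
      omega
    rw [e2] at h3
    exact h3
  · intro hi
    have h3 := hb hi
    rw [loc_1e h2 h hi hE hR] at h3
    have e2 : insert i (insert 1 (Ico 3 i)) = insert 1 (Ico 3 (i + 1)) := by
      ext a
      simp only [mem_insert, mem_Ico]
      omega
    rw [e2] at h3
    exact h3

end

end Dyn59
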