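import Pool.Agent.H.MP_d59dab.Co

/-!
# MP_d59dab: leading forms of `Car` at level `i`
-/

set_option autoImplicit false

open Finset Polynomial

noncomputable section

namespace Dyn59

section ring

variable {R : Type*} [CommRing R]

theorem LL.sig {v : ℕ} {f : R[X][X]} {q : ℤ} (hf : LL v f (q + 1)) :
    LL (v + 1) (Dyn59.sig R f) q :=
  ⟨f, 0, by simp, hf, LL.zero _ _⟩

theorem LL.X_sig {v : ℕ} {f : R[X][X]} {q : ℤ} (hf : LL v f q) :
    LL (v + 1) (X * Dyn59.sig R f) q :=
  ⟨0, f, by simp, LL.zero _ _, hf⟩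

theorem LL_xS_iter (i : ℕ) : ∀ (A : Finset ℕ) (G : R[X][X]) (q : ℤ), (∀ a ∈ A, a < i) →
    LL 0 G q → LL i (xS R A * (Dyn59.sig R)^[i] G) (q - (i - #A)) := by
  induction i with
  | zero =>
    intro A G q hA hG
    have : A = ∅ := by
      ext a
      simp only [notMem_empty, iff_false]
      exact fun h => absurd (hA a h) (by omega)
    rw [this]
    unfold xS
    simpa using hG
  | succ i ih =>
    intro A G q hA hG
    rw [Function.iterate_succ_apply']
    by_cases h : 0 ∈ A
    · have h1 : xS R A = X * Dyn59.sig R (xS R (dn A)) := by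
        conv_lhs => rw [← insert_up_dn h]
        rw [xS_insert R (zero_notMem_up _), xS_up]
      have hc : #A = #(dn A) + 1 := by
        conv_lhs => rw [← insert_up_dn h]
        rw [card_insert_of_notMem (zero_notMem_up _)]
        congr 1
        exact card_map _
      rw [h1, mul_assoc, ← map_mul]
      apply LL.X_sig
      refine (ih (dn A) G q ?_ hG).mono ?_
      · intro a ha
        rw [mem_dn] at ha
        have := hA _ ha
        omega
      · rw [hc]
        push_cast
        linarith
    · have h1 : xS R A = Dyn59.sig R (xS R (dn A)) := by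
        conv_lhs => rw [← up_dn h]
        rw [xS_up]
      have hc : #A = #(dn A) := by
        conv_lhs => rw [← up_dn h]
        exact card_map _
      rw [h1, ← map_mul]
      apply LL.sig
      refine (ih (dn A) G q ?_ hG).mono ?_
      · intro a ha
        rw [mem_dn] at ha
        have := hA _ ha
        omega
      · rw [hc]
        push_cast
        linarith

theorem LL.neg_C_pow_mul {v : ℕ} {f : R[X][X]} {q : ℤ} (hf : LL v f q) (n : ℕ) :
    LL v ((-(C X : R[X][X])) ^ n * f) (q + 2 * n) := by
  induction n with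
  | zero => simpa using hf
  | succ n ih =>
    have h1 : (-(C X : R[X][X])) ^ (n + 1) * f = -(C X * ((-(C X : R[X][X])) ^ n * f)) := by ring
    rw [h1]
    refine (ih.C_mul.mono ?_).neg
    push_cast
    linarith

theorem LL.diff_pow {v : ℕ} {f : R[X][X]} {q : ℤ} (hf : LL v f q) (n : ℕ) :
    LL v (((X - C X) ^ n - (-(C X : R[X][X])) ^ n) * f) (q + 2 * n - 1) := by
  induction n with
  | zero => simpa using LL.zero _ _
  | succ n ih =>
    have h1 : ((X - C X) ^ (n + 1) - (-(C X : R[X][X])) ^ (n + 1)) * f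
        = (X - C X) * (((X - C X) ^ n - (-(C X : R[X][X])) ^ n) * f)
          + X * ((-(C X : R[X][X])) ^ n * f) := by ring
    rw [h1]
    apply LL.add
    · refine ih.u_mul.mono ?_
      push_cast
      linarith
    · refine (hf.neg_C_pow_mul n).X_mul.mono ?_
      push_cast
      linarith

/-- leading forms of `x_j`, `j ≥ 1`, at level 0 -/
theorem xi_lead (j : ℕ) : LL 0 (xi R (j + 1) - (X ^ 2 + C X) ^ 2 ^ j) (2 ^ (j + 1) + 2) := by
  induction j with
  | zero =>
    rw [xi_succ, xi_zero, sig_X, pow_zero, pow_one, sub_self]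
    exact LL.zero _ _
  | succ j ih =>
    have h1 : xi R (j + 2) - (X ^ 2 + C X) ^ 2 ^ (j + 1)
        = (xi R (j + 1) - (X ^ 2 + C X) ^ 2 ^ j) * (xi R (j + 1) + (X ^ 2 + C X) ^ 2 ^ j)
          + C X := by
      have h2 : xi R (j + 2) = xi R (j + 1) ^ 2 + C X := by rw [xi_sq]; ring
      rw [h2, pow_succ 2 j, pow_mul]
      ring
    rw [h1]
    have h3 : LL 0 ((X ^ 2 + C X : R[X][X]) ^ 2 ^ j) (2 ^ (j + 1) + 3) := by
      have h4 : (X ^ 2 + C X : R[X][X]) ^ 2 ^ j
          = xi R (j + 1) - (xi R (j + 1) - (X ^ 2 + C X) ^ 2 ^ j) := by ring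
      rw [h4]
      exact (LL0_xi _).sub (ih.mono (by linarith))
    have h5 : LL 0 (xi R (j + 1) + (X ^ 2 + C X) ^ 2 ^ j) ((2 ^ (j + 1) : ℤ) + 3) :=
      (LL0_xi _).add h3
    have h6 : LL 0 (xi R (j + 1) - (X ^ 2 + C X) ^ 2 ^ j) (((2 : ℤ) ^ (j + 1) - 1) + 3) :=
      ih.mono (by linarith)
    have h7 := LL0_mul h6 h5
    apply LL.add
    · refine h7.mono ?_
      rw [pow_succ (2 : ℤ) (j + 1)]
      linarith
    · refine LL0_C_X.mono ?_
      have : (4 : ℤ) ≤ 2 ^ (j + 1 + 1) := by
        have h8 : (1 : ℤ) ≤ 2 ^ j := one_le_pow₀ (by norm_num)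
        rw [pow_succ, pow_succ]
        linarith
      linarith

theorem LL0_X1_pow (n : ℕ) : LL 0 ((X ^ 2 + C X : R[X][X]) ^ n) (2 * n + 3) := by
  induction n with
  | zero => rw [pow_zero]; exact LL0_one
  | succ n ih =>
    rw [pow_succ]
    have h1 : LL 0 (X ^ 2 + C X : R[X][X]) (2 + 3) := by
      have := LL0_xi (R := R) 1
      rwa [xi_succ, xi_zero, sig_X] at this
    refine (LL0_mul ih h1).mono ?_
    push_cast
    linarith

/-- leading form of `x_T`, `0 ∉ T` -/
theorem xS_lead (T : Finset ℕ) :
    LL 0 (xS R (up T) - (X ^ 2 + C X) ^ nS T) (2 * nS T + 2) := by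
  induction T using Finset.induction_on with
  | empty =>
    have h1 : up (∅ : Finset ℕ) = ∅ := rfl
    have h2 : nS ∅ = 0 := rfl
    rw [h1, h2]
    unfold xS
    rw [prod_empty, pow_zero, sub_self]
    exact LL.zero _ _
  | insert a T ha ih =>
    have h1 : xS R (up (insert a T)) = xi R (a + 1) * xS R (up T) := by
      unfold xS up
      rw [map_insert, prod_insert, addRightEmbedding_apply]
      intro h
      rw [← up] at h
      rw [addRightEmbedding_apply, succ_mem_up] at h
      exact ha h
    have h2 : nS (insert a T) = 2 ^ a + nS T := by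
      unfold nS
      rw [sum_insert ha]
    have h3 : xS R (up (insert a T)) - (X ^ 2 + C X) ^ nS (insert a T)
        = (xi R (a + 1) - (X ^ 2 + C X) ^ 2 ^ a) * xS R (up T)
          + (X ^ 2 + C X) ^ 2 ^ a * (xS R (up T) - (X ^ 2 + C X) ^ nS T) := by
      rw [h1, h2, pow_add]
      ring
    rw [h3, h2]
    have h4 : LL 0 (xi R (a + 1) - (X ^ 2 + C X) ^ 2 ^ a) (((2 : ℤ) ^ (a + 1) - 1) + 3) :=
      (xi_lead a).mono (by linarith)
    have h5 : LL 0 (xS R (up T)) ((2 * nS T : ℤ) + 3) := by
      have := LL0_xS (R := R) (up T)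
      rwa [nS_up, Nat.cast_mul, Nat.cast_ofNat] at this
    have h6 : LL 0 (xS R (up T) - (X ^ 2 + C X) ^ nS T) ((2 * (nS T : ℤ) - 1) + 3) :=
      ih.mono (by linarith)
    have h7 := LL0_X1_pow (R := R) (2 ^ a)
    apply LL.add
    · refine (LL0_mul h4 h5).mono ?_
      push_cast
      rw [pow_succ]
      linarith
    · refine (LL0_mul h7 h6).mono ?_
      push_cast
      linarith

end ring

section field

variable {p : ℕ} [hp : Fact p.Prime]

theorem half_odd (h2 : p ≠ 2) : 2 * ((p - 1) / 2) + 1 = p := by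
  obtain ⟨k, hk⟩ := hp.out.odd_of_ne_two h2
  omega

/-- leading form of `Car (x_A sig^i G)` at level `i` -/
theorem Car_lead (h2 : p ≠ 2) (i : ℕ) : ∀ (A : Finset ℕ) (G : (ZMod p)[X][X]) (q : ℤ),
    (∀ a ∈ A, a < i) → LL 0 G q →
    LL i (Car p (xS (ZMod p) A * (Dyn59.sig (ZMod p))^[i] G)
      - xS (ZMod p) A * (Dyn59.sig (ZMod p))^[i]
        (Car p ((-(C X : (ZMod p)[X][X])) ^ ((p - 1) / 2 * (i - #A)) * G)))
      ((q - (i - #A) - 1) / p) := by
  have hp0 : 0 < p := hp.out.pos
  induction i with
  | zero =>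
    intro A G q hA hG
    have : A = ∅ := by
      ext a
      simp only [notMem_empty, iff_false]
      exact fun h => absurd (hA a h) (by omega)
    rw [this]
    unfold xS
    simp only [prod_empty, one_mul, Function.iterate_zero, id, Nat.zero_sub, mul_zero, pow_zero,
      sub_self]
    exact LL.zero _ _
  | succ i ih =>
    intro A G q hA hG
    have hA' : ∀ a ∈ dn A, a < i := by
      intro a ha
      rw [mem_dn] at ha
      have := hA _ ha
      omega
    have hci : #(dn A) ≤ i := by
      have : dn A ⊆ range i := fun a ha => mem_range.2 (hA' a ha)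
      have := card_le_card this
      rwa [card_range] at this
    by_cases h : 0 ∈ A
    · have h1 : xS (ZMod p) A = X * Dyn59.sig (ZMod p) (xS (ZMod p) (dn A)) := by
        conv_lhs => rw [← insert_up_dn h]
        rw [xS_insert _ (zero_notMem_up _), xS_up]
      have hc : #A = #(dn A) + 1 := by
        conv_lhs => rw [← insert_up_dn h]
        rw [card_insert_of_notMem (zero_notMem_up _)]
        congr 1
        exact card_map _
      rw [Function.iterate_succ_apply', Function.iterate_succ_apply', h1, mul_assoc, ← map_mul,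
        Car_X_sig h2, mul_assoc, ← map_mul, ← mul_sub, ← map_sub]
      apply LL.X_sig
      have h3 := ih (dn A) G q hA' hG
      have h4 : i + 1 - #A = i - #(dn A) := by rw [hc]; omega
      have h5 : (((i + 1 : ℕ) : ℤ) - #A) = (i - #(dn A)) := by rw [hc]; push_cast; ring
      rw [h4, h5]
      exact h3
    · have h1 : xS (ZMod p) A = Dyn59.sig (ZMod p) (xS (ZMod p) (dn A)) := by
        conv_lhs => rw [← up_dn h]
        rw [xS_up]
      have hc : #A = #(dn A) := by
        conv_lhs => rw [← up_dn h]
        exact card_map _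
      rw [Function.iterate_succ_apply', Function.iterate_succ_apply', h1, ← map_mul, Car_sig h2,
        ← map_mul, ← map_sub]
      apply LL.sig
      set m := (p - 1) / 2 with hm
      have hm2 : 2 * m + 1 = p := half_odd h2
      have h4 : i + 1 - #A = (i - #(dn A)) + 1 := by rw [hc]; omega
      have h3 := ih (dn A) ((-(C X : (ZMod p)[X][X])) ^ m * G) (q + 2 * m) hA'
        (hG.neg_C_pow_mul m)
      have h6 := LL_xS_iter (R := ZMod p) i (dn A) G q hA' hG
      have h7 := Car_LL h2 (h6.diff_pow m)
      have hs : (Dyn59.sig (ZMod p))^[i] ((-(C X : (ZMod p)[X][X])) ^ m * G)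
          = (-(C X : (ZMod p)[X][X])) ^ m * (Dyn59.sig (ZMod p))^[i] G := by
        generalize G = G'
        clear h3 h6 h7 ih hci hA' hA h4
        induction i with
        | zero => rfl
        | succ i ihi =>
          rw [Function.iterate_succ_apply', ihi, map_mul, map_pow, map_neg, sig_C,
            Function.iterate_succ_apply']
      have h8 : (X - C X) ^ m * (xS (ZMod p) (dn A) * (Dyn59.sig (ZMod p))^[i] G)
          = ((X - C X) ^ m - (-(C X : (ZMod p)[X][X])) ^ m)
              * (xS (ZMod p) (dn A) * (Dyn59.sig (ZMod p))^[i] G)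
            + xS (ZMod p) (dn A) * (Dyn59.sig (ZMod p))^[i]
              ((-(C X : (ZMod p)[X][X])) ^ m * G) := by
        rw [hs]
        ring
      rw [h8, Car_add hp0, add_sub_assoc]
      have h9 : (-(C X : (ZMod p)[X][X])) ^ (m * (i + 1 - #A)) * G
          = (-(C X : (ZMod p)[X][X])) ^ (m * (i - #(dn A)))
            * ((-(C X : (ZMod p)[X][X])) ^ m * G) := by
        rw [h4, mul_add, mul_one, pow_add]
        ring
      rw [h9]
      have hpz : (p : ℤ) = 2 * m + 1 := by exact_mod_cast hm2.symm
      have h10 : ((q - ((i + 1 : ℕ) - #A) - 1) / (p : ℤ) + 1)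
          = (q + 2 * m - (i - #(dn A)) - 1) / (p : ℤ) := by
        have : q + 2 * m - (i - #(dn A)) - 1 = (q - ((i + 1 : ℕ) - #A) - 1) + p := by
          rw [hc, hpz]
          push_cast
          ring
        rw [this, Int.add_ediv_of_dvd_right (dvd_refl _), Int.ediv_self]
        exact_mod_cast hp.out.ne_zero
      rw [h10]
      refine LL.add (h7.mono ?_) h3
      apply Int.ediv_le_ediv (by exact_mod_cast hp0)
      linarith

end field

end Dyn59
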