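import Pool.Agent.H.MP_d59dab.CarA

/-!
# MP_d59dab: Lemma L, the orders at all levels and the Cartier operator
-/

set_option autoImplicit false

open Finset Polynomial

noncomputable section

namespace Dyn59

section ring

variable {R : Type*} [CommRing R]

theorem sig_eq (g : R[X][X]) : sig R g = expand R[X] 2 (taylor X g) := by
  induction g using Polynomial.induction_on' with
  | add f g hf hg => rw [map_add, map_add, map_add, hf, hg]
  | monomial n a =>
    rw [← C_mul_X_pow_eq_monomial, taylor_mul, taylor_C, map_mul, map_mul, expand_C, sig_C, map_pow,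
      sig_X]
    have h : taylor X (X ^ n : R[X][X]) = (X + C X) ^ n := by
      rw [taylor_apply, X_pow_comp]
    rw [h, map_pow, map_add, expand_X, expand_C]

theorem sig_coeff_odd (g : R[X][X]) (n : ℕ) : (sig R g).coeff (2 * n + 1) = 0 := by
  rw [sig_eq, coeff_expand (by norm_num), if_neg (by omega)]

theorem sig_coeff_even (g : R[X][X]) (n : ℕ) : (sig R g).coeff (2 * n) = (taylor X g).coeff n := by
  rw [sig_eq, coeff_expand (by norm_num), if_pos (by omega), Nat.mul_div_cancel_left _ (by norm_num)]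

theorem sig_injective : Function.Injective (sig R) := by
  intro f g h
  apply taylor_injective (X : R[X])
  ext1 n
  rw [← sig_coeff_even, ← sig_coeff_even, h]

theorem decomp_unique {g0 g1 h0 h1 : R[X][X]}
    (h : sig R g0 + X * sig R g1 = sig R h0 + X * sig R h1) : g0 = h0 ∧ g1 = h1 := by
  have he : ∀ n, (sig R g0).coeff (2 * n) = (sig R h0).coeff (2 * n) := by
    intro n
    have h1 := congrArg (fun f => f.coeff (2 * n)) h
    simp only [coeff_add] at h1
    cases n with
    | zero => simpa using h1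
    | succ n =>
      have h2 : 2 * (n + 1) = (2 * n + 1) + 1 := by ring
      rw [h2] at h1 ⊢
      rw [coeff_X_mul, coeff_X_mul, sig_coeff_odd, sig_coeff_odd, add_zero, add_zero] at h1
      exact h1
  have ho : ∀ n, (sig R g1).coeff (2 * n) = (sig R h1).coeff (2 * n) := by
    intro n
    have h1 := congrArg (fun f => f.coeff (2 * n + 1)) h
    simp only [coeff_add] at h1
    rwa [coeff_X_mul, coeff_X_mul, sig_coeff_odd, sig_coeff_odd, zero_add, zero_add] at h1
  constructor
  · apply taylor_injective (X : R[X])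
    ext1 n
    rw [← sig_coeff_even, ← sig_coeff_even, he]
  · apply taylor_injective (X : R[X])
    ext1 n
    rw [← sig_coeff_even, ← sig_coeff_even, ho]

/-! ### the orders -/

theorem LL.mono {v : ℕ} {f : R[X][X]} {q q' : ℤ} (h : LL v f q) (hq : q ≤ q') : LL v f q' := by
  induction v generalizing f q q' with
  | zero => exact fun a b hab => (h a b hab).trans hq
  | succ v ih =>
    obtain ⟨g0, g1, hf, h0, h1⟩ := h
    exact ⟨g0, g1, hf, ih h0 (by omega), ih h1 hq⟩

theorem LL.zero (v : ℕ) (q : ℤ) : LL v (0 : R[X][X]) q := by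
  induction v generalizing q with
  | zero => intro a b hab; simp at hab
  | succ v ih => exact ⟨0, 0, by simp, ih _, ih _⟩

theorem LL.add {v : ℕ} {f g : R[X][X]} {q : ℤ} (hf : LL v f q) (hg : LL v g q) :
    LL v (f + g) q := by
  induction v generalizing f g q with
  | zero =>
    intro a b hab
    by_cases h : (f.coeff a).coeff b = 0
    · rw [coeff_add, coeff_add, h, zero_add] at hab
      exact hg a b hab
    · exact hf a b h
  | succ v ih =>
    obtain ⟨f0, f1, rfl, h0, h1⟩ := hf
    obtain ⟨g0, g1, rfl, h2, h3⟩ := hg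
    exact ⟨f0 + g0, f1 + g1, by rw [map_add, map_add]; ring, ih h0 h2, ih h1 h3⟩

theorem sig_smul (c : R) (f : R[X][X]) : sig R (c • f) = c • sig R f := by
  rw [Algebra.smul_def, Algebra.smul_def, map_mul]
  congr 1
  exact sig_C _

theorem LL.smul {v : ℕ} {f : R[X][X]} {q : ℤ} (c : R) (hf : LL v f q) : LL v (c • f) q := by
  induction v generalizing f q with
  | zero =>
    intro a b hab
    apply hf a b
    intro h
    apply hab
    rw [coeff_smul, coeff_smul, h, smul_zero]
  | succ v ih =>
    obtain ⟨f0, f1, rfl, h0, h1⟩ := hf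
    exact ⟨c • f0, c • f1, by rw [sig_smul, sig_smul, smul_add, mul_smul_comm], ih h0, ih h1⟩

theorem LL.neg {v : ℕ} {f : R[X][X]} {q : ℤ} (hf : LL v f q) : LL v (-f) q := by
  have := hf.smul (-1 : R)
  rwa [neg_one_smul] at this

theorem LL.sub {v : ℕ} {f g : R[X][X]} {q : ℤ} (hf : LL v f q) (hg : LL v g q) :
    LL v (f - g) q := by
  rw [sub_eq_add_neg]
  exact hf.add hg.neg

theorem LL.C_mul {v : ℕ} {f : R[X][X]} {q : ℤ} (hf : LL v f q) : LL v (C X * f) (q + 2) := by
  induction v generalizing f q with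
  | zero =>
    intro a b hab
    rw [coeff_C_mul] at hab
    cases b with
    | zero => rw [coeff_X_mul_zero] at hab; exact absurd rfl hab
    | succ b =>
      rw [coeff_X_mul] at hab
      have := hf a b hab
      push_cast
      linarith
  | succ v ih =>
    obtain ⟨f0, f1, rfl, h0, h1⟩ := hf
    refine ⟨C X * f0, C X * f1, by rw [map_mul, map_mul, sig_C]; ring, ?_, ih h1⟩
    have := ih h0
    convert this using 1
    ring

theorem LL.X_mul {v : ℕ} {f : R[X][X]} {q : ℤ} (hf : LL v f q) : LL v (X * f) (q + 1) := by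
  induction v generalizing f q with
  | zero =>
    intro a b hab
    cases a with
    | zero => rw [coeff_X_mul_zero] at hab; simp at hab
    | succ a =>
      rw [coeff_X_mul] at hab
      have := hf a b hab
      push_cast
      linarith
  | succ v ih =>
    obtain ⟨f0, f1, rfl, h0, h1⟩ := hf
    refine ⟨(X - C X) * f1, f0, ?_, ?_, h0⟩
    · rw [map_mul, map_sub, sig_X, sig_C]
      ring
    · rw [sub_mul]
      exact ((ih h1).mono (by omega)).sub (h1.C_mul.mono (by omega))

theorem LL.u_mul {v : ℕ} {f : R[X][X]} {q : ℤ} (hf : LL v f q) :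
    LL v ((X - C X) * f) (q + 2) := by
  rw [sub_mul]
  exact (hf.X_mul.mono (by omega)).sub hf.C_mul

theorem LL.u_pow_mul {v : ℕ} {f : R[X][X]} {q : ℤ} (hf : LL v f q) (n : ℕ) :
    LL v ((X - C X) ^ n * f) (q + 2 * n) := by
  induction n with
  | zero => simpa using hf
  | succ n ih =>
    rw [pow_succ', mul_assoc]
    refine ih.u_mul.mono ?_
    push_cast
    linarith

theorem LL.decomp {v : ℕ} {g0 g1 : R[X][X]} {q : ℤ} (h : LL (v + 1) (sig R g0 + X * sig R g1) q) :
    LL v g0 (q + 1) ∧ LL v g1 q := by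
  obtain ⟨h0, h1, he, hh0, hh1⟩ := h
  obtain ⟨rfl, rfl⟩ := decomp_unique he
  exact ⟨hh0, hh1⟩

theorem Dz_two : Dz (2 : R[X][X]) = 0 := by
  have : (2 : R[X][X]) = C 2 := (map_ofNat C 2).symm
  rw [this, Dz_C]
  have h3 : (derivative (2 : R[X])) = 0 := by
    have : (2 : R[X]) = C 2 := (map_ofNat C 2).symm
    rw [this, derivative_C]
  rw [h3, map_zero]

theorem derivative_two_mul (f : R[X][X]) : derivative (2 * f) = 2 * derivative f := by
  have : (2 : R[X][X]) = C 2 := (map_ofNat C 2).symm
  rw [this, derivative_C_mul]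

theorem derivative_u_pow (n : ℕ) :
    derivative ((X - C X : R[X][X]) ^ (n + 1)) = ((n : R[X][X]) + 1) * (X - C X) ^ n := by
  rw [derivative_pow, derivative_sub, derivative_X, derivative_C, sub_zero, mul_one]
  simp

theorem Dz_u_pow (n : ℕ) :
    Dz ((X - C X : R[X][X]) ^ n) = - derivative ((X - C X : R[X][X]) ^ n) := by
  rw [Dz_pow, Dz_sub, Dz_X, Dz_C, derivative_X, map_one, derivative_pow, derivative_sub,
    derivative_X, derivative_C, sub_zero, zero_sub, mul_one, map_natCast]
  ring

/-- odd and even parts of `B_x - A_z + c N` -/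
theorem exact_decomp {A0 A1 B0 B1 N0 N1 c : R[X][X]} (hc : sig R c = c) :
    derivative (sig R B0 + X * sig R B1) - Dz (sig R A0 + X * sig R A1)
      + c * (sig R N0 + X * sig R N1)
    = sig R (B1 + 2 * (X - C X) * derivative B1 - derivative A0 - Dz A0 + c * N0)
      + X * sig R (derivative (2 * B0 - A1) - Dz A1 + c * N1) := by
  rw [derivative_add, derivative_mul, derivative_sig, derivative_sig, derivative_X, Dz_add, Dz_mul,
    Dz_X, Dz_sig, Dz_sig, derivative_sub, derivative_two_mul]
  simp only [map_add, map_sub, map_mul, sig_X, sig_C, hc, map_ofNat]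
  ring

/-- the even part times a power of `u = x - z` -/
theorem even_part (n : ℕ) (A0 B1 N0 c : R[X][X]) :
    (X - C X) ^ n * (B1 + 2 * (X - C X) * derivative B1 - derivative A0 - Dz A0 + c * N0)
    = derivative (2 * ((X - C X) ^ (n + 1) * B1) - (X - C X) ^ n * A0) - Dz ((X - C X) ^ n * A0)
      + c * ((X - C X) ^ n * N0) - (2 * (n : R[X][X]) + 1) * ((X - C X) ^ n * B1) := by
  rw [derivative_sub, derivative_two_mul, derivative_mul, derivative_mul, derivative_u_pow, Dz_mul,
    Dz_u_pow]
  ring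

end ring

section field

variable {p : ℕ} [hp : Fact p.Prime]

theorem Car_iter_X_sig (h2 : p ≠ 2) (k : ℕ) (g : (ZMod p)[X][X]) :
    (Car p)^[k] (X * sig (ZMod p) g) = X * sig (ZMod p) ((Car p)^[k] g) := by
  induction k generalizing g with
  | zero => rfl
  | succ k ih => rw [Function.iterate_succ_apply, Function.iterate_succ_apply, Car_X_sig h2, ih]

theorem Car_iter_sig (h2 : p ≠ 2) (k : ℕ) (g : (ZMod p)[X][X]) :
    (Car p)^[k] (sig (ZMod p) g)
      = sig (ZMod p) ((Car p)^[k] ((X - C X) ^ ((p ^ k - 1) / 2) * g)) := by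
  induction k generalizing g with
  | zero => simp
  | succ k ih =>
    have hodd : Odd p := hp.out.odd_of_ne_two h2
    rw [Function.iterate_succ_apply, Function.iterate_succ_apply, Car_sig h2, ih]
    congr 2
    have h1 : (p ^ (k + 1) - 1) / 2 = ((p ^ k - 1) / 2) * p + (p - 1) / 2 := by
      obtain ⟨a, ha⟩ := hodd.pow (n := k)
      obtain ⟨b, hb⟩ := hodd
      rw [pow_succ, ha]
      have e1 : (2 * a + 1 - 1) / 2 = a := by omega
      have e2 : (p - 1) / 2 = b := by omega
      have e3 : (2 * a + 1) * p - 1 = 2 * (a * p + b) := by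
        have : (2 * a + 1) * p = 2 * (a * p) + p := by ring
        rw [this, mul_add]
        omega
      rw [e1, e2, e3]
      omega
    rw [h1, pow_add, pow_mul, mul_assoc, Car_pow_mul]

theorem Car_iter_coeff (k : ℕ) (f : (ZMod p)[X][X]) (a b : ℕ) :
    (((Car p)^[k] f).coeff a).coeff b
      = (f.coeff (p ^ k * (a + 1) - 1)).coeff (p ^ k * (b + 1) - 1) := by
  have hp0 : 0 < p := hp.out.pos
  induction k generalizing a b with
  | zero => simp
  | succ k ih =>
    rw [Function.iterate_succ_apply', Car_coeff_coeff hp0, ih]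
    have h1 : ∀ a : ℕ, p ^ k * (p * (a + 1) - 1 + 1) - 1 = p ^ (k + 1) * (a + 1) - 1 := by
      intro a
      have : 0 < p * (a + 1) := by positivity
      rw [Nat.sub_add_cancel this, pow_succ, mul_assoc]
    rw [h1, h1]

/-- reduction modulo `p` -/
def red (p : ℕ) [Fact p.Prime] : ℤ_[p][X][X] →+* (ZMod p)[X][X] :=
  mapRingHom (mapRingHom PadicInt.toZMod)

theorem red_coeff (f : ℤ_[p][X][X]) (a b : ℕ) :
    ((red p f).coeff a).coeff b = PadicInt.toZMod ((f.coeff a).coeff b) := by
  unfold red
  rw [coe_mapRingHom, coeff_map, coe_mapRingHom, coeff_map]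

theorem red_X : red p X = X := by
  unfold red
  rw [coe_mapRingHom, map_X]

theorem red_C_X : red p (C X) = C X := by
  unfold red
  rw [coe_mapRingHom, map_C, coe_mapRingHom, map_X]

theorem red_sig (f : ℤ_[p][X][X]) : red p (sig ℤ_[p] f) = sig (ZMod p) (red p f) := by
  induction f using Polynomial.induction_on' with
  | add f g hf hg => rw [map_add, map_add, hf, hg, map_add, map_add]
  | monomial n a =>
    rw [← C_mul_X_pow_eq_monomial, map_mul, map_mul, map_mul, map_mul, sig_C, map_pow, map_pow,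
      map_pow, map_pow, sig_X, red_X, sig_X, map_add, map_pow, red_X, red_C_X]
    congr 1
    have : red p (C a) = C (mapRingHom PadicInt.toZMod a) := by
      unfold red
      rw [coe_mapRingHom, map_C]
    rw [this, sig_C]

theorem toZMod_eq_zero_iff_dvd (x : ℤ_[p]) : PadicInt.toZMod x = 0 ↔ (p : ℤ_[p]) ∣ x := by
  rw [← RingHom.mem_ker, PadicInt.ker_toZMod, PadicInt.maximalIdeal_eq_span_p,
    Ideal.mem_span_singleton]

/-- **Lemma L** -/
theorem lemL (h2 : p ≠ 2) (v : ℕ) : ∀ (k : ℕ) (q : ℤ) (f A B N : ℤ_[p][X][X]),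
    f = derivative B - Dz A + (p : ℤ_[p][X][X]) ^ k * N → LL v f q →
    LL v ((Car p)^[k + 1] (red p N)) (q / (p : ℤ) ^ (k + 1)) := by
  have hp0 : 0 < p := hp.out.pos
  induction v with
  | zero =>
    intro k q f A B N hf hq a b hab
    rw [Car_iter_coeff, red_coeff] at hab
    set a' := p ^ (k + 1) * (a + 1) - 1 with ha'
    set b' := p ^ (k + 1) * (b + 1) - 1 with hb'
    have h1 : a' + 1 = p ^ (k + 1) * (a + 1) := by
      have : 0 < p ^ (k + 1) * (a + 1) := by positivity
      omega
    have h3 : b' + 1 = p ^ (k + 1) * (b + 1) := by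
      have : 0 < p ^ (k + 1) * (b + 1) := by positivity
      omega
    have hc : (f.coeff a').coeff b' ≠ 0 := by
      intro h0
      apply hab
      rw [toZMod_eq_zero_iff_dvd]
      have e1 : (f.coeff a').coeff b' = (B.coeff (a' + 1)).coeff b' * ((a' : ℤ_[p]) + 1)
          - (A.coeff a').coeff (b' + 1) * ((b' : ℤ_[p]) + 1)
          + (p : ℤ_[p]) ^ k * (N.coeff a').coeff b' := by
        have e2 : (p : ℤ_[p][X][X]) ^ k = C (C ((p : ℤ_[p]) ^ k)) := by simp
        rw [hf, coeff_add, coeff_sub, coeff_add, coeff_sub, coeff_derivative, Dz_coeff,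
          coeff_derivative, e2, coeff_C_mul, coeff_C_mul]
        congr 2
        have e3 : ((a' : ℤ_[p][X]) + 1) = C ((a' : ℤ_[p]) + 1) := by simp
        rw [e3, coeff_mul_C]
      have e3 : ((a' : ℤ_[p]) + 1) = (p : ℤ_[p]) ^ (k + 1) * ((a : ℤ_[p]) + 1) := by
        exact_mod_cast h1
      have e4 : ((b' : ℤ_[p]) + 1) = (p : ℤ_[p]) ^ (k + 1) * ((b : ℤ_[p]) + 1) := by
        exact_mod_cast h3
      rw [h0, e3, e4] at e1
      have hpk : (p : ℤ_[p]) ^ k ≠ 0 := by
        apply pow_ne_zero
        exact_mod_cast hp.out.ne_zero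
      refine ⟨(A.coeff a').coeff (b' + 1) * ((b : ℤ_[p]) + 1)
        - (B.coeff (a' + 1)).coeff b' * ((a : ℤ_[p]) + 1), mul_left_cancel₀ hpk ?_⟩
      rw [pow_succ] at e1
      linear_combination (-1 : ℤ_[p]) * e1
    have h4 := hq a' b' hc
    rw [Int.le_ediv_iff_mul_le (by positivity)]
    have h5 : ((a' : ℤ) + 1) = (p : ℤ) ^ (k + 1) * ((a : ℤ) + 1) := by exact_mod_cast h1
    have h6 : ((b' : ℤ) + 1) = (p : ℤ) ^ (k + 1) * ((b : ℤ) + 1) := by exact_mod_cast h3
    rw [h5, h6] at h4
    linarith
  | succ v ih =>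
    intro k q f A B N hf hq
    obtain ⟨A0, A1, rfl⟩ := exists_decomp A
    obtain ⟨B0, B1, rfl⟩ := exists_decomp B
    obtain ⟨N0, N1, rfl⟩ := exists_decomp N
    have hs : sig ℤ_[p] ((p : ℤ_[p][X][X]) ^ k) = (p : ℤ_[p][X][X]) ^ k := by
      rw [map_pow, map_natCast]
    rw [exact_decomp hs] at hf
    rw [hf] at hq
    obtain ⟨hq0, hq1⟩ := hq.decomp
    refine ⟨(Car p)^[k + 1] ((X - C X) ^ ((p ^ (k + 1) - 1) / 2) * red p N0),
      (Car p)^[k + 1] (red p N1), ?_, ?_, ?_⟩
    · rw [map_add, map_mul, red_X, red_sig, red_sig, ← Car_iter_X_sig h2, ← Car_iter_sig h2]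
      generalize k + 1 = m
      induction m with
      | zero => rfl
      | succ m ihm => rw [Function.iterate_succ_apply', Function.iterate_succ_apply',
          Function.iterate_succ_apply', ihm, Car_add hp0]
    · have hodd : Odd p := hp.out.odd_of_ne_two h2
      set n := (p ^ (k + 1) - 1) / 2 with hn
      have hn2 : 2 * n + 1 = p ^ (k + 1) := by
        obtain ⟨a, ha⟩ := hodd.pow (n := k + 1)
        omega
      have h5 := hq0.u_pow_mul n
      rw [even_part] at h5
      have h6 : (2 * (n : ℤ_[p][X][X]) + 1) = (p : ℤ_[p][X][X]) ^ (k + 1) := by exact_mod_cast hn2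
      rw [h6] at h5
      have h7 := ih k _ _ ((X - C X) ^ n * A0)
        (2 * ((X - C X) ^ (n + 1) * B1) - (X - C X) ^ n * A0)
        ((X - C X) ^ n * N0 - (p : ℤ_[p][X][X]) * ((X - C X) ^ n * B1)) ?_ h5
      · have h8 : red p ((X - C X) ^ n * N0 - (p : ℤ_[p][X][X]) * ((X - C X) ^ n * B1))
            = (X - C X) ^ n * red p N0 := by
          rw [map_sub, map_mul, map_pow, map_sub, red_X, red_C_X, map_mul, map_natCast,
            CharP.cast_eq_zero, zero_mul, sub_zero]
        rw [h8] at h7
        convert h7 using 1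
        have h9 : q + 1 + 2 * (n : ℤ) = q + (p : ℤ) ^ (k + 1) := by
          have : 2 * (n : ℤ) + 1 = (p : ℤ) ^ (k + 1) := by exact_mod_cast hn2
          linarith
        rw [h9]
        have h10 : (p : ℤ) ^ (k + 1) ≠ 0 := by
          apply pow_ne_zero
          exact_mod_cast hp.out.ne_zero
        rw [Int.add_ediv_of_dvd_right (dvd_refl _), Int.ediv_self h10]
      · rw [pow_succ]
        ring
    · exact ih k q _ A1 (2 * B0 - A1) N1 rfl hq1

end field

end Dyn59
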