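import Pool.Agent.H.MP_d59dab.Defs

/-!
# MP_d59dab: the order of the basis elements `x_S z^l`
-/

set_option autoImplicit false

open Finset Polynomial

noncomputable section

namespace Dyn59

/-- the order of `x_S z^l` is at most `Q` -/
def OL (S : Finset ℕ) (l : ℕ) (Q : ℤ) : Prop := ∀ v, (2 : ℤ) ^ v * lam v S l ≤ Q

theorem OL.mono {S : Finset ℕ} {l : ℕ} {Q Q' : ℤ} (h : OL S l Q) (hQ : Q ≤ Q') : OL S l Q' :=
  fun v => (h v).trans hQ

theorem mo_mem_FQ (R : Type*) [CommRing R] {S : Finset ℕ} {l : ℕ} {Q : ℤ} (h0 : 0 ∉ S)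
    (h : OL S l Q) : mo R S l ∈ FQ R Q :=
  Submodule.subset_span ⟨S, l, rfl, h0, h⟩

theorem sum_pow_range (T : ℕ) : ∑ s ∈ range T, (2 : ℤ) ^ s = 2 ^ T - 1 := by
  induction T with
  | zero => simp
  | succ T ih => rw [sum_range_succ, ih, pow_succ]; ring

/-- `2 ^ v * lam v S l` -/
theorem two_pow_mul_lam (v : ℕ) (S : Finset ℕ) (l : ℕ) : (2 : ℤ) ^ v * lam v S l =
    2 ^ v * ((#(S.filter (· ≤ v)) : ℤ) + 2 * l + 3 - v) + ∑ s ∈ S.filter (v < ·), (2 : ℤ) ^ s := by
  unfold lam
  have h : ∑ s ∈ S.filter (v < ·), (2 : ℤ) ^ s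
      = 2 ^ v * ∑ s ∈ S.filter (v < ·), (2 : ℤ) ^ (s - v) := by
    rw [mul_sum]
    apply sum_congr rfl
    intro s hs
    rw [mem_filter] at hs
    rw [← pow_add, Nat.add_sub_cancel' hs.2.le]
  rw [h]
  ring

/-- ORDER LEMMA -/
theorem ol_of_compl {T : ℕ} {S U : Finset ℕ} {l : ℕ} (hS : S ⊆ range T) (hU : U ⊆ range T \ S)
    (h : #S + 2 * l + #U + 2 ≤ T) : OL S l (2 ^ T - ∑ u ∈ U, (2 : ℤ) ^ u) := by
  intro v
  rw [two_pow_mul_lam]
  have hUT : U ⊆ range T := hU.trans sdiff_subset
  have hpos : ∀ W : Finset ℕ, 0 ≤ ∑ u ∈ W, (2 : ℤ) ^ u := fun W =>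
    sum_nonneg (fun _ _ => by positivity)
  have hUT' : ∑ u ∈ U, (2 : ℤ) ^ u ≤ 2 ^ T - 1 := by
    rw [← sum_pow_range T]
    exact sum_le_sum_of_subset_of_nonneg hUT (fun _ _ _ => by positivity)
  by_cases hv : v < T
  · -- the complement
    have e1 : #(S.filter (· ≤ v)) + #((range T \ S).filter (· ≤ v)) = v + 1 := by
      rw [← card_union_of_disjoint, ← filter_union, union_sdiff_of_subset hS]
      · have : (range T).filter (· ≤ v) = range (v + 1) := by
          ext a; simp only [mem_filter, mem_range]; omega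
        rw [this, card_range]
      · exact disjoint_filter_filter disjoint_sdiff
    have e2 : ∑ s ∈ S.filter (v < ·), (2 : ℤ) ^ s + ∑ s ∈ (range T \ S).filter (v < ·), (2 : ℤ) ^ s
        = 2 ^ T - 2 ^ (v + 1) := by
      rw [← sum_union (disjoint_filter_filter disjoint_sdiff), ← filter_union,
        union_sdiff_of_subset hS]
      have h1 : ∑ s ∈ (range T).filter (v < ·), (2 : ℤ) ^ s + ∑ s ∈ range (v + 1), (2 : ℤ) ^ s
          = ∑ s ∈ range T, (2 : ℤ) ^ s := by
        rw [← sum_union]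
        · apply sum_congr _ (fun _ _ => rfl)
          ext a
          simp only [mem_union, mem_filter, mem_range]
          omega
        · rw [disjoint_left]
          intro a ha hb
          simp only [mem_filter, mem_range] at ha hb
          omega
      rw [sum_pow_range, sum_pow_range] at h1
      linarith
    have e3 : #S + #(range T \ S) = T := by
      rw [← card_union_of_disjoint disjoint_sdiff, union_sdiff_of_subset hS, card_range]
    have e4 : #((range T \ S).filter (· ≤ v)) + #((range T \ S).filter (v < ·))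
        = #(range T \ S) := by
      have h1 := card_filter_add_card_filter_not (s := range T \ S) (fun x : ℕ => x ≤ v)
      have h2 : (range T \ S).filter (fun x => ¬ x ≤ v) = (range T \ S).filter (v < ·) := by
        apply filter_congr; intro x _; omega
      rw [h2] at h1
      exact h1
    -- main estimate
    have e5 : ∑ u ∈ U, (2 : ℤ) ^ u ≤ ∑ s ∈ (range T \ S).filter (v < ·), ((2 : ℤ) ^ s - 2 ^ v)
        + #U * 2 ^ v := by
      have h1 : ∑ u ∈ U, (2 : ℤ) ^ u = ∑ u ∈ U, ((2 : ℤ) ^ u - 2 ^ v) + #U * 2 ^ v := by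
        rw [sum_sub_distrib, sum_const, nsmul_eq_mul]; ring
      rw [h1]
      have h2 : ∑ u ∈ U, ((2 : ℤ) ^ u - 2 ^ v) ≤ ∑ u ∈ U.filter (v < ·), ((2 : ℤ) ^ u - 2 ^ v) := by
        rw [← sum_filter_add_sum_filter_not U (v < ·)]
        have : ∑ u ∈ U.filter (fun x => ¬ v < x), ((2 : ℤ) ^ u - 2 ^ v) ≤ 0 := by
          apply sum_nonpos
          intro u hu
          rw [mem_filter, not_lt] at hu
          have := pow_le_pow_right₀ (show (1 : ℤ) ≤ 2 by norm_num) hu.2
          linarith
        linarith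
      have h3 : ∑ u ∈ U.filter (v < ·), ((2 : ℤ) ^ u - 2 ^ v)
          ≤ ∑ s ∈ (range T \ S).filter (v < ·), ((2 : ℤ) ^ s - 2 ^ v) := by
        apply sum_le_sum_of_subset_of_nonneg
        · exact filter_subset_filter _ hU
        · intro u hu _
          rw [mem_filter] at hu
          have := pow_le_pow_right₀ (show (1 : ℤ) ≤ 2 by norm_num) hu.2.le
          linarith
      linarith
    rw [sum_sub_distrib, sum_const, nsmul_eq_mul] at e5
    have e1' : (#(S.filter (· ≤ v)) : ℤ) = v + 1 - #((range T \ S).filter (· ≤ v)) := by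
      have : ((#(S.filter (· ≤ v)) + #((range T \ S).filter (· ≤ v)) : ℕ) : ℤ) = ((v + 1 : ℕ) : ℤ) := by
        rw [e1]
      push_cast at this
      linarith
    have e4' : (#((range T \ S).filter (· ≤ v)) : ℤ)
        = #(range T \ S) - #((range T \ S).filter (v < ·)) := by
      have : ((#((range T \ S).filter (· ≤ v)) + #((range T \ S).filter (v < ·)) : ℕ) : ℤ)
          = ((#(range T \ S) : ℕ) : ℤ) := by rw [e4]
      push_cast at this
      linarith
    have e6 : (2 * l + #U + 2 : ℤ) ≤ #(range T \ S) := by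
      have : 2 * l + #U + 2 ≤ #(range T \ S) := by omega
      exact_mod_cast this
    have e7 : (2 : ℤ) ^ v * ((#(S.filter (· ≤ v)) : ℤ) + 2 * l + 3 - v) ≤
        2 ^ v * (2 - #U + #((range T \ S).filter (v < ·))) := by
      apply mul_le_mul_of_nonneg_left _ (by positivity)
      rw [e1', e4']
      linarith
    have e8 : (2 : ℤ) ^ (v + 1) = 2 * 2 ^ v := by ring
    nlinarith [e7, e2, e5, e8]
  · rw [not_lt] at hv
    have e1 : S.filter (· ≤ v) = S := by
      apply filter_true_of_mem
      intro s hs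
      have := mem_range.1 (hS hs)
      omega
    have e2 : S.filter (v < ·) = ∅ := by
      apply filter_false_of_mem
      intro s hs
      have := mem_range.1 (hS hs)
      omega
    rw [e1, e2, sum_empty, add_zero]
    have h3 : (#S + 2 * l + #U + 2 : ℤ) ≤ T := by exact_mod_cast h
    have hvT : (T : ℤ) ≤ v := by exact_mod_cast hv
    rcases Nat.eq_zero_or_pos #U with hU0 | hU0
    · rw [card_eq_zero] at hU0
      rw [hU0, sum_empty, sub_zero]
      rw [hU0, card_empty] at h3
      rcases eq_or_lt_of_le hv with hv1 | hv1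
      · rw [← hv1]
        have : ((#S : ℤ) + 2 * l + 3 - T) ≤ 1 := by push_cast at h3; linarith
        have h5 : (0 : ℤ) < 2 ^ T := by positivity
        nlinarith
      · have : ((#S : ℤ) + 2 * l + 3 - v) ≤ 0 := by
          have : (T : ℤ) + 1 ≤ v := by exact_mod_cast hv1
          push_cast at h3; linarith
        have h5 : (0 : ℤ) < 2 ^ T := by positivity
        have h6 : (0 : ℤ) < 2 ^ v := by positivity
        nlinarith
    · have h4 : (1 : ℤ) ≤ #U := by exact_mod_cast hU0
      have : ((#S : ℤ) + 2 * l + 3 - v) ≤ 0 := by linarith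
      have h6 : (0 : ℤ) < 2 ^ v := by positivity
      nlinarith

/-- number of non-elements in `[0, v]` -/
def nu (S : Finset ℕ) (v : ℕ) : ℕ := #(range (v + 1) \ S)

theorem card_filter_le_add_nu (S : Finset ℕ) (v : ℕ) : #(S.filter (· ≤ v)) + nu S v = v + 1 := by
  unfold nu
  have h1 : S.filter (· ≤ v) = range (v + 1) ∩ S := by
    ext a; simp only [mem_filter, mem_inter, mem_range, Nat.lt_succ_iff]; exact and_comm
  rw [h1, inter_comm, inter_comm S, card_inter_add_card_sdiff, card_range]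

theorem lam_step (S : Finset ℕ) (l v : ℕ) : (2 : ℤ) ^ (v + 1) * lam (v + 1) S l
    = 2 ^ v * lam v S l + 2 ^ v * (2 * l + 2 - nu S v) := by
  rw [two_pow_mul_lam, two_pow_mul_lam]
  have h1 : (#(S.filter (· ≤ v)) : ℤ) = v + 1 - nu S v := by
    have := card_filter_le_add_nu S v
    have h : ((#(S.filter (· ≤ v)) + nu S v : ℕ) : ℤ) = ((v + 1 : ℕ) : ℤ) := by rw [this]
    push_cast at h
    linarith
  by_cases hv : v + 1 ∈ S
  · have e1 : S.filter (· ≤ v + 1) = insert (v + 1) (S.filter (· ≤ v)) := by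
      ext a; simp only [mem_filter, mem_insert]
      constructor
      · rintro ⟨h, h'⟩
        rcases Nat.lt_or_ge v a with h2 | h2
        · left; omega
        · right; exact ⟨h, h2⟩
      · rintro (rfl | ⟨h, h'⟩)
        · exact ⟨hv, le_rfl⟩
        · exact ⟨h, by omega⟩
    have e2 : S.filter (v < ·) = insert (v + 1) (S.filter (v + 1 < ·)) := by
      ext a; simp only [mem_filter, mem_insert]
      constructor
      · rintro ⟨h, h'⟩
        rcases eq_or_lt_of_le (Nat.succ_le_of_lt h') with h2 | h2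
        · left; exact h2.symm
        · right; exact ⟨h, h2⟩
      · rintro (rfl | ⟨h, h'⟩)
        · exact ⟨hv, by omega⟩
        · exact ⟨h, by omega⟩
    rw [e1, e2, card_insert_of_notMem (by simp), sum_insert (by simp), Nat.cast_add, Nat.cast_one,
      h1]
    push_cast
    ring
  · have e1 : S.filter (· ≤ v + 1) = S.filter (· ≤ v) := by
      apply filter_congr
      intro a ha
      have : a ≠ v + 1 := fun h => hv (h ▸ ha)
      omega
    have e2 : S.filter (v < ·) = S.filter (v + 1 < ·) := by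
      apply filter_congr
      intro a ha
      have : a ≠ v + 1 := fun h => hv (h ▸ ha)
      omega
    rw [e1, e2, h1]
    push_cast
    ring

theorem lam_le_step {S : Finset ℕ} {l v : ℕ} (h : nu S v ≤ 2 * l + 2) :
    (2 : ℤ) ^ v * lam v S l ≤ (2 : ℤ) ^ (v + 1) * lam (v + 1) S l := by
  rw [lam_step]
  have h1 : (nu S v : ℤ) ≤ 2 * l + 2 := by exact_mod_cast h
  have h2 : (0 : ℤ) ≤ 2 ^ v := by positivity
  nlinarith

theorem nu_mono {S : Finset ℕ} {v w : ℕ} (h : v ≤ w) : nu S v ≤ nu S w :=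
  card_le_card (sdiff_subset_sdiff (range_mono (by omega)) le_rfl)

theorem nu_succ_le (S : Finset ℕ) (v : ℕ) : nu S (v + 1) ≤ nu S v + 1 := by
  unfold nu
  rw [range_add_one (n := v + 1)]
  calc #(insert (v + 1) (range (v + 1)) \ S) ≤ #(insert (v + 1) (range (v + 1) \ S)) := by
        apply card_le_card
        intro a ha
        simp only [mem_sdiff, mem_insert] at ha ⊢
        tauto
    _ ≤ _ := card_insert_le _ _

theorem lam_mono {S : Finset ℕ} {l v w : ℕ} (hvw : v ≤ w) (h : nu S w ≤ 2 * l + 3)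
    (h' : v < w → nu S (w - 1) ≤ 2 * l + 2) :
    (2 : ℤ) ^ v * lam v S l ≤ (2 : ℤ) ^ w * lam w S l := by
  induction w, hvw using Nat.le_induction with
  | base => exact le_rfl
  | succ w hw ih =>
    have h1 : nu S w ≤ 2 * l + 2 := h' (by omega)
    refine le_trans (ih (by omega) ?_) (lam_le_step h1)
    intro _
    exact le_trans (nu_mono (by omega)) h1

/-- binary expansions are unique -/
theorem finset_eq_of_sum {A B : Finset ℕ} (h : ∑ s ∈ A, (2 : ℤ) ^ s = ∑ s ∈ B, (2 : ℤ) ^ s) :
    A = B := by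
  have h1 : ∑ s ∈ A, 2 ^ s = ∑ s ∈ B, 2 ^ s := by exact_mod_cast h
  exact Finset.geomSum_injective le_rfl h1

section level

variable {S : Finset ℕ} {i l : ℕ} {R : ℤ}

theorem filter_split (S : Finset ℕ) (i : ℕ) : S.filter (· < i) ∪ S.filter (i ≤ ·) = S := by
  ext a; simp only [mem_union, mem_filter]
  constructor
  · rintro (h | h) <;> exact h.1
  · intro h
    rcases Nat.lt_or_ge a i with h2 | h2
    · exact Or.inl ⟨h, h2⟩
    · exact Or.inr ⟨h, h2⟩

theorem filter_disj (S : Finset ℕ) (i : ℕ) : Disjoint (S.filter (· < i)) (S.filter (i ≤ ·)) := by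
  rw [disjoint_left]
  intro a ha hb
  rw [mem_filter] at ha hb
  omega

theorem card_split (S : Finset ℕ) (i : ℕ) : #(S.filter (· < i)) + #(S.filter (i ≤ ·)) = #S := by
  rw [← card_union_of_disjoint (filter_disj S i), filter_split]

/-- an upper bound of `S` -/
theorem exists_subset_range (S : Finset ℕ) (i : ℕ) : ∃ T, i ≤ T ∧ S ⊆ range T := by
  refine ⟨i + S.sup id + 1, by omega, fun a ha => ?_⟩
  have := le_sup (f := id) ha
  simp only [id_eq] at this
  rw [mem_range]
  omega

theorem sum_compl_hi {T : ℕ} (hS : S ⊆ range T) (hi : i ≤ T)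
    (hR : ∑ s ∈ S.filter (i ≤ ·), (2 : ℤ) ^ s = 2 ^ i * R) :
    ∑ s ∈ Ico i T \ S, (2 : ℤ) ^ s = 2 ^ T - 2 ^ i - 2 ^ i * R := by
  have h1 : ∑ s ∈ Ico i T \ S, (2 : ℤ) ^ s + ∑ s ∈ S.filter (i ≤ ·), (2 : ℤ) ^ s
      = ∑ s ∈ Ico i T, (2 : ℤ) ^ s := by
    rw [← sum_union]
    · apply sum_congr _ (fun _ _ => rfl)
      ext a
      simp only [mem_union, mem_sdiff, mem_Ico, mem_filter]
      constructor
      · rintro (h | h)
        · exact h.1
        · exact ⟨h.2, mem_range.1 (hS h.1)⟩
      · intro h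
        by_cases ha : a ∈ S
        · exact Or.inr ⟨ha, h.1⟩
        · exact Or.inl ⟨h, ha⟩
    · rw [disjoint_left]
      intro a ha hb
      rw [mem_sdiff] at ha
      rw [mem_filter] at hb
      exact ha.2 hb.1
  have h2 : ∑ s ∈ Ico i T, (2 : ℤ) ^ s = 2 ^ T - 2 ^ i := by
    have h3 : ∑ s ∈ range i, (2 : ℤ) ^ s + ∑ s ∈ Ico i T, (2 : ℤ) ^ s = ∑ s ∈ range T, (2 : ℤ) ^ s := by
      rw [range_eq_Ico, sum_Ico_consecutive _ (Nat.zero_le _) hi, range_eq_Ico]
    rw [sum_pow_range, sum_pow_range] at h3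
    linarith
  linarith

theorem card_compl_hi {T : ℕ} (hS : S ⊆ range T) :
    #(Ico i T \ S) + #(S.filter (i ≤ ·)) = T - i := by
  have h1 : (S.filter (i ≤ ·)) = Ico i T ∩ S := by
    ext a
    simp only [mem_filter, mem_inter, mem_Ico]
    constructor
    · rintro ⟨h, h'⟩
      exact ⟨⟨h', mem_range.1 (hS h)⟩, h⟩
    · rintro ⟨⟨h, -⟩, h'⟩
      exact ⟨h', h⟩
  rw [h1, add_comm, card_inter_add_card_sdiff, Nat.card_Ico]

/-- weight (of the lower part) at most `i - 2` -/
theorem ol_of_weight_le (hR : ∑ s ∈ S.filter (i ≤ ·), (2 : ℤ) ^ s = 2 ^ i * R)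
    (hw : #(S.filter (· < i)) + 2 * l + 2 ≤ i) : OL S l (2 ^ i * (R + 1)) := by
  obtain ⟨T, hi, hS⟩ := exists_subset_range S i
  have h1 := card_compl_hi (i := i) hS
  have h2 := card_split S i
  have h3 := ol_of_compl (l := l) hS (U := Ico i T \ S)
    (sdiff_subset_sdiff (fun a ha => mem_range.2 (mem_Ico.1 ha).2) le_rfl) (by omega)
  rw [sum_compl_hi hS hi hR] at h3
  exact h3.mono (by linarith)

/-- weight at most `i - 3` -/
theorem ol_of_weight_lt (hR : ∑ s ∈ S.filter (i ≤ ·), (2 : ℤ) ^ s = 2 ^ i * R)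
    (hw : #(S.filter (· < i)) + 2 * l + 3 ≤ i) : OL S l (2 ^ i * (R + 1) - 1) := by
  obtain ⟨T, hi, hS⟩ := exists_subset_range S i
  have h1 := card_compl_hi (i := i) hS
  have h2 := card_split S i
  -- a non-element below `i`
  have h4 : ∃ u ∈ range i, u ∉ S := by
    by_contra hcon
    push Not at hcon
    have : range i ⊆ S.filter (· < i) := fun a ha => mem_filter.2 ⟨hcon a ha, mem_range.1 ha⟩
    have := card_le_card this
    rw [card_range] at this
    omega
  obtain ⟨u, hu, huS⟩ := h4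
  have hu' := mem_range.1 hu
  have huI : u ∉ Ico i T \ S := by
    rw [mem_sdiff, mem_Ico]; omega
  have h3 := ol_of_compl (l := l) hS (U := insert u (Ico i T \ S)) (by
    intro a ha
    rw [mem_insert] at ha
    rcases ha with rfl | ha
    · rw [mem_sdiff, mem_range]; exact ⟨by omega, huS⟩
    · rw [mem_sdiff, mem_Ico] at ha
      rw [mem_sdiff, mem_range]
      exact ⟨ha.1.2, ha.2⟩) (by rw [card_insert_of_notMem huI]; omega)
  rw [sum_insert huI, sum_compl_hi hS hi hR] at h3
  have : (1 : ℤ) ≤ 2 ^ u := one_le_pow₀ (by norm_num)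
  exact h3.mono (by linarith)

/-- level formula -/
theorem lam_level {v : ℕ} (hv : v < i) (hR : ∑ s ∈ S.filter (i ≤ ·), (2 : ℤ) ^ s = 2 ^ i * R) :
    (2 : ℤ) ^ v * lam v S l = 2 ^ v * (2 * l + 4 - nu S v)
      + ∑ s ∈ S.filter (fun s => v < s ∧ s < i), (2 : ℤ) ^ s + 2 ^ i * R := by
  rw [two_pow_mul_lam]
  have h1 : (#(S.filter (· ≤ v)) : ℤ) = v + 1 - nu S v := by
    have := card_filter_le_add_nu S v
    have h : ((#(S.filter (· ≤ v)) + nu S v : ℕ) : ℤ) = ((v + 1 : ℕ) : ℤ) := by rw [this]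
    push_cast at h
    linarith
  have h2 : ∑ s ∈ S.filter (v < ·), (2 : ℤ) ^ s
      = ∑ s ∈ S.filter (fun s => v < s ∧ s < i), (2 : ℤ) ^ s + ∑ s ∈ S.filter (i ≤ ·), (2 : ℤ) ^ s := by
    rw [← sum_union]
    · apply sum_congr _ (fun _ _ => rfl)
      ext a
      simp only [mem_union, mem_filter]
      constructor
      · rintro ⟨h, h'⟩
        rcases Nat.lt_or_ge a i with h2 | h2
        · exact Or.inl ⟨h, h', h2⟩
        · exact Or.inr ⟨h, h2⟩
      · rintro (⟨h, h', h2⟩ | ⟨h, h2⟩)
        · exact ⟨h, h'⟩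
        · exact ⟨h, by omega⟩
    · rw [disjoint_left]
      intro a ha hb
      rw [mem_filter] at ha hb
      omega
  rw [h1, h2, hR]
  ring

/-- value at the level `i` itself -/
theorem lam_self (hR : ∑ s ∈ S.filter (i ≤ ·), (2 : ℤ) ^ s = 2 ^ i * R) :
    lam i S l = R + #(S.filter (· < i)) + 2 * l + 3 - i := by
  have h := two_pow_mul_lam i S l
  have hpos : (0 : ℤ) < 2 ^ i := by positivity
  by_cases hi : i ∈ S
  · have e1 : S.filter (· ≤ i) = insert i (S.filter (· < i)) := by
      ext a; simp only [mem_filter, mem_insert]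
      constructor
      · rintro ⟨h, h'⟩
        rcases Nat.lt_or_ge a i with h2 | h2
        · right; exact ⟨h, h2⟩
        · left; omega
      · rintro (rfl | ⟨h, h'⟩)
        · exact ⟨hi, le_rfl⟩
        · exact ⟨h, by omega⟩
    have e2 : S.filter (i ≤ ·) = insert i (S.filter (i < ·)) := by
      ext a; simp only [mem_filter, mem_insert]
      constructor
      · rintro ⟨h, h'⟩
        rcases eq_or_lt_of_le h' with h2 | h2
        · left; exact h2.symm
        · right; exact ⟨h, h2⟩
      · rintro (rfl | ⟨h, h'⟩)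
        · exact ⟨hi, le_rfl⟩
        · exact ⟨h, by omega⟩
    rw [e2, sum_insert (by simp)] at hR
    rw [e1, card_insert_of_notMem (by simp)] at h
    push_cast at h
    have h3 : ∑ s ∈ S.filter (i < ·), (2 : ℤ) ^ s = 2 ^ i * (R - 1) := by linarith
    rw [h3, ← mul_add] at h
    have := mul_left_cancel₀ hpos.ne' h
    linarith
  · have e1 : S.filter (· ≤ i) = S.filter (· < i) := by
      apply filter_congr
      intro a ha
      have : a ≠ i := fun h => hi (h ▸ ha)
      omega
    have e2 : S.filter (i ≤ ·) = S.filter (i < ·) := by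
      apply filter_congr
      intro a ha
      have : a ≠ i := fun h => hi (h ▸ ha)
      omega
    rw [e2] at hR
    rw [e1, hR, ← mul_add] at h
    have := mul_left_cancel₀ hpos.ne' h
    linarith

/-- lower bound of the order, weight at most `i - 3` -/
theorem lt_order (hR : ∑ s ∈ S.filter (i ≤ ·), (2 : ℤ) ^ s = 2 ^ i * R)
    (hw : #(S.filter (· < i)) + 2 * l + 3 ≤ i) : ∃ v, 2 ^ i * R + 1 ≤ (2 : ℤ) ^ v * lam v S l := by
  have hi : 0 < i := by omega
  have h1 : 2 * l + 3 ≤ nu S (i - 1) := by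
    have h2 := card_filter_le_add_nu S (i - 1)
    have h3 : S.filter (· ≤ i - 1) = S.filter (· < i) := by
      apply filter_congr; intro a _; omega
    rw [h3] at h2
    omega
  have hex : ∃ v, 2 * l + 3 ≤ nu S v := ⟨_, h1⟩
  let v := Nat.find hex
  have hv1 : 2 * l + 3 ≤ nu S v := Nat.find_spec hex
  have hv2 : v ≤ i - 1 := Nat.find_min' hex h1
  have hv3 : nu S v = 2 * l + 3 := by
    rcases Nat.eq_zero_or_pos v with h0 | h0
    · rw [h0] at hv1
      have := card_filter_le_add_nu S 0
      omega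
    · have h4 := Nat.find_min hex (m := v - 1) (show v - 1 < v by omega)
      have h5 := nu_succ_le S (v - 1)
      rw [Nat.sub_add_cancel h0] at h5
      omega
  refine ⟨v, ?_⟩
  rw [lam_level (by omega) hR, hv3]
  have h6 : 0 ≤ ∑ s ∈ S.filter (fun s => v < s ∧ s < i), (2 : ℤ) ^ s :=
    sum_nonneg (fun _ _ => by positivity)
  have h7 : (1 : ℤ) ≤ 2 ^ v := one_le_pow₀ (by norm_num)
  push_cast
  linarith

/-- CLASSIFICATION of the basis elements of order `< 2^i (e+1)`, `e` odd -/
theorem classify {e : ℤ} (he : Odd e) (hR : ∑ s ∈ S.filter (i ≤ ·), (2 : ℤ) ^ s = 2 ^ i * R)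
    (h : OL S l (2 ^ i * (e + 1) - 1)) :
    OL S l (2 ^ i * e - 1) ∨ (R = e ∧ #(S.filter (· < i)) + 2 * l + 3 ≤ i) ∨
      (R = e - 1 ∧ #(S.filter (· < i)) + 2 * l + 2 = i) := by
  have hpos : (0 : ℤ) < 2 ^ i := by positivity
  have hpos1 : (1 : ℤ) ≤ 2 ^ i := one_le_pow₀ (by norm_num)
  rcases Nat.lt_trichotomy (#(S.filter (· < i)) + 2 * l + 2) i with hw | hw | hw
  · obtain ⟨v, hv⟩ := lt_order (l := l) hR (by omega)
    have h1 := h v
    have h2 : R ≤ e := by
      by_contra hcon
      push Not at hcon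
      nlinarith
    rcases eq_or_lt_of_le h2 with h3 | h3
    · right; left
      exact ⟨h3, by omega⟩
    · left
      refine (ol_of_weight_lt (l := l) hR (by omega)).mono ?_
      nlinarith
  · have h1 := h i
    rw [lam_self hR] at h1
    have h2 : (#(S.filter (· < i)) + 2 * l + 2 : ℤ) = i := by exact_mod_cast hw
    have h3 : R + 1 ≤ e := by
      by_contra hcon
      push Not at hcon
      nlinarith
    rcases eq_or_lt_of_le h3 with h4 | h4
    · right; right
      exact ⟨by linarith, hw⟩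
    · left
      refine (ol_of_weight_le (l := l) hR (by omega)).mono ?_
      nlinarith
  · left
    -- all levels `≤ i + 1` are dominated by level `i + 1`
    have h1 : nu S (i + 1 - 1) ≤ 2 * l + 2 := by
      have h2 := card_filter_le_add_nu S i
      have h3 : #(S.filter (· < i)) ≤ #(S.filter (· ≤ i)) := by
        apply card_le_card
        intro a ha
        rw [mem_filter] at ha ⊢
        exact ⟨ha.1, ha.2.le⟩
      rw [Nat.add_sub_cancel]
      omega
    have key : ∀ v, i + 1 ≤ v → (2 : ℤ) ^ v * lam v S l ≤ 2 ^ i * e - 1 := by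
      intro v hv
      obtain ⟨d, rfl⟩ := Nat.exists_eq_add_of_le hv
      have h2 := h (i + 1 + d)
      obtain ⟨m, hm⟩ := he
      have e1 : (2 : ℤ) ^ (i + 1 + d) * lam (i + 1 + d) S l
          = 2 ^ i * (2 * (2 ^ d * lam (i + 1 + d) S l)) := by
        rw [pow_add, pow_add]; ring
      rw [e1] at h2 ⊢
      set y := 2 ^ d * lam (i + 1 + d) S l with hy
      have h3 : 2 * y < e + 1 := by
        by_contra hcon
        push Not at hcon
        nlinarith
      have h4 : 2 * y ≤ e - 1 := by omega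
      nlinarith
    intro v
    by_cases hv : i + 1 ≤ v
    · exact key v hv
    · refine le_trans (lam_mono (w := i + 1) (by omega) ?_ (fun _ => h1)) (key _ le_rfl)
      rw [Nat.add_sub_cancel] at h1
      have := nu_succ_le S i
      omega

end level

end Dyn59
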