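import Pool.Agent.H.MP_d59dab.AKc
import Pool.Agent.H.MP_d59dab.Bas
import Pool.Agent.H.MP_d59dab.LDef
import Pool.Agent.H.MP_d59dab.Ord

/-!
# MP_d59dab: the general local formula
-/

set_option autoImplicit false

open Finset Polynomial

noncomputable section

namespace Dyn59

theorem sum_hi (i : ℕ) (S : Finset ℕ) :
    ∑ s ∈ S.filter (i ≤ ·), 2 ^ s = 2 ^ i * bw (hi i S) := by
  rw [← hi_map, sum_map, bw, mul_sum]
  apply sum_congr rfl
  intro s _
  rw [← pow_add]
  rfl

theorem sum_hi' (i : ℕ) (S : Finset ℕ) :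
    ∑ s ∈ S.filter (i ≤ ·), (2 : ℤ) ^ s = 2 ^ i * (bw (hi i S) : ℤ) := by
  exact_mod_cast sum_hi i S

theorem bw_lt {i : ℕ} {S : Finset ℕ} (h : ∀ s ∈ S, s < i) : bw S < 2 ^ i :=
  Nat.geomSum_lt le_rfl h

theorem bw_split (i : ℕ) (S : Finset ℕ) :
    bw S = bw (S.filter (· < i)) + 2 ^ i * bw (hi i S) := by
  rw [← sum_hi, bw, bw, ← sum_filter_add_sum_filter_not S (· < i)]
  congr 2
  ext s
  rw [mem_filter, mem_filter, not_lt]

theorem bw_lo_lt (i : ℕ) (S : Finset ℕ) : bw (S.filter (· < i)) < 2 ^ i :=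
  bw_lt (fun _ hs => (mem_filter.1 hs).2)

/-- the index sets of the own elements -/
def KK (i : ℕ) : Finset (Finset ℕ) :=
  (range i).powerset.filter (fun K => 0 ∈ K ∧ Even #K ∧ 2 ≤ #K)

theorem mem_KK {i : ℕ} {K : Finset ℕ} :
    K ∈ KK i ↔ (∀ t ∈ K, t < i) ∧ 0 ∈ K ∧ Even #K ∧ 2 ≤ #K := by
  unfold KK
  rw [mem_filter, mem_powerset]
  constructor
  · rintro ⟨h1, h2⟩
    exact ⟨fun t ht => mem_range.1 (h1 ht), h2⟩
  · rintro ⟨h1, h2⟩
    exact ⟨fun t ht => mem_range.2 (h1 t ht), h2⟩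

theorem card_lo {i : ℕ} {S K : Finset ℕ} (hK : ∀ t ∈ K, t < i) (h : K = range i \ S) :
    #(S.filter (· < i)) + #K = i := by
  have h1 : S.filter (· < i) = range i \ K := by
    ext s
    rw [mem_filter, mem_sdiff, mem_range, h, mem_sdiff, mem_range]
    tauto
  rw [h1, card_sdiff_of_subset (fun t ht => mem_range.2 (hK t ht)), card_range]
  have := card_le_card (show K ⊆ range i from fun t ht => mem_range.2 (hK t ht))
  rw [card_range] at this
  omega

section

variable {p : ℕ} [hp : Fact p.Prime] {i e : ℕ} {D : Finset ℕ}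
  {N : (ZMod p)[X][X] →ₗ[ZMod p] ZMod p}

/-- the part of `S` above `i` is determined by its value -/
theorem hi_eq_insert (h : LD p i e D N) {S : Finset ℕ} (hS : bw (hi i S) = e) :
    S.filter (i ≤ ·) = insert i D := by
  apply finset_eq_of_sum
  rw [sum_hi', hS, sum_insert (fun hc => lt_irrefl _ (h.hD i hc))]
  have := h.hDs
  have h2 : ((∑ d ∈ D, 2 ^ d + 2 ^ i : ℕ) : ℤ) = ((2 ^ i * e : ℕ) : ℤ) := by rw [this]
  push_cast at h2
  linarith

theorem hi_eq_D (h : LD p i e D N) {S : Finset ℕ} (hS : bw (hi i S) + 1 = e) :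
    S.filter (i ≤ ·) = D := by
  apply finset_eq_of_sum
  rw [sum_hi']
  have := h.hDs
  have h2 : ((∑ d ∈ D, 2 ^ d + 2 ^ i : ℕ) : ℤ) = ((2 ^ i * e : ℕ) : ℤ) := by rw [this]
  have h3 : (bw (hi i S) : ℤ) + 1 = e := by exact_mod_cast hS
  push_cast at h2
  rw [← h3] at h2
  linarith

theorem AK_mo_low (h : LD p i e D N) {S : Finset ℕ} {l : ℕ}
    (hS : OL S l (2 ^ i * e - 1)) {K : Finset ℕ} (hK : K ∈ KK i)
    (hb : bw (hi i S) ≤ e) : AK i e K (mo (ZMod p) S l) = 0 := by
  rw [mem_KK] at hK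
  rw [AK_mo h.he.pos hK.1 S l hb, if_neg]
  rintro ⟨h1, h2, h3⟩
  have h4 := hS i
  rw [lam_self (sum_hi' i S), h1] at h4
  have h5 := card_lo hK.1 h2
  have h6 : (#(S.filter (· < i)) : ℤ) + #K = i := by exact_mod_cast h5
  obtain ⟨k, hk⟩ := hK.2.2.1
  have h7 : (2 * l + 2 : ℤ) = #K := by
    have : 2 * l + 2 = #K := by have := hK.2.2.2; omega
    exact_mod_cast this
  have h8 : ((e - 1 : ℕ) : ℤ) = e - 1 := by
    have := h.he.pos
    push_cast [Nat.cast_sub (show 1 ≤ e from this)]
    ring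
  rw [h8] at h4
  have h9 : (e : ℤ) - 1 + #(S.filter (· < i)) + 2 * l + 3 - i = e := by linarith
  rw [h9] at h4
  linarith

theorem natDegree_mo_lt (S : Finset ℕ) (l : ℕ) (hb : bw (hi i S) + 1 ≤ e) :
    (mo (ZMod p) S l).natDegree < 2 ^ i * e := by
  refine (natDegree_mo_le S l).trans_lt ?_
  rw [bw_split i S]
  have h1 := bw_lo_lt i S
  have h2 : 2 ^ i * (bw (hi i S) + 1) ≤ 2 ^ i * e := Nat.mul_le_mul_left _ hb
  rw [mul_add, mul_one] at h2
  omega

theorem shape_mo (h : LD p i e D N) {S : Finset ℕ} {l : ℕ} (h0 : 0 ∉ S)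
    (hS : OL S l (2 ^ i * (e + 1) - 1)) :
    ∃ f' : (ZMod p)[X][X], f'.natDegree < 2 ^ i ∧
      (mo (ZMod p) S l - xi (ZMod p) i ^ e * f').natDegree < 2 ^ i * e ∧
      N (mo (ZMod p) S l) = N (xS (ZMod p) D * xi (ZMod p) i * f') + ∑ K ∈ KK i,
        AK i e K (mo (ZMod p) S l) * N (mo (ZMod p) (D ∪ (range i \ K)) (#K / 2 - 1)) := by
  have he0 : 0 < e := h.he.pos
  have hpos : 0 < 2 ^ i * e := by positivity
  have hpos' : (0 : ℤ) < 2 ^ i := by positivity
  have heZ : Odd (e : ℤ) := by exact_mod_cast h.he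
  rcases classify heZ (sum_hi' i S) hS with h1 | ⟨h1, h2⟩ | ⟨h1, h2⟩
  · -- low
    have h3 : bw (hi i S) + 1 ≤ e := by
      have h4 := h1 0
      rw [pow_zero, one_mul, lam_zero_eq] at h4
      have h5 : (nS S : ℤ) = bw (S.filter (· < i)) + 2 ^ i * bw (hi i S) := by
        exact_mod_cast bw_split i S
      rw [h5] at h4
      have h6 : (2 : ℤ) ^ i * bw (hi i S) < 2 ^ i * e := by
        have : (0 : ℤ) ≤ bw (S.filter (· < i)) := by positivity
        linarith
      have h7 := lt_of_mul_lt_mul_left h6 hpos'.le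
      omega
    refine ⟨0, by simp, ?_, ?_⟩
    · rw [mul_zero, sub_zero]
      exact natDegree_mo_lt S l h3
    · rw [mul_zero, map_zero, zero_add, h.hN _ (mo_mem_FQ (ZMod p) h0 h1)]
      symm
      apply sum_eq_zero
      intro K hK
      rw [AK_mo_low h h1 hK (by omega), zero_mul]
  · have h3 : bw (hi i S) = e := by exact_mod_cast h1
    have h4 := hi_eq_insert h h3
    have h5 : mo (ZMod p) S l = xS (ZMod p) D * xi (ZMod p) i
        * mo (ZMod p) (S.filter (· < i)) l := by
      unfold mo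
      have h6 : xS (ZMod p) S = xS (ZMod p) (S.filter (· < i)) * xS (ZMod p) (S.filter (i ≤ ·)) := by
        rw [← xS_union]
        · rw [filter_split]
        · exact filter_disj S i
      rw [h6, h4]
      have h7 : xS (ZMod p) (insert i D) = xi (ZMod p) i * xS (ZMod p) D :=
        prod_insert (fun hc => lt_irrefl _ (h.hD i hc))
      rw [h7]
      ring
    refine ⟨mo (ZMod p) (S.filter (· < i)) l, (natDegree_mo_le _ _).trans_lt (bw_lo_lt i S), ?_, ?_⟩
    · have h6 : mo (ZMod p) S l - xi (ZMod p) i ^ e * mo (ZMod p) (S.filter (· < i)) l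
          = (sig (ZMod p))^[i] (xS (ZMod p) (hi i S) - X ^ bw (hi i S))
            * mo (ZMod p) (S.filter (· < i)) l := by
        have h7 : (sig (ZMod p))^[i] (xS (ZMod p) (hi i S) - X ^ bw (hi i S))
            = xS (ZMod p) D * xi (ZMod p) i - xi (ZMod p) i ^ e := by
          rw [sub_eq_add_neg, sigit_add, sigit_xS, hi_map, h4, h3]
          have h8 : (sig (ZMod p))^[i] (-X ^ e) = - xi (ZMod p) i ^ e := by
            have h9 : (sig (ZMod p))^[i] (-X ^ e) + (sig (ZMod p))^[i] (X ^ e) = 0 := by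
              rw [← sigit_add, neg_add_cancel]
              have := sigit_C (R := ZMod p) i 0
              rwa [C_0] at this
            rw [sigit_pow, sigit_X] at h9
            exact eq_neg_of_add_eq_zero_left h9
          rw [h8]
          have h7 : xS (ZMod p) (insert i D) = xi (ZMod p) i * xS (ZMod p) D :=
            prod_insert (fun hc => lt_irrefl _ (h.hD i hc))
          rw [h7]
          ring
        rw [h7, h5]
        ring
      rw [h6]
      refine natDegree_sigit_mul_lt (natDegree_xS_sub (R := ZMod p) (hi i S))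
        ((natDegree_mo_le _ _).trans_lt (bw_lo_lt i S)) (by omega)
    · rw [← h5]
      have h6 : ∑ K ∈ KK i, AK i e K (mo (ZMod p) S l)
          * N (mo (ZMod p) (D ∪ (range i \ K)) (#K / 2 - 1)) = 0 := by
        apply sum_eq_zero
        intro K hK
        rw [mem_KK] at hK
        rw [AK_mo he0 hK.1 S l h3.le, if_neg (fun hc => by omega), zero_mul]
      rw [h6, add_zero]
  · have h3 : bw (hi i S) + 1 = e := by
      have : (bw (hi i S) : ℤ) + 1 = e := by linarith
      exact_mod_cast this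
    have h4 := hi_eq_D h h3
    refine ⟨0, by simp, ?_, ?_⟩
    · rw [mul_zero, sub_zero]
      exact natDegree_mo_lt S l h3.le
    · rw [mul_zero, map_zero, zero_add]
      set K0 := range i \ S with hK0
      have hK0i : ∀ t ∈ K0, t < i := fun t ht => mem_range.1 (mem_sdiff.1 ht).1
      have h5 := card_lo hK0i hK0
      have h6 : K0 ∈ KK i := by
        rw [mem_KK]
        refine ⟨hK0i, ?_, ⟨l + 1, by omega⟩, by omega⟩
        rw [hK0, mem_sdiff, mem_range]
        exact ⟨h.hi, h0⟩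
      rw [sum_eq_single K0]
      · rw [AK_mo he0 hK0i S l (by omega), if_pos ⟨by omega, rfl, by omega⟩, one_mul]
        congr 2
        · rw [hK0, ← h4]
          ext s
          rw [mem_union, mem_filter, mem_sdiff, mem_sdiff, mem_range]
          by_cases hs : s ∈ S <;> by_cases hs2 : s < i
          · simp [hs, hs2]
          · simp [hs, hs2, not_lt.1 hs2]
          · simp [hs, hs2]
          · simp [hs, hs2]
        · omega
      · intro K hK hKne
        rw [mem_KK] at hK
        rw [AK_mo he0 hK.1 S l (by omega), if_neg (fun hc => hKne hc.2.1), zero_mul]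
      · intro hc
        exact absurd h6 hc

/-- SHAPE of the elements of order `< 2^i (e+1)` -/
theorem shape (h : LD p i e D N) {f : (ZMod p)[X][X]}
    (hf : f ∈ FQ (ZMod p) (2 ^ i * (e + 1) - 1)) :
    ∃ f' : (ZMod p)[X][X], f'.natDegree < 2 ^ i ∧
      (f - xi (ZMod p) i ^ e * f').natDegree < 2 ^ i * e ∧
      N f = N (xS (ZMod p) D * xi (ZMod p) i * f') + ∑ K ∈ KK i,
        AK i e K f * N (mo (ZMod p) (D ∪ (range i \ K)) (#K / 2 - 1)) := by
  have he0 : 0 < e := h.he.pos
  have hpos : 0 < 2 ^ i * e := by positivity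
  rw [FQ_eq] at hf
  refine SP.induction (Pr := fun f => ∃ f' : (ZMod p)[X][X], f'.natDegree < 2 ^ i ∧
      (f - xi (ZMod p) i ^ e * f').natDegree < 2 ^ i * e ∧
      N f = N (xS (ZMod p) D * xi (ZMod p) i * f') + ∑ K ∈ KK i,
        AK i e K f * N (mo (ZMod p) (D ∪ (range i \ K)) (#K / 2 - 1))) ?_ ?_ ?_ ?_ hf
  · refine ⟨0, by simp, by simpa using hpos, ?_⟩
    simp [AK]
  · rintro f g ⟨f', h1, h2, h3⟩ ⟨g', h4, h5, h6⟩
    refine ⟨f' + g', ?_, ?_, ?_⟩
    · exact (natDegree_add_le _ _).trans_lt (max_lt h1 h4)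
    · have e1 : f + g - xi (ZMod p) i ^ e * (f' + g')
          = (f - xi (ZMod p) i ^ e * f') + (g - xi (ZMod p) i ^ e * g') := by ring
      rw [e1]
      exact (natDegree_add_le _ _).trans_lt (max_lt h2 h5)
    · rw [map_add, h3, h6, mul_add, map_add]
      have e2 : ∀ K, AK i e K (f + g) = AK i e K f + AK i e K g := by
        intro K
        unfold AK
        rw [mul_add, map_add, coeff_add, coeff_add]
      simp only [e2, add_mul, sum_add_distrib]
      ring
  · rintro c f ⟨f', h1, h2, h3⟩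
    refine ⟨c • f', (natDegree_smul_le _ _).trans_lt h1, ?_, ?_⟩
    · have e1 : c • f - xi (ZMod p) i ^ e * (c • f') = c • (f - xi (ZMod p) i ^ e * f') := by
        rw [smul_sub, mul_smul_comm]
      rw [e1]
      exact (natDegree_smul_le _ _).trans_lt h2
    · have e2 : ∀ K, AK i e K (c • f) = c * AK i e K f := by
        intro K
        unfold AK
        rw [mul_smul_comm, map_smul, coeff_smul, coeff_smul, smul_eq_mul]
      rw [map_smul, h3, mul_smul_comm, map_smul]
      simp only [e2, smul_eq_mul, mul_add, mul_sum, mul_assoc]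
  · intro S l hS
    exact shape_mo h hS.1 hS.2

end

end Dyn59
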