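import Pool.Agent.H.MP_d59dab.Co
import Pool.Agent.H.MP_d59dab.Ext
import Pool.Agent.H.MP_d59dab.LocA

/-!
# MP_d59dab: sums over the own elements
-/

set_option autoImplicit false

open Finset Polynomial

noncomputable section

namespace Dyn59

section

variable {p : ℕ} [hp : Fact p.Prime] {i e : ℕ} {D : Finset ℕ}
  {N : (ZMod p)[X][X] →ₗ[ZMod p] ZMod p}

theorem neg_one_mul_eta (K : Finset ℕ) :
    N (mo (ZMod p) (D ∪ (range i \ K)) (#K / 2 - 1)) = (-1) ^ (#K / 2 - 1) * eta i D N K := by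
  unfold eta
  rw [← mul_assoc, ← mul_pow, neg_one_mul, neg_neg, one_pow, one_mul]

theorem Car_mo_mem (h2 : p ≠ 2) {S : Finset ℕ} {l : ℕ} (h0 : 0 ∉ S) {M : ℤ}
    (hO : OL S l (p * M - 1)) : Car p (mo (ZMod p) S l) ∈ FQ (ZMod p) (M - 1) := by
  have hp0 : (0 : ℤ) < p := by exact_mod_cast hp.out.pos
  have h3 := Car_FQ h2 (mo_mem_FQ (ZMod p) h0 hO)
  have h4 : ((p : ℤ) * M - 1) / p = M - 1 := by
    apply le_antisymm
    · have : ((p : ℤ) * M - 1) / p < M := by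
        apply Int.ediv_lt_of_lt_mul hp0
        rw [mul_comm]
        linarith
      linarith
    · apply Int.le_ediv_of_mul_le hp0
      rw [mul_comm]
      have : (1 : ℤ) ≤ p := hp0
      linarith
  rwa [h4] at h3

theorem mo_eq_sig {E I : Finset ℕ} {l : ℕ} (hE : ∀ q ∈ E, i ≤ q) (hI : ∀ t ∈ I, t < i) :
    mo (ZMod p) (E ∪ I) l = (sig (ZMod p))^[i] (xS (ZMod p) (hi i E)) * mo (ZMod p) I l := by
  have hdis : Disjoint E I := by
    rw [disjoint_left]
    intro a h1 h3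
    have := hE a h1
    have := hI a h3
    omega
  rw [sigit_xS, hi_map, hi_union_lt hE]
  unfold mo
  rw [xS_union hdis]
  ring

theorem zero_notMem_union (h1 : 1 ≤ i) {E I : Finset ℕ} (hE : ∀ q ∈ E, i ≤ q)
    (hI : I ⊆ Ico 1 i) : 0 ∉ E ∪ I := by
  rw [mem_union]
  rintro (hc | hc)
  · have := hE 0 hc
    omega
  · have := mem_Ico.1 (hI hc)
    omega

theorem loc_sum_low (h2 : p ≠ 2) (h : LD p i e D N) {E I : Finset ℕ} {l : ℕ}
    (hR : bw (hi i E) < p * e) (hE : ∀ q ∈ E, i ≤ q) (hI : I ⊆ Ico 1 i)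
    (hO : OL (E ∪ I) l (p * (2 ^ i * (e + 1)) - 1)) :
    N (Car p (mo (ZMod p) (E ∪ I) l)) = ∑ K ∈ KK i, AK i e K (Car p (mo (ZMod p) (E ∪ I) l))
        * ((-1) ^ (#K / 2 - 1) * eta i D N K) := by
  have he0 : 0 < e := h.he.pos
  have hIlt : ∀ t ∈ I, t < i := fun t ht => (mem_Ico.1 (hI ht)).2
  have hF := Car_mo_mem h2 (zero_notMem_union h.hi hE hI) hO
  obtain ⟨f', h3, h4, h5⟩ := shape h hF
  have hg : (mo (ZMod p) I l).natDegree < 2 ^ i := (natDegree_mo_le I l).trans_lt (bw_lt hIlt)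
  have h7 := Car_low he0 hR hg
  rw [← mo_eq_sig hE hIlt] at h7
  have h8 : f' = 0 := by
    by_contra hne
    have hm := (xi_monic (ZMod p) i).1.pow e
    have h10 : (xi (ZMod p) i ^ e * f').natDegree < 2 ^ i * e := by
      have e1 : xi (ZMod p) i ^ e * f' = Car p (mo (ZMod p) (E ∪ I) l)
          - (Car p (mo (ZMod p) (E ∪ I) l) - xi (ZMod p) i ^ e * f') := by ring
      rw [e1]
      exact (natDegree_sub_le _ _).trans_lt (max_lt h7 h4)
    rw [hm.natDegree_mul' hne, (xi_monic (ZMod p) i).1.natDegree_pow, (xi_monic (ZMod p) i).2] at h10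
    have : e * 2 ^ i = 2 ^ i * e := mul_comm _ _
    omega
  rw [h5, h8, mul_zero, map_zero, zero_add]
  apply sum_congr rfl
  intro K _
  rw [neg_one_mul_eta]

theorem loc_sum (h2 : p ≠ 2) (h : LD p i e D N) {E I : Finset ℕ} {l r : ℕ} (hr : r ≤ 1)
    (hR : bw (hi i E) = p * e + r) (hE : ∀ q ∈ E, i ≤ q) (hI : I ⊆ Ico 1 i)
    (hO : OL (E ∪ I) l (p * (2 ^ i * (e + 1)) - 1)) :
    N (Car p (mo (ZMod p) (E ∪ I) l)) = Nn i D N (Car p (xi (ZMod p) i ^ r * mo (ZMod p) I l))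
      + ∑ K ∈ KK i, AK i e K (Car p (mo (ZMod p) (E ∪ I) l))
        * ((-1) ^ (#K / 2 - 1) * eta i D N K) := by
  have he0 : 0 < e := h.he.pos
  have hIlt : ∀ t ∈ I, t < i := fun t ht => (mem_Ico.1 (hI ht)).2
  have hF := Car_mo_mem h2 (zero_notMem_union h.hi hE hI) hO
  obtain ⟨f', h3, h4, h5⟩ := shape h hF
  have hg : (mo (ZMod p) I l).natDegree < 2 ^ i := (natDegree_mo_le I l).trans_lt (bw_lt hIlt)
  obtain ⟨g, h6, h7⟩ := Car_top he0 hr hR hg
  rw [← mo_eq_sig hE hIlt] at h6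
  have h8 : f' = Car p (xi (ZMod p) i ^ r * mo (ZMod p) I l) := by
    by_contra hne
    have h9 : f' - Car p (xi (ZMod p) i ^ r * mo (ZMod p) I l) ≠ 0 := sub_ne_zero.2 hne
    have hm := (xi_monic (ZMod p) i).1.pow e
    have h10 : (xi (ZMod p) i ^ e * (f' - Car p (xi (ZMod p) i ^ r * mo (ZMod p) I l))).natDegree
        < 2 ^ i * e := by
      have e1 : xi (ZMod p) i ^ e * (f' - Car p (xi (ZMod p) i ^ r * mo (ZMod p) I l))
          = g - (Car p (mo (ZMod p) (E ∪ I) l) - xi (ZMod p) i ^ e * f') := by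
        rw [h6]
        ring
      rw [e1]
      exact (natDegree_sub_le _ _).trans_lt (max_lt h7 h4)
    rw [hm.natDegree_mul' h9, (xi_monic (ZMod p) i).1.natDegree_pow, (xi_monic (ZMod p) i).2] at h10
    have : e * 2 ^ i = 2 ^ i * e := mul_comm _ _
    omega
  rw [h5, ← h8]
  congr 1
  apply sum_congr rfl
  intro K _
  rw [neg_one_mul_eta]

end

end Dyn59
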