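import Pool.Agent.H.MP_d59dab.LocA
import Pool.Agent.H.MP_d59dab.Vst

/-!
# MP_d59dab: sums of the closed forms over the own elements
-/

set_option autoImplicit false

open Finset Polynomial

noncomputable section

namespace Dyn59

section

variable {R : Type*} [Field R] {i : ℕ} {K I : Finset ℕ}

theorem dg_iff (hK : ∀ t ∈ K, t < i) : (∀ u < i, (u ∈ K ↔ u ∉ I)) ↔ K = range i \ I := by
  constructor
  · intro h
    ext u
    rw [mem_sdiff, mem_range]
    constructor
    · intro hu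
      exact ⟨hK u hu, (h u (hK u hu)).1 hu⟩
    · rintro ⟨h1, h2⟩
      exact (h u h1).2 h2
  · rintro rfl u hu
    rw [mem_sdiff, mem_range]
    tauto

theorem sgn_eq (m : ℕ) (hK : ∀ t ∈ K, t < i) (hKe : Even #K) :
    sgn R m K I i = (-1) ^ #(K.filter (· ∈ I)) := by
  unfold sgn
  have h1 : (range i).filter (· ∈ K) = K := by
    ext t; rw [mem_filter, mem_range]; exact ⟨fun h => h.2, fun h => ⟨hK t h, h⟩⟩
  have h2 : (∏ u ∈ range i, if u ∈ K then (if u ∈ I then (-1 : R) ^ (m + 1) else (-1) ^ m) else 1)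
      = ∏ u ∈ K, ((-1 : R) ^ m * (if u ∈ I then -1 else 1)) := by
    rw [← prod_filter, h1]
    apply prod_congr rfl
    intro u _
    split_ifs
    · rw [pow_succ]
    · rw [mul_one]
  rw [h2, prod_mul_distrib, prod_const, ← pow_mul, mul_comm, ← prod_filter, prod_const]
  obtain ⟨k, hk⟩ := hKe
  rw [hk, show m * (k + k) = 2 * (m * k) by ring, pow_mul (-1 : R) 2, neg_one_sq, one_pow, mul_one]

theorem compl_mem_KK (hi : 1 ≤ i) (hI : I ⊆ Ico 1 i) {k : ℕ} (hw : #I + 2 * k + 2 = i) :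
    range i \ I ∈ KK i ∧ #(range i \ I) = 2 * k + 2 := by
  have h1 : I ⊆ range i := fun t ht => mem_range.2 (mem_Ico.1 (hI ht)).2
  have h2 : #(range i \ I) = 2 * k + 2 := by
    rw [card_sdiff_of_subset h1, card_range]
    omega
  refine ⟨mem_KK.2 ⟨fun t ht => mem_range.1 (mem_sdiff.1 ht).1, ?_, ⟨k + 1, by omega⟩, by omega⟩, h2⟩
  rw [mem_sdiff, mem_range]
  refine ⟨hi, fun hc => ?_⟩
  have := (mem_Ico.1 (hI hc)).1
  omega

theorem filter_compl (I : Finset ℕ) (i : ℕ) : (range i \ I).filter (· ∈ I) = ∅ := by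
  ext u
  rw [mem_filter, mem_sdiff]
  simp only [notMem_empty, iff_false]
  tauto

/-- sum of the `c00` -/
theorem sum00 (hi : 1 ≤ i) (hI : I ⊆ Ico 1 i) {k m : ℕ} (hw : #I + 2 * k + 2 = i)
    (η : Finset ℕ → R) :
    ∑ K ∈ KK i, sgn R m K I i * (vst R K I i).c00 * ((-1) ^ (#K / 2 - 1) * η K)
      = (-1) ^ k * η (range i \ I) := by
  obtain ⟨h1, h2⟩ := compl_mem_KK hi hI hw
  rw [sum_eq_single (range i \ I)]
  · have h3 := mem_KK.1 h1
    rw [sgn_eq m h3.1 h3.2.2.1, vst_c00, if_pos ((dg_iff h3.1).2 rfl), filter_compl, card_empty,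
      pow_zero, h2, show (2 * k + 2) / 2 - 1 = k by omega]
    ring
  · intro K hK hne
    rw [vst_c00, if_neg, mul_zero, zero_mul]
    rw [dg_iff (mem_KK.1 hK).1]
    exact hne
  · exact fun hc => absurd h1 hc

/-- sum of the `c11` -/
theorem sum11 (hi : 1 ≤ i) (hI : I ⊆ Ico 1 i) {k m : ℕ} (hw : #I + 2 * k + 2 = i)
    (η : Finset ℕ → R) :
    ∑ K ∈ KK i, sgn R m K I i * (vst R K I i).c11 * ((-1) ^ (#K / 2 - 1) * η K)
      = if i - 1 ∈ I then 0 else (-1) ^ k * (1 / 2) * η (range i \ I) := by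
  obtain ⟨h1, h2⟩ := compl_mem_KK hi hI hw
  rw [sum_eq_single (range i \ I)]
  · have h3 := mem_KK.1 h1
    rw [sgn_eq m h3.1 h3.2.2.1, vst_c11, filter_compl, card_empty,
      pow_zero, h2, show (2 * k + 2) / 2 - 1 = k by omega]
    by_cases hc : i - 1 ∈ I
    · rw [if_neg, if_pos hc, mul_zero, zero_mul]
      rw [mem_sdiff]
      tauto
    · rw [if_pos, if_neg hc]
      · ring
      · refine ⟨hi, ?_, (dg_iff h3.1).2 rfl⟩
        rw [mem_sdiff, mem_range]
        exact ⟨by omega, hc⟩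
  · intro K hK hne
    rw [vst_c11, if_neg, mul_zero, zero_mul]
    rw [dg_iff (mem_KK.1 hK).1]
    exact fun h => hne h.2.2
  · exact fun hc => absurd h1 hc

theorem cond_iff {b : ℕ} (hK : ∀ t ∈ K, t < i) (hb : b + 1 < i) :
    (∀ u < i, ((u ∈ K ↔ u ∉ I) ↔ u ≠ b + 1)) ↔ K = symmDiff (range i \ I) {b + 1} := by
  constructor
  · intro h
    ext u
    rw [mem_symmDiff, mem_sdiff, mem_range, mem_singleton]
    by_cases hu : u < i
    · have := h u hu
      tauto
    · have h1 : u ∉ K := fun hc => hu (hK u hc)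
      have h2 : u ≠ b + 1 := by omega
      tauto
  · rintro rfl u hu
    rw [mem_symmDiff, mem_sdiff, mem_range, mem_singleton]
    tauto

theorem symmDiff_mem_KK {b : ℕ} (hi : 1 ≤ i) (hI : I ⊆ Ico 1 i) {k : ℕ}
    (hw : #I + 2 * k + 1 = i) (hb : b + 1 < i) (hbI : b ∉ I) :
    symmDiff (range i \ I) {b + 1} ∈ KK i ∧
      ((b + 1 ∈ I ∧ #(symmDiff (range i \ I) {b + 1}) = 2 * k + 2 ∧
        (symmDiff (range i \ I) {b + 1}).filter (· ∈ I) = {b + 1}) ∨
      (b + 1 ∉ I ∧ 1 ≤ k ∧ #(symmDiff (range i \ I) {b + 1}) = 2 * k ∧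
        (symmDiff (range i \ I) {b + 1}).filter (· ∈ I) = ∅)) := by
  have h1 : I ⊆ range i := fun t ht => mem_range.2 (mem_Ico.1 (hI ht)).2
  have h2 : #(range i \ I) = 2 * k + 1 := by
    rw [card_sdiff_of_subset h1, card_range]
    omega
  have h0 : 0 ∈ symmDiff (range i \ I) {b + 1} := by
    rw [mem_symmDiff, mem_sdiff, mem_range, mem_singleton]
    refine Or.inl ⟨⟨hi, fun hc => ?_⟩, by omega⟩
    have := (mem_Ico.1 (hI hc)).1
    omega
  have hlt : ∀ t ∈ symmDiff (range i \ I) {b + 1}, t < i := by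
    intro t ht
    rw [mem_symmDiff, mem_sdiff, mem_range, mem_singleton] at ht
    rcases ht with ⟨ht, _⟩ | ⟨rfl, _⟩
    · exact ht.1
    · exact hb
  by_cases hb1 : b + 1 ∈ I
  · have h3 : symmDiff (range i \ I) {b + 1} = insert (b + 1) (range i \ I) := by
      ext u
      rw [mem_symmDiff, mem_sdiff, mem_range, mem_singleton, mem_insert, mem_sdiff, mem_range]
      constructor
      · tauto
      · rintro (rfl | hu)
        · tauto
        · left
          refine ⟨hu, ?_⟩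
          rintro rfl
          exact hu.2 hb1
    have h4 : b + 1 ∉ range i \ I := by
      rw [mem_sdiff]; tauto
    have h5 : #(symmDiff (range i \ I) {b + 1}) = 2 * k + 2 := by
      rw [h3, card_insert_of_notMem h4, h2]
    refine ⟨mem_KK.2 ⟨hlt, h0, ⟨k + 1, by omega⟩, by omega⟩, Or.inl ⟨hb1, h5, ?_⟩⟩
    rw [h3, filter_insert, if_pos hb1, filter_compl]
    rfl
  · have h4 : b + 1 ∈ range i \ I := by
      rw [mem_sdiff, mem_range]; exact ⟨hb, hb1⟩
    have h3 : symmDiff (range i \ I) {b + 1} = (range i \ I).erase (b + 1) := by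
      ext u
      rw [mem_symmDiff, mem_singleton, mem_erase]
      constructor
      · rintro (h | ⟨rfl, h⟩)
        · exact ⟨h.2, h.1⟩
        · exact absurd h4 h
      · rintro ⟨h, h'⟩
        exact Or.inl ⟨h', h⟩
    have h5 : #(symmDiff (range i \ I) {b + 1}) = 2 * k := by
      rw [h3, card_erase_of_mem h4, h2]
      omega
    have h6 : 2 ≤ #(range i \ I) := by
      have h7 : ({b, b + 1} : Finset ℕ) ⊆ range i \ I := by
        intro u hu
        rw [mem_insert, mem_singleton] at hu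
        rcases hu with rfl | rfl
        · rw [mem_sdiff, mem_range]
          exact ⟨by omega, hbI⟩
        · exact h4
      calc 2 = #({b, b + 1} : Finset ℕ) := (card_pair (by omega)).symm
        _ ≤ _ := card_le_card h7
    refine ⟨mem_KK.2 ⟨hlt, h0, ⟨k, by omega⟩, by omega⟩, Or.inr ⟨hb1, by omega, h5, ?_⟩⟩
    rw [h3, ← subset_empty, ← filter_compl I i]
    exact filter_subset_filter _ (erase_subset _ _)

/-- sum of the `c01` -/
theorem sum01 (hi : 1 ≤ i) (hI : I ⊆ Ico 1 i) {k m : ℕ} (hw : #I + 2 * k + 1 = i)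
    (η : Finset ℕ → R) :
    ∑ K ∈ KK i, sgn R m K I i * (vst R K I i).c01 * ((-1) ^ (#K / 2 - 1) * η K)
      = -((-1) ^ k * (1 / 2) * ∑ b ∈ (range i \ I).filter (· + 1 < i),
        η (symmDiff (range i \ I) {b + 1})) := by
  have e1 : ∀ K ∈ KK i, sgn R m K I i * (vst R K I i).c01 * ((-1) ^ (#K / 2 - 1) * η K)
      = ∑ b ∈ (range i \ I).filter (· + 1 < i), if K = symmDiff (range i \ I) {b + 1} then
        -((-1) ^ k * (1 / 2) * η (symmDiff (range i \ I) {b + 1})) else 0 := by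
    intro K hK
    have hK' := mem_KK.1 hK
    rw [vst_c01, mul_sum, sum_mul]
    have e2 : (range i \ I).filter (· + 1 < i) = (range i).filter (fun b => b + 1 < i ∧ b ∉ I) := by
      ext u
      rw [mem_filter, mem_filter, mem_sdiff]
      tauto
    rw [e2, sum_filter]
    apply sum_congr rfl
    intro b _
    by_cases hb : b + 1 < i ∧ b ∉ I
    · rw [if_pos hb]
      by_cases hc : K = symmDiff (range i \ I) {b + 1}
      · rw [if_pos hc, if_pos ⟨hb.1, hb.2, (cond_iff hK'.1 hb.1).2 hc⟩, sgn_eq m hK'.1 hK'.2.2.1]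
        rcases (symmDiff_mem_KK hi hI hw hb.1 hb.2).2 with ⟨h1, h2, h3⟩ | ⟨h1, h2, h3, h4⟩
        · rw [hc, h2, h3, card_singleton, show (2 * k + 2) / 2 - 1 = k by omega]
          ring
        · rw [hc, h3, h4, card_empty]
          obtain ⟨k', rfl⟩ := Nat.exists_eq_add_of_le h2
          rw [show 2 * (1 + k') / 2 - 1 = k' by omega, pow_add]
          ring
      · rw [if_neg hc, if_neg, mul_zero, zero_mul]
        rintro ⟨h1, h2, h3⟩
        exact hc ((cond_iff hK'.1 hb.1).1 h3)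
    · rw [if_neg hb, if_neg, mul_zero, zero_mul]
      rintro ⟨h1, h2, h3⟩
      exact hb ⟨h1, h2⟩
  rw [sum_congr rfl e1, sum_comm, mul_sum, ← sum_neg_distrib]
  apply sum_congr rfl
  intro b hb
  rw [mem_filter, mem_sdiff] at hb
  rw [sum_ite_eq', if_pos (symmDiff_mem_KK hi hI hw hb.2 hb.1.2).1]

end

end Dyn59
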