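import Pool.Agent.H.MP_d59dab.LocB
import Pool.Agent.H.MP_d59dab.LocC

/-!
# MP_d59dab: the local formulas
-/

set_option autoImplicit false

open Finset Polynomial

noncomputable section

namespace Dyn59

section

variable {p : ℕ} [hp : Fact p.Prime] {i e l : ℕ} {D E I : Finset ℕ}
  {N : (ZMod p)[X][X] →ₗ[ZMod p] ZMod p}

theorem top_KK (h2 : p ≠ 2) {K : Finset ℕ} (hK : K ∈ KK i) (hI : ∀ t ∈ I, t < i) :
    Top (2 * (p * (#K / 2) : ℕ) + #I - i) (PT (R := ZMod p) (ex p K I) i)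
      ((vst (ZMod p) K I i).mul (sgn (ZMod p) ((p - 1) / 2) K I i)) := by
  have hK' := mem_KK.1 hK
  have h := top_PT h2 K I i
  rw [sum_ex hK'.1 hI] at h
  convert h using 2
  obtain ⟨k, hk⟩ := hK'.2.2.1
  rw [show #K / 2 = k by omega, hk]
  push_cast
  ring

theorem bw_of_sum (hE : ∀ q ∈ E, i ≤ q) {R : ℕ} (hR : ∑ q ∈ E, 2 ^ q = 2 ^ i * R) :
    bw (hi i E) = R := by
  have h1 := sum_hi i E
  rw [hi_union_lt hE, hR] at h1
  exact (Nat.eq_of_mul_eq_mul_left (by positivity) h1).symm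

theorem bw_of_sum' (hE : ∀ q ∈ E, i ≤ q) {R c : ℕ} (hR : ∑ q ∈ E, 2 ^ q + c * 2 ^ i = 2 ^ i * R) :
    bw (hi i E) + c = R := by
  have h1 := sum_hi i E
  rw [hi_union_lt hE] at h1
  rw [h1, mul_comm c, ← mul_add] at hR
  exact Nat.eq_of_mul_eq_mul_left (by positivity) hR

theorem filter_lt_union (hE : ∀ q ∈ E, i ≤ q) (hI : ∀ t ∈ I, t < i) :
    (E ∪ I).filter (· < i) = I := by
  ext s
  rw [mem_filter, mem_union]
  constructor
  · rintro ⟨h1 | h1, h2⟩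
    · have := hE s h1; omega
    · exact h1
  · intro h1
    exact ⟨Or.inr h1, hI s h1⟩

theorem filter_ge_union (hE : ∀ q ∈ E, i ≤ q) (hI : ∀ t ∈ I, t < i) :
    (E ∪ I).filter (i ≤ ·) = E := by
  ext s
  rw [mem_filter, mem_union]
  constructor
  · rintro ⟨h1 | h1, h2⟩
    · exact h1
    · have := hI s h1; omega
  · intro h1
    exact ⟨Or.inl h1, hE s h1⟩

theorem sum_ge_union (hE : ∀ q ∈ E, i ≤ q) (hI : ∀ t ∈ I, t < i) :
    ∑ s ∈ (E ∪ I).filter (i ≤ ·), (2 : ℤ) ^ s = 2 ^ i * (bw (hi i E) : ℤ) := by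
  rw [filter_ge_union hE hI]
  have h1 := sum_hi' i E
  rwa [hi_union_lt hE] at h1

theorem OL.to_test {S : Finset ℕ} {R : ℤ} (h : OL S l (2 ^ i * R)) (hR : R + 1 ≤ p * (e + 1)) :
    OL S l (p * (2 ^ i * (e + 1)) - 1) := by
  apply h.mono
  have h1 : (1 : ℤ) ≤ 2 ^ i := one_le_pow₀ (by norm_num)
  have h2 : (2 : ℤ) ^ i * (R + 1) ≤ 2 ^ i * (p * (e + 1)) :=
    mul_le_mul_of_nonneg_left hR (by positivity)
  linarith

/-- order of a test of weight at most `i - 2` -/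
theorem ol_test (hE : ∀ q ∈ E, i ≤ q) (hI : ∀ t ∈ I, t < i)
    (hw : #I + 2 * l + 2 ≤ i) (hR : bw (hi i E) + 2 ≤ p * (e + 1)) :
    OL (E ∪ I) l (p * (2 ^ i * (e + 1)) - 1) := by
  refine (ol_of_weight_le (sum_ge_union hE hI) ?_).to_test ?_
  · rwa [filter_lt_union hE hI]
  · have : ((bw (hi i E) + 2 : ℕ) : ℤ) ≤ ((p * (e + 1) : ℕ) : ℤ) := by exact_mod_cast hR
    push_cast at this
    linarith

/-- order of a test of weight `i - 1` -/
theorem ol_test' (hE : ∀ q ∈ E, i < q) (hI : ∀ t ∈ I, t < i)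
    (hw : #I + 2 * l + 1 = i) (hR : bw (hi i E) + 3 ≤ p * (e + 1)) :
    OL (E ∪ I) l (p * (2 ^ i * (e + 1)) - 1) := by
  have hE' : ∀ q ∈ E, i ≤ q := fun q hq => (hE q hq).le
  have hlo := filter_lt_union hE' hI
  have n1 : nu (E ∪ I) i = 2 * l + 2 := by
    have h1 := card_filter_le_add_nu (E ∪ I) i
    have h3 : (E ∪ I).filter (· ≤ i) = I := by
      ext s
      rw [mem_filter, mem_union]
      constructor
      · rintro ⟨h1 | h1, h2⟩
        · have := hE s h1; omega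
        · exact h1
      · intro h1
        exact ⟨Or.inr h1, (hI s h1).le⟩
    rw [h3] at h1
    omega
  have n2 : 1 ≤ i → nu (E ∪ I) (i - 1) ≤ 2 * l + 2 := by
    intro _
    rw [← n1]
    exact nu_mono (by omega)
  have h3 : (2 : ℤ) ^ i * lam i (E ∪ I) l = 2 ^ i * (bw (hi i E) + 2) := by
    rw [lam_self (sum_ge_union hE' hI), hlo]
    have : (#I + 2 * l + 1 : ℤ) = i := by exact_mod_cast hw
    congr 1
    linarith
  have key : ∀ v, i ≤ v → (2 : ℤ) ^ v * lam v (E ∪ I) l ≤ 2 ^ i * (bw (hi i E) + 2) := by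
    intro v hv
    induction v, hv using Nat.le_induction with
    | base => exact h3.le
    | succ v hv ih =>
      rw [lam_step]
      have h4 : nu (E ∪ I) i ≤ nu (E ∪ I) v := nu_mono hv
      rw [n1] at h4
      have h5 : (2 * l + 2 : ℤ) ≤ nu (E ∪ I) v := by exact_mod_cast h4
      have h6 : (0 : ℤ) ≤ 2 ^ v := by positivity
      nlinarith
  have h7 : OL (E ∪ I) l (2 ^ i * (bw (hi i E) + 2)) := by
    intro v
    rcases le_total i v with hv | hv
    · exact key v hv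
    · exact (lam_mono hv (by omega) (fun h => n2 (by omega))).trans h3.le
  refine h7.to_test ?_
  have : ((bw (hi i E) + 3 : ℕ) : ℤ) ≤ ((p * (e + 1) : ℕ) : ℤ) := by exact_mod_cast hR
  push_cast at this
  linarith

theorem hw_neg (h2 : p ≠ 2) {E' : Finset ℕ} (h : 2 * hw E' + 1 = p * e) :
    (hw E' : ZMod p) = -(1 / 2) := by
  have h1 : ((2 * hw E' + 1 : ℕ) : ZMod p) = 0 := by
    rw [h]; simp
  have h3 := two_ne h2
  push_cast at h1
  field_simp
  linear_combination h1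

theorem hw_pos (h2 : p ≠ 2) {E' : Finset ℕ} (h : 2 * hw E' = p * e + 1) :
    (hw E' : ZMod p) = 1 / 2 := by
  have h1 : ((2 * hw E' : ℕ) : ZMod p) = 1 := by
    rw [h]; simp
  have h3 := two_ne h2
  push_cast at h1
  field_simp
  linear_combination h1

theorem hw_of_m1 (h2 : p ≠ 2) (he : Odd e) {E' : Finset ℕ} (h : bw E' + 1 = p * e) :
    (hw E' : ZMod p) = -(1 / 2) := by
  apply hw_neg h2 (e := e)
  have h1 := bw_eq E'
  have h3 : Odd (p * e) := (hp.out.odd_of_ne_two h2).mul he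
  obtain ⟨m, hm⟩ := h3
  split_ifs at h1 <;> omega

theorem hw_of_0 (h2 : p ≠ 2) (he : Odd e) {E' : Finset ℕ} (h : bw E' = p * e) :
    (hw E' : ZMod p) = -(1 / 2) := by
  apply hw_neg h2 (e := e)
  have h1 := bw_eq E'
  have h3 : Odd (p * e) := (hp.out.odd_of_ne_two h2).mul he
  obtain ⟨m, hm⟩ := h3
  split_ifs at h1 <;> omega

theorem hw_of_1 (h2 : p ≠ 2) (he : Odd e) {E' : Finset ℕ} (h : bw E' = p * e + 1) :
    (hw E' : ZMod p) = 1 / 2 := by
  apply hw_pos h2 (e := e)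
  have h1 := bw_eq E'
  have h3 : Odd (p * e) := (hp.out.odd_of_ne_two h2).mul he
  obtain ⟨m, hm⟩ := h3
  split_ifs at h1 <;> omega

theorem mo_insert (hI : i ∉ I) : mo (ZMod p) (insert i I) l = xi (ZMod p) i * mo (ZMod p) I l := by
  unfold mo
  have h7 : xS (ZMod p) (insert i I) = xi (ZMod p) i * xS (ZMod p) I := prod_insert hI
  rw [h7]
  ring

theorem p_ge (h2 : p ≠ 2) : 3 ≤ p := by
  have := hp.out.two_le
  omega

/-- `rho = -1`, weight `i - 2` (own test) -/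
theorem loc_m1a (h2 : p ≠ 2) (h : LD p i e D N) (hE : ∀ q ∈ E, i < q) (hI : I ⊆ Ico 1 i)
    (hR : ∑ q ∈ E, 2 ^ q + 2 ^ i = 2 ^ i * (p * e)) (hw : #I + 2 * l + 2 = i) :
    N (Car p (mo (ZMod p) (E ∪ I) l)) = (-1) ^ l * eta i D N (range i \ I) := by
  have hE' : ∀ q ∈ E, i ≤ q := fun q hq => (hE q hq).le
  have hIlt : ∀ t ∈ I, t < i := fun t ht => (mem_Ico.1 (hI ht)).2
  have hb : bw (hi i E) + 1 = p * e := bw_of_sum' hE' (by rwa [one_mul])
  have hp3 := p_ge h2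
  have hpe : p * (e + 1) = p * e + p := by ring
  rw [loc_sum_low h2 h (by omega) hE' hI (ol_test hE' hIlt (by omega) (by omega)),
    ← sum00 (m := (p - 1) / 2) h.hi hI hw]
  apply sum_congr rfl
  intro K hK
  have hK' := mem_KK.1 hK
  have T := top_KK h2 hK hIlt
  rw [AKv_m1 h2 h.he hK'.1 hK'.2.2.2 hK'.2.2.1 hE' hIlt hb (by omega), T.h00 _ (by omega),
    T.bd 2 _ (by push_cast; omega), mul_zero, add_zero]
  rfl

/-- `rho = -1`, weight `i - 1` -/
theorem loc_m1b (h2 : p ≠ 2) (h : LD p i e D N) (hE : ∀ q ∈ E, i < q) (hI : I ⊆ Ico 1 i)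
    (hR : ∑ q ∈ E, 2 ^ q + 2 ^ i = 2 ^ i * (p * e)) (hw : #I + 2 * l + 1 = i) :
    N (Car p (mo (ZMod p) (E ∪ I) l))
      = (-1) ^ l * (-(1 / 2) * sh1 i (eta i D N) (range i \ I)) := by
  have hE' : ∀ q ∈ E, i ≤ q := fun q hq => (hE q hq).le
  have hIlt : ∀ t ∈ I, t < i := fun t ht => (mem_Ico.1 (hI ht)).2
  have hb : bw (hi i E) + 1 = p * e := bw_of_sum' hE' (by rwa [one_mul])
  have hp3 := p_ge h2
  have hpe : p * (e + 1) = p * e + p := by ring
  have e1 : (-1 : ZMod p) ^ l * (-(1 / 2) * sh1 i (eta i D N) (range i \ I))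
      = -((-1) ^ l * (1 / 2) * ∑ b ∈ (range i \ I).filter (· + 1 < i),
        eta i D N (symmDiff (range i \ I) {b + 1})) := by
    unfold sh1
    ring
  rw [loc_sum_low h2 h (by omega) hE' hI (ol_test' hE hIlt (by omega) (by omega)), e1,
    ← sum01 (m := (p - 1) / 2) h.hi hI hw]
  apply sum_congr rfl
  intro K hK
  have hK' := mem_KK.1 hK
  have T := top_KK h2 hK hIlt
  rw [AKv_m1 h2 h.he hK'.1 hK'.2.2.2 hK'.2.2.1 hE' hIlt hb (by omega), T.h01 _ (by omega),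
    T.bd 2 _ (by push_cast; omega), mul_zero, add_zero]
  rfl

/-- `rho = 0`, weight `≤ i - 3` -/
theorem loc_0a (h2 : p ≠ 2) (h : LD p i e D N) (hE : ∀ q ∈ E, i ≤ q) (hI : I ⊆ Ico 1 i)
    (hR : ∑ q ∈ E, 2 ^ q = 2 ^ i * (p * e)) (hw : #I + 2 * l + 3 ≤ i) :
    N (Car p (mo (ZMod p) (E ∪ I) l)) = Nn i D N (Car p (mo (ZMod p) I l)) := by
  have hIlt : ∀ t ∈ I, t < i := fun t ht => (mem_Ico.1 (hI ht)).2
  have hb : bw (hi i E) = p * e := bw_of_sum hE hR
  have hp3 := p_ge h2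
  have hpe : p * (e + 1) = p * e + p := by ring
  rw [loc_sum h2 h (r := 0) (by omega) (by omega) hE hI (ol_test hE hIlt (by omega) (by omega)),
    pow_zero, one_mul, sum_eq_zero, add_zero]
  intro K hK
  have hK' := mem_KK.1 hK
  have T := top_KK h2 hK hIlt
  rw [AKv_0 h2 h.he hK'.1 hK'.2.2.2 hK'.2.2.1 hE hIlt hb (by omega),
    T.bd 1 _ (by push_cast; omega), mul_zero, zero_mul]

/-- `rho = 0`, weight `i - 2` -/
theorem loc_0b (h2 : p ≠ 2) (h : LD p i e D N) (hE : ∀ q ∈ E, i ≤ q) (hI : I ⊆ Ico 1 i)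
    (hR : ∑ q ∈ E, 2 ^ q = 2 ^ i * (p * e)) (hw : #I + 2 * l + 2 = i) :
    N (Car p (mo (ZMod p) (E ∪ I) l)) = Nn i D N (Car p (mo (ZMod p) I l))
      + (-1) ^ l * (if i - 1 ∈ I then 0 else -(1 / 4) * eta i D N (range i \ I)) := by
  have hIlt : ∀ t ∈ I, t < i := fun t ht => (mem_Ico.1 (hI ht)).2
  have hb : bw (hi i E) = p * e := bw_of_sum hE hR
  have hp3 := p_ge h2
  have hpe : p * (e + 1) = p * e + p := by ring
  rw [loc_sum h2 h (r := 0) (by omega) (by omega) hE hI (ol_test hE hIlt (by omega) (by omega)),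
    pow_zero, one_mul]
  congr 1
  have e1 : (-1 : ZMod p) ^ l * (if i - 1 ∈ I then 0 else -(1 / 4) * eta i D N (range i \ I))
      = -(1 / 2) * (if i - 1 ∈ I then 0 else (-1) ^ l * (1 / 2) * eta i D N (range i \ I)) := by
    have h3 := two_ne h2
    split_ifs
    · simp
    · have h4 : (4 : ZMod p) = 2 * 2 := by norm_num
      rw [h4]
      field_simp
  rw [e1, ← sum11 (m := (p - 1) / 2) h.hi hI hw, mul_sum]
  apply sum_congr rfl
  intro K hK
  have hK' := mem_KK.1 hK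
  have T := top_KK h2 hK hIlt
  rw [AKv_0 h2 h.he hK'.1 hK'.2.2.2 hK'.2.2.1 hE hIlt hb (by omega), T.h11 _ (by omega),
    hw_of_0 h2 h.he hb]
  unfold St.mul
  ring

end

end Dyn59
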