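import Pool.Agent.H.MP_d59dab.LocD

/-!
# MP_d59dab: the local formulas, `rho = 1` and `rho = -3`
-/

set_option autoImplicit false

open Finset Polynomial

noncomputable section

namespace Dyn59

section

variable {p : ℕ} [hp : Fact p.Prime] {i e l : ℕ} {D E I : Finset ℕ}
  {N : (ZMod p)[X][X] →ₗ[ZMod p] ZMod p}

theorem half_mul_half (h2 : p ≠ 2) : (1 / 2 : ZMod p) * (1 / 2) = 1 / 4 := by
  have h3 := two_ne h2
  have h4 : (4 : ZMod p) = 2 * 2 := by norm_num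
  rw [h4]
  field_simp

/-- common part for `rho = 1` -/
theorem loc_1 (h2 : p ≠ 2) (h : LD p i e D N) (hE : ∀ q ∈ E, i < q) (hI : I ⊆ Ico 1 i)
    (hR : ∑ q ∈ E, 2 ^ q = 2 ^ i * (p * e + 1)) (hw : #I + 2 * l + 1 ≤ i)
    (hO : OL (E ∪ I) l (p * (2 ^ i * (e + 1)) - 1)) :
    N (Car p (mo (ZMod p) (E ∪ I) l)) = Nn i D N (Car p (mo (ZMod p) (insert i I) l))
      + ∑ K ∈ KK i, (1 / 2 * zc (PT (R := ZMod p) (ex p K I) i) 0 ((p * (#K / 2) : ℕ) - 2 - l)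
        - 1 / 8 * zc (PT (R := ZMod p) (ex p K I) i) 2 ((p * (#K / 2) : ℕ) - 3 - l))
        * ((-1) ^ (#K / 2 - 1) * eta i D N K) := by
  have hE' : ∀ q ∈ E, i ≤ q := fun q hq => (hE q hq).le
  have hIlt : ∀ t ∈ I, t < i := fun t ht => (mem_Ico.1 (hI ht)).2
  have hb : bw (hi i E) = p * e + 1 := bw_of_sum hE' hR
  rw [loc_sum h2 h (r := 1) le_rfl hb hE' hI hO, pow_one, ← mo_insert (fun hc => by
    have := hIlt i hc
    omega)]
  congr 1
  apply sum_congr rfl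
  intro K hK
  have hK' := mem_KK.1 hK
  have h3 := two_ne h2
  rw [AKv_1 h2 h.he hK'.1 hK'.2.2.2 hK'.2.2.1 hE' hIlt hb hw, choose_two_cast h3,
    hw_of_1 h2 h.he hb]
  have h8 : (8 : ZMod p) ≠ 0 := by
    have : (8 : ZMod p) = 2 ^ 3 := by norm_num
    rw [this]
    exact pow_ne_zero _ h3
  have e1 : (1 / 2 : ZMod p) * (1 / 2 - 1) / 2 = -(1 / 8) := by
    field_simp
    norm_num
  rw [e1]
  ring

/-- `rho = 1`, weight `≤ i - 5` -/
theorem loc_1a (h2 : p ≠ 2) (h : LD p i e D N) (hE : ∀ q ∈ E, i < q) (hI : I ⊆ Ico 1 i)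
    (hR : ∑ q ∈ E, 2 ^ q = 2 ^ i * (p * e + 1)) (hw : #I + 2 * l + 5 ≤ i) :
    N (Car p (mo (ZMod p) (E ∪ I) l)) = Nn i D N (Car p (mo (ZMod p) (insert i I) l)) := by
  have hE' : ∀ q ∈ E, i ≤ q := fun q hq => (hE q hq).le
  have hIlt : ∀ t ∈ I, t < i := fun t ht => (mem_Ico.1 (hI ht)).2
  have hb : bw (hi i E) = p * e + 1 := bw_of_sum hE' hR
  have hp3 := p_ge h2
  have hpe : p * (e + 1) = p * e + p := by ring
  rw [loc_1 h2 h hE hI hR (by omega) (ol_test hE' hIlt (by omega) (by omega)), sum_eq_zero,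
    add_zero]
  intro K hK
  have T := top_KK h2 hK hIlt
  rw [T.bd 0 _ (by push_cast; omega), T.bd 2 _ (by push_cast; omega)]
  ring

/-- `rho = 1`, weight `i - 4` -/
theorem loc_1b (h2 : p ≠ 2) (h : LD p i e D N) (hE : ∀ q ∈ E, i < q) (hI : I ⊆ Ico 1 i)
    (hR : ∑ q ∈ E, 2 ^ q = 2 ^ i * (p * e + 1)) (hw : #I + 2 * l + 4 = i) :
    N (Car p (mo (ZMod p) (E ∪ I) l)) = Nn i D N (Car p (mo (ZMod p) (insert i I) l))
      + (-1) ^ l * (-(1 / 2) * eta i D N (range i \ I)) := by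
  have hE' : ∀ q ∈ E, i ≤ q := fun q hq => (hE q hq).le
  have hIlt : ∀ t ∈ I, t < i := fun t ht => (mem_Ico.1 (hI ht)).2
  have hb : bw (hi i E) = p * e + 1 := bw_of_sum hE' hR
  have hp3 := p_ge h2
  have hpe : p * (e + 1) = p * e + p := by ring
  rw [loc_1 h2 h hE hI hR (by omega) (ol_test hE' hIlt (by omega) (by omega))]
  congr 1
  have e1 : (-1 : ZMod p) ^ l * (-(1 / 2) * eta i D N (range i \ I))
      = 1 / 2 * ((-1) ^ (l + 1) * eta i D N (range i \ I)) := by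
    rw [pow_succ]
    ring
  rw [e1, ← sum00 (m := (p - 1) / 2) (k := l + 1) h.hi hI (by omega), mul_sum]
  apply sum_congr rfl
  intro K hK
  have T := top_KK h2 hK hIlt
  rw [T.h00 _ (by omega), T.bd 2 _ (by push_cast; omega)]
  unfold St.mul
  ring

/-- `rho = 1`, weight `i - 3` -/
theorem loc_1c (h2 : p ≠ 2) (h : LD p i e D N) (hE : ∀ q ∈ E, i < q) (hI : I ⊆ Ico 1 i)
    (hR : ∑ q ∈ E, 2 ^ q = 2 ^ i * (p * e + 1)) (hw : #I + 2 * l + 3 = i) :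
    N (Car p (mo (ZMod p) (E ∪ I) l)) = Nn i D N (Car p (mo (ZMod p) (insert i I) l))
      + (-1) ^ l * (1 / 4 * sh1 i (eta i D N) (range i \ I)) := by
  have hE' : ∀ q ∈ E, i ≤ q := fun q hq => (hE q hq).le
  have hIlt : ∀ t ∈ I, t < i := fun t ht => (mem_Ico.1 (hI ht)).2
  have hb : bw (hi i E) = p * e + 1 := bw_of_sum hE' hR
  have hp3 := p_ge h2
  have hpe : p * (e + 1) = p * e + p := by ring
  rw [loc_1 h2 h hE hI hR (by omega) (ol_test hE' hIlt (by omega) (by omega))]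
  congr 1
  have e1 : (-1 : ZMod p) ^ l * (1 / 4 * sh1 i (eta i D N) (range i \ I))
      = 1 / 2 * -((-1) ^ (l + 1) * (1 / 2) * ∑ b ∈ (range i \ I).filter (· + 1 < i),
        eta i D N (symmDiff (range i \ I) {b + 1})) := by
    rw [pow_succ, ← half_mul_half h2]
    unfold sh1
    ring
  rw [e1, ← sum01 (m := (p - 1) / 2) (k := l + 1) h.hi hI (by omega), mul_sum]
  apply sum_congr rfl
  intro K hK
  have T := top_KK h2 hK hIlt
  rw [T.h01 _ (by omega), T.bd 2 _ (by push_cast; omega)]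
  unfold St.mul
  ring

/-- `rho = -3`, weight `i` (used for `p = 11`, `E = {i+3}`, `e = 1`) -/
theorem loc_m3 (h2 : p ≠ 2) (h : LD p i e D N) (hE : ∀ q ∈ E, i < q) (hI : I ⊆ Ico 1 i)
    (hR : ∑ q ∈ E, 2 ^ q + 3 * 2 ^ i = 2 ^ i * (p * e)) (hw : #I + 2 * l = i)
    (hO : OL (E ∪ I) l (2 ^ i * (p * (e + 1)) - 1)) :
    N (Car p (mo (ZMod p) (E ∪ I) l)) = 0 := by
  have hE' : ∀ q ∈ E, i ≤ q := fun q hq => (hE q hq).le
  have hIlt : ∀ t ∈ I, t < i := fun t ht => (mem_Ico.1 (hI ht)).2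
  have hb : bw (hi i E) + 3 = p * e := bw_of_sum' hE' hR
  have hO' : OL (E ∪ I) l (p * (2 ^ i * (e + 1)) - 1) := by
    apply hO.mono
    linarith
  rw [loc_sum_low h2 h (by omega) hE' hI hO', sum_eq_zero]
  intro K hK
  have hK' := mem_KK.1 hK
  rw [AKv_m3 h2 h.he hK'.1 hK'.2.2.2 hK'.2.2.1 hE' hIlt hb.le hw.le, zero_mul]

end

end Dyn59
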