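import Pool.Agent.H.MP_d59dab.LocC

/-!
# MP_d59dab: the special values `V_2`
-/

set_option autoImplicit false

open Finset Polynomial

noncomputable section

namespace Dyn59

section

variable {R : Type*} [Field R]

open Classical in
theorem vst01 (h2 : (2 : R) ≠ 0) {K I : Finset ℕ} {i : ℕ} (h0 : 0 ∈ K)
    (hI : ∀ u < i, (u ∈ I ↔ 2 ≤ u)) (t : ℕ) (ht : 4 ≤ t) (hti : t ≤ i) :
    (vst R K I t).c11 = 0 ∧ (vst R K I t).c12 = 0 ∧ (vst R K I t).c22 = 0 ∧
      (vst R K I t).c02 = if ∀ u, 4 ≤ u → u < t → u ∉ K then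
        (if 1 ∈ K ∧ 2 ∉ K ∧ 3 ∉ K then -(3 / 4) else if 1 ∈ K ∧ 2 ∈ K ∧ 3 ∈ K then -(1 / 4) else 0)
        else 0 := by
  have h4 : (4 : R) ≠ 0 := by
    have : (4 : R) = 2 ^ 2 := by norm_num
    rw [this]; exact pow_ne_zero _ h2
  have h8 : (8 : R) ≠ 0 := by
    have : (8 : R) = 2 ^ 3 := by norm_num
    rw [this]; exact pow_ne_zero _ h2
  induction t, ht using Nat.le_induction with
  | base =>
    have i0 : 0 ∉ I := by rw [hI 0 (by omega)]; omega
    have i1 : 1 ∉ I := by rw [hI 1 (by omega)]; omega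
    have i2 : 2 ∈ I := by rw [hI 2 (by omega)]
    have i3 : 3 ∈ I := by rw [hI 3 (by omega)]; omega
    have hA : (∀ u, 4 ≤ u → u < 4 → u ∉ K) := fun u h h' => by omega
    rw [if_pos hA]
    by_cases k1 : 1 ∈ K <;> by_cases k2 : 2 ∈ K <;> by_cases k3 : 3 ∈ K <;>
      simp [vst, h0, i0, i1, i2, i3, k1, k2, k3] <;> field_simp <;> norm_num
  | succ t ht ih =>
    obtain ⟨j1, j2, j3, j4⟩ := ih (by omega)
    have it : t ∈ I := by rw [hI t (by omega)]; omega
    by_cases hk : t ∈ K
    · have hA : ¬ (∀ u, 4 ≤ u → u < t + 1 → u ∉ K) := fun h => h t ht (by omega) hk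
      rw [if_neg hA]
      simp [vst, hk, it, j1, j2]
    · have hA : (∀ u, 4 ≤ u → u < t + 1 → u ∉ K) ↔ (∀ u, 4 ≤ u → u < t → u ∉ K) := by
        constructor
        · intro h u h1 h3
          exact h u h1 (by omega)
        · intro h u h1 h3
          rcases Nat.lt_succ_iff_lt_or_eq.1 h3 with h5 | h5
          · exact h u h1 h5
          · subst h5; exact hk
      rw [if_congr hA rfl rfl, ← j4]
      simp [vst, hk, it, j3]

open Classical in
theorem vst02 (h2 : (2 : R) ≠ 0) {K I : Finset ℕ} {i : ℕ} (h0 : 0 ∈ K)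
    (hI : ∀ u < i, (u ∈ I ↔ u = 1 ∨ 3 ≤ u)) (t : ℕ) (ht : 5 ≤ t) (hti : t ≤ i) :
    (vst R K I t).c11 = 0 ∧ (vst R K I t).c12 = 0 ∧ (vst R K I t).c22 = 0 ∧
      (vst R K I t).c02 = if ∀ u, 5 ≤ u → u < t → u ∉ K then
        (if 1 ∉ K ∧ 2 ∈ K ∧ 3 ∉ K ∧ 4 ∉ K then -(3 / 4)
          else if 1 ∈ K ∧ 2 ∉ K ∧ 3 ∉ K ∧ 4 ∉ K then -(1 / 4)
          else if 1 ∈ K ∧ 2 ∈ K ∧ 3 ∈ K ∧ 4 ∉ K then 1 / 4
          else if 1 ∉ K ∧ 2 ∈ K ∧ 3 ∈ K ∧ 4 ∈ K then -(1 / 4) else 0)
        else 0 := by
  have h4 : (4 : R) ≠ 0 := by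
    have : (4 : R) = 2 ^ 2 := by norm_num
    rw [this]; exact pow_ne_zero _ h2
  have h8 : (8 : R) ≠ 0 := by
    have : (8 : R) = 2 ^ 3 := by norm_num
    rw [this]; exact pow_ne_zero _ h2
  induction t, ht using Nat.le_induction with
  | base =>
    have i0 : 0 ∉ I := by rw [hI 0 (by omega)]; omega
    have i1 : 1 ∈ I := by rw [hI 1 (by omega)]; omega
    have i2 : 2 ∉ I := by rw [hI 2 (by omega)]; omega
    have i3 : 3 ∈ I := by rw [hI 3 (by omega)]; omega
    have i4 : 4 ∈ I := by rw [hI 4 (by omega)]; omega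
    have hA : (∀ u, 5 ≤ u → u < 5 → u ∉ K) := fun u h h' => by omega
    rw [if_pos hA]
    by_cases k1 : 1 ∈ K <;> by_cases k2 : 2 ∈ K <;> by_cases k3 : 3 ∈ K <;> by_cases k4 : 4 ∈ K <;>
      simp [vst, h0, i0, i1, i2, i3, i4, k1, k2, k3, k4] <;> field_simp <;> norm_num
  | succ t ht ih =>
    obtain ⟨j1, j2, j3, j4⟩ := ih (by omega)
    have it : t ∈ I := by rw [hI t (by omega)]; omega
    by_cases hk : t ∈ K
    · have hA : ¬ (∀ u, 5 ≤ u → u < t + 1 → u ∉ K) := fun h => h t ht (by omega) hk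
      rw [if_neg hA]
      simp [vst, hk, it, j1, j2]
    · have hA : (∀ u, 5 ≤ u → u < t + 1 → u ∉ K) ↔ (∀ u, 5 ≤ u → u < t → u ∉ K) := by
        constructor
        · intro h u h1 h3
          exact h u h1 (by omega)
        · intro h u h1 h3
          rcases Nat.lt_succ_iff_lt_or_eq.1 h3 with h5 | h5
          · exact h u h1 h5
          · subst h5; exact hk
      rw [if_congr hA rfl rfl, ← j4]
      simp [vst, hk, it, j3]

theorem KK_two : KK 2 = {{0, 1}} := by decide

theorem KK_three : KK 3 = {{0, 1}, {0, 2}} := by decide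

theorem KK_four : KK 4 = {{0, 1}, {0, 2}, {0, 3}, {0, 1, 2, 3}} := by decide

theorem mem_KK_01 {i : ℕ} (hi : 2 ≤ i) : ({0, 1} : Finset ℕ) ∈ KK i := by
  rw [mem_KK]
  refine ⟨?_, by decide, by decide, by decide⟩
  intro t ht
  simp only [mem_insert, mem_singleton] at ht
  omega

theorem mem_KK_02 {i : ℕ} (hi : 3 ≤ i) : ({0, 2} : Finset ℕ) ∈ KK i := by
  rw [mem_KK]
  refine ⟨?_, by decide, by decide, by decide⟩
  intro t ht
  simp only [mem_insert, mem_singleton] at ht
  omega

theorem mem_KK_0123 {i : ℕ} (hi : 4 ≤ i) : ({0, 1, 2, 3} : Finset ℕ) ∈ KK i := by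
  rw [mem_KK]
  refine ⟨?_, by decide, by decide, by decide⟩
  intro t ht
  simp only [mem_insert, mem_singleton] at ht
  omega

theorem mem_KK_0234 {i : ℕ} (hi : 5 ≤ i) : ({0, 2, 3, 4} : Finset ℕ) ∈ KK i := by
  rw [mem_KK]
  refine ⟨?_, by decide, by decide, by decide⟩
  intro t ht
  simp only [mem_insert, mem_singleton] at ht
  omega

theorem sumd4 (h2 : (2 : R) ≠ 0) {i m : ℕ} (hi : 4 ≤ i) (η : Finset ℕ → R) :
    ∑ K ∈ KK i, (1 / 2 * (sgn R m K (Ico 2 i) i * (vst R K (Ico 2 i) i).c02)
      - 1 / 8 * (sgn R m K (Ico 2 i) i * (vst R K (Ico 2 i) i).c22))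
        * ((-1) ^ (#K / 2 - 1) * η K) = -(3 / 8) * η {0, 1} + 1 / 8 * η {0, 1, 2, 3} := by
  classical
  have h4 : (4 : R) ≠ 0 := by
    have : (4 : R) = 2 ^ 2 := by norm_num
    rw [this]; exact pow_ne_zero _ h2
  have h8 : (8 : R) ≠ 0 := by
    have : (8 : R) = 2 ^ 3 := by norm_num
    rw [this]; exact pow_ne_zero _ h2
  have hI : ∀ u < i, (u ∈ Ico 2 i ↔ 2 ≤ u) := fun u hu => by rw [mem_Ico]; omega
  have hsub : ({{0, 1}, {0, 1, 2, 3}} : Finset (Finset ℕ)) ⊆ KK i := by
    intro K hK
    rw [mem_insert, mem_singleton] at hK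
    rcases hK with rfl | rfl
    · exact mem_KK_01 (by omega)
    · exact mem_KK_0123 hi
  rw [← sum_subset hsub, sum_insert (by decide), sum_singleton]
  · have a1 := vst01 h2 (K := {0, 1}) (I := Ico 2 i) (i := i) (by decide) hI i hi le_rfl
    have a2 := vst01 h2 (K := {0, 1, 2, 3}) (I := Ico 2 i) (i := i) (by decide) hI i hi le_rfl
    have m1 := mem_KK.1 (mem_KK_01 (i := i) (by omega))
    have m2 := mem_KK.1 (mem_KK_0123 hi)
    rw [if_pos (fun u hu _ => by
      simp only [mem_insert, mem_singleton]; omega), if_pos (by decide)] at a1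
    rw [if_pos (fun u hu _ => by
      simp only [mem_insert, mem_singleton]; omega), if_neg (by decide), if_pos (by decide)] at a2
    have f1 : ({0, 1} : Finset ℕ).filter (· ∈ Ico 2 i) = ∅ := by
      ext u
      simp only [mem_filter, mem_insert, mem_singleton, mem_Ico, notMem_empty, iff_false]
      omega
    have f2 : ({0, 1, 2, 3} : Finset ℕ).filter (· ∈ Ico 2 i) = {2, 3} := by
      ext u
      simp only [mem_filter, mem_insert, mem_singleton, mem_Ico]
      omega
    rw [sgn_eq m m1.1 m1.2.2.1, sgn_eq m m2.1 m2.2.2.1, a1.2.2.1, a1.2.2.2, a2.2.2.1, a2.2.2.2,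
      f1, f2, show #(∅ : Finset ℕ) = 0 from rfl, show #({2, 3} : Finset ℕ) = 2 from rfl,
      show #({0, 1} : Finset ℕ) = 2 from rfl, show #({0, 1, 2, 3} : Finset ℕ) = 4 from rfl]
    norm_num
    field_simp
    ring
  · intro K hK hK'
    have m1 := mem_KK.1 hK
    obtain ⟨-, -, a3, a4⟩ := vst01 h2 (K := K) (I := Ico 2 i) (i := i) m1.2.1 hI i hi le_rfl
    have a5 : (vst R K (Ico 2 i) i).c02 = 0 := by
      rw [a4]
      split_ifs with b1 b2 b3
      · exfalso
        apply hK'
        rw [mem_insert]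
        left
        ext u
        rw [mem_insert, mem_singleton]
        constructor
        · intro hu
          by_contra hc
          have hui := m1.1 u hu
          rcases Nat.lt_or_ge u 4 with h | h
          · have : u = 2 ∨ u = 3 := by omega
            rcases this with rfl | rfl
            · exact b2.2.1 hu
            · exact b2.2.2 hu
          · exact b1 u h hui hu
        · rintro (rfl | rfl)
          · exact m1.2.1
          · exact b2.1
      · exfalso
        apply hK'
        rw [mem_insert, mem_singleton]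
        right
        ext u
        simp only [mem_insert, mem_singleton]
        constructor
        · intro hu
          by_contra hc
          have hui := m1.1 u hu
          exact b1 u (by omega) hui hu
        · rintro (rfl | rfl | rfl | rfl)
          · exact m1.2.1
          · exact b3.1
          · exact b3.2.1
          · exact b3.2.2
      · rfl
      · rfl
    rw [a3, a5]
    ring

theorem sumd2 (h2 : (2 : R) ≠ 0) {m : ℕ} (η : Finset ℕ → R) :
    ∑ K ∈ KK 2, (1 / 2 * (sgn R m K (Ico 2 2) 2 * (vst R K (Ico 2 2) 2).c02)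
      - 1 / 8 * (sgn R m K (Ico 2 2) 2 * (vst R K (Ico 2 2) 2).c22))
        * ((-1) ^ (#K / 2 - 1) * η K) = -(15 / 64) * η {0, 1} := by
  have h8 : (8 : R) ≠ 0 := by
    have : (8 : R) = 2 ^ 3 := by norm_num
    rw [this]; exact pow_ne_zero _ h2
  have h64 : (64 : R) ≠ 0 := by
    have : (64 : R) = 2 ^ 6 := by norm_num
    rw [this]; exact pow_ne_zero _ h2
  have m1 := mem_KK.1 (mem_KK_01 (i := 2) le_rfl)
  rw [KK_two, sum_singleton, sgn_eq m m1.1 m1.2.2.1]
  simp [vst]
  field_simp
  ring

theorem sumd3 (h2 : (2 : R) ≠ 0) {m : ℕ} (η : Finset ℕ → R) :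
    ∑ K ∈ KK 3, (1 / 2 * (sgn R m K (Ico 2 3) 3 * (vst R K (Ico 2 3) 3).c02)
      - 1 / 8 * (sgn R m K (Ico 2 3) 3 * (vst R K (Ico 2 3) 3).c22))
        * ((-1) ^ (#K / 2 - 1) * η K) = -(3 / 8) * η {0, 1} := by
  have h4 : (4 : R) ≠ 0 := by
    have : (4 : R) = 2 ^ 2 := by norm_num
    rw [this]; exact pow_ne_zero _ h2
  have h8 : (8 : R) ≠ 0 := by
    have : (8 : R) = 2 ^ 3 := by norm_num
    rw [this]; exact pow_ne_zero _ h2
  have m1 := mem_KK.1 (mem_KK_01 (i := 3) (by omega))
  have m2 := mem_KK.1 (mem_KK_02 (i := 3) le_rfl)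
  have f1 : ({0, 1} : Finset ℕ).filter (· ∈ Ico 2 3) = ∅ := by decide
  rw [KK_three, sum_insert (by decide), sum_singleton, sgn_eq m m1.1 m1.2.2.1,
    sgn_eq m m2.1 m2.2.2.1, f1]
  have v1 : vst R {0, 1} (Ico 2 3) 3 = ⟨1, 0, -(3 / 4), 0, 0, 0⟩ := by
    ext <;> simp [vst]
    field_simp
    norm_num
  have v2 : vst R {0, 2} (Ico 2 3) 3 = ⟨0, 0, 0, 0, 0, 0⟩ := by
    ext <;> simp [vst]
  rw [v1, v2, show #(∅ : Finset ℕ) = 0 from rfl, show #({0, 1} : Finset ℕ) = 2 from rfl]
  norm_num
  field_simp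
  norm_num

theorem sume (h2 : (2 : R) ≠ 0) {i m : ℕ} (hi : 4 ≤ i) (η : Finset ℕ → R) :
    ∑ K ∈ KK i, (1 / 2 * (sgn R m K (insert 1 (Ico 3 i)) i * (vst R K (insert 1 (Ico 3 i)) i).c02)
      - 1 / 8 * (sgn R m K (insert 1 (Ico 3 i)) i * (vst R K (insert 1 (Ico 3 i)) i).c22))
        * ((-1) ^ (#K / 2 - 1) * η K)
      = -(3 / 8) * η {0, 2} + 1 / 8 * η {0, 1} - 1 / 8 * η {0, 1, 2, 3} +
        (if 5 ≤ i then 1 / 8 * η {0, 2, 3, 4} else 0) := by
  classical
  have h4 : (4 : R) ≠ 0 := by
    have : (4 : R) = 2 ^ 2 := by norm_num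
    rw [this]; exact pow_ne_zero _ h2
  have h8 : (8 : R) ≠ 0 := by
    have : (8 : R) = 2 ^ 3 := by norm_num
    rw [this]; exact pow_ne_zero _ h2
  have hI : ∀ u < i, (u ∈ insert 1 (Ico 3 i) ↔ u = 1 ∨ 3 ≤ u) := fun u hu => by
    rw [mem_insert, mem_Ico]; omega
  have m1 := mem_KK.1 (mem_KK_01 (i := i) (by omega))
  have m2 := mem_KK.1 (mem_KK_02 (i := i) (by omega))
  have m3 := mem_KK.1 (mem_KK_0123 hi)
  have f1 : ({0, 1} : Finset ℕ).filter (· ∈ insert 1 (Ico 3 i)) = {1} := by
    ext u
    simp only [mem_filter, mem_insert, mem_singleton, mem_Ico]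
    omega
  have f2 : ({0, 2} : Finset ℕ).filter (· ∈ insert 1 (Ico 3 i)) = ∅ := by
    ext u
    simp only [mem_filter, mem_insert, mem_singleton, mem_Ico, notMem_empty, iff_false]
    omega
  have f3 : ({0, 1, 2, 3} : Finset ℕ).filter (· ∈ insert 1 (Ico 3 i)) = {1, 3} := by
    ext u
    simp only [mem_filter, mem_insert, mem_singleton, mem_Ico]
    omega
  rcases Nat.lt_or_ge i 5 with h5 | h5
  · have hi4 : i = 4 := by omega
    subst hi4
    rw [if_neg (by omega), KK_four, sum_insert (by decide), sum_insert (by decide),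
      sum_insert (by decide), sum_singleton, sgn_eq m m1.1 m1.2.2.1, sgn_eq m m2.1 m2.2.2.1,
      sgn_eq m m3.1 m3.2.2.1, f1, f2, f3]
    have v1 : vst R {0, 1} (insert 1 (Ico 3 4)) 4 = ⟨0, 0, -(1 / 4), 0, 0, 0⟩ := by
      ext <;> simp [vst]
      field_simp
      norm_num
    have v2 : vst R {0, 2} (insert 1 (Ico 3 4)) 4 = ⟨1, 0, -(3 / 4), 0, 0, 0⟩ := by
      ext <;> simp [vst]
      field_simp
      norm_num
    have v3 : vst R {0, 3} (insert 1 (Ico 3 4)) 4 = ⟨0, 0, 0, 0, 0, 0⟩ := by
      ext <;> simp [vst]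
    have v4 : vst R {0, 1, 2, 3} (insert 1 (Ico 3 4)) 4 = ⟨0, 0, 1 / 4, 0, 0, 0⟩ := by
      ext <;> simp [vst]
      field_simp
      norm_num
    rw [v1, v2, v3, v4, show #(∅ : Finset ℕ) = 0 from rfl, show #({1} : Finset ℕ) = 1 from rfl,
      show #({1, 3} : Finset ℕ) = 2 from rfl, show #({0, 1} : Finset ℕ) = 2 from rfl,
      show #({0, 2} : Finset ℕ) = 2 from rfl, show #({0, 1, 2, 3} : Finset ℕ) = 4 from rfl]
    norm_num
    field_simp
    ring
  · rw [if_pos h5]
    have m4 := mem_KK.1 (mem_KK_0234 h5)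
    have f4 : ({0, 2, 3, 4} : Finset ℕ).filter (· ∈ insert 1 (Ico 3 i)) = {3, 4} := by
      ext u
      simp only [mem_filter, mem_insert, mem_singleton, mem_Ico]
      omega
    have hsub : ({{0, 1}, {0, 2}, {0, 1, 2, 3}, {0, 2, 3, 4}} : Finset (Finset ℕ)) ⊆ KK i := by
      intro K hK
      simp only [mem_insert, mem_singleton] at hK
      rcases hK with rfl | rfl | rfl | rfl
      · exact mem_KK_01 (by omega)
      · exact mem_KK_02 (by omega)
      · exact mem_KK_0123 hi
      · exact mem_KK_0234 h5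
    rw [← sum_subset hsub, sum_insert (by decide), sum_insert (by decide), sum_insert (by decide),
      sum_singleton]
    · have a1 := vst02 h2 (K := {0, 1}) (I := insert 1 (Ico 3 i)) (i := i) (by decide) hI i h5 le_rfl
      have a2 := vst02 h2 (K := {0, 2}) (I := insert 1 (Ico 3 i)) (i := i) (by decide) hI i h5 le_rfl
      have a3 := vst02 h2 (K := {0, 1, 2, 3}) (I := insert 1 (Ico 3 i)) (i := i) (by decide)
        hI i h5 le_rfl
      have a4 := vst02 h2 (K := {0, 2, 3, 4}) (I := insert 1 (Ico 3 i)) (i := i) (by decide)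
        hI i h5 le_rfl
      rw [if_pos (fun u hu _ => by simp only [mem_insert, mem_singleton]; omega),
        if_neg (by decide), if_pos (by decide)] at a1
      rw [if_pos (fun u hu _ => by simp only [mem_insert, mem_singleton]; omega),
        if_pos (by decide)] at a2
      rw [if_pos (fun u hu _ => by simp only [mem_insert, mem_singleton]; omega),
        if_neg (by decide), if_neg (by decide), if_pos (by decide)] at a3
      rw [if_pos (fun u hu _ => by simp only [mem_insert, mem_singleton]; omega),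
        if_neg (by decide), if_neg (by decide), if_neg (by decide), if_pos (by decide)] at a4
      rw [sgn_eq m m1.1 m1.2.2.1, sgn_eq m m2.1 m2.2.2.1, sgn_eq m m3.1 m3.2.2.1,
        sgn_eq m m4.1 m4.2.2.1, f1, f2, f3, f4, a1.2.2.1, a1.2.2.2, a2.2.2.1, a2.2.2.2,
        a3.2.2.1, a3.2.2.2, a4.2.2.1, a4.2.2.2, show #(∅ : Finset ℕ) = 0 from rfl,
        show #({1} : Finset ℕ) = 1 from rfl, show #({3, 4} : Finset ℕ) = 2 from rfl,
        show #({1, 3} : Finset ℕ) = 2 from rfl, show #({0, 1} : Finset ℕ) = 2 from rfl,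
        show #({0, 2} : Finset ℕ) = 2 from rfl, show #({0, 1, 2, 3} : Finset ℕ) = 4 from rfl,
        show #({0, 2, 3, 4} : Finset ℕ) = 4 from rfl]
      norm_num
      field_simp
      ring
    · intro K hK hK'
      have m5 := mem_KK.1 hK
      obtain ⟨-, -, a3, a4⟩ := vst02 h2 (K := K) (I := insert 1 (Ico 3 i)) (i := i) m5.2.1 hI i
        h5 le_rfl
      have a5 : (vst R K (insert 1 (Ico 3 i)) i).c02 = 0 := by
        rw [a4]
        simp only [mem_insert, mem_singleton, not_or] at hK'
        obtain ⟨n1, n2, n3, n4⟩ := hK'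
        split_ifs with b1 b2 b3 b4 b6
        · exfalso
          apply n2
          ext u
          simp only [mem_insert, mem_singleton]
          constructor
          · intro hu
            by_contra hc
            have hui := m5.1 u hu
            rcases Nat.lt_or_ge u 5 with h | h
            · have : u = 1 ∨ u = 3 ∨ u = 4 := by omega
              rcases this with rfl | rfl | rfl <;> tauto
            · exact b1 u h hui hu
          · rintro (rfl | rfl)
            · exact m5.2.1
            · exact b2.2.1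
        · exfalso
          apply n1
          ext u
          simp only [mem_insert, mem_singleton]
          constructor
          · intro hu
            by_contra hc
            have hui := m5.1 u hu
            rcases Nat.lt_or_ge u 5 with h | h
            · have : u = 2 ∨ u = 3 ∨ u = 4 := by omega
              rcases this with rfl | rfl | rfl <;> tauto
            · exact b1 u h hui hu
          · rintro (rfl | rfl)
            · exact m5.2.1
            · exact b3.1
        · exfalso
          apply n3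
          ext u
          simp only [mem_insert, mem_singleton]
          constructor
          · intro hu
            by_contra hc
            have hui := m5.1 u hu
            rcases Nat.lt_or_ge u 5 with h | h
            · have : u = 4 := by omega
              subst this
              tauto
            · exact b1 u h hui hu
          · rintro (rfl | rfl | rfl | rfl)
            · exact m5.2.1
            · exact b4.1
            · exact b4.2.1
            · exact b4.2.2.1
        · exfalso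
          apply n4
          ext u
          simp only [mem_insert, mem_singleton]
          constructor
          · intro hu
            by_contra hc
            have hui := m5.1 u hu
            rcases Nat.lt_or_ge u 5 with h | h
            · have : u = 1 := by omega
              subst this
              tauto
            · exact b1 u h hui hu
          · rintro (rfl | rfl | rfl | rfl)
            · exact m5.2.1
            · exact b6.2.1
            · exact b6.2.2.1
            · exact b6.2.2.2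
        · rfl
        · rfl
      rw [a3, a5]
      ring

end

end Dyn59
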