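import Pool.Agent.H.MP_d59dab.LocE
import Pool.Agent.H.MP_d59dab.LocF

/-!
# MP_d59dab: local formulas, the special values
-/

set_option autoImplicit false

open Finset Polynomial

noncomputable section

namespace Dyn59

section

variable {p : ℕ} [hp : Fact p.Prime] {i e l : ℕ} {D E I : Finset ℕ}
  {N : (ZMod p)[X][X] →ₗ[ZMod p] ZMod p}

/-- `rho = 1`, weight `i - 2` -/
theorem loc_1x (h2 : p ≠ 2) (h : LD p i e D N) (hE : ∀ q ∈ E, i < q) (hI : I ⊆ Ico 1 i)
    (hR : ∑ q ∈ E, 2 ^ q = 2 ^ i * (p * e + 1)) (hw : #I + 2 * l + 2 = i) :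
    N (Car p (mo (ZMod p) (E ∪ I) l)) = Nn i D N (Car p (mo (ZMod p) (insert i I) l))
      + ∑ K ∈ KK i,
        (1 / 2 * (sgn (ZMod p) ((p - 1) / 2) K I i * (vst (ZMod p) K I i).c02)
        - 1 / 8 * (sgn (ZMod p) ((p - 1) / 2) K I i * (vst (ZMod p) K I i).c22))
        * ((-1) ^ (#K / 2 - 1) * eta i D N K) := by
  have hE' : ∀ q ∈ E, i ≤ q := fun q hq => (hE q hq).le
  have hIlt : ∀ t ∈ I, t < i := fun t ht => (mem_Ico.1 (hI ht)).2
  have hb : bw (hi i E) = p * e + 1 := bw_of_sum hE' hR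
  have hp3 := p_ge h2
  have hpe : p * (e + 1) = p * e + p := by ring
  rw [loc_1 h2 h hE hI hR (by omega) (ol_test hE' hIlt (by omega) (by omega))]
  congr 1
  apply sum_congr rfl
  intro K hK
  have T := top_KK h2 hK hIlt
  rw [T.h02 _ (by omega), T.h22 _ (by omega)]
  rfl

/-- `rho = 1`, `g = x_[2,i-1]` -/
theorem loc_1d (h2 : p ≠ 2) (h : LD p i e D N) (hi : 2 ≤ i) (hE : ∀ q ∈ E, i < q)
    (hR : ∑ q ∈ E, 2 ^ q = 2 ^ i * (p * e + 1)) :
    N (Car p (mo (ZMod p) (E ∪ Ico 2 i) 0)) = Nn i D N (Car p (mo (ZMod p) (insert i (Ico 2 i)) 0))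
      + v01 i (eta i D N) := by
  rw [loc_1x h2 h hE (Ico_subset_Ico_left (by omega)) hR (by rw [Nat.card_Ico]; omega)]
  congr 1
  unfold v01
  have h3 := two_ne h2
  by_cases h4 : i = 2
  · subst h4
    rw [if_pos rfl, sumd2 h3]
  · rw [if_neg h4]
    by_cases h5 : 4 ≤ i
    · rw [if_pos h5, sumd4 h3 h5]
    · have h6 : i = 3 := by omega
      subst h6
      rw [if_neg h5, sumd3 h3, add_zero]

/-- `rho = 1`, `g = x_1 x_[3,i-1]` -/
theorem loc_1e (h2 : p ≠ 2) (h : LD p i e D N) (hi : 4 ≤ i) (hE : ∀ q ∈ E, i < q)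
    (hR : ∑ q ∈ E, 2 ^ q = 2 ^ i * (p * e + 1)) :
    N (Car p (mo (ZMod p) (E ∪ insert 1 (Ico 3 i)) 0))
      = Nn i D N (Car p (mo (ZMod p) (insert i (insert 1 (Ico 3 i))) 0)) + v02 i (eta i D N) := by
  have hI : insert 1 (Ico 3 i) ⊆ Ico 1 i := by
    intro u hu
    rw [mem_insert, mem_Ico] at hu
    rw [mem_Ico]
    omega
  have hc : #(insert 1 (Ico 3 i)) = i - 2 := by
    rw [card_insert_of_notMem (by rw [mem_Ico]; omega), Nat.card_Ico]
    omega
  rw [loc_1x h2 h hE hI hR (by rw [hc]; omega)]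
  congr 1
  unfold v02
  rw [sume (two_ne h2) hi]

theorem choose_three_cast {R : Type*} [Field R] (h2 : (2 : R) ≠ 0) (h3 : (3 : R) ≠ 0) (m : ℕ) :
    ((m.choose 3 : ℕ) : R) = m * (m - 1) * (m - 2) / 6 := by
  have h6 : (6 : R) ≠ 0 := by
    have : (6 : R) = 2 * 3 := by norm_num
    rw [this]; exact mul_ne_zero h2 h3
  induction m with
  | zero => simp
  | succ m ih =>
    rw [Nat.choose_succ_succ]
    push_cast [ih, choose_two_cast h2]
    field_simp
    ring

theorem zc_C_coeff_u_pow {R : Type*} [CommRing R] (m k : ℕ) (B : ℤ) :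
    zc (C (((X - C X : R[X][X]) ^ m).coeff k)) 0 B
      = if k ≤ m ∧ B = (m - k : ℕ) then (-1) ^ (m - k) * (m.choose k : R) else 0 := by
  have e0 : (X - C X : R[X][X]) = X + C (-X) := by rw [C_neg, sub_eq_add_neg]
  have e1 : (((X - C X : R[X][X]) ^ m).coeff k)
      = C ((-1) ^ (m - k) * (m.choose k : R)) * X ^ (m - k) := by
    rw [e0, coeff_X_add_C_pow, neg_pow, C_mul, C_pow, C_neg, C_1, C_eq_natCast]
    ring
  unfold zc
  rw [e1, coeff_C_zero, coeff_C_mul, coeff_X_pow]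
  by_cases hk : k ≤ m
  · by_cases h1 : B = (m - k : ℕ)
    · rw [if_pos (show 0 ≤ B by omega), if_pos (show B.toNat = m - k by omega), mul_one,
        if_pos ⟨hk, h1⟩]
    · have h3 : ¬ (k ≤ m ∧ B = (m - k : ℕ)) := fun h => h1 h.2
      rw [if_neg h3]
      by_cases hB : 0 ≤ B
      · rw [if_pos hB, if_neg (show ¬ B.toNat = m - k by omega), mul_zero]
      · rw [if_neg hB]
  · have h3 : ¬ (k ≤ m ∧ B = (m - k : ℕ)) := fun h => hk h.1
    rw [if_neg h3, Nat.choose_eq_zero_of_lt (by omega), Nat.cast_zero, mul_zero, zero_mul]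
    split_ifs <;> rfl

/-- the two coefficients needed for `i = 2`, `g = x_1` -/
theorem PT_two_coeff {R : Type*} [CommRing R] {p m : ℕ} (hm : p = 2 * m + 1) (hm2 : 2 ≤ m) :
    zc (PT (R := R) (ex p {0, 1} {1}) 2) 0 ((p : ℤ) - 2) = -(m.choose 3 : ℕ) ∧
    zc (PT (R := R) (ex p {0, 1} {1}) 2) 2 ((p : ℤ) - 3) = ((m + 1).choose 2 : ℕ) * m := by
  have e1 : PT (R := R) (ex p {0, 1} {1}) 1 = (X - C X) ^ m := by
    have e2 : PT (R := R) (ex p {0, 1} {1}) 1 = od (1 * X ^ ex p {0, 1} {1} 0) := rfl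
    have e3 : ex p {0, 1} {1} 0 = 2 * m + 1 := by
      unfold ex
      rw [if_pos (by decide), if_neg (by decide)]
      omega
    rw [e2, e3, od_mul_X_pow_odd, evp_one, mul_one]
  have e4 : PT (R := R) (ex p {0, 1} {1}) 2
      = ∑ j ∈ range (m + 1), C (((X - C X : R[X][X]) ^ m).coeff (2 * j + 1))
        * (X - C X) ^ (m + 1 + j) := by
    have e2 : PT (R := R) (ex p {0, 1} {1}) 2
        = od (PT (ex p {0, 1} {1}) 1 * X ^ ex p {0, 1} {1} 1) := rfl
    have e3 : ex p {0, 1} {1} 1 = 2 * (m + 1) := by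
      unfold ex
      rw [if_pos (by decide), if_pos (by decide)]
      omega
    have hdeg : ((X - C X : R[X][X]) ^ m).natDegree < 2 * (m + 1) := by
      have h1 : ((X - C X : R[X][X]) ^ m).natDegree ≤ m * 1 :=
        natDegree_pow_le_of_le m (natDegree_X_sub_C_le _)
      omega
    rw [e2, e3, od_mul_X_pow_even, e1, (evp_sum_od_sum hdeg).2, mul_sum]
    apply sum_congr rfl
    intro j _
    rw [pow_add (X - C X : R[X][X]) (m + 1) j]
    ring
  rw [e4, zc_sum, zc_sum]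
  constructor
  · rw [sum_eq_single 1]
    · rw [zc_C_mul_u_pow, if_pos (by omega), zc_C_coeff_u_pow]
      rcases Nat.lt_or_ge m 3 with h | h
      · have : m = 2 := by omega
        subst this
        simp
      · rw [if_pos ⟨by omega, by omega⟩]
        have h1 : (-1 : R) ^ (m + 1 + 1 - 0) * ((m + 1 + 1).choose 0 : ℕ)
            * ((-1) ^ (m - (2 * 1 + 1)) * (m.choose (2 * 1 + 1) : ℕ))
            = (-1) ^ (m + 1 + 1 - 0 + (m - (2 * 1 + 1))) * (m.choose 3 : ℕ) := by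
          rw [pow_add, Nat.choose_zero_right, Nat.cast_one]
          ring
        rw [h1, Odd.neg_one_pow ⟨m - 1, by omega⟩]
        ring
    · intro j hj hne
      rw [zc_C_mul_u_pow, if_pos (by omega), zc_C_coeff_u_pow, if_neg, mul_zero]
      rintro ⟨h1, h2⟩
      omega
    · intro h
      rw [mem_range] at h
      omega
  · rw [sum_eq_single 0]
    · rw [zc_C_mul_u_pow, if_pos (by omega), zc_C_coeff_u_pow, if_pos ⟨by omega, by omega⟩]
      have h1 : (-1 : R) ^ (m + 1 + 0 - 2) * ((m + 1 + 0).choose 2 : ℕ)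
          * ((-1) ^ (m - (2 * 0 + 1)) * (m.choose (2 * 0 + 1) : ℕ))
          = (-1) ^ (m + 1 + 0 - 2 + (m - (2 * 0 + 1))) * (((m + 1).choose 2 : ℕ) * (m : R)) := by
        rw [pow_add, mul_zero, zero_add, Nat.choose_one_right, add_zero]
        ring
      rw [h1, Even.neg_one_pow ⟨m - 1, by omega⟩, one_mul]
    · intro j hj hne
      rw [zc_C_mul_u_pow]
      split_ifs with hc
      · rw [zc_C_coeff_u_pow, if_neg, mul_zero]
        rintro ⟨h1, h2⟩
        omega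
      · rfl
    · intro h
      rw [mem_range] at h
      omega

/-- `Car (x_1 x_2) = 0` for `p ≥ 5` -/
theorem Car_x1_x2 (h5 : 5 ≤ p) : Car p (mo (ZMod p) (insert 2 {1}) 0) = 0 := by
  ext a b
  rw [Car_coeff_coeff hp.out.pos, coeff_zero, coeff_zero]
  by_contra hc
  have h1 : mo (ZMod p) (insert 2 {1}) 0 = xS (ZMod p) (insert 2 {1}) := by
    unfold mo
    rw [pow_zero, C_1, mul_one]
  rw [h1] at hc
  have h2 := coeff_xS_le _ _ _ hc
  have h3 : bw (insert 2 {1}) = 6 := by decide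
  rw [h3] at h2
  have h6 : p ≤ p * (a + 1) := Nat.le_mul_of_pos_right p (by omega)
  have h7 : p ≤ p * (b + 1) := Nat.le_mul_of_pos_right p (by omega)
  omega

/-- `i = 2`, `rho = 1`, `g = x_1`, (used for `p = 5`) -/
theorem loc_1f (h5 : 5 ≤ p) (h : LD p 2 e D N) (hE : ∀ q ∈ E, 2 < q)
    (hR : ∑ q ∈ E, 2 ^ q = 2 ^ 2 * (p * e + 1)) :
    N (Car p (mo (ZMod p) (insert 1 E) 0)) = 19 / 128 * eta 2 D N {0, 1} := by
  have h2 : p ≠ 2 := by omega
  have hI : ({1} : Finset ℕ) ⊆ Ico 1 2 := by decide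
  have hE' : ∀ q ∈ E, 2 ≤ q := fun q hq => (hE q hq).le
  have hIlt : ∀ t ∈ ({1} : Finset ℕ), t < 2 := by decide
  have hb : bw (hi 2 E) = p * e + 1 := bw_of_sum hE' hR
  have hpe : p * (e + 1) = p * e + p := by ring
  have e1 : insert 1 E = E ∪ {1} := by rw [insert_eq, union_comm]
  rw [e1, loc_1 h2 h hE hI hR (by simp) (ol_test' hE hIlt (by simp) (by omega)),
    Car_x1_x2 h5, map_zero, zero_add, KK_two, sum_singleton]
  obtain ⟨m, hm⟩ := hp.out.odd_of_ne_two h2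
  have h1 := PT_two_coeff (R := ZMod p) hm (by omega)
  have hc : #({0, 1} : Finset ℕ) = 2 := rfl
  rw [hc]
  have a1 : ((p * (2 / 2) : ℕ) : ℤ) - 2 - (0 : ℕ) = (p : ℤ) - 2 := by
    push_cast
    norm_num
  have a2 : ((p * (2 / 2) : ℕ) : ℤ) - 3 - (0 : ℕ) = (p : ℤ) - 3 := by
    push_cast
    norm_num
  rw [a1, a2, h1.1, h1.2]
  have n2 := two_ne h2
  have n3 : (3 : ZMod p) ≠ 0 := by
    intro hc
    have : ((3 : ℕ) : ZMod p) = 0 := by exact_mod_cast hc
    rw [ZMod.natCast_eq_zero_iff] at this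
    have := Nat.le_of_dvd (by norm_num) this
    omega
  have hmc : (m : ZMod p) = -(1 / 2) := by
    have := cast_half h2
    rwa [show (p - 1) / 2 = m by omega] at this
  rw [choose_three_cast n2 n3, choose_two_cast n2]
  push_cast
  rw [hmc]
  have n4 : (4 : ZMod p) ≠ 0 := by
    have : (4 : ZMod p) = 2 ^ 2 := by norm_num
    rw [this]; exact pow_ne_zero _ n2
  have n6 : (6 : ZMod p) ≠ 0 := by
    have : (6 : ZMod p) = 2 * 3 := by norm_num
    rw [this]; exact mul_ne_zero n2 n3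
  have n8 : (8 : ZMod p) ≠ 0 := by
    have : (8 : ZMod p) = 2 ^ 3 := by norm_num
    rw [this]; exact pow_ne_zero _ n2
  have n128 : (128 : ZMod p) ≠ 0 := by
    have : (128 : ZMod p) = 2 ^ 7 := by norm_num
    rw [this]; exact pow_ne_zero _ n2
  rw [pow_zero, one_mul]
  congr 1
  field_simp
  norm_num

end

end Dyn59
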