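import Pool.Agent.H.MP_d59dab.LemL

/-!
# MP_d59dab: the odd part operator, coordinates of level `i`
-/

set_option autoImplicit false

open Finset Polynomial

noncomputable section

namespace Dyn59

section ring

variable {R : Type*} [CommRing R]

/-- the even part: `f = sig (evp f) + X * sig (od f)` -/
def evp (f : R[X][X]) : R[X][X] := (exists_decomp f).choose

/-- the odd part: `f = sig (evp f) + X * sig (od f)` -/
def od (f : R[X][X]) : R[X][X] := (exists_decomp f).choose_spec.choose

theorem ev_od (f : R[X][X]) : f = sig R (evp f) + X * sig R (od f) :=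
  (exists_decomp f).choose_spec.choose_spec

theorem evp_eq {f g0 g1 : R[X][X]} (h : f = sig R g0 + X * sig R g1) : evp f = g0 :=
  (decomp_unique ((ev_od f).symm.trans h)).1

theorem od_eq {f g0 g1 : R[X][X]} (h : f = sig R g0 + X * sig R g1) : od f = g1 :=
  (decomp_unique ((ev_od f).symm.trans h)).2

theorem od_add (f g : R[X][X]) : od (f + g) = od f + od g := by
  apply od_eq (g0 := evp f + evp g)
  nth_rewrite 1 [ev_od f, ev_od g]
  rw [map_add, map_add]
  ring

theorem evp_add (f g : R[X][X]) : evp (f + g) = evp f + evp g := by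
  apply evp_eq (g1 := od f + od g)
  nth_rewrite 1 [ev_od f, ev_od g]
  rw [map_add, map_add]
  ring

theorem od_sig_mul (a f : R[X][X]) : od (sig R a * f) = a * od f := by
  apply od_eq (g0 := a * evp f)
  nth_rewrite 1 [ev_od f]
  rw [map_mul, map_mul]
  ring

theorem evp_sig_mul (a f : R[X][X]) : evp (sig R a * f) = a * evp f := by
  apply evp_eq (g1 := a * od f)
  nth_rewrite 1 [ev_od f]
  rw [map_mul, map_mul]
  ring

theorem od_sig (a : R[X][X]) : od (sig R a) = 0 := by
  apply od_eq (g0 := a)
  rw [map_zero, mul_zero, add_zero]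

theorem evp_sig (a : R[X][X]) : evp (sig R a) = a := by
  apply evp_eq (g1 := 0)
  rw [map_zero, mul_zero, add_zero]

theorem od_zero : od (0 : R[X][X]) = 0 := by
  have := od_sig (0 : R[X][X])
  rwa [map_zero] at this

theorem evp_zero : evp (0 : R[X][X]) = 0 := by
  have := evp_sig (0 : R[X][X])
  rwa [map_zero] at this

theorem od_one : od (1 : R[X][X]) = 0 := by
  have := od_sig (1 : R[X][X])
  rwa [map_one] at this

theorem evp_one : evp (1 : R[X][X]) = 1 := by
  have := evp_sig (1 : R[X][X])
  rwa [map_one] at this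

theorem od_X_mul (f : R[X][X]) : od (X * f) = evp f := by
  apply od_eq (g0 := (X - C X) * od f)
  nth_rewrite 1 [ev_od f]
  rw [map_mul, map_sub, sig_X, sig_C]
  ring

theorem evp_X_mul (f : R[X][X]) : evp (X * f) = (X - C X) * od f := by
  apply evp_eq (g1 := evp f)
  nth_rewrite 1 [ev_od f]
  rw [map_mul, map_sub, sig_X, sig_C]
  ring

theorem sig_u_pow (n : ℕ) : sig R ((X - C X) ^ n) = X ^ (2 * n) := by
  rw [map_pow, map_sub, sig_X, sig_C, add_sub_cancel_right, ← pow_mul]

/-- even exponents -/
theorem od_mul_X_pow_even (f : R[X][X]) (M : ℕ) :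
    od (f * X ^ (2 * M)) = (X - C X) ^ M * od f := by
  rw [← sig_u_pow, mul_comm, od_sig_mul]

/-- odd exponents -/
theorem od_mul_X_pow_odd (f : R[X][X]) (M : ℕ) :
    od (f * X ^ (2 * M + 1)) = (X - C X) ^ M * evp f := by
  have h : f * X ^ (2 * M + 1) = sig R ((X - C X) ^ M) * (X * f) := by
    rw [sig_u_pow]
    ring
  rw [h, od_sig_mul, od_X_mul]

theorem od_C_mul (h : R[X]) (f : R[X][X]) : od (C h * f) = C h * od f := by
  rw [← sig_C h, od_sig_mul, sig_C]

theorem evp_C_mul (h : R[X]) (f : R[X][X]) : evp (C h * f) = C h * evp f := by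
  rw [← sig_C h, evp_sig_mul, sig_C]

theorem od_smul (c : R) (f : R[X][X]) : od (c • f) = c • od f := by
  have h : ∀ g : R[X][X], c • g = C (C c) * g := by
    intro g
    rw [Algebra.smul_def]
    rfl
  rw [h, h, od_C_mul]

/-- the odd part as a linear map -/
def odL (R : Type*) [CommRing R] : R[X][X] →ₗ[R] R[X][X] where
  toFun := od
  map_add' := od_add
  map_smul' := od_smul

/-- `i` times the odd part -/
def odi (i : ℕ) : R[X][X] →ₗ[R] R[X][X] := (odL R) ^ i

theorem odi_zero (f : R[X][X]) : odi 0 f = f := rfl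

theorem odi_succ (i : ℕ) (f : R[X][X]) : odi (i + 1) f = odi i (od f) := by
  unfold odi
  rw [pow_succ]
  rfl

theorem odi_succ' (i : ℕ) (f : R[X][X]) : odi (i + 1) f = od (odi i f) := by
  unfold odi
  rw [pow_succ']
  rfl

/-- iterates of `sig` -/
theorem sigit_X (i : ℕ) : (sig R)^[i] X = xi R i := rfl

theorem sigit_mul (i : ℕ) (a b : R[X][X]) :
    (sig R)^[i] (a * b) = (sig R)^[i] a * (sig R)^[i] b := by
  induction i generalizing a b with
  | zero => rfl
  | succ i ih => rw [Function.iterate_succ_apply, Function.iterate_succ_apply,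
      Function.iterate_succ_apply, map_mul, ih]

theorem sigit_xi (i j : ℕ) : (sig R)^[i] (xi R j) = xi R (i + j) := by
  unfold xi
  rw [← Function.iterate_add_apply]

theorem sigit_C (i : ℕ) (h : R[X]) : (sig R)^[i] (C h) = C h := by
  induction i with
  | zero => rfl
  | succ i ih => rw [Function.iterate_succ_apply, sig_C, ih]

theorem sigit_one (i : ℕ) : (sig R)^[i] 1 = 1 := by
  induction i with
  | zero => rfl
  | succ i ih => rw [Function.iterate_succ_apply, map_one, ih]

theorem sigit_xS (i : ℕ) (E : Finset ℕ) :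
    (sig R)^[i] (xS R E) = xS R (E.map (addLeftEmbedding i)) := by
  induction E using Finset.induction_on with
  | empty =>
    unfold xS
    rw [prod_empty, map_empty, prod_empty, sigit_one]
  | insert a s ha ih =>
    unfold xS at ih ⊢
    rw [prod_insert ha, sigit_mul, ih, map_insert, prod_insert, sigit_xi]
    · rfl
    · simpa using ha

theorem odi_sig_mul (i : ℕ) (a f : R[X][X]) : odi i ((sig R)^[i] a * f) = a * odi i f := by
  induction i generalizing a f with
  | zero => rfl
  | succ i ih =>
    rw [Function.iterate_succ_apply', odi_succ, od_sig_mul, ih, odi_succ]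

/-- the successive odd parts of a product of powers of the `x_t` -/
def PT (a : ℕ → ℕ) : ℕ → R[X][X]
  | 0 => 1
  | (t + 1) => od (PT a t * X ^ a t)

theorem odi_prod (a : ℕ → ℕ) (i : ℕ) : odi i (∏ t ∈ range i, xi R t ^ a t) = PT a i := by
  induction i with
  | zero => rfl
  | succ i ih =>
    rw [odi_succ', prod_range_succ, mul_comm]
    have h : xi R i ^ a i = (sig R)^[i] (X ^ a i) := by
      rw [← sigit_X]
      generalize a i = n
      induction n with
      | zero => rw [pow_zero, pow_zero, sigit_one]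
      | succ n ih2 => rw [pow_succ, pow_succ, sigit_mul, ← ih2]
    rw [h, odi_sig_mul, ih, mul_comm]
    rfl

/-- exponents 0, 1, 2: the only product with a nonzero odd part is `x_0 ... x_(i-1)` -/
theorem PT_of_one {a : ℕ → ℕ} {i : ℕ} (h : ∀ t < i, a t = 1) : PT (R := R) a i = 1 := by
  induction i with
  | zero => rfl
  | succ i ih =>
    have h1 : PT (R := R) a (i + 1) = od (PT a i * X ^ a i) := rfl
    rw [h1, ih (fun t ht => h t (by omega)), h i (by omega)]
    have := od_mul_X_pow_odd (1 : R[X][X]) 0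
    rw [mul_zero, zero_add] at this
    rw [this, pow_zero, one_mul, evp_one]

theorem PT_zero_of_even {a : ℕ → ℕ} {i : ℕ} (h : ∃ t < i, (∀ s < t, a s = 1) ∧ Even (a t)) :
    PT (R := R) a i = 0 := by
  obtain ⟨t, ht, h1, M, h2⟩ := h
  have h3 : PT (R := R) a (t + 1) = 0 := by
    have h3 : PT (R := R) a (t + 1) = od (PT a t * X ^ a t) := rfl
    rw [h3, PT_of_one h1, h2, ← two_mul, od_mul_X_pow_even, od_one, mul_zero]
  obtain ⟨d, rfl⟩ := Nat.exists_eq_add_of_le (show t + 1 ≤ i from ht)
  clear ht
  induction d with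
  | zero => exact h3
  | succ d ih =>
    have h4 : PT (R := R) a (t + 1 + (d + 1)) = od (PT a (t + 1 + d) * X ^ a (t + 1 + d)) := rfl
    rw [h4, ih, zero_mul, od_zero]

end ring

section car

variable {p : ℕ} [hp : Fact p.Prime]

theorem od_Car (h2 : p ≠ 2) (f : (ZMod p)[X][X]) : od (Car p f) = Car p (od f) := by
  apply od_eq (g0 := Car p ((X - C X) ^ ((p - 1) / 2) * evp f))
  nth_rewrite 1 [ev_od f]
  rw [Car_add hp.out.pos, Car_sig h2, Car_X_sig h2]

theorem odi_Car (h2 : p ≠ 2) (i : ℕ) (f : (ZMod p)[X][X]) :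
    odi i (Car p f) = Car p (odi i f) := by
  induction i generalizing f with
  | zero => rfl
  | succ i ih => rw [odi_succ, od_Car h2, ih, odi_succ]

/-- the coordinate functional: coefficient of `X^(e-1) z^(#K/2-1)` in the top part of `x_K f` -/
def AK (i e : ℕ) (K : Finset ℕ) (f : (ZMod p)[X][X]) : ZMod p :=
  ((odi i (xS (ZMod p) K * f)).coeff (e - 1)).coeff (#K / 2 - 1)

theorem AK_Car (h2 : p ≠ 2) {i e : ℕ} (he : 0 < e) {K : Finset ℕ} (hK : 2 ≤ #K)
    (f : (ZMod p)[X][X]) :
    AK i e K (Car p f)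
      = ((odi i (xS (ZMod p) K ^ p * f)).coeff (p * e - 1)).coeff (p * (#K / 2) - 1) := by
  unfold AK
  rw [← Car_pow_mul, odi_Car h2, Car_coeff_coeff hp.out.pos, Nat.sub_add_cancel he,
    Nat.sub_add_cancel (by omega)]

end car

end Dyn59
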