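import Pool.Agent.H.MP_d59dab.IndC

/-!
# MP_d59dab, `p = 3`: the solutions of the systems `G(T)`
-/

set_option autoImplicit false

open Finset Polynomial

noncomputable section

namespace Dyn59

/-! ### general combinatorics -/

theorem digit_cases {T i : ℕ} {A : Finset ℕ} (hA : ∀ q ∈ A, i < q) (hAT : ∀ q ∈ A, q < T)
    (hiT : i < T) : #A + i + 3 ≤ T ∨ A = Ioo i T ∨ ∃ q, i < q ∧ q < T ∧ A = (Ioo i T).erase q := by
  have hsub : A ⊆ Ioo i T := fun a ha => mem_Ioo.2 ⟨hA a ha, hAT a ha⟩
  have hc : #(Ioo i T \ A) + #A = #(Ioo i T) := card_sdiff_add_card_eq_card hsub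
  rw [Nat.card_Ioo] at hc
  rcases Nat.lt_trichotomy (#(Ioo i T \ A)) 1 with h | h | h
  · right; left
    have h0 : #(Ioo i T \ A) = 0 := by omega
    rw [card_eq_zero, sdiff_eq_empty_iff_subset] at h0
    exact subset_antisymm hsub h0
  · right; right
    obtain ⟨q, hq⟩ := card_eq_one.1 h
    have hq1 : q ∈ Ioo i T \ A := by rw [hq]; exact mem_singleton_self q
    rw [mem_sdiff, mem_Ioo] at hq1
    refine ⟨q, hq1.1.1, hq1.1.2, ?_⟩
    ext a
    rw [mem_erase]
    constructor
    · intro ha
      exact ⟨fun h => hq1.2 (h ▸ ha), hsub ha⟩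
    · rintro ⟨h1, h2⟩
      by_contra h3
      have : a ∈ Ioo i T \ A := mem_sdiff.2 ⟨h2, h3⟩
      rw [hq, mem_singleton] at this
      exact h1 this
  · left; omega

/-- digits of `2^i (p e - 1)` -/
theorem exists_A {p : ℕ} [hp : Fact p.Prime] (h2 : p ≠ 2) {T i e : ℕ} (he : Odd e)
    (hM : (2 : ℤ) ^ i * e ≤ 2 ^ T / p) :
    ∃ A : Finset ℕ, (∀ q ∈ A, i < q) ∧ (∀ q ∈ A, q < T) ∧ i < T ∧
      ∑ q ∈ A, 2 ^ q + 2 ^ i = 2 ^ i * (p * e) := by
  have hp0 : (0 : ℤ) < p := by exact_mod_cast hp.out.pos
  have h1 : (2 : ℤ) ^ i * (p * e) ≤ 2 ^ T := by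
    rw [Int.le_ediv_iff_mul_le hp0] at hM
    linarith
  have h3 : 2 ^ i * (p * e) ≤ 2 ^ T := by exact_mod_cast h1
  have hodd : Odd (p * e) := (hp.out.odd_of_ne_two h2).mul he
  obtain ⟨A, hA, hAs⟩ := exists_digits i hodd
  have hp3 : 3 ≤ p := by
    have := hp.out.two_le
    omega
  have hpe : 3 ≤ p * e := le_trans hp3 (Nat.le_mul_of_pos_right _ he.pos)
  have h4 : 2 ^ i * 3 ≤ 2 ^ T := le_trans (Nat.mul_le_mul_left _ hpe) h3
  have hpos : 0 < 2 ^ i := by positivity
  refine ⟨A, hA, ?_, ?_, hAs⟩
  · apply lt_of_sum_lt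
    omega
  · by_contra hcon
    have h5 : 2 ^ T ≤ 2 ^ i := Nat.pow_le_pow_right (by norm_num) (by omega)
    omega

/-! ### `p = 3` -/

section three

variable {T i e : ℕ} {D : Finset ℕ} {θ : ZMod 3} {ν : Finset ℕ → ZMod 3}
  {N : (ZMod 3)[X][X] →ₗ[ZMod 3] ZMod 3}

theorem three_ne_two : (3 : ℕ) ≠ 2 := by norm_num

/-- sets which contain the last letter and a letter above `i` -/
theorem nu_zero_top (h : LD 3 i e D N) (hS : USys T θ False ν N)
    (hq : i + 1 < T) (hP : 2 ^ i * (3 * e) + 2 ^ i = 2 ^ (T - 1))
    {K : Finset ℕ} (hK : K ⊆ range T) (h0 : 0 ∈ K) (hev : Even #K) (h4 : 4 ≤ #K)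
    (hT : T - 1 ∈ K) (hm : ∃ m ∈ K, i < m ∧ m < T - 1) : ν K = 0 := by
  obtain ⟨m, hmK, hm, hmT⟩ := hm
  obtain ⟨k, hk⟩ := hev
  refine hS.v4 three_ne_two hK h0 (l := k - 2) (by omega) (fun h => h.elim) ?_
  apply h.low_compl three_ne_two hK h0 (U := {m, T - 1})
  · intro a ha
    rw [mem_insert, mem_singleton] at ha
    rcases ha with rfl | rfl
    · exact hmK
    · exact hT
  · rw [card_pair (by omega)]; omega
  · rw [Finset.sum_pair (by omega)]
    have h5 : 2 ^ (i + 1) ≤ 2 ^ m := Nat.pow_le_pow_right (by norm_num) hm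
    have h6 : 2 ^ T = 2 * 2 ^ (T - 1) := by
      rw [← pow_succ']; congr 1; omega
    have h7 : 1 ≤ 2 ^ i := Nat.one_le_two_pow
    rw [pow_succ] at h5
    omega

theorem pe_top (hiT : i + 1 < T)
    (hAs : ∑ a ∈ (Ioo i T).erase (T - 1), 2 ^ a + 2 ^ i = 2 ^ i * (3 * e)) :
    2 ^ i * (3 * e) + 2 ^ i = 2 ^ (T - 1) := by
  have h1 := pe_eq (p := 3) (i := i) (T := T) (q := T - 1) (by omega) (by omega) hAs
  have h6 : 2 ^ T = 2 * 2 ^ (T - 1) := by
    rw [← pow_succ']; congr 1; omega
  omega

/-- case (2b), `k ≥ 5` -/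
theorem eta_zero_2b5 (h : LD 3 i e D N) (hS : USys T θ False ν N) (hiT : i + 4 ≤ T)
    (hAs : ∑ a ∈ (Ioo i T).erase (T - 1), 2 ^ a + 2 ^ i = 2 ^ i * (3 * e))
    {K : Finset ℕ} (hK : K ⊆ range i) (h0 : 0 ∈ K) (hev : Even #K) : eta i D N K = 0 := by
  have hP := pe_top (by omega) hAs
  rw [eta_own three_ne_two h hS (q := T - 1) (by omega) (by omega) (fun h => h.elim) hAs hK h0 hev]
  set K1 := insert (T - 1) (insert i K) with hK1
  have hK1c : #K1 = #K + 2 := card_own (by omega) hK
  have hK1s : K1 ⊆ range T := sub_own (by omega) (by omega) hK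
  have hmem1 : ∀ a ∈ K1, a = T - 1 ∨ a = i ∨ a < i := by
    intro a ha
    rw [hK1, mem_insert, mem_insert] at ha
    rcases ha with ha | ha | ha
    · exact Or.inl ha
    · exact Or.inr (Or.inl ha)
    · exact Or.inr (Or.inr (mem_range.1 (hK ha)))
  have hi1 : i + 1 ∉ K1 := fun h => by have := hmem1 _ h; omega
  set K2 := insert (i + 1) K1 with hK2
  have hK2c : #K2 = #K + 3 := by rw [hK2, card_insert_of_notMem hi1, hK1c]
  have hK2s : K2 ⊆ range T := by
    intro a ha
    rw [hK2, mem_insert] at ha
    rcases ha with ha | ha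
    · rw [mem_range]; omega
    · exact hK1s ha
  have h01 : 0 ∈ K1 := by rw [hK1, mem_insert, mem_insert]; exact Or.inr (Or.inr h0)
  have h02 : 0 ∈ K2 := by rw [hK2, mem_insert]; exact Or.inr h01
  have hiK2 : i ∈ K2 := by rw [hK2, mem_insert, hK1, mem_insert, mem_insert]; exact Or.inr (Or.inr (Or.inl rfl))
  have hTK2 : T - 1 ∈ K2 := by rw [hK2, mem_insert, hK1, mem_insert]; exact Or.inr (Or.inl rfl)
  have hmem2 : ∀ a ∈ K2, a = T - 1 ∨ a ≤ i + 1 := by
    intro a ha
    rw [hK2, mem_insert] at ha
    rcases ha with ha | ha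
    · omega
    · have := hmem1 a ha; omega
  have h3 := two_le_card_of_even h0 hev
  have hc := card_compl hK
  have hev' := hev
  obtain ⟨k, hk⟩ := hev'
  have hN : N (Car 3 (mo (ZMod 3) (range T \ K2) k)) = 0 := by
    have hco : range T \ K2 = Ico (i + 2) (T - 1) ∪ (range i \ K) := by
      ext a
      simp only [hK2, hK1, mem_sdiff, mem_range, mem_insert, mem_union, mem_Ico, not_or]
      constructor
      · rintro ⟨h1, h3, h4, h5, h6⟩
        rcases Nat.lt_or_ge a i with h7 | h7
        · exact Or.inr ⟨h7, h6⟩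
        · exact Or.inl ⟨by omega, by omega⟩
      · rintro (⟨h1, h3⟩ | ⟨h1, h3⟩)
        · refine ⟨by omega, by omega, by omega, by omega, fun h => ?_⟩
          have := mem_range.1 (hK h)
          omega
        · exact ⟨by omega, by omega, by omega, by omega, h3⟩
    have hsum := sum_Ico_pow (i := i + 2) (T := T - 1) (by omega)
    have h4i : 2 ^ (i + 2) = 4 * 2 ^ i := by rw [pow_add]; ring
    have hO : OL (range T \ K2) k (2 ^ i * (((3 : ℕ) : ℤ) * (e + 1)) - 1) := by
      have hc2 := card_compl hK2s
      refine (ol_of_compl (T := T) (S := range T \ K2) (U := {T - 1}) (l := k) sdiff_subset ?_ ?_).mono ?_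
      · rw [compl_compl hK2s]
        intro a ha
        rw [mem_singleton] at ha
        rw [ha]; exact hTK2
      · rw [card_singleton]; omega
      · rw [sum_singleton]
        have h6 : (2 : ℤ) ^ T = 2 * 2 ^ (T - 1) := by
          rw [← pow_succ']; congr 1; omega
        have h7 : (2 : ℤ) ^ i * (3 * e) + 2 ^ i = 2 ^ (T - 1) := by exact_mod_cast hP
        have h8 : (1 : ℤ) ≤ 2 ^ i := one_le_pow₀ (by norm_num)
        push_cast
        nlinarith
    rw [hco] at hO ⊢
    refine loc_m3 three_ne_two h ?_ (compl_sub h0) ?_ (by omega) hO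
    · intro a ha
      have := mem_Ico.1 ha
      omega
    · omega
  have h5 := hS.v3_single three_ne_two hK2s h02 (l := k) (by omega) (fun h => h.elim) hN (a := i) hiK2
    (by rw [hK2]; exact mem_insert_self _ _) ?_
  · rw [hK2, symmDiff_insert_self hi1] at h5
    rw [h5, mul_zero]
  · intro c hc hcT hci _
    have hcm := hmem2 c hc
    have hcase := card_symmDiff_singleton K2 (c + 1)
    apply nu_zero_top h hS (by omega) hP (symmDiff_sub hK2s hcT) (symmDiff_mem h02)
    · rcases hcase with h6 | h6
      · exact ⟨k + 1, by omega⟩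
      · exact ⟨k + 2, by omega⟩
    · rcases hcase with h6 | h6 <;> omega
    · rw [mem_symmDiff, mem_singleton]
      exact Or.inl ⟨hTK2, by omega⟩
    · refine ⟨i + 1, ?_, by omega, by omega⟩
      rw [mem_symmDiff, mem_singleton]
      exact Or.inl ⟨by rw [hK2]; exact mem_insert_self _ _, by omega⟩

/-! ### case (2b), `k = 3` -/

/-- `ν_(K + i + (i+1)) = - ν_(K + i + (i+2))` -/
theorem rel_k3 (h : LD 3 i e D N) (hS : USys (i + 3) θ False ν N)
    (hAs : ∑ a ∈ (Ioo i (i + 3)).erase (i + 2), 2 ^ a + 2 ^ i = 2 ^ i * (3 * e))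
    {K : Finset ℕ} (hK : K ⊆ range i) (h0 : 0 ∈ K) (hev : Even #K) :
    ν (insert (i + 1) (insert i K)) = - ν (insert (i + 2) (insert i K)) := by
  have hP := pe_top (T := i + 3) (by omega) hAs
  have e3 : i + 3 - 1 = i + 2 := by omega
  rw [e3] at hP
  have h4i : 2 ^ (i + 2) = 4 * 2 ^ i := by rw [pow_add]; ring
  set K3 := insert (i + 2) (insert (i + 1) (insert i K)) with hK3
  have hlt : ∀ a ∈ K, a < i := fun a ha => mem_range.1 (hK ha)
  have hi0 : i ∉ K := fun h => by have := hlt _ h; omega
  have hi1 : i + 1 ∉ insert i K := by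
    rw [mem_insert]
    rintro (h | h)
    · omega
    · have := hlt _ h; omega
  have hi2 : i + 2 ∉ insert (i + 1) (insert i K) := by
    rw [mem_insert, mem_insert]
    rintro (h | h | h)
    · omega
    · omega
    · have := hlt _ h; omega
  have hc3 : #K3 = #K + 3 := by
    rw [hK3, card_insert_of_notMem hi2, card_insert_of_notMem hi1, card_insert_of_notMem hi0]
  have hK3s : K3 ⊆ range (i + 3) := by
    intro a ha
    rw [hK3, mem_insert, mem_insert, mem_insert] at ha
    rw [mem_range]
    rcases ha with h | h | h | h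
    · omega
    · omega
    · omega
    · have := hlt _ h; omega
  have h03 : 0 ∈ K3 := by
    rw [hK3, mem_insert, mem_insert, mem_insert]; exact Or.inr (Or.inr (Or.inr h0))
  have m0 : i ∈ K3 := by
    rw [hK3, mem_insert, mem_insert, mem_insert]; exact Or.inr (Or.inr (Or.inl rfl))
  have m1 : i + 1 ∈ K3 := by
    rw [hK3, mem_insert, mem_insert]; exact Or.inr (Or.inl rfl)
  have m2 : i + 2 ∈ K3 := by rw [hK3, mem_insert]; exact Or.inl rfl
  have h3 := two_le_card_of_even h0 hev
  have hc := card_compl hK
  have hev' := hev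
  obtain ⟨k, hk⟩ := hev'
  have hN : N (Car 3 (mo (ZMod 3) (range (i + 3) \ K3) k)) = 0 := by
    have hco : range (i + 3) \ K3 = ∅ ∪ (range i \ K) := by
      rw [empty_union]
      ext a
      simp only [hK3, mem_sdiff, mem_range, mem_insert, not_or]
      constructor
      · rintro ⟨h1, h3, h4, h5, h6⟩
        exact ⟨by omega, h6⟩
      · rintro ⟨h1, h3⟩
        exact ⟨by omega, by omega, by omega, by omega, h3⟩
    have hO : OL (range (i + 3) \ K3) k (2 ^ i * (((3 : ℕ) : ℤ) * (e + 1)) - 1) := by
      have hc2 := card_compl hK3s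
      refine (ol_of_compl (T := i + 3) (S := range (i + 3) \ K3) (U := {i + 2}) (l := k)
        sdiff_subset ?_ ?_).mono ?_
      · rw [compl_compl hK3s]
        intro a ha
        rw [mem_singleton] at ha
        rw [ha]; exact m2
      · rw [card_singleton]; omega
      · rw [sum_singleton]
        have h6 : (2 : ℤ) ^ (i + 3) = 2 * 2 ^ (i + 2) := by
          rw [← pow_succ']
        have h7 : (2 : ℤ) ^ i * (3 * e) + 2 ^ i = 2 ^ (i + 2) := by exact_mod_cast hP
        have h8 : (1 : ℤ) ≤ 2 ^ i := one_le_pow₀ (by norm_num)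
        push_cast
        nlinarith
    rw [hco] at hO ⊢
    refine loc_m3 three_ne_two h (by simp) (compl_sub h0) ?_ (by omega) hO
    rw [sum_empty]
    omega
  have h5 := hS.v3 three_ne_two hK3s h03 (l := k) (by omega) (fun h => h.elim) hN
  have key : ∀ c ∈ K3.filter (· + 1 < i + 3), c ∉ ({i, i + 1} : Finset ℕ) →
      (if c + 2 = i + 3 ∧ c + 1 ∉ K3 then θ else 1) * ν (symmDiff K3 {c + 1}) = 0 := by
    intro c hc hcn
    rw [mem_filter] at hc
    simp only [mem_insert, mem_singleton, not_or] at hcn
    have hcase := card_symmDiff_singleton K3 (c + 1)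
    have h8 : ν (symmDiff K3 {c + 1}) = 0 := by
      apply nu_zero_top h hS (by omega) (by rw [e3]; exact hP) (symmDiff_sub hK3s hc.2) (symmDiff_mem h03)
      · rcases hcase with h6 | h6
        · exact ⟨k + 1, by omega⟩
        · exact ⟨k + 2, by omega⟩
      · rcases hcase with h6 | h6 <;> omega
      · rw [mem_symmDiff, mem_singleton, e3]
        exact Or.inl ⟨m2, by omega⟩
      · refine ⟨i + 1, ?_, by omega, by omega⟩
        rw [mem_symmDiff, mem_singleton]
        exact Or.inl ⟨m1, by omega⟩
    rw [h8, mul_zero]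
  rw [← sum_subset (s₁ := ({i, i + 1} : Finset ℕ)) ?_ key, sum_pair (by omega),
    if_neg (fun h => by omega), if_neg (fun h => h.2 (by exact m2)), one_mul, one_mul] at h5
  · have e4 : symmDiff K3 {i + 1} = insert (i + 2) (insert i K) := by
      ext a
      simp only [hK3, mem_symmDiff, mem_singleton, mem_insert]
      constructor
      · rintro (⟨h, h'⟩ | ⟨rfl, h⟩)
        · tauto
        · exact absurd (Or.inr (Or.inl rfl)) h
      · rintro (rfl | rfl | h)
        · exact Or.inl ⟨Or.inl rfl, by omega⟩
        · exact Or.inl ⟨Or.inr (Or.inr (Or.inl rfl)), by omega⟩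
        · have := hlt _ h
          exact Or.inl ⟨Or.inr (Or.inr (Or.inr h)), by omega⟩
    have e5 : symmDiff K3 {i + 1 + 1} = insert (i + 1) (insert i K) := by
      rw [hK3]
      exact symmDiff_insert_self hi2
    rw [e4, e5] at h5
    linear_combination h5
  · intro a ha
    rw [mem_insert, mem_singleton] at ha
    rw [mem_filter]
    rcases ha with rfl | rfl
    · exact ⟨m0, by omega⟩
    · exact ⟨m1, by omega⟩

/-- the unknowns of the reduced system -/
def nuT (i : ℕ) (η ν : Finset ℕ → ZMod 3) (K : Finset ℕ) : ZMod 3 :=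
  if i ∈ K then ν (insert (i + 2) (K.erase i)) else η K

theorem nuT_of_notMem {η : Finset ℕ → ZMod 3} {K : Finset ℕ} (h : i ∉ K) : nuT i η ν K = η K := by
  unfold nuT
  rw [if_neg h]

theorem nuT_insert {η : Finset ℕ → ZMod 3} {K : Finset ℕ} (h : i ∉ K) :
    nuT i η ν (insert i K) = ν (insert (i + 2) K) := by
  unfold nuT
  rw [if_pos (mem_insert_self i K), erase_insert h]

theorem sum_split (f : ℕ → ZMod 3) {K : Finset ℕ} (hK : K ⊆ range i) :
    ∑ c ∈ K.filter (· + 1 < i + 1), f c
      = ∑ c ∈ K.filter (· + 1 < i), f c + (if i - 1 ∈ K then f (i - 1) else 0) := by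
  by_cases h : i - 1 ∈ K
  · have hi : i - 1 < i := mem_range.1 (hK h)
    rw [if_pos h]
    have e1 : K.filter (· + 1 < i + 1) = insert (i - 1) (K.filter (· + 1 < i)) := by
      ext a
      simp only [mem_filter, mem_insert]
      constructor
      · rintro ⟨h1, h3⟩
        by_cases h4 : a = i - 1
        · exact Or.inl h4
        · exact Or.inr ⟨h1, by omega⟩
      · rintro (rfl | ⟨h1, h3⟩)
        · exact ⟨h, by omega⟩
        · exact ⟨h1, by omega⟩
    rw [e1, sum_insert (by rw [mem_filter]; omega), add_comm]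
  · rw [if_neg h, add_zero]
    apply sum_congr _ (fun _ _ => rfl)
    ext a
    simp only [mem_filter]
    constructor
    · rintro ⟨h1, h3⟩
      refine ⟨h1, ?_⟩
      have := mem_range.1 (hK h1)
      by_contra h4
      exact h (by have : a = i - 1 := by omega
                  rwa [← this])
    · rintro ⟨h1, h3⟩
      exact ⟨h1, by omega⟩

theorem symmDiff_insert_comm {K : Finset ℕ} {a c : ℕ} (h : a ≠ c) :
    symmDiff (insert a K) {c} = insert a (symmDiff K {c}) := by
  ext x
  simp only [mem_symmDiff, mem_insert, mem_singleton]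
  constructor
  · rintro (⟨h1 | h1, h3⟩ | ⟨h1, h3⟩)
    · exact Or.inl h1
    · exact Or.inr (Or.inl ⟨h1, h3⟩)
    · exact Or.inr (Or.inr ⟨h1, fun h4 => h3 (Or.inr h4)⟩)
  · rintro (h1 | ⟨h1, h3⟩ | ⟨h1, h3⟩)
    · exact Or.inl ⟨Or.inl h1, fun h4 => h (h1.symm.trans h4)⟩
    · exact Or.inl ⟨Or.inr h1, h3⟩
    · refine Or.inr ⟨h1, ?_⟩
      rintro (h4 | h4)
      · exact h (h4.symm.trans h1)
      · exact h3 h4

theorem notMem_symmDiff {K : Finset ℕ} {a c : ℕ} (h : a ∉ K) (h' : a ≠ c) :
    a ∉ symmDiff K {c} := by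
  rw [mem_symmDiff, mem_singleton]
  rintro (h1 | h1)
  · exact h h1.1
  · exact h' h1.1

theorem usys_k3 (h : LD 3 i e D N) (hS : USys (i + 3) θ False ν N)
    (hAs : ∑ a ∈ (Ioo i (i + 3)).erase (i + 2), 2 ^ a + 2 ^ i = 2 ^ i * (3 * e)) :
    USys (i + 1) 0 False (nuT i (eta i D N) ν) (Nn i D N) := by
  have hi1 := h.hi
  have hP := pe_top (T := i + 3) (by omega) hAs
  have e3 : i + 3 - 1 = i + 2 := by omega
  rw [e3] at hP
  have h4i : 2 ^ (i + 2) = 4 * 2 ^ i := by rw [pow_add]; ring
  intro S l hSs hw _
  by_cases hiS : i ∈ S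
  · -- tests which contain `x_i`
    set I := S.erase i with hI
    have hins : insert i I = S := insert_erase hiS
    have hIs : I ⊆ Ico 1 i := by
      intro a ha
      rw [hI, mem_erase] at ha
      have := mem_Ico.1 (hSs ha.2)
      rw [mem_Ico]
      omega
    have hcI : #I + 1 = #S := card_erase_add_one hiS
    have hdis : Disjoint {i + 2} I := by
      rw [disjoint_singleton_left]
      intro h1
      have := mem_Ico.1 (hIs h1)
      omega
    have hcard : #({i + 2} ∪ I) = 1 + #I := by
      rw [card_union_of_disjoint hdis, card_singleton]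
    have h3 := hS ({i + 2} ∪ I) l ?_ (by omega) (fun h => h.elim)
    · unfold VT at h3
      rw [if_neg (by omega), if_neg (by omega), add_zero] at h3
      have hE : ∀ q ∈ ({i + 2} : Finset ℕ), i < q := by simp
      have hR : ∑ q ∈ ({i + 2} : Finset ℕ), 2 ^ q = 2 ^ i * (3 * e + 1) := by
        rw [sum_singleton]; rw [mul_add, mul_one]; omega
      have hcomp : range (i + 1) \ S = range i \ I := by
        ext a
        simp only [hI, mem_sdiff, mem_range, mem_erase, not_and]
        constructor
        · rintro ⟨h3, h4⟩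
          have : a ≠ i := fun h => h4 (h ▸ hiS)
          exact ⟨by omega, fun _ => h4⟩
        · rintro ⟨h3, h4⟩
          exact ⟨by omega, h4 (by omega)⟩
      have hni : i ∉ range i \ I := by simp
      unfold VT
      rcases Nat.lt_trichotomy (#I + 2 * l + 4) i with hw1 | hw1 | hw1
      · rw [if_neg (by omega), if_neg (by omega), add_zero, ← hins,
          ← loc_1a three_ne_two h hE hIs hR (by omega)]
        exact h3
      · rw [loc_1b three_ne_two h hE hIs hR hw1, hins] at h3
        rw [if_pos (by omega), hcomp, nuT_of_notMem hni]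
        exact h3
      · rw [loc_1c three_ne_two h hE hIs hR (by omega), hins] at h3
        rw [if_neg (by omega), if_pos (by omega), hcomp]
        refine Eq.trans ?_ h3
        congr 3
        rw [sum_split _ (sdiff_subset)]
        unfold sh1
        have e4 : (if i - 1 ∈ range i \ I then (if i - 1 + 2 = i + 1 ∧ i - 1 + 1 ∈ S then (0 : ZMod 3)
            else 1) * nuT i (eta i D N) ν (symmDiff (range i \ I) {i - 1 + 1}) else 0) = 0 := by
          have hcr : i - 1 + 2 = i + 1 ∧ i - 1 + 1 ∈ S :=
            ⟨by omega, by rw [Nat.sub_add_cancel hi1]; exact hiS⟩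
          rw [if_pos hcr, zero_mul, ite_self]
        rw [e4, add_zero]
        apply sum_congr rfl
        intro c hc
        have hc1 := (mem_filter.1 hc).2
        rw [if_neg (by omega), one_mul, nuT_of_notMem (notMem_symmDiff hni (by omega))]
    · intro a ha
      rw [mem_union, mem_singleton] at ha
      rw [mem_Ico]
      rcases ha with ha | ha
      · omega
      · have := mem_Ico.1 (hIs ha)
        omega
  · -- tests without `x_i`
    have hIs : S ⊆ Ico 1 i := by
      intro a ha
      have h3 := mem_Ico.1 (hSs ha)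
      have : a ≠ i := fun h => hiS (h ▸ ha)
      rw [mem_Ico]
      omega
    have hdis : Disjoint {i, i + 1} S := by
      rw [disjoint_left]
      intro a h1 h3
      have := mem_Ico.1 (hIs h3)
      rw [mem_insert, mem_singleton] at h1
      omega
    have hcard : #({i, i + 1} ∪ S) = 2 + #S := by
      rw [card_union_of_disjoint hdis, card_pair (by omega)]
    have hE : ∀ q ∈ ({i, i + 1} : Finset ℕ), i ≤ q := by
      intro q hq
      rw [mem_insert, mem_singleton] at hq
      omega
    have hR : ∑ q ∈ ({i, i + 1} : Finset ℕ), 2 ^ q = 2 ^ i * (3 * e) := by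
      rw [sum_pair (by omega), pow_succ]; omega
    have h3 := hS ({i, i + 1} ∪ S) l ?_ (by omega) (fun h => h.elim)
    · set K := range i \ S with hK
      have hKs : K ⊆ range i := sdiff_subset
      have hiK : i ∉ K := by rw [hK]; simp
      have hi2K : i + 2 ∉ K := by rw [hK]; simp
      have hco1 : range (i + 3) \ ({i, i + 1} ∪ S) = insert (i + 2) K := by
        ext a
        simp only [hK, mem_sdiff, mem_range, mem_union, mem_insert, mem_singleton, not_or]
        constructor
        · rintro ⟨h1, ⟨h3, h4⟩, h5⟩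
          by_cases h6 : a = i + 2
          · exact Or.inl h6
          · exact Or.inr ⟨by omega, h5⟩
        · rintro (rfl | ⟨h1, h3⟩)
          · refine ⟨by omega, ⟨by omega, by omega⟩, fun h => ?_⟩
            have := mem_Ico.1 (hIs h)
            omega
          · exact ⟨by omega, ⟨by omega, by omega⟩, h3⟩
      have hco2 : range (i + 1) \ S = insert i K := by
        ext a
        simp only [hK, mem_sdiff, mem_range, mem_insert]
        constructor
        · rintro ⟨h1, h3⟩
          by_cases h6 : a = i
          · exact Or.inl h6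
          · exact Or.inr ⟨by omega, h3⟩
        · rintro (rfl | ⟨h1, h3⟩)
          · exact ⟨by omega, hiS⟩
          · exact ⟨by omega, h3⟩
      unfold VT at h3 ⊢
      rcases Nat.lt_trichotomy (#S + 2 * l + 3) i with hw1 | hw1 | hw1
      · rw [if_neg (by omega), if_neg (by omega), add_zero,
          loc_0a three_ne_two h hE hIs hR (by omega)] at h3
        rw [if_neg (by omega), if_neg (by omega), add_zero]
        exact h3
      · rw [if_pos (by omega), loc_0a three_ne_two h hE hIs hR (by omega), hco1] at h3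
        rw [if_pos (by omega), hco2, nuT_insert hiK]
        exact h3
      · rw [if_neg (by omega), if_pos (by omega), loc_0b three_ne_two h hE hIs hR (by omega),
          hco1] at h3
        rw [if_neg (by omega), if_pos (by omega), hco2]
        -- the sum of the parent
        have f1 : (insert (i + 2) K).filter (· + 1 < i + 3) = K.filter (· + 1 < i + 1) := by
          ext a
          simp only [mem_filter, mem_insert]
          constructor
          · rintro ⟨h1 | h1, h4⟩
            · omega
            · have := mem_range.1 (hKs h1)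
              exact ⟨h1, by omega⟩
          · rintro ⟨h1, h4⟩
            exact ⟨Or.inr h1, by omega⟩
        have f2 : (insert i K).filter (· + 1 < i + 1) = K.filter (· + 1 < i + 1) := by
          ext a
          simp only [mem_filter, mem_insert]
          constructor
          · rintro ⟨h1 | h1, h4⟩
            · omega
            · exact ⟨h1, h4⟩
          · rintro ⟨h1, h4⟩
            exact ⟨Or.inr h1, h4⟩
        have g1 : ∀ c ∈ K.filter (· + 1 < i + 1),
            (if c + 2 = i + 3 ∧ c + 1 ∈ ({i, i + 1} ∪ S : Finset ℕ) then θ else 1)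
              * ν (symmDiff (insert (i + 2) K) {c + 1})
            = ν (insert (i + 2) (symmDiff K {c + 1})) := by
          intro c hc
          have hc1 := (mem_filter.1 hc).2
          rw [if_neg (by omega), one_mul, symmDiff_insert_comm (by omega)]
        have g2 : ∀ c ∈ K.filter (· + 1 < i + 1),
            (if c + 2 = i + 1 ∧ c + 1 ∈ S then (0 : ZMod 3) else 1)
              * nuT i (eta i D N) ν (symmDiff (insert i K) {c + 1})
            = nuT i (eta i D N) ν (symmDiff (insert i K) {c + 1}) := by
          intro c hc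
          have hc1 := (mem_filter.1 hc).2
          rw [if_neg, one_mul]
          rintro ⟨h5, h6⟩
          have : c + 1 = i := by omega
          exact hiS (this ▸ h6)
        rw [f1, sum_congr rfl g1, sum_split _ hKs] at h3
        rw [f2, sum_congr rfl g2, sum_split _ hKs]
        have g3 : ∀ c ∈ K.filter (· + 1 < i), nuT i (eta i D N) ν (symmDiff (insert i K) {c + 1})
            = ν (insert (i + 2) (symmDiff K {c + 1})) := by
          intro c hc
          have hc1 := (mem_filter.1 hc).2
          rw [symmDiff_insert_comm (by omega), nuT_insert (notMem_symmDiff hiK (by omega))]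
        rw [sum_congr rfl g3]
        have hi11 : i - 1 + 1 = i := by omega
        rw [hi11] at h3 ⊢
        by_cases hm : i - 1 ∈ K
        · have hmS : i - 1 ∉ S := (mem_sdiff.1 hm).2
          have h00 : 0 ∈ K := by
            rw [hK, mem_sdiff, mem_range]
            exact ⟨by omega, fun h => by have := mem_Ico.1 (hIs h); omega⟩
          have hcK : #K + #S = i := by
            rw [hK, card_sdiff_add_card_eq_card, card_range]
            intro a ha
            have := mem_Ico.1 (hIs ha)
            rw [mem_range]; omega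
          have hev : Even #K := ⟨l + 1, by omega⟩
          have hown := eta_own three_ne_two h hS (q := i + 2) (by omega) (by omega)
            (fun h => h.elim) hAs hKs h00 hev
          have e5 : symmDiff K {i} = insert i K := by
            ext a
            simp only [mem_symmDiff, mem_singleton, mem_insert]
            constructor
            · rintro (h1 | h1)
              · exact Or.inr h1.1
              · exact Or.inl h1.1
            · rintro (rfl | h1)
              · exact Or.inr ⟨rfl, hiK⟩
              · exact Or.inl ⟨h1, fun h => hiK (h ▸ h1)⟩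
          rw [if_pos hm, e5] at h3
          rw [if_neg hmS] at h3
          rw [if_pos hm, symmDiff_insert_self hiK, nuT_of_notMem hiK]
          have h22 : ν (insert (i + 2) (insert i K)) = 2 * eta i D N K := by
            rw [hown]
            have : (2 : ZMod 3) * (1 / 2) = 1 := mul_one_div_cancel (two_ne_zero' three_ne_two)
            linear_combination (-ν (insert (i + 2) (insert i K))) * this
          rw [h22] at h3
          linear_combination h3
        · have hmS : i - 1 ∈ S := by
            by_contra h5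
            apply hm
            rw [hK, mem_sdiff, mem_range]
            exact ⟨by omega, h5⟩
          rw [if_neg hm] at h3 ⊢
          rw [if_pos hmS] at h3
          linear_combination h3
    · intro a ha
      rw [mem_union, mem_insert, mem_singleton] at ha
      rw [mem_Ico]
      rcases ha with (ha | ha) | ha
      · omega
      · omega
      · have := mem_Ico.1 (hIs ha)
        omega

/-! ### constants -/

theorem c4 : (1 / 4 : ZMod 3) = 1 := by
  have : (4 : ZMod 3) = 1 := by decide
  rw [this, div_one]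

theorem c38 : (3 / 8 : ZMod 3) = 0 := by
  have : (3 : ZMod 3) = 0 := by decide
  rw [this, zero_div]

theorem c1564 : (15 / 64 : ZMod 3) = 0 := by
  have : (15 : ZMod 3) = 0 := by decide
  rw [this, zero_div]

/-! ### the special solution -/

/-- `ν = s ν_0^{(T)}` -/
structure NuS (T : ℕ) (s : ZMod 3) (ν : Finset ℕ → ZMod 3) : Prop where
  h01 : ν {0, 1} = if Even T then s else -s
  h02 : 3 ≤ T → ν {0, 2} = if Even T then 0 else s
  hbig : ∀ K ⊆ range T, 0 ∈ K → Even #K → (∃ m ∈ K, 3 ≤ m) → ν K = 0

theorem three_cases {K : Finset ℕ} (h0 : 0 ∈ K) (hev : Even #K) :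
    K = {0, 1} ∨ K = {0, 2} ∨ ∃ m ∈ K, 3 ≤ m := by
  by_cases h : ∃ m ∈ K, 3 ≤ m
  · exact Or.inr (Or.inr h)
  · push Not at h
    rcases pair_of_range_three (fun a ha => mem_range.2 (h a ha)) h0 hev with h | h
    · exact Or.inl h
    · exact Or.inr (Or.inl h)

theorem NuS.zero {s : ZMod 3} (h : NuS T s ν) (hs : s = 0) {K : Finset ℕ} (hK : K ⊆ range T)
    (h0 : 0 ∈ K) (hev : Even #K) : ν K = 0 := by
  rcases three_cases h0 hev with rfl | rfl | h1
  · rw [h.h01, hs, neg_zero, ite_self]
  · rw [h.h02 (by have := mem_range.1 (hK (show 2 ∈ ({0, 2} : Finset ℕ) by simp)); omega), hs,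
      ite_self]
  · exact h.hbig K hK h0 hev h1

/-- the solutions of `G(T)` -/
structure G3S (T : ℕ) (s : ZMod 3) (ν : Finset ℕ → ZMod 3)
    (N : (ZMod 3)[X][X] →ₗ[ZMod 3] ZMod 3) : Prop where
  nu : NuS T s ν
  ev : Even T → 4 ≤ T → ∃ e D, LD 3 2 e D N ∧ 2 ^ 2 * (3 * e) + 2 ^ 2 = 2 ^ T ∧
    eta 2 D N {0, 1} = -s
  od : ¬ Even T → 5 ≤ T → ∃ e D, LD 3 3 e D N ∧ 2 ^ 3 * (3 * e) + 2 ^ 3 = 2 ^ T ∧
    eta 3 D N {0, 1} = 0 ∧ eta 3 D N {0, 2} = -s

/-! ### case (2b), `k = 3`, end -/

theorem k3_rel (hi : 2 ≤ i) (h : LD 3 i e D N) (hS : USys (i + 3) θ False ν N)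
    (hAs : ∑ a ∈ (Ioo i (i + 3)).erase (i + 2), 2 ^ a + 2 ^ i = 2 ^ i * (3 * e)) :
    Nn i D N (Car 3 (mo (ZMod 3) (Ico 2 (i + 1)) 0)) + v01 i (eta i D N) + eta i D N {0, 1} = 0 := by
  have hP := pe_top (T := i + 3) (by omega) hAs
  have e3 : i + 3 - 1 = i + 2 := by omega
  rw [e3] at hP
  have h4i : 2 ^ (i + 2) = 4 * 2 ^ i := by rw [pow_add]; ring
  have hK : ({0, 1} : Finset ℕ) ⊆ range i := by
    intro a ha
    rw [mem_insert, mem_singleton] at ha
    rw [mem_range]; omega
  have hdis : Disjoint {i + 2} (Ico 2 i) := by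
    rw [disjoint_singleton_left, mem_Ico]
    omega
  have hcard : #({i + 2} ∪ Ico 2 i) = 1 + (i - 2) := by
    rw [card_union_of_disjoint hdis, card_singleton, Nat.card_Ico]
  have h3 := hS ({i + 2} ∪ Ico 2 i) 0 ?_ (by omega) (fun h => h.elim)
  · have hE : ∀ q ∈ ({i + 2} : Finset ℕ), i < q := by simp
    have hR : ∑ q ∈ ({i + 2} : Finset ℕ), 2 ^ q = 2 ^ i * (3 * e + 1) := by
      rw [sum_singleton]; rw [mul_add, mul_one]; omega
    have hco : range (i + 3) \ ({i + 2} ∪ Ico 2 i) = insert (i + 1) (insert i {0, 1}) := by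
      ext a
      simp only [mem_sdiff, mem_range, mem_union, mem_insert, mem_singleton, mem_Ico]
      omega
    have hins : insert i (Ico 2 i) = Ico 2 (i + 1) := by
      ext a
      simp only [mem_insert, mem_Ico]
      omega
    unfold VT at h3
    rw [if_pos (by omega), hco, loc_1d three_ne_two h hi hE hR, hins,
      rel_k3 h hS hAs hK (by decide) (by decide)] at h3
    have hown := eta_own three_ne_two h hS (q := i + 2) (by omega) (by omega)
      (fun h => h.elim) hAs hK (by decide) (by decide)
    rw [pow_zero, one_mul] at h3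
    linear_combination h3 + hown
  · intro a ha
    rw [mem_union, mem_singleton, mem_Ico] at ha
    rw [mem_Ico]
    omega

theorem v01_zero {η : Finset ℕ → ZMod 3} (h : 4 ≤ i → η {0, 1, 2, 3} = 0) : v01 i η = 0 := by
  unfold v01
  split_ifs with h1 h2
  · rw [c1564, neg_zero, zero_mul]
  · rw [c38, h h2, neg_zero, zero_mul, mul_zero, add_zero]
  · rw [c38, neg_zero, zero_mul, add_zero]

theorem eta_zero_k3 (hi : 2 ≤ i) (h : LD 3 i e D N) (hS : USys (i + 3) θ False ν N)
    (hAs : ∑ a ∈ (Ioo i (i + 3)).erase (i + 2), 2 ^ a + 2 ^ i = 2 ^ i * (3 * e))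
    {s : ZMod 3} (hG : G3S (i + 1) s (nuT i (eta i D N) ν) (Nn i D N))
    {K : Finset ℕ} (hK : K ⊆ range i) (h0 : 0 ∈ K) (hev : Even #K) : eta i D N K = 0 := by
  have hnu : ∀ K ⊆ range i, nuT i (eta i D N) ν K = eta i D N K := fun K hK =>
    nuT_of_notMem (fun h => by have := mem_range.1 (hK h); omega)
  have hrel := k3_rel hi h hS hAs
  rw [v01_zero (fun h4 => by
    rw [← hnu {0, 1, 2, 3} (by
      intro a ha
      simp only [mem_insert, mem_singleton] at ha
      rw [mem_range]; omega)]
    exact hG.nu.hbig _ (by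
      intro a ha
      simp only [mem_insert, mem_singleton] at ha
      rw [mem_range]; omega) (by decide) (by decide) ⟨3, by decide, le_rfl⟩), add_zero] at hrel
  have h01 : nuT i (eta i D N) ν {0, 1} = eta i D N {0, 1} := hnu _ (by
    intro a ha
    simp only [mem_insert, mem_singleton] at ha
    rw [mem_range]; omega)
  rcases Nat.lt_or_ge i 3 with h2 | h3
  · have : i = 2 := by omega
    subst this
    have e1 : Ico 2 (2 + 1) = {2} := by decide
    rw [e1, Car_two (by norm_num), map_zero, zero_add] at hrel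
    rw [pair_of_range_two hK h0 hev]
    exact hrel
  · have hs : s = 0 := by
      by_cases hp : Even (i + 1)
      · obtain ⟨e', D', hL, hP, hη⟩ := hG.ev hp (by omega)
        have e1 : Ico 2 (i + 1) = Ico 2 (i + 1) ∪ ∅ := by rw [union_empty]
        have hsum := sum_Ico_pow (i := 2) (T := i + 1) (by omega)
        rw [e1, loc_0b three_ne_two hL (fun a ha => (mem_Ico.1 ha).1) (empty_subset _) (by omega)
          (by decide), Car_one (by norm_num), map_zero, zero_add, pow_zero, one_mul,
          if_neg (by simp)] at hrel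
        have e2 : range 2 \ ∅ = {0, 1} := by decide
        rw [e2, hη, ← h01, hG.nu.h01, if_pos hp, c4] at hrel
        have h4 : (2 : ZMod 3) * s = 0 := by linear_combination hrel
        exact (mul_eq_zero.1 h4).resolve_left (two_ne_zero' three_ne_two)
      · have hi4 : 4 ≤ i := by
          rcases Nat.lt_or_ge i 4 with h5 | h5
          · exfalso
            apply hp
            have : i = 3 := by omega
            subst this
            decide
          · exact h5
        obtain ⟨e', D', hL, hP, hη1, hη2⟩ := hG.od hp (by omega)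
        have e1 : Ico 2 (i + 1) = Ico 3 (i + 1) ∪ {2} := by
          ext a
          simp only [mem_Ico, mem_union, mem_singleton]
          omega
        have hsum := sum_Ico_pow (i := 3) (T := i + 1) (by omega)
        rw [e1, loc_0b three_ne_two hL (fun a ha => (mem_Ico.1 ha).1) (by decide) (by omega)
          (by decide), Car_two (by norm_num), map_zero, zero_add, pow_zero, one_mul,
          if_pos (by decide), zero_add, ← h01, hG.nu.h01, if_neg hp] at hrel
        exact neg_eq_zero.1 hrel
    rw [← hnu K hK]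
    exact hG.nu.zero hs (hK.trans (range_mono (by omega))) h0 hev

/-! ### the functional vanishes -/

theorem exists_four_pow (u : ℕ) : ∃ e, 3 * e + 1 = 4 ^ u := by
  induction u with
  | zero => exact ⟨0, rfl⟩
  | succ u ih =>
    obtain ⟨e, he⟩ := ih
    exact ⟨4 * e + 1, by rw [pow_succ, ← he]; ring⟩

theorem exists_LD (hi : 1 ≤ i) (hT : i + 2 ≤ T) (hev : Even (T - i))
    (hN : ∀ f ∈ FQ (ZMod 3) (2 ^ T / (3 : ℕ)), N f = 0) :
    ∃ e D, LD 3 i e D N ∧ 2 ^ i * (3 * e) + 2 ^ i = 2 ^ T ∧
      ∀ K ⊆ range i, 0 ∈ K → Even #K → eta i D N K = 0 := by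
  obtain ⟨u, hu⟩ := hev
  obtain ⟨e, he⟩ := exists_four_pow u
  have h4 : 2 ^ (T - i) = 4 ^ u := by
    rw [hu, ← two_mul, pow_mul]
    norm_num
  have hP : 2 ^ i * (3 * e) + 2 ^ i = 2 ^ T := by
    have h5 : 2 ^ T = 2 ^ i * 2 ^ (T - i) := by rw [← pow_add]; congr 1; omega
    rw [h5, h4, ← he]
    ring
  have hodd : Odd e := by
    have hu1 : 1 ≤ u := by omega
    obtain ⟨w, rfl⟩ := Nat.exists_eq_add_of_le hu1
    rw [pow_add, pow_one] at he
    rcases Nat.even_or_odd e with h5 | h5
    · exfalso
      obtain ⟨c, hc⟩ := h5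
      omega
    · exact h5
  obtain ⟨D, hD, hDs⟩ := exists_digits i hodd
  have hPZ : (2 : ℤ) ^ i * (3 * e) + 2 ^ i = 2 ^ T := by exact_mod_cast hP
  have hle : (2 : ℤ) ^ i * e ≤ 2 ^ T / (3 : ℕ) := by
    rw [Int.le_ediv_iff_mul_le (by norm_num)]
    have : (0 : ℤ) < 2 ^ i := by positivity
    push_cast
    linarith
  refine ⟨e, D, ⟨hi, hodd, hD, hDs, fun f hf => hN f (FQ_mono (by linarith) hf)⟩, hP, ?_⟩
  intro K hK h0 hevK
  have h3 := two_le_card_of_even h0 hevK
  obtain ⟨k, hk⟩ := hevK
  have hc := card_compl hK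
  unfold eta
  rw [hN, mul_zero]
  apply FQ_mono hle
  have f1 : (D ∪ (range i \ K)).filter (i ≤ ·) = D := by
    ext a
    simp only [mem_filter, mem_union, mem_sdiff, mem_range]
    constructor
    · rintro ⟨h1 | h1, h4⟩
      · exact h1
      · omega
    · intro h1
      exact ⟨Or.inl h1, (hD a h1).le⟩
  have f2 : (D ∪ (range i \ K)).filter (· < i) = range i \ K := by
    ext a
    simp only [mem_filter, mem_union, mem_sdiff, mem_range]
    constructor
    · rintro ⟨h1 | h1, h4⟩
      · have := hD a h1
        omega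
      · exact h1
    · intro h1
      exact ⟨Or.inr h1, h1.1⟩
  have hR : ∑ s ∈ (D ∪ (range i \ K)).filter (i ≤ ·), (2 : ℤ) ^ s = 2 ^ i * ((e : ℤ) - 1) := by
    rw [f1]
    have : ((∑ d ∈ D, 2 ^ d + 2 ^ i : ℕ) : ℤ) = ((2 ^ i * e : ℕ) : ℤ) := by rw [hDs]
    push_cast at this
    linarith
  have hO := ol_of_weight_le (l := #K / 2 - 1) hR (by rw [f2]; omega)
  rw [sub_add_cancel] at hO
  refine Submodule.subset_span ⟨_, _, rfl, ?_, hO⟩
  rw [mem_union, mem_sdiff]
  rintro (h1 | h1)
  · have := hD 0 h1
    omega
  · exact h1.2 h0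

/-- the solutions of `G(T)`, `p = 3` -/
theorem G3 (T : ℕ) : 2 ≤ T → ∀ (θ : ZMod 3) (ν : Finset ℕ → ZMod 3)
    (N : (ZMod 3)[X][X] →ₗ[ZMod 3] ZMod 3), USys T θ False ν N → ∃ s, G3S T s ν N := by
  induction T using Nat.strong_induction_on with
  | _ T IH =>
  intro hT θ ν N hS
  rcases Nat.lt_or_ge T 4 with hT4 | hT4
  · rcases Nat.lt_or_ge T 3 with hT3 | hT3
    · have : T = 2 := by omega
      subst this
      refine ⟨ν {0, 1}, ⟨by rw [if_pos (by decide)], by omega, ?_⟩, by omega, by omega⟩
      rintro K hK - - ⟨m, hm, h3⟩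
      have := mem_range.1 (hK hm)
      omega
    · have : T = 3 := by omega
      subst this
      have h12 : ν {0, 2} + ν {0, 1} = 0 := by
        have h1 := hS ∅ 0 (empty_subset _) (by decide) (fun h => h.elim)
        rw [Car_one (by norm_num), map_zero, zero_add] at h1
        unfold VT at h1
        rw [if_neg (by decide), if_pos (by decide), pow_zero, one_mul, c4, one_mul] at h1
        have h4 : (range 3 \ ∅).filter (· + 1 < 3) = {0, 1} := by decide
        rw [h4, sum_pair (by norm_num), if_neg (by decide), if_neg (by decide), one_mul,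
          one_mul] at h1
        exact h1
      refine ⟨ν {0, 2}, ⟨?_, fun _ => by rw [if_neg (by decide)], ?_⟩, by omega, by omega⟩
      · rw [if_neg (by decide)]
        linear_combination h12
      · rintro K hK - - ⟨m, hm, h3⟩
        have := mem_range.1 (hK hm)
        omega
  · by_cases hz : ∀ f ∈ FQ (ZMod 3) (2 ^ T / (3 : ℕ)), N f = 0
    · -- case 0
      have hZ : Null T N := null_of_zero three_ne_two hz
      refine ⟨0, ⟨?_, fun _ => ?_, ?_⟩, ?_, ?_⟩
      · rw [null_01 three_ne_two hZ hS (fun h => h.elim) hT4 (fun h => h.elim), neg_zero, ite_self]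
      · rw [null_02 three_ne_two hZ hS (fun h => h.elim) hT4 (fun h => h.elim), ite_self]
      · rintro K hK h0 hev ⟨m, hm, hm3⟩
        by_cases h4 : 4 ≤ #K
        · exact null_four three_ne_two hZ hS hK h0 hev h4 (fun h => h.elim)
        · obtain ⟨m', hm0, rfl⟩ := pair_form h0 hev h4
          have hmm : m = m' := by
            rw [mem_insert, mem_singleton] at hm
            omega
          subst hmm
          exact null_pair three_ne_two hZ hS (fun h => h.elim) hm3 (mem_range.1 (hK hm))
            (fun h => h.elim)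
      · intro hev h4
        obtain ⟨e, D, hL, hP, hη⟩ := exists_LD (i := 2) (by omega) (by omega)
          (by obtain ⟨c, hc⟩ := hev; exact ⟨c - 1, by omega⟩) hz
        exact ⟨e, D, hL, hP, by rw [hη _ (by decide) (by decide) (by decide), neg_zero]⟩
      · intro hod h5
        obtain ⟨e, D, hL, hP, hη⟩ := exists_LD (i := 3) (by omega) (by omega)
          (by
            rcases Nat.even_or_odd T with h | h
            · exact absurd h hod
            · obtain ⟨c, hc⟩ := h; exact ⟨c - 1, by omega⟩) hz
        exact ⟨e, D, hL, hP, hη _ (by decide) (by decide) (by decide),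
          by rw [hη _ (by decide) (by decide) (by decide), neg_zero]⟩
    · -- leading exponent
      push Not at hz
      obtain ⟨i, e, D, hL, hle, hi, K₀, hK₀, h0₀, hev₀, hne⟩ := lead hz
      obtain ⟨A, hA, hAT, hiT, hAs⟩ := exists_A three_ne_two hL.he hle
      rcases digit_cases hA hAT hiT with hc | hc | ⟨q, hq, hqT, hc⟩
      · exact absurd (eta_zero_of_small three_ne_two hL hS hA hAT hAs hc hK₀ h0₀ hev₀) hne
      · -- case (3)
        rw [hc] at hAs
        have hP := pe_eq' hiT hAs
        have hi2T : i + 2 ≤ T := by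
          by_contra h5
          have h6 : T = i + 1 := by omega
          rw [h6, pow_succ] at hP
          have h7 := hL.he.pos
          have h8 : 1 ≤ 2 ^ i := Nat.one_le_two_pow
          have h9 : 2 ^ i * 3 ≤ 2 ^ i * (3 * e) := Nat.mul_le_mul_left _ (by omega)
          omega
        have hbig : ∀ K ⊆ range T, 0 ∈ K → Even #K → (∃ m ∈ K, i ≤ m) → ν K = 0 :=
          fun K hK h0 hev hm => nu_zero_full three_ne_two hL hS (fun h => h.elim) hi (by omega)
            (fun h => h.elim) hAs hK h0 hev (fun h => h.elim) hm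
        have hU := usys3 three_ne_two hL hS (fun h => h.elim) hi (by omega) (fun h => h.elim) hAs
        obtain ⟨s, hG⟩ := IH i hiT hi 1 ν _ hU
        have hrel : ∀ K ⊆ range i, 0 ∈ K → Even #K →
            eta i D N K = -(1 / 4) * (if i - 1 ∈ K then ν K else 0) :=
          fun K hK h0 hev => eta_rel3 three_ne_two hL hS (fun h => h.elim) hi (by omega)
            (fun h => h.elim) hAs hK h0 hev
        have hev2 : Even (T - i) := by
          have h5 : 2 ^ (T - i) = 3 * e + 1 := by
            have h6 : 2 ^ i * 2 ^ (T - i) = 2 ^ i * (3 * e + 1) := by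
              rw [← pow_add, Nat.add_sub_cancel' hiT.le, ← hP]
              ring
            exact Nat.eq_of_mul_eq_mul_left (by positivity) h6
          rcases Nat.even_or_odd (T - i) with h6 | h6
          · exact h6
          · exfalso
            obtain ⟨c, hc'⟩ := h6
            rw [hc', pow_succ, pow_mul] at h5
            obtain ⟨e', he'⟩ := exists_four_pow c
            norm_num at h5
            omega
        rcases Nat.lt_or_ge i 4 with hi4 | hi4
        · have hi23 : i = 2 ∨ i = 3 := by omega
          rcases hi23 with rfl | rfl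
          · -- level 2
            have hTe : Even T := by
              obtain ⟨c, hc'⟩ := hev2
              exact ⟨c + 1, by omega⟩
            refine ⟨ν {0, 1}, ⟨by rw [if_pos hTe], fun _ => ?_, ?_⟩, fun _ _ => ?_, fun h => absurd hTe h⟩
            · rw [if_pos hTe]
              exact hbig _ (by
                intro a ha
                simp only [mem_insert, mem_singleton] at ha
                rw [mem_range]; omega) (by decide) (by decide) ⟨2, by decide, le_rfl⟩
            · rintro K hK h0 hev ⟨m, hm, hm3⟩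
              exact hbig K hK h0 hev ⟨m, hm, by omega⟩
            · refine ⟨e, D, hL, hP, ?_⟩
              rw [hrel _ (by decide) (by decide) (by decide), if_pos (by decide), c4]
              ring
          · -- level 3
            have hTo : ¬ Even T := by
              obtain ⟨c, hc'⟩ := hev2
              intro h
              obtain ⟨d, hd⟩ := h
              omega
            have h01 := hG.nu.h01
            have h02 := hG.nu.h02 le_rfl
            rw [if_neg (by decide)] at h01 h02
            refine ⟨s, ⟨by rw [if_neg hTo]; exact h01, fun _ => by rw [if_neg hTo]; exact h02, ?_⟩,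
              fun h => absurd h hTo, fun _ _ => ?_⟩
            · rintro K hK h0 hev ⟨m, hm, hm3⟩
              exact hbig K hK h0 hev ⟨m, hm, hm3⟩
            · refine ⟨e, D, hL, hP, ?_, ?_⟩
              · rw [hrel _ (by decide) (by decide) (by decide), if_neg (by decide), mul_zero]
              · rw [hrel _ (by decide) (by decide) (by decide), if_pos (by decide), c4, h02]
                ring
        · exfalso
          apply hne
          rw [hrel K₀ hK₀ h0₀ hev₀]
          split_ifs with h5
          · rw [hG.nu.hbig K₀ hK₀ h0₀ hev₀ ⟨i - 1, h5, by omega⟩, mul_zero]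
          · rw [mul_zero]
      · -- case (2)
        exfalso
        apply hne
        rw [hc] at hAs
        by_cases hqT1 : q + 1 < T
        · exact eta_zero_2a three_ne_two hL hS (fun h => h.elim) hq hqT1 (fun h => h.elim) hAs hK₀ h0₀
            hev₀
        · have hqe : q = T - 1 := by omega
          subst hqe
          have hP := pe_top (by omega) hAs
          rcases Nat.lt_or_ge (i + 3) T with h6 | h6
          · exact eta_zero_2b5 hL hS (by omega) hAs hK₀ h0₀ hev₀
          · have hi3 : T = i + 3 := by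
              have h8 : 1 ≤ 2 ^ i := Nat.one_le_two_pow
              have h7 := hL.he.pos
              have h9 : 2 ^ i * 3 ≤ 2 ^ i * (3 * e) := Nat.mul_le_mul_left _ (by omega)
              have h10 : 2 ^ (i + 1) < 2 ^ (T - 1) := by rw [pow_succ]; omega
              have h11 := (Nat.pow_lt_pow_iff_right (by norm_num)).1 h10
              omega
            subst hi3
            have e3 : i + 3 - 1 = i + 2 := by omega
            rw [e3] at hAs
            obtain ⟨s, hG⟩ := IH (i + 1) (by omega) (by omega) 0 _ _ (usys_k3 hL hS hAs)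
            exact eta_zero_k3 hi hL hS hAs hG hK₀ h0₀ hev₀

end three

end Dyn59
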