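import Pool.Agent.H.MP_d59dab.Ext

/-!
# MP_d59dab, p = 3: the coefficients of `z` in `x_r`, `x_1 x_r`, and the coordinates of
`Car (x_(i+1) x_m G)`
-/

set_option autoImplicit false

open Finset Polynomial

noncomputable section

namespace Dyn59

section ring

variable {R : Type*} [CommRing R]

theorem xi_one_eq : xi R 1 = X ^ 2 + C X := by
  rw [xi_succ, xi_zero, sig_X]

theorem xi_mod_z2_aux (r : ℕ) (U : R[X][X])
    (hU : U = ∑ k ∈ Icc 1 r, C (C ((2 : R) ^ (r - k))) * X ^ (2 ^ r - 2 ^ k)) :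
    ∑ k ∈ Icc 1 (r + 1), C (C ((2 : R) ^ (r + 1 - k))) * X ^ (2 ^ (r + 1) - 2 ^ k)
      = 2 * X ^ 2 ^ r * U + 1 := by
  rw [sum_Icc_succ_top (by omega)]
  rw [Nat.sub_self (r + 1), Nat.sub_self (2 ^ (r + 1)),
    pow_zero (2 : R), pow_zero (X : R[X][X]), C_1, C_1, one_mul, hU, mul_sum]
  rw [add_left_inj]
  apply sum_congr rfl
  intro k hk
  rw [mem_Icc] at hk
  have h3 : 2 ^ (r + 1) - 2 ^ k = 2 ^ r + (2 ^ r - 2 ^ k) := by
    have : 2 ^ k ≤ 2 ^ r := Nat.pow_le_pow_right (by norm_num) hk.2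
    rw [pow_succ]
    omega
  have h4 : r + 1 - k = (r - k) + 1 := by omega
  rw [h3, h4, pow_add (X : R[X][X]), pow_succ (2 : R) (r - k), C_mul, C_mul]
  have h5 : (C (C (2 : R)) : R[X][X]) = 2 := by
    rw [show (C (2 : R) : R[X]) = 2 from map_ofNat C 2]
    exact map_ofNat C 2
  rw [h5]
  ring

/-- `x_r` modulo `z ^ 2` -/
theorem xi_mod_z2 (r : ℕ) : ∃ W : R[X][X], xi R r = X ^ 2 ^ r
    + C X * ∑ k ∈ Icc 1 r, C (C ((2 : R) ^ (r - k))) * X ^ (2 ^ r - 2 ^ k) + C X ^ 2 * W := by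
  induction r with
  | zero =>
    refine ⟨0, ?_⟩
    rw [xi_zero]
    simp
  | succ r ih =>
    obtain ⟨W, hW⟩ := ih
    set U : R[X][X] := ∑ k ∈ Icc 1 r, C (C ((2 : R) ^ (r - k))) * X ^ (2 ^ r - 2 ^ k) with hU
    refine ⟨U ^ 2 + 2 * X ^ 2 ^ r * W + 2 * C X * U * W + C X ^ 2 * W ^ 2, ?_⟩
    have h1 : xi R (r + 1) = xi R r ^ 2 + C X := by rw [xi_sq]; ring
    have h2 := xi_mod_z2_aux r U hU
    have h6 : (X ^ 2 ^ (r + 1) : R[X][X]) = (X ^ 2 ^ r) ^ 2 := by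
      rw [← pow_mul, pow_succ 2 r]
    rw [h1, h2, hW, h6]
    generalize (X ^ 2 ^ r : R[X][X]) = A
    generalize U = U'
    ring

theorem coeff_CX_mul (P : R[X][X]) (a b : ℕ) :
    ((C X * P).coeff a).coeff (b + 1) = (P.coeff a).coeff b := by
  rw [coeff_C_mul, coeff_X_mul]

theorem coeff_CX_mul_zero (P : R[X][X]) (a : ℕ) : ((C X * P).coeff a).coeff 0 = 0 := by
  rw [coeff_C_mul, coeff_X_mul_zero]

theorem coeff_z1 (A U W : R[X][X]) (a : ℕ) :
    ((A + C X * U + C X ^ 2 * W).coeff a).coeff 1 = (A.coeff a).coeff 1 + (U.coeff a).coeff 0 := by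
  have h : C X ^ 2 * W = C X * (C X * W) := by ring
  rw [h, coeff_add, coeff_add, coeff_add, coeff_add, coeff_CX_mul _ a 0, coeff_CX_mul _ a 0,
    coeff_CX_mul_zero, add_zero]

/-- the coefficient of `z` in `x_r` -/
theorem xi_coeff_one (r a : ℕ) : ((xi R r).coeff a).coeff 1
    = ∑ k ∈ Icc 1 r, if a = 2 ^ r - 2 ^ k then (2 : R) ^ (r - k) else 0 := by
  obtain ⟨W, hW⟩ := xi_mod_z2 (R := R) r
  rw [hW, coeff_z1, coeff_X_pow]
  have h1 : ((if a = 2 ^ r then (1 : R[X]) else 0)).coeff 1 = 0 := by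
    split_ifs
    · rw [coeff_one, if_neg one_ne_zero]
    · rw [coeff_zero]
  rw [h1, zero_add, finsetSum_coeff, finsetSum_coeff]
  apply sum_congr rfl
  intro k _
  rw [coeff_C_mul, coeff_X_pow]
  split_ifs with h
  · rw [mul_one, coeff_C_zero]
  · rw [mul_zero, coeff_zero]

/-- the special value at `X ^ (2 ^ r - 4)` -/
theorem xi_coeff_one_four {r : ℕ} (hr : 2 ≤ r) :
    ((xi R r).coeff (2 ^ r - 4)).coeff 1 = (2 : R) ^ (r - 2) := by
  rw [xi_coeff_one, sum_eq_single 2]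
  · rw [if_pos (by norm_num)]
  · intro k hk hk2
    rw [mem_Icc] at hk
    rw [if_neg]
    intro h
    apply hk2
    have h3 : 2 ^ k ≤ 2 ^ r := Nat.pow_le_pow_right (by norm_num) hk.2
    have h4 : 2 ^ 2 ≤ 2 ^ r := Nat.pow_le_pow_right (by norm_num) hr
    have h5 : 2 ^ k = 2 ^ 2 := by omega
    exact Nat.pow_right_injective le_rfl h5
  · intro h
    exact absurd (mem_Icc.2 ⟨by omega, hr⟩) h

theorem xi_coeff_zero (r a : ℕ) : ((xi R r).coeff a).coeff 0 = if a = 2 ^ r then 1 else 0 := by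
  have h := coeff_xS_zero (R := R) {r} a
  have h1 : xS R {r} = xi R r := by
    unfold xS
    rw [prod_singleton]
  have h3 : bw {r} = 2 ^ r := by
    unfold bw
    rw [sum_singleton]
  rw [h1, h3] at h
  exact h

/-- the coefficient of `X ^ (2 ^ r - 2) z` in `x_1 x_r` -/
theorem xS_one_r_coeff {r : ℕ} (hr : 2 ≤ r) :
    ((xS R {1, r}).coeff (2 ^ r - 2)).coeff 1 = (2 : R) ^ (r - 2) := by
  have h1 : xS R {1, r} = X ^ 2 * xi R r + C X * xi R r := by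
    unfold xS
    rw [prod_pair (by omega), xi_one_eq]
    ring
  have h4 : 2 ^ 2 ≤ 2 ^ r := Nat.pow_le_pow_right (by norm_num) hr
  have h2 : 2 ^ r - 2 = (2 ^ r - 4) + 2 := by omega
  rw [h1, coeff_add, coeff_add, coeff_CX_mul _ _ 0, xi_coeff_zero, if_neg (by omega), add_zero,
    h2, coeff_X_pow_mul, xi_coeff_one_four hr]

theorem sum2_eq' (n B : ℕ) (F : ℕ → ℕ → R) (T : Finset (ℕ × ℕ))
    (hT : ∀ q ∈ T, ¬ (q.1 ≤ n ∧ q.2 ≤ B) → F q.1 q.2 = 0)
    (h0 : ∀ x y, x ≤ n → y ≤ B → (x, y) ∉ T → F x y = 0) :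
    ∑ x ∈ range (n + 1), ∑ y ∈ range (B + 1), F x y = ∑ q ∈ T, F q.1 q.2 := by
  rw [sum2_eq n B F (T.filter (fun q => q.1 ≤ n ∧ q.2 ≤ B)), sum_filter]
  · apply sum_congr rfl
    intro q hq
    split_ifs with h
    · rfl
    · exact (hT q hq h).symm
  · intro q hq
    exact (mem_filter.1 hq).2
  · intro x y hx hy h
    apply h0 x y hx hy
    intro h1
    exact h (mem_filter.2 ⟨h1, hx, hy⟩)

theorem coeff_mul_zc0 (A P : R[X][X]) (n B : ℕ) :
    ((A * P).coeff n).coeff B = ∑ x ∈ range (n + 1), ∑ y ∈ range (B + 1),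
      (A.coeff (n - x)).coeff y * zc P x ((B : ℤ) - y) := by
  have h := coeff_mul_zc A P 0 n B
  have h1 : (C (X ^ 0) * P : R[X][X]) = P := by
    rw [pow_zero, C_1, one_mul]
  rw [h1] at h
  rw [h]
  apply sum_congr rfl
  intro x _
  apply sum_congr rfl
  intro y _
  push_cast
  rw [sub_zero]

end ring

end Dyn59
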