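import Pool.Agent.H.MP_d59dab.LocD
import Pool.Agent.H.MP_d59dab.P3Bz

/-!
# MP_d59dab, `p = 3`: the local value `rho = 3`
-/

set_option autoImplicit false

open Finset Polynomial

noncomputable section

namespace Dyn59

/-! ### generalities -/

theorem exists_factor {k M : Type*} [Field k] [AddCommGroup M] [Module k M] (V : Submodule k M)
    (c : M →ₗ[k] M) (φ : M →ₗ[k] k) (h : ∀ g ∈ V, c g = 0 → φ g = 0) :
    ∃ L : M →ₗ[k] k, ∀ g ∈ V, φ g = L (c g) := by
  have h1 : φ.domRestrict V ∈ (LinearMap.ker (c.domRestrict V)).dualAnnihilator := by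
    rw [Submodule.mem_dualAnnihilator]
    intro w hw
    rw [LinearMap.mem_ker] at hw
    exact h w.1 w.2 hw
  rw [← LinearMap.range_dualMap_eq_dualAnnihilator_ker] at h1
  obtain ⟨L, hL⟩ := h1
  refine ⟨L, fun g hg => ?_⟩
  have h2 := LinearMap.congr_fun hL ⟨g, hg⟩
  exact h2.symm

section ring

variable {R : Type*} [CommRing R]

theorem zc_smul (c : R) (P : R[X][X]) (x : ℕ) (B : ℤ) : zc (c • P) x B = c * zc P x B := by
  unfold zc
  split_ifs
  · rw [coeff_smul, coeff_smul, smul_eq_mul]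
  · rw [mul_zero]

/-- the coefficient functional -/
def zcL (R : Type*) [CommRing R] (x : ℕ) (B : ℤ) : R[X][X] →ₗ[R] R where
  toFun P := zc P x B
  map_add' P Q := zc_add P Q x B
  map_smul' c P := by
    rw [zc_smul, RingHom.id_apply, smul_eq_mul]

theorem zcL_apply (x : ℕ) (B : ℤ) (P : R[X][X]) : zcL R x B P = zc P x B := rfl

/-- the degree in terms of the basis -/
theorem deg_mem_SP (d : ℕ) {f : R[X][X]} (h : f.natDegree ≤ d) :
    f ∈ SP R (fun S _ => nS S ≤ d) := by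
  rw [as_sum_range_C_mul_X_pow' f (n := d + 1) (by omega)]
  apply Submodule.sum_mem
  intro a ha
  rw [mem_range] at ha
  have h1 : ∀ g : R[X], C g * X ^ a ∈ SP R (fun S _ => nS S ≤ d) := by
    intro g
    induction g using Polynomial.induction_on' with
    | add p q hp hq =>
      rw [C_add, add_mul]
      exact Submodule.add_mem _ hp hq
    | monomial b c =>
      have h2 : (C (monomial b c) * X ^ a : R[X][X]) = c • (C (X ^ b) * X ^ a) := by
        rw [← C_mul_X_pow_eq_monomial, C_mul, Algebra.smul_def, mul_assoc]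
        rfl
      rw [h2]
      apply Submodule.smul_mem
      refine SP.C_pow_mul (P := fun S l => nS S + 2 * l ≤ a) ?_ (X_pow_mem_SP a)
      intro S l hS
      omega
  exact h1 _

end ring

theorem co_degree {F : Type*} [Field F] {f : F[X][X]} {S : Finset ℕ} {l : ℕ}
    (h : co S l f ≠ 0) : nS S ≤ f.natDegree :=
  mem_SP_iff.1 (deg_mem_SP f.natDegree le_rfl) S l h

section zmod

variable {p : ℕ} [hp : Fact p.Prime]

/-- `AK` as a linear functional -/
theorem AK_add (i e : ℕ) (K : Finset ℕ) (f g : (ZMod p)[X][X]) :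
    AK i e K (f + g) = AK i e K f + AK i e K g := by
  unfold AK
  rw [mul_add, map_add, coeff_add, coeff_add]

theorem AK_smul (i e : ℕ) (K : Finset ℕ) (c : ZMod p) (f : (ZMod p)[X][X]) :
    AK i e K (c • f) = c * AK i e K f := by
  unfold AK
  rw [mul_smul_comm, map_smul, coeff_smul, coeff_smul, smul_eq_mul]

theorem AK_zero (i e : ℕ) (K : Finset ℕ) : AK i e K (0 : (ZMod p)[X][X]) = 0 := by
  unfold AK
  rw [mul_zero, map_zero, coeff_zero, coeff_zero]

/-- a set is determined by its lower and upper parts -/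
theorem eq_of_lo_hi {i : ℕ} {S S' : Finset ℕ} (h1 : range i \ S = range i \ S')
    (h2 : bw (hi i S) = bw (hi i S')) : S = S' := by
  have h3 : S.filter (i ≤ ·) = S'.filter (i ≤ ·) := by
    apply finset_eq_of_sum
    rw [sum_hi', sum_hi', h2]
  ext s
  by_cases hs : s < i
  · have h4 : s ∈ range i \ S ↔ s ∈ range i \ S' := by rw [h1]
    rw [mem_sdiff, mem_sdiff, mem_range] at h4
    tauto
  · have h4 : s ∈ S.filter (i ≤ ·) ↔ s ∈ S'.filter (i ≤ ·) := by rw [h3]
    rw [mem_filter, mem_filter] at h4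
    have : i ≤ s := not_lt.1 hs
    tauto

/-- `AK` is a coordinate -/
theorem AK_eq_co {i e : ℕ} (he : 0 < e) {F : (ZMod p)[X][X]} (hF : F.natDegree < 2 ^ i * (e + 1))
    {S : Finset ℕ} {l : ℕ} (hb : bw (hi i S) + 1 = e) (hl : l = #(range i \ S) / 2 - 1) :
    AK i e (range i \ S) F = co S l F := by
  have h1 : F ∈ SP (ZMod p) (fun S _ => bw (hi i S) ≤ e) := by
    rw [mem_SP_iff]
    intro S' l' h
    have h2 := co_degree h
    have h3 := bw_split i S'
    have h4 : nS S' = bw S' := rfl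
    have h5 : 2 ^ i * bw (hi i S') < 2 ^ i * (e + 1) := by omega
    have := Nat.lt_of_mul_lt_mul_left h5
    omega
  have hK : ∀ t ∈ range i \ S, t < i := fun t ht => mem_range.1 (mem_sdiff.1 ht).1
  refine SP.induction (Pr := fun F => AK i e (range i \ S) F = co S l F) ?_ ?_ ?_ ?_ h1
  · rw [AK_zero, co_zero]
  · intro f g hf hg
    rw [AK_add, co_add, hf, hg]
  · intro c f hf
    rw [AK_smul, co_smul, hf]
  · intro S' l' hS'
    rw [AK_mo he hK S' l' hS', co_mo]
    by_cases hc : S = S' ∧ l = l'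
    · rw [if_pos hc, if_pos]
      obtain ⟨rfl, rfl⟩ := hc
      exact ⟨by omega, rfl, hl⟩
    · rw [if_neg hc, if_neg]
      rintro ⟨h2, h3, h4⟩
      exact hc ⟨eq_of_lo_hi h3 (by omega), by rw [hl, h4]⟩

/-- odd part of `x_K^p x_I z^l` -/
theorem odi_pow_mo {i l : ℕ} {K I : Finset ℕ} (hK : ∀ t ∈ K, t < i) (hI : ∀ t ∈ I, t < i) :
    odi i (xS (ZMod p) K ^ p * mo (ZMod p) I l) = C (X ^ l) * PT (ex p K I) i := by
  have e1 : xS (ZMod p) K ^ p * mo (ZMod p) I l
      = (sig (ZMod p))^[i] (C (X ^ l)) * ∏ t ∈ range i, xi (ZMod p) t ^ ex p K I t := by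
    have e2 : ∏ t ∈ range i, xi (ZMod p) t ^ ex p K I t = xS (ZMod p) K ^ p * xS (ZMod p) I := by
      rw [xS_eq_prod hK, xS_eq_prod hI, ← prod_pow, ← prod_mul_distrib]
      apply prod_congr rfl
      intro t _
      unfold ex
      rw [← pow_mul, ← pow_add, mul_comm p]
    rw [e2, sigit_C]
    unfold mo
    ring
  rw [e1, odi_sig_mul, odi_prod]

end zmod

/-! ### `p = 3` -/

section three

variable {i e m : ℕ} {D : Finset ℕ} {N : (ZMod 3)[X][X] →ₗ[ZMod 3] ZMod 3}

theorem two_ne_three : (3 : ℕ) ≠ 2 := by norm_num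

/-- arithmetic of the exponents -/
theorem arith3 (he : Odd e) (hm : 2 ^ i * (3 * e + 1) = 2 ^ m) :
    ∃ r, 2 ≤ r ∧ m = i + r ∧ 3 * e + 1 = 2 ^ r ∧ ∃ e', Odd e' ∧ 2 * e' = e + 1 ∧
      3 * e' = 2 ^ (r - 1) + 1 := by
  have h1 : 2 ^ i < 2 ^ m := by
    rw [← hm]
    have : 0 < 2 ^ i := by positivity
    have h0 := he.pos
    nlinarith
  have h2 : i < m := (Nat.pow_lt_pow_iff_right (by norm_num)).1 h1
  obtain ⟨r, rfl⟩ := Nat.exists_eq_add_of_le h2.le
  have h3 : 3 * e + 1 = 2 ^ r := by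
    rw [pow_add] at hm
    exact Nat.eq_of_mul_eq_mul_left (by positivity) hm
  have h4 : 2 ≤ r := by
    by_contra hc
    have h0 := he.pos
    have : r = 0 ∨ r = 1 := by omega
    rcases this with rfl | rfl
    · omega
    · omega
  obtain ⟨k, hk⟩ := he
  refine ⟨r, h4, rfl, h3, k + 1, ?_, by omega, ?_⟩
  · have h5 : 2 ^ r = 4 * 2 ^ (r - 2) := by
      rw [show 4 = 2 ^ 2 by norm_num, ← pow_add, Nat.add_sub_cancel' h4]
    rw [Nat.odd_iff]
    omega
  · have h5 : 2 ^ r = 2 * 2 ^ (r - 1) := by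
      rw [← pow_succ', Nat.sub_add_cancel (by omega)]
    omega

theorem two_pow_three {r : ℕ} (hr : 2 ≤ r) (h : 3 * e + 1 = 2 ^ r) :
    (2 : ZMod 3) ^ (r - 2) = 1 := by
  have h1 : ((2 : ℕ) : ZMod 3) ^ r = 1 := by
    rw [← Nat.cast_pow, ← h]
    push_cast
    have : (3 : ZMod 3) = 0 := by decide
    rw [this, zero_mul, zero_add]
  have h2 : (2 : ZMod 3) ^ r = 2 ^ (r - 2) * 2 ^ 2 := by
    rw [← pow_add, Nat.sub_add_cancel hr]
  push_cast at h1
  rw [h2] at h1
  have h3 : (2 : ZMod 3) ^ 2 = 1 := by decide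
  rw [h3, mul_one] at h1
  exact h1

/-- the test space -/
def V3 (i : ℕ) : Submodule (ZMod 3) (ZMod 3)[X][X] :=
  SP (ZMod 3) (fun I l => I ⊆ Ico 1 i ∧ #I + 2 * l + 3 ≤ i)

/-- weights of the odd parts -/
theorem V3_weight {G : (ZMod 3)[X][X]} (hG : G ∈ V3 i) {K : Finset ℕ} (hK : K ∈ KK i) (x : ℕ)
    (B : ℤ) (h : zc (odi i (xS (ZMod 3) K ^ 3 * G)) x B ≠ 0) :
    2 * (x : ℤ) + 2 * B + 3 ≤ 2 * (3 * (#K / 2) : ℕ) := by
  have hK' := mem_KK.1 hK
  revert x B
  refine SP.induction (Pr := fun G => ∀ (x : ℕ) (B : ℤ),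
    zc (odi i (xS (ZMod 3) K ^ 3 * G)) x B ≠ 0 → 2 * (x : ℤ) + 2 * B + 3 ≤ 2 * (3 * (#K / 2) : ℕ))
    ?_ ?_ ?_ ?_ hG
  · intro x B h
    rw [mul_zero, map_zero] at h
    exfalso
    apply h
    unfold zc
    split_ifs
    · rw [coeff_zero, coeff_zero]
    · rfl
  · intro f g hf hg x B h
    rw [mul_add, map_add, zc_add] at h
    by_cases h1 : zc (odi i (xS (ZMod 3) K ^ 3 * f)) x B = 0
    · rw [h1, zero_add] at h
      exact hg x B h
    · exact hf x B h1
  · intro c f hf x B h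
    rw [mul_smul_comm, map_smul, zc_smul] at h
    exact hf x B (right_ne_zero_of_mul h)
  · rintro I l ⟨hI, hw⟩ x B h
    have hIlt : ∀ t ∈ I, t < i := fun t ht => (mem_Ico.1 (hI ht)).2
    rw [odi_pow_mo hK'.1 hIlt, zc_X_pow_mul] at h
    have h1 := term_bound two_ne_three hK'.1 hK'.2.2.1 hIlt h
    push_cast at h1 ⊢
    omega

theorem xS_pair_sig (i r : ℕ) : xS (ZMod 3) {i + 1, i + r} = (sig (ZMod 3))^[i] (xS (ZMod 3) {1, r}) := by
  rw [sigit_xS]
  congr 1
  ext s
  simp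

/-- the coordinate of `Car (x_(i+1) x_m G)` -/
theorem AK3 {r : ℕ} (hr : 2 ≤ r) (he : Odd e) (hre : 3 * e + 1 = 2 ^ r) {G : (ZMod 3)[X][X]}
    (hG : G ∈ V3 i) (hC : Car 3 G = 0) {K : Finset ℕ} (hK : K ∈ KK i) :
    AK i e K (Car 3 (xS (ZMod 3) {i + 1, i + r} * G))
      = zc (odi i (xS (ZMod 3) K ^ 3 * G)) 0 ((3 * (#K / 2) : ℕ) - 2) := by
  have hK' := mem_KK.1 hK
  have he0 := he.pos
  set Q := odi i (xS (ZMod 3) K ^ 3 * G) with hQ
  have hwt : ∀ (x : ℕ) (B : ℤ), zc Q x B ≠ 0 → 2 * (x : ℤ) + 2 * B + 3 ≤ 2 * (3 * (#K / 2) : ℕ) :=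
    fun x B h => V3_weight hG hK x B h
  have hk1 : 1 ≤ #K / 2 := by
    have := hK'.2.2.2
    omega
  have e1 : xS (ZMod 3) K ^ 3 * (xS (ZMod 3) {i + 1, i + r} * G)
      = (sig (ZMod 3))^[i] (xS (ZMod 3) {1, r}) * (xS (ZMod 3) K ^ 3 * G) := by
    rw [xS_pair_sig]
    ring
  have hbw : bw {1, r} = 3 * e + 3 := by
    unfold bw
    rw [sum_pair (by omega), ← hre]
    omega
  have hhw : 2 * hw {1, r} = 3 * e + 3 := by
    have h1 := bw_eq {1, r}
    rw [if_neg (by rw [mem_insert, mem_singleton]; omega)] at h1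
    omega
  rw [AK_Car two_ne_three he0 hK'.2.2.2, e1, odi_sig_mul, ← hQ, coeff_mul_zc0,
    sum2_eq' _ _ _ {(0, 1), (0, 2), (2, 3)}]
  · rw [sum_insert (by decide), sum_insert (by decide), sum_singleton]
    simp only
    have c1 : ((xS (ZMod 3) {1, r}).coeff (3 * e - 1 - 0)).coeff 1 = 1 := by
      have h1 := xS_one_r_coeff (R := ZMod 3) hr
      rw [two_pow_three hr hre] at h1
      rw [← h1]
      congr 2
      omega
    have c2 : ((xS (ZMod 3) {1, r}).coeff (3 * e - 1 - 0)).coeff 2 = 0 := by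
      rw [coeff_xS_top _ (by omega), choose_two_cast (by decide : (2 : ZMod 3) ≠ 0)]
      have h1 : ((hw {1, r} : ℕ) : ZMod 3) = 0 := by
        rw [ZMod.natCast_eq_zero_iff]
        omega
      rw [h1, zero_mul, zero_div]
    have c3 : zc Q 2 (((3 * (#K / 2) - 1 : ℕ) : ℤ) - (3 : ℕ)) = 0 := by
      by_cases hk2 : 2 ≤ #K / 2
      · have h1 : Car 3 Q = 0 := by
          rw [hQ, ← odi_Car two_ne_three, Car_pow_mul, hC, mul_zero, map_zero]
        have h3 : ((Car 3 Q).coeff 0).coeff (#K / 2 - 2) = 0 := by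
          rw [h1, coeff_zero, coeff_zero]
        rw [Car_coeff_coeff (by norm_num)] at h3
        unfold zc
        rw [if_pos (by omega)]
        rw [← h3]
        congr 1
        omega
      · exact zc_neg _ _ (by omega)
    rw [c1, c2, c3, one_mul, zero_mul, mul_zero, add_zero, add_zero]
    congr 1
    push_cast [Nat.cast_sub (show 1 ≤ 3 * (#K / 2) by omega)]
    ring
  · intro q hq hq2
    rw [mem_insert, mem_insert, mem_singleton] at hq
    rcases hq with rfl | rfl | rfl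
    · exfalso
      apply hq2
      simp only
      omega
    · exfalso
      apply hq2
      simp only
      omega
    · simp only at hq2 ⊢
      have h3 : 3 * (#K / 2) - 1 < 3 := by
        by_contra hcon
        apply hq2
        have : Odd e := he
        omega
      rw [zc_neg _ _ (by omega), mul_zero]
  · intro x y hx hy hq
    by_contra hc
    have hA := left_ne_zero_of_mul hc
    have hZ := hwt _ _ (right_ne_zero_of_mul hc)
    have h1 := coeff_xS_le _ _ _ hA
    rw [hbw] at h1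
    rw [mem_insert, mem_insert, mem_singleton, Prod.mk.injEq, Prod.mk.injEq, Prod.mk.injEq] at hq
    by_cases h5 : 3 * e - 1 - x + 2 * y = bw {1, r}
    · rw [hbw] at h5
      omega
    · have h6 := coeff_xS_low _ hA h5
      rw [hbw] at h6
      omega

end three

/-- `N` on an element of small degree -/
theorem N_eq_of_lt {p : ℕ} [hp : Fact p.Prime] {i e : ℕ} {D : Finset ℕ}
    {N : (ZMod p)[X][X] →ₗ[ZMod p] ZMod p} (h : LD p i e D N) {F : (ZMod p)[X][X]}
    (hF : F ∈ FQ (ZMod p) (2 ^ i * (e + 1) - 1)) (hd : F.natDegree < 2 ^ i * e) :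
    N F = ∑ K ∈ KK i, AK i e K F * ((-1) ^ (#K / 2 - 1) * eta i D N K) := by
  obtain ⟨f', h3, h4, h5⟩ := shape h hF
  have h8 : f' = 0 := by
    by_contra hne
    have hm := (xi_monic (ZMod p) i).1.pow e
    have h10 : (xi (ZMod p) i ^ e * f').natDegree < 2 ^ i * e := by
      have e1 : xi (ZMod p) i ^ e * f' = F - (F - xi (ZMod p) i ^ e * f') := by ring
      rw [e1]
      exact (natDegree_sub_le _ _).trans_lt (max_lt hd h4)
    rw [hm.natDegree_mul' hne, (xi_monic (ZMod p) i).1.natDegree_pow, (xi_monic (ZMod p) i).2] at h10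
    have : e * 2 ^ i = 2 ^ i * e := mul_comm _ _
    omega
  rw [h5, h8, mul_zero, map_zero, zero_add]
  apply sum_congr rfl
  intro K _
  rw [neg_one_mul_eta]

section three

variable {i e m : ℕ} {D : Finset ℕ} {N : (ZMod 3)[X][X] →ₗ[ZMod 3] ZMod 3}

theorem mo_union_eq {E I : Finset ℕ} {l : ℕ} (h : Disjoint E I) :
    mo (ZMod 3) (E ∪ I) l = xS (ZMod 3) E * mo (ZMod 3) I l := by
  unfold mo
  rw [xS_union h]
  ring

theorem disj3 {r : ℕ} {I : Finset ℕ} (hI : I ⊆ Ico 1 i) : Disjoint {i + 1, i + r} I := by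
  rw [disjoint_left]
  intro a h1 h2
  have := mem_Ico.1 (hI h2)
  rw [mem_insert, mem_singleton] at h1
  omega

theorem bw_succ_level {r e' : ℕ} (hr : 2 ≤ r) (h : 3 * e' = 2 ^ (r - 1) + 1) :
    bw (hi (i + 1) {i + 1, i + r}) = 3 * e' := by
  apply bw_of_sum
  · intro q hq
    rw [mem_insert, mem_singleton] at hq
    omega
  · rw [sum_pair (by omega), h, mul_add, mul_one, ← pow_add, show i + 1 + (r - 1) = i + r by omega,
      add_comm]

/-- the coordinates of level `i + 1` vanish -/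
theorem AK3_succ {r e' : ℕ} (hr : 2 ≤ r) (he' : Odd e') (h : 3 * e' = 2 ^ (r - 1) + 1)
    {G : (ZMod 3)[X][X]} (hG : G ∈ V3 i) {K : Finset ℕ} (hK : K ∈ KK (i + 1)) :
    AK (i + 1) e' K (Car 3 (xS (ZMod 3) {i + 1, i + r} * G)) = 0 := by
  have hK' := mem_KK.1 hK
  refine SP.induction (Pr := fun G =>
    AK (i + 1) e' K (Car 3 (xS (ZMod 3) {i + 1, i + r} * G)) = 0) ?_ ?_ ?_ ?_ hG
  · rw [mul_zero, Car_zero (by norm_num), AK_zero]
  · intro f g hf hg
    rw [mul_add, Car_add (by norm_num), AK_add, hf, hg, add_zero]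
  · intro c f hf
    rw [mul_smul_comm, Car_smul (by norm_num), AK_smul, hf, mul_zero]
  · rintro I l ⟨hI, hw⟩
    have hIlt : ∀ t ∈ I, t < i + 1 := fun t ht => by
      have := (mem_Ico.1 (hI ht)).2
      omega
    have hE : ∀ q ∈ ({i + 1, i + r} : Finset ℕ), i + 1 ≤ q := by
      intro q hq
      rw [mem_insert, mem_singleton] at hq
      omega
    have T := top_KK two_ne_three hK hIlt
    rw [← mo_union_eq (disj3 hI), AKv_0 two_ne_three he' hK'.1 hK'.2.2.2 hK'.2.2.1 hE hIlt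
      (bw_succ_level hr h) (by omega), T.bd 1 _ (by push_cast; omega), mul_zero]

theorem Car3_mem {r e' : ℕ} (hr : 2 ≤ r) (h : 3 * e' = 2 ^ (r - 1) + 1)
    {G : (ZMod 3)[X][X]} (hG : G ∈ V3 i) :
    Car 3 (xS (ZMod 3) {i + 1, i + r} * G) ∈ FQ (ZMod 3) (2 ^ (i + 1) * (e' + 1) - 1) := by
  refine SP.induction (Pr := fun G => Car 3 (xS (ZMod 3) {i + 1, i + r} * G) ∈
    FQ (ZMod 3) (2 ^ (i + 1) * (e' + 1) - 1)) ?_ ?_ ?_ ?_ hG
  · rw [mul_zero, Car_zero (by norm_num)]
    exact Submodule.zero_mem _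
  · intro f g hf hg
    rw [mul_add (xS (ZMod 3) {i + 1, i + r}) f g, Car_add (by norm_num)]
    exact Submodule.add_mem _ hf hg
  · intro c f hf
    rw [mul_smul_comm, Car_smul (by norm_num)]
    exact Submodule.smul_mem _ c hf
  · rintro I l ⟨hI, hw⟩
    have hIlt : ∀ t ∈ I, t < i + 1 := fun t ht => by
      have := (mem_Ico.1 (hI ht)).2
      omega
    have hE : ∀ q ∈ ({i + 1, i + r} : Finset ℕ), i + 1 ≤ q := by
      intro q hq
      rw [mem_insert, mem_singleton] at hq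
      omega
    have h0 : 0 ∉ ({i + 1, i + r} ∪ I : Finset ℕ) := by
      rw [mem_union, mem_insert, mem_singleton]
      rintro (hc | hc)
      · omega
      · have := mem_Ico.1 (hI hc)
        omega
    rw [← mo_union_eq (disj3 hI)]
    apply Car_mo_mem two_ne_three h0
    have h1 := ol_test (p := 3) (e := e') (l := l) hE hIlt (by omega) (by
      rw [bw_succ_level hr h]
      omega)
    exact h1

theorem V3_natDegree {G : (ZMod 3)[X][X]} (hG : G ∈ V3 i) : G.natDegree < 2 ^ i := by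
  refine SP.induction (Pr := fun G => G.natDegree < 2 ^ i) ?_ ?_ ?_ ?_ hG
  · rw [natDegree_zero]
    positivity
  · intro f g hf hg
    exact (natDegree_add_le _ _).trans_lt (max_lt hf hg)
  · intro c f hf
    exact (natDegree_smul_le _ _).trans_lt hf
  · rintro I l ⟨hI, hw⟩
    exact (natDegree_mo_le I l).trans_lt (bw_lt (fun t ht => (mem_Ico.1 (hI ht)).2))

theorem Car3_natDegree {r : ℕ} (hr : 2 ≤ r) (he : Odd e) (hre : 3 * e + 1 = 2 ^ r)
    {G : (ZMod 3)[X][X]} (hG : G ∈ V3 i) (hC : Car 3 G = 0) :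
    (Car 3 (xS (ZMod 3) {i + 1, i + r} * G)).natDegree < 2 ^ i * e := by
  have he0 := he.pos
  have hbw : bw {1, r} = 3 * e + 3 := by
    unfold bw
    rw [sum_pair (by omega), ← hre]
    omega
  have hhw : 2 * hw {1, r} = 3 * e + 3 := by
    have h1 := bw_eq {1, r}
    rw [if_neg (by rw [mem_insert, mem_singleton]; omega)] at h1
    omega
  set D' : (ZMod 3)[X][X] := xS (ZMod 3) {1, r} - X ^ (3 * e + 3) with hD'
  have hdeg : D'.natDegree ≤ 3 * e - 1 := by
    rw [natDegree_le_iff_coeff_eq_zero]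
    intro a ha
    ext b
    rw [hD', coeff_sub, coeff_sub, coeff_X_pow, coeff_zero]
    by_cases h5 : a + 2 * b = bw {1, r}
    · rw [coeff_xS_top _ h5]
      rw [hbw] at h5
      by_cases hb : b = 0
      · subst hb
        rw [if_pos (by omega), Nat.choose_zero_right, coeff_one_zero]
        norm_num
      · have hb1 : b = 1 := by omega
        subst hb1
        rw [if_neg (by omega), Nat.choose_one_right, coeff_zero, sub_zero,
          ZMod.natCast_eq_zero_iff]
        omega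
    · have h6 : ((xS (ZMod 3) {1, r}).coeff a).coeff b = 0 := by
        by_contra hc
        have h7 := coeff_xS_low _ hc h5
        rw [hbw] at h7
        omega
      rw [h6]
      split_ifs with h8
      · rw [coeff_one, if_neg (by rw [hbw] at h5; omega), sub_zero]
      · rw [coeff_zero, sub_zero]
  have h1 : Car 3 (xS (ZMod 3) {i + 1, i + r} * G) = Car 3 ((sig (ZMod 3))^[i] D' * G) := by
    have h2 : xS (ZMod 3) {1, r} = X ^ (3 * e + 3) + D' := by
      rw [hD']
      ring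
    have h3 : xi (ZMod 3) i ^ (3 * e + 3) * G = (xi (ZMod 3) i ^ (e + 1)) ^ 3 * G := by
      rw [← pow_mul]
      ring
    rw [xS_pair_sig, h2, sigit_add, sigit_pow, sigit_X, add_mul, Car_add (by norm_num), h3,
      Car_pow_mul, hC, mul_zero, zero_add]
  rw [h1]
  apply natDegree_Car_lt (by positivity)
  have h5 := natDegree_sigit_mul_lt (N := 3 * e) hdeg (V3_natDegree hG) (by omega)
  calc _ < _ := h5
    _ = 3 * (2 ^ i * e) := by ring

/-- `Car (x_(i+1) x_m G)` has order `< 2^i (e+1)` -/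
theorem Car3_mem_level {r e' : ℕ} (hr : 2 ≤ r) (he : Odd e) (hre : 3 * e + 1 = 2 ^ r)
    (he' : Odd e') (h2e : 2 * e' = e + 1) (h : 3 * e' = 2 ^ (r - 1) + 1)
    {G : (ZMod 3)[X][X]} (hG : G ∈ V3 i) (hC : Car 3 G = 0) :
    Car 3 (xS (ZMod 3) {i + 1, i + r} * G) ∈ FQ (ZMod 3) (2 ^ i * (e + 1) - 1) := by
  have hd := Car3_natDegree hr he hre hG hC
  have hm := Car3_mem hr h hG
  set F := Car 3 (xS (ZMod 3) {i + 1, i + r} * G) with hF
  rw [FQ_eq, mem_SP_iff] at hm ⊢
  intro S l hne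
  obtain ⟨h0, hO⟩ := hm S l hne
  refine ⟨h0, ?_⟩
  have hdS := (co_degree hne).trans_lt hd
  have heZ : Odd (e' : ℤ) := by exact_mod_cast he'
  have hsplit := bw_split (i + 1) S
  have hnS : nS S = bw S := rfl
  have e2 : (2 : ℤ) ^ i * (e + 1) - 1 = 2 ^ (i + 1) * e' - 1 := by
    have : (2 * e' : ℤ) = e + 1 := by exact_mod_cast h2e
    rw [← this, pow_succ]
    ring
  have e3 : 2 ^ i * e < 2 ^ (i + 1) * e' := by
    rw [pow_succ, mul_assoc, h2e]
    have : 0 < 2 ^ i := by positivity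
    nlinarith
  rcases classify heZ (sum_hi' (i + 1) S) hO with h1 | ⟨h1, h3⟩ | ⟨h1, h3⟩
  · rw [e2]
    exact h1
  · exfalso
    have h4 : bw (hi (i + 1) S) = e' := by exact_mod_cast h1
    rw [h4] at hsplit
    omega
  · exfalso
    have h4 : bw (hi (i + 1) S) + 1 = e' := by
      have : (bw (hi (i + 1) S) : ℤ) + 1 = e' := by linarith
      exact_mod_cast this
    have hK0 : ∀ t ∈ range (i + 1) \ S, t < i + 1 := fun t ht => mem_range.1 (mem_sdiff.1 ht).1
    have h5 := card_lo hK0 rfl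
    have h6 : range (i + 1) \ S ∈ KK (i + 1) := by
      rw [mem_KK]
      refine ⟨hK0, ?_, ⟨l + 1, by omega⟩, by omega⟩
      rw [mem_sdiff, mem_range]
      exact ⟨by omega, h0⟩
    apply hne
    rw [← AK_eq_co (i := i + 1) he'.pos (F := F) (S := S) (l := l) ?_ h4 (by omega)]
    · exact AK3_succ hr he' h hG h6
    · calc F.natDegree < 2 ^ i * e := hd
        _ < 2 ^ (i + 1) * e' := e3
        _ ≤ 2 ^ (i + 1) * (e' + 1) := Nat.mul_le_mul_left _ (Nat.le_succ _)

/-- the correction term as a linear functional -/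
def T3 (i : ℕ) (D : Finset ℕ) (N : (ZMod 3)[X][X] →ₗ[ZMod 3] ZMod 3) :
    (ZMod 3)[X][X] →ₗ[ZMod 3] ZMod 3 :=
  ∑ K ∈ KK i, ((-1) ^ (#K / 2 - 1) * eta i D N K) •
    ((zcL (ZMod 3) 0 ((3 * (#K / 2) : ℕ) - 2)).comp
      ((odi i).comp (LinearMap.mulLeft (ZMod 3) (xS (ZMod 3) K ^ 3))))

theorem T3_apply (i : ℕ) (D : Finset ℕ) (N : (ZMod 3)[X][X] →ₗ[ZMod 3] ZMod 3)
    (G : (ZMod 3)[X][X]) : T3 i D N G = ∑ K ∈ KK i,
      zc (odi i (xS (ZMod 3) K ^ 3 * G)) 0 ((3 * (#K / 2) : ℕ) - 2)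
        * ((-1) ^ (#K / 2 - 1) * eta i D N K) := by
  unfold T3
  rw [LinearMap.sum_apply]
  apply sum_congr rfl
  intro K _
  rw [LinearMap.smul_apply, LinearMap.comp_apply, LinearMap.comp_apply, LinearMap.mulLeft_apply,
    zcL_apply, smul_eq_mul, mul_comm]

/-- values of the correction term -/
theorem T3_mo (h1 : 1 ≤ i) {I : Finset ℕ} {l : ℕ} (hI : I ⊆ Ico 1 i) (hw : #I + 2 * l + 3 ≤ i) :
    T3 i D N (mo (ZMod 3) I l) = if #I + 2 * l + 4 = i then (-1) ^ l * (- eta i D N (range i \ I))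
      else if #I + 2 * l + 3 = i then (-1) ^ l * (1 / 2 * sh1 i (eta i D N) (range i \ I))
      else 0 := by
  have hIlt : ∀ t ∈ I, t < i := fun t ht => (mem_Ico.1 (hI ht)).2
  rw [T3_apply]
  have e1 : ∀ K ∈ KK i, zc (odi i (xS (ZMod 3) K ^ 3 * mo (ZMod 3) I l)) 0
      ((3 * (#K / 2) : ℕ) - 2) = zc (PT (R := ZMod 3) (ex 3 K I) i) 0 ((3 * (#K / 2) : ℕ) - 2 - l) := by
    intro K hK
    rw [odi_pow_mo (mem_KK.1 hK).1 hIlt, zc_X_pow_mul]
  rw [sum_congr rfl (fun K hK => by rw [e1 K hK])]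
  split_ifs with h4 h3
  · have e2 : (-1 : ZMod 3) ^ l * (- eta i D N (range i \ I))
        = (-1) ^ (l + 1) * eta i D N (range i \ I) := by
      rw [pow_succ]
      ring
    rw [e2, ← sum00 (m := (3 - 1) / 2) h1 hI (show #I + 2 * (l + 1) + 2 = i by omega)]
    apply sum_congr rfl
    intro K hK
    have T := top_KK two_ne_three hK hIlt
    rw [T.h00 _ (by push_cast; omega)]
    rfl
  · have e2 : (-1 : ZMod 3) ^ l * (1 / 2 * sh1 i (eta i D N) (range i \ I))
        = -((-1) ^ (l + 1) * (1 / 2) * ∑ b ∈ (range i \ I).filter (· + 1 < i),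
          eta i D N (symmDiff (range i \ I) {b + 1})) := by
      unfold sh1
      rw [pow_succ]
      ring
    rw [e2, ← sum01 (m := (3 - 1) / 2) h1 hI (show #I + 2 * (l + 1) + 1 = i by omega)]
    apply sum_congr rfl
    intro K hK
    have T := top_KK two_ne_three hK hIlt
    rw [T.h01 _ (by push_cast; omega)]
    rfl
  · apply sum_eq_zero
    intro K hK
    have T := top_KK two_ne_three hK hIlt
    rw [T.bd 0 _ (by push_cast; omega), zero_mul]

/-- `p = 3`, `rho = 3` -/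
theorem loc_3 (h : LD 3 i e D N) (hi : 3 ≤ i) (hm : 2 ^ i * (3 * e + 1) = 2 ^ m) :
    ∃ L : (ZMod 3)[X][X] →ₗ[ZMod 3] ZMod 3, ∀ I l, I ⊆ Ico 1 i → #I + 2 * l + 3 ≤ i →
      N (Car 3 (mo (ZMod 3) ({i + 1, m} ∪ I) l)) = L (Car 3 (mo (ZMod 3) I l)) +
        (if #I + 2 * l + 4 = i then (-1) ^ l * (- eta i D N (range i \ I))
          else if #I + 2 * l + 3 = i then (-1) ^ l * (1 / 2 * sh1 i (eta i D N) (range i \ I))
          else 0) := by
  obtain ⟨r, hr, rfl, hre, e', he', h2e, h3e⟩ := arith3 h.he hm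
  have key : ∀ G ∈ V3 i, Car 3 G = 0 →
      N (Car 3 (xS (ZMod 3) {i + 1, i + r} * G)) = T3 i D N G := by
    intro G hG hC
    rw [N_eq_of_lt h (Car3_mem_level hr h.he hre he' h2e h3e hG hC)
      (Car3_natDegree hr h.he hre hG hC), T3_apply]
    apply sum_congr rfl
    intro K hK
    rw [AK3 hr h.he hre hG hC hK]
  have h30 : 0 < 3 := by norm_num
  obtain ⟨L, hL⟩ := exists_factor (V3 i) (CarL (ZMod 3) h30)
    (N.comp ((CarL (ZMod 3) h30).comp (LinearMap.mulLeft (ZMod 3)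
      (xS (ZMod 3) {i + 1, i + r}))) - T3 i D N) (by
      intro G hG hC
      have h5 := key G hG hC
      rw [LinearMap.sub_apply, LinearMap.comp_apply, LinearMap.comp_apply, LinearMap.mulLeft_apply]
      exact sub_eq_zero.2 h5)
  refine ⟨L, fun I l hI hw => ?_⟩
  have h6 := hL (mo (ZMod 3) I l) (mo_mem_SP ⟨hI, hw⟩)
  rw [LinearMap.sub_apply, LinearMap.comp_apply, LinearMap.comp_apply, LinearMap.mulLeft_apply,
    T3_mo (by omega) hI hw] at h6
  rw [mo_union_eq (disj3 hI)]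
  exact sub_eq_iff_eq_add.1 h6

end three

end Dyn59
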