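import Pool.Agent.H.MP_d59dab.Ldg

/-!
# MP_d59dab, `p = 3`: two special values
-/

set_option autoImplicit false

open Finset Polynomial

noncomputable section

namespace Dyn59

theorem KK3 : KK 3 = {{0, 1}, {0, 2}} := KK_three

theorem inv_two3 : (2 : ZMod 3)⁻¹ = 2 := inv_eq_of_mul_eq_one_right (by decide)

theorem inv_four3 : (4 : ZMod 3)⁻¹ = 1 := inv_eq_of_mul_eq_one_right (by decide)

theorem inv_eight3 : (8 : ZMod 3)⁻¹ = 2 := inv_eq_of_mul_eq_one_right (by decide)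

theorem loc_13 {e m : ℕ} {D : Finset ℕ} {N : (ZMod 3)[X][X] →ₗ[ZMod 3] ZMod 3}
    (h : LD 3 3 e D N) (hm : 2 ^ 3 * (3 * e + 1) = 2 ^ m) :
    N (Car 3 (mo (ZMod 3) {1, m} 0))
      = Nn 3 D N (Car 3 (mo (ZMod 3) {1, 3} 0)) - eta 3 D N {0, 1} := by
  have hm3 : 3 < m := by
    by_contra hc
    have h1 : 2 ^ m ≤ 2 ^ 3 := Nat.pow_le_pow_right (by norm_num) (by omega)
    have := h.he.pos
    omega
  have hE : ∀ q ∈ ({m} : Finset ℕ), 3 < q := by
    intro q hq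
    rw [mem_singleton] at hq
    omega
  have hI : ({1} : Finset ℕ) ⊆ Ico 1 3 := by decide
  have h1 := loc_1x (by norm_num) h hE hI (by rw [sum_singleton, hm]) (l := 0) (by rfl)
  have e1 : ({m} : Finset ℕ) ∪ {1} = {1, m} := by rw [union_comm]; rfl
  have e2 : insert 3 ({1} : Finset ℕ) = {1, 3} := by decide
  rw [e1, e2, KK3, sum_insert (by decide), sum_singleton] at h1
  rw [h1]
  have m1 := mem_KK.1 (mem_KK_01 (i := 3) (by omega))
  have m2 := mem_KK.1 (mem_KK_02 (i := 3) le_rfl)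
  have f1 : ({0, 1} : Finset ℕ).filter (· ∈ ({1} : Finset ℕ)) = {1} := by decide
  have f2 : ({0, 2} : Finset ℕ).filter (· ∈ ({1} : Finset ℕ)) = ∅ := by decide
  rw [sgn_eq _ m1.1 m1.2.2.1, sgn_eq _ m2.1 m2.2.2.1, f1, f2]
  have v1 : vst (ZMod 3) {0, 1} {1} 3 = ⟨0, 0, -(1 / 4), 0, 0, 0⟩ := by
    ext <;> simp [vst, inv_two3, inv_four3]
    decide
  have v2 : vst (ZMod 3) {0, 2} {1} 3 = ⟨1, 0, -(3 / 8), 1 / 2, 0, 3 / 8⟩ := by
    ext <;> simp [vst]
  rw [v1, v2, show #(∅ : Finset ℕ) = 0 from rfl, show #({1} : Finset ℕ) = 1 from rfl,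
    show #({0, 1} : Finset ℕ) = 2 from rfl, show #({0, 2} : Finset ℕ) = 2 from rfl]
  have c1 : (1 / 2 * ((-1) ^ 1 * -(1 / 4)) - 1 / 8 * ((-1) ^ 1 * 0) : ZMod 3) = -1 := by
    rw [div_eq_mul_inv, div_eq_mul_inv, div_eq_mul_inv, inv_two3, inv_four3, inv_eight3]
    decide
  have c2 : (1 / 2 * ((-1) ^ 0 * -(3 / 8)) - 1 / 8 * ((-1) ^ 0 * (3 / 8)) : ZMod 3) = 0 := by
    rw [div_eq_mul_inv, div_eq_mul_inv, div_eq_mul_inv, inv_two3, inv_eight3]
    decide
  simp only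
  rw [c1, c2]
  norm_num
  ring

/-! ### the polynomials `x_r` -/

section xi

variable {R : Type*} [CommRing R]

theorem xi_succ_sq (r : ℕ) : xi R (r + 1) = xi R r ^ 2 + C X := by
  rw [xi_sq]
  ring

theorem coeff_xi_odd (r a b : ℕ) (ha : Odd a) : ((xi R (r + 1)).coeff a).coeff b = 0 := by
  obtain ⟨k, rfl⟩ := ha
  rw [xi_succ, sig_coeff_odd, coeff_zero]

/-- the coefficient of `X^(2^r - 4) z` in `x_r` is `2^(r-2)` -/
theorem xi_lin (r : ℕ) (hr : 2 ≤ r) : ∃ Q : R[X][X], xi R r = X ^ 2 ^ r + C X * Q ∧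
    (Q.coeff (2 ^ r - 4)).coeff 0 = 2 ^ (r - 2) := by
  induction r, hr using Nat.le_induction with
  | base =>
    refine ⟨2 * X ^ 2 + 1 + C X, ?_, ?_⟩
    · rw [xi_succ_sq, xi_succ_sq, xi_zero]
      ring
    · simp [coeff_X, coeff_one]
  | succ r hr ih =>
    obtain ⟨Q, h1, h2⟩ := ih
    refine ⟨2 * X ^ 2 ^ r * Q + 1 + C X * Q ^ 2, ?_, ?_⟩
    · rw [xi_succ_sq, h1, pow_succ 2 r, pow_mul]
      ring
    · have h3 : 4 ≤ 2 ^ r := by
        calc 4 = 2 ^ 2 := rfl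
          _ ≤ 2 ^ r := Nat.pow_le_pow_right (by norm_num) hr
      have h4 : 2 ^ (r + 1) - 4 = 2 ^ r - 4 + 2 ^ r := by rw [pow_succ]; omega
      have h5 : (2 * X ^ 2 ^ r * Q : R[X][X]) = C (C 2) * (Q * X ^ 2 ^ r) := by
        simp only [map_ofNat]
        ring
      rw [coeff_add, coeff_add, coeff_add, coeff_add, h5, coeff_C_mul, h4, coeff_mul_X_pow,
        coeff_C_mul, h2, coeff_C_mul, coeff_X_mul_zero, coeff_one, if_neg (by omega), coeff_zero,
        show r + 1 - 2 = r - 2 + 1 by omega, pow_succ]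
      ring

theorem coeff_xi_lin {r : ℕ} (hr : 2 ≤ r) :
    ((xi R r).coeff (2 ^ r - 4)).coeff 1 = 2 ^ (r - 2) := by
  obtain ⟨Q, h1, h2⟩ := xi_lin (R := R) r hr
  have h3 : 4 ≤ 2 ^ r := by
    calc 4 = 2 ^ 2 := rfl
      _ ≤ 2 ^ r := Nat.pow_le_pow_right (by norm_num) hr
  have h4 : (X * Q.coeff (2 ^ r - 4)).coeff (0 + 1) = 2 ^ (r - 2) := by
    rw [coeff_X_mul, h2]
  rw [h1, coeff_add, coeff_X_pow, if_neg (by omega), zero_add, coeff_C_mul]
  exact h4

theorem od_X_cube : od (X ^ 3 : R[X][X]) = X - C X := by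
  have h := od_mul_X_pow_odd (1 : R[X][X]) 1
  rw [one_mul, pow_one, evp_one, mul_one, mul_one] at h
  exact h

theorem od_sig_mul' (a f : R[X][X]) : od (sig R a * f) = a * od f := od_sig_mul a f

/-- `(x_1 x_2 - x_2) x_m` -/
def Fcr (R : Type*) [CommRing R] (m : ℕ) : R[X][X] := xi R m * xi R 2 * (xi R 1 - 1)

theorem Fcr_eq (r : ℕ) : Fcr R (r + 2) = sig R (sig R (xi R r * X) * (X - 1)) := by
  unfold Fcr
  simp only [map_mul, map_sub, map_one, ← xi_succ]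
  rw [xi_succ 1, xi_succ 0, xi_zero]

theorem od_X2_mul : od (X ^ 3 * (X - 1) * (X - C X) : R[X][X]) = X * (X - C X) := by
  apply od_eq (g0 := -((1 + C X : R[X][X]) * (X - C X) ^ 2))
  simp only [map_mul, map_neg, map_add, map_one, map_pow, map_sub, sig_X, sig_C]
  ring

theorem crit_od (r : ℕ) (Y : R[X][X]) : od (X ^ 3 * sig R Y * Fcr R (r + 2))
    = sig R (xi R r * X) * (Y * (X - 1) * (X - C X)) := by
  rw [Fcr_eq]
  have e1 : X ^ 3 * sig R Y * sig R (sig R (xi R r * X) * (X - 1))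
      = sig R (Y * (sig R (xi R r * X) * (X - 1))) * X ^ 3 := by
    rw [map_mul (sig R) Y]
    ring
  rw [e1, od_sig_mul, od_X_cube]
  ring

theorem crit_odi2 (r : ℕ) :
    odi 2 (xS R {0, 1} ^ 3 * Fcr R (r + 2)) = xi R r * (X ^ 3 - C X * X ^ 2) := by
  have e1 : xS R {0, 1} ^ 3 = X ^ 3 * sig R (X ^ 3) := by
    unfold xS
    rw [prod_insert (by decide), prod_singleton, xi_zero, xi_succ, xi_zero, map_pow]
    ring
  rw [odi_succ, odi_succ, odi_zero, e1, crit_od, od_sig_mul, od_X2_mul]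
  ring

theorem crit_odi3a (q : ℕ) :
    odi 3 (xS R {0, 1} ^ 3 * Fcr R (q + 1 + 2)) = xi R q * (X - C X) := by
  rw [odi_succ', crit_odi2, xi_succ, od_sig_mul]
  congr 1
  apply od_eq (g0 := -((C X : R[X][X]) * (X - C X)))
  simp only [map_mul, map_neg, map_sub, sig_X, sig_C]
  ring

theorem crit_odi3b (q : ℕ) : odi 3 (xS R {0, 2} ^ 3 * Fcr R (q + 1 + 2)) = 0 := by
  have e1 : xS R {0, 2} ^ 3 = X ^ 3 * sig R (sig R (X ^ 3)) := by
    unfold xS
    rw [prod_insert (by decide), prod_singleton, xi_zero, xi_succ, xi_succ, xi_zero, map_pow,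
      map_pow]
    ring
  rw [odi_succ, odi_succ, odi_succ, odi_zero, e1, crit_od]
  have e2 : sig R (xi R (q + 1) * X) * (sig R (X ^ 3) * (X - 1) * (X - C X))
      = sig R (xi R (q + 1) * X ^ 4) * ((X - 1) * (X - C X)) := by
    rw [map_mul, map_mul, map_pow, map_pow]
    ring
  have e3 : od ((X - 1) * (X - C X) : R[X][X]) = -(1 + C X : R[X][X]) := by
    apply od_eq (g0 := (X : R[X][X]))
    simp only [map_neg, map_add, map_one, sig_X, sig_C]
    ring
  rw [e2, od_sig_mul, e3]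
  have e4 : xi R (q + 1) * X ^ 4 * -(1 + C X : R[X][X])
      = sig R (-((1 + C X : R[X][X]) * (xi R q * (X - C X) ^ 2))) := by
    simp only [map_mul, map_neg, map_add, map_one, map_pow, map_sub, sig_X, sig_C, ← xi_succ]
    ring
  rw [e4, od_sig]

theorem bw_singleton (r : ℕ) : bw {r} = 2 ^ r := sum_singleton _ _

theorem xS_singleton (r : ℕ) : xS R {r} = xi R r := prod_singleton _ _

theorem xi_top2 {r : ℕ} (hr : 2 ≤ r) : ∃ (T : R[X][X]) (κ : R), T.natDegree ≤ 2 ^ r - 4 ∧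
    xi R r = X ^ 2 ^ r + C (C κ * X) * X ^ (2 ^ r - 2) + T := by
  have h4 : 4 ≤ 2 ^ r := by
    calc 4 = 2 ^ 2 := rfl
      _ ≤ 2 ^ r := Nat.pow_le_pow_right (by norm_num) hr
  have hev : Even (2 ^ r) := by
    obtain ⟨d, rfl⟩ := Nat.exists_eq_add_of_le hr
    exact ⟨2 * 2 ^ d, by rw [pow_add]; ring⟩
  refine ⟨xi R r - X ^ 2 ^ r
    - C (C (((xi R r).coeff (2 ^ r - 2)).coeff 1) * X) * X ^ (2 ^ r - 2),
    ((xi R r).coeff (2 ^ r - 2)).coeff 1, ?_, by ring⟩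
  rw [natDegree_le_iff_coeff_eq_zero]
  intro a ha
  ext b
  have hle : ∀ a b : ℕ, ((xi R r).coeff a).coeff b ≠ 0 → a + 2 * b ≤ 2 ^ r := by
    intro a b h
    rw [← xS_singleton] at h
    have := coeff_xS_le _ a b h
    rwa [bw_singleton] at this
  have hz : ∀ a : ℕ, ((xi R r).coeff a).coeff 0 = if a = 2 ^ r then 1 else 0 := by
    intro a
    rw [← xS_singleton, coeff_xS_zero, bw_singleton]
  rw [coeff_sub, coeff_sub, coeff_sub, coeff_sub, coeff_C_mul, coeff_X_pow, coeff_X_pow,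
    coeff_zero]
  by_cases h1 : a = 2 ^ r
  · rw [if_pos h1, if_neg (by omega), mul_zero, coeff_zero, sub_zero, coeff_one]
    split_ifs with hb
    · rw [hb, hz, if_pos h1, sub_self]
    · rw [sub_zero]
      by_contra hc
      have := hle a b hc
      omega
  · rw [if_neg h1, coeff_zero, sub_zero]
    by_cases h2 : a = 2 ^ r - 2
    · rw [if_pos h2, mul_one, coeff_C_mul, coeff_X]
      by_cases hb : b = 1
      · subst hb
        rw [if_pos rfl, mul_one, h2, sub_self]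
      · rw [if_neg (fun h => hb h.symm), mul_zero, sub_zero]
        rcases Nat.eq_zero_or_pos b with hb0 | hb0
        · rw [hb0, hz, if_neg h1]
        · by_contra hc
          have := hle a b hc
          omega
    · rw [if_neg h2, mul_zero, coeff_zero, sub_zero]
      obtain ⟨r', rfl⟩ := Nat.exists_eq_add_of_le (show 1 ≤ r by omega)
      rw [add_comm 1 r'] at *
      by_cases h3 : 2 ^ (r' + 1) < a
      · by_contra hc
        have := hle a b hc
        omega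
      · apply coeff_xi_odd
        obtain ⟨k, hk⟩ := hev
        rw [← Nat.not_even_iff_odd]
        rintro ⟨k', hk'⟩
        omega

end xi

theorem Car3_small {f : (ZMod 3)[X][X]} (h1 : f.natDegree ≤ 2) (h2 : (f.coeff 2).natDegree ≤ 1) :
    Car 3 f = 0 := by
  ext a b
  rw [Car_coeff_coeff (by norm_num), coeff_zero, coeff_zero]
  rcases Nat.eq_zero_or_pos a with rfl | ha
  · rw [show 3 * (0 + 1) - 1 = 2 from rfl]
    apply coeff_eq_zero_of_natDegree_lt
    omega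
  · rw [coeff_eq_zero_of_natDegree_lt (show f.natDegree < 3 * (a + 1) - 1 by omega), coeff_zero]

theorem Car3_a (κ : ZMod 3) : Car 3 (C (C κ * X) * (xi (ZMod 3) 1 - 1)) = 0 := by
  apply Car3_small
  · rw [xi_succ, xi_zero, sig_X]
    compute_degree
  · rw [xi_succ, xi_zero, sig_X, coeff_C_mul, coeff_sub, coeff_add, coeff_X_pow, coeff_C,
      coeff_one, if_pos rfl, if_neg (by norm_num), if_neg (by norm_num)]
    simp only [add_zero, sub_zero, mul_one]
    compute_degree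

theorem Car3_b : Car 3 (xi (ZMod 3) 2 ^ 2 * (xi (ZMod 3) 1 - 1)) = 0 := by
  have e1 : xi (ZMod 3) 2 ^ 2 * (xi (ZMod 3) 1 - 1)
      = sig (ZMod 3) (xi (ZMod 3) 1 ^ 2 * (X - 1)) := by
    rw [map_mul, map_pow, ← xi_succ, map_sub, map_one, xi_succ 0, xi_zero]
  have e2 : (X - C X) ^ ((3 - 1) / 2) * (xi (ZMod 3) 1 ^ 2 * (X - 1))
      = xi (ZMod 3) 1 ^ 3 * 1 + X * sig (ZMod 3) (-((1 + C X) * X ^ 2)) := by
    simp only [map_neg, map_mul, map_add, map_one, map_pow, sig_C, sig_X, xi_succ 0, xi_zero]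
    ring
  rw [e1, Car_sig (by norm_num), e2, Car_add (by norm_num), Car_pow_mul, Car_X_sig (by norm_num),
    Car3_small (f := 1) (by simp) (by rw [coeff_one]; simp),
    Car3_small (f := -((1 + C X) * X ^ 2))]
  · simp
  · compute_degree
  · rw [coeff_neg, coeff_mul_X_pow', if_pos le_rfl]
    simp only [Nat.sub_self, coeff_add, coeff_one_zero, coeff_C_zero]
    compute_degree

theorem natDegree_Car_Fcr {e r : ℕ} (he : 0 < e) (hr : 2 ≤ r) (h : 3 * e + 1 = 2 ^ r) :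
    (Car 3 (Fcr (ZMod 3) (r + 2))).natDegree < 4 * e := by
  obtain ⟨T, κ, hT, hx⟩ := xi_top2 (R := ZMod 3) hr
  have e0 : 2 ^ r - 2 + 1 = 3 * e := by omega
  have e1 : Fcr (ZMod 3) (r + 2) = (xi (ZMod 3) 2 ^ e) ^ 3 * (xi (ZMod 3) 2 ^ 2 * (xi (ZMod 3) 1 - 1))
      + (xi (ZMod 3) 2 ^ e) ^ 3 * (C (C κ * X) * (xi (ZMod 3) 1 - 1))
      + (sig (ZMod 3))^[2] (T * X) * (xi (ZMod 3) 1 - 1) := by
    have e2 : xi (ZMod 3) r * X = X ^ (e * 3) * X ^ 2 + C (C κ * X) * X ^ (e * 3) + T * X := by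
      have e3 : X ^ (2 ^ r) * X = (X ^ (e * 3) * X ^ 2 : (ZMod 3)[X][X]) := by
        rw [← h, ← pow_succ, ← pow_add]
        congr 1
        ring
      have e4 : X ^ (2 ^ r - 2) * X = (X ^ (e * 3) : (ZMod 3)[X][X]) := by
        rw [← pow_succ, e0, mul_comm]
      rw [hx, add_mul, add_mul, e3, mul_assoc, e4]
    have e5 : Fcr (ZMod 3) (r + 2)
        = (sig (ZMod 3))^[2] (xi (ZMod 3) r * X) * (xi (ZMod 3) 1 - 1) := by
      rw [Fcr_eq, map_mul, map_sub, map_one, xi_succ 0, xi_zero]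
      rfl
    rw [e5, e2, sigit_add, sigit_add, sigit_mul, sigit_mul, sigit_C, sigit_pow, sigit_pow,
      sigit_X, pow_mul]
    ring
  have hp3 : Nat.Prime 3 := Nat.prime_three
  rw [e1, Car_add (by norm_num), Car_add (by norm_num), Car_pow_mul, Car_pow_mul, Car3_b,
    Car3_a, mul_zero, zero_add, zero_add]
  apply natDegree_Car_lt (by omega)
  have h1 : (T * X).natDegree ≤ 3 * e - 2 := by
    refine natDegree_mul_le.trans ?_
    have := natDegree_X_le (R := (ZMod 3)[X])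
    omega
  have h2 : (xi (ZMod 3) 1 - 1).natDegree < 2 ^ 2 := by
    rw [xi_succ, xi_zero, sig_X]
    have : (X ^ 2 + C X - 1 : (ZMod 3)[X][X]).natDegree ≤ 2 := by compute_degree
    omega
  have h3 := natDegree_sigit_mul_lt (N := 3 * e) h1 h2 (by omega)
  calc _ < _ := h3
    _ = 3 * (4 * e) := by ring

theorem fprime_zero {p : ℕ} [hp : Fact p.Prime] {i e : ℕ} {f f' : (ZMod p)[X][X]}
    (h : (f - xi (ZMod p) i ^ e * f').natDegree < 2 ^ i * e) (hf : f.natDegree < 2 ^ i * e) :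
    f' = 0 := by
  by_contra hne
  have hm := (xi_monic (ZMod p) i).1.pow e
  have h10 : (xi (ZMod p) i ^ e * f').natDegree < 2 ^ i * e := by
    have e1 : xi (ZMod p) i ^ e * f' = f - (f - xi (ZMod p) i ^ e * f') := by ring
    rw [e1]
    exact (natDegree_sub_le _ _).trans_lt (max_lt hf h)
  rw [hm.natDegree_mul' hne, (xi_monic (ZMod p) i).1.natDegree_pow, (xi_monic (ZMod p) i).2] at h10
  have : e * 2 ^ i = 2 ^ i * e := mul_comm _ _
  omega

theorem AK3_01 {e2 q : ℕ} (he : 0 < e2) (hq : 1 ≤ q) (h : 3 * e2 = 2 ^ q + 1) :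
    AK 3 e2 {0, 1} (Car 3 (Fcr (ZMod 3) (q + 1 + 2))) = 0 := by
  rw [AK_Car (by norm_num) he (by decide), crit_odi3a]
  have hc : #({0, 1} : Finset ℕ) = 2 := rfl
  obtain ⟨q', rfl⟩ := Nat.exists_eq_add_of_le hq
  rw [add_comm 1 q'] at *
  have h1 : (xi (ZMod 3) (q' + 1) * (X - C X)).coeff (3 * e2 - 1)
      = (xi (ZMod 3) (q' + 1)).coeff (3 * e2 - 2)
        - X * (xi (ZMod 3) (q' + 1)).coeff (3 * e2 - 1) := by
    rw [mul_sub, coeff_sub, mul_comm (xi (ZMod 3) (q' + 1)) (C X), coeff_C_mul,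
      show 3 * e2 - 1 = 3 * e2 - 2 + 1 by omega, coeff_mul_X]
  rw [h1, hc, coeff_sub, show 3 * (2 / 2) - 1 = 1 + 1 by norm_num, coeff_X_mul]
  have h2 : ((xi (ZMod 3) (q' + 1)).coeff (3 * e2 - 2)).coeff (1 + 1) = 0 := by
    apply coeff_xi_odd
    refine ⟨2 ^ q' - 1, ?_⟩
    have : 0 < 2 ^ q' := by positivity
    rw [pow_succ] at h
    omega
  have h3 : ((xi (ZMod 3) (q' + 1)).coeff (3 * e2 - 1)).coeff 1 = 0 := by
    by_contra hc
    rw [← xS_singleton] at hc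
    have := coeff_xS_le _ _ _ hc
    rw [bw_singleton] at this
    omega
  rw [h2, h3, sub_zero]

theorem AK3_02 {e2 q : ℕ} (he : 0 < e2) :
    AK 3 e2 {0, 2} (Car 3 (Fcr (ZMod 3) (q + 1 + 2))) = 0 := by
  rw [AK_Car (by norm_num) he (by decide), crit_odi3b, coeff_zero, coeff_zero]

theorem AK2_01 {e r : ℕ} (he : 0 < e) (hr : 3 ≤ r) (h : 3 * e + 1 = 2 ^ r) :
    AK 2 e {0, 1} (Car 3 (Fcr (ZMod 3) (r + 2))) = -1 := by
  rw [AK_Car (by norm_num) he (by decide), crit_odi2]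
  have hc : #({0, 1} : Finset ℕ) = 2 := rfl
  have h8 : 8 ≤ 2 ^ r := by
    calc 8 = 2 ^ 3 := rfl
      _ ≤ 2 ^ r := Nat.pow_le_pow_right (by norm_num) hr
  have h1 : (xi (ZMod 3) r * (X ^ 3 - C X * X ^ 2)).coeff (3 * e - 1)
      = (xi (ZMod 3) r).coeff (2 ^ r - 5) - X * (xi (ZMod 3) r).coeff (2 ^ r - 4) := by
    have e1 : xi (ZMod 3) r * (X ^ 3 - C X * X ^ 2)
        = xi (ZMod 3) r * X ^ 3 - C X * (xi (ZMod 3) r * X ^ 2) := by ring
    rw [e1, coeff_sub, coeff_C_mul, coeff_mul_X_pow', coeff_mul_X_pow', if_pos (by omega),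
      if_pos (by omega), show 3 * e - 1 - 3 = 2 ^ r - 5 by omega,
      show 3 * e - 1 - 2 = 2 ^ r - 4 by omega]
  have h2 : ((xi (ZMod 3) r).coeff (2 ^ r - 5)).coeff (1 + 1) = 0 := by
    obtain ⟨r', rfl⟩ := Nat.exists_eq_add_of_le (show 1 ≤ r by omega)
    rw [add_comm 1 r'] at *
    apply coeff_xi_odd
    refine ⟨2 ^ r' - 3, ?_⟩
    rw [pow_succ] at h8 ⊢
    omega
  rw [h1, hc, coeff_sub, show 3 * (2 / 2) - 1 = 1 + 1 by norm_num, coeff_X_mul, h2,
    coeff_xi_lin (by omega), zero_sub]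
  have h3 : (2 : ZMod 3) ^ r = 1 := by
    have h4 : ((2 ^ r : ℕ) : ZMod 3) = ((3 * e + 1 : ℕ) : ZMod 3) := by rw [h]
    push_cast at h4
    rw [h4]
    have h5 : (3 : ZMod 3) = 0 := by decide
    rw [h5]
    ring
  have h5 : (2 : ZMod 3) ^ r = 2 ^ (r - 2) * 4 := by
    obtain ⟨d, rfl⟩ := Nat.exists_eq_add_of_le (show 2 ≤ r by omega)
    rw [show 2 + d - 2 = d by omega, pow_add]
    ring
  have h6 : (4 : ZMod 3) = 1 := by decide
  rw [h5, h6, mul_one] at h3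
  rw [h3]

theorem mo_sub_eq {m : ℕ} (hm : 3 ≤ m) :
    mo (ZMod 3) {1, 2, m} 0 - mo (ZMod 3) {2, m} 0 = Fcr (ZMod 3) m := by
  unfold mo Fcr xS
  rw [prod_insert (by simp; omega), prod_insert (by simp; omega), prod_singleton, pow_zero, C_1]
  ring

theorem crit_two {e m : ℕ} {D : Finset ℕ} {N : (ZMod 3)[X][X] →ₗ[ZMod 3] ZMod 3}
    (h : LD 3 2 e D N) (hm : 2 ^ 2 * (3 * e + 1) = 2 ^ m) (h6 : 6 ≤ m)
    (h1 : N (Car 3 (mo (ZMod 3) {2, m} 0)) = 0) (h2 : N (Car 3 (mo (ZMod 3) {1, 2, m} 0)) = 0) :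
    eta 2 D N {0, 1} = 0 := by
  obtain ⟨q, rfl⟩ := Nat.exists_eq_add_of_le (show 3 ≤ m by omega)
  have he0 := h.he.pos
  have hr : 3 * e + 1 = 2 ^ (q + 1) := by
    have : 2 ^ (3 + q) = 2 ^ 2 * 2 ^ (q + 1) := by rw [← pow_add]; congr 1; omega
    rw [this] at hm
    exact Nat.eq_of_mul_eq_mul_left (by norm_num) hm
  obtain ⟨a, ha⟩ := h.he
  -- `e2 = a + 1 = (e + 1) / 2`
  have hq : 3 * (a + 1) = 2 ^ q + 1 := by
    rw [pow_succ] at hr
    omega
  have hq3 : 3 ≤ q := by omega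
  have hF : mo (ZMod 3) {1, 2, 3 + q} 0 - mo (ZMod 3) {2, 3 + q} 0 = Fcr (ZMod 3) (q + 1 + 2) := by
    rw [mo_sub_eq (by omega)]
    congr 1
    omega
  have hsum : Car 3 (mo (ZMod 3) {1, 2, 3 + q} 0)
      = Car 3 (Fcr (ZMod 3) (q + 1 + 2)) + Car 3 (mo (ZMod 3) {2, 3 + q} 0) := by
    rw [← Car_add (by norm_num), ← hF, sub_add_cancel]
  have hNF : N (Car 3 (Fcr (ZMod 3) (q + 1 + 2))) = 0 := by
    rw [hsum, map_add, h1, add_zero] at h2
    exact h2
  have hdeg := natDegree_Car_Fcr he0 (show 2 ≤ q + 1 by omega) hr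
  have hq8 : 8 ∣ 2 ^ q := by
    obtain ⟨d, rfl⟩ := Nat.exists_eq_add_of_le hq3
    exact ⟨2 ^ d, by rw [pow_add]; norm_num⟩
  have haev : Even a := by
    rw [Nat.even_iff]
    omega
  -- orders
  have hU : ∀ S : Finset ℕ, S ⊆ {1, 2, 3 + q} → OL S 0 ((3 : ℕ) * (2 ^ 3 * ((a + 1 : ℕ) + 1)) - 1) := by
    intro S hS
    have hcard : #S ≤ 3 := (card_le_card hS).trans card_le_three
    have h3 : OL S 0 (2 ^ (q + 4) - ∑ u ∈ insert 0 (Ico 5 (q + 3)), (2 : ℤ) ^ u) := by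
      apply ol_of_compl
      · intro s hs
        have := hS hs
        simp only [mem_insert, mem_singleton] at this
        rw [mem_range]
        omega
      · intro u hu
        rw [mem_insert, mem_Ico] at hu
        rw [mem_sdiff, mem_range]
        refine ⟨by omega, fun hc => ?_⟩
        have := hS hc
        simp only [mem_insert, mem_singleton] at this
        omega
      · rw [card_insert_of_notMem (by rw [mem_Ico]; omega), Nat.card_Ico]
        omega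
    refine h3.mono ?_
    have h4 := sum_Ico_pow (i := 5) (T := q + 3) (by omega)
    have h5 : ((∑ s ∈ Ico 5 (q + 3), 2 ^ s + 2 ^ 5 : ℕ) : ℤ) = ((2 ^ (q + 3) : ℕ) : ℤ) := by rw [h4]
    have h7 : ((3 * (a + 1) : ℕ) : ℤ) = ((2 ^ q + 1 : ℕ) : ℤ) := by rw [hq]
    push_cast at h5 h7 ⊢
    rw [sum_insert (by rw [mem_Ico]; omega)]
    have h8 : (2 : ℤ) ^ (q + 4) = 16 * 2 ^ q := by rw [pow_add]; ring
    have h9 : (2 : ℤ) ^ (q + 3) = 8 * 2 ^ q := by rw [pow_add]; ring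
    rw [h8]
    rw [h9] at h5
    linarith
  have hmem : Car 3 (Fcr (ZMod 3) (q + 1 + 2)) ∈ FQ (ZMod 3) (2 ^ 3 * ((a + 1 : ℕ) + 1) - 1) := by
    have h3 := Car_mo_mem (p := 3) (by norm_num) (S := {1, 2, 3 + q}) (l := 0)
      (by simp only [mem_insert, mem_singleton]; omega) (hU _ (Subset.refl _))
    have h4 := Car_mo_mem (p := 3) (by norm_num) (S := {2, 3 + q}) (l := 0)
      (by simp only [mem_insert, mem_singleton]; omega) (hU _ (by
        intro s hs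
        simp only [mem_insert, mem_singleton] at hs ⊢
        omega))
    have h5 := sub_mem h3 h4
    rwa [hsum, add_sub_cancel_right] at h5
  -- it lies in the smaller space
  have hmem2 : Car 3 (Fcr (ZMod 3) (q + 1 + 2)) ∈ FQ (ZMod 3) (2 ^ 3 * (a + 1 : ℕ) - 1) := by
    by_contra hc
    obtain ⟨N', hN', hker⟩ := Submodule.exists_le_ker_of_notMem hc
    have hLD : LD 3 3 (a + 1) D N' := by
      refine ⟨by norm_num, haev.add_one, ?_, ?_, fun f hf => hker hf⟩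
      · intro d hd
        have h3 : 2 ^ 4 ∣ ∑ s ∈ D, 2 ^ s := by
          obtain ⟨b, hb⟩ := haev
          have := h.hDs
          refine ⟨b, ?_⟩
          omega
        exact le_of_dvd_sum h3 d hd
      · have := h.hDs
        omega
    obtain ⟨f', k1, k2, k3⟩ := shape hLD hmem
    have hf' : f' = 0 := fprime_zero k2 (hdeg.trans_le (by omega))
    rw [hf', mul_zero, map_zero, zero_add, KK3, sum_insert (by decide), sum_singleton,
      AK3_01 (by omega) (by omega) hq, AK3_02 (by omega), zero_mul, zero_mul, add_zero] at k3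
    exact hN' k3
  have he8 : (2 : ℤ) ^ 3 * (a + 1 : ℕ) - 1 = 2 ^ 2 * (e + 1) - 1 := by
    rw [ha]
    push_cast
    ring
  rw [he8] at hmem2
  obtain ⟨f', k1, k2, k3⟩ := shape h hmem2
  have hf' : f' = 0 := fprime_zero k2 hdeg
  rw [hf', mul_zero, map_zero, zero_add, KK_two, sum_singleton,
    AK2_01 he0 (by omega) hr, hNF, neg_one_mul_eta] at k3
  have hc : #({0, 1} : Finset ℕ) = 2 := rfl
  rw [hc, show 2 / 2 - 1 = 0 by norm_num, pow_zero, one_mul] at k3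
  linear_combination k3

end Dyn59
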