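import Pool.Agent.H.MP_d59dab.P3A
import Pool.Agent.H.MP_d59dab.P3B
import Pool.Agent.H.MP_d59dab.P3B2

/-!
# MP_d59dab, `p = 3`: the critical level, the system `J(j)` for special `ν`
-/

set_option autoImplicit false

open Finset Polynomial

noncomputable section

namespace Dyn59

/-! ### small Cartier images, `p = 3` -/

section small

/-- `Car 3` of `c x^a z^b` -/
theorem Car3_mono {a b : ℕ} (h : ¬ (3 ∣ a + 1 ∧ 3 ∣ b + 1)) :
    Car 3 (C (X ^ b) * X ^ a : (ZMod 3)[X][X]) = 0 := by
  exact (isEx_mono h).Car_eq_zero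

theorem Car3_22 : Car 3 (C (X ^ 2) * X ^ 2 : (ZMod 3)[X][X]) = 1 := by
  rw [Car_mono, if_pos (by decide)]
  simp

theorem p3_xi1 : xi (ZMod 3) 1 = C (X ^ 0) * X ^ 2 + C (X ^ 1) * X ^ 0 := by
  rw [xi_succ, xi_zero, sig_X]
  simp

theorem p3_xi2 : xi (ZMod 3) 2 = xi (ZMod 3) 1 ^ 2 + C X := by rw [xi_sq]; ring

theorem p3_xi3 : xi (ZMod 3) 3 = xi (ZMod 3) 2 ^ 2 + C X := by rw [xi_sq]; ring

theorem p3_xi4 : xi (ZMod 3) 4 = xi (ZMod 3) 3 ^ 2 + C X := by rw [xi_sq]; ring

theorem p3_three_poly : (3 : (ZMod 3)[X][X]) = 0 := by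
  have h : ((3 : ℕ) : (ZMod 3)[X][X]) = 0 := CharP.cast_eq_zero _ 3
  exact_mod_cast h

theorem p3_mo_single (j : ℕ) : mo (ZMod 3) {j} 0 = xi (ZMod 3) j := by
  unfold mo xS
  rw [prod_singleton, pow_zero, C_1, mul_one]

theorem p3_mo_pair {j k : ℕ} (h : j ≠ k) : mo (ZMod 3) {j, k} 0 = xi (ZMod 3) j * xi (ZMod 3) k := by
  unfold mo xS
  rw [prod_pair h, pow_zero, C_1, mul_one]

theorem p3_mo_empty : mo (ZMod 3) ∅ 0 = 1 := by
  unfold mo xS
  rw [prod_empty, pow_zero, C_1, mul_one]

theorem Car3_xi1 : Car 3 (xi (ZMod 3) 1) = 0 := by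
  rw [p3_xi1, Car_add (by norm_num), Car3_mono (by decide), Car3_mono (by decide), add_zero]

/-- `x_3 = x_1^4 + 2 x_1^2 z + z^2 + z` -/
theorem p3_xi3_eq : xi (ZMod 3) 3 = xi (ZMod 3) 1 ^ 3 * xi (ZMod 3) 1
    + (C (X ^ 1) * X ^ 4 + C (X ^ 1) * X ^ 4 + C (X ^ 2) * X ^ 2 + C (X ^ 3) * X ^ 0
      + C (X ^ 3) * X ^ 0 + C (X ^ 2) * X ^ 0 + C (X ^ 1) * X ^ 0) := by
  rw [p3_xi3, p3_xi2, p3_xi1]
  simp only [pow_zero, pow_one, C_1, C_pow]
  linear_combination (X ^ 2 * C X ^ 2) * p3_three_poly

theorem Car3_x3 : Car 3 (xi (ZMod 3) 3) = 1 := by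
  rw [p3_xi3_eq, Car_add (by norm_num), Car_pow_mul, Car3_xi1, mul_zero, zero_add]
  simp only [Car_add (show 0 < 3 by norm_num)]
  rw [Car3_mono (by decide), Car3_22, Car3_mono (by decide), Car3_mono (by decide),
    Car3_mono (by decide)]
  ring

/-- `x_1 x_3` -/
theorem Car3_x13 : Car 3 (xi (ZMod 3) 1 * xi (ZMod 3) 3) = 1 := by
  have e : xi (ZMod 3) 1 * xi (ZMod 3) 3 = xi (ZMod 3) 1 ^ 3 *
      (C (X ^ 0) * X ^ 4 + C (X ^ 1) * X ^ 2 + C (X ^ 1) * X ^ 2 + C (X ^ 2) * X ^ 0
        + C (X ^ 1) * X ^ 0 + C (X ^ 1) * X ^ 0)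
      + (C (X ^ 2) * X ^ 2 + C (X ^ 3) * X ^ 0 + C (X ^ 1) * X ^ 2 + C (X ^ 2) * X ^ 0) := by
    rw [p3_xi3, p3_xi2, p3_xi1]
    simp only [pow_zero, pow_one, C_1, C_pow]
    ring
  rw [e, Car_add (by norm_num), Car_pow_mul]
  simp only [Car_add (show 0 < 3 by norm_num)]
  rw [Car3_22, Car3_mono (by decide), Car3_mono (by decide), Car3_mono (by decide),
    Car3_mono (by decide), Car3_mono (by decide)]
  ring

/-- `z x_3` -/
theorem Car3_zx3 : Car 3 (C X * xi (ZMod 3) 3) = 0 := by
  have e : C X * xi (ZMod 3) 3 = xi (ZMod 3) 1 ^ 3 * (C (X ^ 1) * X ^ 2 + C (X ^ 2) * X ^ 0)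
    + (C (X ^ 2) * X ^ 4 + C (X ^ 2) * X ^ 4 + C (X ^ 3) * X ^ 2 + C (X ^ 4) * X ^ 0
      + C (X ^ 4) * X ^ 0 + C (X ^ 3) * X ^ 0 + C (X ^ 2) * X ^ 0) := by
    rw [p3_xi3, p3_xi2, p3_xi1]
    simp only [pow_zero, pow_one, C_1, C_pow]
    linear_combination (X ^ 2 * C X ^ 3) * p3_three_poly
  rw [e, Car_add (by norm_num), Car_pow_mul]
  simp only [Car_add (show 0 < 3 by norm_num)]
  rw [Car3_mono (by decide), Car3_mono (by decide), Car3_mono (by decide),
    Car3_mono (by decide), Car3_mono (by decide), Car3_mono (by decide)]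
  ring

/-- `x_3 x_4` -/
theorem Car3_x34 : Car 3 (xi (ZMod 3) 3 * xi (ZMod 3) 4) = 0 := by
  have e : xi (ZMod 3) 3 * xi (ZMod 3) 4 = xi (ZMod 3) 3 ^ 3 * 1 + C X * xi (ZMod 3) 3 := by
    rw [p3_xi4]
    ring
  have h1 : Car 3 (1 : (ZMod 3)[X][X]) = 0 := by
    rw [← p3_mo_empty]
    exact Car_one (by norm_num)
  rw [e, Car_add (by norm_num), Car_pow_mul, h1, mul_zero, Car3_zx3, add_zero]

end small

section three

variable {T i e j m : ℕ} {D : Finset ℕ} {θ s : ZMod 3} {ν : Finset ℕ → ZMod 3}
  {N : (ZMod 3)[X][X] →ₗ[ZMod 3] ZMod 3}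

theorem c2 : (1 / 2 : ZMod 3) = -1 := by
  have : (2 : ZMod 3) = -1 := by decide
  rw [this, one_div, inv_neg, inv_one]

/-- the tests of the critical level `i` are null -/
structure CritT (i m : ℕ) (N : (ZMod 3)[X][X] →ₗ[ZMod 3] ZMod 3) : Prop where
  t1 : ∀ I l, I ⊆ Ico 1 i → #I + 2 * l + 3 ≤ i → N (Car 3 (mo (ZMod 3) ({m} ∪ I) l)) = 0
  t2 : ∀ I l, I ⊆ Ico 1 i → #I + 2 * l + 4 ≤ i → N (Car 3 (mo (ZMod 3) (Ico i m ∪ I) l)) = 0
  t3 : ∀ I l, I ⊆ Ico 1 i → #I + 2 * l + 3 ≤ i → N (Car 3 (mo (ZMod 3) ({i + 1, m} ∪ I) l)) = 0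
  t4 : i = 3 → N (Car 3 (mo (ZMod 3) {1, m} 0)) = 0
  t5 : i = 2 → N (Car 3 (mo (ZMod 3) {2, m} 0)) = 0
  t6 : i = 2 → N (Car 3 (mo (ZMod 3) {1, 2, m} 0)) = 0

/-- the statement of the lemma `J3` -/
def J3s (j : ℕ) : Prop := ∀ (s : ZMod 3) (ν : Finset ℕ → ZMod 3)
  (N : (ZMod 3)[X][X] →ₗ[ZMod 3] ZMod 3), USys (j + 1) 0 True ν N → NuS j s ν → s = 0

theorem crit_three (h : LD 3 3 e D N) (hm : 2 ^ 3 * (3 * e + 1) = 2 ^ m) (hT : CritT 3 m N)
    {K : Finset ℕ} (hK : K ⊆ range 3) (h0 : 0 ∈ K) (hev : Even #K) : eta 3 D N K = 0 := by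
  have hm3 : 3 < m := by
    have h1 := h.he.pos
    have h3 : 2 ^ 3 < 2 ^ m := by rw [← hm]; omega
    exact (Nat.pow_lt_pow_iff_right (by norm_num)).1 h3
  have hE : ∀ q ∈ ({m} : Finset ℕ), 3 < q := by simpa using hm3
  have hR : ∑ q ∈ ({m} : Finset ℕ), 2 ^ q = 2 ^ 3 * (3 * e + 1) := by
    rw [sum_singleton, hm]
  have hsh : sh1 3 (eta 3 D N) (range 3 \ ∅) = eta 3 D N {0, 2} + eta 3 D N {0, 1} := by
    unfold sh1
    have h4 : (range 3 \ ∅).filter (· + 1 < 3) = {0, 1} := by decide
    rw [h4, sum_pair (by norm_num)]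
    congr 1
  obtain ⟨L, hL⟩ := loc_3 h le_rfl hm
  have h1 := hL ∅ 0 (empty_subset _) (by decide)
  rw [hT.t3 ∅ 0 (empty_subset _) (by decide), Car_one (by norm_num), map_zero, zero_add,
    if_neg (by decide), if_pos (by decide), pow_zero, one_mul, hsh, c2] at h1
  have h12 : eta 3 D N {0, 2} + eta 3 D N {0, 1} = 0 := by linear_combination h1
  have h3 := hT.t1 ∅ 0 (empty_subset _) (by decide)
  rw [loc_1c three_ne_two h hE (empty_subset _) hR (by decide), hsh, h12, mul_zero, mul_zero,
    add_zero] at h3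
  have e1 : insert 3 (∅ : Finset ℕ) = {3} := rfl
  rw [e1, p3_mo_single, Car3_x3] at h3
  have h4 := hT.t4 rfl
  rw [loc_13 h hm, p3_mo_pair (by norm_num), Car3_x13, h3, zero_sub, neg_eq_zero] at h4
  rw [h4, add_zero] at h12
  rcases pair_of_range_three hK h0 hev with rfl | rfl
  · exact h4
  · exact h12

/-- the reduced systems at the critical level -/
theorem usys_crit1 (hi : 3 ≤ i) (h : LD 3 i e D N) (hm : 2 ^ i * (3 * e + 1) = 2 ^ m)
    (hT : CritT i m N) :
    ∃ L : (ZMod 3)[X][X] →ₗ[ZMod 3] ZMod 3, USys i 1 False (eta i D N) L := by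
  obtain ⟨L, hL⟩ := loc_3 h hi hm
  refine ⟨(2 : ZMod 3) • L, ?_⟩
  intro S l hS hw _
  have h1 := hL S l hS hw
  rw [hT.t3 S l hS hw] at h1
  rw [LinearMap.smul_apply, smul_eq_mul]
  unfold VT
  have h3 : (3 : ZMod 3) = 0 := by decide
  by_cases h4 : #S + 2 * l + 4 = i
  · rw [if_pos h4] at h1 ⊢
    rw [c2]
    linear_combination -2 * h1 + (1 : ZMod 3) * (-1) ^ l * eta i D N (range i \ S) * h3
  · rw [if_neg h4] at h1 ⊢
    by_cases h5 : #S + 2 * l + 3 = i
    · rw [if_pos h5] at h1 ⊢
      have e1 : ∑ b ∈ (range i \ S).filter (· + 1 < i), (if b + 2 = i ∧ b + 1 ∈ S then (1 : ZMod 3) else 1)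
          * eta i D N (symmDiff (range i \ S) {b + 1}) = sh1 i (eta i D N) (range i \ S) := by
        unfold sh1
        apply sum_congr rfl
        intro c _
        rw [ite_self, one_mul]
      rw [e1, c4]
      rw [c2] at h1
      linear_combination -2 * h1 + (1 : ZMod 3) * (-1) ^ l * sh1 i (eta i D N) (range i \ S) * h3
    · rw [if_neg h5] at h1 ⊢
      linear_combination -2 * h1

theorem usys_crit2 (him : i < m) (h : LD 3 i e D N)
    (hm : 2 ^ i * (3 * e + 1) = 2 ^ m) (hT : CritT i m N) :
    USys (i + 1) 0 True (eta i D N) (Nn i D N) := by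
  have hE : ∀ q ∈ ({m} : Finset ℕ), i < q := by simpa using him
  have hR : ∑ q ∈ ({m} : Finset ℕ), 2 ^ q = 2 ^ i * (3 * e + 1) := by
    rw [sum_singleton, hm]
  have hE' : ∀ q ∈ Ico i m, i ≤ q := fun q hq => (mem_Ico.1 hq).1
  have hR' : ∑ q ∈ Ico i m, 2 ^ q = 2 ^ i * (3 * e) := by
    have h1 := sum_Ico_pow him.le
    rw [← hm, mul_add, mul_one] at h1
    omega
  intro S l hS hw hb
  by_cases hiS : i ∈ S
  · have hI : S.erase i ⊆ Ico 1 i := by
      intro a ha
      rw [mem_erase] at ha
      have := mem_Ico.1 (hS ha.2)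
      rw [mem_Ico]
      omega
    have hc : #(S.erase i) + 1 = #S := card_erase_add_one hiS
    have hins : insert i (S.erase i) = S := insert_erase hiS
    have hcomp : range (i + 1) \ S = range i \ S.erase i := by
      ext a
      simp only [mem_sdiff, mem_range, mem_erase, not_and]
      constructor
      · rintro ⟨h3, h4⟩
        have : a ≠ i := fun h => h4 (h ▸ hiS)
        exact ⟨by omega, fun _ => h4⟩
      · rintro ⟨h3, h4⟩
        exact ⟨by omega, h4 (by omega)⟩
    have h3 := hT.t1 (S.erase i) l hI (by omega)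
    unfold VT
    rcases Nat.lt_trichotomy (#(S.erase i) + 2 * l + 4) i with hw1 | hw1 | hw1
    · rw [if_neg (by omega), if_neg (by omega), add_zero, ← hins,
        ← loc_1a three_ne_two h hE hI hR (by omega)]
      exact h3
    · rw [loc_1b three_ne_two h hE hI hR hw1, hins] at h3
      rw [if_pos (by omega), hcomp]
      exact h3
    · rw [loc_1c three_ne_two h hE hI hR (by omega), hins] at h3
      rw [if_neg (by omega), if_pos (by omega), hcomp]
      refine Eq.trans ?_ h3
      congr 3
      unfold sh1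
      have e3 : ∀ c ∈ (range i \ S.erase i).filter (· + 1 < i),
          eta i D N (symmDiff (range i \ S.erase i) {c + 1})
          = (if c + 2 = i + 1 ∧ c + 1 ∈ S then 0 else 1) *
            eta i D N (symmDiff (range i \ S.erase i) {c + 1}) := by
        intro c hc
        have := (mem_filter.1 hc).2
        rw [if_neg (by omega), one_mul]
      rw [sum_congr rfl e3]
      symm
      apply sum_subset
      · intro c hc
        rw [mem_filter] at hc ⊢
        exact ⟨hc.1, by omega⟩
      · intro c hc hc'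
        rw [mem_filter] at hc hc'
        have h4 : c + 1 = i := by
          by_contra hcon
          exact hc' ⟨hc.1, by omega⟩
        rw [if_pos ⟨by omega, by rw [h4]; exact hiS⟩, zero_mul]
  · have hI : S ⊆ Ico 1 i := by
      intro a ha
      have h3 := mem_Ico.1 (hS ha)
      have : a ≠ i := fun h => hiS (h ▸ ha)
      rw [mem_Ico]
      omega
    have hw5 : #S + 2 * l + 5 ≤ i + 1 := by
      rcases hb trivial with h3 | h3
      · exact absurd h3 hiS
      · exact h3
    unfold VT
    rw [if_neg (by omega), if_neg (by omega), add_zero,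
      ← loc_0a three_ne_two h hE' hI hR' (by omega)]
    exact hT.t2 S l hI (by omega)

/-- the critical level -/
theorem crit (hJ : 4 ≤ i → J3s i) (h : LD 3 i e D N) (hi : 2 ≤ i)
    (hm : 2 ^ i * (3 * e) + 2 ^ i = 2 ^ m) (h6 : i = 2 → 6 ≤ m) (hT : CritT i m N)
    {K : Finset ℕ} (hK : K ⊆ range i) (h0 : 0 ∈ K) (hev : Even #K) : eta i D N K = 0 := by
  have hm' : 2 ^ i * (3 * e + 1) = 2 ^ m := by rw [mul_add, mul_one]; exact hm
  rcases Nat.lt_or_ge i 3 with h3 | h3
  · have : i = 2 := by omega
    subst this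
    rw [pair_of_range_two hK h0 hev]
    exact crit_two h hm' (h6 rfl) (hT.t5 rfl) (hT.t6 rfl)
  · rcases Nat.lt_or_ge i 4 with h4 | h4
    · have : i = 3 := by omega
      subst this
      exact crit_three h hm' hT hK h0 hev
    · have him : i < m := by
        have h1 := h.he.pos
        have h3 : 2 ^ i < 2 ^ m := by
          rw [← hm]
          have : 0 < 2 ^ i * (3 * e) := by positivity
          omega
        exact (Nat.pow_lt_pow_iff_right (by norm_num)).1 h3
      obtain ⟨L, hL⟩ := usys_crit1 h3 h hm' hT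
      obtain ⟨s, hG⟩ := G3 i hi 1 _ L hL
      exact hG.nu.zero (hJ h4 s _ _ (usys_crit2 him h hm' hT) hG.nu) hK h0 hev

/-! ### the lemma `J3` -/

/-- case (3) for `J(j)` with special `ν` -/
theorem eta_zero_J3full (hν : NuS j s ν) (hS : USys (j + 1) 0 True ν N) (h : LD 3 i e D N)
    (hi : 2 ≤ i) (hij : i < j) (hpar : Even (j + 1 - i))
    (hAs : ∑ a ∈ Ioo i (j + 1), 2 ^ a + 2 ^ i = 2 ^ i * (3 * e))
    {K : Finset ℕ} (hK : K ⊆ range i) (h0 : 0 ∈ K) (hev : Even #K) : eta i D N K = 0 := by
  have h3 := two_le_card_of_even h0 hev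
  have hA : ∀ a ∈ Ioo i (j + 1), i < a := fun a ha => (mem_Ioo.1 ha).1
  have h4 := h.own three_ne_two hA hAs hK h0 hev
  have hiK : i ∉ K := fun h => by have := mem_range.1 (hK h); omega
  have hco : range (j + 1) \ insert i K = Ioo i (j + 1) ∪ (range i \ K) := by
    ext a
    simp only [mem_sdiff, mem_range, mem_insert, mem_union, mem_Ioo, not_or]
    constructor
    · rintro ⟨h1, h3, h4⟩
      rcases Nat.lt_or_ge a i with h6 | h6
      · exact Or.inr ⟨h6, h4⟩
      · exact Or.inl ⟨by omega, h1⟩
    · rintro (⟨h1, h3⟩ | ⟨h1, h3⟩)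
      · refine ⟨h3, by omega, fun h => ?_⟩
        have := mem_range.1 (hK h)
        omega
      · exact ⟨by omega, by omega, h3⟩
  have hsub : insert i K ⊆ range (j + 1) := by
    intro a ha
    rw [mem_insert] at ha
    rw [mem_range]
    rcases ha with ha | ha
    · omega
    · have := mem_range.1 (hK ha)
      omega
  have hcar : #(insert i K) = #K + 1 := card_insert_of_notMem hiK
  have hc := card_compl hsub
  have h00 : 0 ∈ insert i K := mem_insert_of_mem h0
  have hev' := hev
  obtain ⟨k, hk⟩ := hev'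
  have h5 := hS (range (j + 1) \ insert i K) (#K / 2 - 1) (compl_sub h00) (by omega)
    (fun _ => Or.inl (by
      rw [mem_sdiff, mem_range, mem_insert]
      refine ⟨by omega, ?_⟩
      rintro (h | h)
      · omega
      · have := mem_range.1 (hK h)
        omega))
  unfold VT at h5
  rw [if_neg (by omega), if_pos (by omega), compl_compl hsub, hco, h4, ← mul_add] at h5
  have h6 := (mul_eq_zero.1 h5).resolve_left (neg_one_pow_ne _)
  -- the terms which contain `i`
  have key : 3 ≤ i → ∀ c ∈ (insert i K).filter (· + 1 < j + 1), c + 1 ≠ i →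
      (if c + 2 = j + 1 ∧ c + 1 ∈ Ioo i (j + 1) ∪ (range i \ K) then (0 : ZMod 3) else 1)
        * ν (symmDiff (insert i K) {c + 1}) = 0 := by
    intro hi3 c hc hci
    rw [mem_filter, mem_insert] at hc
    have hc2 : c ≤ i := by
      rcases hc.1 with h | h
      · omega
      · have := mem_range.1 (hK h)
        omega
    by_cases hcj : c + 1 = j
    · have hci : c = i := by omega
      rw [if_pos ⟨by omega, by rw [mem_union, mem_Ioo]; left; omega⟩, zero_mul]
    · have hcase := card_symmDiff_singleton (insert i K) (c + 1)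
      rw [hν.hbig _ _ (symmDiff_mem h00) _ ⟨i, _, hi3⟩, mul_zero]
      · intro a ha
        rw [mem_symmDiff, mem_singleton] at ha
        rw [mem_range]
        rcases ha with ha | ha
        · have h9 := ha.1
          rw [mem_insert] at h9
          rcases h9 with h9 | h9
          · omega
          · have := mem_range.1 (hK h9)
            omega
        · omega
      · rcases hcase with h6 | h6
        · exact ⟨k, by omega⟩
        · exact ⟨k + 1, by omega⟩
      · rw [mem_symmDiff, mem_singleton]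
        exact Or.inl ⟨mem_insert_self _ _, by omega⟩
  have h7 : ∑ c ∈ (insert i K).filter (· + 1 < j + 1),
      (if c + 2 = j + 1 ∧ c + 1 ∈ Ioo i (j + 1) ∪ (range i \ K) then (0 : ZMod 3) else 1)
        * ν (symmDiff (insert i K) {c + 1}) = 0 := by
    rcases Nat.lt_or_ge i 3 with hi3 | hi3
    · have hi2 : i = 2 := by omega
      subst hi2
      have hKe := pair_of_range_two hK h0 hev
      subst hKe
      have hjodd : ¬ Even j := by
        intro h7
        obtain ⟨a, ha⟩ := hpar
        obtain ⟨b, hb⟩ := h7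
        omega
      have f1 : (insert 2 ({0, 1} : Finset ℕ)).filter (· + 1 < j + 1) = {2, 0, 1} := by
        ext a
        simp only [mem_filter, mem_insert, mem_singleton]
        constructor
        · rintro ⟨h1, -⟩
          exact h1
        · intro h1
          exact ⟨h1, by omega⟩
      have g0 : symmDiff (insert 2 ({0, 1} : Finset ℕ)) {0 + 1} = {0, 2} := by decide
      have g1 : symmDiff (insert 2 ({0, 1} : Finset ℕ)) {1 + 1} = {0, 1} := by decide
      have g2 : symmDiff (insert 2 ({0, 1} : Finset ℕ)) {2 + 1} = {0, 1, 2, 3} := by decide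
      have t2 : (if 2 + 2 = j + 1 ∧ 2 + 1 ∈ Ioo 2 (j + 1) ∪ (range 2 \ {0, 1}) then (0 : ZMod 3)
          else 1) * ν {0, 1, 2, 3} = 0 := by
        by_cases hj3 : j = 3
        · subst hj3
          rw [if_pos ⟨rfl, by decide⟩, zero_mul]
        · rw [hν.hbig {0, 1, 2, 3} (by
            intro a ha
            simp only [mem_insert, mem_singleton] at ha
            rw [mem_range]; omega) (by decide) (by decide) ⟨3, by decide, le_rfl⟩, mul_zero]
      rw [f1, sum_insert (by decide), sum_pair (by norm_num), g0, g1, g2, t2,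
        if_neg (by omega), if_neg (by omega), hν.h01, hν.h02 (by omega), if_neg hjodd,
        if_neg hjodd]
      ring
    · by_cases h8 : i - 1 ∈ K
      · rw [sum_eq_single (i - 1) (fun c hc hne => key hi3 c hc (by omega))]
        · have h9 : i - 1 + 1 = i := by omega
          rw [h9, symmDiff_insert_self hiK]
          have hKj : K ⊆ range j := hK.trans (range_mono (by omega))
          rcases three_cases h0 hev with rfl | rfl | hm
          · exfalso
            simp only [mem_insert, mem_singleton] at h8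
            omega
          · have hi3' : i = 3 := by
              simp only [mem_insert, mem_singleton] at h8
              omega
            subst hi3'
            have hje : Even j := by
              obtain ⟨a, ha⟩ := hpar
              exact ⟨a + 1, by omega⟩
            rw [hν.h02 (by omega), if_pos hje, mul_zero]
          · rw [hν.hbig K hKj h0 hev hm, mul_zero]
        · intro h9
          exact absurd (mem_filter.2 ⟨mem_insert_of_mem h8, by omega⟩) h9
      · apply sum_eq_zero
        intro c hc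
        refine key hi3 c hc ?_
        intro h9
        rw [mem_filter, mem_insert] at hc
        rcases hc.1 with h10 | h10
        · omega
        · exact h8 (by have : i - 1 = c := by omega
                       rwa [this])
  rw [h7, mul_zero, add_zero] at h6
  exact h6

/-- the critical tests of `J(j)`, special `ν` -/
theorem critT_J3 (hν : NuS j s ν) (hS : USys (j + 1) 0 True ν N) (hi : 2 ≤ i) (hij : i + 2 ≤ j)
    (hpar : Even (j - i)) (hj : 5 ≤ j) : CritT i j N := by
  -- `V_4` values vanish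
  have hbig : ∀ S l, S ⊆ Ico 1 (j + 1) → j ∈ S → #S + 2 * l + 4 ≤ j + 1 → (∃ m, 3 ≤ m ∧ m < j ∧ m ∉ S) →
      N (Car 3 (mo (ZMod 3) S l)) = 0 := by
    rintro S l hSs hjS hw ⟨m, hm3, hmj, hmS⟩
    have h3 := hS S l hSs (by omega) (fun _ => Or.inl (by simpa using hjS))
    unfold VT at h3
    by_cases h4 : #S + 2 * l + 4 = j + 1
    · have hc : #(range (j + 1) \ S) + #S = j + 1 := by
        rw [card_sdiff_add_card_eq_card, card_range]
        intro a ha
        have := mem_Ico.1 (hSs ha)
        rw [mem_range]; omega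
      rw [if_pos h4, hν.hbig (range (j + 1) \ S), mul_zero, mul_zero, add_zero] at h3
      · exact h3
      · intro a ha
        rw [mem_sdiff, mem_range] at ha
        have : a ≠ j := fun h => ha.2 (h ▸ hjS)
        rw [mem_range]
        omega
      · rw [mem_sdiff, mem_range]
        refine ⟨by omega, fun h => ?_⟩
        have := mem_Ico.1 (hSs h)
        omega
      · exact ⟨l + 2, by omega⟩
      · exact ⟨m, by rw [mem_sdiff, mem_range]; exact ⟨by omega, hmS⟩, hm3⟩
    · rw [if_neg h4, if_neg (by omega), add_zero] at h3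
      exact h3
  have hcu : ∀ {A B : Finset ℕ}, #(A ∪ B) ≤ #A + #B := fun {A B} => card_union_le A B
  refine ⟨?_, ?_, ?_, ?_, ?_, ?_⟩
  · intro I l hI hw
    have hdis : Disjoint {j} I := by
      rw [disjoint_singleton_left]
      intro h1
      have := mem_Ico.1 (hI h1)
      omega
    have hcard : #({j} ∪ I) = 1 + #I := by
      rw [card_union_of_disjoint hdis, card_singleton]
    refine hbig _ _ ?_ (by simp) (by omega) ⟨i, by omega, by omega, ?_⟩
    · intro a ha
      rw [mem_union, mem_singleton] at ha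
      rw [mem_Ico]
      rcases ha with ha | ha
      · omega
      · have := mem_Ico.1 (hI ha)
        omega
    · rw [mem_union, mem_singleton]
      rintro (h1 | h1)
      · omega
      · have := mem_Ico.1 (hI h1)
        omega
  · intro I l hI hw
    have hdis : Disjoint (Ico i j) I := by
      rw [disjoint_left]
      intro a ha hb'
      have := mem_Ico.1 ha
      have := mem_Ico.1 (hI hb')
      omega
    have hcard : #(Ico i j ∪ I) = (j - i) + #I := by
      rw [card_union_of_disjoint hdis, Nat.card_Ico]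
    have h3 := hS (Ico i j ∪ I) l ?_ (by omega) (fun _ => Or.inr (by omega))
    · unfold VT at h3
      rw [if_neg (by omega), if_neg (by omega), add_zero] at h3
      exact h3
    · intro a ha
      rw [mem_union] at ha
      rw [mem_Ico]
      rcases ha with ha | ha
      · have := mem_Ico.1 ha
        omega
      · have := mem_Ico.1 (hI ha)
        omega
  · intro I l hI hw
    have hdis : Disjoint {i + 1, j} I := by
      rw [disjoint_left]
      intro a ha hb'
      rw [mem_insert, mem_singleton] at ha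
      have := mem_Ico.1 (hI hb')
      omega
    have hcard : #({i + 1, j} ∪ I) = 2 + #I := by
      rw [card_union_of_disjoint hdis, card_pair (by omega)]
    refine hbig _ _ ?_ (by simp) (by omega) ⟨i, by omega, by omega, ?_⟩
    · intro a ha
      rw [mem_union, mem_insert, mem_singleton] at ha
      rw [mem_Ico]
      rcases ha with (ha | ha) | ha
      · omega
      · omega
      · have := mem_Ico.1 (hI ha)
        omega
    · rw [mem_union, mem_insert, mem_singleton]
      rintro ((h1 | h1) | h1)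
      · omega
      · omega
      · have := mem_Ico.1 (hI h1)
        omega
  · rintro rfl
    refine hbig _ _ ?_ (by simp) ?_ ⟨3, le_rfl, by omega, by simp; omega⟩
    · intro a ha
      simp only [mem_insert, mem_singleton] at ha
      rw [mem_Ico]; omega
    · rw [card_pair (by omega)]; omega
  · rintro rfl
    have hj6 : 6 ≤ j := by
      obtain ⟨a, ha⟩ := hpar
      omega
    refine hbig _ _ ?_ (by simp) ?_ ⟨3, le_rfl, by omega, by simp; omega⟩
    · intro a ha
      simp only [mem_insert, mem_singleton] at ha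
      rw [mem_Ico]; omega
    · rw [card_pair (by omega)]; omega
  · rintro rfl
    have hj6 : 6 ≤ j := by
      obtain ⟨a, ha⟩ := hpar
      omega
    refine hbig _ _ ?_ (by simp) ?_ ⟨3, le_rfl, by omega, by simp; omega⟩
    · intro a ha
      simp only [mem_insert, mem_singleton] at ha
      rw [mem_Ico]; omega
    · rw [card_insert_of_notMem (by simp; omega), card_pair (by omega)]; omega

/-- `k` is even if `2^k = 3 e + 1` -/
theorem even_of_pow {i e m : ℕ} (h : 2 ^ i * (3 * e) + 2 ^ i = 2 ^ m) (him : i ≤ m) :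
    Even (m - i) := by
  have h5 : 2 ^ (m - i) = 3 * e + 1 := by
    have h6 : 2 ^ i * 2 ^ (m - i) = 2 ^ i * (3 * e + 1) := by
      rw [← pow_add, Nat.add_sub_cancel' him, ← h]
      ring
    exact Nat.eq_of_mul_eq_mul_left (by positivity) h6
  rcases Nat.even_or_odd (m - i) with h6 | h6
  · exact h6
  · exfalso
    obtain ⟨c, hc'⟩ := h6
    rw [hc', pow_succ, pow_mul] at h5
    obtain ⟨e', he'⟩ := exists_four_pow c
    norm_num at h5
    omega

theorem J3 (j : ℕ) : 4 ≤ j → J3s j := by
  induction j using Nat.strong_induction_on with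
  | _ j IH =>
  intro hj s ν N hS hν
  rcases Nat.lt_or_ge j 5 with hj5 | hj5
  · have : j = 4 := by omega
    subst this
    have h1 := hS {3, 4} 0 (by decide) (by decide) (fun _ => Or.inl (by decide))
    rw [p3_mo_pair (by norm_num), Car3_x34, map_zero, zero_add] at h1
    unfold VT at h1
    have f1 : (range (4 + 1) \ {3, 4}).filter (· + 1 < 4 + 1) = {2, 0, 1} := by decide
    have g0 : symmDiff (range (4 + 1) \ {3, 4}) {0 + 1} = {0, 2} := by decide
    have g1 : symmDiff (range (4 + 1) \ {3, 4}) {1 + 1} = {0, 1} := by decide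
    have g2 : symmDiff (range (4 + 1) \ {3, 4}) {2 + 1} = {0, 1, 2, 3} := by decide
    rw [if_neg (by decide), if_pos (by decide), pow_zero, one_mul, c4, one_mul, f1,
      sum_insert (by decide), sum_pair (by norm_num), g0, g1, g2,
      hν.hbig {0, 1, 2, 3} (by decide) (by decide) (by decide) ⟨3, by decide, le_rfl⟩, mul_zero,
      zero_add, if_neg (by decide), if_neg (by decide), one_mul, one_mul, hν.h01,
      hν.h02 (by norm_num), if_pos (by decide), if_pos (by decide), zero_add] at h1
    exact h1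
  · by_cases hz : ∀ f ∈ FQ (ZMod 3) (2 ^ (j + 1) / (3 : ℕ)), N f = 0
    · have hZ : Null (j + 1) N := null_of_zero three_ne_two hz
      by_cases hje : Even j
      · have h1 := null_01 three_ne_two hZ hS (fun _ => rfl) (by omega) (fun _ => by omega)
        rwa [hν.h01, if_pos hje] at h1
      · have h1 := null_02 three_ne_two hZ hS (fun _ => rfl) (by omega) (fun _ => by omega)
        rwa [hν.h02 (by omega), if_neg hje] at h1
    · exfalso
      push Not at hz
      obtain ⟨i, e, D, hL, hle, hi, K₀, hK₀, h0₀, hev₀, hne⟩ := lead hz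
      obtain ⟨A, hA, hAT, hiT, hAs⟩ := exists_A three_ne_two hL.he hle
      have hpos : 1 ≤ 2 ^ i := Nat.one_le_two_pow
      have h9 : 2 ^ i * 3 ≤ 2 ^ i * (3 * e) := Nat.mul_le_mul_left _ (by have := hL.he.pos; omega)
      apply hne
      rcases digit_cases hA hAT hiT with hc | hc | ⟨q, hq, hqT, hc⟩
      · exact eta_zero_of_small three_ne_two hL hS hA hAT hAs hc hK₀ h0₀ hev₀
      · rw [hc] at hAs
        have hP := pe_eq' hiT hAs
        have hpar := even_of_pow hP hiT.le
        have hij : i < j := by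
          obtain ⟨a, ha⟩ := hpar
          omega
        exact eta_zero_J3full hν hS hL hi hij hpar hAs hK₀ h0₀ hev₀
      · rw [hc] at hAs
        by_cases hqT1 : q + 1 < j + 1
        · rw [eta_own three_ne_two hL hS hq hqT (fun _ => by omega) hAs hK₀ h0₀ hev₀,
            hν.hbig _ _ _ _ ⟨q, mem_insert_self _ _, by omega⟩, mul_zero]
          · intro a ha
            rw [mem_insert, mem_insert] at ha
            rw [mem_range]
            rcases ha with ha | ha | ha
            · omega
            · omega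
            · have := mem_range.1 (hK₀ ha)
              omega
          · rw [mem_insert, mem_insert]; exact Or.inr (Or.inr h0₀)
          · rw [card_own hq hK₀]
            obtain ⟨k, hk⟩ := hev₀
            exact ⟨k + 1, by omega⟩
        · have hqe : q = j := by omega
          subst hqe
          have hP := pe_top (i := i) (T := q + 1) (by omega) (by rw [Nat.add_sub_cancel]; exact hAs)
          rw [Nat.add_sub_cancel] at hP
          have hpar := even_of_pow hP hq.le
          have hij : i + 2 ≤ q := by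
            obtain ⟨a, ha⟩ := hpar
            omega
          refine crit (fun h4 => IH i (by omega) h4) hL hi hP ?_
            (critT_J3 hν hS hi hij hpar hj5) hK₀ h0₀ hev₀
          rintro rfl
          obtain ⟨a, ha⟩ := hpar
          omega

end three

end Dyn59
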