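import Pool.Agent.H.MP_d59dab.IndE

/-!
# MP_d59dab: the window statement `(*)⁺_w` for `p ≥ 5`, from the systems `J(i; 0)`
-/

set_option autoImplicit false

open Finset Polynomial

noncomputable section

namespace Dyn59

/-- the tests allowed in the window `w`: `U(w, w-4) + x_w U(w, w-4)` -/
def Tw (p w : ℕ) : Submodule (ZMod p) (ZMod p)[X][X] :=
  Submodule.span (ZMod p) {f | ∃ A k, f = mo (ZMod p) A k ∧ A ⊆ Ico 1 (w + 1) ∧
    #(A.erase w) + 2 * k + 4 ≤ w}

theorem mo_mem_Tw {p w : ℕ} {A : Finset ℕ} {k : ℕ} (hA : A ⊆ Ico 1 (w + 1))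
    (hk : #(A.erase w) + 2 * k + 4 ≤ w) : mo (ZMod p) A k ∈ Tw p w :=
  Submodule.subset_span ⟨A, k, rfl, hA, hk⟩

variable {p : ℕ} [hp : Fact p.Prime]

/-- duality -/
theorem exists_dual {w : ℕ} {f : (ZMod p)[X][X]}
    (h : ¬ ∃ T ∈ Tw p w, Car p (f - T) = 0) :
    ∃ N : (ZMod p)[X][X] →ₗ[ZMod p] ZMod p, N (Car p f) ≠ 0 ∧ ∀ A k, A ⊆ Ico 1 (w + 1) →
      #(A.erase w) + 2 * k + 4 ≤ w → N (Car p (mo (ZMod p) A k)) = 0 := by
  have h1 : Car p f ∉ (Tw p w).map (CarL (ZMod p) hp.out.pos) := by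
    rintro ⟨T, hT, hTf⟩
    apply h
    refine ⟨T, hT, ?_⟩
    have h2 : CarL (ZMod p) hp.out.pos (f - T) = 0 := by
      rw [map_sub, hTf]
      exact sub_self _
    exact h2
  obtain ⟨N, hN, hker⟩ := Submodule.exists_le_ker_of_notMem h1
  refine ⟨N, hN, fun A k hA hk => ?_⟩
  have h2 : CarL (ZMod p) hp.out.pos (mo (ZMod p) A k) ∈
      (Tw p w).map (CarL (ZMod p) hp.out.pos) := ⟨_, mo_mem_Tw hA hk, rfl⟩
  exact hker h2

/-- the leading exponent of a functional which kills the window -/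
theorem window_lead (h2 : p ≠ 2) {w l : ℕ} {I : Finset ℕ} (hI : I ⊆ Ico 1 w)
    (hw : #I + 2 * l + 3 = w) {N : (ZMod p)[X][X] →ₗ[ZMod p] ZMod p}
    (hN : N (Car p (mo (ZMod p) I l)) ≠ 0)
    (hT : ∀ A k, A ⊆ Ico 1 (w + 1) → #(A.erase w) + 2 * k + 4 ≤ w →
      N (Car p (mo (ZMod p) A k)) = 0) :
    ∃ i e D, LD p i e D N ∧ 2 ≤ i ∧ i < w ∧ 2 ^ i * (p * e) + 2 ^ i = 2 ^ w ∧
      ∃ K ⊆ range i, 0 ∈ K ∧ Even #K ∧ eta i D N K ≠ 0 := by
  have hIr : I ⊆ range w := by
    intro a ha
    have := mem_Ico.1 (hI ha)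
    rw [mem_range]
    omega
  have h0I : 0 ∉ I := fun h => by
    have := mem_Ico.1 (hI h)
    omega
  have hO : OL I l (2 ^ w - 1) := by
    have h3 := ol_of_compl (T := w) (S := I) (U := {0}) (l := l) hIr
      (by rw [singleton_subset_iff, mem_sdiff, mem_range]; exact ⟨by omega, h0I⟩)
      (by rw [card_singleton]; omega)
    rwa [sum_singleton, pow_zero] at h3
  have hF := Car_FQ h2 (mo_mem_FQ (ZMod p) h0I hO)
  obtain ⟨i, e, D, hLD, hle, hi2, K, hK, h0K, hev, hne⟩ := lead ⟨_, hF, hN⟩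
  have hp0 : (0 : ℤ) < p := by exact_mod_cast hp.out.pos
  have hlt : 2 ^ i * (p * e) < 2 ^ w := by
    have h3 : (p : ℤ) * ((2 ^ w - 1) / p) ≤ 2 ^ w - 1 := Int.mul_ediv_self_le hp0.ne'
    have h4 : ((2 ^ i * (p * e) : ℕ) : ℤ) < ((2 ^ w : ℕ) : ℤ) := by
      push_cast
      nlinarith
    exact_mod_cast h4
  have hodd : Odd (p * e) := (hp.out.odd_of_ne_two h2).mul hLD.he
  obtain ⟨A, hA, hAs⟩ := exists_digits i hodd
  have h2i : 0 < 2 ^ i := by positivity
  have hAw : ∀ q ∈ A, q < w := lt_of_sum_lt (by omega)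
  have hsub : A ⊆ Ioo i w := fun q hq => mem_Ioo.2 ⟨hA q hq, hAw q hq⟩
  have hiw : i < w := by
    have h3 : 2 ^ i * 1 ≤ 2 ^ i * (p * e) := Nat.mul_le_mul_left _ hodd.pos
    exact (Nat.pow_lt_pow_iff_right (by norm_num)).1 (lt_of_le_of_lt (by omega) hlt)
  have hAeq : A = Ioo i w := by
    by_contra hcon
    apply hne
    have hcard : #A < #(Ioo i w) := card_lt_card (lt_of_le_of_ne hsub hcon)
    rw [Nat.card_Ioo] at hcard
    have h3 := two_le_card_of_even h0K hev
    have hc := card_compl hK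
    have hcu : #(A ∪ (range i \ K)) = #A + #(range i \ K) :=
      card_union_of_disjoint (disj_own hA K)
    have hev' := hev
    obtain ⟨k, hk⟩ := hev'
    have hwn : w ∉ A ∪ (range i \ K) := by
      rw [mem_union, not_or]
      refine ⟨fun h => (hAw w h).false, fun h => ?_⟩
      rw [mem_sdiff, mem_range] at h
      omega
    have h4 := hT (A ∪ (range i \ K)) (#K / 2 - 1) ?_ ?_
    · rw [hLD.own h2 hA hAs hK h0K hev] at h4
      exact (mul_eq_zero.1 h4).resolve_left (neg_one_pow_ne _)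
    · intro a ha
      rw [mem_union] at ha
      rw [mem_Ico]
      rcases ha with ha | ha
      · have := hA a ha
        have := hAw a ha
        omega
      · have := mem_Ico.1 (compl_sub (T := i) h0K ha)
        omega
    · rw [erase_eq_of_notMem hwn, hcu]
      omega
  refine ⟨i, e, D, hLD, hi2, hiw, ?_, K, hK, h0K, hev, hne⟩
  rw [hAeq] at hAs
  have h3 := sum_Ico_pow hiw.le
  have h4 : ∑ s ∈ Ico i w, 2 ^ s = 2 ^ i + ∑ s ∈ Ioo i w, 2 ^ s := by
    rw [← Ioo_insert_left hiw, sum_insert (by simp)]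
  omega

/-- the window statement for `p ≥ 5` -/
theorem plus (hp5 : 5 ≤ p)
    (JS : ∀ i, 3 ≤ i → ∀ (ν : Finset ℕ → ZMod p) (N : (ZMod p)[X][X] →ₗ[ZMod p] ZMod p),
      JSys i 0 ν N → ∀ K ⊆ range i, 0 ∈ K → Even #K → ν K = 0)
    {w l : ℕ} {I : Finset ℕ} (hI : I ⊆ Ico 1 w) (hw : #I + 2 * l + 3 = w) :
    ∃ T ∈ Tw p w, Car p (mo (ZMod p) I l - T) = 0 := by
  by_contra hcon
  have h2 : p ≠ 2 := by omega
  obtain ⟨N, hN, hT⟩ := exists_dual hcon
  obtain ⟨i, e, D, hLD, hi2, hiw, hpe, K, hK, h0K, hev, hne⟩ := window_lead h2 hI hw hN hT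
  -- `w ≥ i + 3`
  have hiw3 : i + 3 ≤ w := by
    by_contra hc
    have h3 : 2 ^ w ≤ 2 ^ (i + 2) := Nat.pow_le_pow_right (by norm_num) (by omega)
    have h4 : 5 * 1 ≤ p * e := Nat.mul_le_mul hp5 hLD.he.pos
    have h5 : 2 ^ i * 5 ≤ 2 ^ i * (p * e) := Nat.mul_le_mul_left _ (by omega)
    have h6 : 0 < 2 ^ i := by positivity
    rw [pow_add] at h3
    omega
  have hJ : JSys i 0 (eta i D N) (Nn i D N) := by
    have hw2 : ∀ I' l', I' ⊆ Ico 1 i → #I' + 2 * l' + 4 ≤ w →
        N (Car p (mo (ZMod p) ({w} ∪ I') l')) = 0 := by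
      intro I' l' hI' hw'
      have hwI : w ∉ I' := fun h => by
        have := mem_Ico.1 (hI' h)
        omega
      refine hT ({w} ∪ I') l' ?_ ?_
      · intro a ha
        rw [mem_union, mem_singleton] at ha
        rw [mem_Ico]
        rcases ha with ha | ha
        · omega
        · have := mem_Ico.1 (hI' ha)
          omega
      · rw [← insert_eq, erase_insert hwI]
        omega
    refine jsys_of_tests h2 (E := {w}) (E' := Ico i w) hLD ?_ ?_ ?_ ?_
      (fun I' l' hI' hw' => hw2 I' l' hI' (by omega)) ?_ ?_ ?_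
    · intro q hq
      rw [mem_singleton] at hq
      omega
    · rw [sum_singleton, mul_add, mul_one, hpe]
    · intro q hq
      exact (mem_Ico.1 hq).1
    · have := sum_Ico_pow hiw.le
      omega
    · intro hi
      rw [hw2 (Ico 2 i) 0 (Ico_subset_Ico_left (by omega)) (by rw [Nat.card_Ico]; omega), zero_mul,
        add_zero]
    · intro hi
      have h3 : insert 1 (Ico 3 i) ⊆ Ico 1 i := by
        intro a ha
        rw [mem_insert, mem_Ico] at ha
        rw [mem_Ico]
        omega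
      have h4 : #(insert 1 (Ico 3 i)) = i - 2 := by
        rw [card_insert_of_notMem (by rw [mem_Ico]; omega), Nat.card_Ico]
        omega
      rw [hw2 _ 0 h3 (by rw [h4]; omega), zero_mul, add_zero]
    · intro I' l' hI' hw'
      apply hT
      · intro a ha
        rw [mem_union, mem_Ico] at ha
        rw [mem_Ico]
        rcases ha with ha | ha
        · omega
        · have := mem_Ico.1 (hI' ha)
          omega
      · have h3 : #((Ico i w ∪ I').erase w) ≤ #(Ico i w) + #I' :=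
          (card_le_card (erase_subset _ _)).trans (card_union_le _ _)
        rw [Nat.card_Ico] at h3
        omega
  apply hne
  rcases Nat.lt_or_ge i 3 with hi3 | hi3
  · have hi : i = 2 := by omega
    subst hi
    rw [pair_of_range_two hK h0K hev]
    rcases Nat.lt_or_ge 5 p with h5 | h5
    · refine eta_two h5 (α := 0) ?_ hJ
      rw [mul_zero]
      intro h0
      have h1 : ((15 : ℕ) : ZMod p) = 0 := by exact_mod_cast h0.symm
      rw [ZMod.natCast_eq_zero_iff] at h1
      have h3 : p ∣ 3 * 5 := h1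
      rcases (Nat.Prime.dvd_mul hp.out).1 h3 with h4 | h4
      · have := Nat.le_of_dvd (by norm_num) h4
        omega
      · have := Nat.le_of_dvd (by norm_num) h4
        omega
    · have hp5' : p = 5 := by omega
      subst hp5'
      have h1 := loc_1f (p := 5) le_rfl hLD (E := {w}) (fun q hq => by
        rw [mem_singleton] at hq; omega) (by rw [sum_singleton, mul_add, mul_one]; exact hpe.symm)
      rw [hT (insert 1 {w}) 0 ?_ ?_] at h1
      · have h3 : (19 / 128 : ZMod 5) ≠ 0 := by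
          have h4 : (19 : ZMod 5) ≠ 0 := by
            intro h0
            have h6 : ((19 : ℕ) : ZMod 5) = 0 := by exact_mod_cast h0
            rw [ZMod.natCast_eq_zero_iff] at h6
            omega
          have h7 : (128 : ZMod 5) ≠ 0 := by
            intro h0
            have h6 : ((128 : ℕ) : ZMod 5) = 0 := by exact_mod_cast h0
            rw [ZMod.natCast_eq_zero_iff] at h6
            omega
          exact div_ne_zero h4 h7
        exact (mul_eq_zero.1 h1.symm).resolve_left h3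
      · intro a ha
        rw [mem_insert, mem_singleton] at ha
        rw [mem_Ico]
        omega
      · have h3 : (insert 1 {w} : Finset ℕ).erase w = {1} := by
          ext a
          simp only [mem_erase, mem_insert, mem_singleton]
          omega
        rw [h3, card_singleton]
        omega
  · exact JS i hi3 _ _ hJ K hK h0K hev

/-- `(*)⁺_w` for `p ≥ 5` -/
theorem plus_five (hp5 : 5 ≤ p) {w l : ℕ} {I : Finset ℕ} (hI : I ⊆ Ico 1 w)
    (hw : #I + 2 * l + 3 = w) : ∃ T ∈ Tw p w, Car p (mo (ZMod p) I l - T) = 0 := by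
  have h2 : p ≠ 2 := by omega
  refine plus hp5 (fun i hi ν N h K hK h0 hev => JS_main hp5 hi ?_ ?_ h hK h0 hev) hI hw
  · rw [mul_zero]
    exact (three_ne_zero' hp5).symm
  · intro _ _
    exact (four_ne_zero' h2).symm

end Dyn59
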