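import Pool.Agent.H.MP_d59dab.P3C
import Pool.Agent.H.MP_d59dab.Plus

/-!
# MP_d59dab, `p = 3`: the window statement
-/

set_option autoImplicit false

open Finset Polynomial

noncomputable section

namespace Dyn59

/-- the tests of order `< 3 2^(w-1)` in the window `w` -/
def Tw3 (w : ℕ) : Submodule (ZMod 3) (ZMod 3)[X][X] :=
  Submodule.span (ZMod 3) {f | ∃ A k, f = mo (ZMod 3) A k ∧ A ⊆ Ico 1 (w + 1) ∧
    #(A.erase w) + 2 * k + 4 ≤ w ∧ OL A k (3 * 2 ^ (w - 1) - 1)}

/-- duality -/
theorem exists_dual3 {w : ℕ} {f : (ZMod 3)[X][X]} (h : ¬ ∃ T ∈ Tw3 w, Car 3 (f - T) = 0) :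
    ∃ N : (ZMod 3)[X][X] →ₗ[ZMod 3] ZMod 3, N (Car 3 f) ≠ 0 ∧ ∀ A k, A ⊆ Ico 1 (w + 1) →
      #(A.erase w) + 2 * k + 4 ≤ w → OL A k (3 * 2 ^ (w - 1) - 1) →
        N (Car 3 (mo (ZMod 3) A k)) = 0 := by
  have h1 : Car 3 f ∉ (Tw3 w).map (CarL (ZMod 3) (show 0 < 3 by norm_num)) := by
    rintro ⟨T, hT, hTf⟩
    apply h
    refine ⟨T, hT, ?_⟩
    have h2 : CarL (ZMod 3) (show 0 < 3 by norm_num) (f - T) = 0 := by
      rw [map_sub, hTf]
      exact sub_self _
    exact h2
  obtain ⟨N, hN, hker⟩ := Submodule.exists_le_ker_of_notMem h1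
  refine ⟨N, hN, fun A k hA hk hO => ?_⟩
  have h2 : CarL (ZMod 3) (show 0 < 3 by norm_num) (mo (ZMod 3) A k) ∈
      (Tw3 w).map (CarL (ZMod 3) (show 0 < 3 by norm_num)) :=
    ⟨_, Submodule.subset_span ⟨A, k, rfl, hA, hk, hO⟩, rfl⟩
  exact hker h2

theorem Tw3_le {w : ℕ} : Tw3 w ≤ Tw 3 w := by
  apply Submodule.span_mono
  rintro f ⟨A, k, rfl, hA, hk, -⟩
  exact ⟨A, k, rfl, hA, hk⟩

theorem Tw3_FQ {w : ℕ} {T : (ZMod 3)[X][X]} (hT : T ∈ Tw3 w) :
    T ∈ FQ (ZMod 3) (3 * 2 ^ (w - 1) - 1) := by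
  refine (Submodule.span_le.2 ?_) hT
  rintro f ⟨A, k, rfl, hA, -, hO⟩
  refine Submodule.subset_span ⟨A, k, rfl, fun h => ?_, hO⟩
  have := mem_Ico.1 (hA h)
  omega

/-- the window statement, `w ≠ 4` -/
theorem plus3a {w l : ℕ} {I : Finset ℕ} (hI : I ⊆ Ico 1 w) (hw : #I + 2 * l + 3 = w)
    (hw4 : w ≠ 4) : ∃ T ∈ Tw 3 w, Car 3 (mo (ZMod 3) I l - T) = 0 := by
  by_contra hcon
  obtain ⟨N, hN, hT⟩ := exists_dual hcon
  obtain ⟨i, e, D, hLD, hi2, hiw, hpe, K, hK, h0K, hev, hne⟩ := window_lead three_ne_two hI hw hN hT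
  have hpar := even_of_pow hpe hiw.le
  have hiw2 : i + 2 ≤ w := by
    obtain ⟨a, ha⟩ := hpar
    omega
  apply hne
  refine crit (fun h4 => J3 i h4) hLD hi2 hpe ?_ ⟨?_, ?_, ?_, ?_, ?_, ?_⟩ hK h0K hev
  · rintro rfl
    obtain ⟨a, ha⟩ := hpar
    omega
  · intro I' l' hI' hw'
    have hwI : w ∉ I' := fun h => by
      have := mem_Ico.1 (hI' h)
      omega
    apply hT
    · intro a ha
      rw [mem_union, mem_singleton] at ha
      rw [mem_Ico]
      rcases ha with ha | ha
      · omega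
      · have := mem_Ico.1 (hI' ha)
        omega
    · rw [← insert_eq, erase_insert hwI]
      omega
  · intro I' l' hI' hw'
    apply hT
    · intro a ha
      rw [mem_union, mem_Ico] at ha
      rw [mem_Ico]
      rcases ha with ha | ha
      · omega
      · have := mem_Ico.1 (hI' ha)
        omega
    · have h3 : #((Ico i w ∪ I').erase w) ≤ #(Ico i w) + #I' :=
        (card_le_card (erase_subset _ _)).trans (card_union_le _ _)
      rw [Nat.card_Ico] at h3
      omega
  · intro I' l' hI' hw'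
    apply hT
    · intro a ha
      rw [mem_union, mem_insert, mem_singleton] at ha
      rw [mem_Ico]
      rcases ha with (ha | ha) | ha
      · omega
      · omega
      · have := mem_Ico.1 (hI' ha)
        omega
    · have h3 : #(({i + 1, w} ∪ I').erase w) ≤ 1 + #I' := by
        have h4 : ({i + 1, w} ∪ I').erase w ⊆ {i + 1} ∪ I' := by
          intro a ha
          simp only [mem_erase, mem_union, mem_insert, mem_singleton] at ha ⊢
          tauto
        exact (card_le_card h4).trans ((card_union_le _ _).trans (by rw [card_singleton]))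
      omega
  · rintro rfl
    apply hT
    · intro a ha
      simp only [mem_insert, mem_singleton] at ha
      rw [mem_Ico]; omega
    · have h3 : ({1, w} : Finset ℕ).erase w = {1} := by
        ext a
        simp only [mem_erase, mem_insert, mem_singleton]
        omega
      rw [h3, card_singleton]
      omega
  · rintro rfl
    apply hT
    · intro a ha
      simp only [mem_insert, mem_singleton] at ha
      rw [mem_Ico]; omega
    · have h3 : ({2, w} : Finset ℕ).erase w = {2} := by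
        ext a
        simp only [mem_erase, mem_insert, mem_singleton]
        omega
      rw [h3, card_singleton]
      obtain ⟨a, ha⟩ := hpar
      omega
  · rintro rfl
    apply hT
    · intro a ha
      simp only [mem_insert, mem_singleton] at ha
      rw [mem_Ico]; omega
    · have h3 : ({1, 2, w} : Finset ℕ).erase w = {1, 2} := by
        ext a
        simp only [mem_erase, mem_insert, mem_singleton]
        omega
      rw [h3, card_pair (by norm_num)]
      obtain ⟨a, ha⟩ := hpar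
      omega

/-- the window statement, `w - 1 ∉ I` -/
theorem plus3b {w l : ℕ} {I : Finset ℕ} (hI : I ⊆ Ico 1 w) (hw : #I + 2 * l + 3 = w)
    (hwI : w - 1 ∉ I) : ∃ T ∈ Tw3 w, Car 3 (mo (ZMod 3) I l - T) = 0 := by
  by_contra hcon
  obtain ⟨N, hN, hT⟩ := exists_dual3 hcon
  have hIr : I ⊆ range w := by
    intro a ha
    have := mem_Ico.1 (hI ha)
    rw [mem_range]
    omega
  have h0I : 0 ∉ I := fun h => by
    have := mem_Ico.1 (hI h)
    omega
  have e2 : (2 : ℤ) ^ w = 2 * 2 ^ (w - 1) := by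
    rw [← pow_succ']; congr 1; omega
  have e2n : 2 ^ w = 2 * 2 ^ (w - 1) := by
    rw [← pow_succ']; congr 1; omega
  have hO : OL I l (2 ^ (w - 1)) := by
    have h3 := ol_of_compl (T := w) (S := I) (U := {w - 1}) (l := l) hIr
      (by rw [singleton_subset_iff, mem_sdiff, mem_range]; exact ⟨by omega, hwI⟩)
      (by rw [card_singleton]; omega)
    rw [sum_singleton, e2] at h3
    exact h3.mono (by linarith)
  have hF := Car_FQ three_ne_two (mo_mem_FQ (ZMod 3) h0I hO)
  obtain ⟨i, e, D, hLD, hle, hi2, K, hK, h0K, hev, hne⟩ := lead ⟨_, hF, hN⟩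
  obtain ⟨A, hA, hAT, hiT, hAs⟩ := exists_A three_ne_two hLD.he hle
  apply hne
  have h3 := two_le_card_of_even h0K hev
  have hc := card_compl hK
  have hcu : #(A ∪ (range i \ K)) = #A + #(range i \ K) :=
    card_union_of_disjoint (disj_own hA K)
  have hAc : #A ≤ w - 1 - i - 1 := by
    have hsub : A ⊆ Ioo i (w - 1) := fun q hq => mem_Ioo.2 ⟨hA q hq, hAT q hq⟩
    have := card_le_card hsub
    rwa [Nat.card_Ioo] at this
  have hev' := hev
  obtain ⟨k, hk⟩ := hev'
  have hwn : w ∉ A ∪ (range i \ K) := by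
    rw [mem_union, not_or]
    refine ⟨fun h => by have := hAT w h; omega, fun h => ?_⟩
    rw [mem_sdiff, mem_range] at h
    omega
  have h4 := hT (A ∪ (range i \ K)) (#K / 2 - 1) ?_ ?_ ?_
  · rw [hLD.own three_ne_two hA hAs hK h0K hev] at h4
    exact (mul_eq_zero.1 h4).resolve_left (neg_one_pow_ne _)
  · intro a ha
    rw [mem_union] at ha
    rw [mem_Ico]
    rcases ha with ha | ha
    · have := hA a ha
      have := hAT a ha
      omega
    · have := mem_Ico.1 (compl_sub (T := i) h0K ha)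
      omega
  · rw [erase_eq_of_notMem hwn, hcu]
    omega
  · have f1 : (A ∪ (range i \ K)).filter (i ≤ ·) = A := by
      ext a
      simp only [mem_filter, mem_union, mem_sdiff, mem_range]
      constructor
      · rintro ⟨h1 | h1, h4⟩
        · exact h1
        · omega
      · intro h1
        exact ⟨Or.inl h1, (hA a h1).le⟩
    have f2 : (A ∪ (range i \ K)).filter (· < i) = range i \ K := by
      ext a
      simp only [mem_filter, mem_union, mem_sdiff, mem_range]
      constructor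
      · rintro ⟨h1 | h1, h4⟩
        · have := hA a h1
          omega
        · exact h1
      · intro h1
        exact ⟨Or.inr h1, h1.1⟩
    have hZ : ((∑ d ∈ A, 2 ^ d + 2 ^ i : ℕ) : ℤ) = ((2 ^ i * (3 * e) : ℕ) : ℤ) := by rw [hAs]
    push_cast at hZ
    have hR : ∑ s ∈ (A ∪ (range i \ K)).filter (i ≤ ·), (2 : ℤ) ^ s
        = 2 ^ i * ((3 * e : ℤ) - 1) := by
      rw [f1]
      linarith
    have hO := ol_of_weight_le (l := #K / 2 - 1) hR (by rw [f2]; omega)
    refine hO.mono ?_
    have h7 : (2 : ℤ) ^ i * e ≤ 2 ^ (w - 1) / (3 : ℕ) := hle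
    rw [Int.le_ediv_iff_mul_le (by norm_num)] at h7
    push_cast at h7
    have h8 : (1 : ℤ) ≤ 2 ^ (w - 1) := one_le_pow₀ (by norm_num)
    linarith

end Dyn59
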