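import Pool.Agent.H.MP_d59dab.FlipB
import Pool.Agent.H.MP_d59dab.FlipC

/-!
# MP_d59dab, p = 3: an explicit form for `w = 4`, `J = {0, 1, 2, 4}`
-/

set_option autoImplicit false

open Finset Polynomial

noncomputable section

namespace Dyn59

namespace W4

/-! ### the residue of `x_S z^l dx_j` -/

section gen

variable {K : Type*} [Field K]

theorem tm_coeff' (f : PowerSeries K) (n : ℤ) (k : ℕ) :
    (tm f n).coeff ((k : ℤ) + n) = PowerSeries.coeff k f := by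
  unfold tm
  rw [HahnSeries.coeff_single_mul_add, one_mul]
  exact HahnSeries.ofPowerSeries_apply_coeff (Γ := ℤ) f k

theorem tm_coeff_lt (f : PowerSeries K) {n m : ℤ} (h : m < n) : (tm f n).coeff m = 0 := by
  unfold tm
  have h1 : m = (m - n) + n := by ring
  rw [h1, HahnSeries.coeff_single_mul_add, one_mul]
  exact ofPS_coeff_neg _ (by omega)

/-- `t d/dt` of `t^(-1) f`, times `t` -/
def th1 (f : PowerSeries K) : PowerSeries K :=
  PowerSeries.mk (fun k => ((k : K) - 1) * PowerSeries.coeff k f)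

theorem thG_tm (f : PowerSeries K) : thG (tm f (-1)) = tm (th1 f) (-1) := by
  ext m
  rw [thG_coeff]
  rcases lt_or_ge m (-1) with hm | hm
  · rw [tm_coeff_lt _ hm, tm_coeff_lt _ hm, mul_zero]
  · obtain ⟨k, hk⟩ := Int.eq_ofNat_of_zero_le (show 0 ≤ m + 1 by omega)
    have h1 : m = (k : ℤ) + (-1) := by omega
    rw [h1, tm_coeff', tm_coeff', th1, PowerSeries.coeff_mk]
    push_cast
    ring

theorem xx_tm (v : ℕ → ℤˣ) : xx K v = tm (yy K v) (-1) := rfl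

theorem evG_xi (h2 : (2 : K) ≠ 0) (v : ℕ → ℤˣ) (j : ℕ) :
    evG (xx K v) (xi K j) = xx K (sh^[j] v) := by
  induction j with
  | zero => rw [xi_zero, evG_X]; rfl
  | succ j ih =>
    have h1 : xi K (j + 1) = xi K j ^ 2 + C X := by rw [xi_sq]; ring
    rw [h1, map_add, map_pow, ih, evG_C, zeG_X, Function.iterate_succ_apply', ← xx_sq h2]
    rfl

theorem evG_mo (h2 : (2 : K) ≠ 0) (v : ℕ → ℤˣ) (S : Finset ℕ) (l : ℕ) :
    evG (xx K v) (mo K S l)
      = tm ((-1) ^ l * ∏ s ∈ S, yy K (sh^[s] v)) (-((#S + 2 * l : ℕ) : ℤ)) := by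
  have h1 : evG (xx K v) (xS K S) = tm (∏ s ∈ S, yy K (sh^[s] v)) (-(#S : ℤ)) := by
    unfold xS
    rw [map_prod]
    induction S using Finset.induction_on with
    | empty => rw [prod_empty, prod_empty, card_empty, Nat.cast_zero, neg_zero, tm_one]
    | insert a S ha ih =>
      rw [prod_insert ha, prod_insert ha, ih, evG_xi h2, xx_tm, tm_mul, card_insert_of_notMem ha]
      congr 1
      push_cast
      ring
  unfold mo
  rw [map_mul, h1, evG_C, map_pow, zeG_X, zG_eq, tm_pow, tm_mul, mul_comm]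
  congr 1
  push_cast
  ring

theorem resid_term (h2 : (2 : K) ≠ 0) (v : ℕ → ℤˣ) (S : Finset ℕ) (l j : ℕ) :
    resid (mo K S l * derivative (xi K j)) (-2 * (mo K S l * Dz (xi K j))) v
      = PowerSeries.coeff (#S + 2 * l + 1)
        ((-1) ^ l * (∏ s ∈ S, yy K (sh^[s] v)) * th1 (yy K (sh^[j] v))) := by
  rw [resid_eq]
  unfold resG
  have h1 : evG (xx K v) (mo K S l * derivative (xi K j)) * thG (xx K v)
      + evG (xx K v) (-2 * (mo K S l * Dz (xi K j))) * zG K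
      = evG (xx K v) (mo K S l) * thG (evG (xx K v) (xi K j)) := by
    rw [thG_evG, thG_zG, map_mul, map_mul, map_mul]
    have h6 : evG (xx K v) (-2 : K[X][X]) = -2 := by
      rw [map_neg, map_ofNat]
    rw [h6]
    ring
  rw [h1, evG_xi h2, evG_mo h2, xx_tm (sh^[j] v), thG_tm, tm_mul]
  have h3 : -((#S + 2 * l : ℕ) : ℤ) + -1 = -((#S + 2 * l + 1 : ℕ) : ℤ) := by
    push_cast
    ring
  rw [h3, tm_coeff_nat]

end gen

/-! ### truncated series over `ZMod 3` -/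

/-- coefficients of `t^0, ..., t^4`, represented by natural numbers -/
structure T5 where
  a0 : ℕ
  a1 : ℕ
  a2 : ℕ
  a3 : ℕ
  a4 : ℕ

/-- product -/
def T5.mul (x y : T5) : T5 :=
  ⟨(x.a0 * y.a0) % 3, (x.a0 * y.a1 + x.a1 * y.a0) % 3,
    (x.a0 * y.a2 + x.a1 * y.a1 + x.a2 * y.a0) % 3,
    (x.a0 * y.a3 + x.a1 * y.a2 + x.a2 * y.a1 + x.a3 * y.a0) % 3,
    (x.a0 * y.a4 + x.a1 * y.a3 + x.a2 * y.a2 + x.a3 * y.a1 + x.a4 * y.a0) % 3⟩

/-- the operator `th1` -/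
def T5.th (x : T5) : T5 := ⟨2 * x.a0 % 3, 0, x.a2, 2 * x.a3 % 3, 0⟩

/-- the leaf series with given signs -/
def y5 (a b c d e : ℕ) : T5 :=
  ⟨a, 2 * a * b % 3, a * (b * c + 1) % 3, 2 * a * c * (b * d + 2) % 3,
    a * (b * c * d * e + 2 * b * d + 2 * c * d + 2) % 3⟩

/-- representation -/
def Rep (f : PowerSeries (ZMod 3)) (a : T5) : Prop :=
  PowerSeries.coeff 0 f = (a.a0 : ZMod 3) ∧ PowerSeries.coeff 1 f = (a.a1 : ZMod 3) ∧
  PowerSeries.coeff 2 f = (a.a2 : ZMod 3) ∧ PowerSeries.coeff 3 f = (a.a3 : ZMod 3) ∧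
  PowerSeries.coeff 4 f = (a.a4 : ZMod 3)

theorem Rep.mul {f g : PowerSeries (ZMod 3)} {a b : T5} (hf : Rep f a) (hg : Rep g b) :
    Rep (f * g) (a.mul b) := by
  obtain ⟨f0, f1, f2, f3, f4⟩ := hf
  obtain ⟨g0, g1, g2, g3, g4⟩ := hg
  have hc : ∀ n, PowerSeries.coeff n (f * g)
      = ∑ i ∈ range (n + 1), PowerSeries.coeff i f * PowerSeries.coeff (n - i) g := by
    intro n
    rw [PowerSeries.coeff_mul, Nat.sum_antidiagonal_eq_sum_range_succ
      (fun i j => PowerSeries.coeff i f * PowerSeries.coeff j g)]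
  unfold Rep T5.mul
  simp only [hc, sum_range_succ, range_zero, sum_empty, zero_add, Nat.reduceSub, Nat.reduceAdd,
    Nat.sub_zero, Nat.sub_self, ZMod.natCast_mod, Nat.cast_add, Nat.cast_mul, f0, f1, f2, f3, f4,
    g0, g1, g2, g3, g4]
  exact ⟨trivial, trivial, trivial, trivial, trivial⟩

theorem Rep.th {f : PowerSeries (ZMod 3)} {a : T5} (hf : Rep f a) : Rep (th1 f) a.th := by
  obtain ⟨f0, f1, f2, f3, f4⟩ := hf
  have h3 : (3 : ZMod 3) = 0 := by decide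
  unfold Rep T5.th th1
  simp only [PowerSeries.coeff_mk, ZMod.natCast_mod, f0, f1, f2, f3, f4]
  push_cast
  refine ⟨?_, ?_, ?_, ?_, ?_⟩
  · linear_combination (-(a.a0 : ZMod 3)) * h3
  · ring
  · ring
  · linear_combination (0 : ZMod 3) * h3
  · linear_combination (a.a4 : ZMod 3) * h3

/-! ### the leaf coefficients -/

theorem e_sq (v : ℕ → ℤˣ) (j : ℕ) : ((v j : ℤ) : ZMod 3) * ((v j : ℤ) : ZMod 3) = 1 := sgn_sq _

theorem inv_two_mul {a : ZMod 3} (ha : a * a = 1) : (2 * a)⁻¹ = 2 * a := by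
  apply inv_eq_of_mul_eq_one_right
  revert a
  decide

theorem cf1 (v : ℕ → ℤˣ) : cf (ZMod 3) 1 v = 2 * ((v 0 : ℤ) : ZMod 3) * ((v 1 : ℤ) : ZMod 3) := by
  rw [cf_succ, inv_two_mul (e_sq v 0), cf_zero]
  simp [sh]

theorem cf2 (v : ℕ → ℤˣ) : cf (ZMod 3) 2 v = ((v 0 : ℤ) : ZMod 3) *
    (((v 1 : ℤ) : ZMod 3) * ((v 2 : ℤ) : ZMod 3) + 1) := by
  rw [cf_succ, inv_two_mul (e_sq v 0), cf1]
  simp only [sum_range_succ, range_zero, sum_empty, zero_add, Nat.sub_zero, cf1, sh]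
  have h0 := e_sq v 0
  have h1 := e_sq v 1
  generalize ((v 0 : ℤ) : ZMod 3) = a at *
  generalize ((v 1 : ℤ) : ZMod 3) = b at *
  generalize ((v 2 : ℤ) : ZMod 3) = c at *
  revert a b c
  decide

theorem cf3 (v : ℕ → ℤˣ) : cf (ZMod 3) 3 v = 2 * ((v 0 : ℤ) : ZMod 3) * ((v 2 : ℤ) : ZMod 3) *
    (((v 1 : ℤ) : ZMod 3) * ((v 3 : ℤ) : ZMod 3) + 2) := by
  rw [cf_succ, inv_two_mul (e_sq v 0), cf2]
  simp only [sum_range_succ, range_zero, sum_empty, zero_add, Nat.sub_zero, cf1, cf2, sh,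
    Nat.reduceAdd, Nat.reduceSub]
  have h0 := e_sq v 0
  have h1 := e_sq v 1
  have h2 := e_sq v 2
  generalize ((v 0 : ℤ) : ZMod 3) = a at *
  generalize ((v 1 : ℤ) : ZMod 3) = b at *
  generalize ((v 2 : ℤ) : ZMod 3) = c at *
  generalize ((v 3 : ℤ) : ZMod 3) = d at *
  revert a b c d
  decide

theorem cf4 (v : ℕ → ℤˣ) : cf (ZMod 3) 4 v = ((v 0 : ℤ) : ZMod 3) *
    (((v 1 : ℤ) : ZMod 3) * ((v 2 : ℤ) : ZMod 3) * ((v 3 : ℤ) : ZMod 3) * ((v 4 : ℤ) : ZMod 3)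
      + 2 * ((v 1 : ℤ) : ZMod 3) * ((v 3 : ℤ) : ZMod 3)
      + 2 * ((v 2 : ℤ) : ZMod 3) * ((v 3 : ℤ) : ZMod 3) + 2) := by
  rw [cf_succ, inv_two_mul (e_sq v 0), cf3]
  simp only [sum_range_succ, range_zero, sum_empty, zero_add, Nat.sub_zero, cf1, cf2, cf3, sh,
    Nat.reduceAdd, Nat.reduceSub]
  have h0 := e_sq v 0
  have h1 := e_sq v 1
  have h2 := e_sq v 2
  have h3 := e_sq v 3
  generalize ((v 0 : ℤ) : ZMod 3) = a at *
  generalize ((v 1 : ℤ) : ZMod 3) = b at *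
  generalize ((v 2 : ℤ) : ZMod 3) = c at *
  generalize ((v 3 : ℤ) : ZMod 3) = d at *
  generalize ((v 4 : ℤ) : ZMod 3) = e at *
  revert a b c d e
  decide +kernel

/-- natural number representing a sign -/
def bn (b : Bool) : ℕ := cond b 1 2

/-- the sign `v j` as a Boolean -/
def vb (v : ℕ → ℤˣ) (j : ℕ) : Bool := decide (v j = 1)

theorem bn_vb (v : ℕ → ℤˣ) (j : ℕ) : ((bn (vb v j) : ℕ) : ZMod 3) = ((v j : ℤ) : ZMod 3) := by
  unfold vb bn
  rcases Int.units_eq_one_or (v j) with h | h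
  · rw [h]
    decide
  · rw [h]
    decide

/-- the series of `x_j` -/
def Yt (v : ℕ → ℤˣ) (j : ℕ) : T5 :=
  y5 (bn (vb v j)) (bn (vb v (j + 1))) (bn (vb v (j + 2))) (bn (vb v (j + 3))) (bn (vb v (j + 4)))

theorem rep_yy (v : ℕ → ℤˣ) (j : ℕ) : Rep (yy (ZMod 3) (sh^[j] v)) (Yt v j) := by
  have hs : ∀ i, ((sh^[j] v) i) = v (j + i) := by
    intro i
    rw [sh_iter, add_comm]
  unfold Rep Yt y5
  simp only [yy_coeff, cf_zero, cf1, cf2, cf3, cf4, hs, ZMod.natCast_mod, Nat.cast_add,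
    Nat.cast_mul, bn_vb, Nat.cast_ofNat, Nat.cast_one, add_zero]
  exact ⟨trivial, trivial, trivial, trivial, trivial⟩

/-! ### the terms -/

theorem term2 (v : ℕ → ℤˣ) {a b j : ℕ} (hab : a ≠ b) :
    resid (mo (ZMod 3) {a, b} 0 * derivative (xi (ZMod 3) j))
      (-2 * (mo (ZMod 3) {a, b} 0 * Dz (xi (ZMod 3) j))) v
      = ((((Yt v a).mul (Yt v b)).mul (Yt v j).th).a3 : ZMod 3) := by
  rw [resid_term (by decide), prod_pair hab, card_pair hab, pow_zero, one_mul]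
  exact (((rep_yy v a).mul (rep_yy v b)).mul (rep_yy v j).th).2.2.2.1

theorem term3 (v : ℕ → ℤˣ) {a b c j : ℕ} (hab : a ≠ b) (hac : a ≠ c) (hbc : b ≠ c) :
    resid (mo (ZMod 3) {a, b, c} 0 * derivative (xi (ZMod 3) j))
      (-2 * (mo (ZMod 3) {a, b, c} 0 * Dz (xi (ZMod 3) j))) v
      = ((((Yt v a).mul ((Yt v b).mul (Yt v c))).mul (Yt v j).th).a4 : ZMod 3) := by
  have ha : a ∉ ({b, c} : Finset ℕ) := by
    rw [mem_insert, mem_singleton]
    tauto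
  rw [resid_term (by decide), prod_insert ha, prod_pair hbc, card_insert_of_notMem ha,
    card_pair hbc, pow_zero, one_mul]
  exact (((rep_yy v a).mul ((rep_yy v b).mul (rep_yy v c))).mul (rep_yy v j).th).2.2.2.2

theorem term1 (v : ℕ → ℤˣ) (a j : ℕ) :
    resid (mo (ZMod 3) {a} 1 * derivative (xi (ZMod 3) j))
      (-2 * (mo (ZMod 3) {a} 1 * Dz (xi (ZMod 3) j))) v
      = 2 * (((Yt v a).mul (Yt v j).th).a4 : ZMod 3) := by
  rw [resid_term (by decide), prod_singleton, card_singleton, pow_one]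
  have h1 := ((rep_yy v a).mul (rep_yy v j).th).2.2.2.2
  have h2 : (-1 : PowerSeries (ZMod 3)) * yy (ZMod 3) (sh^[a] v) * th1 (yy (ZMod 3) (sh^[j] v))
      = -(yy (ZMod 3) (sh^[a] v) * th1 (yy (ZMod 3) (sh^[j] v))) := by ring
  rw [h2, map_neg]
  have h3 : (3 : ZMod 3) = 0 := by decide
  have h4 : (1 + 2 * 1 + 1 : ℕ) = 4 := rfl
  rw [h4, h1]
  linear_combination (-(((Yt v a).mul (Yt v j).th).a4 : ZMod 3)) * h3

/-- the total residue -/
def total (y0 y1 y2 y3 y4 y5 : T5) : ℕ :=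
  2 * ((y3.mul y5).mul y0.th).a3
    + 1 * ((y1.mul (y3.mul y5)).mul y0.th).a4
    + 1 * ((y1.mul (y4.mul y5)).mul y0.th).a4
    + 2 * ((y0.mul (y2.mul y4)).mul y1.th).a4
    + 2 * ((y0.mul (y3.mul y5)).mul y1.th).a4
    + 2 * ((y0.mul (y4.mul y5)).mul y1.th).a4
    + 2 * ((y0.mul y4).mul y2.th).a3
    + 1 * ((y0.mul (y1.mul y3)).mul y2.th).a4
    + 1 * ((y0.mul (y2.mul y4)).mul y2.th).a4
    + 1 * ((y0.mul (y3.mul y4)).mul y2.th).a4
    + 2 * (y0.mul y3.th).a4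
    + 2 * ((y0.mul y3).mul y3.th).a3
    + 2 * ((y0.mul (y1.mul y3)).mul y3.th).a4
    + 2 * ((y0.mul (y2.mul y4)).mul y3.th).a4
    + 2 * ((y0.mul y4).mul y4.th).a3
    + 2 * ((y0.mul (y1.mul y3)).mul y4.th).a4
    + 1 * ((y0.mul (y1.mul y4)).mul y4.th).a4
    + 2 * ((y0.mul y2).mul y5.th).a3
    + 2 * ((y0.mul (y1.mul y2)).mul y5.th).a4

theorem key : ∀ b0 b1 b2 b3 b4 b5 b6 b7 b8 b9 : Bool,
    total (y5 (bn b0) (bn b1) (bn b2) (bn b3) (bn b4)) (y5 (bn b1) (bn b2) (bn b3) (bn b4) (bn b5))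
      (y5 (bn b2) (bn b3) (bn b4) (bn b5) (bn b6)) (y5 (bn b3) (bn b4) (bn b5) (bn b6) (bn b7))
      (y5 (bn b4) (bn b5) (bn b6) (bn b7) (bn b8)) (y5 (bn b5) (bn b6) (bn b7) (bn b8) (bn b9)) % 3
    = (bn b0 * bn b1 * bn b2 * bn b4 + bn b0 * bn b2 * bn b3 * bn b4 + bn b0 * bn b1) % 3 := by
  decide +kernel

/-! ### the form -/

/-- the coefficient of `dx` of a sum of forms `c x_S z^l dx_j` -/
def tA : List (ZMod 3 × Finset ℕ × ℕ × ℕ) → (ZMod 3)[X][X]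
  | [] => 0
  | (c, S, l, j) :: L => C (C c) * (mo (ZMod 3) S l * derivative (xi (ZMod 3) j)) + tA L

/-- the coefficient of `dz` (normalised) of a sum of forms `c x_S z^l dx_j` -/
def tB : List (ZMod 3 × Finset ℕ × ℕ × ℕ) → (ZMod 3)[X][X]
  | [] => 0
  | (c, S, l, j) :: L => C (C c) * (-2 * (mo (ZMod 3) S l * Dz (xi (ZMod 3) j))) + tB L

/-- the sum of the residues -/
def tR (v : ℕ → ℤˣ) : List (ZMod 3 × Finset ℕ × ℕ × ℕ) → ZMod 3
  | [] => 0
  | (c, S, l, j) :: L => c * resid (mo (ZMod 3) S l * derivative (xi (ZMod 3) j))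
      (-2 * (mo (ZMod 3) S l * Dz (xi (ZMod 3) j))) v + tR v L

theorem resid_list (v : ℕ → ℤˣ) (L : List (ZMod 3 × Finset ℕ × ℕ × ℕ)) :
    resid (tA L) (tB L) v = tR v L := by
  induction L with
  | nil => simp [tA, tB, tR, resid, ev]
  | cons x L ih =>
    obtain ⟨c, S, l, j⟩ := x
    rw [tA, tB, tR, FlipC.resid_add, FlipC.resid_CC, ih]

/-- the terms -/
def terms : List (ZMod 3 × Finset ℕ × ℕ × ℕ) :=
  [(2, {3, 5}, 0, 0),
    (1, {1, 3, 5}, 0, 0),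
    (1, {1, 4, 5}, 0, 0),
    (2, {0, 2, 4}, 0, 1),
    (2, {0, 3, 5}, 0, 1),
    (2, {0, 4, 5}, 0, 1),
    (2, {0, 4}, 0, 2),
    (1, {0, 1, 3}, 0, 2),
    (1, {0, 2, 4}, 0, 2),
    (1, {0, 3, 4}, 0, 2),
    (1, {0}, 1, 3),
    (2, {0, 3}, 0, 3),
    (2, {0, 1, 3}, 0, 3),
    (2, {0, 2, 4}, 0, 3),
    (2, {0, 4}, 0, 4),
    (2, {0, 1, 3}, 0, 4),
    (1, {0, 1, 4}, 0, 4),
    (2, {0, 2}, 0, 5),
    (2, {0, 1, 2}, 0, 5)]

theorem tR_terms (v : ℕ → ℤˣ) :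
    tR v terms = (total (Yt v 0) (Yt v 1) (Yt v 2) (Yt v 3) (Yt v 4) (Yt v 5) : ZMod 3) := by
  unfold terms total
  simp only [tR]
  rw [term2 v (a := 3) (b := 5) (j := 0) (by decide)]
  rw [term3 v (a := 1) (b := 3) (c := 5) (j := 0) (by decide) (by decide) (by decide)]
  rw [term3 v (a := 1) (b := 4) (c := 5) (j := 0) (by decide) (by decide) (by decide)]
  rw [term3 v (a := 0) (b := 2) (c := 4) (j := 1) (by decide) (by decide) (by decide)]
  rw [term3 v (a := 0) (b := 3) (c := 5) (j := 1) (by decide) (by decide) (by decide)]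
  rw [term3 v (a := 0) (b := 4) (c := 5) (j := 1) (by decide) (by decide) (by decide)]
  rw [term2 v (a := 0) (b := 4) (j := 2) (by decide)]
  rw [term3 v (a := 0) (b := 1) (c := 3) (j := 2) (by decide) (by decide) (by decide)]
  rw [term3 v (a := 0) (b := 2) (c := 4) (j := 2) (by decide) (by decide) (by decide)]
  rw [term3 v (a := 0) (b := 3) (c := 4) (j := 2) (by decide) (by decide) (by decide)]
  rw [term1 v 0 3]
  rw [term2 v (a := 0) (b := 3) (j := 3) (by decide)]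
  rw [term3 v (a := 0) (b := 1) (c := 3) (j := 3) (by decide) (by decide) (by decide)]
  rw [term3 v (a := 0) (b := 2) (c := 4) (j := 3) (by decide) (by decide) (by decide)]
  rw [term2 v (a := 0) (b := 4) (j := 4) (by decide)]
  rw [term3 v (a := 0) (b := 1) (c := 3) (j := 4) (by decide) (by decide) (by decide)]
  rw [term3 v (a := 0) (b := 1) (c := 4) (j := 4) (by decide) (by decide) (by decide)]
  rw [term2 v (a := 0) (b := 2) (j := 5) (by decide)]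
  rw [term3 v (a := 0) (b := 1) (c := 2) (j := 5) (by decide) (by decide) (by decide)]
  push_cast
  ring

theorem sg_eq (u : ℤˣ) : sg (ZMod 3) u = ((u : ℤ) : ZMod 3) := rfl

/-- the value of the residue -/
theorem resid_terms (v : ℕ → ℤˣ) : resid (tA terms) (tB terms) v
    = sg (ZMod 3) (v 0 * v 1 * v 2 * v 4) + sg (ZMod 3) (v 0 * v 2 * v 3 * v 4)
      + sg (ZMod 3) (v 0 * v 1) := by
  rw [resid_list, tR_terms]
  have h := key (vb v 0) (vb v 1) (vb v 2) (vb v 3) (vb v 4) (vb v 5) (vb v 6) (vb v 7) (vb v 8)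
    (vb v 9)
  have h1 := (ZMod.natCast_eq_natCast_iff _ _ 3).2 h
  unfold Yt
  simp only [zero_add, Nat.reduceAdd]
  rw [h1]
  simp only [map_mul, sg_eq]
  push_cast
  simp only [bn_vb]

end W4

/-- the case `w = 4`, `J = {0, 1, 2, 4}` -/
theorem redJ_four (h : RedJ (ZMod 3) 4 {0, 2, 3, 4}) : RedJ (ZMod 3) 4 {0, 1, 2, 4} := by
  obtain ⟨A', B', c', hc, h1, h2⟩ := h
  have hr : ∀ v : ℕ → ℤˣ, resid (W4.tA W4.terms + C (C (-c'⁻¹)) * A')
      (W4.tB W4.terms + C (C (-c'⁻¹)) * B') v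
      = sg (ZMod 3) (v 0 * v 1 * v 2 * v 4) + sg (ZMod 3) (v 0 * v 2 * v 3 * v 4)
      + sg (ZMod 3) (v 0 * v 1) + (-c'⁻¹) * resid A' B' v := by
    intro v
    rw [FlipC.resid_add, FlipC.resid_CC, W4.resid_terms]
  have hp1 : ∀ v : ℕ → ℤˣ, ∏ j ∈ ({0, 1, 2, 4} : Finset ℕ), v j = v 0 * v 1 * v 2 * v 4 := by
    intro v
    rw [prod_insert (by decide), prod_insert (by decide), prod_insert (by decide), prod_singleton]
    simp only [mul_assoc]
  have hp2 : ∀ v : ℕ → ℤˣ, ∏ j ∈ ({0, 2, 3, 4} : Finset ℕ), v j = v 0 * v 2 * v 3 * v 4 := by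
    intro v
    rw [prod_insert (by decide), prod_insert (by decide), prod_insert (by decide), prod_singleton]
    simp only [mul_assoc]
  have hcc : c'⁻¹ * c' = 1 := inv_mul_cancel₀ hc
  refine ⟨W4.tA W4.terms + C (C (-c'⁻¹)) * A', W4.tB W4.terms + C (C (-c'⁻¹)) * B', 1,
    one_ne_zero, ?_, ?_⟩
  · intro v v' hv
    have h3 := h1 v v' hv
    rw [hr, hr, hp1, hp1]
    rw [hp2, hp2] at h3
    have e0 := hv 0 (by norm_num)
    have e1 := hv 1 (by norm_num)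
    have h4 : sg (ZMod 3) (v 0 * v 1) = sg (ZMod 3) (v' 0 * v' 1) := by rw [e0, e1]
    linear_combination (-c'⁻¹) * h3 + h4 + (sg (ZMod 3) (v' 0 * v' 2 * v' 3 * v' 4)
      - sg (ZMod 3) (v 0 * v 2 * v 3 * v 4)) * hcc
  · intro v v' h0 hj
    have h3 := h2 v v' h0 hj
    have e1 := hj 0
    have e2 := hj 1
    have e3 := hj 2
    have e4 := hj 3
    simp only [zero_add, Nat.reduceAdd] at e1 e2 e3 e4
    rw [hr, hr, h3, h0, e1, e2, e3, e4]
    have hn : ∀ u : ℤˣ, sg (ZMod 3) (-u) = - sg (ZMod 3) u := by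
      intro u
      rw [W4.sg_eq, W4.sg_eq, Units.val_neg, Int.cast_neg]
    rw [neg_mul, neg_mul, neg_mul, neg_mul, neg_mul, neg_mul, neg_mul, hn, hn, hn]
    ring

end Dyn59
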