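import Pool.Agent.H.MP_d59dab.FlipI
import Pool.Agent.H.MP_d59dab.P3D
import Pool.Agent.H.MP_d59dab.W4

/-!
# MP_d59dab: `StarE (ZMod 3)`
-/

set_option autoImplicit false

open Finset Polynomial

noncomputable section

namespace Dyn59

/-- complement of `J` in the window -/
theorem compl_data {w : ℕ} {J : Finset ℕ} (h0 : 0 ∈ J) (hw : w ∈ J) (hJ : ∀ j ∈ J, j ≤ w)
    (hev : Even #J) (h4 : 4 ≤ #J) : ∃ (I : Finset ℕ) (l : ℕ), 3 ≤ w ∧ I ⊆ Ico 1 w ∧
      #I + 2 * l + 3 = w ∧ range (w + 1) \ I = J ∧ ∀ a, a ∈ I ↔ a ≤ w ∧ a ∉ J := by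
  have hJw : J ⊆ range (w + 1) := fun j hj => mem_range.2 (Nat.lt_succ_of_le (hJ j hj))
  have hI : range (w + 1) \ J ⊆ Ico 1 w := by
    intro a ha
    rw [mem_sdiff, mem_range] at ha
    rw [mem_Ico]
    have h5 : a ≠ 0 := fun h => ha.2 (h ▸ h0)
    have h6 : a ≠ w := fun h => ha.2 (h ▸ hw)
    omega
  have hcard : #(range (w + 1) \ J) + #J = w + 1 := by
    rw [card_sdiff_add_card_eq_card hJw, card_range]
  obtain ⟨l, hl⟩ : ∃ l, #J = 2 * l + 4 := by
    obtain ⟨m, hm⟩ := hev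
    exact ⟨m - 2, by omega⟩
  refine ⟨range (w + 1) \ J, l, by omega, hI, by omega, Finset.sdiff_sdiff_eq_self hJw, ?_⟩
  intro a
  rw [mem_sdiff, mem_range, Nat.lt_succ_iff]

/-- `StarE` for `p = 3` from the one-step reductions of the window statement -/
theorem starE_three_of_red
    (hred : ∀ (w l : ℕ) (I : Finset ℕ) (T : (ZMod 3)[X][X]), 3 ≤ w → I ⊆ Ico 1 w →
      #I + 2 * l + 3 = w → T ∈ Tw 3 w → Car 3 (mo (ZMod 3) I l - T) = 0 →
      T ∈ FQ (ZMod 3) (3 * 2 ^ (w - 1) - 1) → RedJ (ZMod 3) w (range (w + 1) \ I))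
    (hred3 : ∀ (w l : ℕ) (I : Finset ℕ) (T : (ZMod 3)[X][X]), 3 ≤ w → I ⊆ Ico 1 w →
      #I + 2 * l + 3 = w → T ∈ Tw 3 w → Car 3 (mo (ZMod 3) I l - T) = 0 →
      (∀ J' : Finset ℕ, J' ⊆ range (w + 1) → 0 ∈ J' → w - 1 ∈ J' → w ∈ J' → Even #J' →
        4 ≤ #J' → RedJ (ZMod 3) w J') → RedJ (ZMod 3) w (range (w + 1) \ I)) :
    StarE (ZMod 3) := by
  have key : ∀ (w : ℕ) (J : Finset ℕ), 0 ∈ J → w ∈ J → (∀ j ∈ J, j ≤ w) → Even #J → 4 ≤ #J →
      w - 1 ∈ J → RedJ (ZMod 3) w J := by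
    intro w J h0 hw hJ hev h4 hw1
    obtain ⟨I, l, hw3, hI, hc, hJI, hm⟩ := compl_data h0 hw hJ hev h4
    obtain ⟨T, hT, hC⟩ := plus3b hI hc (fun h => ((hm _).1 h).2 hw1)
    have h5 := hred w l I T hw3 hI hc (Tw3_le hT) hC (Tw3_FQ hT)
    rwa [hJI] at h5
  refine starE_of_red (by decide) ?_
  intro w J h0 hw hJ hev h4
  by_cases hw1 : w - 1 ∈ J
  · exact key w J h0 hw hJ hev h4 hw1
  · obtain ⟨I, l, hw3, hI, hc, hJI, hm⟩ := compl_data h0 hw hJ hev h4
    by_cases hw4 : w = 4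
    · subst hw4
      have hJ4 : J = {0, 1, 2, 4} := by
        apply Finset.eq_of_subset_of_card_le
        · intro j hj
          have h6 := hJ j hj
          have h7 : j ≠ 3 := by
            rintro rfl
            exact hw1 hj
          simp only [mem_insert, mem_singleton]
          omega
        · exact h4
      rw [hJ4]
      apply redJ_four
      apply key 4 {0, 2, 3, 4}
      · decide
      · decide
      · decide
      · decide
      · decide
      · decide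
    · obtain ⟨T, hT, hC⟩ := plus3a hI hc hw4
      have h5 := hred3 w l I T hw3 hI hc hT hC
        (fun J' hJ' h0' hw1' hw' hev' h4' => key w J' h0' hw' (fun j hj => by
          have := mem_range.1 (hJ' hj)
          omega) hev' h4' hw1')
      rwa [hJI] at h5

/-- **`StarE` for `p = 3`** -/
theorem starE_three : StarE (ZMod 3) :=
  starE_three_of_red
    (fun _ _ _ _ _ hI hc hT hC hF => redJ_of_T three_ne_two hI hc hT hC (fun _ => hF))
    (fun w _ _ _ _ hI hc hT hC hJ => redJ_three three_ne_two hI hc (fun J hJ' => by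
      obtain ⟨h1, h2, h3, h4, h5, h6⟩ := mem_Jw.1 hJ'
      exact hJ J h1 h2 h3 h4 h5 h6) hT hC)

end Dyn59
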