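import Pool.Agent.H.MP_d59dab.FlipC
import Pool.Agent.H.MP_d59dab.Plus

/-!
# MP_d59dab: `StarE (ZMod p)` for `p ≥ 5`
-/

set_option autoImplicit false

open Finset Polynomial

noncomputable section

namespace Dyn59

variable {p : ℕ} [hp : Fact p.Prime]

/-- `StarE` for `p ≥ 5` from the one-step reduction of the window statement -/
theorem starE_five_of_red (hp5 : 5 ≤ p)
    (hred : ∀ (w l : ℕ) (I : Finset ℕ) (T : (ZMod p)[X][X]), 3 ≤ w → I ⊆ Ico 1 w →
      #I + 2 * l + 3 = w → T ∈ Tw p w → Car p (mo (ZMod p) I l - T) = 0 →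
      RedJ (ZMod p) w (range (w + 1) \ I)) : StarE (ZMod p) := by
  have h2 : p ≠ 2 := by omega
  refine starE_of_red (two_ne_zero' h2) ?_
  intro w J h0 hw hJ hev h4
  have hJw : J ⊆ range (w + 1) := fun j hj => mem_range.2 (Nat.lt_succ_of_le (hJ j hj))
  have hI : range (w + 1) \ J ⊆ Ico 1 w := by
    intro a ha
    rw [mem_sdiff, mem_range] at ha
    rw [mem_Ico]
    have h5 : a ≠ 0 := fun h => ha.2 (h ▸ h0)
    have h6 : a ≠ w := fun h => ha.2 (h ▸ hw)
    omega
  have hcard : #(range (w + 1) \ J) + #J = w + 1 := by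
    rw [card_sdiff_add_card_eq_card hJw, card_range]
  obtain ⟨l, hl⟩ : ∃ l, #J = 2 * l + 4 := by
    obtain ⟨m, hm⟩ := hev
    exact ⟨m - 2, by omega⟩
  have hcard' : #(range (w + 1) \ J) + 2 * l + 3 = w := by omega
  obtain ⟨T, hT, hC⟩ := plus_five hp5 hI hcard'
  have h5 := hred w l _ T (by omega) hI hcard' hT hC
  rwa [Finset.sdiff_sdiff_eq_self hJw] at h5

end Dyn59
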