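import Pool.Agent.H.MP_d59dab.FlipI
import Pool.Agent.H.MP_d59dab.StarFive

/-!
# MP_d59dab: `StarE (ZMod p)` for `p ≥ 5`
-/

set_option autoImplicit false

open Finset Polynomial

noncomputable section

namespace Dyn59

theorem starE_five {p : ℕ} [hp : Fact p.Prime] (hp5 : 5 ≤ p) : StarE (ZMod p) := by
  refine starE_five_of_red hp5 ?_
  intro w l I T _ hI hIl hT hC
  exact redJ_of_T (by omega) hI hIl hT hC (fun h => absurd h (by omega))

end Dyn59
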