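import Pool.Agent.H.MP_d59dab.Od

/-!
# MP_d59dab: top coefficients of successive odd parts
-/

set_option autoImplicit false

open Finset Polynomial

noncomputable section

namespace Dyn59

variable {R : Type*} [CommRing R]

/-- the coefficient of `X^x z^B`, `B` an integer -/
def zc (P : R[X][X]) (x : ℕ) (B : ℤ) : R := if 0 ≤ B then (P.coeff x).coeff B.toNat else 0

theorem zc_nat (P : R[X][X]) (x b : ℕ) : zc P x (b : ℤ) = (P.coeff x).coeff b := by
  unfold zc
  rw [if_pos (Int.natCast_nonneg b), Int.toNat_natCast]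

theorem zc_neg (P : R[X][X]) (x : ℕ) {B : ℤ} (h : B < 0) : zc P x B = 0 := by
  unfold zc
  rw [if_neg (by omega)]

theorem zc_add (P Q : R[X][X]) (x : ℕ) (B : ℤ) : zc (P + Q) x B = zc P x B + zc Q x B := by
  unfold zc
  split_ifs
  · rw [coeff_add, coeff_add]
  · rw [add_zero]

theorem zc_sum {ι : Type*} (s : Finset ι) (f : ι → R[X][X]) (x : ℕ) (B : ℤ) :
    zc (∑ j ∈ s, f j) x B = ∑ j ∈ s, zc (f j) x B := by
  unfold zc
  split_ifs
  · rw [finsetSum_coeff, finsetSum_coeff]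
  · rw [sum_const_zero]

theorem zc_X_pow_mul (l : ℕ) (P : R[X][X]) (x : ℕ) (B : ℤ) :
    zc (C (X ^ l) * P) x B = zc P x (B - l) := by
  unfold zc
  by_cases h : 0 ≤ B
  · rw [if_pos h, coeff_C_mul, coeff_X_pow_mul']
    by_cases h1 : l ≤ B.toNat
    · rw [if_pos h1, if_pos (by omega)]
      congr 1
      omega
    · rw [if_neg h1, if_neg (by omega)]
  · rw [if_neg h, if_neg (by omega)]

theorem zc_u_mul_zero (P : R[X][X]) (B : ℤ) :
    zc ((X - C X) * P) 0 B = - zc P 0 (B - 1) := by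
  have h := zc_X_pow_mul 1 P 0 B
  rw [pow_one, Nat.cast_one] at h
  rw [← h, sub_mul]
  unfold zc
  split_ifs
  · rw [coeff_sub, coeff_X_mul_zero, zero_sub, coeff_neg]
  · rw [neg_zero]

theorem zc_u_mul_succ (P : R[X][X]) (x : ℕ) (B : ℤ) :
    zc ((X - C X) * P) (x + 1) B = zc P x B - zc P (x + 1) (B - 1) := by
  have h := zc_X_pow_mul 1 P (x + 1) B
  rw [pow_one, Nat.cast_one] at h
  rw [← h, sub_mul]
  unfold zc
  split_ifs
  · rw [coeff_sub, coeff_X_mul, coeff_sub]
  · rw [sub_zero]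

theorem zc_C_mul_u_pow (h : R[X]) (j c : ℕ) (B : ℤ) :
    zc (C h * (X - C X) ^ j) c B
      = if c ≤ j then (-1) ^ (j - c) * (j.choose c : R) * zc (C h) 0 (B - (j - c : ℕ)) else 0 := by
  unfold zc
  by_cases hB : 0 ≤ B
  · have e0 : (X - C X : R[X][X]) = X + C (-X) := by rw [C_neg, sub_eq_add_neg]
    rw [if_pos hB, coeff_C_mul, e0, coeff_X_add_C_pow]
    have e1 : ((-X : R[X]) ^ (j - c) * (j.choose c : R[X]))
        = C ((-1) ^ (j - c) * (j.choose c : R)) * X ^ (j - c) := by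
      rw [neg_pow, C_mul, C_pow, C_neg, C_1, C_eq_natCast]
      ring
    rw [e1, ← mul_assoc, mul_comm h, mul_assoc, coeff_C_mul, coeff_mul_X_pow', coeff_C_zero]
    by_cases hc : c ≤ j
    · rw [if_pos hc]
      by_cases h1 : j - c ≤ B.toNat
      · rw [if_pos h1, if_pos (by omega)]
        congr 2
        omega
      · rw [if_neg h1, if_neg (by omega)]
    · rw [if_neg hc, Nat.choose_eq_zero_of_lt (by omega)]
      simp
  · rw [if_neg hB]
    split_ifs <;> first | omega | simp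

theorem sum_two_mul (n : ℕ) (f : ℕ → R[X][X]) :
    ∑ k ∈ range (2 * n), f k = ∑ j ∈ range n, (f (2 * j) + f (2 * j + 1)) := by
  induction n with
  | zero => simp
  | succ n ih =>
    rw [mul_add, mul_one, sum_range_succ, sum_range_succ, ih, sum_range_succ, add_assoc]

theorem evp_sum_od_sum {f : R[X][X]} {n : ℕ} (hn : f.natDegree < 2 * n) :
    evp f = ∑ j ∈ range n, C (f.coeff (2 * j)) * (X - C X) ^ j ∧
    od f = ∑ j ∈ range n, C (f.coeff (2 * j + 1)) * (X - C X) ^ j := by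
  have h : f = sig R (∑ j ∈ range n, C (f.coeff (2 * j)) * (X - C X) ^ j)
      + X * sig R (∑ j ∈ range n, C (f.coeff (2 * j + 1)) * (X - C X) ^ j) := by
    conv_lhs => rw [as_sum_range_C_mul_X_pow' f hn]
    rw [sum_two_mul, map_sum, map_sum, mul_sum, ← sum_add_distrib]
    apply sum_congr rfl
    intro j _
    rw [map_mul, map_mul, sig_u_pow, sig_C, sig_C]
    ring
  exact ⟨evp_eq h, od_eq h⟩

theorem zc_evp {f : R[X][X]} {n : ℕ} (hn : f.natDegree < 2 * n) (c : ℕ) (B : ℤ) :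
    zc (evp f) c B = ∑ j ∈ range n, if c ≤ j then
      (-1) ^ (j - c) * (j.choose c : R) * zc f (2 * j) (B - (j - c : ℕ)) else 0 := by
  rw [(evp_sum_od_sum hn).1, zc_sum]
  apply sum_congr rfl
  intro j _
  rw [zc_C_mul_u_pow]
  congr 2
  unfold zc
  rw [coeff_C_zero]

theorem zc_od {f : R[X][X]} {n : ℕ} (hn : f.natDegree < 2 * n) (c : ℕ) (B : ℤ) :
    zc (od f) c B = ∑ j ∈ range n, if c ≤ j then
      (-1) ^ (j - c) * (j.choose c : R) * zc f (2 * j + 1) (B - (j - c : ℕ)) else 0 := by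
  rw [(evp_sum_od_sum hn).2, zc_sum]
  apply sum_congr rfl
  intro j _
  rw [zc_C_mul_u_pow]
  congr 2
  unfold zc
  rw [coeff_C_zero]

/-- six top coefficients -/
@[ext] structure St (R : Type*) where
  c00 : R
  c01 : R
  c02 : R
  c11 : R
  c12 : R
  c22 : R

/-- `P` has weight at most `W` and the top coefficients `v` -/
structure Top (W : ℤ) (P : R[X][X]) (v : St R) : Prop where
  bd : ∀ (x : ℕ) (B : ℤ), W < 2 * x + 2 * B → zc P x B = 0
  h00 : ∀ B : ℤ, 2 * B = W → zc P 0 B = v.c00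
  h01 : ∀ B : ℤ, 2 * B + 1 = W → zc P 0 B = v.c01
  h02 : ∀ B : ℤ, 2 * B + 2 = W → zc P 0 B = v.c02
  h11 : ∀ B : ℤ, 2 * B + 2 = W → zc P 1 B = v.c11
  h12 : ∀ B : ℤ, 2 * B + 3 = W → zc P 1 B = v.c12
  h22 : ∀ B : ℤ, 2 * B + 4 = W → zc P 2 B = v.c22

theorem Top.one : Top 0 (1 : R[X][X]) ⟨1, 0, 0, 0, 0, 0⟩ where
  bd x B h := by
    unfold zc
    split_ifs with hB
    · rw [coeff_one]
      split_ifs with h1
      · rw [coeff_one, if_neg (by omega)]
      · rw [coeff_zero]
    · rfl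
  h00 B h := by
    have : B = 0 := by omega
    subst this
    simp [zc]
  h01 B h := by omega
  h02 B h := zc_neg _ _ (by omega)
  h11 B h := zc_neg _ _ (by omega)
  h12 B h := by omega
  h22 B h := zc_neg _ _ (by omega)

theorem evp_bd {W : ℤ} {P : R[X][X]}
    (bd : ∀ (x : ℕ) (B : ℤ), W < 2 * x + 2 * B → zc P x B = 0) (x : ℕ) (B : ℤ)
    (h : W < 4 * x + 2 * B) : zc (evp P) x B = 0 := by
  rw [zc_evp (n := P.natDegree + 1) (by omega)]
  apply sum_eq_zero
  intro j _
  split_ifs with h1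
  · rw [bd _ _ (by push_cast [Nat.cast_sub h1]; omega), mul_zero]
  · rfl

theorem od_bd {W : ℤ} {P : R[X][X]}
    (bd : ∀ (x : ℕ) (B : ℤ), W < 2 * x + 2 * B → zc P x B = 0) (x : ℕ) (B : ℤ)
    (h : W < 4 * x + 2 * B + 2) : zc (od P) x B = 0 := by
  rw [zc_od (n := P.natDegree + 1) (by omega)]
  apply sum_eq_zero
  intro j _
  split_ifs with h1
  · rw [bd _ _ (by push_cast [Nat.cast_sub h1]; omega), mul_zero]
  · rfl

theorem Top.evp {W : ℤ} {P : R[X][X]} {v : St R} (h : Top W P v) :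
    Top W (evp P) ⟨v.c00, v.c01, v.c02 - v.c22, 0, 0, 0⟩ where
  bd x B hB := evp_bd h.bd x B (by omega)
  h00 B hB := by
    rw [zc_evp (n := P.natDegree + 1) (by omega), sum_range_succ', sum_eq_zero, zero_add,
      if_pos le_rfl, ← h.h00 B hB]
    · simp
    · intro j _
      rw [if_pos (by omega), h.bd _ _ (by push_cast; omega), mul_zero]
  h01 B hB := by
    rw [zc_evp (n := P.natDegree + 1) (by omega), sum_range_succ', sum_eq_zero, zero_add,
      if_pos le_rfl, ← h.h01 B hB]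
    · simp
    · intro j _
      rw [if_pos (by omega), h.bd _ _ (by push_cast; omega), mul_zero]
  h02 B hB := by
    rw [zc_evp (n := P.natDegree + 1 + 1) (by omega), sum_range_succ', sum_range_succ',
      sum_eq_zero, zero_add, if_pos (by omega), if_pos (by omega), ← h.h02 B hB,
      ← h.h22 (B - 1) (by omega)]
    · simp
      ring
    · intro j _
      rw [if_pos (by omega), h.bd _ _ (by push_cast; omega), mul_zero]
  h11 B hB := evp_bd h.bd _ _ (by push_cast; omega)
  h12 B hB := evp_bd h.bd _ _ (by push_cast; omega)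
  h22 B hB := evp_bd h.bd _ _ (by push_cast; omega)

theorem Top.od {W : ℤ} {P : R[X][X]} {v : St R} (h : Top W P v) :
    Top (W - 1) (od P) ⟨0, v.c11, v.c12, 0, 0, 0⟩ where
  bd x B hB := od_bd h.bd x B (by omega)
  h00 B hB := od_bd h.bd _ _ (by push_cast; omega)
  h01 B hB := by
    rw [zc_od (n := P.natDegree + 1) (by omega), sum_range_succ', sum_eq_zero, zero_add,
      if_pos le_rfl, ← h.h11 B (by omega)]
    · simp
    · intro j _
      rw [if_pos (by omega), h.bd _ _ (by push_cast; omega), mul_zero]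
  h02 B hB := by
    rw [zc_od (n := P.natDegree + 1) (by omega), sum_range_succ', sum_eq_zero, zero_add,
      if_pos le_rfl, ← h.h12 B (by omega)]
    · simp
    · intro j _
      rw [if_pos (by omega), h.bd _ _ (by push_cast; omega), mul_zero]
  h11 B hB := od_bd h.bd _ _ (by push_cast; omega)
  h12 B hB := od_bd h.bd _ _ (by push_cast; omega)
  h22 B hB := od_bd h.bd _ _ (by push_cast; omega)

theorem Top.u_mul {W : ℤ} {P : R[X][X]} {v : St R} (h : Top W P v) :
    Top (W + 2) ((X - C X) * P)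
      ⟨-v.c00, -v.c01, -v.c02, v.c00 - v.c11, v.c01 - v.c12, v.c11 - v.c22⟩ where
  bd x B hB := by
    rcases x with _ | x
    · rw [zc_u_mul_zero, h.bd _ _ (by push_cast at hB ⊢; omega), neg_zero]
    · rw [zc_u_mul_succ, h.bd _ _ (by push_cast at hB ⊢; omega),
        h.bd _ _ (by push_cast at hB ⊢; omega), sub_zero]
  h00 B hB := by rw [zc_u_mul_zero, h.h00 _ (by omega)]
  h01 B hB := by rw [zc_u_mul_zero, h.h01 _ (by omega)]
  h02 B hB := by rw [zc_u_mul_zero, h.h02 _ (by omega)]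
  h11 B hB := by rw [zc_u_mul_succ, h.h00 _ (by omega), h.h11 _ (by omega)]
  h12 B hB := by rw [zc_u_mul_succ, h.h01 _ (by omega), h.h12 _ (by omega)]
  h22 B hB := by rw [zc_u_mul_succ, h.h11 _ (by omega), h.h22 _ (by omega)]

theorem Top.u_pow_mul {W : ℤ} {P : R[X][X]} {v : St R} (h : Top W P v) (M : ℕ) :
    Top (W + 2 * M) ((X - C X) ^ M * P)
      ⟨(-1) ^ M * v.c00, (-1) ^ M * v.c01, (-1) ^ M * v.c02, (-1) ^ M * (v.c11 - M * v.c00),
        (-1) ^ M * (v.c12 - M * v.c01),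
        (-1) ^ M * (v.c22 - M * v.c11 + (M.choose 2 : ℕ) * v.c00)⟩ := by
  induction M with
  | zero => simpa using h
  | succ M ih =>
    have h1 := ih.u_mul
    rw [pow_succ', mul_assoc]
    convert h1 using 1
    · push_cast
      ring
    · have e : ((M + 1).choose 2 : ℕ) = M + M.choose 2 := by
        rw [Nat.choose_succ_succ, Nat.choose_one_right]
      ext <;> simp only [e] <;> push_cast <;> ring

end Dyn59
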